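import Mathlib

namespace Pool.Agent.H22.ColoredPart

open PowerSeries Finset

/-- The power series `1 / (1 - x ^ q) = 1 + x ^ q + x ^ (2 q) + ...`. -/
noncomputable def geo (q : ℕ) : PowerSeries ℤ := PowerSeries.mk fun k => if q ∣ k then 1 else 0

/-- The product `(1 - x) ^ (-m) * prod_{j < J} (1 - x ^ (p ^ j)) ^ (-(p - 1) m)`. -/
noncomputable def genF (p m J : ℕ) : PowerSeries ℤ :=
  geo 1 ^ m * ∏ j ∈ range J, geo (p ^ j) ^ ((p - 1) * m)

/-- `d_m(n)`: the coefficient of `x ^ n`; the factors with `j > n` do not affect it. -/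
noncomputable def d (p m n : ℕ) : ℤ := coeff n (genF p m (n + 1))

theorem geo_one : geo 1 = PowerSeries.mk 1 := by
  ext n
  simp [geo]

theorem expand_geo (p q : ℕ) (hp : p ≠ 0) : expand p hp (geo q) = geo (p * q) := by
  ext n
  rw [coeff_expand]
  by_cases h : p ∣ n
  · obtain ⟨k, rfl⟩ := h
    simp [geo, Nat.mul_div_cancel_left _ (Nat.pos_of_ne_zero hp), Nat.mul_dvd_mul_iff_left
      (Nat.pos_of_ne_zero hp)]
  · have : ¬ p * q ∣ n := fun h' => h (dvd_of_mul_right_dvd h')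
    simp [geo, h, this]

theorem geo_one_mul : geo 1 * (1 - X) = 1 := by
  rw [geo_one, mk_one_mul_one_sub_eq_one]

theorem geo_mul (q : ℕ) (hq : q ≠ 0) : geo q * (1 - X ^ q) = 1 := by
  have := congrArg (expand q hq) geo_one_mul
  rwa [map_mul, expand_geo, map_sub, map_one, expand_X, mul_one] at this

theorem coeff_genF_succ (p m J n : ℕ) (h : n < p ^ J) :
    coeff n (genF p m (J + 1)) = coeff n (genF p m J) := by
  have h1 : (X : PowerSeries ℤ) ^ (p ^ J) ∣ geo (p ^ J) - 1 :=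
    ⟨geo (p ^ J), by linear_combination geo_mul (p ^ J) (by omega)⟩
  have h2 := h1.trans (sub_dvd_pow_sub_pow (geo (p ^ J)) 1 ((p - 1) * m))
  rw [one_pow] at h2
  have h3 := h2.mul_left (genF p m J)
  have h4 : genF p m J * (geo (p ^ J) ^ ((p - 1) * m) - 1) = genF p m (J + 1) - genF p m J := by
    rw [genF, genF, prod_range_succ]
    ring
  rw [h4, X_pow_dvd_iff] at h3
  have := h3 n h
  rwa [map_sub, sub_eq_zero] at this

theorem coeff_genF (p m n J : ℕ) (hp : 2 ≤ p) (h : n + 1 ≤ J) :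
    coeff n (genF p m J) = d p m n := by
  induction J, h using Nat.le_induction with
  | base => rfl
  | succ J hJ ih =>
    rw [coeff_genF_succ p m J n, ih]
    exact lt_of_lt_of_le (by omega) (Nat.lt_pow_self (n := J) (show 1 < p by omega)).le

theorem genF_succ (p m J : ℕ) (hp : p ≠ 0) :
    genF p m (J + 1) = (geo 1 ^ p * (1 - X ^ p)) ^ m * expand p hp (genF p m J) := by
  obtain ⟨k, rfl⟩ := Nat.exists_eq_succ_of_ne_zero hp
  rw [genF, genF, prod_range_succ', map_mul, map_pow, map_prod, expand_geo]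
  simp only [map_pow, expand_geo, pow_zero, mul_one, ← pow_succ', Nat.succ_sub_one]
  have h : (geo k.succ * (1 - X ^ k.succ)) ^ m = 1 := by rw [geo_mul _ hp, one_pow]
  rw [mul_pow] at h ⊢
  rw [← pow_mul, Nat.succ_mul, pow_add]
  linear_combination (-(geo 1 ^ (k * m) * geo 1 ^ m *
    ∏ j ∈ range J, geo (k.succ ^ (j + 1)) ^ (k * m))) * h

/-- The operator extracting every `p`-th coefficient. -/
noncomputable def U (p : ℕ) : PowerSeries ℤ →ₗ[ℤ] PowerSeries ℤ where
  toFun f := PowerSeries.mk fun n => coeff (p * n) f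
  map_add' f g := by
    ext n
    simp
  map_smul' c f := by
    ext n
    simp only [coeff_mk, map_smul, RingHom.id_apply]

theorem coeff_U (p n : ℕ) (f : PowerSeries ℤ) : coeff n (U p f) = coeff (p * n) f := by
  simp [U]

theorem U_mul_expand (p : ℕ) (hp : p ≠ 0) (f g : PowerSeries ℤ) :
    U p (f * expand p hp g) = U p f * g := by
  ext n
  rw [coeff_U, coeff_mul, coeff_mul]
  symm
  refine sum_of_injOn (fun x => (p * x.1, p * x.2)) ?_ ?_ ?_ ?_
  · intro x _ y _ h
    simp only [Prod.mk.injEq] at h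
    exact Prod.ext (Nat.eq_of_mul_eq_mul_left (Nat.pos_of_ne_zero hp) h.1)
      (Nat.eq_of_mul_eq_mul_left (Nat.pos_of_ne_zero hp) h.2)
  · intro x hx
    simp only [mem_coe, HasAntidiagonal.mem_antidiagonal] at hx ⊢
    rw [← hx, mul_add]
  · intro x hx hn
    rw [HasAntidiagonal.mem_antidiagonal] at hx
    rw [coeff_expand_of_not_dvd, mul_zero]
    rintro ⟨b, hb⟩
    have : p ∣ x.1 := (Nat.dvd_add_left ⟨b, hb⟩).1 ⟨n, hx⟩
    obtain ⟨a, ha⟩ := this
    refine hn ⟨(a, b), ?_, Prod.ext ha.symm hb.symm⟩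
    simp only [mem_coe, HasAntidiagonal.mem_antidiagonal]
    apply Nat.eq_of_mul_eq_mul_left (Nat.pos_of_ne_zero hp)
    rw [mul_add, ← ha, ← hb, hx]
  · intro x _
    simp [coeff_U]

theorem coeff_genF_mul (p m J n : ℕ) (hp : p ≠ 0) (P : PowerSeries ℤ) :
    coeff (p * n) (genF p m (J + 1) * P) =
      coeff n (genF p m J * U p ((geo 1 ^ p * (1 - X ^ p)) ^ m * P)) := by
  rw [← coeff_U, genF_succ p m J hp, mul_right_comm, U_mul_expand, mul_comm]

theorem d_mul_sub (p m n J : ℕ) (hp : 2 ≤ p) (hJ : p * n + 1 ≤ J) :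
    d p m (p * n) - d p m n =
      coeff n (genF p m J * (U p ((geo 1 ^ p * (1 - X ^ p)) ^ m) - 1)) := by
  have h := coeff_genF_mul p m J n (by omega) 1
  rw [mul_one, mul_one, coeff_genF p m (p * n) (J + 1) hp (by omega)] at h
  rw [mul_sub, map_sub, mul_one, ← h, coeff_genF p m n J hp (by nlinarith)]

end Pool.Agent.H22.ColoredPart
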