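import Mathlib

set_option autoImplicit false
open MeasureTheory ProbabilityTheory Set Real Matrix WithLp

namespace Pool.Agent.H22.Cond
noncomputable section

variable {n : ℕ}

abbrev γ1 : Measure ℝ := gaussianReal 0 1
abbrev γ (n : ℕ) : Measure (Fin n → ℝ) := Measure.pi fun _ => γ1
abbrev Γ (n : ℕ) : Measure (Fin n → Fin n → ℝ) := Measure.pi fun _ => γ n

def nv (x : Fin n → ℝ) : ℝ := ‖(toLp 2 x : EuclideanSpace ℝ (Fin n))‖

def N (M : Matrix (Fin n) (Fin n) ℝ) : ℝ := ‖toEuclideanCLM (n := Fin n) (𝕜 := ℝ) M‖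

lemma nv_nonneg (x : Fin n → ℝ) : 0 ≤ nv x := norm_nonneg _

lemma N_nonneg (M : Matrix (Fin n) (Fin n) ℝ) : 0 ≤ N M := norm_nonneg _

lemma nv_sq (x : Fin n → ℝ) : nv x ^ 2 = x ⬝ᵥ x := by
  rw [nv, EuclideanSpace.norm_sq_eq]; simp [dotProduct, sq]

lemma nv_add (x y : Fin n → ℝ) : nv (x + y) ≤ nv x + nv y := norm_add_le (toLp 2 x) (toLp 2 y)

lemma nv_sub (x y : Fin n → ℝ) : nv (x - y) ≤ nv x + nv y := norm_sub_le (toLp 2 x) (toLp 2 y)

lemma nv_smul (c : ℝ) (x : Fin n → ℝ) : nv (c • x) = |c| * nv x := norm_smul c (toLp 2 x)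

lemma cs (x y : Fin n → ℝ) : |x ⬝ᵥ y| ≤ nv x * nv y := by
  simpa [EuclideanSpace.inner_toLp_toLp, dotProduct_comm, nv] using
    abs_real_inner_le_norm (toLp 2 x : EuclideanSpace ℝ (Fin n)) (toLp 2 y)

lemma mv_le (M : Matrix (Fin n) (Fin n) ℝ) (x : Fin n → ℝ) : nv (M *ᵥ x) ≤ N M * nv x :=
  (toEuclideanCLM (n := Fin n) (𝕜 := ℝ) M).le_opNorm (toLp 2 x)

lemma N_le {M : Matrix (Fin n) (Fin n) ℝ} {c : ℝ} (hc : 0 ≤ c) (h : ∀ x, nv (M *ᵥ x) ≤ c * nv x) :
    N M ≤ c := ContinuousLinearMap.opNorm_le_bound _ hc fun x => h x.ofLp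

lemma N_add (A B : Matrix (Fin n) (Fin n) ℝ) : N (A + B) ≤ N A + N B := by
  unfold N; rw [map_add]; exact norm_add_le _ _

lemma N_smul (c : ℝ) (A : Matrix (Fin n) (Fin n) ℝ) : N (c • A) = |c| * N A := by
  unfold N; rw [map_smul, norm_smul]; rfl

lemma N_rk (a e : Fin n → ℝ) : N (vecMulVec a e) ≤ nv a * nv e :=
  N_le (mul_nonneg (nv_nonneg _) (nv_nonneg _)) fun x => by
    rw [vecMulVec_mulVec, op_smul_eq_smul, nv_smul]
    nlinarith [cs e x, nv_nonneg a]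

@[fun_prop] lemma nv_cont : Continuous (nv (n := n)) := by unfold nv; fun_prop

@[fun_prop] lemma N_cont : Continuous (N (n := n)) :=
  (LinearMap.continuous_of_finiteDimensional (toEuclideanCLM (n := Fin n)
    (𝕜 := ℝ)).toAlgEquiv.toLinearMap).norm

lemma nv_pos {x : Fin n → ℝ} (h : x ≠ 0) : 0 < nv x := by simpa [nv] using h

lemma unit {x : Fin n → ℝ} (h : x ≠ 0) : nv ((nv x)⁻¹ • x) = 1 := by
  rw [nv_smul, abs_inv, abs_of_pos (nv_pos h), inv_mul_cancel₀ (nv_pos h).ne']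

lemma net (n : ℕ) : ∃ T : Finset (Fin n → ℝ), T.card ≤ 5 ^ n ∧ (∀ u ∈ T, nv u ≤ 2) ∧
    (∀ w, ∃ u ∈ T, nv w ≤ u ⬝ᵥ w) ∧
      ∀ M : Matrix (Fin n) (Fin n) ℝ, ∃ u ∈ T, N M ≤ nv (M *ᵥ u) := by
  classical
  let S := {T : Finset (Fin n → ℝ) | (∀ u ∈ T, nv u ≤ 2) ∧ ∀ u ∈ T, ∀ v ∈ T, u ≠ v → 1 ≤ nv (u - v)}
  have h1 (T) (h : T ∈ S) : T.card ≤ 5 ^ n := by
    have := Besicovitch.card_le_of_separated (T.image (toLp 2 : _ → EuclideanSpace ℝ (Fin n)))
      (by simpa [nv] using h.1) (by simpa [nv] using h.2)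
    simpa [Finset.card_image_of_injective _ (toLp_injective 2)] using this
  obtain ⟨_, ⟨T, hT, rfl⟩, hm⟩ := exists_max_image (Finset.card '' S) id
    ((finite_le_nat (5 ^ n)).subset (by rintro _ ⟨T, h, rfl⟩; exact h1 T h)) ⟨_, ∅, by simp [S], rfl⟩
  simp only [forall_mem_image, id] at hm
  have h2 (x) (hx : nv x ≤ 2) : ∃ u ∈ T, nv (x - u) ≤ 1 := by
    by_contra! h
    have h3 : x ∉ T := fun h3 => by have := h x h3; simp [nv] at this; linarith
    have := @hm (insert x T) ⟨by simpa using ⟨hx, hT.1⟩, by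
      simp only [Finset.mem_insert]
      rintro u (rfl | hu) v (rfl | hv) h4
      · exact (h4 rfl).elim
      · exact (h v hv).le
      · rw [← neg_sub, ← neg_one_smul ℝ, nv_smul]; simpa using (h u hu).le
      · exact hT.2 u hu v hv h4⟩
    simp [h3] at this
  have h3 (x : Fin n → ℝ) : ∃ u ∈ T, nv ((2 : ℝ) • x - nv x • u) ≤ nv x := by
    by_cases hx : x = 0
    · obtain ⟨u, hu, -⟩ := h2 0 (by simp [nv])
      exact ⟨u, hu, by simp [hx, nv]⟩
    obtain ⟨u, hu, h⟩ := h2 ((2 : ℝ) • (nv x)⁻¹ • x) (by rw [nv_smul, unit hx]; norm_num)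
    refine ⟨u, hu, ?_⟩
    have := nv_pos hx
    rw [show (2 : ℝ) • x - nv x • u = nv x • ((2 : ℝ) • (nv x)⁻¹ • x - u) by
      rw [smul_sub, smul_comm (nv x), smul_inv_smul₀ this.ne'], nv_smul, abs_of_pos this]
    exact mul_le_of_le_one_right this.le h
  refine ⟨T, h1 T hT, hT.1, fun w => ?_, fun M => ?_⟩
  · obtain ⟨u, hu, h⟩ := h3 w
    refine ⟨u, hu, ?_⟩
    by_cases hx : w = 0
    · simp [hx, nv]
    have h4 := (le_abs_self _).trans (cs ((2 : ℝ) • w - nv w • u) w)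
    have := nv_pos hx
    simp only [sub_dotProduct, smul_dotProduct, smul_eq_mul, ← nv_sq] at h4
    refine le_of_mul_le_mul_left ?_ this
    nlinarith
  · obtain ⟨u, hu, h⟩ := T.exists_max_image (fun u => nv (M *ᵥ u))
      ((h3 0).imp fun _ h => h.1)
    refine ⟨u, hu, ?_⟩
    have := N_le (M := M) (c := (nv (M *ᵥ u) + N M) / 2)
      (by have := nv_nonneg (M *ᵥ u); have := N_nonneg M; positivity) fun x => by
        obtain ⟨v, hv, h4⟩ := h3 x
        have h5 := nv_add (M *ᵥ ((2 : ℝ) • x - nv x • v)) (nv x • M *ᵥ v)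
        have h6 := mv_le M ((2 : ℝ) • x - nv x • v)
        rw [← mulVec_smul, ← mulVec_add, sub_add_cancel, mulVec_smul, mulVec_smul, nv_smul, nv_smul,
          abs_of_nonneg (nv_nonneg x), abs_two] at h5
        nlinarith [mul_le_mul_of_nonneg_left h4 (N_nonneg M),
          mul_le_mul_of_nonneg_left (h v hv) (nv_nonneg x)]
    linarith

lemma mgv (u : Fin n → ℝ) : Integrable (fun h => exp (u ⬝ᵥ h)) (γ n) ∧
    ∫ h, exp (u ⬝ᵥ h) ∂γ n = exp (u ⬝ᵥ u / 2) := by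
  simp only [dotProduct, exp_sum, Finset.sum_div]
  refine ⟨.fintype_prod (f := fun i x => exp (u i * x)) fun i => integrable_exp_mul_gaussianReal _,
    (integral_fintype_prod_eq_prod fun i x => exp (u i * x)).trans
      (Finset.prod_congr rfl fun i _ => ?_)⟩
  simpa [mgf, sq] using congrFun (mgf_fun_id_gaussianReal (μ := 0) (v := 1)) (u i)

lemma MG {X ι : Type} [MeasurableSpace X] {μ : Measure X} [IsProbabilityMeasure μ] (hn : 1 ≤ n)
    {T : Finset ι} {l : ι → X → ℝ} {f : X → ℝ} (hf : ∀ x, ∃ i ∈ T, f x ≤ l i x)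
    (hT : T.card ≤ 25 ^ n) (h : ∀ i ∈ T, Integrable (fun x => exp (√n * l i x)) μ ∧
      ∫ x, exp (√n * l i x) ∂μ ≤ exp (8 * n)) :
    ∫⁻ x, .ofReal (f x) ∂μ ≤ .ofReal (17 * √n) := by
  have h0 : (1 : ℝ) ≤ n := by exact_mod_cast hn
  have h1 : 0 < √(n : ℝ) := by positivity
  have h2 := integrable_finsetSum T fun i hi => (h i hi).1
  have h3 := ((integrable_const (16 * n : ℝ)).add (h2.const_mul (exp (-(16 * n))))).div_const √n
  refine (lintegral_mono fun x => ENNReal.ofReal_le_ofReal ?_).trans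
    ((ofReal_integral_eq_lintegral_ofReal h3 (ae_of_all _ fun x => ?_)).ge.trans
      (ENNReal.ofReal_le_ofReal ?_))
  · obtain ⟨i, hi, h4⟩ := hf x
    have h5 := Finset.single_le_sum (f := fun i => exp (√n * l i x)) (fun _ _ => (exp_pos _).le) hi
    have h6 := add_one_le_exp (-(16 * n) + √n * l i x)
    rw [le_div_iff₀ h1, Pi.add_apply]
    rw [exp_add] at h6
    nlinarith [mul_le_mul_of_nonneg_left h5 (exp_pos (-(16 * n))).le]
  · simp only [Pi.add_apply, Pi.zero_apply]; positivity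
  · simp only [Pi.add_apply]
    rw [integral_div, integral_add (integrable_const _) (h2.const_mul _), integral_const, integral_const_mul,
      integral_finsetSum _ fun i hi => (h i hi).1, div_le_iff₀ h1, mul_assoc, mul_self_sqrt (by positivity)]
    have h4 : (T.card : ℝ) ≤ exp (8 * n) := by
      calc (T.card : ℝ) ≤ (5 * 5) ^ n := by exact_mod_cast hT
        _ ≤ (exp 4 * exp 4) ^ n := by gcongr <;> linarith [add_one_le_exp 4]
        _ = _ := by rw [← exp_add, ← exp_nat_mul]; ring_nf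
    have h5 := Finset.sum_le_card_nsmul _ _ _ fun i hi => (h i hi).2
    have h6 : exp (-(16 * n)) * (exp (8 * n) * exp (8 * n)) = 1 := by
      simp only [← exp_add]; ring_nf; exact exp_zero
    rw [nsmul_eq_mul] at h5
    have := mul_le_mul_of_nonneg_left (h5.trans (mul_le_mul_of_nonneg_right h4 (exp_pos _).le))
      (exp_pos (-(16 * n))).le
    simp only [probReal_univ, one_smul]
    linarith

lemma E_nv (hn : 1 ≤ n) : ∫⁻ x, .ofReal (nv x) ∂γ n ≤ .ofReal (17 * √n) := by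
  obtain ⟨T, h1, h2, h3, -⟩ := net n
  refine MG hn h3 (h1.trans (Nat.pow_le_pow_left (by norm_num) _)) fun u hu => ?_
  have := mgv (√(n : ℝ) • u)
  simp only [smul_dotProduct, smul_eq_mul, dotProduct_smul, ← mul_assoc, ← nv_sq,
    mul_self_sqrt n.cast_nonneg] at this
  refine ⟨this.1, this.2.trans_le (exp_le_exp.2 ?_)⟩
  have := pow_le_pow_left₀ (nv_nonneg u) (h2 u hu) 2
  nlinarith [n.cast_nonneg (α := ℝ)]

lemma E_N (hn : 1 ≤ n) : ∫⁻ G, .ofReal (N (of G)) ∂Γ n ≤ .ofReal (17 * √n) := by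
  obtain ⟨T, h1, h2, h3, h4⟩ := net n
  refine MG (T := T ×ˢ T) (l := fun p G => p.1 ⬝ᵥ (of G *ᵥ p.2)) hn (fun G => ?_)
    (by rw [Finset.card_product, show 25 = 5 * 5 from rfl, mul_pow]; gcongr) fun p hp => ?_
  · obtain ⟨u, hu, h⟩ := h4 (of G)
    obtain ⟨v, hv, h'⟩ := h3 (of G *ᵥ u)
    exact ⟨(v, u), Finset.mk_mem_product hv hu, h.trans h'⟩
  have h5 (G : Fin n → Fin n → ℝ) : exp (√n * (p.1 ⬝ᵥ (of G *ᵥ p.2))) =
      ∏ i, exp (((√n * p.1 i) • p.2) ⬝ᵥ G i) := by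
    rw [← exp_sum, dotProduct, Finset.mul_sum]
    congr 2; ext i
    rw [smul_dotProduct, dotProduct_comm, ← mul_assoc]; rfl
  simp only [h5]
  refine ⟨.fintype_prod (f := fun i x => exp (((√n * p.1 i) • p.2) ⬝ᵥ x)) fun i => (mgv _).1,
    (integral_fintype_prod_eq_prod fun i x => exp (((√n * p.1 i) • p.2) ⬝ᵥ x)).trans_le ?_⟩
  simp only [fun u => (mgv (n := n) u).2, ← exp_sum, exp_le_exp]
  have h6 := pow_le_pow_left₀ (nv_nonneg _) (h2 _ (Finset.mem_product.1 hp).1) 2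
  have h7 := pow_le_pow_left₀ (nv_nonneg _) (h2 _ (Finset.mem_product.1 hp).2) 2
  calc _ = ∑ i, p.1 i * p.1 i * (n * nv p.2 ^ 2 / 2) := Finset.sum_congr rfl fun i _ => by
        simp only [smul_dotProduct, dotProduct_smul, smul_eq_mul, ← nv_sq]
        linear_combination p.1 i * p.1 i * nv p.2 ^ 2 / 2 * mul_self_sqrt (n.cast_nonneg (α := ℝ))
    _ = nv p.1 ^ 2 * (n * nv p.2 ^ 2 / 2) := by rw [← Finset.sum_mul, nv_sq p.1]; rfl
    _ ≤ 2 ^ 2 * (n * 2 ^ 2 / 2) := by gcongr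
    _ = _ := by ring

end
end Pool.Agent.H22.Cond
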