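import Pool.Agent.H22.Cond1

set_option autoImplicit false
open MeasureTheory ProbabilityTheory Set Real Matrix WithLp

namespace Pool.Agent.H22.Cond
noncomputable section

variable {n : ℕ}

lemma cf (u : Fin n → ℝ) :
    ∫ h, Complex.exp ((u ⬝ᵥ h : ℝ) * Complex.I) ∂γ n = Complex.exp (-(u ⬝ᵥ u / 2 : ℝ)) := by
  simp only [dotProduct, Complex.ofReal_sum, Finset.sum_mul, Complex.exp_sum, Finset.sum_div,
    ← Finset.sum_neg_distrib]
  refine (integral_fintype_prod_eq_prod fun i (x : ℝ) =>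
    Complex.exp ((u i * x : ℝ) * Complex.I)).trans (Finset.prod_congr rfl fun i _ => ?_)
  simpa [charFun_apply_real, sq] using charFun_gaussianReal (μ := 0) (v := 1) (u i)

def R (ν : Fin n → ℝ) (p : (Fin n → ℝ) × ℝ) : Fin n → ℝ := p.1 + (p.2 - ν ⬝ᵥ p.1) • ν

lemma R_mp {ν : Fin n → ℝ} (h : nv ν = 1) : MeasurePreserving (R ν) ((γ n).prod γ1) (γ n) := by
  have h0 : Measurable (R ν) := Continuous.measurable (by unfold R; fun_prop)
  have h1 : ν ⬝ᵥ ν = 1 := by rw [← nv_sq, h, one_pow]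
  refine ⟨h0, Measure.ext_of_charFunDual (funext fun L => ?_)⟩
  obtain ⟨u, hu⟩ : ∃ u : Fin n → ℝ, ∀ x, L x = u ⬝ᵥ x := ⟨fun i => L (Pi.single i 1), fun x => by
    conv_lhs => rw [pi_eq_sum_univ' x]
    simp [dotProduct, mul_comm]⟩
  have h2 (p : (Fin n → ℝ) × ℝ) : Complex.exp ((u ⬝ᵥ R ν p : ℝ) * Complex.I) =
      Complex.exp (((u - (u ⬝ᵥ ν) • ν) ⬝ᵥ p.1 : ℝ) * Complex.I) *
        Complex.exp ((u ⬝ᵥ ν * p.2 : ℝ) * Complex.I) := by
    rw [← Complex.exp_add, ← add_mul, ← Complex.ofReal_add]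
    simp only [R, dotProduct_add, dotProduct_smul, sub_dotProduct, smul_dotProduct, smul_eq_mul]
    congr 3; ring
  simp only [charFunDual_apply, hu]
  rw [integral_map h0.aemeasurable (Continuous.aestronglyMeasurable (by fun_prop))]
  simp only [h2]
  rw [integral_prod_mul (fun x => Complex.exp (((u - (u ⬝ᵥ ν) • ν) ⬝ᵥ x : ℝ) * Complex.I))
    fun t : ℝ => Complex.exp ((u ⬝ᵥ ν * t : ℝ) * Complex.I), cf, cf]
  have := charFun_gaussianReal (μ := 0) (v := 1) (u ⬝ᵥ ν)
  simp only [charFun_apply_real, ← Complex.ofReal_mul] at this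
  rw [this, ← Complex.exp_add]
  simp only [sub_dotProduct, dotProduct_sub, smul_dotProduct, dotProduct_smul, h1, smul_eq_mul,
    dotProduct_comm ν u]
  push_cast; congr 1; ring

lemma R_dot {ν : Fin n → ℝ} (h : nv ν = 1) (p : (Fin n → ℝ) × ℝ) : ν ⬝ᵥ R ν p = p.2 := by
  simp [R, ← nv_sq, h]

lemma R_le {ν : Fin n → ℝ} (h : nv ν = 1) (p : (Fin n → ℝ) × ℝ) :
    nv (R ν p) ≤ 2 * nv p.1 + |p.2| := by
  have h1 := nv_add p.1 ((p.2 - ν ⬝ᵥ p.1) • ν)
  have h2 := cs ν p.1
  rw [nv_smul, h] at *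
  unfold R
  linarith [abs_sub p.2 (ν ⬝ᵥ p.1)]

lemma pdf_le (t : ℝ) : gaussianPDFReal 0 1 t * (1 + |t|) ≤ 1 := by
  have h1 : 2 ≤ √(2 * π) := le_sqrt_of_sq_le (by linarith [pi_gt_three])
  have h2 := add_one_le_exp (t ^ 2 / 2)
  simp only [gaussianPDFReal, NNReal.coe_one, mul_one, sub_zero, neg_div, exp_neg, ← mul_inv]
  rw [inv_mul_le_iff₀ (by positivity)]
  nlinarith [sq_abs t, sq_nonneg (|t| - 1), mul_le_mul_of_nonneg_right h1 (exp_pos (t ^ 2 / 2)).le]

lemma oneD {c σ δ Y : ℝ} (hσ : 0 < σ) (hδ : 0 ≤ δ) (hY : 1 ≤ Y) :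
    γ1 {t | |c + σ * t| ≤ δ * (Y + |t|)} ≤ .ofReal (6 * δ / σ * Y) := by
  obtain ⟨ε, rfl⟩ : ∃ ε, δ = σ * ε := ⟨δ / σ, by field_simp⟩
  obtain ⟨s, rfl⟩ : ∃ s, c = -(σ * s) := ⟨-c / σ, by field_simp⟩
  have h0 : 0 ≤ ε := nonneg_of_mul_nonneg_right hδ hσ
  rw [show 6 * (σ * ε) / σ = 6 * ε by field_simp]
  rcases le_total (1 / 2) ε with h | h
  · exact prob_le_one.trans (ENNReal.one_le_ofReal.2 (by nlinarith))
  have h1 (t) (ht : |-(σ * s) + σ * t| ≤ σ * ε * (Y + |t|)) : |t - s| ≤ ε * (Y + |t|) := by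
    rw [show -(σ * s) + σ * t = σ * (t - s) by ring, abs_mul, abs_of_pos hσ, mul_assoc] at ht
    exact le_of_mul_le_mul_left ht hσ
  have h2 : 0 < Y + |s| := by positivity
  rw [gaussianReal_apply _ one_ne_zero]
  refine (setLIntegral_mono' (g := fun _ => .ofReal (3 / 2 * Y / (Y + |s|)))
    (measurableSet_le (by fun_prop) (by fun_prop)) fun t ht => ENNReal.ofReal_le_ofReal ?_).trans ?_
  · have h3 := h1 t ht
    have h4 := pdf_le t
    have h5 := gaussianPDFReal_nonneg 0 1 t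
    have h6 : Y + |s| ≤ 3 / 2 * Y * (1 + |t|) := by
      have := abs_sub_abs_le_abs_sub s t
      rw [abs_sub_comm] at this
      nlinarith [abs_nonneg t, mul_le_mul_of_nonneg_right h (by positivity : 0 ≤ Y + |t|)]
    rw [le_div_iff₀ h2]
    nlinarith [mul_le_mul_of_nonneg_left h6 h5]
  · rw [setLIntegral_const]
    refine (mul_le_mul_right (measure_mono (t := Metric.closedBall s (2 * ε * (Y + |s|)))
      fun t ht => ?_) _).trans ?_
    · have h3 := h1 t ht
      have := abs_sub_abs_le_abs_sub t s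
      rw [Metric.mem_closedBall, dist_eq]
      nlinarith [abs_nonneg (t - s)]
    · rw [volume_closedBall, ← ENNReal.ofReal_mul (by positivity)]
      exact ENNReal.ofReal_le_ofReal (le_of_eq (by field_simp; ring))

lemma slice (hn : 1 ≤ n) {ν : Fin n → ℝ} (h : nv ν = 1) {c σ δ Z : ℝ} (hσ : 0 < σ) (hδ : 0 ≤ δ)
    (hZ : 1 ≤ Z) : γ n {x | |c + σ * ν ⬝ᵥ x| ≤ δ * (Z + nv x)} ≤
      .ofReal (6 * δ / σ) * (.ofReal Z + 2 * .ofReal (17 * √n)) := by
  have h0 : MeasurableSet {x | |c + σ * ν ⬝ᵥ x| ≤ δ * (Z + nv x)} :=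
    (isClosed_le (by fun_prop) (by fun_prop)).measurableSet
  rw [← (R_mp h).measure_preimage h0.nullMeasurableSet, Measure.prod_apply ((R_mp h).measurable h0)]
  have h1 : Measurable fun x : Fin n → ℝ => ENNReal.ofReal (nv x) := nv_cont.measurable.ennreal_ofReal
  refine (lintegral_mono (g := fun x => .ofReal (6 * δ / σ) * (.ofReal Z + 2 * .ofReal (nv x)))
    fun x => ?_).trans ?_
  · have := nv_nonneg x
    refine (measure_mono fun t ht => ?_).trans
      ((oneD (c := c) (Y := Z + 2 * nv x) hσ hδ (by linarith)).trans_eq ?_)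
    · simp only [mem_preimage, mem_ofPred_eq, R_dot h] at ht ⊢
      exact ht.trans (mul_le_mul_of_nonneg_left (by linarith [R_le h (x, t)]) hδ)
    · rw [ENNReal.ofReal_mul (by positivity), ENNReal.ofReal_add (by positivity) (by positivity),
        ENNReal.ofReal_mul (by positivity), ENNReal.ofReal_ofNat]
  · rw [lintegral_const_mul _ (by fun_prop), lintegral_add_left (by fun_prop), lintegral_const,
      lintegral_const_mul _ h1, measure_univ, mul_one]
    gcongr; exact E_nv hn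

lemma pi_ac {X : Type} [MeasurableSpace X] {μ ν : Measure X} [SigmaFinite μ] [SigmaFinite ν]
    (h : μ ≪ ν) (n : ℕ) : (Measure.pi fun _ : Fin n => μ) ≪ Measure.pi fun _ => ν := by
  induction n with
  | zero => rw [Measure.pi_of_empty, Measure.pi_of_empty]
  | succ n ih =>
    rw [← (measurePreserving_piFinSuccAbove (fun _ => μ) 0).symm.map_eq,
      ← (measurePreserving_piFinSuccAbove (fun _ => ν) 0).symm.map_eq]
    exact (h.prod ih).map (MeasurableEquiv.measurable _)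

lemma det_ne (A : Matrix (Fin n) (Fin n) ℝ) {σ : ℝ} (hσ : 0 < σ) :
    ∀ᵐ G ∂Γ n, (A + σ • of G).det ≠ 0 := by
  refine (pi_ac (pi_ac (gaussianReal_absolutelyContinuous 0 one_ne_zero) n) n).ae_le ?_
  let J : Fin n → Fin n → ℝ := of.symm 1
  have h1 : ∀ᵐ G : Fin n → Fin n → ℝ, ∀ᵐ t : ℝ, (A + σ • of (G + t • J)).det ≠ 0 :=
    ae_of_all _ fun G => by
      refine ((((Polynomial.finite_setOfPred_isRoot (charpoly_monic (-(A + σ • of G))).ne_zero).preimage
        (mul_right_injective₀ hσ.ne').injOn).subset fun t ht => ?_).measure_zero _)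
      simp only [mem_preimage, mem_ofPred_eq, Polynomial.IsRoot, eval_charpoly]
      convert not_not.1 ht using 2
      ext i j; simp [J, diagonal_apply, one_apply]; split_ifs <;> ring
  have h2 : Continuous fun p : (Fin n → Fin n → ℝ) × ℝ => (A + σ • of (p.1 + p.2 • J)).det :=
    Continuous.matrix_det (continuous_matrix fun i j => by simp; fun_prop)
  obtain ⟨t, ht⟩ := ((Measure.ae_ae_comm (p := fun G (t : ℝ) => (A + σ • of (G + t • J)).det ≠ 0)
    (isOpen_ne_fun h2 continuous_const).measurableSet).1 h1).exists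
  have := (measurePreserving_add_right volume (-(t • J))).quasiMeasurePreserving.ae ht
  simp only [neg_add_cancel_right] at this
  exact this

def F (A : Matrix (Fin n) (Fin n) ℝ) (σ x : ℝ) : Set ((Fin n → Fin n → ℝ) × (Fin n → ℝ)) :=
  {p | (A + σ • of p.1).det ≠ 0 ∧ x * |(A + σ • of p.1).det| ≤
    N (A + σ • of p.1) * nv (p.2 ᵥ* (A + σ • of p.1).adjugate)}

lemma of_cont : Continuous fun G : Fin n → Fin n → ℝ => of G := continuous_id

lemma F_meas (A : Matrix (Fin n) (Fin n) ℝ) (σ x : ℝ) : MeasurableSet (F A σ x) := by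
  have h : Continuous fun p : (Fin n → Fin n → ℝ) × (Fin n → ℝ) => A + σ • of p.1 :=
    continuous_const.add ((of_cont.comp continuous_fst).const_smul σ)
  exact (isOpen_ne_fun h.matrix_det continuous_const).measurableSet.inter
    (isClosed_le (continuous_const.mul h.matrix_det.abs) ((N_cont.comp h).mul
      (nv_cont.comp (continuous_snd.matrix_vecMul h.matrix_adjugate)))).measurableSet

lemma step2 (hn : 1 ≤ n) {A : Matrix (Fin n) (Fin n) ℝ} (hA : N A ≤ √n) {σ x : ℝ} (hσ : 0 < σ)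
    (hσ' : σ ≤ 1) (hx : 0 < x) (v : Fin n → ℝ) : Γ n ((fun G => (G, v)) ⁻¹' F A σ x) ≤
      .ofReal (6 / (x * σ)) * (5 * .ofReal (17 * √n)) * .ofReal (nv v) := by
  by_cases hv : v = 0
  · refine (measure_mono (t := ∅) fun G hG => ?_).trans (by simp)
    have := mul_pos hx (abs_pos.2 hG.1)
    have h := hG.2
    simp only [hv, zero_vecMul, nv, toLp_zero, norm_zero, mul_zero] at h
    linarith
  obtain ⟨e, he, h1⟩ : ∃ e, nv e = 1 ∧ v = nv v • e :=
    ⟨_, unit hv, (smul_inv_smul₀ (nv_pos hv).ne' _).symm⟩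
  have h2 : MeasurePreserving (fun p : (Fin n → Fin n → ℝ) × (Fin n → ℝ) =>
      fun i => R e (p.1 i, p.2 i)) ((Γ n).prod (γ n)) (Γ n) :=
    (measurePreserving_pi _ _ fun _ => R_mp he).comp
      (measurePreserving_arrowProdEquivProdArrow _ _ _ (fun _ => γ n) fun _ => γ1).symm
  have h3 := measurable_prodMk_right (y := v) (F_meas A σ x)
  have h4 : 1 ≤ √(n : ℝ) := one_le_sqrt.2 (by exact_mod_cast hn)
  have h5 : Measurable fun G : Fin n → Fin n → ℝ => ENNReal.ofReal (N (of G)) :=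
    (N_cont.comp of_cont).measurable.ennreal_ofReal
  have h6 := nv_pos hv
  rw [← h2.measure_preimage h3.nullMeasurableSet, Measure.prod_apply (h2.measurable h3)]
  refine (lintegral_mono (g := fun G => .ofReal (6 * (nv v / x) / σ) * (.ofReal √n +
    2 * .ofReal (N (of G)) + 2 * .ofReal (17 * √n))) fun G => ?_).trans ?_
  · have h7 := N_nonneg (of G)
    have h8 : e ⬝ᵥ e = 1 := by rw [← nv_sq, he, one_pow]
    set B := A + σ • of G
    obtain ⟨w, hw, h9⟩ := exists_vecMul_eq_zero_iff.2 ((exists_mulVec_eq_zero_iff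
      (M := B - vecMulVec (B *ᵥ e) e)).1 ⟨e, by rintro rfl; simp at h8, by
        simp [sub_mulVec, vecMulVec_mulVec, h8]⟩)
    obtain ⟨ν, hν, h9⟩ : ∃ ν, nv ν = 1 ∧ ν ᵥ* B = (ν ⬝ᵥ B *ᵥ e) • e :=
      ⟨_, unit hw, by
        rw [vecMul_sub, sub_eq_zero, vecMul_vecMulVec] at h9
        rw [smul_vecMul, h9, smul_dotProduct, smul_smul, smul_eq_mul]⟩
    refine (measure_mono fun h hh => ?_).trans ((slice (c := ν ⬝ᵥ B *ᵥ e - σ * ν ⬝ᵥ of G *ᵥ e)
      (Z := √n + 2 * N (of G)) (δ := nv v / x) hn hν hσ (by positivity) (by linarith)).trans_eq ?_)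
    · have a1 : (of fun i => R e (G i, h i)) = of G + vecMulVec (h - of G *ᵥ e) e := by
        ext i j; simp [R, vecMulVec, mulVec, dotProduct_comm]
      obtain ⟨a2, a3⟩ := hh
      simp only [a1] at a2 a3
      set B' := A + σ • (of G + vecMulVec (h - of G *ᵥ e) e) with hB
      set s := ν ⬝ᵥ B *ᵥ e - σ * ν ⬝ᵥ of G *ᵥ e + σ * ν ⬝ᵥ h
      have a4 : ν ᵥ* B' = s • e := by
        rw [hB, smul_add, ← add_assoc, vecMul_add, h9, vecMul_smul, vecMul_vecMulVec, smul_smul,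
          ← add_smul, dotProduct_sub]
        congr 1; ring
      have a5 := congrArg (fun y => nv (y ᵥ* B'.adjugate)) a4
      simp only [vecMul_vecMul, mul_adjugate, vecMul_smul, vecMul_one, smul_vecMul, nv_smul, hν,
        mul_one] at a5
      have a6 : N B' ≤ √n + 2 * N (of G) + nv h := by
        have b1 := N_add A (σ • (of G + vecMulVec (h - of G *ᵥ e) e))
        have b2 := N_add (of G) (vecMulVec (h - of G *ᵥ e) e)
        have b3 := N_rk (h - of G *ᵥ e) e
        have b4 := nv_sub h (of G *ᵥ e)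
        have b5 := mv_le (of G) e
        rw [N_smul, abs_of_pos hσ] at b1
        rw [he, mul_one] at b3 b5
        nlinarith [N_nonneg (of G + vecMulVec (h - of G *ᵥ e) e)]
      have a7 : 0 < nv (e ᵥ* B'.adjugate) :=
        pos_of_mul_pos_right (a5 ▸ abs_pos.2 a2) (abs_nonneg s)
      rw [h1, smul_vecMul, nv_smul, abs_of_pos h6, a5] at a3
      change |s| ≤ _
      rw [div_mul_eq_mul_div, le_div_iff₀ hx]
      refine le_of_mul_le_mul_right ?_ a7
      nlinarith [mul_le_mul_of_nonneg_right a6 (mul_pos h6 a7).le]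
    · rw [ENNReal.ofReal_add (by positivity) (by positivity),
        ENNReal.ofReal_mul (p := 2) (by positivity), ENNReal.ofReal_ofNat]
  · rw [lintegral_const_mul _ (by fun_prop), lintegral_add_right _ (by fun_prop),
      lintegral_add_left (by fun_prop), lintegral_const, lintegral_const,
      lintegral_const_mul _ h5, measure_univ, mul_one, mul_one, mul_right_comm,
      ← ENNReal.ofReal_mul (by positivity), show 6 / (x * σ) * nv v = 6 * (nv v / x) / σ by
        field_simp, show (5 : ENNReal) = 1 + 2 + 2 by norm_num, add_mul, add_mul, one_mul]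
    gcongr
    · linarith
    · exact E_N hn

lemma step1 {A : Matrix (Fin n) (Fin n) ℝ} {σ x : ℝ} (hx : 0 < x) {G : Fin n → Fin n → ℝ}
    (h0 : (A + σ • of G).det ≠ 0) (h : x ≤ N (A + σ • of G) * N (A + σ • of G)⁻¹) :
    2⁻¹ ≤ γ n (Prod.mk G ⁻¹' F A σ (x / 24)) := by
  set B := A + σ • of G
  have h1 : 0 < N B⁻¹ := pos_of_mul_pos_right (hx.trans_le h) (N_nonneg _)
  obtain ⟨u, hu, h2⟩ := (toEuclideanCLM (n := Fin n) (𝕜 := ℝ) B⁻¹).exists_lt_apply_of_lt_opNorm
    (half_lt_self h1)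
  change N B⁻¹ / 2 < nv (B⁻¹ *ᵥ u.ofLp) at h2
  change nv u.ofLp < 1 at hu
  set r := B⁻¹ *ᵥ u.ofLp with hr
  have h3 : r ≠ 0 := fun h => by simp [h, nv] at h2; linarith
  have h4 := unit h3
  have h5 : MeasurableSet {v | |((nv r)⁻¹ • r) ⬝ᵥ v| ≤ 1 / 12} :=
    (isClosed_le (by fun_prop) (by fun_prop)).measurableSet
  have h6 : γ n {v | |((nv r)⁻¹ • r) ⬝ᵥ v| ≤ 1 / 12} ≤ 2⁻¹ := by
    rw [← (R_mp h4).measure_preimage h5.nullMeasurableSet]
    refine (measure_mono (t := univ ×ˢ {t | |0 + 1 * t| ≤ 1 / 12 * (1 + |t|)})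
      fun p hp => ⟨trivial, ?_⟩).trans ?_
    · simp only [mem_preimage, mem_ofPred_eq, R_dot h4, zero_add, one_mul] at hp ⊢
      linarith [abs_nonneg p.2]
    · rw [Measure.prod_prod, measure_univ, one_mul]
      refine (oneD one_pos (by norm_num) le_rfl).trans_eq ?_
      rw [← ENNReal.ofReal_ofNat, ← ENNReal.ofReal_inv_of_pos two_pos]; norm_num
  refine le_trans ?_ (measure_mono (s := {v | |((nv r)⁻¹ • r) ⬝ᵥ v| ≤ 1 / 12}ᶜ) fun v hv => ⟨h0, ?_⟩)
  · rw [prob_compl_eq_one_sub h5, ← ENNReal.one_sub_inv_two]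
    exact tsub_le_tsub_left h6 _
  · have a0 := nv_pos h3
    have a1 := cs (v ᵥ* B⁻¹) u.ofLp
    simp only [mem_compl_iff, mem_ofPred_eq, not_le, smul_dotProduct, smul_eq_mul, abs_mul, abs_inv,
      abs_of_pos a0, lt_inv_mul_iff₀ a0] at hv
    rw [← dotProduct_mulVec, ← hr, dotProduct_comm] at a1
    have a2 : nv (v ᵥ* B.adjugate) = |B.det| * nv (v ᵥ* B⁻¹) := by
      rw [← nv_smul, ← vecMul_smul, inv_def, smul_smul, Ring.inverse_eq_inv', mul_inv_cancel₀ h0,
        one_smul]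
    have a3 : N B⁻¹ / 24 ≤ nv (v ᵥ* B⁻¹) := by nlinarith [nv_nonneg (v ᵥ* B⁻¹)]
    change x / 24 * |B.det| ≤ N B * nv (v ᵥ* B.adjugate)
    rw [a2, mul_left_comm, mul_comm]
    gcongr
    nlinarith [N_nonneg B]

end
end Pool.Agent.H22.Cond
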