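import Mathlib

set_option autoImplicit false
open MeasureTheory ProbabilityTheory Set Real Matrix
open scoped NNReal

namespace Pool.Agent.H22.Conic
noncomputable section

variable {ι I J : Type} [Fintype ι] [DecidableEq ι] [Fintype I] [DecidableEq I] [Fintype J]
  [DecidableEq J] {σ : ℝ≥0}

lemma sep [Nonempty J] {K : Set (J → ℝ)} (hK : Convex ℝ K) (h0 : 0 ∉ K) :
    ∃ (y : J → ℝ) (j : J), |y j| = 1 ∧ (∀ i, |y i| ≤ 1) ∧ ∀ k ∈ K, 0 ≤ y ⬝ᵥ k := by
  obtain ⟨f, h1, h2⟩ : ∃ f : (J → ℝ) →ₗ[ℝ] ℝ, f ≠ 0 ∧ ∀ k ∈ K, 0 ≤ f k := by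
    by_cases h : (interior K).Nonempty
    · obtain ⟨f, h1, h2⟩ := geometric_hahn_banach_of_nonempty_interior_point hK
        (fun h => h0 (interior_subset h)) h
      exact ⟨-f, fun h => h1 (by ext1 x; simpa using congr($h x)), by simpa using h2⟩
    rcases K.eq_empty_or_nonempty with rfl | ⟨a, ha⟩
    · exact ⟨.proj (Classical.arbitrary J), fun h => by simpa using congr($h 1), by simp⟩
    rw [hK.interior_nonempty_iff_affineSpan_eq_top,
      AffineSubspace.affineSpan_eq_top_iff_vectorSpan_eq_top_of_nonempty _ _ _ ⟨a, ha⟩] at h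
    obtain ⟨f, h1, h2⟩ := Submodule.exists_le_ker_of_lt_top _ (lt_top_iff_ne_top.2 h)
    have h3 (k) (hk : k ∈ K) : f k = f a := by
      simpa [sub_eq_zero] using h2 (vsub_mem_vectorSpan ℝ hk ha)
    rcases le_total 0 (f a) with h4 | h4
    · exact ⟨f, h1, fun k hk => h3 k hk ▸ h4⟩
    · exact ⟨-f, neg_ne_zero.2 h1, fun k hk => by simpa [h3 k hk]⟩
  obtain ⟨u, hu⟩ : ∃ u : J → ℝ, ∀ x, f x = u ⬝ᵥ x := ⟨fun i => f (Pi.single i 1), fun x => by
    conv_lhs => rw [pi_eq_sum_univ' x]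
    simp [dotProduct, mul_comm]⟩
  obtain ⟨j, hj⟩ := Finite.exists_max fun j => |u j|
  have h3 : 0 < |u j| := by
    by_contra! h
    exact h1 (LinearMap.ext fun x => by
      simp [hu, show u = 0 from funext fun i => abs_nonpos_iff.1 ((hj i).trans h)])
  refine ⟨|u j|⁻¹ • u, j, by simp [abs_mul, h3.ne'], fun i => ?_, fun k hk => ?_⟩
  · simpa [abs_mul, inv_mul_le_iff₀ h3] using hj i
  · rw [smul_dotProduct, ← hu]; exact mul_nonneg (by positivity) (h2 k hk)

lemma upd (ν : ι → Measure ℝ) [∀ i, IsProbabilityMeasure (ν i)] (k : ι) :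
    MeasurePreserving (fun p : (ι → ℝ) × ℝ => Function.update p.1 k p.2)
      ((Measure.pi ν).prod (ν k)) (Measure.pi ν) := by
  refine ⟨measurable_update', (Measure.pi_eq fun s hs => ?_).symm⟩
  rw [Measure.map_apply measurable_update' (.univ_pi hs),
    show (fun p : (ι → ℝ) × ℝ => Function.update p.1 k p.2) ⁻¹' univ.pi s =
      univ.pi (Function.update s k univ) ×ˢ s k by
      ext p; simp only [mem_preimage, mem_univ_pi, mem_prod, Function.forall_update_iff p.1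
        fun i x => x ∈ s i, Function.forall_update_iff s fun i t => p.1 i ∈ t]; tauto,
    Measure.prod_prod, Measure.pi_pi, ← Finset.prod_erase_mul _ _ (Finset.mem_univ k),
    ← Finset.prod_erase_mul _ _ (Finset.mem_univ k)]
  simp only [Function.update_self, measure_univ, mul_one]
  congr 1
  exact Finset.prod_congr rfl fun i hi => by rw [Function.update_of_ne (Finset.ne_of_mem_erase hi)]

abbrev μ (d : ι → ℝ) (σ : ℝ≥0) : Measure (ι → ℝ) := Measure.pi fun k => gaussianReal (d k) (σ ^ 2)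

lemma line (d : ι → ℝ) (hσ : 0 < σ) (k : ι) {S : Set (ι → ℝ)} (hS : MeasurableSet S) {R : ℝ}
    (h : ∀ x ∈ S, ∀ t, x + Pi.single k t ∈ S → |t| ≤ R) : μ d σ S ≤ .ofReal (R / σ) := by
  rw [← (upd _ k).measure_preimage hS.nullMeasurableSet,
    Measure.prod_apply ((upd (fun k => gaussianReal (d k) (σ ^ 2)) k).measurable hS)]
  refine (lintegral_mono (g := fun _ => .ofReal (R / σ)) fun x => ?_).trans_eq (by simp)
  rcases eq_empty_or_nonempty (Prod.mk x ⁻¹' ((fun p : (ι → ℝ) × ℝ =>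
    Function.update p.1 k p.2) ⁻¹' S)) with h0 | ⟨s, hs⟩
  · simp [h0]
  refine (measure_mono (t := Metric.closedBall s R) fun t ht => h _ hs _ ?_).trans ?_
  · rwa [show Function.update x k s + Pi.single k (t - s) = Function.update x k t by
      ext i; by_cases hi : i = k <;> simp [hi]]
  rw [gaussianReal_apply _ (by positivity)]
  refine (lintegral_mono (g := fun _ => .ofReal (2 * σ)⁻¹)
    fun t => ENNReal.ofReal_le_ofReal ?_).trans_eq ?_
  · refine (mul_le_of_le_one_right (by positivity) (exp_le_one_iff.2 ?_)).trans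
      (inv_anti₀ (by positivity) (le_sqrt_of_sq_le ?_))
    · rw [neg_div, neg_nonpos]; positivity
    · push_cast; nlinarith [pi_gt_three, sq_nonneg (σ : ℝ)]
  · rw [setLIntegral_const, volume_closedBall, ← ENNReal.ofReal_mul (by positivity)]
    congr 1; field_simp

lemma union {α β : Type} [Fintype α] [MeasurableSpace β] {m : Measure β} {S : α → Set β} {c : ℝ}
    (h : ∀ a, m (S a) ≤ .ofReal c) : m (⋃ a, S a) ≤ .ofReal (Fintype.card α * c) :=
  (measure_iUnion_fintype_le _ _).trans ((Finset.sum_le_card_nsmul _ _ _ fun a _ => h a).trans_eq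
    (by simp [ENNReal.ofReal_mul]))

lemma slab [Nonempty J] {E : Type} [AddCommGroup E] [Module ℝ E] {P : Set E} (hP : Convex ℝ P)
    (φ : E → (ι → ℝ) → J → ℝ) (hc : ∀ p, Continuous (φ p)) (hl : ∀ x, IsLinearMap ℝ (φ · x))
    (e : J → ι) (h : ∀ p ∈ P, ∀ x j t, φ p (x + Pi.single (e j) t) = φ p x + Pi.single j t)
    (d : ι → ℝ) (hσ : 0 < σ) (r : ℝ) :
    μ d σ {x | (∀ p ∈ P, φ p x ≠ 0) ∧ ∃ p ∈ P, ‖φ p x‖ < r} ≤
      .ofReal (Fintype.card J * 2 * (Fintype.card J * r / σ)) := by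
  let S (q : J × ℤˣ) := {x | ∃ p ∈ P, ‖φ p x‖ < r} ∩ {x | ∀ t, 0 ≤ t → ∀ p ∈ P,
    t ≤ Fintype.card J * ‖φ p (x + Pi.single (e q.1) (((q.2 : ℤ) : ℝ) * t))‖}
  refine (measure_mono (t := ⋃ q, S q) fun x hx => ?_).trans ((union fun q => line d hσ (e q.1)
    (R := Fintype.card J * r) (.inter (IsOpen.measurableSet ?_) (IsClosed.measurableSet ?_))
      fun x hx t ht => ?_).trans_eq (by simp))
  · obtain ⟨y, j, h1, h2, h3⟩ := sep (hP.is_linear_image (hl x))
      (by rintro ⟨p, hp, h0⟩; exact hx.1 p hp h0)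
    obtain ⟨s, hs⟩ : ∃ s : ℤˣ, y j = (s : ℤ) :=
      (abs_eq zero_le_one).1 h1 |>.elim (fun h => ⟨1, by simpa⟩) fun h => ⟨-1, by simpa⟩
    refine mem_iUnion.2 ⟨(j, s), hx.2, fun t ht p hp => ?_⟩
    have h4 := h3 _ ⟨p, hp, rfl⟩
    have h5 : y ⬝ᵥ φ p (x + Pi.single (e j) (y j * t)) = y ⬝ᵥ φ p x + t := by
      rw [h p hp, dotProduct_add, dotProduct_single, ← mul_assoc, ← abs_mul_abs_self, h1]; simp
    rw [← hs]
    refine (le_add_of_nonneg_left h4).trans (h5.ge.trans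
      ((Finset.sum_le_card_nsmul _ _ _ fun i _ => ?_).trans_eq (by simp; rfl)))
    exact (le_abs_self _).trans ((abs_mul _ _).trans_le ((mul_le_of_le_one_left (abs_nonneg _)
      (h2 i)).trans (norm_le_pi_norm (φ p _) i)))
  · simp only [ofPred_exists, ← exists_prop]
    exact isOpen_biUnion fun p _ => isOpen_lt (hc p).norm continuous_const
  · simp only [ofPred_forall]
    exact isClosed_biInter fun t _ => isClosed_biInter fun p _ =>
      isClosed_le continuous_const (by have := hc p; fun_prop)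
  · have h1 (x t) (hx : x ∈ S q) (ht : x + Pi.single (e q.1) t ∈ S q)
        (h0 : 0 ≤ ((q.2 : ℤ) : ℝ) * t) : |t| ≤ Fintype.card J * r := by
      obtain ⟨p, hp, h2⟩ := ht.1
      have := hx.2 _ h0 p hp
      have h3 : ((q.2 : ℤ) : ℝ) * (q.2 : ℤ) = 1 := by exact_mod_cast Int.units_coe_mul_self q.2
      have h4 : |((q.2 : ℤ) : ℝ)| = 1 := by rcases Int.units_eq_one_or q.2 with h | h <;> simp [h]
      rw [← mul_assoc, h3, one_mul, ← abs_of_nonneg h0, abs_mul, h4, one_mul] at this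
      exact this.trans (by gcongr)
    rcases le_total 0 (((q.2 : ℤ) : ℝ) * t) with h0 | h0
    · exact h1 x t hx ht h0
    · rw [← abs_neg]
      exact h1 _ _ ht (by simpa [Pi.single_neg]) (by linarith)

def T (a : I → J → ι) (x : ι → ℝ) : Matrix I J ℝ := of fun i j => x (a i j)

def Feas (a : I → J → ι) (Q : Set (J → ℝ)) (C : Set (I → ℝ)) (x : ι → ℝ) : Prop :=
  ∃ q ∈ Q, T a x *ᵥ q ∈ C

omit [Fintype ι] [Fintype I] [Fintype J] in
lemma T_upd {a : I → J → ι} (ha : ∀ i j i' j', a i j = a i' j' → i = i' ∧ j = j') (x : ι → ℝ)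
    (i : I) (j : J) (t : ℝ) : T a (x + Pi.single (a i j) t) = T a x + single i j t := by
  ext i' j'
  simp only [T, of_apply, Pi.add_apply, Matrix.add_apply, Pi.single_apply, single_apply, add_right_inj]
  exact if_congr ⟨fun h => ha _ _ _ _ h.symm, fun h => by rw [h.1, h.2]⟩ rfl rfl

omit [DecidableEq ι] [DecidableEq I] [DecidableEq J] in
lemma T_le (a : I → J → ι) (x : ι → ℝ) {q : J → ℝ} (h : ∀ j, |q j| ≤ 1) :
    ‖T a x *ᵥ q‖ ≤ Fintype.card J * ‖x‖ :=
  (pi_norm_le_iff_of_nonneg (by positivity)).2 fun i => (norm_sum_le _ _).trans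
    ((Finset.sum_le_card_nsmul _ _ ‖x‖ fun j _ => (norm_mul_le _ _).trans
      ((mul_le_of_le_one_right (norm_nonneg _) (h j)).trans (norm_le_pi_norm x _))).trans_eq
        (by simp))

lemma half [Nonempty I] {a : I → J → ι} (ha : ∀ i j i' j', a i j = a i' j' → i = i' ∧ j = j')
    {Q : Set (J → ℝ)} {C : Set (I → ℝ)} (hQ : Convex ℝ Q) (hC : Convex ℝ C) (d : ι → ℝ)
    (hσ : 0 < σ) (r : ℝ) : μ d σ {x | ¬ Feas a Q C x ∧ ∃ q ∈ Q, ∃ c ∈ C, (∃ j, |q j| = 1) ∧
      ‖T a x *ᵥ q - c‖ < r} ≤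
      .ofReal (Fintype.card J * 2 * (Fintype.card I * 2 * (Fintype.card I * r / σ))) := by
  let P (s : J × ℤˣ) : Set ((J → ℝ) × (I → ℝ)) := (Q ∩ {q | q s.1 = (s.2 : ℤ)}) ×ˢ C
  refine (measure_mono fun x hx => ?_).trans ((union fun s : J × ℤˣ => slab (P := P s)
    ((hQ.inter (convex_hyperplane (f := fun q : J → ℝ => q s.1) ⟨fun _ _ => rfl, fun _ _ => rfl⟩
      _)).prod hC) (fun p x => ((s.2 : ℤ) : ℝ) • (T a x *ᵥ p.1 - p.2)) (fun p => ?_)
      (fun x => ⟨fun p q => ?_, fun c p => ?_⟩) (a · s.1) (fun p hp x i t => ?_) d hσ r).trans_eq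
        (by simp))
  · obtain ⟨h1, q, hq, c, hc, ⟨j, hj⟩, h2⟩ := hx
    obtain ⟨s, hs⟩ : ∃ s : ℤˣ, q j = (s : ℤ) :=
      (abs_eq zero_le_one).1 hj |>.elim (fun h => ⟨1, by simpa⟩) fun h => ⟨-1, by simpa⟩
    refine mem_iUnion.2 ⟨(j, s), fun p hp h => h1 ⟨p.1, hp.1.1, ?_⟩, (q, c), ⟨⟨hq, hs⟩, hc⟩, ?_⟩
    · simp only [smul_eq_zero, Int.cast_eq_zero, Units.ne_zero, false_or, sub_eq_zero] at h
      exact h ▸ hp.2
    · rwa [norm_smul, ← hs, norm_eq_abs, hj, one_mul]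
  · have : Continuous (T a) := continuous_matrix fun i j => continuous_apply _
    fun_prop
  · simp only [Prod.fst_add, Prod.snd_add, mulVec_add, ← smul_add]; congr 1; abel
  · simp only [Prod.smul_fst, Prod.smul_snd, mulVec_smul, ← smul_sub, smul_comm c]
  · have h3 : ((s.2 : ℤ) : ℝ) * (s.2 : ℤ) = 1 := by exact_mod_cast Int.units_coe_mul_self s.2
    rw [T_upd ha, add_mulVec, add_sub_right_comm, smul_add, single_mulVec, hp.1.2]
    congr 1; ext k
    by_cases hk : k = i <;> simp [hk]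
    linear_combination t * h3

lemma flip [Nonempty I] [Nonempty J] {a : I → J → ι}
    (ha : ∀ i j i' j', a i j = a i' j' → i = i' ∧ j = j')
    {Q : Set (J → ℝ)} {C : Set (I → ℝ)} (hQ : Convex ℝ Q) (hC : Convex ℝ C) (h0 : 0 ∈ C)
    (hQ' : ∀ q ∈ Q, ∀ t : ℝ, 0 < t → t • q ∈ Q) (hC' : ∀ q ∈ C, ∀ t : ℝ, 0 < t → t • q ∈ C)
    {w : J → ℝ} (hw : ‖w‖ ≤ 1) (hw' : ∀ q ∈ Q, 0 < w ⬝ᵥ q) (d : ι → ℝ) (hσ : 0 < σ) {N ε : ℝ}
    (hI : (Fintype.card I : ℝ) ≤ N) (hJ : (Fintype.card J : ℝ) ≤ N) (hε : 0 < ε) :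
    μ d σ {x | ∃ u, ‖u‖ ≤ ε ∧ ¬ (Feas a Q C (x + u) ↔ Feas a Q C x)} ≤
      .ofReal (16 * N ^ 4 * ε / σ) := by
  have hN : 1 ≤ N := le_trans (by exact_mod_cast Fintype.card_pos) hI
  have hT (x u : ι → ℝ) : T a (x + u) = T a x + T a u := rfl
  have h1 := half ha hQ hC d hσ (2 * N * ε)
  have h2 := half (a := fun j i => a i j) (fun i j i' j' h => (ha _ _ _ _ h).symm)
    (Q := {y | ∀ c ∈ C, y ⬝ᵥ c ≤ 0}) (C := {v | ∀ q ∈ Q, 0 < v ⬝ᵥ q})
    (by
      simp only [ofPred_forall]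
      exact convex_iInter₂ fun c _ => convex_halfSpace_le (f := (· ⬝ᵥ c))
        ⟨fun _ _ => add_dotProduct .., fun _ _ => smul_dotProduct ..⟩ _)
    (by
      simp only [ofPred_forall]
      exact convex_iInter₂ fun c _ => convex_halfSpace_gt (f := (· ⬝ᵥ c))
        ⟨fun _ _ => add_dotProduct .., fun _ _ => smul_dotProduct ..⟩ _) d hσ (2 * N * ε)
  have h3 (x : ι → ℝ) (y : I → ℝ) (q : J → ℝ) :
      (T (fun j i => a i j) x *ᵥ y) ⬝ᵥ q = y ⬝ᵥ T a x *ᵥ q := by
    rw [dotProduct_mulVec, ← mulVec_transpose]; rfl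
  refine (measure_mono ?_).trans ((measure_union_le _ _).trans ((add_le_add h1 h2).trans ?_))
  · rintro x ⟨u, hu, h⟩
    by_cases hx : Feas a Q C x
    · obtain ⟨y, i, a1, a2, a3⟩ := sep ((hQ.linear_image (T a (x + u)).mulVecLin).sub hC) (by
        rintro ⟨_, ⟨q, hq, rfl⟩, c, hc, h4⟩
        exact h (iff_of_true ⟨q, hq, by rw [← sub_eq_zero.1 h4] at hc; exact hc⟩ hx))
      replace a3 (q) (hq : q ∈ Q) (c) (hc : c ∈ C) : y ⬝ᵥ c ≤ y ⬝ᵥ T a (x + u) *ᵥ q := by
        simpa using a3 _ ⟨_, ⟨q, hq, rfl⟩, c, hc, rfl⟩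
      obtain ⟨q, hq, hx⟩ := hx
      refine .inr ⟨fun ⟨y, hy, h5⟩ => (h5 q hq).not_ge (h3 .. ▸ hy _ hx), y, fun c hc => ?_,
        T (fun j i => a i j) (x + u) *ᵥ y + (ε / 2) • w, fun q hq => ?_, ⟨i, a1⟩, ?_⟩
      · refine ge_of_tendsto (x := nhdsWithin 0 (Ioi 0))
          (f := fun t : ℝ => t * y ⬝ᵥ T a (x + u) *ᵥ q)
          (((continuous_mul_const _).tendsto' 0 _ (zero_mul _)).mono_left nhdsWithin_le_nhds) ?_
        filter_upwards [self_mem_nhdsWithin] with t ht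
        simpa [mulVec_smul] using a3 _ (hQ' q hq t ht) c hc
      · have := a3 q hq 0 h0
        have := mul_pos (half_pos hε) (hw' q hq)
        simp only [add_dotProduct, h3, smul_dotProduct, smul_eq_mul, dotProduct_zero] at *
        linarith
      · rw [show T (fun j i => a i j) (x + u) = T _ x + T _ u from rfl, add_mulVec, add_assoc,
          sub_add_cancel_left, norm_neg]
        have := T_le (fun j i => a i j) u a2
        have := norm_add_le (T (fun j i => a i j) u *ᵥ y) ((ε / 2) • w)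
        rw [norm_smul, norm_of_nonneg (half_pos hε).le] at this
        nlinarith [mul_le_mul hI hu (norm_nonneg _) (by linarith)]
    · obtain ⟨q, hq, h4⟩ : Feas a Q C (x + u) := by tauto
      obtain ⟨j, hj⟩ := Finite.exists_max fun j => |q j|
      have h5 : 0 < |q j| := by
        by_contra! h
        simpa [show q = 0 from funext fun i => abs_nonpos_iff.1 ((hj i).trans h)] using hw' q hq
      refine .inl ⟨hx, _, hQ' q hq _ (inv_pos.2 h5), _, hC' _ h4 _ (inv_pos.2 h5),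
        ⟨j, by simp [abs_mul, h5.ne']⟩, ?_⟩
      rw [← mulVec_smul, hT, add_mulVec, sub_add_cancel_left, norm_neg]
      have := T_le a u (q := |q j|⁻¹ • q) fun i => by
        simpa [abs_mul, inv_mul_le_iff₀ h5] using hj i
      nlinarith [mul_le_mul hJ hu (norm_nonneg _) (by linarith)]
  · rw [← ENNReal.ofReal_add (by positivity) (by positivity)]
    refine ENNReal.ofReal_le_ofReal (le_trans (b := N * 2 * (N * 2 * (N * (2 * N * ε) / σ)) +
      N * 2 * (N * 2 * (N * (2 * N * ε) / σ))) (by gcongr) (le_of_eq (by ring)))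

end
end Pool.Agent.H22.Conic
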