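import Mathlib

namespace Pool.Agent.H22

open Finset Module

section
variable {α F V W : Type*} [Field F] [AddCommGroup V] [Module F V] [AddCommGroup W] [Module F W]

theorem finrank_span_le_of_indep (v : α → V) (w : α → W) (T : Set α) (hT : T.Finite)
    (h : ∀ I ⊆ T, LinearIndepOn F v I → LinearIndepOn F w I) :
    finrank F (Submodule.span F (v '' T)) ≤ finrank F (Submodule.span F (w '' T)) := by
  classical
  obtain ⟨I, hIT, -, hspan, hI⟩ :=
    exists_linearIndepOn_extension (K := F) (v := v) (s := ∅) (t := T) (by simp) (by simp)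
  have hIf : I.Finite := hT.subset hIT
  have : Fintype I := hIf.fintype
  have h1 : Submodule.span F (v '' T) = Submodule.span F (v '' I) :=
    le_antisymm (Submodule.span_le.2 hspan) (Submodule.span_mono (Set.image_mono hIT))
  have h2 : finrank F (Submodule.span F (v '' I)) = Fintype.card I := by
    have := finrank_span_eq_card (R := F) (b := fun x : I => v x) hI
    rwa [← Set.image_eq_range] at this
  have h3 : finrank F (Submodule.span F (w '' I)) = Fintype.card I := by
    have := finrank_span_eq_card (R := F) (b := fun x : I => w x) (h I hIT hI)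
    rwa [← Set.image_eq_range] at this
  have : Module.Finite F (Submodule.span F (w '' T)) :=
    Module.Finite.span_of_finite F (hT.image w)
  rw [h1, h2, ← h3]
  exact Submodule.finrank_mono (Submodule.span_mono (Set.image_mono hIT))

theorem card_vanish [Fintype F] [FiniteDimensional F V] [Fintype (Dual F V)] (v : α → V)
    (T : Finset α) [DecidablePred fun φ : Dual F V => ∀ e ∈ T, φ (v e) = 0] :
    (univ.filter fun φ : Dual F V => ∀ e ∈ T, φ (v e) = 0).card *
      Fintype.card F ^ finrank F (Submodule.span F (v '' T)) =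
      Fintype.card F ^ finrank F V := by
  classical
  set U : Submodule F V := Submodule.span F (v '' T)
  have h1 : (univ.filter fun φ : Dual F V => ∀ e ∈ T, φ (v e) = 0).card =
      Fintype.card U.dualAnnihilator := by
    rw [Fintype.card_subtype]
    congr 1
    ext φ
    simp only [mem_filter, mem_univ, true_and, Submodule.mem_dualAnnihilator]
    constructor
    · intro h x hx
      have : U ≤ LinearMap.ker φ := by
        rw [Submodule.span_le]
        rintro _ ⟨e, he, rfl⟩
        exact h e he
      exact this hx
    · intro h e he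
      exact h _ (Submodule.subset_span ⟨e, he, rfl⟩)
  rw [h1, Module.card_eq_pow_finrank (K := F) (V := U.dualAnnihilator), ← pow_add, add_comm,
    Subspace.finrank_add_finrank_dualAnnihilator_eq]

theorem card_nonvanish [Fintype F] [FiniteDimensional F V] [Fintype (Dual F V)] (v : α → V)
    (E : Finset α) [DecidablePred fun φ : Dual F V => ∀ e ∈ E, φ (v e) ≠ 0] :
    ((univ.filter fun φ : Dual F V => ∀ e ∈ E, φ (v e) ≠ 0).card : ℚ) =
      (Fintype.card F : ℚ) ^ finrank F V * ∑ T ∈ E.powerset,
        (-1 : ℚ) ^ T.card / (Fintype.card F : ℚ) ^ finrank F (Submodule.span F (v '' T)) := by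
  classical
  have key := inclusion_exclusion_card_inf_compl E
    (fun e => univ.filter fun φ : Dual F V => φ (v e) = 0)
  have h1 : (E.inf fun e => (univ.filter fun φ : Dual F V => φ (v e) = 0)ᶜ) =
      univ.filter fun φ : Dual F V => ∀ e ∈ E, φ (v e) ≠ 0 := by
    ext φ
    simp [Finset.mem_inf]
  have h2 : ∀ T : Finset α, (T.inf fun e => (univ.filter fun φ : Dual F V => φ (v e) = 0)) =
      univ.filter fun φ : Dual F V => ∀ e ∈ T, φ (v e) = 0 := by
    intro T
    ext φ
    simp [Finset.mem_inf]
  rw [h1] at key
  simp only [h2] at key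
  have key' := congrArg (Int.cast : ℤ → ℚ) key
  push_cast at key'
  rw [key', mul_sum]
  refine sum_congr rfl fun T _ => ?_
  have h3 := congrArg (Nat.cast : ℕ → ℚ) (card_vanish (F := F) v T)
  push_cast at h3
  have hq : (Fintype.card F : ℚ) ≠ 0 := by exact_mod_cast Fintype.card_ne_zero
  rw [← h3]
  field_simp

/-- Crapo and Rota: avoiding hyperplanes depends only on the matroid. -/
theorem exists_nonvanish_transfer [Fintype F] [FiniteDimensional F V] [FiniteDimensional F W]
    (v : α → V) (w : α → W) (E : Set α) (hE : E.Finite)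
    (h : ∀ I ⊆ E, LinearIndepOn F v I ↔ LinearIndepOn F w I)
    (hv : ∃ φ : V →ₗ[F] F, ∀ e ∈ E, φ (v e) ≠ 0) :
    ∃ φ : W →ₗ[F] F, ∀ e ∈ E, φ (w e) ≠ 0 := by
  classical
  have : Finite (Dual F V) := Module.finite_of_finite F
  have : Finite (Dual F W) := Module.finite_of_finite F
  have := Fintype.ofFinite (Dual F V)
  have := Fintype.ofFinite (Dual F W)
  lift E to Finset α using hE
  have h1 := card_nonvanish (F := F) v E
  have h2 := card_nonvanish (F := F) w E
  have h3 : ∑ T ∈ E.powerset,
        (-1 : ℚ) ^ T.card / (Fintype.card F : ℚ) ^ finrank F (Submodule.span F (v '' T)) =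
      ∑ T ∈ E.powerset,
        (-1 : ℚ) ^ T.card / (Fintype.card F : ℚ) ^ finrank F (Submodule.span F (w '' T)) := by
    refine sum_congr rfl fun T hT => ?_
    have hTE : (T : Set α) ⊆ E := by exact_mod_cast mem_powerset.1 hT
    rw [le_antisymm
      (finrank_span_le_of_indep v w T T.finite_toSet fun I hI => (h I (hI.trans hTE)).1)
      (finrank_span_le_of_indep w v T T.finite_toSet fun I hI => (h I (hI.trans hTE)).2)]
  by_contra hw
  have hq : (Fintype.card F : ℚ) ≠ 0 := by exact_mod_cast Fintype.card_ne_zero
  have h4 : (univ.filter fun φ : Dual F W => ∀ e ∈ E, φ (w e) ≠ 0) = ∅ := by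
    rw [filter_eq_empty_iff]
    intro φ _ hφ
    exact hw ⟨φ, fun e he => hφ e (by exact_mod_cast he)⟩
  rw [h4, ← h3] at h2
  have h5 := (mul_eq_zero.1 h2.symm).resolve_left (pow_ne_zero _ hq)
  rw [h5, mul_zero] at h1
  obtain ⟨φ, hφ⟩ := hv
  have h6 : (univ.filter fun φ : Dual F V => ∀ e ∈ E, φ (v e) ≠ 0) = ∅ := by
    rw [← card_eq_zero]
    exact_mod_cast h1
  rw [filter_eq_empty_iff] at h6
  exact h6 (mem_univ φ) fun e he => hφ e (by exact_mod_cast he)

/-- At most `q` nonzero vectors are avoided by some hyperplane. -/
theorem exists_nonvanish_of_card_le [Fintype F] [FiniteDimensional F W]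
    (w : α → W) (E : Finset α) (hE : E.card ≤ Fintype.card F) (hw : ∀ e ∈ E, w e ≠ 0) :
    ∃ φ : W →ₗ[F] F, ∀ e ∈ E, φ (w e) ≠ 0 := by
  classical
  have : Finite (Dual F W) := Module.finite_of_finite F
  have := Fintype.ofFinite (Dual F W)
  by_contra hcon
  push Not at hcon
  set q := Fintype.card F with hq
  have hq2 : 2 ≤ q := Fintype.one_lt_card
  have hN : Fintype.card (Dual F W) = q ^ finrank F W := by
    rw [Module.card_eq_pow_finrank (K := F) (V := Dual F W), Subspace.dual_finrank_eq]
  have h1 : ∀ e ∈ E, ((univ.filter fun φ : Dual F W => φ (w e) = 0).erase 0).card * q + q =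
      q ^ finrank F W := by
    intro e he
    have h := card_vanish (F := F) w {e}
    have h2 : finrank F (Submodule.span F (w '' (({e} : Finset α) : Set α))) = 1 := by
      rw [coe_singleton, Set.image_singleton, finrank_span_singleton (hw e he)]
    rw [h2, pow_one] at h
    have h3 : (univ.filter fun φ : Dual F W => ∀ x ∈ ({e} : Finset α), φ (w x) = 0) =
        univ.filter fun φ : Dual F W => φ (w e) = 0 := by
      ext φ
      simp
    rw [h3] at h
    have h4 := card_erase_add_one (s := univ.filter fun φ : Dual F W => φ (w e) = 0)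
      (a := 0) (by simp)
    rw [← h, ← h4]
    ring
  have h5 : (univ.erase (0 : Dual F W)) ⊆
      E.biUnion fun e => (univ.filter fun φ : Dual F W => φ (w e) = 0).erase 0 := by
    intro φ hφ
    obtain ⟨e, he, h0⟩ := hcon φ
    exact mem_biUnion.2 ⟨e, he, by simpa [h0] using hφ⟩
  have h6 := (card_le_card h5).trans card_biUnion_le
  have h7 := card_erase_add_one (s := (univ : Finset (Dual F W))) (a := 0) (mem_univ _)
  rw [card_univ, hN] at h7
  have h8 : (∑ e ∈ E, ((univ.filter fun φ : Dual F W => φ (w e) = 0).erase 0).card) * q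
      + E.card * q = E.card * q ^ finrank F W := by
    rw [sum_mul, ← smul_eq_mul, ← sum_const, ← sum_add_distrib, sum_congr rfl h1, sum_const,
      smul_eq_mul]
  obtain ⟨e, he, -⟩ := hcon 0
  have h9 := h1 e he
  generalize (∑ e ∈ E, ((univ.filter fun φ : Dual F W => φ (w e) = 0).erase 0).card) = S at *
  generalize ((univ.filter fun φ : Dual F W => φ (w e) = 0).erase 0).card = k at *
  generalize (univ.erase (0 : Dual F W)).card = m at *
  generalize q ^ finrank F W = N at *
  generalize E.card = c at *
  subst h9
  have h10 : S * q = c * k * q := by nlinarith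
  have h11 : S = c * k := Nat.eq_of_mul_eq_mul_right (by omega) h10
  have h12 : c * k ≤ q * k := Nat.mul_le_mul_right _ hE
  nlinarith

/-- The matroid of a finite family of vectors. -/
noncomputable def vecMatroid [Fintype α] (F : Type*) [Field F] [Module F V] (v : α → V) :
    Matroid α :=
  (IndepMatroid.ofFinite (E := Set.univ) Set.finite_univ (fun I => LinearIndepOn F v I)
    (by simp) (fun _ _ hJ hIJ => hJ.mono hIJ)
    (by
      classical
      intro I J hI hJ hlt
      by_contra hcon
      push Not at hcon
      have h1 : Submodule.span F (v '' J) ≤ Submodule.span F (v '' I) := by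
        rw [Submodule.span_le]
        rintro _ ⟨e, he, rfl⟩
        by_cases heI : e ∈ I
        · exact Submodule.subset_span ⟨e, heI, rfl⟩
        · by_contra hn
          exact hcon e he heI ((linearIndepOn_insert heI).2 ⟨hI, hn⟩)
      have h2 : finrank F (Submodule.span F (v '' I)) = Fintype.card I := by
        have := finrank_span_eq_card (R := F) (b := fun x : I => v x) hI
        rwa [← Set.image_eq_range] at this
      have h3 : finrank F (Submodule.span F (v '' J)) = Fintype.card J := by
        have := finrank_span_eq_card (R := F) (b := fun x : J => v x) hJ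
        rwa [← Set.image_eq_range] at this
      have : Module.Finite F (Submodule.span F (v '' I)) :=
        Module.Finite.span_of_finite F ((Set.toFinite I).image v)
      have h4 := Submodule.finrank_mono h1
      rw [h2, h3, ← Nat.card_eq_fintype_card, ← Nat.card_eq_fintype_card,
        Nat.card_coe_set_eq, Nat.card_coe_set_eq] at h4
      omega)
    (fun _ _ => Set.subset_univ _)).matroid

theorem vecMatroid_E [Fintype α] (v : α → V) : (vecMatroid F v).E = Set.univ := rfl

theorem vecMatroid_indep [Fintype α] (v : α → V) (I : Set α) :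
    (vecMatroid F v).Indep I ↔ LinearIndepOn F v I := Iff.rfl

theorem indep_triple_iff (v : α → Fin 3 → F) (a b c : α) (hab : a ≠ b) (hac : a ≠ c)
    (hbc : b ≠ c) : LinearIndepOn F v {a, b, c} ↔
      v a 0 * v b 1 * v c 2 - v a 0 * v b 2 * v c 1 - v a 1 * v b 0 * v c 2
        + v a 1 * v b 2 * v c 0 + v a 2 * v b 0 * v c 1 - v a 2 * v b 1 * v c 0 ≠ 0 := by
  classical
  have hinj : Function.Injective ![a, b, c] := by
    intro i j hij
    fin_cases i <;> fin_cases j <;> simp_all [eq_comm]
  have hr : ({a, b, c} : Set α) = Set.range ![a, b, c] := by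
    ext x
    simp [eq_comm]
    tauto
  rw [hr, linearIndepOn_range_iff hinj]
  have h := Matrix.linearIndependent_rows_iff_isUnit (A := Matrix.of fun i => v (![a, b, c] i))
  have h' : LinearIndependent F (v ∘ ![a, b, c]) ↔
      IsUnit (Matrix.of fun i => v (![a, b, c] i)) := h
  rw [h', Matrix.isUnit_iff_isUnit_det, isUnit_iff_ne_zero, Matrix.det_fin_three]
  simp

end

end Pool.Agent.H22
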