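import Mathlib

/-! Incidence algebra of the integers with a twisted derivation; bubble weights of the
Mallows colourings and their first identities. -/

set_option autoImplicit false
set_option linter.unusedSectionVars false
set_option linter.unusedSimpArgs false
open Finset

namespace Pool.Agent.H22.Cyc

abbrev R := IncidenceAlgebra ℝ ℤ

/-- entrywise multiplication by a function of the length -/
def wt (φ : ℤ → ℝ) : R →ₗ[ℝ] R where
  toFun f := ⟨fun i j => φ (j - i) * f i j, fun i j h => by rw [f.apply_eq_zero_of_not_le h, mul_zero]⟩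
  map_add' f g := by ext; simp [mul_add]
  map_smul' c f := by ext; simp [IncidenceAlgebra.constSMul_apply]; ring

@[simp] lemma wt_apply (φ : ℤ → ℝ) (f : R) (i j : ℤ) : wt φ f i j = φ (j - i) * f i j := rfl

@[simp] lemma sm_apply (c : ℝ) (f : R) (i j : ℤ) : (c • f) i j = c * f i j := rfl

lemma sum_app {ι : Type} (s : Finset ι) (f : ι → R) (i j : ℤ) :
    (∑ x ∈ s, f x) i j = ∑ x ∈ s, f x i j := by
  classical
  induction s using Finset.induction_on with
  | empty => rfl
  | insert a s h ih => rw [sum_insert h, sum_insert h, IncidenceAlgebra.add_apply, ih]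

/-- diagonal element -/
def dg (d : ℤ → ℝ) : R := ⟨fun i j => if i = j then d i else 0, fun _ _ h => if_neg fun e => h e.le⟩

lemma dg_apply (d : ℤ → ℝ) (i j : ℤ) : dg d i j = if i = j then d i else 0 := rfl

lemma mul_dg (f : R) (d : ℤ → ℝ) (i j : ℤ) : (f * dg d) i j = f i j * d j := by
  by_cases h : i ≤ j
  · simp [dg_apply, h]
  · simp [f.apply_eq_zero_of_not_le h, Icc_eq_empty h]

lemma dg_mul (f : R) (d : ℤ → ℝ) (i j : ℤ) : (dg d * f) i j = d i * f i j := by
  by_cases h : i ≤ j
  · simp [dg_apply, h]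
  · simp [f.apply_eq_zero_of_not_le h, Icc_eq_empty h]

/-- elements vanishing on intervals of length below `L` -/
def F (L : ℤ) : Submodule ℝ R where
  carrier := {f | ∀ i j, j - i < L → f i j = 0}
  add_mem' hf hg i j h := by simp [hf i j h, hg i j h]
  zero_mem' _ _ _ := rfl
  smul_mem' c f hf i j h := by simp [hf i j h]

lemma F_mul {f g : R} {a b : ℤ} (hf : f ∈ F a) (hg : g ∈ F b) : f * g ∈ F (a + b) := fun i j h => by
  rw [IncidenceAlgebra.mul_apply]
  refine sum_eq_zero fun x _ => ?_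
  by_cases h1 : x - i < a
  · rw [hf _ _ h1, zero_mul]
  · rw [hg _ _ (by omega), mul_zero]

lemma F_zero (f : R) : f ∈ F 0 := fun _ _ h => f.apply_eq_zero_of_not_le (by omega)

lemma F_mono {f : R} {a b : ℤ} (hf : f ∈ F a) (h : b ≤ a) : f ∈ F b := fun i j h' =>
  hf i j (by omega)

lemma F_wt {f : R} {a : ℤ} (φ : ℤ → ℝ) (hf : f ∈ F a) : wt φ f ∈ F a := fun i j h => by
  simp [hf i j h]

lemma F_ml {g : R} {b : ℤ} (f : R) (hg : g ∈ F b) : f * g ∈ F b :=
  zero_add b ▸ F_mul (F_zero f) hg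

lemma F_mr {f : R} {b : ℤ} (g : R) (hf : f ∈ F b) : f * g ∈ F b :=
  add_zero b ▸ F_mul hf (F_zero g)

lemma F_l {f E : R} {L : ℤ} (p : R) (hf : f ∈ F 1) (hE : E ∈ F L) : f * p * E ∈ F (L + 1) :=
  add_comm 1 L ▸ F_mul (F_mr p hf) hE

lemma F_r {f E : R} {L : ℤ} (p : R) (hE : E ∈ F L) (hf : f ∈ F 1) : E * p * f ∈ F (L + 1) :=
  F_mul (F_mr p hE) hf

lemma uniq0 {ι : Type} (E : ι → R) (h : ∀ L, (∀ a, E a ∈ F L) → ∀ a, E a ∈ F (L + 1)) (a : ι) :
    E a = 0 := by
  have : ∀ L : ℕ, ∀ a, E a ∈ F L := fun L => by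
    induction L with
    | zero => exact fun a => F_zero _
    | succ L ih => exact_mod_cast h L ih
  ext i j
  exact this ((j - i).toNat + 1) a i j (by omega)

variable {t : ℝ}

def br (t : ℝ) (d : ℤ) : ℝ := ∑ i ∈ range d.toNat, t ^ i

noncomputable def σ (t : ℝ) := wt fun d => t ^ d.toNat
noncomputable def Λ (t : ℝ) := wt (br t)
noncomputable def ι (t : ℝ) := wt fun d => (br t d)⁻¹

lemma br_add {a b : ℤ} (ha : 0 ≤ a) (hb : 0 ≤ b) :
    br t (a + b) = br t a + t ^ a.toNat * br t b := by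
  rw [br, Int.toNat_add ha hb, sum_range_add, br, br, mul_sum]
  simp [pow_add]

lemma br_one : br t 1 = 1 := by simp [br]

lemma br_pos (ht : 0 < t) {d : ℤ} (h : 0 < d) : 0 < br t d :=
  sum_pos (fun _ _ => pow_pos ht _) (nonempty_range_iff.2 (by omega))

lemma br_gt (ht : 0 < t) {d : ℤ} (h : 1 < d) : 0 < br t d - 1 := by
  have := br_add (t := t) (a := 1) (b := d - 1) (by omega) (by omega)
  rw [add_sub_cancel, br_one] at this
  have := mul_pos (pow_pos ht (Int.toNat 1)) (br_pos ht (d := d - 1) (by omega))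
  linarith

lemma br_geo (d : ℤ) : (1 - t) * br t d = 1 - t ^ d.toNat := by
  rw [br, mul_comm, geom_sum_mul_neg]

lemma σ_mul (f g : R) : σ t (f * g) = σ t f * σ t g := by
  ext i j h
  simp only [σ, wt_apply, IncidenceAlgebra.mul_apply, mul_sum]
  refine sum_congr rfl fun x hx => ?_
  obtain ⟨h1, h2⟩ := mem_Icc.1 hx
  rw [show (j - i).toNat = (x - i).toNat + (j - x).toNat by omega, pow_add]
  ring

lemma Λ_mul (f g : R) : Λ t (f * g) = Λ t f * g + σ t f * Λ t g := by
  ext i j h
  simp only [σ, Λ, wt_apply, IncidenceAlgebra.mul_apply, mul_sum, IncidenceAlgebra.add_apply,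
    ← sum_add_distrib]
  refine sum_congr rfl fun x hx => ?_
  obtain ⟨h1, h2⟩ := mem_Icc.1 hx
  rw [show j - i = (x - i) + (j - x) by omega, br_add (by omega) (by omega)]
  ring

lemma σ_dg (d : ℤ → ℝ) : σ t (dg d) = dg d := by
  ext i j
  simp only [σ, wt_apply, dg_apply]
  split_ifs with h <;> simp [h]

lemma Λ_dg (d : ℤ → ℝ) : Λ t (dg d) = 0 := by
  ext i j
  simp only [Λ, wt_apply, dg_apply]
  split_ifs with h <;> simp [h, br]

lemma Λ_ι (ht : 0 < t) {f : R} (hf : f ∈ F 1) : Λ t (ι t f) = f := by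
  ext i j h
  rcases h.eq_or_lt with rfl | h
  · simp [Λ, ι, hf i i (by omega)]
  · simp only [Λ, ι, wt_apply]
    rw [← mul_assoc, mul_inv_cancel₀ (br_pos ht (by omega)).ne', one_mul]

lemma wt_comm (φ ψ : ℤ → ℝ) (f : R) : wt φ (wt ψ f) = wt ψ (wt φ f) := by
  ext; simp [mul_left_comm]

lemma σ_ι (f : R) : σ t (ι t f) = ι t (σ t f) := wt_comm _ _ _

lemma Λ_σ (f : R) : Λ t (σ t f) = σ t (Λ t f) := wt_comm _ _ _

lemma σ_eq (f : R) : σ t f = f - (1 - t) • Λ t f := by
  ext i j
  simp only [σ, Λ, wt_apply, IncidenceAlgebra.sub_apply, sm_apply]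
  rw [← mul_assoc, br_geo]
  ring

lemma σι (ht : 0 < t) {f : R} (hf : f ∈ F 1) : σ t (ι t f) = ι t f - (1 - t) • f := by
  rw [σ_eq, Λ_ι ht hf]

lemma uniq (ht : 0 < t) {ι : Type} (E : ι → R) (h0 : ∀ a, E a ∈ F 2)
    (h : ∀ L, (∀ a, E a ∈ F L) → ∀ a, Λ t (E a) - E a ∈ F (L + 1)) (a : ι) : E a = 0 := by
  refine uniq0 E (fun L hL a i j hl => ?_) a
  by_cases h1 : j - i < 2
  · exact h0 a i j h1
  have := h L hL a i j hl
  simp only [Λ, IncidenceAlgebra.sub_apply, wt_apply] at this
  exact (mul_eq_zero.1 (show (br t (j - i) - 1) * E a i j = 0 by linarith)).resolve_left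
    (br_gt ht (by omega)).ne'

variable {α : Type} [Fintype α] [DecidableEq α]

def ne (a b : Option α) : ℝ := if a = b ∧ a ≠ none then 0 else 1

/-- bubble weights, by the first-arrival recursion -/
noncomputable def kap (t : ℝ) (π : ℤ → α → ℝ) (a b : Option α) (i j : ℤ) : ℝ :=
  if i + 1 < j then t * ne a b * (∑ x : Ioo i j, ∑ c, t ^ (x - i).toNat * kap t π a (some c) i x *
    π x c * kap t π (some c) b x j) / (br t (j - i) - 1) else if j = i + 1 then ne a b else 0
termination_by (j - i).toNat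
decreasing_by all_goals have := mem_Ioo.1 x.2; omega

lemma kap_eq (π : ℤ → α → ℝ) (a b : Option α) (i j : ℤ) : kap t π a b i j =
    if i + 1 < j then t * ne a b * (∑ x ∈ Ioo i j, ∑ c, t ^ (x - i).toNat *
      kap t π a (some c) i x * π x c * kap t π (some c) b x j) / (br t (j - i) - 1)
    else if j = i + 1 then ne a b else 0 := by
  rw [kap, ← sum_coe_sort (Ioo i j)]

noncomputable def k (t : ℝ) (π : ℤ → α → ℝ) (a b : Option α) : R :=
  ⟨kap t π a b, fun i j h => by rw [kap_eq, if_neg (by omega), if_neg (by omega)]⟩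

lemma k_apply (π : ℤ → α → ℝ) (a b : Option α) (i j : ℤ) : k t π a b i j = kap t π a b i j := rfl

lemma k_F (π : ℤ → α → ℝ) (a b : Option α) : k t π a b ∈ F 1 := fun i j h => by
  rw [k_apply, kap_eq, if_neg (by omega), if_neg (by omega)]

lemma k_one (π : ℤ → α → ℝ) (a b : Option α) (i : ℤ) : k t π a b i (i + 1) = ne a b := by
  rw [k_apply, kap_eq, if_neg (by omega), if_pos rfl]

def P (π : ℤ → α → ℝ) (c : α) : R := dg fun i => π i c

lemma mul3 {f g : R} (d : ℤ → ℝ) (hf : f ∈ F 1) (hg : g ∈ F 1) (i j : ℤ) :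
    (f * dg d * g) i j = ∑ x ∈ Ioo i j, f i x * d x * g x j := by
  simp only [IncidenceAlgebra.mul_apply (f * dg d), mul_dg]
  refine (sum_subset Ioo_subset_Icc_self fun x hx h => ?_).symm
  simp only [mem_Icc, mem_Ioo] at hx h
  by_cases h1 : x = i
  · rw [hf _ _ (by omega), zero_mul, zero_mul]
  · rw [hg _ _ (by omega), mul_zero]

lemma kQ (ht : 0 < t) (π : ℤ → α → ℝ) (a b : Option α) : Λ t (k t π a b) = k t π a b +
    (t * ne a b) • ∑ c, σ t (k t π a (some c)) * P π c * k t π (some c) b := by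
  ext i j h
  simp only [IncidenceAlgebra.add_apply, sm_apply, sum_app, P, Λ, σ,
    mul3 _ (F_wt _ (k_F π _ _)) (k_F π _ _), wt_apply, k_apply]
  rw [sum_comm, kap_eq]
  split_ifs with h1 h2
  · have := (br_gt ht (d := j - i) (by omega)).ne'
    field_simp
    ring
  · simp [h2, br_one, show Ioo i (i + 1) = ∅ from by ext; simp]
  · simp [show Ioo i j = ∅ from by ext; simp; omega]

lemma ne_k (π : ℤ → α → ℝ) (a b : Option α) : ne a b • k t π a b = k t π a b := by
  ext i j
  simp only [sm_apply, k_apply]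
  rw [kap_eq]
  unfold ne
  split_ifs <;> simp

lemma σ_P (π : ℤ → α → ℝ) (c : α) : σ t (P π c) = P π c := σ_dg _

lemma Λ_P (π : ℤ → α → ℝ) (c : α) : Λ t (P π c) = 0 := Λ_dg _

lemma ne_cc (c : α) : ne (some c) (some c) = 0 := by simp [ne]

lemma ne_l (b : Option α) : ne none b = 1 := by simp [ne]

lemma ne_r (a : Option α) : ne a none = 1 := by simp [ne]

lemma ne_ne {c d : α} (h : c ≠ d) : ne (some c) (some d) = 1 := by simp [ne, h]

lemma ne_comm (a b : Option α) : ne a b = ne b a := by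
  unfold ne
  congr 1
  exact propext ⟨fun h => ⟨h.1.symm, h.1 ▸ h.2⟩, fun h => ⟨h.1.symm, h.1 ▸ h.2⟩⟩

lemma ne_sq (a b : Option α) : ne a b * ne a b = ne a b := by
  unfold ne
  split_ifs <;> simp

lemma k_cc (π : ℤ → α → ℝ) (c : α) : k t π (some c) (some c) = 0 := by
  rw [← ne_k, ne_cc, zero_smul]

lemma sum_ne {M : Type} [AddCommGroup M] [Module ℝ M] (c : α) (f : α → M) :
    ∑ d, ne (some d) (some c) • f d = ∑ d, f d - f c := by
  rw [← add_sum_erase _ _ (mem_univ c), ← add_sum_erase _ f (mem_univ c), ne_cc, zero_smul,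
    zero_add, add_sub_cancel_left]
  exact sum_congr rfl fun d hd => by rw [ne_ne (mem_erase.1 hd).1, one_smul]

lemma two_F {f g : R} (p : R) (hf : f ∈ F 1) (hg : g ∈ F 1) : f * p * g ∈ F 2 := F_l p hf hg

lemma kR (ht : 0 < t) (π : ℤ → α → ℝ) (a : Option α) (c : α) : k t π a (some c) =
    ne a (some c) • k t π a none - t • (k t π a (some c) * P π c * ι t (k t π (some c) none)) := by
  let E : Option α → R := fun a => ne a (some c) • k t π a none - k t π a (some c) -
    t • (k t π a (some c) * P π c * ι t (k t π (some c) none))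
  have := uniq ht E (fun a => ?_) (fun L hL a => ?_) a
  · rw [← sub_eq_zero, ← neg_eq_zero, ← this]
    simp only [E]
    abel
  · refine sub_mem (fun i j h => ?_) (Submodule.smul_mem _ _ (two_F _ (k_F _ _ _)
      (F_wt _ (k_F _ _ _))))
    by_cases h1 : j = i + 1
    · simp [h1, k_one, ne_r]
    · simp [k_F π _ _ i j (by omega)]
  · have : Λ t (E a) - E a = (t * ne a (some c)) •
        ∑ d, σ t (k t π a (some d)) * P π d * E (some d) := by
      simp only [E, map_sub, map_smul, Λ_mul, σ_mul, σ_P, Λ_P, Λ_ι ht (k_F π _ _), kQ ht, ne_r,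
        mul_sub, mul_smul_comm, sum_sub_distrib, sum_ne, mul_zero, add_zero, add_mul, mul_one,
        smul_mul_assoc, sum_mul, ← smul_sum, mul_assoc, zero_mul, zero_add]
      have h2 : σ t (k t π a (some c)) = ne a (some c) • σ t (k t π a (some c)) := by
        rw [← map_smul, ne_k]
      conv_lhs => rw [h2]
      rw [smul_mul_assoc]
      module
    rw [this]
    exact Submodule.smul_mem _ _ (Submodule.sum_mem _ fun d _ => F_l _ (F_wt _ (k_F _ _ _)) (hL _))

lemma kL (ht : 0 < t) (π : ℤ → α → ℝ) (c : α) (b : Option α) : k t π (some c) b =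
    ne (some c) b • k t π none b - σ t (ι t (k t π none (some c))) * P π c * k t π (some c) b := by
  let E : Option α → R := fun b => ne (some c) b • k t π none b - k t π (some c) b -
    σ t (ι t (k t π none (some c))) * P π c * k t π (some c) b
  have := uniq ht E (fun a => ?_) (fun L hL b => ?_) b
  · rw [← sub_eq_zero, ← neg_eq_zero, ← this]
    simp only [E]
    abel
  · refine sub_mem (fun i j h => ?_) (two_F _ (F_wt _ (F_wt _ (k_F _ _ _))) (k_F _ _ _))
    by_cases h1 : j = i + 1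
    · simp [h1, k_one, ne_l]
    · simp [k_F π _ _ i j (by omega)]
  · have : Λ t (E b) - E b = (t * ne (some c) b) •
        ∑ d, σ t (E (some d)) * P π d * k t π (some d) b := by
      simp only [E, map_sub, map_smul, Λ_mul, σ_mul, σ_P, Λ_P, Λ_σ, Λ_ι ht (k_F π _ _), kQ ht, ne_l,
        sub_mul, mul_smul_comm, sum_sub_distrib, ne_comm (some c) (some _), sum_ne, mul_zero,
        add_zero, mul_add, mul_one, smul_mul_assoc, mul_sum, mul_assoc, zero_mul]
      have h2 : ∀ f : R, f * (P π c * k t π (some c) b) =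
          ne (some c) b • (f * (P π c * k t π (some c) b)) := fun f => by
        rw [← mul_smul_comm, ← mul_smul_comm, ne_k]
      have h3 : σ t (σ t (ι t (k t π none (some c)))) * (P π c * k t π (some c) b) =
          σ t (ι t (k t π none (some c))) * (P π c * k t π (some c) b) -
          (1 - t) • (σ t (k t π none (some c)) * (P π c * k t π (some c) b)) := by
        conv_lhs => rw [σι ht (k_F _ _ _), map_sub, map_smul, sub_mul, smul_mul_assoc]
      rw [h3]
      conv_lhs => rw [h2 (σ t (k t π none (some c)))]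
      module
    rw [this]
    exact Submodule.smul_mem _ _ (Submodule.sum_mem _ fun d _ => F_r _ (F_wt _ (hL _)) (k_F _ _ _))

end Pool.Agent.H22.Cyc
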