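import Pool.Agent.H22.Cyc1

/-! Summing a bubble weight over the colour of one site: linearity and closed form. -/

set_option autoImplicit false
set_option linter.unusedSectionVars false
set_option linter.unusedSimpArgs false
open Finset

namespace Pool.Agent.H22.Cyc

variable {t : ℝ} {α : Type} [Fintype α] [DecidableEq α]

lemma sum_shift (i j d : ℤ) (f : ℤ → ℝ) :
    ∑ x ∈ Ioo (i + d) (j + d), f x = ∑ x ∈ Ioo i j, f (x + d) := by
  rw [← map_add_right_Ioo, sum_map]
  rfl

lemma ne_map (e : α ≃ α) (a b : Option α) : ne (a.map e) (b.map e) = ne a b := by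
  cases a <;> cases b <;> simp [ne]

lemma k_congr (e : α ≃ α) (d : ℤ) (π π' : ℤ → α → ℝ) (a b : Option α) (i j : ℤ)
    (h : ∀ x, i < x → x < j → ∀ c, π' (x + d) (e c) = π x c) :
    k t π' (a.map e) (b.map e) (i + d) (j + d) = k t π a b i j := by
  induction hn : (j - i).toNat using Nat.strong_induction_on generalizing a b i j with
  | _ n ih =>
  rw [k_apply, k_apply, kap_eq, kap_eq π, ne_map, sum_shift, add_sub_add_right_eq_sub]
  refine if_congr (by omega) ?_ (if_congr (by omega) rfl rfl)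
  congr 2
  refine sum_congr rfl fun x hx => (e.sum_comp _).symm.trans (sum_congr rfl fun c _ => ?_)
  obtain ⟨h1, h2⟩ := mem_Ioo.1 hx
  rw [add_sub_add_right_eq_sub, h x h1 h2]
  exact congrArg₂ (· * ·) (congrArg (· * _) (congrArg _
    (ih _ (by omega) a (some c) i x (fun y h3 h4 => h y h3 (by omega)) rfl)))
    (ih _ (by omega) (some c) b x j (fun y h3 h4 => h y (by omega) h4) rfl)

lemma k_loc (π π' : ℤ → α → ℝ) (a b : Option α) (i j : ℤ)
    (h : ∀ x, i < x → x < j → π' x = π x) : k t π' a b i j = k t π a b i j := by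
  simpa using k_congr (t := t) (Equiv.refl α) 0 π π' a b i j fun x h1 h2 c => by simp [h x h1 h2]

lemma k_nonneg (ht : 0 < t) {π : ℤ → α → ℝ} (hπ : ∀ x c, 0 ≤ π x c) (a b : Option α) (i j : ℤ) :
    0 ≤ k t π a b i j := by
  induction hn : (j - i).toNat using Nat.strong_induction_on generalizing a b i j with
  | _ n ih =>
  have h0 : 0 ≤ ne a b := by rw [← ne_sq]; exact mul_self_nonneg _
  rw [k_apply, kap_eq]
  split_ifs with h1 h2
  · refine div_nonneg (mul_nonneg (mul_nonneg ht.le h0) (sum_nonneg fun x hx =>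
      sum_nonneg fun c _ => ?_)) (br_gt ht (by omega)).le
    obtain ⟨h1, h2⟩ := mem_Ioo.1 hx
    exact mul_nonneg (mul_nonneg (mul_nonneg (pow_pos ht _).le (ih _ (by omega) a _ i x rfl))
      (hπ _ _)) (ih _ (by omega) _ b x j rfl)
  · exact h0
  · rfl

lemma k_improper {π : ℤ → α → ℝ} {l : ℤ} {c0 : α} (h1 : ∀ c, c ≠ c0 → π l c = 0)
    (h2 : ∀ c, c ≠ c0 → π (l + 1) c = 0) (a b : Option α) (i j : ℤ) (hi : i ≤ l) (hj : l + 1 ≤ j)
    (ha : i = l → a = some c0) (hb : j = l + 1 → b = some c0) : k t π a b i j = 0 := by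
  induction hn : (j - i).toNat using Nat.strong_induction_on generalizing a b i j with
  | _ n ih =>
  rw [k_apply, kap_eq]
  split_ifs with h3 h4
  · rw [sum_eq_zero fun x hx => sum_eq_zero fun c _ => ?_, mul_zero, zero_div]
    obtain ⟨h5, h6⟩ := mem_Ioo.1 hx
    by_cases h7 : (x = l ∨ x = l + 1) ∧ c ≠ c0
    · rw [show π x c = 0 by rcases h7.1 with rfl | rfl <;> simp [h1, h2, h7.2], mul_zero, zero_mul]
    by_cases h8 : x ≤ l
    · rw [← k_apply π _ b, ih _ (by omega) (some c) b x j h8 hj (by grind) hb rfl, mul_zero]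
    · rw [← k_apply π a, ih _ (by omega) a (some c) i x hi (by omega) ha (by grind) rfl]
      simp
  · rw [ha (by omega), hb (by omega), ne_cc]
  · rfl

/-- elements living on intervals that cross `p` -/
def X (p : ℤ) : Submodule ℝ R where
  carrier := {f | ∀ i j, p ≤ i ∨ j ≤ p → f i j = 0}
  add_mem' hf hg i j h := by simp [hf i j h, hg i j h]
  zero_mem' _ _ _ := rfl
  smul_mem' c f hf i j h := by simp [hf i j h]

variable {p : ℤ}

lemma X_F {f : R} (hf : f ∈ X p) : f ∈ F 2 := fun i j h => hf i j (by omega)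

lemma X_wt {f : R} (φ : ℤ → ℝ) (hf : f ∈ X p) : wt φ f ∈ X p := fun i j h => by simp [hf i j h]

lemma X_ml {g : R} (f : R) (hg : g ∈ X p) : f * g ∈ X p := fun i j h => by
  rw [IncidenceAlgebra.mul_apply]
  exact sum_eq_zero fun x hx => by rw [hg x j (by have := mem_Icc.1 hx; omega), mul_zero]

lemma X_mr {f : R} (g : R) (hf : f ∈ X p) : f * g ∈ X p := fun i j h => by
  rw [IncidenceAlgebra.mul_apply]
  exact sum_eq_zero fun x hx => by rw [hf i x (by have := mem_Icc.1 hx; omega), zero_mul]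

lemma X_X {f g : R} (hf : f ∈ X p) (hg : g ∈ X p) : f * g = 0 := by
  ext i j
  rw [IncidenceAlgebra.mul_apply]
  refine sum_eq_zero fun x _ => ?_
  by_cases h : x ≤ p
  · rw [hf i x (.inr h), zero_mul]
  · rw [hg x j (by omega), mul_zero]

/-- the projector on site `p` -/
def e (p : ℤ) : R := dg fun i => if i = p then 1 else 0

lemma X_e {f : R} (hf : f ∈ X p) : f * e p = 0 := by
  ext i j
  rw [e, mul_dg]
  split_ifs with h
  · rw [hf i j (.inr h.le), zero_mul]; rfl
  · exact mul_zero _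

lemma e_X {f : R} (hf : f ∈ X p) : e p * f = 0 := by
  ext i j
  rw [e, dg_mul]
  split_ifs with h
  · rw [hf i j (.inl h.ge), mul_zero]; rfl
  · exact zero_mul _

lemma sand (f g : R) (i j : ℤ) : (f * e p * g) i j = f i p * g p j := by
  rw [IncidenceAlgebra.mul_apply]
  simp only [e, mul_dg, mul_ite, ite_mul, mul_one, mul_zero,
    zero_mul, sum_ite_eq', mem_Icc]
  split_ifs with h
  · rfl
  · by_cases h1 : i ≤ p
    · rw [g.apply_eq_zero_of_not_le fun h2 => h ⟨h1, h2⟩, mul_zero]
    · rw [f.apply_eq_zero_of_not_le h1, zero_mul]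

lemma sand_X {f g : R} (hf : f ∈ F 1) (hg : g ∈ F 1) : f * e p * g ∈ X p := fun i j h => by
  rw [sand]
  rcases h with h | h
  · rw [hf i p (by omega), zero_mul]
  · rw [hg p j (by omega), mul_zero]

lemma σ_e : σ t (e p) = e p := σ_dg _

lemma Λ_e : Λ t (e p) = 0 := Λ_dg _

noncomputable def Γ (t : ℝ) (π : ℤ → α → ℝ) (p : ℤ) (f : α → ℝ) (a b : Option α) : R :=
  k t (Function.update π p f) a b - k t π a b

variable {π : ℤ → α → ℝ}

lemma Γ_X (f : α → ℝ) (a b : Option α) : Γ t π p f a b ∈ X p := fun i j h =>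
  sub_eq_zero.2 (k_loc _ _ a b i j fun x _ _ => Function.update_of_ne (by omega) _ _)

lemma P_upd (h0 : π p = 0) (f : α → ℝ) (c : α) :
    P (Function.update π p f) c = P π c + f c • e p := by
  ext i j
  by_cases h : i = p <;> simp [P, e, dg_apply, h, h0]

lemma Γ_eq (ht : 0 < t) (h0 : π p = 0) (f : α → ℝ) (a b : Option α) :
    Λ t (Γ t π p f a b) - Γ t π p f a b = (t * ne a b) • ∑ c,
      (σ t (Γ t π p f a (some c)) * P π c * k t π (some c) b +
        σ t (k t π a (some c)) * P π c * Γ t π p f (some c) b +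
        f c • (σ t (k t π a (some c)) * e p * k t π (some c) b)) := by
  have h1 : ∀ a b, k t (Function.update π p f) a b = k t π a b + Γ t π p f a b := fun a b => by
    simp [Γ]
  have h2 := kQ ht (Function.update π p f) a b
  have h3 : ∀ c, σ t (Γ t π p f a (some c)) ∈ X p := fun c => X_wt _ (Γ_X _ _ _)
  simp only [h1, map_add, kQ ht π, P_upd h0, add_mul, mul_add, mul_smul_comm, smul_mul_assoc,
    X_e (h3 _), X_X (X_mr _ (h3 _)) (Γ_X _ _ _), zero_mul, mul_assoc _ (e p) (Γ t π p f _ _),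
    e_X (Γ_X _ _ _), mul_zero, smul_zero, add_zero, sum_add_distrib] at h2 ⊢
  rw [eq_sub_of_add_eq' h2]
  module

lemma Γ_uniq (ht : 0 < t) (h0 : π p = 0) (f : α → ℝ) (Θ : Option α → Option α → R)
    (h1 : ∀ a b, Θ a b ∈ F 2) (h2 : ∀ a b, Λ t (Θ a b) - Θ a b = (t * ne a b) • ∑ c,
      (σ t (Θ a (some c)) * P π c * k t π (some c) b +
        σ t (k t π a (some c)) * P π c * Θ (some c) b +
        f c • (σ t (k t π a (some c)) * e p * k t π (some c) b))) (a b : Option α) :
    Γ t π p f a b = Θ a b := by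
  refine sub_eq_zero.1 (uniq ht (fun x : Option α × Option α => Γ t π p f x.1 x.2 - Θ x.1 x.2)
    (fun x => sub_mem (X_F (Γ_X _ _ _)) (h1 _ _)) (fun L hL x => ?_) (a, b))
  have : Λ t (Γ t π p f x.1 x.2 - Θ x.1 x.2) - (Γ t π p f x.1 x.2 - Θ x.1 x.2) =
      (t * ne x.1 x.2) • ∑ c, (σ t (Γ t π p f x.1 (some c) - Θ x.1 (some c)) * P π c *
        k t π (some c) x.2 + σ t (k t π x.1 (some c)) * P π c *
        (Γ t π p f (some c) x.2 - Θ (some c) x.2)) := by
    rw [map_sub, sub_sub_sub_comm, Γ_eq ht h0, h2]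
    simp only [map_sub, sub_mul, mul_sub, sum_add_distrib, sum_sub_distrib]
    module
  rw [this]
  exact Submodule.smul_mem _ _ (Submodule.sum_mem _ fun c _ => add_mem
    (F_r _ (F_wt _ (hL (x.1, some c))) (k_F _ _ _)) (F_l _ (F_wt _ (k_F _ _ _)) (hL (some c, x.2))))

lemma Γ_lin (ht : 0 < t) (h0 : π p = 0) (f g : α → ℝ) (r : ℝ) (a b : Option α) :
    Γ t π p (f + r • g) a b = Γ t π p f a b + r • Γ t π p g a b := by
  refine Γ_uniq ht h0 _ (fun a b => Γ t π p f a b + r • Γ t π p g a b)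
    (fun a b => X_F (add_mem (Γ_X _ _ _) (Submodule.smul_mem _ _ (Γ_X _ _ _)))) (fun a b => ?_) a b
  have h1 := Γ_eq ht h0 f a b
  have h2 := Γ_eq ht h0 g a b
  simp only [map_add, map_smul, add_mul, mul_add, smul_mul_assoc, mul_smul_comm, sum_add_distrib,
    Pi.add_apply, Pi.smul_apply, smul_eq_mul, add_smul, mul_smul, ← smul_sum] at h1 h2 ⊢
  rw [eq_add_of_sub_eq h1, eq_add_of_sub_eq h2]
  module

def Po (π : ℤ → α → ℝ) : Option α → R
  | none => 0
  | some c => P π c

lemma kR' (ht : 0 < t) (a b : Option α) : ne a b • k t π a none =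
    k t π a b + t • (k t π a b * Po π b * ι t (k t π b none)) := by
  cases b with
  | none => simp [Po, ne_r]
  | some c => exact (eq_sub_iff_add_eq.1 (kR ht π a c)).symm

lemma kL' (ht : 0 < t) (a b : Option α) : ne a b • k t π none b =
    k t π a b + σ t (ι t (k t π none a)) * Po π a * k t π a b := by
  cases a with
  | none => simp [Po, ne_l]
  | some c => exact (eq_sub_iff_add_eq.1 (kL ht π c b)).symm

lemma σ_Po (a : Option α) : σ t (Po π a) = Po π a := by cases a <;> simp [Po, σ_P]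

lemma Λ_Po (a : Option α) : Λ t (Po π a) = 0 := by cases a <;> simp [Po, Λ_P]

noncomputable def A (t : ℝ) (π : ℤ → α → ℝ) (p : ℤ) (a : Option α) : R :=
  ι t (k t π a none * e p * ι t (k t π none a))

noncomputable def B (t : ℝ) (π : ℤ → α → ℝ) (p : ℤ) (a : Option α) : R :=
  ι t (σ t (ι t (k t π a none)) * e p * k t π none a)

noncomputable def ΓA (t : ℝ) (π : ℤ → α → ℝ) (p : ℤ) (a b : Option α) : R :=
  t • (σ t (ι t (k t π a none)) * e p * k t π a b + σ t (A t π p a) * Po π a * k t π a b)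

noncomputable def ΓB (t : ℝ) (π : ℤ → α → ℝ) (p : ℤ) (a b : Option α) : R :=
  k t π a b * e p * ι t (k t π none b) + t • (k t π a b * Po π b * B t π p b)

lemma A_X (a : Option α) : A t π p a ∈ X p := X_wt _ (sand_X (k_F _ _ _) (F_wt _ (k_F _ _ _)))

lemma B_X (a : Option α) : B t π p a ∈ X p :=
  X_wt _ (sand_X (F_wt _ (F_wt _ (k_F _ _ _))) (k_F _ _ _))

lemma Λ_A (ht : 0 < t) (a : Option α) :
    Λ t (A t π p a) = k t π a none * e p * ι t (k t π none a) :=
  Λ_ι ht (F_mr _ (F_mr _ (k_F _ _ _)))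

lemma Λ_B (ht : 0 < t) (a : Option α) :
    Λ t (B t π p a) = σ t (ι t (k t π a none)) * e p * k t π none a :=
  Λ_ι ht (F_ml _ (k_F _ _ _))

lemma A_B (ht : 0 < t) (a : Option α) :
    A t π p a + B t π p a = ι t (k t π a none) * e p * ι t (k t π none a) := by
  have : ι t (k t π a none) * e p * ι t (k t π none a) ∈ F 1 := F_ml _ (F_wt _ (k_F _ _ _))
  rw [← Λ_ι ht this, Λ, ι, wt_comm, ← Λ, ← ι]
  simp only [A, B, Λ_mul, σ_mul, Λ_e, σ_e, Λ_ι ht (k_F _ _ _), mul_zero, add_zero, map_add]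

lemma Λ_mul' (f g : R) : Λ t (f * g) = f * g + t • (Λ t f * g) + σ t f * (Λ t g - g) := by
  rw [Λ_mul, mul_sub, σ_eq f, sub_mul f _ g, smul_mul_assoc]
  module

lemma ΓA_eq (ht : 0 < t) (a b : Option α) : Λ t (ΓA t π p a b) - ΓA t π p a b =
    (t * t * ne a b) • (σ t (k t π a none) * e p * k t π none b) +
      (t * ne a b) • ∑ c, σ t (ΓA t π p a (some c)) * P π c * k t π (some c) b := by
  have h : ne a b • (σ t (k t π a none) * e p * k t π none b) =
      σ t (k t π a none) * e p * (ne a b • k t π none b) := by simp only [mul_smul_comm]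
  rw [mul_smul (t * t), h, kL' ht]
  simp only [ΓA, map_smul, map_add, Λ_mul' (_ * _), kQ ht, add_sub_cancel_left]
  simp only [Λ_mul, σ_mul, Λ_e, σ_e, Λ_Po, σ_Po, Λ_σ, Λ_A ht,
    Λ_ι ht (k_F _ _ _), mul_zero, add_zero, mul_smul_comm, smul_mul_assoc, mul_sum, add_mul,
    mul_add, sum_add_distrib, smul_add, ← smul_sum, mul_assoc, zero_mul, zero_add, map_zero]
  module

lemma ΓB_eq (ht : 0 < t) (a b : Option α) : Λ t (ΓB t π p a b) - ΓB t π p a b =
    ne a b • (σ t (k t π a none) * e p * k t π none b) +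
      (t * ne a b) • ∑ c, σ t (k t π a (some c)) * P π c * ΓB t π p (some c) b := by
  rw [← smul_mul_assoc, ← smul_mul_assoc, ← map_smul, kR' ht]
  simp only [ΓB, map_smul, map_add, kQ ht, Λ_mul, σ_mul, Λ_e, σ_e, Λ_Po, σ_Po, Λ_σ, Λ_B ht,
    Λ_ι ht (k_F _ _ _), mul_zero, add_zero, mul_smul_comm, smul_mul_assoc, sum_mul, add_mul,
    mul_add, sum_add_distrib, smul_add, ← smul_sum, mul_assoc, zero_mul, zero_add, map_zero]
  module

lemma expand {x x0 x1 y y0 y1 : R} (z : R) (hx : x = x0 - x1) (hy : y = y0 - y1) :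
    x * z * y = x0 * z * y0 - x1 * z * y - x * z * y1 - x1 * z * y1 := by
  subst hx hy
  simp only [sub_mul, mul_sub]
  abel

noncomputable def cA (t : ℝ) : Option α → ℝ
  | none => 1 + 1 / t
  | some _ => 1

def cB (t : ℝ) : Option α → ℝ
  | none => 1 + t
  | some _ => 1

lemma omega (ht : 0 < t) (hq : Fintype.card α * t = (1 + t) ^ 2) (a b : Option α) :
    t * ne a b * ∑ c, ne a (some c) * ne (some c) b = ne a b * (cA t a * t * t + cB t b) := by
  have h1 := fun c : α => sum_ne (M := ℝ) c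
  simp only [smul_eq_mul] at h1
  cases a with
  | none =>
    cases b with
    | none => simp [ne_l, ne_r, cA, cB]; field_simp; linarith
    | some b =>
      have := h1 b fun _ => 1
      simp only [ne_l, cA, cB, one_mul, mul_one, sum_const, card_univ, nsmul_eq_mul] at this ⊢
      rw [this]; field_simp; linarith
  | some a =>
    simp only [ne_comm (some a) (some _), h1]
    cases b with
    | none => simp [ne_r, cA, cB]; linarith
    | some b =>
      have := h1 b fun _ => 1
      simp only [mul_one, sum_const, card_univ, nsmul_eq_mul, ne_comm (some b) (some a)] at this ⊢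
      rw [this]
      by_cases h : a = b
      · simp [h, ne_cc]
      · simp only [ne_ne h, cA, cB]; linarith

lemma Γ_one (ht : 0 < t) (hq : Fintype.card α * t = (1 + t) ^ 2) (h0 : π p = 0) (a b : Option α) :
    Γ t π p 1 a b = cA t a • ΓA t π p a b + cB t b • ΓB t π p a b := by
  refine Γ_uniq ht h0 _ (fun a b => cA t a • ΓA t π p a b + cB t b • ΓB t π p a b)
    (fun a b => X_F (p := p) (add_mem (Submodule.smul_mem _ _ (Submodule.smul_mem _ _ (add_mem
      (sand_X (F_wt _ (F_wt _ (k_F _ _ _))) (k_F _ _ _)) (X_mr _ (X_mr _ (X_wt _ (A_X _)))))))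
      (Submodule.smul_mem _ _ (add_mem (sand_X (k_F _ _ _) (F_wt _ (k_F _ _ _)))
        (Submodule.smul_mem _ _ (X_ml _ (B_X _))))))) (fun a b => ?_) a b
  have h1 : ∀ c, σ t (ΓB t π p a (some c)) * P π c * k t π (some c) b +
      σ t (k t π a (some c)) * P π c * ΓA t π p (some c) b +
      σ t (k t π a (some c)) * e p * k t π (some c) b =
      (ne a (some c) * ne (some c) b) • (σ t (k t π a none) * e p * k t π none b) := fun c => by
    rw [expand (e p) (congrArg (σ t) (kR ht π a c) |>.trans (map_sub _ _ _)) (kL ht π c b)]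
    have h2 := congrArg (σ t) (A_B (π := π) (p := p) ht (some c))
    rw [map_add, ← eq_sub_iff_add_eq] at h2
    simp only [ΓA, ΓB, Po, h2, map_add, map_smul, σ_mul, σ_e, σ_P, mul_smul_comm, smul_mul_assoc,
      add_mul, mul_add, sub_mul, mul_sub, mul_assoc]
    module
  have h2 := congrArg ((t * ne a b) • ·) (sum_congr (s₁ := univ) rfl fun c _ => h1 c)
  simp only [← sum_smul, smul_smul, omega ht hq, sum_add_distrib] at h2
  have h3 := ΓA_eq (π := π) (p := p) ht a b
  have h4 := ΓB_eq (π := π) (p := p) ht a b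
  simp only [map_add, map_smul, show ∀ c, cA t (some c) = 1 from fun _ => rfl,
    show ∀ c, cB t (some c) = 1 from fun _ => rfl, one_smul, Pi.one_apply, add_mul, mul_add,
    smul_mul_assoc, mul_smul_comm, sum_add_distrib, ← smul_sum, eq_add_of_sub_eq h3,
    eq_add_of_sub_eq h4]
  linear_combination (norm := module) (-1 : ℝ) • h2

end Pool.Agent.H22.Cyc
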