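import Pool.Agent.H22.Cyc2

/-! Renewal chains of bubbles, the cyclic trace, and the cap identity. -/

set_option autoImplicit false
set_option linter.unusedSectionVars false
set_option linter.unusedSimpArgs false
open Finset

namespace Pool.Agent.H22.Cyc

variable {t : ℝ} {α : Type} [Fintype α] [DecidableEq α]

noncomputable def gap (t : ℝ) (π : ℤ → α → ℝ) (w : α → ℝ) (a b : Option α) (i j : ℤ) : ℝ :=
  k t π a b i j + ∑ x : Ioo i j, ∑ c, (1 - t) * w c *
    (k t π a (some c) i x * π x c * gap t π w (some c) b x j)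
termination_by (j - i).toNat
decreasing_by have := mem_Ioo.1 x.2; omega

lemma gap_eq (π : ℤ → α → ℝ) (w : α → ℝ) (a b : Option α) (i j : ℤ) : gap t π w a b i j =
    k t π a b i j + ∑ x ∈ Ioo i j, ∑ c, (1 - t) * w c *
      (k t π a (some c) i x * π x c * gap t π w (some c) b x j) := by
  rw [gap, ← sum_coe_sort (Ioo i j)]

noncomputable def G (t : ℝ) (π : ℤ → α → ℝ) (w : α → ℝ) (a b : Option α) : R :=
  ⟨gap t π w a b, fun i j h => by
    rw [gap_eq, k_F π a b i j (by omega), Ioo_eq_empty (by omega), sum_empty, add_zero]⟩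

variable {π : ℤ → α → ℝ} {w : α → ℝ} {p n : ℤ}

lemma G_apply (a b : Option α) (i j : ℤ) : G t π w a b i j = gap t π w a b i j := rfl

lemma G_F (a b : Option α) : G t π w a b ∈ F 1 := fun i j h => by
  rw [G_apply, gap_eq, k_F π a b i j (by omega), Ioo_eq_empty (by omega), sum_empty, add_zero]

lemma G_eq (a b : Option α) : G t π w a b = k t π a b +
    (1 - t) • ∑ c, w c • (k t π a (some c) * P π c * G t π w (some c) b) := by
  ext i j
  simp only [IncidenceAlgebra.add_apply, sm_apply, sum_app, P, mul3 _ (k_F π _ _) (G_F _ _),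
    mul_sum, G_apply]
  rw [gap_eq, sum_comm]
  simp only [mul_assoc]

lemma G_congr (e : α ≃ α) (d : ℤ) (π π' : ℤ → α → ℝ) {w w' : α → ℝ} (hw : ∀ c, w' (e c) = w c)
    (a b : Option α) (i j : ℤ) (h : ∀ x, i < x → x < j → ∀ c, π' (x + d) (e c) = π x c) :
    G t π' w' (a.map e) (b.map e) (i + d) (j + d) = G t π w a b i j := by
  induction hn : (j - i).toNat using Nat.strong_induction_on generalizing a i with
  | _ n ih =>
  rw [G_apply, G_apply, gap_eq, gap_eq π, sum_shift, k_congr e d π π' a b i j h]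
  congr 1
  refine sum_congr rfl fun x hx => (e.sum_comp _).symm.trans (sum_congr rfl fun c _ => ?_)
  obtain ⟨h1, h2⟩ := mem_Ioo.1 hx
  rw [h x h1 h2, hw]
  exact congrArg _ (congrArg₂ (· * ·) (congrArg (· * _)
    (k_congr e d π π' a (some c) i x fun y h3 h4 => h y h3 (by omega)))
    (ih _ (by omega) (some c) x (fun y h3 h4 => h y (by omega) h4) rfl))

lemma G_nonneg (ht : 0 < t) (h1 : t ≤ 1) (hπ : ∀ x c, 0 ≤ π x c) (hw : ∀ c, 0 ≤ w c)
    (a b : Option α) (i j : ℤ) : 0 ≤ G t π w a b i j := by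
  induction hn : (j - i).toNat using Nat.strong_induction_on generalizing a i with
  | _ n ih =>
  rw [G_apply, gap_eq]
  refine add_nonneg (k_nonneg ht hπ _ _ _ _) (sum_nonneg fun x hx => sum_nonneg fun c _ => ?_)
  obtain ⟨h2, h3⟩ := mem_Ioo.1 hx
  exact mul_nonneg (mul_nonneg (sub_nonneg.2 h1) (hw _)) (mul_nonneg (mul_nonneg
    (k_nonneg ht hπ _ _ _ _) (hπ _ _)) (ih _ (by omega) _ x rfl))

lemma sm_sub (c : ℝ) (f g : R) : c • (f - g) = c • f - c • g := smul_sub c f g

lemma sm_add (c : ℝ) (f g : R) : c • (f + g) = c • f + c • g := smul_add c f g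

lemma sm_l (c : ℝ) (f g : R) : (c • f) * g = c • (f * g) := smul_mul_assoc c f g

lemma sm_r (c : ℝ) (f g : R) : f * (c • g) = c • (f * g) := by simp only [mul_smul_comm]

lemma sm_sm (c d : ℝ) (f : R) : c • d • f = (c * d) • f := smul_smul c d f

lemma sm_sum (c : ℝ) (f : α → R) : c • ∑ x, f x = ∑ x, c • f x := smul_sum

lemma G_comm (a b : Option α) : ∑ c, w c • (G t π w a (some c) * P π c * k t π (some c) b) =
    ∑ c, w c • (k t π a (some c) * P π c * G t π w (some c) b) := by
  refine sub_eq_zero.1 (uniq0 (fun a => ∑ c, w c • (G t π w a (some c) * P π c *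
    k t π (some c) b) - ∑ c, w c • (k t π a (some c) * P π c * G t π w (some c) b))
    (fun L hL a => ?_) a)
  have : ∑ c, w c • (G t π w a (some c) * P π c * k t π (some c) b) -
      ∑ c, w c • (k t π a (some c) * P π c * G t π w (some c) b) =
      (1 - t) • ∑ d, w d • (k t π a (some d) * P π d * (∑ c, w c • (G t π w (some d) (some c) *
        P π c * k t π (some c) b) - ∑ c, w c • (k t π (some d) (some c) * P π c *
        G t π w (some c) b))) := by
    conv_lhs =>
      congr
      · enter [2, c]; rw [G_eq a]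
      · enter [2, c]; rw [G_eq (some c) b]
    simp only [add_mul, mul_add, sm_add, sum_add_distrib, sm_l, sm_r, mul_sub,
      sm_sub, sum_sub_distrib, sum_mul, mul_sum, sm_sum, mul_assoc, add_sub_add_left_eq_sub,
      sm_sm]
    rw [sum_comm]
    congr 1 <;> refine sum_congr rfl fun _ _ => sum_congr rfl fun _ _ => ?_ <;> congr 1 <;> ring
  rw [this]
  exact Submodule.smul_mem _ _ (Submodule.sum_mem _ fun d _ => Submodule.smul_mem _ _
    (F_l _ (k_F _ _ _) (hL _)))

lemma G_eq' (a b : Option α) : G t π w a b = k t π a b +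
    (1 - t) • ∑ c, w c • (G t π w a (some c) * P π c * k t π (some c) b) := by
  rw [G_comm, ← G_eq]

lemma G_σ (ht : 0 < t) {b : Option α} (hw : ∀ c, w c = ne (some c) b) (a : Option α) :
    ne a b • σ t (G t π w a b) = t • k t π a b := by
  refine sub_eq_zero.1 (uniq0 (fun a => ne a b • σ t (G t π w a b) - t • k t π a b)
    (fun L hL a => ?_) a)
  have : ne a b • σ t (G t π w a b) - t • k t π a b = ((1 - t) * ne a b) •
      ∑ c, σ t (k t π a (some c)) * P π c *
        (ne (some c) b • σ t (G t π w (some c) b) - t • k t π (some c) b) := by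
    have h := σ_eq (t := t) (k t π a b)
    rw [kQ ht] at h
    rw [G_eq a, map_add, sm_add, ← map_smul, ne_k, h]
    simp only [map_smul, map_sum, σ_mul, σ_P, hw, mul_sub, mul_smul_comm, sum_sub_distrib,
      ← smul_sum]
    module
  rw [this]
  exact Submodule.smul_mem _ _ (Submodule.sum_mem _ fun d _ => F_l _ (F_wt _ (k_F _ _ _)) (hL _))

lemma G_res (γ : α) (a : Option α) : G t π 1 a none = G t π (fun c => ne (some c) (some γ)) a none +
    (1 - t) • (G t π (fun c => ne (some c) (some γ)) a (some γ) * P π γ * G t π 1 (some γ) none) := by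
  set v : α → ℝ := fun c => ne (some c) (some γ)
  refine sub_eq_zero.1 (uniq0 (fun a => G t π 1 a none - (G t π v a none +
    (1 - t) • (G t π v a (some γ) * P π γ * G t π 1 (some γ) none))) (fun L hL a => ?_) a)
  have : G t π 1 a none - (G t π v a none + (1 - t) • (G t π v a (some γ) * P π γ *
      G t π 1 (some γ) none)) = (1 - t) • ∑ c, v c • (k t π a (some c) * P π c *
        (G t π 1 (some c) none - (G t π v (some c) none + (1 - t) • (G t π v (some c) (some γ) *
          P π γ * G t π 1 (some γ) none)))) := by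
    have h := sum_ne γ fun c => k t π a (some c) * P π c * G t π 1 (some c) none
    conv_lhs => simp only [G_eq a]
    simp only [Pi.one_apply, one_smul, add_mul, mul_add, mul_sub, sm_add, sm_sub,
      sum_add_distrib, sum_sub_distrib, smul_mul_assoc, mul_smul_comm, sum_mul, mul_assoc,
      smul_comm (v _) (1 - t), ← smul_sum] at h ⊢
    rw [show ∑ x, v x • (k t π a (some x) * (P π x * G t π 1 (some x) none)) = _ from h]
    module
  rw [this]
  exact Submodule.smul_mem _ _ (Submodule.sum_mem _ fun d _ => Submodule.smul_mem _ _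
    (F_l _ (k_F _ _ _) (hL _)))

/-- periodic elements -/
def Per (n : ℤ) (f : R) : Prop := ∀ i j, f (i + n) (j + n) = f i j

lemma Per.mul {f g : R} (hf : Per n f) (hg : Per n g) : Per n (f * g) := fun i j => by
  simp only [IncidenceAlgebra.mul_apply, ← map_add_right_Icc, sum_map, addRightEmbedding_apply,
    hf _ _, hg _ _]

lemma k_per (h : ∀ x, π (x + n) = π x) (a b : Option α) : Per n (k t π a b) := fun i j => by
  simpa using k_congr (t := t) (Equiv.refl α) n π π a b i j fun x _ _ c => by simp [h]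

lemma G_per (h : ∀ x, π (x + n) = π x) (a b : Option α) : Per n (G t π w a b) := fun i j => by
  simpa using G_congr (t := t) (Equiv.refl α) n π π (w := w) (fun _ => rfl) a b i j
    fun x _ _ c => by simp [h]

lemma P_per (h : ∀ x, π (x + n) = π x) (c : α) : Per n (P π c) := fun i j => by
  simp [P, dg_apply, h]

/-- the cyclic trace -/
noncomputable def tr (p n : ℤ) : R →ₗ[ℝ] ℝ where
  toFun f := ∑ j ∈ Ioo (p - n) p, f j (j + n)
  map_add' f g := by simp [sum_add_distrib]
  map_smul' c f := by simp [mul_sum]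

lemma tr_apply (f : R) : tr p n f = ∑ j ∈ Ioo (p - n) p, f j (j + n) := rfl

lemma sum_supp {s s' : Finset ℤ} {f : ℤ → ℝ} (h : ∀ x, f x ≠ 0 → (x ∈ s ↔ x ∈ s')) :
    ∑ x ∈ s, f x = ∑ x ∈ s', f x := by
  rw [← sum_filter_ne_zero s, ← sum_filter_ne_zero s']
  exact sum_congr (by ext x; simpa [and_comm] using h x) fun _ _ => rfl

lemma tr_l {Θ : R} (hΘ : Θ ∈ X p) (Y : R) : tr p n (Y * Θ) =
    ∑ j ∈ Ioo (p - n) p, ∑ l ∈ Ioo (p - n) p, Y j l * Θ l (j + n) := by
  rw [tr_apply]
  refine sum_congr rfl fun j hj => ?_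
  rw [IncidenceAlgebra.mul_apply]
  refine sum_supp fun x hx => ?_
  have h1 := IncidenceAlgebra.le_of_ne_zero (left_ne_zero_of_mul hx)
  have h2 := mt (hΘ x (j + n)) (right_ne_zero_of_mul hx)
  simp only [mem_Icc, mem_Ioo] at hj ⊢
  omega

lemma tr_cyc {Θ Y : R} (hΘ : Θ ∈ X p) (hY : Per n Y) : tr p n (Θ * Y) = tr p n (Y * Θ) := by
  rw [tr_l hΘ, sum_comm, tr_apply]
  refine sum_congr rfl fun j hj => ?_
  rw [IncidenceAlgebra.mul_apply, sum_supp (s' := Ioo (p - n + n) (p + n)) fun x hx => ?_,
    sum_shift]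
  · exact sum_congr rfl fun x _ => by rw [hY, mul_comm]
  have h1 := IncidenceAlgebra.le_of_ne_zero (right_ne_zero_of_mul hx)
  have h2 := mt (hΘ j x) (left_ne_zero_of_mul hx)
  simp only [mem_Icc, mem_Ioo] at hj ⊢
  omega

lemma tr_sand {U V : R} (hU : U ∈ F 1) (hV : V ∈ F 1) (h : Per n V) :
    tr p n (U * e p * V) = (V * U) (p - n) p := by
  rw [← mul_one V, show (1 : R) = dg 1 from rfl, mul3 _ hV hU, tr_apply]
  refine sum_congr rfl fun j _ => ?_
  rw [sand, mul_dg, ← h (p - n) j, sub_add_cancel]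
  simp [mul_comm]

end Pool.Agent.H22.Cyc
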