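import Pool.Agent.H22.Cyc3

/-! The cap identity for the cyclic renewal weight. -/

set_option autoImplicit false
set_option linter.unusedSectionVars false
set_option linter.unusedSimpArgs false
open Finset

namespace Pool.Agent.H22.Cyc

variable {t : ℝ} {α : Type} [Fintype α] [DecidableEq α] {π : ℤ → α → ℝ} {w : α → ℝ} {p n : ℤ}

noncomputable def Mh (t : ℝ) (π : ℤ → α → ℝ) (w : α → ℝ) (b a : α) : R :=
  (w b * w a) • (P π b * G t π w (some b) (some a) * P π a)

noncomputable def M2 (t : ℝ) (π : ℤ → α → ℝ) (w : α → ℝ) (c : α) : R :=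
  w c • (P π c * (∑ b, w b • (k t π (some c) (some b) * P π b * G t π w (some b) (some c))) * P π c)

noncomputable def N (t : ℝ) (π : ℤ → α → ℝ) (w : α → ℝ) (b a : α) : R :=
  (if a = b then w b else 0) • P π b + (1 - t) • Mh t π w b a

lemma M2_l (c : α) : ∑ b, P π c * k t π (some c) (some b) * Mh t π w b c = M2 t π w c := by
  simp only [M2, Mh, mul_sum, sum_mul, sm_sum, sm_l, sm_r, sm_sm, mul_assoc, mul_comm (w c)]

lemma M2_r (c : α) : ∑ b, Mh t π w c b * (k t π (some b) (some c) * P π c) = M2 t π w c := by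
  rw [M2, ← G_comm]
  simp only [Mh, mul_sum, sum_mul, sm_sum, sm_l, sm_r, sm_sm, mul_assoc]

lemma M2_u (hw : ∀ c, w c * w c = w c) (c : α) : (1 - t) • M2 t π w c = Mh t π w c c := by
  rw [Mh, hw, G_eq, k_cc, zero_add, M2]
  simp only [sm_l, sm_r]
  module

lemma Nk (b : α) (c : Option α) :
    ∑ a, N t π w b a * k t π (some a) c = w b • (P π b * G t π w (some b) c) := by
  rw [G_eq']
  simp only [N, Mh, add_mul, mul_add, sum_add_distrib, ite_smul, ite_mul, zero_smul, zero_mul,
    sum_ite_eq', mem_univ, if_true, sm_l, sm_r, sm_sm, sm_add, sm_sum, mul_sum, mul_assoc,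
    mul_left_comm (w b)]

lemma kN (c : Option α) (a : α) :
    ∑ b, k t π c (some b) * N t π w b a = w a • (G t π w c (some a) * P π a) := by
  rw [G_eq]
  simp only [N, Mh, add_mul, mul_add, sum_add_distrib, ite_smul, mul_ite, zero_smul, mul_zero,
    sum_ite_eq, mem_univ, if_true, sm_l, sm_r, sm_sm, sm_add, sm_sum, sum_mul, mul_assoc,
    mul_left_comm (w a), mul_comm (w a)]

lemma L1 (c : α) (Θ : α → R) : ∑ b, ∑ a, w c * tr p n (N t π w b a *
    (k t π (some a) (some c) * P π c * Θ b)) = ∑ b, tr p n (Mh t π w b c * Θ b) := by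
  refine sum_congr rfl fun b _ => ?_
  simp only [← mul_sum, ← map_sum, ← mul_assoc, ← sum_mul, Nk, Mh, sm_l, map_smul, smul_eq_mul]
  ring

lemma L2 (h : ∀ x, π (x + n) = π x) (c : α) {Θ : α → R} (hΘ : ∀ a, Θ a ∈ X p) :
    ∑ b, ∑ a, w c * tr p n (N t π w b a * (Θ a * P π c * k t π (some c) (some b))) =
      ∑ a, tr p n (Mh t π w c a * Θ a) := by
  rw [sum_comm]
  refine sum_congr rfl fun a _ => ?_
  have : ∀ b, tr p n (N t π w b a * (Θ a * P π c * k t π (some c) (some b))) =
      tr p n (P π c * (k t π (some c) (some b) * N t π w b a * Θ a)) := fun b => by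
    rw [mul_assoc, ← mul_assoc, tr_cyc (X_ml _ (hΘ a)) ((P_per h c).mul (k_per h _ _))]
    simp only [mul_assoc]
  simp only [this, ← mul_sum, ← map_sum, ← sum_mul, kN]
  simp only [Mh, sm_l, sm_r, map_smul, smul_eq_mul, mul_assoc]

lemma L3 (h : ∀ x, π (x + n) = π x) (c : α) {Θ : R} (hΘ : Θ ∈ X p) :
    ∑ b, tr p n (Mh t π w b c * (Θ * P π c * k t π (some c) (some b))) =
      tr p n (M2 t π w c * Θ) := by
  rw [← M2_l, sum_mul, map_sum]
  refine sum_congr rfl fun b _ => ?_
  rw [mul_assoc Θ, ← mul_assoc, tr_cyc (X_ml _ hΘ) ((P_per h c).mul (k_per h _ _))]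
  simp only [mul_assoc]

lemma L4 (c : α) (Θ : R) : ∑ a, tr p n (Mh t π w c a * (k t π (some a) (some c) * P π c * Θ)) =
    tr p n (M2 t π w c * Θ) := by
  rw [← M2_r, sum_mul, map_sum]
  simp only [mul_assoc]

noncomputable def S (t : ℝ) (π : ℤ → α → ℝ) (w : α → ℝ) (p n : ℤ) (f : α → ℝ) : ℝ :=
  ∑ b, ∑ a, tr p n (Mh t π w b a * Γ t π p f (some a) (some b)) + ∑ c, ∑ b, w b * w c * f c *
    tr p n (P π b * G t π w (some b) (some c) * e p * k t π (some c) (some b))

lemma S_lin (ht : 0 < t) (h0 : π p = 0) (f g : α → ℝ) (r : ℝ) :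
    S t π w p n (f + r • g) = S t π w p n f + r * S t π w p n g := by
  simp only [S, Γ_lin ht h0, mul_add, add_mul, sm_r, map_add, map_smul, smul_eq_mul, Pi.add_apply,
    Pi.smul_apply, sum_add_distrib, mul_sum]
  simp only [mul_assoc, mul_left_comm _ r]
  ring

lemma cap (ht : 0 < t) (hq : Fintype.card α * t = (1 + t) ^ 2) (h0 : π p = 0)
    (h : ∀ x, π (x + n) = π x) (hw : ∀ c, w c * w c = w c) {κ : ℝ}
    (hκ : ∀ a b, w a * w b * (∑ c, w c * (ne (some a) (some c) * ne (some c) (some b)) +
      (1 - t) * ne (some a) (some b) - if a = b then t else 0) = κ * (w a * w b)) :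
    S t π w p n 1 = κ * (∑ c, w c • (k t π none (some c) * P π c * G t π w (some c) none)) (p - n) p
      + t * (∑ c, w c • (k t π none (some c) * P π c * k t π (some c) none)) (p - n) p := by
  have kF := k_F (t := t) π
  have iF : ∀ a b, ι t (k t π a b) ∈ F 1 := fun a b => F_wt _ (kF a b)
  have sF : ∀ a b, σ t (ι t (k t π a b)) ∈ F 1 := fun a b => F_wt _ (iF a b)
  let Y : α → α → R := fun a b => k t π (some a) none * e p * k t π none (some b)
  have hI : ∀ c, ∑ b, w b * w c * tr p n (P π b * G t π w (some b) (some c) * e p *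
      k t π (some c) (some b)) = ∑ b, ∑ a, w c * (ne (some a) (some c) * ne (some c) (some b)) *
        tr p n (N t π w b a * Y a b) - t * ∑ b, tr p n (Mh t π w b c *
        (ι t (k t π (some c) none) * e p * k t π (some c) (some b))) - ∑ a, tr p n (Mh t π w c a *
        (k t π (some a) (some c) * e p * σ t (ι t (k t π none (some c))))) - t * tr p n
        (M2 t π w c * (ι t (k t π (some c) none) * e p * σ t (ι t (k t π none (some c))))) := by
    intro c
    rw [← L1, ← L2 h c fun a => sand_X (kF _ _) (sF _ _), ← L3 h c (sand_X (iF _ _) (sF _ _)), ← L1]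
    simp only [mul_sum, ← sum_sub_distrib]
    refine sum_congr rfl fun b _ => ?_
    have : ∀ a, w c * tr p n (N t π w b a * (k t π (some a) (some c) * e p *
        k t π (some c) (some b))) = _ := fun a => by
      rw [expand (e p) (kR ht π (some a) c) (kL ht π c (some b))]
    refine Eq.trans ?_ ((sum_congr rfl fun a _ => this a).trans (sum_congr rfl fun a _ => ?_))
    · simp only [← mul_sum, ← map_sum, ← mul_assoc, ← sum_mul, Nk, sm_l, map_smul, smul_eq_mul]
      ring
    · simp only [Y, mul_sub, sm_l, sm_r, map_sub, map_smul, smul_eq_mul, mul_assoc]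
      ring
  have e1 : ∑ b, ∑ a, tr p n (Mh t π w b a * (σ t (A t π p (some a)) * P π a *
      k t π (some a) (some b))) = ∑ c, tr p n (M2 t π w c * σ t (A t π p (some c))) :=
    sum_comm.trans (sum_congr rfl fun c _ => L3 h c (X_wt _ (A_X _)))
  have e2 : ∑ b, ∑ a, tr p n (Mh t π w b a * (k t π (some a) (some b) * P π b * B t π p (some b))) =
      ∑ c, tr p n (M2 t π w c * B t π p (some c)) := sum_congr rfl fun c _ => L4 c _
  have e3 : ∑ b, ∑ a, tr p n (Mh t π w b a * (k t π (some a) none * e p * k t π (some a) (some b)))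
      = ∑ b, ∑ a, ne (some a) (some b) * tr p n (Mh t π w b a * Y a b) - ∑ c, tr p n (M2 t π w c *
        (k t π (some c) none * e p * σ t (ι t (k t π none (some c))))) := by
    rw [← sum_congr rfl fun c _ => L3 h c (sand_X (kF _ _) (sF _ _)), sum_comm (f := fun c b =>
      tr p n (Mh t π w b c * (_ * P π c * _)))]
    simp only [← sum_sub_distrib]
    refine sum_congr rfl fun b _ => sum_congr rfl fun a _ => ?_
    conv_lhs => rw [kL ht π a (some b)]
    simp only [Y, mul_sub, sm_r, map_sub, map_smul, smul_eq_mul, mul_assoc]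
  have e4 : ∑ b, ∑ a, tr p n (Mh t π w b a * (k t π (some a) (some b) * e p * k t π none (some b)))
      = ∑ b, ∑ a, ne (some a) (some b) * tr p n (Mh t π w b a * Y a b) - t * ∑ c, tr p n
        (M2 t π w c * (ι t (k t π (some c) none) * e p * k t π none (some c))) := by
    simp only [← L4, mul_sum, ← sum_sub_distrib]
    refine sum_congr rfl fun b _ => sum_congr rfl fun a _ => ?_
    conv_lhs => rw [kR ht π (some a) b]
    simp only [Y, mul_sub, sub_mul, sm_l, sm_r, map_sub, map_smul, smul_eq_mul, mul_assoc]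
  have e5 : ∀ c, σ t (A t π p (some c)) + B t π p (some c) =
      ι t (k t π (some c) none) * e p * σ t (ι t (k t π none (some c))) + (1 - t) •
      (ι t (k t π (some c) none) * e p * k t π none (some c) - k t π (some c) none * e p *
        σ t (ι t (k t π none (some c))) - (1 - t) • Y c c) := fun c => by
    rw [σ_eq, Λ_A ht, eq_sub_of_add_eq' (A_B ht (some c)), σι ht (kF _ _)]
    simp only [Y, mul_sub, sm_r]
    module
  have e6 := sum_congr (s₁ := univ) rfl fun c _ => congrArg (fun x => tr p n (M2 t π w c * x)) (e5 c)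
  have e7 : ∑ c, (1 - t) * tr p n (M2 t π w c * Y c c) = ∑ c, tr p n (Mh t π w c c * Y c c) := by
    simp only [← M2_u hw, sm_l, map_smul, smul_eq_mul]
  have e8 : ∀ (c : α) (U : R), U ∈ F 1 → tr p n (P π c * U * e p * k t π none (some c)) =
      (k t π none (some c) * P π c * U) (p - n) p := fun c U hU => by
    rw [tr_sand (F_ml _ hU) (kF _ _) (k_per h _ _), mul_assoc]
  have e9 : ∑ c, ∑ b, ∑ a, w c * (ne (some a) (some c) * ne (some c) (some b)) *
      tr p n (N t π w b a * Y a b) + (1 - t) * (1 - t) * ∑ b, ∑ a, ne (some a) (some b) *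
      tr p n (Mh t π w b a * Y a b) - t * (1 - t) * ∑ c, tr p n (Mh t π w c c * Y c c) =
      κ * ∑ b, ∑ a, tr p n (N t π w b a * Y a b) + t * ∑ c, w c * tr p n (P π c * Y c c) := by
    have : ∀ f : α → ℝ, ∑ c, f c = ∑ b, ∑ a, if a = b then f b else 0 := fun f => by simp
    rw [this fun c => tr p n (Mh t π w c c * Y c c), this fun c => w c * tr p n (P π c * Y c c),
      sum_comm, sum_congr rfl fun b _ => sum_comm]
    simp only [← sum_mul]
    simp only [mul_sum, ← sum_add_distrib, ← sum_sub_distrib]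
    refine sum_congr rfl fun b _ => sum_congr rfl fun a _ => ?_
    have h1 := hκ a b
    simp only [N, Mh, add_mul, sm_l, map_add, map_smul, smul_eq_mul]
    split_ifs at h1 ⊢ with h2
    · subst h2
      rw [ne_cc, hw] at *
      linear_combination (tr p n (P π a * Y a a) + (1 - t) *
        tr p n (P π a * G t π w (some a) (some a) * P π a * Y a a)) * h1
    · linear_combination ((1 - t) * tr p n (P π b * G t π w (some b) (some a) * P π a * Y a b)) * h1
  have e10 : ∑ b, ∑ a, tr p n (N t π w b a * Y a b) =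
      (∑ c, w c • (k t π none (some c) * P π c * G t π w (some c) none)) (p - n) p := by
    simp only [Y, ← mul_assoc, ← map_sum, ← sum_mul, Nk, sm_l, sum_app, sm_apply]
    simp only [map_sum, map_smul, e8 _ _ (G_F _ _), smul_eq_mul]
  have e11 : ∑ c, w c * tr p n (P π c * Y c c) =
      (∑ c, w c • (k t π none (some c) * P π c * k t π (some c) none)) (p - n) p := by
    simp only [Y, ← mul_assoc, e8 _ _ (kF _ _), sum_app, sm_apply]
  have e12 : ∑ b, ∑ a, tr p n (Mh t π w b a * (σ t (ι t (k t π (some a) none)) * e p *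
      k t π (some a) (some b))) = ∑ c, ∑ b, tr p n (Mh t π w b c * (ι t (k t π (some c) none) *
      e p * k t π (some c) (some b))) - (1 - t) * ∑ b, ∑ a, tr p n (Mh t π w b a *
      (k t π (some a) none * e p * k t π (some a) (some b))) := by
    rw [sum_comm (f := fun c b => tr p n (Mh t π w b c * _))]
    simp only [σι ht (kF _ _), sub_mul, mul_sub, sm_l, sm_r, map_sub, map_smul, smul_eq_mul,
      sum_sub_distrib, ← mul_sum]
  have e13 : ∑ b, ∑ a, tr p n (Mh t π w b a * (k t π (some a) (some b) * e p *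
      σ t (ι t (k t π none (some b))))) = ∑ b, ∑ a, tr p n (Mh t π w b a *
      (k t π (some a) (some b) * e p * ι t (k t π none (some b)))) - (1 - t) * ∑ b, ∑ a, tr p n
      (Mh t π w b a * (k t π (some a) (some b) * e p * k t π none (some b))) := by
    simp only [σι ht (kF _ _), sub_mul, mul_sub, sm_l, sm_r, map_sub, map_smul, smul_eq_mul,
      sum_sub_distrib, ← mul_sum]
  simp only [S, Γ_one ht hq h0, cA, cB, one_smul, ΓA, ΓB, Po, Pi.one_apply, mul_one, hI, mul_add,
    mul_sub, sm_add, sm_r, map_add, map_sub, map_smul, smul_eq_mul, sum_add_distrib,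
    sum_sub_distrib, ← mul_sum] at e6 e7 ⊢
  rw [← e10, ← e11]
  linear_combination e9 + t * e1 + t * e2 + t * e12 - e13 + t * e6 - t * (1 - t) * e3 +
    (1 - t) * e4 - t * (1 - t) * e7

end Pool.Agent.H22.Cyc
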