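import Pool.Agent.H22.Cyc4

/-! The cyclic weight, its positivity and its marginals; the line weights. -/

set_option autoImplicit false
set_option linter.unusedSectionVars false
set_option linter.unusedSimpArgs false
open Finset

namespace Pool.Agent.H22.Cyc

variable {t : ℝ} {α : Type} [Fintype α] [DecidableEq α] {π π' : ℤ → α → ℝ} {w : α → ℝ} {p n : ℤ}

lemma Mh_apply (b a : α) (j l : ℤ) : Mh t π w b a j l =
    w b * w a * (π j b * G t π w (some b) (some a) j l * π l a) := by
  rw [Mh, sm_apply, P, P, mul_dg, dg_mul]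

noncomputable def T (t : ℝ) (π : ℤ → α → ℝ) (w : α → ℝ) (n s : ℤ) : ℝ :=
  ∑ j ∈ Ico s (s + n), ∑ l ∈ Ico s (s + n), ∑ b, ∑ a,
    Mh t π w b a j l * k t π (some a) (some b) l (j + n)

lemma T0 {j l : ℤ} (h : l ≤ j) :
    ∑ b, ∑ a, Mh t π w b a j l * k t π (some a) (some b) l (j + n) = 0 := by
  simp [Mh_apply, G_F _ _ j l (by omega)]

lemma T_succ (h : ∀ x, π (x + n) = π x) (hn : 0 < n) (s : ℤ) :
    T t π w n (s + 1) = T t π w n s := by
  rw [T, T, show Ico s (s + n) = insert s (Ioo s (s + n)) by ext; simp; omega,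
    show Ico (s + 1) (s + 1 + n) = insert (s + n) (Ioo s (s + n)) by ext; simp; omega]
  simp only [sum_insert (show s ∉ Ioo s (s + n) by simp), sum_add_distrib,
    sum_insert (show s + n ∉ Ioo s (s + n) by simp), T0 le_rfl]
  rw [sum_eq_zero fun l hl => T0 (mem_Ioo.1 hl).2.le, sum_eq_zero (s := Ioo s (s + n))
    fun l hl => T0 (l := s) (mem_Ioo.1 hl).1.le]
  have := sum_congr (s₁ := univ) rfl fun c _ => congrArg (fun f : R => w c * π s c * f s (s + n))
    (G_comm (t := t) (π := π) (w := w) (some c) (some c))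
  simp only [sum_app, sm_apply, P, mul3 _ (k_F _ _ _) (G_F _ _), mul3 _ (G_F _ _) (k_F _ _ _),
    mul_sum] at this
  simp only [Mh_apply, h, k_per h _ _ s, zero_add, add_left_inj]
  refine Eq.trans ?_ (this.symm.trans ?_)
  · rw [sum_congr rfl fun _ _ => sum_comm, sum_comm]
    refine sum_congr rfl fun _ _ => sum_comm.trans ?_
    exact sum_congr rfl fun _ _ => sum_congr rfl fun _ _ => by ring
  · symm
    rw [sum_comm]
    refine sum_congr rfl fun _ _ => sum_comm.trans ?_
    exact sum_congr rfl fun _ _ => sum_congr rfl fun _ _ => by ring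

lemma T_shift (h : ∀ x, π (x + n) = π x) (hn : 0 < n) (s : ℤ) : T t π w n 0 = T t π w n s := by
  induction s using Int.induction_on with
  | zero => rfl
  | succ s ih => rw [T_succ h hn, ih]
  | pred s ih => rw [← T_succ h hn (_ - 1), sub_add_cancel, ih]

lemma k_hole (h0 : π p = 0) (a b : Option α) (i j : ℤ) (hi : i < p) (hj : p < j) :
    k t π a b i j = 0 := by
  induction hn : (j - i).toNat using Nat.strong_induction_on generalizing a b i j with
  | _ n ih =>
  rw [k_apply, kap_eq, if_pos (by omega), sum_eq_zero fun x hx => sum_eq_zero fun c _ => ?_,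
    mul_zero, zero_div]
  obtain ⟨h5, h6⟩ := mem_Ioo.1 hx
  rcases lt_trichotomy x p with h | rfl | h
  · rw [← k_apply π _ b, ih _ (by omega) (some c) b x j h hj rfl, mul_zero]
  · simp [h0]
  · rw [← k_apply π a, ih _ (by omega) a (some c) i x hi h rfl]
    simp

lemma G_loc (a b : Option α) (i j : ℤ) (h : ∀ x, i < x → x < j → π' x = π x) :
    G t π' w a b i j = G t π w a b i j := by
  simpa using G_congr (t := t) (Equiv.refl α) 0 π π' (w := w) (fun _ => rfl) a b i j
    fun x h1 h2 c => by simp [h x h1 h2]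

lemma T_S (hn : 0 < n) (h0 : π p = 0) (h : ∀ x, π' (x + n) = π' x)
    (h1 : ∀ x, p - n < x → x < p + n → x ≠ p → π' x = π x) :
    T t π' w n 0 = S t π w p n (π' p) := by
  rw [T_shift h hn (p - n + 1), T,
    show Ico (p - n + 1) (p - n + 1 + n) = insert p (Ioo (p - n) p) by ext; simp; omega]
  simp only [sum_insert (show p ∉ Ioo (p - n) p by simp), sum_add_distrib, T0 le_rfl]
  rw [sum_eq_zero fun l hl => T0 (mem_Ioo.1 hl).2.le, add_zero, zero_add, add_comm, S]
  simp only [tr_l (Γ_X _ _ _), tr_apply (_ * e p * _), mul_sum]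
  congr 1
  · rw [sum_congr rfl fun _ _ => sum_comm, sum_comm]
    refine sum_congr rfl fun b _ => ?_
    rw [sum_congr rfl fun _ _ => sum_comm, sum_comm]
    refine sum_congr rfl fun a _ => sum_congr rfl fun j hj => sum_congr rfl fun l hl => ?_
    simp only [mem_Ioo] at hj hl
    rw [Mh_apply, Mh_apply, h1 j hj.1 (by omega) hj.2.ne, h1 l hl.1 (by omega) hl.2.ne,
      G_loc _ _ j l fun x _ _ => h1 x (by omega) (by omega) (by omega), Γ,
      IncidenceAlgebra.sub_apply, k_hole h0 _ _ _ _ hl.2 (by omega), sub_zero,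
      k_loc (Function.update π p (π' p)) π' _ _ _ _ fun x _ _ => ?_]
    by_cases h2 : x = p
    · simp [h2]
    · rw [Function.update_of_ne h2, h1 x (by omega) (by omega) h2]
  · rw [sum_congr rfl fun _ _ => sum_comm, sum_comm]
    refine sum_congr rfl fun a _ => sum_comm.trans (sum_congr rfl fun b _ =>
      sum_congr rfl fun j hj => ?_)
    simp only [mem_Ioo] at hj
    rw [Mh_apply, sand, P, dg_mul, h1 j hj.1 (by omega) hj.2.ne,
      G_loc _ _ j p fun x _ _ => h1 x (by omega) (by omega) (by omega),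
      k_loc π π' _ _ _ _ fun x _ _ => h1 x (by omega) (by omega) (by omega)]
    ring

lemma T_congr (e : α ≃ α) {w' : α → ℝ} (hw : ∀ c, w' (e c) = w c) (h : ∀ x c, π' x (e c) = π x c) :
    T t π' w' n 0 = T t π w n 0 := by
  refine sum_congr rfl fun j _ => sum_congr rfl fun l _ => (e.sum_comp _).symm.trans
    (sum_congr rfl fun b _ => (e.sum_comp _).symm.trans (sum_congr rfl fun a _ => ?_))
  have h1 := G_congr (t := t) e 0 π π' hw (some b) (some a) j l fun x _ _ c => by simp [h]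
  have h2 := k_congr (t := t) e 0 π π' (some a) (some b) l (j + n) fun x _ _ c => by simp [h]
  simp only [Option.map_some, add_zero] at h1 h2
  rw [Mh_apply, Mh_apply, h1, h2, hw, hw, h, h]

lemma T_nonneg (ht : 0 < t) (h1 : t ≤ 1) (hπ : ∀ x c, 0 ≤ π x c) (hw : ∀ c, 0 ≤ w c) :
    0 ≤ T t π w n 0 :=
  sum_nonneg fun _ _ => sum_nonneg fun _ _ => sum_nonneg fun _ _ => sum_nonneg fun _ _ => by
    rw [Mh_apply]
    exact mul_nonneg (mul_nonneg (mul_nonneg (hw _) (hw _)) (mul_nonneg (mul_nonneg (hπ _ _)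
      (G_nonneg ht h1 hπ hw _ _ _ _)) (hπ _ _))) (k_nonneg ht hπ _ _ _ _)

lemma T_improper (h : ∀ x, π (x + n) = π x) (hn : 0 < n) {l : ℤ} {c0 : α}
    (h1 : ∀ c, c ≠ c0 → π l c = 0) (h2 : ∀ c, c ≠ c0 → π (l + 1) c = 0) : T t π w n 0 = 0 := by
  rw [T_shift h hn (l + 1 - n)]
  refine sum_eq_zero fun j hj => sum_eq_zero fun m hm => sum_eq_zero fun b _ =>
    sum_eq_zero fun a _ => ?_
  simp only [mem_Ico] at hj hm
  rw [Mh_apply]
  by_cases h3 : m = l ∧ a ≠ c0
  · simp [h3.1, h1 a h3.2]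
  by_cases h4 : j + n = l + 1 ∧ b ≠ c0
  · simp [← h j, h4.1, h2 b h4.2]
  rw [k_improper h1 h2 _ _ _ _ (by omega) (by omega) (by grind) (by grind), mul_zero]

lemma ne_nonneg (a b : Option α) : 0 ≤ ne a b := by
  rw [← ne_sq]
  exact mul_self_nonneg _

lemma cap_one (ht : 0 < t) (hq : Fintype.card α * t = (1 + t) ^ 2) (h0 : π p = 0)
    (h : ∀ x, π (x + n) = π x) : S t π 1 p n 1 = (Fintype.card α - 1 - t) *
      (∑ c, (1 : α → ℝ) c • (k t π none (some c) * P π c * G t π 1 (some c) none)) (p - n) p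
      + t * ∑ c, (k t π none (some c) * P π c * k t π (some c) none) (p - n) p := by
  rw [cap ht hq h0 h (by simp) (κ := Fintype.card α - 1 - t) fun a b => ?_]
  · simp [sum_app, -IncidenceAlgebra.mul_apply]
  have h1 := sum_ne (M := ℝ) a fun c => ne (some c) (some b)
  have h2 := sum_ne (M := ℝ) b fun _ => 1
  simp only [smul_eq_mul, ne_comm (some a), Pi.one_apply, one_mul, mul_one, sum_const, card_univ,
    nsmul_eq_mul] at h1 h2 ⊢
  rw [h1, h2]
  split_ifs with h3
  · simp [h3, ne_cc]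
  · rw [ne_ne (Ne.symm h3)]
    ring

lemma cap_ne (ht : 0 < t) (hq : Fintype.card α * t = (1 + t) ^ 2) (h0 : π p = 0)
    (h : ∀ x, π (x + n) = π x) (γ : α) : S t π (fun c => ne (some c) (some γ)) p n 1 =
      (Fintype.card α - 2 - t) * (∑ c, ne (some c) (some γ) • (k t π none (some c) * P π c *
        G t π (fun c => ne (some c) (some γ)) (some c) none)) (p - n) p
      + t * (∑ c, (k t π none (some c) * P π c * k t π (some c) none) (p - n) p -
        (k t π none (some γ) * P π γ * k t π (some γ) none) (p - n) p) := by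
  rw [cap ht hq h0 h (fun _ => ne_sq _ _) (κ := Fintype.card α - 2 - t) fun a b => ?_]
  · simp [sum_ne, sum_app, -IncidenceAlgebra.mul_apply]
  by_cases h4 : a = γ ∨ b = γ
  · rcases h4 with rfl | rfl <;> simp [ne_cc]
  have h1 := sum_ne (M := ℝ) a fun c => ne (some c) (some b)
  have h2 := sum_ne (M := ℝ) b fun _ => 1
  have h3 := sum_ne (M := ℝ) γ fun c => ne (some c) (some a) * ne (some c) (some b)
  simp only [smul_eq_mul, ne_comm (some a), one_mul, mul_one, sum_const, card_univ,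
    nsmul_eq_mul] at h1 h2 h3 ⊢
  rw [h3, h1, h2, ne_ne (c := γ) (by grind), ne_ne (c := γ) (by grind), ne_ne (d := γ) (by grind)]
  split_ifs with h3
  · simp [h3, ne_cc]
    ring
  · rw [ne_ne (Ne.symm h3)]
    ring

lemma const (hq : 4 ≤ Fintype.card α) (hn : 3 ≤ n) : ∃ t c1 c2 C : ℝ, 0 < t ∧ t ≤ 1 ∧
    Fintype.card α * t = (1 + t) ^ 2 ∧ 0 ≤ c1 ∧ 0 ≤ c2 ∧ 0 < C ∧ ∀ (π : ℤ → α → ℝ) p, π p = 0 →
      (∀ x, π (x + n) = π x) → c1 * S t π 1 p n 1 + c2 * ∑ γ,
        S t π (fun c => ne (some c) (some γ)) p n 1 = C * k t π none none (p - n) p := by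
  rcases hq.eq_or_lt with hq | hq
  · have h1 : Fintype.card α * (1 : ℝ) = (1 + 1) ^ 2 := by rw [← hq]; norm_num
    refine ⟨1, 1, 0, 3 * (br 1 n - 1), one_pos, le_rfl, h1, zero_le_one, le_rfl,
      mul_pos (by norm_num) (br_gt one_pos (by omega)), fun π p h0 h => ?_⟩
    have h2 := congrArg (fun f : R => f (p - n) p) (kQ one_pos π none none)
    have h3 : ∀ c, G 1 π 1 (some c) none = k 1 π (some c) none := fun c => by rw [G_eq]; simp
    simp only [σ_eq, sub_self, zero_smul, sub_zero, Λ, wt_apply, IncidenceAlgebra.add_apply, ne_l,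
      mul_one, one_smul, sub_sub_cancel, sum_app] at h2
    simp only [cap_one one_pos h1 h0 h, h3, ← hq, Pi.one_apply, one_smul, sum_app]
    push_cast
    linear_combination -3 * h2
  have hq' : (5 : ℝ) ≤ Fintype.card α := by exact_mod_cast hq
  obtain ⟨t, ⟨ht, h1⟩, h2⟩ := intermediate_value_Ioo' (f := fun t : ℝ =>
    (1 + t) ^ 2 - Fintype.card α * t) (a := 0) (b := 1 / 2) (by norm_num) (by fun_prop)
    (show (0 : ℝ) ∈ _ from ⟨by linarith, by norm_num⟩)
  have h2 : Fintype.card α * t = (1 + t) ^ 2 := by linarith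
  have hz : 0 < t ^ n.toNat := pow_pos ht _
  have hz3 : t ^ n.toNat ≤ t ^ 3 := pow_le_pow_of_le_one ht.le (by linarith) (by omega)
  set z := t ^ n.toNat with hzz
  set q : ℝ := (Fintype.card α : ℝ) with hqq
  have h3 : 0 ≤ 1 - (q - 1) * z := by nlinarith [mul_pos ht ht]
  have h4 : 0 < t - z := by nlinarith [mul_pos ht ht]
  refine ⟨t, 1 - (q - 1) * z, z, (t - z) * ((1 - (q - 1) * z) * (1 + t) + z * q) /
    (z * t * (1 - t)), ht, by linarith, h2, h3, hz.le, div_pos (mul_pos h4 (by positivity))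
    (mul_pos (mul_pos hz ht) (by linarith)), fun π p h0 h => ?_⟩
  have e1 := fun w => congrArg (fun f : R => f (p - n) p) (G_eq (t := t) (π := π) (w := w) none none)
  have e2 := fun a => G_σ (π := π) (w := 1) (b := none) ht (fun c => (ne_r _).symm) a
  have e3 := fun γ : α => G_σ (π := π) (b := some γ) ht (fun c => rfl) none
  simp only [ne_l, ne_r, one_smul] at e2 e3
  have e4 := sum_congr (s₁ := univ) rfl fun γ _ =>
    congrArg (fun f : R => σ t f (p - n) p) (G_res (t := t) (π := π) γ none)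
  simp only [map_add, map_smul, σ_mul, σ_P, e2, e3, sm_l, sm_r] at e4
  have e5 := sum_congr (s₁ := univ) rfl fun (γ : α) _ => e1 fun c => ne (some c) (some γ)
  have e6 := congrArg (fun f : R => f (p - n) p) (e2 none)
  have e7 := e1 1
  simp only [σ, wt_apply, IncidenceAlgebra.add_apply, sm_apply, sub_sub_cancel, sum_add_distrib,
    ← mul_sum, sum_const, card_univ, nsmul_eq_mul, sum_sub_distrib, cap_one ht h2 h0 h,
    cap_ne ht h2 h0 h, ← hzz, ← hqq] at e4 e5 e6 e7 ⊢
  rw [div_mul_eq_mul_div, eq_div_iff (mul_pos (mul_pos hz ht) (by linarith)).ne']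
  generalize (∑ c, (1 : α → ℝ) c • (k t π none (some c) * P π c * G t π 1 (some c) none))
    (p - n) p = L1 at *
  generalize ∑ i, (∑ c, ne (some c) (some i) • (k t π none (some c) * P π c *
    G t π (fun c => ne (some c) (some i)) (some c) none)) (p - n) p = L2 at *
  linear_combination (1 - (q - 1) * z) * (1 + t) * (e6 - z * e7) - z * (e4 + z * e5) +
    ((1 - (q - 1) * z) * z * (1 - t) * L1 + z * z * (1 - t) * L2) * h2

/-- normalised weights on the line -/
noncomputable def Pl (t : ℝ) (π : ℤ → α → ℝ) (i j : ℤ) : ℝ :=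
  k t π none none i j / (br t (j - i) * (1 + t) ^ (j - i - 1).toNat)

lemma Pl_loc {i j : ℤ} (h : ∀ x, i < x → x < j → π' x = π x) : Pl t π' i j = Pl t π i j := by
  rw [Pl, Pl, k_loc π π' _ _ i j h]

lemma Pl_split (ht : 0 < t) (hq : Fintype.card α * t = (1 + t) ^ 2) (h1 : π p = 1) {i j : ℤ}
    (hi : i < p) (hj : p < j) : Pl t π i j = Pl t π i p * Pl t π p j := by
  have h0 : Function.update π p 0 p = 0 := by simp
  have h2 := congrArg (fun f : R => f i j) (Γ_one ht hq h0 none none)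
  simp only [Γ, Function.update_idem, ← h1, Function.update_eq_self, IncidenceAlgebra.sub_apply,
    k_hole h0 _ _ i j hi hj, ΓA, ΓB, Po, cA, cB, mul_zero, zero_mul, add_zero, smul_zero, sub_zero,
    IncidenceAlgebra.add_apply, sm_apply, sand, σ, ι, wt_apply] at h2
  rw [k_loc π _ _ _ i p fun x _ _ => Function.update_of_ne (by omega) _ _,
    k_loc π _ _ _ p j fun x _ _ => Function.update_of_ne (by omega) _ _] at h2
  have h3 := br_pos ht (d := p - i) (by omega)
  have h4 := br_pos ht (d := j - p) (by omega)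
  rw [Pl, Pl, Pl, h2, show j - i = (p - i) + (j - p) by omega, br_add (by omega) (by omega),
    show (p - i + (j - p) - 1).toNat = (p - i - 1).toNat + (j - p - 1).toNat + 1 by omega]
  field_simp
  ring

lemma Pl_one (ht : 0 < t) (hq : Fintype.card α * t = (1 + t) ^ 2) {i j : ℤ} (hi : i < j)
    (h : ∀ x, i < x → x < j → π x = 1) : Pl t π i j = 1 := by
  have h0 : ∀ i, Pl t π i (i + 1) = 1 := fun i => by simp [Pl, k_one, ne_l, br_one]
  induction hn : (j - i).toNat using Nat.strong_induction_on generalizing i with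
  | _ n ih =>
  by_cases h1 : j = i + 1
  · rw [h1, h0]
  · rw [Pl_split ht hq (h (i + 1) (by omega) (by omega)) (by omega) (by omega), h0, one_mul,
      ih _ (by omega) (by omega) (fun x _ h3 => h x (by omega) h3) rfl]

lemma side {A B : ℤ → Prop} (h1 : ∀ x, A x ∨ B x) (h2 : ∀ x, A x ∨ B (x + 1))
    (h3 : ∀ x, B x ∨ A (x + 1)) {i j : ℤ} (h : ∀ x, i < x → x < j → ¬(A x ∧ B x)) :
    (∀ x, i < x → x < j → A x) ∨ ∀ x, i < x → x < j → B x := by
  have key : ∀ {A B : ℤ → Prop}, (∀ x, B x ∨ A (x + 1)) → (∀ x, i < x → x < j → ¬(A x ∧ B x)) →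
      A (i + 1) → ∀ x, i < x → x < j → A x := fun {A B} h3 h h4 x hx => by
    induction x, hx using Int.leInduction with
    | base => exact fun _ => h4
    | succ x hx ih =>
      exact fun h5 => (h3 x).resolve_left fun h6 => h x hx (by omega) ⟨ih (by omega), h6⟩
  exact (h1 (i + 1)).imp (key h3 h) (key h2 fun x a b c => h x a b c.symm)

lemma Pl_mul (ht : 0 < t) (hq : Fintype.card α * t = (1 + t) ^ 2)
    (h1 : ∀ x, π x = 1 ∨ π' x = 1) (h2 : ∀ x, π x = 1 ∨ π' (x + 1) = 1)
    (h3 : ∀ x, π' x = 1 ∨ π (x + 1) = 1) {i j : ℤ} (hi : i < j) :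
    Pl t (π * π') i j = Pl t π i j * Pl t π' i j := by
  induction hn : (j - i).toNat using Nat.strong_induction_on generalizing i j with
  | _ n ih =>
  by_cases h : ∃ x, i < x ∧ x < j ∧ π x = 1 ∧ π' x = 1
  · obtain ⟨x, h4, h5, h6, h7⟩ := h
    rw [Pl_split ht hq (show (π * π') x = 1 by simp [h6, h7]) h4 h5, Pl_split ht hq h6 h4 h5,
      Pl_split ht hq h7 h4 h5, ih _ (by omega) h4 rfl, ih _ (by omega) h5 rfl]
    ring
  rcases side h1 h2 h3 fun x a b c => h ⟨x, a, b, c⟩ with h4 | h4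
  · rw [Pl_one ht hq hi h4, one_mul]
    exact Pl_loc fun x a b => by simp [h4 x a b]
  · rw [Pl_one ht hq hi h4, mul_one]
    exact Pl_loc fun x a b => by simp [h4 x a b]

end Pool.Agent.H22.Cyc
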