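import Pool.Agent.H22.Cyc5

/-! A colour-symmetric 1-dependent proper colouring of every cycle with at least four colours. -/

set_option autoImplicit false
set_option linter.unusedSectionVars false
set_option linter.unusedSimpArgs false
open Finset MeasureTheory ProbabilityTheory

namespace Pool.Agent.H22.Cyc

variable {α : Type} [Fintype α] [DecidableEq α] {m : ℕ}

def φ (m : ℕ) (x : ℤ) : Fin (m + 3) := (x : ZMod (m + 3))

lemma φ_succ (x : ℤ) : φ m (x + 1) = φ m x + 1 :=
  (Int.cast_add (R := ZMod (m + 3)) x 1).trans (by rw [Int.cast_one]; rfl)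

lemma φ_eq {x y : ℤ} : φ m x = φ m y ↔ ((m + 3 : ℕ) : ℤ) ∣ y - x :=
  ZMod.intCast_eq_intCast_iff_dvd_sub x y (m + 3)

lemma φ_per (x : ℤ) : φ m (x + (m + 3 : ℕ)) = φ m x := φ_eq.2 ⟨-1, by ring⟩

lemma φ_val (i : Fin (m + 3)) : φ m i.val = i :=
  (Int.cast_natCast (R := ZMod (m + 3)) _).trans (ZMod.natCast_zmod_val (n := m + 3) i)

def Ind {Ω : Type} [Fintype Ω] (p : (Fin (m + 3) → Ω) → ℝ) : Prop :=
  ∀ f g : Fin (m + 3) → Ω → ℝ, (∀ i, f i = 1 ∨ g i = 1) → (∀ i, f i = 1 ∨ g (i + 1) = 1) →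
    (∀ i, g i = 1 ∨ f (i + 1) = 1) → ∑ x, p x * ∏ i, (f * g) i (x i) =
      (∑ x, p x * ∏ i, f i (x i)) * ∑ x, p x * ∏ i, g i (x i)

theorem pmf (hq : 4 ≤ Fintype.card α) (m : ℕ) : ∃ p : (Fin (m + 3) → α) → ℝ, (∀ x, 0 ≤ p x) ∧
    ∑ x, p x = 1 ∧ (∀ x i, x i = x (i + 1) → p x = 0) ∧ (∀ (e : α ≃ α) x, p (e ∘ x) = p x) ∧
    Ind p := by
  obtain ⟨t, c1, c2, C, ht, h1, h2, h3, h4, h5, h6⟩ := const (n := (m + 3 : ℕ)) hq (by omega)
  set n : ℤ := ((m + 3 : ℕ) : ℤ) with hn
  have hn0 : 0 < n := by omega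
  have hD : 0 < C * (br t n * (1 + t) ^ (n - 1).toNat) := mul_pos h5 (mul_pos (br_pos ht hn0)
    (by positivity))
  let E : (Fin (m + 3) → α → ℝ) → ℝ := fun f => (c1 * T t (f ∘ φ m) 1 n 0 + c2 * ∑ γ,
    T t (f ∘ φ m) (fun c => ne (some c) (some γ)) n 0) / (C * (br t n * (1 + t) ^ (n - 1).toNat))
  have per : ∀ (f : Fin (m + 3) → α → ℝ) x, (f ∘ φ m) (x + n) = (f ∘ φ m) x := fun f x =>
    congrArg f (φ_per x)
  have off : ∀ p x : ℤ, p - n < x → x < p + n → x ≠ p → φ m x ≠ φ m p := fun p x a b c d => by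
    have := Int.eq_zero_of_abs_lt_dvd (φ_eq.1 d) (abs_lt.2 ⟨by omega, by omega⟩)
    omega
  have hS : ∀ f p g w, T t (Function.update f (φ m p) g ∘ φ m) w n 0 =
      S t (Function.update f (φ m p) 0 ∘ φ m) w p n g := fun f p g w => by
    rw [T_S (π := Function.update f (φ m p) 0 ∘ φ m) (p := p) hn0 (by simp) (per _)
      fun x a b c => by simp [off p x a b c]]
    simp
  have lin : ∀ f i g h (r : ℝ), E (Function.update f i (g + r • h)) =
      E (Function.update f i g) + r * E (Function.update f i h) := fun f i g h r => by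
    rw [← φ_val i]
    simp only [E, hS]
    simp only [S_lin ht (show (Function.update f (φ m i.val) 0 ∘ φ m) i.val = 0 by simp),
      sum_add_distrib, ← mul_sum]
    ring
  have cap : ∀ f p, f (φ m p) = 1 → E f = Pl t (f ∘ φ m) (p - n) p := fun f p h => by
    have := h6 (Function.update f (φ m p) 0 ∘ φ m) p (by simp) (per _)
    simp only [← hS, show Function.update f (φ m p) 1 = f from h ▸ Function.update_eq_self _ _]
      at this
    simp only [E, this, Pl, sub_sub_cancel]
    rw [mul_div_mul_left _ _ h5.ne', k_loc (f ∘ φ m) _ _ _ _ _ fun x a b => by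
      simp [off p x a (by omega) b.ne]]
  let M : MultilinearMap ℝ (fun _ : Fin (m + 3) => α → ℝ) ℝ :=
    { toFun := E
      map_update_add' := fun {d} f i g h => by
        cases Subsingleton.elim d (instDecidableEqFin _)
        simpa using lin f i g h 1
      map_update_smul' := fun {d} f i r h => by
        cases Subsingleton.elim d (instDecidableEqFin _)
        have := lin f i 0 0 1
        have h7 := lin f i 0 h r
        simp only [smul_zero, add_zero, zero_add, one_mul] at this h7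
        rw [h7, show E (Function.update f i 0) = 0 by linarith, zero_add, smul_eq_mul] }
  have ex : ∀ f, ∑ x : Fin (m + 3) → α, E (fun i => Pi.single (x i) 1) * ∏ i, f i (x i) = E f := by
    intro f
    have := M.map_sum fun i c => f i c • (Pi.single c 1 : α → ℝ)
    simp only [M.map_smul_univ, smul_eq_mul, mul_comm (∏ i, _)] at this
    exact this.symm.trans (congrArg E (funext fun i => (pi_eq_sum_univ' (f i)).symm))
  have one : E 1 = 1 := (cap 1 0 rfl).trans (Pl_one ht h2 (by omega) fun _ _ _ => rfl)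
  refine ⟨fun x => E fun i => Pi.single (x i) 1, fun x => ?_, ?_, fun x i h => ?_, fun e x => ?_,
    fun f g a b c => ?_⟩
  · have : ∀ y c, 0 ≤ ((fun i => (Pi.single (x i) 1 : α → ℝ)) ∘ φ m) y c := fun y c => by
      simp only [Function.comp, Pi.single_apply]
      split_ifs <;> norm_num
    exact div_nonneg (add_nonneg (mul_nonneg h3 (T_nonneg ht h1 this fun _ => zero_le_one))
      (mul_nonneg h4 (sum_nonneg fun _ _ => T_nonneg ht h1 this fun _ => ne_nonneg _ _))) hD.le
  · simpa [one] using ex 1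
  · have := fun w => T_improper (t := t) (w := w) (per fun i => Pi.single (x i) 1) hn0 (l := i.val)
      (c0 := x i) (fun c hc => by simp [φ_val, hc]) fun c hc => by simp [φ_succ, φ_val, ← h, hc]
    simp [E, this]
  · have : ∀ y c, ((fun i => (Pi.single ((e ∘ x) i) 1 : α → ℝ)) ∘ φ m) y (e c) =
        ((fun i => (Pi.single (x i) 1 : α → ℝ)) ∘ φ m) y c := fun y c => by
      simp [Pi.single_apply]
    simp only [E]
    rw [T_congr e (w := 1) (fun _ => rfl) this, ← e.sum_comp, sum_congr rfl fun γ _ =>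
      T_congr e (fun c => ne_map e (some c) (some γ)) this]
  · rw [ex, ex, ex]
    by_cases h : ∃ x, f (φ m x) = 1 ∧ g (φ m x) = 1
    · obtain ⟨x, h7, h8⟩ := h
      rw [cap _ x (by simp [h7, h8]), cap _ x h7, cap _ x h8]
      exact Pl_mul (π := f ∘ φ m) (π' := g ∘ φ m) ht h2 (fun x => a _)
        (fun x => by simpa [φ_succ] using b _) (fun x => by simpa [φ_succ] using c _) (by omega)
    rcases side (A := fun x => f (φ m x) = 1) (B := fun x => g (φ m x) = 1) (i := -1) (j := n)
      (fun x => a _) (fun x => by simpa [φ_succ] using b _) (fun x => by simpa [φ_succ] using c _)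
      fun x _ _ h7 => h ⟨x, h7⟩ with h7 | h7
    · rw [show f = 1 from funext fun i => φ_val i ▸ h7 i.val (by omega) (by omega), one]
      simp
    · rw [show g = 1 from funext fun i => φ_val i ▸ h7 i.val (by omega) (by omega), one]
      simp

lemma Ind.prod {β : Type} [Fintype β] [Nonempty β] {p : (Fin (m + 3) → α) → ℝ} (h : Ind p) :
    (∀ f : Fin (m + 3) → α × β → ℝ, ∑ y : Fin (m + 3) → α × β, p (fun i => (y i).1) /
      Fintype.card β ^ (m + 3) * ∏ i, f i (y i) =
        ∑ x, p x * ∏ i, (∑ b, f i (x i, b)) / Fintype.card β) ∧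
    Ind fun y : Fin (m + 3) → α × β => p (fun i => (y i).1) / Fintype.card β ^ (m + 3) := by
  have key : ∀ f : Fin (m + 3) → α × β → ℝ, ∑ y : Fin (m + 3) → α × β, p (fun i => (y i).1) /
      Fintype.card β ^ (m + 3) * ∏ i, f i (y i) =
        ∑ x, p x * ∏ i, (∑ b, f i (x i, b)) / Fintype.card β := fun f => by
    rw [← (Equiv.arrowProdEquivProdArrow _ _ _).symm.sum_comp, Fintype.sum_prod_type]
    refine sum_congr rfl fun x _ => ?_
    rw [prod_div_distrib, Fintype.prod_sum, prod_const, card_univ, Fintype.card_fin, sum_div, mul_sum]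
    exact sum_congr rfl fun z _ => by simp; ring
  refine ⟨key, fun f g a b c => ?_⟩
  have h1 : ∀ f : α × β → ℝ, f = 1 → (fun c => (∑ b, f (c, b)) / Fintype.card β) = 1 := by
    rintro _ rfl
    ext
    simp
  rw [key, key, key, ← h (fun i c => (∑ b, f i (c, b)) / Fintype.card β)
    (fun i c => (∑ b, g i (c, b)) / Fintype.card β) (fun i => (a i).imp (h1 _) (h1 _))
    (fun i => (b i).imp (h1 _) (h1 _)) fun i => (c i).imp (h1 _) (h1 _)]
  refine sum_congr rfl fun x _ => congrArg _ (prod_congr rfl fun i _ => ?_)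
  rcases a i with h2 | h2 <;> simp [h2]

lemma meas {Ω : Type} [Fintype Ω] [MeasurableSpace Ω] [MeasurableSingletonClass Ω]
    {p : (Fin (m + 3) → Ω) → ℝ} (h0 : ∀ x, 0 ≤ p x) (h1 : ∑ x, p x = 1) (h : Ind p) :
    ∃ μ : Measure (Fin (m + 3) → Ω), IsProbabilityMeasure μ ∧ (∀ x, μ {x} = .ofReal (p x)) ∧
      ∀ A B : Set (Fin (m + 3)), (∀ a ∈ A, ∀ b ∈ B, 1 < (SimpleGraph.cycleGraph (m + 3)).dist a b) →
        IndepFun (fun x : Fin (m + 3) → Ω => fun a : A => x a)
          (fun x : Fin (m + 3) → Ω => fun b : B => x b) μ := by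
  classical
  let μ : Measure (Fin (m + 3) → Ω) := ∑ x, ENNReal.ofReal (p x) • Measure.dirac x
  have hμ : ∀ s, μ s = .ofReal (∑ x, p x * if x ∈ s then 1 else 0) := fun s => by
    rw [ENNReal.ofReal_sum_of_nonneg fun x _ => mul_nonneg (h0 x) (by split_ifs <;> norm_num)]
    simp only [μ, Measure.finsetSum_apply, Measure.smul_apply, Measure.dirac_apply,
      Set.indicator_apply]
    exact sum_congr rfl fun x _ => by split_ifs <;> simp
  have : IsProbabilityMeasure μ := ⟨by simp [hμ, h1]⟩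
  refine ⟨μ, this, fun x => by simp [hμ], fun A B hd => ?_⟩
  rw [indepFun_iff_map_prod_eq_prod_map_map (Measurable.of_discrete.aemeasurable)
    (Measurable.of_discrete.aemeasurable)]
  refine Measure.ext_iff_singleton.2 fun ⟨u, v⟩ => ?_
  let f : ∀ A : Set (Fin (m + 3)), (A → Ω) → Fin (m + 3) → Ω → ℝ := fun A u i c =>
    if h : i ∈ A then if c = u ⟨i, h⟩ then 1 else 0 else 1
  have hf : ∀ A u (x : Fin (m + 3) → Ω), ∏ i, f A u i (x i) =
      if (fun a : A => x a) = u then 1 else 0 := fun A u x => by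
    split_ifs with h2
    · exact prod_eq_one fun i _ => by simp [f, ← h2]
    · obtain ⟨a, ha⟩ := Function.ne_iff.1 h2
      exact prod_eq_zero (mem_univ a.1) (by simp [f, ha])
  have h2 : ∀ A u i, i ∉ A → f A u i = 1 := fun A u i hi => funext fun c => dif_neg hi
  have h3 : ∀ i j, (SimpleGraph.cycleGraph (m + 3)).dist i j ≤ 1 → f A u i = 1 ∨ f B v j = 1 :=
    fun i j hij => (not_and_or.1 fun h4 : i ∈ A ∧ j ∈ B => (hd i h4.1 j h4.2).not_ge hij).imp
      (h2 _ _ _) (h2 _ _ _)
  have h4 : ∀ i : Fin (m + 3), (SimpleGraph.cycleGraph (m + 3)).Adj i (i + 1) := fun i =>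
    SimpleGraph.cycleGraph_adj.2 (.inr (by simp))
  have h5 := h (f A u) (f B v) (fun i => h3 i i (by simp))
    (fun i => h3 _ _ (SimpleGraph.dist_eq_one_iff_adj.2 (h4 i)).le)
    fun i => (h3 _ _ (SimpleGraph.dist_eq_one_iff_adj.2 (h4 i).symm).le).symm
  simp only [Pi.mul_apply, prod_mul_distrib, hf] at h5
  rw [← Set.singleton_prod_singleton, Measure.prod_prod, Measure.map_apply .of_discrete .of_discrete,
    Measure.map_apply .of_discrete .of_discrete, Measure.map_apply .of_discrete .of_discrete,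
    hμ, hμ, hμ, ← ENNReal.ofReal_mul (sum_nonneg fun x _ => mul_nonneg (h0 x)
      (by split_ifs <;> norm_num))]
  simp only [Set.mem_preimage, Set.mem_prod, Set.mem_singleton_iff, ← h5]
  refine congrArg _ (sum_congr rfl fun x _ => ?_)
  split_ifs <;> simp_all

end Pool.Agent.H22.Cyc
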