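import Mathlib

/-! Lower bound for the Wiener norm of a chirp, through the discrete Fourier matrix. -/

namespace Pool.Agent.H22.Dau

open Complex Finset
open scoped ComplexConjugate Real

noncomputable def E (x : ℝ) : ℂ := exp (x * I)

lemma E_norm (x : ℝ) : ‖E x‖ = 1 := norm_exp_ofReal_mul_I x

lemma E_add (x y : ℝ) : E (x + y) = E x * E y := by simp [E, ← Complex.exp_add, add_mul]

lemma E_mul (k : ℕ) (x : ℝ) : E (k * x) = E x ^ k := by simp [E, ← Complex.exp_nat_mul, mul_assoc]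

lemma E_re (x : ℝ) : (E x).re = Real.cos x := exp_ofReal_mul_I_re x

lemma E_im (x : ℝ) : (E x).im = Real.sin x := exp_ofReal_mul_I_im x

lemma dft (N : ℕ) (hN : N ≠ 0) (U V : ℕ → ℂ) (hU : ∀ i, ‖U i‖ = 1) (hV : ∀ i, ‖V i‖ = 1) :
    ‖∑ i ∈ range N, ∑ j ∈ range N, U i * V j * E (2 * π / N) ^ (i * j)‖ ≤ N * √N := by
  have hz : IsPrimitiveRoot (E (2 * π / N)) N := by
    convert Complex.isPrimitiveRoot_exp N hN using 1
    simp only [E]; push_cast; ring_nf
  set z := E (2 * π / N) with hzd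
  have zz : z * conj z = 1 := by rw [mul_conj', hzd, E_norm]; simp
  have h1 : ∑ i ∈ range N, ‖∑ j ∈ range N, V j * z ^ (i * j)‖ ^ 2 = N * N := by
    apply Complex.ofReal_injective
    push_cast
    simp only [← mul_conj', map_sum, sum_mul_sum]
    rw [sum_comm]
    rw [sum_congr rfl (g := fun _ => (N : ℂ)) fun j hj => ?_]
    · simp
    rw [sum_comm, sum_eq_single_of_mem j hj fun k hk hkj => ?_]
    · rw [sum_congr rfl (g := fun _ => (1 : ℂ)) fun i _ => ?_]
      · simp
      · rw [mul_conj', norm_mul, hV, norm_pow, hzd, E_norm]; simp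
    · have e : ∀ i, V j * z ^ (i * j) * conj (V k * z ^ (i * k)) =
          V j * conj (V k) * (z ^ j * conj z ^ k) ^ i := fun i => by
        simp only [map_mul, map_pow, mul_pow, ← pow_mul, mul_comm i]; ring
      have w1 : (z ^ j * conj z ^ k) ^ N = 1 := by
        rw [mul_pow, ← pow_mul, ← pow_mul, mul_comm j, mul_comm k, pow_mul, pow_mul, ← map_pow,
          hz.pow_eq_one]; simp
      have w2 : z ^ j * conj z ^ k - 1 ≠ 0 := fun h => hkj (hz.pow_inj (mem_range.mp hk)
        (mem_range.mp hj) (by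
          have : z ^ k * conj z ^ k = 1 := by rw [← mul_pow, zz, one_pow]
          linear_combination (-z ^ k) * h + z ^ j * this))
      have := mul_geom_sum (z ^ j * conj z ^ k) N
      rw [w1, sub_self, mul_eq_zero, or_iff_right w2] at this
      simp only [e, ← mul_sum, this, mul_zero]
  have h2 := sq_sum_le_card_mul_sum_sq (s := range N)
    (f := fun i => ‖∑ j ∈ range N, V j * z ^ (i * j)‖)
  rw [h1, card_range] at h2
  refine (norm_sum_le _ _).trans ?_
  simp only [mul_assoc, ← mul_sum, norm_mul, hU, one_mul]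
  refine le_of_sq_le_sq (h2.trans (le_of_eq ?_)) (by positivity)
  rw [mul_pow, Real.sq_sqrt (by positivity)]; ring

lemma chirp (h : ℕ → ℂ) (hs : Summable fun k => ‖h k‖) (G : ℝ → ℂ)
    (hG : ∀ t, HasSum (fun k => h k * E t ^ k) (G t)) (N : ℕ) (hN : N ≠ 0) (x d m : ℝ)
    (u v : ℕ → ℝ) (hm : 0 ≤ m) (H : ∀ i < N, ∀ j < N, ∃ R e : ℝ, m ≤ R ∧ |e| ≤ 1 ∧
      G (x + i * d + j * d) = R * E (u i + v j - (i * j : ℕ) * (2 * π / N) + e)) :
    m * √N / 2 ≤ ∑' k, ‖h k‖ := by
  have h1 := hasSum_sum fun i (_ : i ∈ range N) => hasSum_sum fun j (_ : j ∈ range N) =>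
    (hG (x + i * d + j * d)).mul_left (E (-u i) * E (-v j) * E (2 * π / N) ^ (i * j))
  have h2 := h1.norm_le_of_bounded (hs.hasSum.mul_right (N * √N)) fun k => by
    have := dft N hN (fun i => E (-u i) * E (i * d) ^ k) (fun i => E (-v i) * E (i * d) ^ k)
      (fun i => by simp [E_norm]) (fun i => by simp [E_norm])
    refine le_trans (le_of_eq ?_) (mul_le_mul_of_nonneg_left this (norm_nonneg (h k)))
    rw [show ‖h k‖ = ‖h k * E x ^ k‖ by simp [E_norm], ← norm_mul]
    congr 1
    simp only [mul_sum, E_add, mul_pow]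
    exact sum_congr rfl fun i _ => sum_congr rfl fun j _ => by ring
  have h3 : ∑ i ∈ range N, ∑ j ∈ range N, m / 2 ≤ (∑ i ∈ range N, ∑ j ∈ range N,
      E (-u i) * E (-v j) * E (2 * π / N) ^ (i * j) * G (x + i * d + j * d)).re := by
    simp only [re_sum]
    refine sum_le_sum fun i hi => sum_le_sum fun j hj => ?_
    obtain ⟨R, e, h1, h2, h3⟩ := H i (mem_range.mp hi) j (mem_range.mp hj)
    rw [h3, ← E_mul, mul_left_comm, ← E_add, ← E_add, ← E_add, re_ofReal_mul, E_re]
    ring_nf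
    have : 1 / 2 ≤ Real.cos e := by
      nlinarith [Real.one_sub_sq_div_two_le_cos (x := e), sq_abs e, abs_nonneg e]
    nlinarith
  have h4 := h3.trans ((re_le_norm _).trans h2)
  simp only [sum_const, card_range, nsmul_eq_mul] at h4
  have hN' : (0 : ℝ) < N := by positivity
  have h5 := Real.mul_self_sqrt hN'.le
  have h6 := Real.sqrt_pos.mpr hN'
  refine le_of_mul_le_mul_right (le_trans (le_of_eq ?_) h4) (by positivity)
  linear_combination (m * N / 2) * h5

lemma mvt {f f' : ℝ → ℝ} (hf : ∀ x, HasDerivAt f (f' x) x) {x y C : ℝ} (hxy : x ≤ y)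
    (hb : ∀ t ∈ Set.Icc x y, |f' t| ≤ C) : |f y - f x| ≤ C * (y - x) := by
  have := (convex_Icc x y).norm_image_sub_le_of_norm_hasDerivWithin_le
    (fun t _ => (hf t).hasDerivWithinAt) hb (Set.left_mem_Icc.mpr hxy) (Set.right_mem_Icc.mpr hxy)
  rwa [Real.norm_eq_abs, Real.norm_eq_abs, abs_of_nonneg (sub_nonneg.mpr hxy)] at this

lemma mixed {f f1 f2 f3 : ℝ → ℝ} (h1 : ∀ x, HasDerivAt f (f1 x) x)
    (h2 : ∀ x, HasDerivAt f1 (f2 x) x) (h3 : ∀ x, HasDerivAt f2 (f3 x) x) {L : ℝ}
    (hL : ∀ x, |f3 x| ≤ L) (x : ℝ) {a b : ℝ} (ha : 0 ≤ a) (hb : 0 ≤ b) :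
    |f (x + a + b) - f (x + a) - f (x + b) + f x - f2 x * a * b| ≤ L * (a + b) * a * b := by
  have L0 : 0 ≤ L := (abs_nonneg _).trans (hL 0)
  have := mvt (f := fun s => f (x + a + s) - f (x + s) - f2 x * a * s)
    (f' := fun s => f1 (x + a + s) - f1 (x + s) - f2 x * a) (fun s => by
      simpa using (((h1 (x + a + s)).comp_const_add (x + a) s).fun_sub
        ((h1 (x + s)).comp_const_add x s)).fun_sub ((hasDerivAt_id' s).const_mul (f2 x * a))) hb
    (C := L * (a + b) * a) fun s hs => by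
      have := mvt (f := fun y => f1 y - f2 x * y) (f' := fun y => f2 y - f2 x) (fun y => by
        simpa using (h2 y).fun_sub ((hasDerivAt_id' y).const_mul (f2 x)))
        (x := x + s) (y := x + a + s) (by linarith) (C := L * (a + b)) fun y hy =>
          (mvt h3 (by linarith [hy.1, hs.1]) fun t _ => hL t).trans (by
            gcongr; linarith [hy.2, hs.2])
      refine le_of_eq_of_le (congrArg _ (by ring)) (this.trans (le_of_eq (by ring)))
  refine le_of_eq_of_le (congrArg _ (by ring)) (this.trans (le_of_eq (by ring)))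

end Pool.Agent.H22.Dau
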