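import Pool.Agent.H22.Dau1

/-! The stable polynomial with sixth order contact and curved phase. -/

namespace Pool.Agent.H22.Dau

open Complex Finset Metric
open scoped ComplexConjugate Real

noncomputable def P (z : ℂ) : ℂ := 64 * z ^ 2 * (2 * z + I) * (2 - I * z) + (1 - z) ^ 6
noncomputable def Q (z : ℂ) : ℂ := 64 * (2 - I * z) ^ 2
noncomputable def g (n : ℕ) (z : ℂ) : ℂ := (1 - z) ^ 7 / Q z * (P z / Q z) ^ n
noncomputable def psi (x : ℝ) : ℝ := (log (2 - I * E x)).im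
noncomputable def rho (x : ℝ) : ℝ := 5 + 4 * Real.sin x
noncomputable def sg (x : ℝ) : ℝ := 2 * Real.sin (x / 2)

lemma rho_ge (x : ℝ) : 1 ≤ rho x := by unfold rho; linarith [Real.neg_one_le_sin x]
lemma rho_le (x : ℝ) : rho x ≤ 9 := by unfold rho; linarith [Real.sin_le_one x]

lemma E_eq (x : ℝ) : E x = Real.cos x + Real.sin x * I := by simp [E, exp_mul_I]

lemma nsq (x : ℝ) : normSq (2 - I * E x) = rho x := by
  simp [normSq_apply, E_re, E_im, rho]
  nlinarith [Real.sin_sq_add_cos_sq x]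

lemma slit (x : ℝ) : 2 - I * E x ∈ slitPlane :=
  Or.inl (by simp [E_im]; linarith [Real.neg_one_le_sin x])

lemma d1 (x : ℝ) : HasDerivAt psi ((1 + 2 * Real.sin x) / rho x) x := by
  have h1 : HasDerivAt E (E x * I) x := by
    exact (((Complex.ofRealCLM.hasDerivAt (x := x)).mul_const I).cexp).congr_deriv (by simp [E])
  have h2 := Complex.imCLM.hasFDerivAt.comp_hasDerivAt x
    (((h1.const_mul I).const_sub 2).clog_real (slit x))
  refine h2.congr_deriv ?_
  rw [imCLM_apply, div_im, nsq, ← sub_div]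
  congr 1
  simp [E_re, E_im]
  nlinarith [Real.sin_sq_add_cos_sq x]

lemma dr (x : ℝ) : HasDerivAt rho (4 * Real.cos x) x :=
  ((Real.hasDerivAt_sin x).const_mul 4).const_add 5

lemma d2 (x : ℝ) : HasDerivAt (fun x => (1 + 2 * Real.sin x) / rho x)
    (6 * Real.cos x / rho x ^ 2) x := by
  have := rho_ge x
  refine ((((Real.hasDerivAt_sin x).const_mul 2).const_add 1).fun_div (dr x)
    (by positivity)).congr_deriv ?_
  congr 1; unfold rho; ring

lemma d3 (x : ℝ) : HasDerivAt (fun x => 6 * Real.cos x / rho x ^ 2)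
    (-(6 * Real.sin x) / rho x ^ 2 - 48 * Real.cos x ^ 2 / rho x ^ 3) x := by
  have := rho_ge x
  refine (((Real.hasDerivAt_cos x).const_mul 6).fun_div ((dr x).fun_pow 2)
    (by positivity)).congr_deriv ?_
  field_simp; ring

lemma b3 (x : ℝ) : |-(6 * Real.sin x) / rho x ^ 2 - 48 * Real.cos x ^ 2 / rho x ^ 3| ≤ 54 := by
  have h := rho_ge x
  have h1 : |-(6 * Real.sin x) / rho x ^ 2| ≤ 6 := by
    rw [abs_div, abs_neg, abs_mul, abs_of_pos (by positivity : 0 < rho x ^ 2)]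
    refine (div_le_self (by positivity) (one_le_pow₀ h)).trans ?_
    norm_num [Real.abs_sin_le_one]
  have h2 : |48 * Real.cos x ^ 2 / rho x ^ 3| ≤ 48 := by
    rw [abs_of_nonneg (by positivity)]
    refine (div_le_self (by positivity) (one_le_pow₀ h)).trans ?_
    linarith [Real.cos_sq_le_one x]
  linarith [abs_sub (-(6 * Real.sin x) / rho x ^ 2) (48 * Real.cos x ^ 2 / rho x ^ 3)]

lemma f1 (x : ℝ) : 1 - E x = sg x * E (x / 2 - π / 2) := by
  have : E x = E (x / 2) ^ 2 := by rw [← E_mul]; congr 1; push_cast; ring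
  rw [this, E_eq, E_eq, Real.cos_sub_pi_div_two, Real.sin_sub_pi_div_two, sg]
  have := congrArg (fun t : ℝ => (t : ℂ)) (Real.sin_sq_add_cos_sq (x / 2))
  push_cast at this ⊢
  linear_combination (-1) * this - (Complex.sin (x / 2)) ^ 2 * I_sq

lemma f2 (x : ℝ) : Q (E x) = (64 * rho x : ℝ) * E (2 * psi x) := by
  have := norm_mul_exp_arg_mul_I (2 - I * E x)
  rw [Q, ← nsq, Complex.normSq_eq_norm_sq, psi, log_im, two_mul, E_add]
  conv_lhs => rw [← this]
  push_cast; simp only [E]; ring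

lemma f3 (x : ℝ) : P (E x) = (64 * rho x - sg x ^ 6 : ℝ) * E (3 * x) := by
  have h1 : (2 * E x + I) * (2 - I * E x) = rho x * E x := by
    rw [E_eq, rho]
    have := congrArg (fun t : ℝ => (t : ℂ)) (Real.sin_sq_add_cos_sq x)
    push_cast at this ⊢
    linear_combination (-2 * I) * this + (-(Complex.cos x) - Complex.sin x * I -
      4 * Complex.sin x * Complex.cos x - 2 * Complex.sin x ^ 2 * I) * I_sq
  have h2 : E (x / 2 - π / 2) ^ 6 = -E x ^ 3 := by
    rw [← E_mul, ← E_mul, show ((6 : ℕ) : ℝ) * (x / 2 - π / 2) = (3 : ℕ) * x + (3 : ℕ) * (-π) by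
      push_cast; ring, E_add, E_mul 3 (-π), E_eq (-π)]
    simp; ring
  rw [P, mul_assoc, h1, f1, mul_pow, h2, show (3 : ℝ) = (3 : ℕ) by norm_num, E_mul]
  push_cast; ring

lemma sg_le (x : ℝ) : sg x ^ 6 ≤ 64 := by
  have : sg x ^ 2 ≤ 4 := by unfold sg; nlinarith [Real.sin_sq_le_one (x / 2)]
  calc sg x ^ 6 = (sg x ^ 2) ^ 3 := by ring
    _ ≤ 4 ^ 3 := by gcongr
    _ = 64 := by norm_num

lemma Q_ne {z : ℂ} (hz : ‖z‖ < 2) : Q z ≠ 0 := by
  refine mul_ne_zero (by norm_num) (pow_ne_zero _ (sub_ne_zero.mpr fun h => ?_))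
  have := congrArg norm h
  simp at this; linarith

lemma circ {z : ℂ} (hz : ‖z‖ = 1) : ∃ x, z = E x :=
  ⟨arg z, by simpa [hz, E] using (norm_mul_exp_arg_mul_I z).symm⟩

lemma gap {z : ℂ} (hz : ‖z‖ ≤ 1) : ‖P z‖ + ‖1 - z‖ ^ 6 ≤ ‖Q z‖ := by
  obtain ⟨a, ha, ha'⟩ := exists_norm_eq_mul_self (P z)
  obtain ⟨b, hb, hb'⟩ := exists_norm_eq_mul_self ((1 - z) ^ 6)
  have := norm_le_of_forall_mem_frontier_norm_le (U := ball (0 : ℂ) 1) isBounded_ball
    (f := fun w => (a * P w + b * (1 - w) ^ 6) / Q w) (C := 1) (z := z)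
    (DifferentiableOn.diffContOnCl fun w hw => (DifferentiableAt.div (by unfold P; fun_prop)
      (by unfold Q; fun_prop) (Q_ne (by
        rw [closure_ball _ one_ne_zero, mem_closedBall_zero_iff] at hw
        linarith))).differentiableWithinAt) (fun w hw => ?_)
    (by rwa [closure_ball _ one_ne_zero, mem_closedBall_zero_iff])
  · rw [← ha', ← hb', norm_div, div_le_one (norm_pos_iff.mpr (Q_ne (by linarith))), ← ofReal_add,
      norm_real, Real.norm_of_nonneg (by positivity), norm_pow] at this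
    exact this
  · rw [frontier_ball _ one_ne_zero, mem_sphere_zero_iff_norm] at hw
    rw [norm_div, div_le_one (norm_pos_iff.mpr (Q_ne (by linarith)))]
    refine (norm_add_le _ _).trans (le_of_eq ?_)
    obtain ⟨x, rfl⟩ := circ hw
    have := rho_ge x
    have := sg_le x
    simp only [f1, f2, f3, Complex.norm_mul, norm_pow, ha, hb, E_norm, norm_real, Real.norm_eq_abs,
      one_mul, mul_one]
    rw [abs_of_nonneg (by linarith), abs_of_nonneg (by linarith : 0 ≤ 64 * rho x),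
      Even.pow_abs (by decide)]
    ring

lemma polar (n : ℕ) (x : ℝ) : g n (E x) = (sg x ^ 7 / (64 * rho x) *
    (1 - sg x ^ 6 / (64 * rho x)) ^ n : ℝ) *
    E (7 * (x / 2 - π / 2) + n * (3 * x) - 2 * (n + 1) * psi x) := by
  have h := rho_ge x
  have h0 : (rho x : ℂ) ≠ 0 := by exact_mod_cast (by linarith : rho x ≠ 0)
  have e : ∀ y, E (-y) = (E y)⁻¹ := fun y => by simp [E, Complex.exp_neg]
  rw [show 7 * (x / 2 - π / 2) + n * (3 * x) - 2 * (n + 1) * psi x = (7 : ℕ) * (x / 2 - π / 2) +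
    (-(2 * psi x) + n * (3 * x + -(2 * psi x))) by push_cast; ring, E_add, E_add, E_mul, E_mul,
    E_add, e, g, f1, f2, f3]
  have : ((64 * rho x - sg x ^ 6 : ℝ) : ℂ) * E (3 * x) / ((64 * rho x : ℝ) * E (2 * psi x)) =
      (1 - sg x ^ 6 / (64 * rho x) : ℝ) * (E (3 * x) * (E (2 * psi x))⁻¹) := by
    push_cast; field_simp
  rw [this, mul_pow, mul_pow _ _ n, ofReal_mul _ (_ ^ n), ofReal_pow _ n]
  generalize ((1 - sg x ^ 6 / (64 * rho x) : ℝ) : ℂ) ^ n = w
  push_cast; ring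

lemma amp (n : ℕ) {t x : ℝ} (ht : 100 ≤ t) (hn : t ^ 6 = n + 1) (h1 : 1 / (2 * t) ≤ x)
    (h2 : x ≤ 1 / t) : 1 / (4 * t) ^ 7 / (64 * 9) / 2 ≤
      sg x ^ 7 / (64 * rho x) * (1 - sg x ^ 6 / (64 * rho x)) ^ n := by
  have t0 : 0 < t := by linarith
  have x0 : 0 < x := lt_of_lt_of_le (by positivity) h1
  have x1 : x ≤ 1 := h2.trans (by rw [div_le_one t0]; linarith)
  have s1 : 1 / (4 * t) ≤ sg x := by
    have := Real.sin_gt_sub_cube (x := x / 2) (by positivity)
    have h3 : 1 / (4 * t) = 1 / (2 * t) / 2 := by field_simp; ring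
    unfold sg
    nlinarith [mul_le_one₀ x1 x0.le x1]
  have s2 : sg x ≤ 1 / t := by
    unfold sg; linarith [Real.sin_le (x := x / 2) (by positivity)]
  have s0 : 0 < sg x := lt_of_lt_of_le (by positivity) s1
  have r1 := rho_ge x
  have r2 := rho_le x
  have a1 : sg x ^ 6 / (64 * rho x) ≤ 1 / (n + 1) / 64 := by
    rw [← hn, ← one_div_pow]
    gcongr; linarith
  have n0 : (0 : ℝ) < n + 1 := by positivity
  have a2 : (n : ℝ) * (1 / (n + 1)) ≤ 1 := by rw [mul_one_div, div_le_one n0]; linarith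
  have a3 : 1 / ((n : ℝ) + 1) ≤ 1 := by rw [div_le_one n0]; linarith
  have a4 := one_add_mul_le_pow (a := -(sg x ^ 6 / (64 * rho x))) (by linarith) n
  rw [← sub_eq_add_neg] at a4
  rw [div_eq_mul_one_div _ 2, ← one_div_pow]
  have : (0 : ℝ) ≤ n := by positivity
  gcongr
  nlinarith [mul_le_mul_of_nonneg_left a1 this]

lemma lower (n : ℕ) (hn : 100 ^ 6 ≤ n) (h : ℕ → ℂ) (hs : Summable fun k => ‖h k‖)
    (hG : ∀ t, HasSum (fun k => h k * E t ^ k) (g n (E t))) :
    1 / (4 ^ 7 * 64 * 9 * 400) * (1 / ((n : ℝ) + 1)) ≤ ∑' k, ‖h k‖ := by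
  obtain ⟨t, t0, ht⟩ : ∃ t : ℝ, 0 < t ∧ t ^ 6 = n + 1 :=
    ⟨(n + 1) ^ ((6 : ℕ) : ℝ)⁻¹, by positivity, Real.rpow_inv_natCast_pow (by positivity) (by simp)⟩
  have t1 : 100 ≤ t := by
    refine le_of_pow_le_pow_left₀ (n := 6) (by simp) t0.le ?_
    have : ((100 ^ 6 : ℕ) : ℝ) ≤ n := by exact_mod_cast hn
    push_cast at this ⊢; linarith
  set N := ⌊t ^ 2 / 5000⌋₊
  have N1 : (N : ℝ) ≤ t ^ 2 / 5000 := Nat.floor_le (by positivity)
  have N2 : (t / 100) ^ 2 ≤ N := by nlinarith [Nat.lt_floor_add_one (t ^ 2 / 5000)]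
  have N0 : (0 : ℝ) < N := lt_of_lt_of_le (by positivity) N2
  set x := 1 / (2 * t) with hx
  have x0 : 0 < x := by positivity
  have x1 : x ≤ 1 := by rw [hx, div_le_one (by positivity)]; linarith
  set K := 6 * Real.cos x / rho x ^ 2 with hK
  have K1 : 1 / 27 ≤ K := by
    have := rho_ge x
    have h2 : rho x ^ 2 ≤ 9 ^ 2 := by gcongr; exact rho_le x
    rw [hK, le_div_iff₀ (by positivity)]
    nlinarith [Real.one_sub_sq_div_two_le_cos (x := x)]
  set d := √(π / (t ^ 6 * K * N)) with hd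
  have d0 : 0 ≤ d := Real.sqrt_nonneg _
  have d2' : d ^ 2 * (t ^ 6 * K * N) = π := by
    rw [hd, Real.sq_sqrt (by positivity)]; field_simp
  have s1 : N * d * t ^ 2 ≤ 0.15 := by
    refine le_of_sq_le_sq (le_of_mul_le_mul_right ?_ (by positivity : 0 < K * t ^ 2)) (by norm_num)
    rw [show (N * d * t ^ 2) ^ 2 * (K * t ^ 2) = d ^ 2 * (t ^ 6 * K * N) * N by ring, d2']
    nlinarith [Real.pi_le_four, sq_nonneg t]
  have := chirp h hs _ hG N (by exact_mod_cast N0.ne') x d (1 / (4 * t) ^ 7 / (64 * 9) / 2)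
    (fun i => 7 * ((x + i * d) / 2 - π / 2) + n * (3 * (x + i * d)) - 2 * (n + 1) * psi (x + i * d))
    (fun j => 7 * (j * d / 2) + n * (3 * (j * d)) - 2 * (n + 1) * (psi (x + j * d) - psi x))
    (by positivity) fun i hi j hj => ?_
  · refine le_trans ?_ this
    have h3 : t / 100 ≤ √N := Real.le_sqrt_of_sq_le N2
    rw [← ht]
    refine le_trans (le_of_eq ?_) (div_le_div_of_nonneg_right
      (mul_le_mul_of_nonneg_left h3 (by positivity)) (by norm_num))
    field_simp; ring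
  · have hi' : i * d * t ^ 2 ≤ 0.15 := le_trans (by gcongr) s1
    have hj' : j * d * t ^ 2 ≤ 0.15 := le_trans (by gcongr) s1
    have i0 : 0 ≤ i * d := by positivity
    have j0 : 0 ≤ j * d := by positivity
    have m := mixed d1 d2 d3 b3 x i0 j0
    refine ⟨_, -(2 * (n + 1)) * (psi (x + i * d + j * d) - psi (x + i * d) - psi (x + j * d) +
      psi x - K * (i * d) * (j * d)), amp n (x := x + i * d + j * d) t1 ht (by linarith) ?_, ?_, (polar n _).trans ?_⟩
    · rw [le_div_iff₀ t0, add_mul, add_mul, show x * t = 1 / 2 by rw [hx]; field_simp]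
      nlinarith [mul_nonneg i0 t0.le, mul_nonneg j0 t0.le]
    · rw [abs_mul, abs_neg, ← ht, abs_of_pos (by positivity)]
      refine (mul_le_mul_of_nonneg_left m (by positivity)).trans ?_
      calc _ = 108 * (i * d * t ^ 2 + j * d * t ^ 2) * (i * d * t ^ 2) * (j * d * t ^ 2) := by ring
        _ ≤ 108 * (0.15 + 0.15) * 0.15 * 0.15 := by gcongr
        _ ≤ 1 := by norm_num
    · congr 2
      rw [← ht, ← d2']
      push_cast; field_simp; ring

end Pool.Agent.H22.Dau
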