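import Mathlib

set_option autoImplicit false

namespace Pool.Agent.H22.Domatic

/-- cells of a K by K board -/
abbrev Cell (K : ℕ) := Fin K × Fin K

/-- blocks: graphs of functions, and columns -/
abbrev Blk (K : ℕ) := (Fin K → Fin K) ⊕ Fin K

abbrev V (K : ℕ) := Cell K ⊕ Blk K

def mem {K : ℕ} (a : Cell K) : Blk K → Prop
  | Sum.inl s => a.2 = s a.1
  | Sum.inr x => a.1 = x

def adj {K : ℕ} : V K → V K → Prop
  | Sum.inl a, Sum.inl a' => a ≠ a'
  | Sum.inl a, Sum.inr b => mem a b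
  | Sum.inr b, Sum.inl a => mem a b
  | Sum.inr _, Sum.inr _ => False

def G (K : ℕ) : SimpleGraph (V K) where
  Adj := adj
  symm := ⟨by
    rintro (a | b) (a' | b') h
    · exact fun e => h e.symm
    · exact h
    · exact h
    · exact h⟩
  loopless := ⟨by
    rintro (a | b) h
    · exact h rfl
    · exact h⟩

lemma no_isolated (K : ℕ) (v : V (K + 2)) : ∃ u, (G (K + 2)).Adj v u := by
  rcases v with a | (s | x)
  · exact ⟨Sum.inr (Sum.inr a.1), rfl⟩
  · exact ⟨Sum.inl (0, s 0), rfl⟩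
  · exact ⟨Sum.inl (x, 0), rfl⟩

/-- no partition into four or more dominating sets -/
lemma no_four (K j : ℕ) (hj : 4 ≤ j) (c : V K → Fin j)
    (hc : ∀ (v : V K) (i : Fin j), ∃ u, (u = v ∨ (G K).Adj v u) ∧ c u = i) : False := by
  by_cases h : ∀ x : Fin K, ∃ y : Fin K, (c (Sum.inl (x, y))).val < 2
  · choose s hs using h
    have key : ∀ i : Fin j, 2 ≤ i.val → c (Sum.inr (Sum.inl s)) = i := by
      intro i hi
      obtain ⟨u, hu, hu'⟩ := hc (Sum.inr (Sum.inl s)) i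
      rcases hu with rfl | hu
      · exact hu'
      · rcases u with ⟨x, y⟩ | b
        · have e : y = s x := hu
          have := hs x
          rw [← e, hu'] at this
          omega
        · exact absurd hu id
    have h2 := key ⟨2, by omega⟩ (by simp)
    have h3 := key ⟨3, by omega⟩ (by simp)
    rw [h2] at h3
    simp at h3
  · push Not at h
    obtain ⟨x, hx⟩ := h
    have key : ∀ i : Fin j, i.val < 2 → c (Sum.inr (Sum.inr x)) = i := by
      intro i hi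
      obtain ⟨u, hu, hu'⟩ := hc (Sum.inr (Sum.inr x)) i
      rcases hu with rfl | hu
      · exact hu'
      · rcases u with ⟨x', y⟩ | b
        · have e : x' = x := hu
          have := hx y
          rw [← e, hu'] at this
          omega
        · exact absurd hu id
    have h2 := key ⟨0, by omega⟩ (by simp)
    have h3 := key ⟨1, by omega⟩ (by simp)
    rw [h2] at h3
    simp at h3

def col {K : ℕ} : V (K + 2) × V (K + 2) → Fin (K + 2)
  | (Sum.inl a, Sum.inl _) => a.1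
  | (Sum.inl a, Sum.inr (Sum.inl _)) => a.1
  | (Sum.inl a, Sum.inr (Sum.inr _)) => a.2
  | (Sum.inr (Sum.inl _), Sum.inl a) => a.2
  | (Sum.inr (Sum.inr _), Sum.inl a) => a.1
  | (Sum.inr _, Sum.inr _) => 0

lemma other1 {K : ℕ} (a : Cell (K + 2)) (i : Fin (K + 2)) :
    ∃ a' : Cell (K + 2), a ≠ a' ∧ a'.1 = i := by
  obtain ⟨y, hy⟩ := exists_ne a.2
  exact ⟨(i, y), fun e => hy (by rw [e]), rfl⟩

lemma other2 {K : ℕ} (a : Cell (K + 2)) (i : Fin (K + 2)) :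
    ∃ a' : Cell (K + 2), a ≠ a' ∧ a'.2 = i := by
  obtain ⟨y, hy⟩ := exists_ne a.1
  exact ⟨(y, i), fun e => hy (by rw [e]), rfl⟩

/-- the square has a partition into K + 2 total dominating sets -/
lemma total (K : ℕ) (x : V (K + 2) × V (K + 2)) (i : Fin (K + 2)) :
    ∃ y, ((G (K + 2)).boxProd (G (K + 2))).Adj x y ∧ col y = i := by
  obtain ⟨u, w⟩ := x
  rcases u with a | (s | x) <;> rcases w with a' | (s' | x')
  · obtain ⟨b, hb, hb'⟩ := other1 a i
    exact ⟨(Sum.inl b, Sum.inl a'), Or.inl ⟨hb, rfl⟩, hb'⟩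
  · obtain ⟨b, hb, hb'⟩ := other1 a i
    exact ⟨(Sum.inl b, Sum.inr (Sum.inl s')), Or.inl ⟨hb, rfl⟩, hb'⟩
  · obtain ⟨b, hb, hb'⟩ := other2 a i
    exact ⟨(Sum.inl b, Sum.inr (Sum.inr x')), Or.inl ⟨hb, rfl⟩, hb'⟩
  · obtain ⟨b, hb, hb'⟩ := other2 a' i
    exact ⟨(Sum.inr (Sum.inl s), Sum.inl b), Or.inr ⟨hb, rfl⟩, hb'⟩
  · exact ⟨(Sum.inl (i, s i), Sum.inr (Sum.inl s')), Or.inl ⟨rfl, rfl⟩, rfl⟩
  · exact ⟨(Sum.inr (Sum.inl s), Sum.inl (x', i)), Or.inr ⟨rfl, rfl⟩, rfl⟩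
  · obtain ⟨b, hb, hb'⟩ := other1 a' i
    exact ⟨(Sum.inr (Sum.inr x), Sum.inl b), Or.inr ⟨hb, rfl⟩, hb'⟩
  · exact ⟨(Sum.inr (Sum.inr x), Sum.inl (i, s' i)), Or.inr ⟨rfl, rfl⟩, rfl⟩
  · exact ⟨(Sum.inl (x, i), Sum.inr (Sum.inr x')), Or.inl ⟨rfl, rfl⟩, rfl⟩

end Pool.Agent.H22.Domatic
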