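import Mathlib

set_option autoImplicit false
open Set Function
open scoped Classical

namespace Pool.Agent.H22.Flux
noncomputable section

abbrev R := Localization.Away (2 : ℤ)
def u : Rˣ := (IsLocalization.Away.algebraMap_isUnit (S := R) (2 : ℤ)).unit
lemma u2 : (u : R) = 2 := by simp [u]

def ps : R →+* ℚ := IsLocalization.Away.lift (2 : ℤ) (g := Int.castRingHom ℚ) (by simp)
def ph (j : ℕ) : R →+* ZMod (2 * j + 1) :=
  IsLocalization.Away.lift (2 : ℤ) (g := Int.castRingHom _) (.of_mul_eq_one (j + 1 : ℕ) (by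
    have := ZMod.natCast_self (2 * j + 1)
    simp only [eq_intCast]; push_cast at *; linear_combination this))

lemma surj (a : R) : ∃ (k : ℕ) (z : ℤ), a * 2 ^ k = z := by
  simpa using IsLocalization.Away.surj (2 : ℤ) a

lemma ph0 (a : R) : ∃ N, ∀ j ≥ N, ph j a = 0 → a = 0 := by
  obtain ⟨k, z, h⟩ := surj a
  refine ⟨z.natAbs, fun j hj e => ?_⟩
  have := congrArg (ph j) h
  rw [map_mul, e, zero_mul, map_intCast, eq_comm, ZMod.intCast_zmod_eq_zero_iff_dvd] at this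
  rw [Int.eq_zero_of_abs_lt_dvd this (by rw [Int.abs_eq_natAbs]; omega), ← u2] at h
  exact (u.isUnit.pow k).mul_left_eq_zero.1 (by simpa using h)

@[ext] structure G where
  a : R
  b : R
  n : ℤ

instance : Mul G := ⟨fun x y => ⟨x.a + ↑(u ^ x.n) * y.a, x.b + ↑(u ^ x.n) * y.b, x.n + y.n⟩⟩
instance : One G := ⟨⟨0, 0, 0⟩⟩
instance : Inv G := ⟨fun x => ⟨-↑(u ^ (-x.n)) * x.a, -↑(u ^ (-x.n)) * x.b, -x.n⟩⟩
lemma mul_d (x y : G) :
    x * y = ⟨x.a + ↑(u ^ x.n) * y.a, x.b + ↑(u ^ x.n) * y.b, x.n + y.n⟩ := rfl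
lemma one_d : (1 : G) = ⟨0, 0, 0⟩ := rfl
lemma inv_d (x : G) : x⁻¹ = ⟨-↑(u ^ (-x.n)) * x.a, -↑(u ^ (-x.n)) * x.b, -x.n⟩ := rfl
instance : Group G := Group.ofLeftAxioms
  (fun x y z => by ext <;> simp only [mul_d, zpow_add, Units.val_mul] <;> ring)
  (fun x => by ext <;> simp [mul_d, one_d]) fun x => by
    ext <;> simp only [mul_d, one_d, inv_d] <;> ring

def H (j : ℕ) : Subgroup G where
  carrier := {g | ph j g.a = 0 ∧ ph j g.b = 0 ∧ (g.n : ZMod (j + 1)) = 0}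
  mul_mem' := by simp +contextual [mul_d]
  one_mem' := by simp [one_d]
  inv_mem' := by simp +contextual [inv_d]

lemma rf (g : G) (h : g ≠ 1) : ∃ H : Subgroup G, H.FiniteIndex ∧ g ∉ H := by
  obtain ⟨N, h1⟩ := ph0 g.a
  obtain ⟨N', h2⟩ := ph0 g.b
  refine ⟨H (N + N' + g.n.natAbs), ?_, fun ⟨a, b, c⟩ => h (G.ext (h1 _ (by omega) a)
    (h2 _ (by omega) b) (Int.eq_zero_of_abs_lt_dvd ((ZMod.intCast_zmod_eq_zero_iff_dvd _ _).1 c)
      (by rw [Int.abs_eq_natAbs]; omega)))⟩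
  generalize N + N' + g.n.natAbs = j
  have : Finite (G ⧸ H j) := .of_injective
    (fun q => (ph j q.out.a, ph j q.out.b, (q.out.n : ZMod (j + 1)))) fun q q' e => by
      rw [← q.out_eq', ← q'.out_eq', QuotientGroup.eq]
      simp only [Prod.mk.injEq] at e
      exact ⟨by simp [mul_d, inv_d, e], by simp [mul_d, inv_d, e], by simp [mul_d, inv_d, e]⟩
  exact Subgroup.finiteIndex_of_finite_quotient

def e1 : G := ⟨1, 0, 0⟩
def e2 : G := ⟨0, 1, 0⟩
lemma e1m (a b : R) (n : ℤ) : e1 * ⟨a, b, n⟩ = ⟨a + 1, b, n⟩ := by simp [e1, mul_d, add_comm]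
lemma e2m (a b : R) (n : ℤ) : e2 * ⟨a, b, n⟩ = ⟨a, b + 1, n⟩ := by simp [e2, mul_d, add_comm]
lemma e12 (g : G) : e1 * (e2 * g) = e2 * (e1 * g) := by cases g; simp only [e1m, e2m]

lemma fg : Group.FG G := by
  refine (Group.fg_iff).2 ⟨{e1, e2, ⟨0, 0, 1⟩}, (Subgroup.eq_top_iff' _).2 fun g => ?_, by simp⟩
  set K := Subgroup.closure ({e1, e2, ⟨0, 0, 1⟩} : Set G)
  have hz : ∀ {f : ℤ → G}, (∀ m n, f (m + n) = f m * f n) → f 1 ∈ K → ∀ n, f n ∈ K :=
    fun {f} h h1 n => by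
      have := zpow_mem h1 n
      rwa [show f 1 = MonoidHom.mk' (fun n : Multiplicative ℤ => f n.toAdd) h (.ofAdd 1) from rfl,
        ← map_zpow, ← ofAdd_zsmul, smul_eq_mul, mul_one] at this
  have ht := hz (f := fun n => ⟨0, 0, n⟩) (by simp [mul_d]) (Subgroup.subset_closure (by simp))
  have h1 := hz (f := fun n => ⟨n, 0, 0⟩) (by simp [mul_d])
    (Subgroup.subset_closure (by simp [e1]))
  have h2 := hz (f := fun n => ⟨0, n, 0⟩) (by simp [mul_d])
    (Subgroup.subset_closure (by simp [e2]))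
  obtain ⟨k, z, h⟩ := surj g.a
  obtain ⟨k', z', h'⟩ := surj g.b
  convert mul_mem (mul_mem (mul_mem (mul_mem (ht (-k)) (h1 z)) (ht (k - k'))) (h2 z'))
    (ht (k' + g.n)) using 1
  have e : -(k : ℤ) + (k - k') = -k' := by ring
  ext <;> simp [mul_d, ← h, ← h', ← u2, mul_comm, e, mul_assoc, ← mul_pow]

def X : Set (G → ZMod 2 × ZMod 2) :=
  {x | ∀ g, (x (e1 * g)).1 - (x g).1 - (x (e2 * g)).2 + (x g).2 = 1}

def fl (a : R) : ℤ := ⌊ps a⌋
lemma fl1 (a : R) : fl (a + 1) = fl a + 1 := by simp [fl]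

lemma X0 : (fun g : G => ((fl g.a : ZMod 2), (0 : ZMod 2))) ∈ X := fun ⟨a, b, n⟩ => by simp [e1m, fl1]

def pr (f : ℤ → ZMod 2) (n : ℤ) : ZMod 2 :=
  ∑ i ∈ Finset.Ico 0 n, f i - ∑ i ∈ Finset.Ico n 0, f i

lemma prs (f : ℤ → ZMod 2) (n : ℤ) : pr f (n + 1) = pr f n + f n := by
  unfold pr
  rcases le_or_gt 0 n with h | h
  · rw [← Finset.insert_Ico_right_eq_Ico_add_one h, Finset.sum_insert (by simp),
      Finset.Ico_eq_empty (a := n + 1) (by omega), Finset.Ico_eq_empty (a := n) (by omega)]; ring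
  · rw [← Finset.insert_Ico_add_one_left_eq_Ico h, Finset.sum_insert (by simp),
      Finset.Ico_eq_empty (b := n + 1) (by omega), Finset.Ico_eq_empty (b := n) (by omega)]; ring

lemma prt {f g w : ℤ → ZMod 2} (h : ∀ j, f j - g j = w (j + 1) - w j) (n : ℤ) :
    pr f n - pr g n = w n - w 0 := by
  induction n using Int.induction_on with
  | zero => simp [pr]
  | succ n ih => rw [prs, prs]; linear_combination ih + h n
  | pred n ih =>
    have h1 := prs f (-n - 1)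
    have h2 := prs g (-n - 1)
    have h3 := h (-n - 1)
    rw [sub_add_cancel] at h1 h2 h3
    linear_combination ih - h1 + h2 - h3

lemma pot {x y : G → ZMod 2 × ZMod 2} (hx : x ∈ X) (hy : y ∈ X) :
    ∃ s : G → ZMod 2, ∀ g, x g = y g + (s (e2 * g) - s g, s (e1 * g) - s g) := by
  refine ⟨fun g => pr (fun i => (x ⟨g.a - fl g.a + i, g.b - fl g.b, g.n⟩).2 -
    (y ⟨g.a - fl g.a + i, g.b - fl g.b, g.n⟩).2) (fl g.a) + pr (fun j =>
    (x ⟨g.a, g.b - fl g.b + j, g.n⟩).1 - (y ⟨g.a, g.b - fl g.b + j, g.n⟩).1) (fl g.b),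
    fun ⟨a, b, n⟩ => ?_⟩
  simp only [e1m, e2m, fl1, prs, Int.cast_add, Int.cast_one, add_sub_add_right_eq_sub,
    sub_add_cancel]
  ext
  · simp
  · have := prt (f := fun j => (x ⟨a + 1, b - fl b + j, n⟩).1 - (y ⟨a + 1, b - fl b + j, n⟩).1)
      (g := fun j => (x ⟨a, b - fl b + j, n⟩).1 - (y ⟨a, b - fl b + j, n⟩).1)
      (w := fun j => (x ⟨a, b - fl b + j, n⟩).2 - (y ⟨a, b - fl b + j, n⟩).2) (fun j => by
        have h1 := hx ⟨a, b - fl b + j, n⟩
        have h2 := hy ⟨a, b - fl b + j, n⟩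
        simp only [e1m, e2m, Int.cast_add, Int.cast_one, ← add_assoc] at *
        linear_combination h1 - h2) (fl b)
    simp only [sub_add_cancel, Int.cast_zero, add_zero, Prod.snd_add] at *
    linear_combination -this

lemma sft : ∃ (S : Finset G) (P : Set (S → ZMod 2 × ZMod 2)),
    X = {x | ∀ g : G, (fun s : S => x (s.1 * g)) ∈ P} :=
  ⟨{1, e1, e2}, {p | (p ⟨e1, by simp⟩).1 - (p ⟨1, by simp⟩).1 - (p ⟨e2, by simp⟩).2 +
    (p ⟨1, by simp⟩).2 = 1}, by simp [X]⟩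

lemma si : ∃ D : Finset G, ∀ A B : Finset G, (∀ d ∈ D, ∀ w ∈ A, d * w ∉ B) →
    ∀ x ∈ X, ∀ y ∈ X, ∃ z ∈ X, (∀ w ∈ A, z w = x w) ∧ (∀ w ∈ B, z w = y w) := by
  refine ⟨(({1, e1, e2} : Finset G) ×ˢ ({1, e1, e2} : Finset G)).image fun p => p.1⁻¹ * p.2,
    fun A B h x hx y hy => ?_⟩
  obtain ⟨s, hs⟩ := pot hx hy
  let t : G → ZMod 2 := fun g =>
    if ∃ c ∈ ({1, e1, e2} : Finset G), ∃ w ∈ A, g = c * w then s g else 0
  have h1 : ∀ c ∈ ({1, e1, e2} : Finset G), ∀ w ∈ A, t (c * w) = s (c * w) :=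
    fun c hc w hw => if_pos ⟨c, hc, w, hw, rfl⟩
  have h2 : ∀ c ∈ ({1, e1, e2} : Finset G), ∀ w ∈ B, t (c * w) = 0 :=
    fun c hc w hw => if_neg fun ⟨c', hc', w', hw', e⟩ => h (c⁻¹ * c')
      (Finset.mem_image.2 ⟨(c, c'), Finset.mem_product.2 ⟨hc, hc'⟩, rfl⟩) w' hw'
      (by rwa [mul_assoc, ← e, inv_mul_cancel_left])
  refine ⟨fun g => y g + (t (e2 * g) - t g, t (e1 * g) - t g), fun g => ?_, fun w hw => ?_,
    fun w hw => ?_⟩
  · simp only [Prod.fst_add, Prod.snd_add, e12]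
    linear_combination hy g
  · have := h1 1 (by simp) w hw
    rw [one_mul] at this
    simp only [h1 e1 (by simp) w hw, h1 e2 (by simp) w hw, this, ← hs]
  · have := h2 1 (by simp) w hw
    rw [one_mul] at this
    simp [h2 e1 (by simp) w hw, h2 e2 (by simp) w hw, this]

lemma noper {y : G → ZMod 2 × ZMod 2} (hy : y ∈ X) :
    ¬ (range fun g : G => fun h : G => y (h * g)).Finite := fun hf => by
  let L : AddSubgroup (R × R) :=
    { carrier := {v | ∀ a b, y ⟨a + v.1, b + v.2, 0⟩ = y ⟨a, b, 0⟩}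
      add_mem' := fun h h' a b => by simp only [Prod.fst_add, Prod.snd_add, ← add_assoc, h' _, h _]
      zero_mem' := by simp
      neg_mem' := fun {v} h a b => by
        simpa [← sub_eq_add_neg] using (h (a - v.1) (b - v.2)).symm }
  have := hf.to_subtype
  have : Finite ((R × R) ⧸ L) := .of_injective (β := range fun g : G => fun h : G => y (h * g))
    (fun q => ⟨_, ⟨q.out.1, q.out.2, 0⟩, rfl⟩) fun q q' e => by
      rw [← q.out_eq', ← q'.out_eq', QuotientAddGroup.eq]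
      intro a b
      have := congrFun (congrArg Subtype.val e) ⟨a - q.out.1, b - q.out.2, 0⟩
      simp only [mul_d, zpow_zero, Units.val_one, one_mul, sub_add_cancel, add_zero] at this
      rw [this]; simp [sub_eq_add_neg, add_assoc]
  obtain ⟨k, m, hm, e⟩ := Nat.exists_eq_two_pow_mul_odd (L.index_ne_zero_of_finite)
  have key : ∀ v : R × R, m • v ∈ L := fun v => by
    convert L.nsmul_index_mem ((↑(u ^ k)⁻¹ : R) • v) using 1
    rw [e, mul_comm, mul_smul]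
    congr 1
    ext <;> simp [← u2, ← mul_assoc, ← mul_pow]
  have h1 : ∀ j : ℕ, y ⟨m, j, 0⟩ = y ⟨0, j, 0⟩ := fun j => by simpa using key (1, 0) 0 j
  have h2 : ∀ j : ℕ, y ⟨j, m, 0⟩ = y ⟨j, 0, 0⟩ := fun j => by simpa using key (0, 1) j 0
  have : ∑ i ∈ Finset.range m, ∑ j ∈ Finset.range m, (1 : ZMod 2) = ∑ j ∈ Finset.range m,
      ∑ i ∈ Finset.range m, ((y ⟨(i + 1 : ℕ), j, 0⟩).1 - (y ⟨i, j, 0⟩).1) - ∑ i ∈ Finset.range m,
      ∑ j ∈ Finset.range m, ((y ⟨i, (j + 1 : ℕ), 0⟩).2 - (y ⟨i, j, 0⟩).2) := by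
    rw [Finset.sum_comm (s := Finset.range m) (f := fun j i => (y ⟨(i + 1 : ℕ), j, 0⟩).1 - _),
      ← Finset.sum_sub_distrib]
    refine Finset.sum_congr rfl fun i _ => ?_
    rw [← Finset.sum_sub_distrib]
    refine Finset.sum_congr rfl fun j _ => ?_
    have := hy ⟨i, j, 0⟩
    simp only [e1m, e2m] at this
    push_cast
    linear_combination -this
  rw [Finset.sum_eq_zero (f := fun j : ℕ => ∑ i ∈ _, ((y ⟨(i + 1 : ℕ), j, 0⟩).1 - _)) fun j _ => by
      rw [Finset.sum_range_sub fun i : ℕ => (y ⟨i, j, 0⟩).1]; simp [h1],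
    Finset.sum_eq_zero (f := fun i : ℕ => ∑ j ∈ _, ((y ⟨i, (j + 1 : ℕ), 0⟩).2 - _)) fun i _ => by
      rw [Finset.sum_range_sub fun j : ℕ => (y ⟨i, j, 0⟩).2]; simp [h2]] at this
  simp [hm.natCast_zmod_two] at this

end
end Pool.Agent.H22.Flux
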