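import Mathlib

namespace Pool.Agent.H22.GForm

/-- a context-free grammar over terminal letters from `ℕ`, with its terminal alphabet -/
structure Gr where
  g : ContextFreeGrammar ℕ
  T : Finset ℕ

/-- finitely many nonterminals, no erasing production, terminals taken from the alphabet -/
def WF (G : Gr) : Prop :=
  Finite G.g.NT ∧ ∀ r ∈ G.g.rules, r.output ≠ [] ∧ ∀ x, Symbol.terminal x ∈ r.output → x ∈ G.T

/-- letter-by-letter renaming of symbols -/
def smap {N N' : Type} (h : ℕ → ℕ) (f : N → N') : Symbol ℕ N → Symbol ℕ N'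
  | .terminal x => .terminal (h x)
  | .nonterminal A => .nonterminal (f A)

/-- `G'` is an interpretation of `G`; `σ x` is the fibre over `x` of `f` (nonterminals) or of
`h` restricted to the alphabet of `G'` (terminals) -/
def Interp (G' G : Gr) : Prop :=
  ∃ (f : G'.g.NT → G.g.NT) (h : ℕ → ℕ), Function.Surjective f ∧ G'.T.image h = G.T ∧
    f G'.g.initial = G.g.initial ∧
    ∀ r ∈ G'.g.rules, (⟨f r.input, r.output.map (smap h f)⟩ : ContextFreeRule ℕ G.g.NT) ∈ G.g.rules

/-- the grammatical family of `G` -/
def Fam (G : Gr) : Set (Language ℕ) := {L | ∃ G', WF G' ∧ Interp G' G ∧ L = G'.g.language}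

open Classical in
/-- the `a`-restriction: delete the productions containing a terminal other than `a` -/
noncomputable def restr (G : Gr) (a : ℕ) : Gr :=
  ⟨⟨G.g.NT, G.g.initial, G.g.rules.filter fun r => ∀ x, Symbol.terminal x ∈ r.output → x = a⟩, G.T⟩

/-- unary-complete family -/
def UnaryComplete (F : Set (Language ℕ)) : Prop :=
  ∀ G, WF G → 2 ≤ G.T.card → Fam G = F → ∃ a ∈ G.T, Fam (restr G a) = F

end Pool.Agent.H22.GForm
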