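import Pool.Agent.H22.GForm

namespace Pool.Agent.H22.GForm

abbrev Rules (N : Type) := Set (N × List (Symbol ℕ N))

inductive Gen {N : Type} (P : Rules N) : List (Symbol ℕ N) → List ℕ → Prop
  | nil : Gen P [] []
  | ter {x α w} : Gen P α w → Gen P (.terminal x :: α) (x :: w)
  | nt {A β α u w} : (A, β) ∈ P → Gen P β u → Gen P α w → Gen P (.nonterminal A :: α) (u ++ w)

variable {N N' N₀ : Type}

theorem Gen.split {P : Rules N} {α β : List (Symbol ℕ N)} :
    ∀ {w}, Gen P (α ++ β) w → ∃ u v, w = u ++ v ∧ Gen P α u ∧ Gen P β v := by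
  induction α with
  | nil => exact fun h => ⟨[], _, rfl, Gen.nil, h⟩
  | cons s α ih =>
    intro w h
    cases h with
    | ter h => obtain ⟨u, v, rfl, h1, h2⟩ := ih h; exact ⟨_ :: u, v, rfl, Gen.ter h1, h2⟩
    | nt hp hb h =>
      obtain ⟨u, v, rfl, h1, h2⟩ := ih h
      exact ⟨_ ++ u, v, by simp, Gen.nt hp hb h1, h2⟩

theorem gen_one {P : Rules N} {A : N} {w : List ℕ} :
    Gen P [.nonterminal A] w ↔ ∃ β, (A, β) ∈ P ∧ Gen P β w := by
  constructor
  · intro h
    cases h with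
    | nt hp hb h => cases h; exact ⟨_, hp, by simpa using hb⟩
  · rintro ⟨β, hp, hb⟩
    simpa using Gen.nt hp hb Gen.nil

def rulesOf (g : ContextFreeGrammar ℕ) : Rules g.NT := {p | ⟨p.1, p.2⟩ ∈ g.rules}

theorem mem_lang (g : ContextFreeGrammar ℕ) (w : List ℕ) :
    w ∈ g.language ↔ Gen (rulesOf g) [.nonterminal g.initial] w := by
  rw [ContextFreeGrammar.mem_language_iff]
  generalize [Symbol.nonterminal g.initial] = α
  constructor
  · intro h
    induction h using Relation.ReflTransGen.head_induction_on with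
    | refl =>
      induction w with
      | nil => exact Gen.nil
      | cons x w ih => exact Gen.ter ih
    | head h1 _ ih =>
      obtain ⟨r, hr, h1⟩ := h1
      rename_i u v h2
      clear h2
      induction h1 generalizing w with
      | head s =>
        obtain ⟨u, v, rfl, h1, h2⟩ := ih.split
        exact Gen.nt hr h1 h2
      | cons x _ ih2 =>
        cases ih with
        | ter h => exact Gen.ter (ih2 _ h)
        | nt hp hb h => exact Gen.nt hp hb (ih2 _ h)
  · intro h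
    induction h with
    | nil => rfl
    | @ter x α w _ ih => exact ih.append_left [.terminal x]
    | @nt A β α u w hp _ _ ih1 ih2 =>
      have h0 : g.Produces (.nonterminal A :: α) (β ++ α) :=
        ⟨⟨A, β⟩, hp, ContextFreeRule.Rewrites.head α⟩
      rw [List.map_append]
      exact (h0.trans_derives (ih1.append_right α)).trans (ih2.append_left _)

theorem gen_map {P : Rules N} {P' : Rules N'} (φ : N → N')
    (h : ∀ A β', (φ A, β') ∈ P' ↔ ∃ β, (A, β) ∈ P ∧ β' = β.map (smap id φ))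
    (α : List (Symbol ℕ N)) (w : List ℕ) : Gen P' (α.map (smap id φ)) w ↔ Gen P α w := by
  constructor
  · intro hg
    generalize e : α.map (smap id φ) = α' at hg
    induction hg generalizing α with
    | nil => rw [List.map_eq_nil_iff.1 e]; exact Gen.nil
    | ter _ ih =>
      obtain ⟨s, α, rfl, e1, e2⟩ := List.map_eq_cons_iff.1 e
      cases s with
      | terminal y => cases e1; exact Gen.ter (ih _ e2)
      | nonterminal y => cases e1
    | nt hp _ _ ih1 ih2 =>
      obtain ⟨s, α, rfl, e1, e2⟩ := List.map_eq_cons_iff.1 e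
      cases s with
      | terminal y => cases e1
      | nonterminal y =>
        cases e1
        obtain ⟨β, hb, rfl⟩ := (h _ _).1 hp
        exact Gen.nt hb (ih1 _ rfl) (ih2 _ e2)
  · intro hg
    induction hg with
    | nil => exact Gen.nil
    | ter _ ih => exact Gen.ter ih
    | nt hp _ _ ih1 ih2 => exact Gen.nt ((h _ _).2 ⟨_, hp, rfl⟩) ih1 ih2

theorem smap_smap {N'' : Type} (h h' : ℕ → ℕ) (f : N → N') (f' : N' → N'') (s : Symbol ℕ N) :
    smap h' f' (smap h f s) = smap (h' ∘ h) (f' ∘ f) s := by cases s <;> rfl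

/-- languages of interpretations all of whose terminals are sent to `a` -/
def Un (P₀ : Rules N₀) (S : N₀) (a : ℕ) (L : Set (List ℕ)) : Prop :=
  ∃ (N : Type) (_ : Finite N) (P : Rules N) (f : N → N₀) (I : Set N), P.Finite ∧
    (∀ p ∈ P, (f p.1, p.2.map (smap (fun _ => a) f)) ∈ P₀) ∧ (∀ s ∈ I, f s = S) ∧
    L = {w | ∃ s ∈ I, Gen P [.nonterminal s] w}

theorem Un.iUnion {P₀ : Rules N₀} {S : N₀} {a : ℕ} {ι : Type} [Finite ι]
    {L : ι → Set (List ℕ)} (h : ∀ i, Un P₀ S a (L i)) : Un P₀ S a (⋃ i, L i) := by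
  choose M hM P f I h1 h2 h3 h4 using h
  let P' : Rules (Σ i, M i) :=
    ⋃ i, (fun q : M i × List (Symbol ℕ (M i)) => (⟨i, q.1⟩, q.2.map (smap id (Sigma.mk i)))) '' P i
  have key : ∀ i α w, Gen P' (α.map (smap id (Sigma.mk i))) w ↔ Gen (P i) α w := by
    intro i
    refine gen_map _ fun A β' => ?_
    simp only [P', Set.mem_iUnion, Set.mem_image, Prod.mk.injEq]
    constructor
    · rintro ⟨j, ⟨B, β⟩, hq, e1, rfl⟩
      cases e1
      exact ⟨β, hq, rfl⟩
    · rintro ⟨β, hq, rfl⟩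
      exact ⟨i, (A, β), hq, rfl, rfl⟩
  refine ⟨Σ i, M i, inferInstance, P', fun s => f s.1 s.2, {s | s.2 ∈ I s.1},
    Set.finite_iUnion fun i => (h1 i).image _, ?_, fun s hs => h3 _ _ hs, ?_⟩
  · intro p hp
    simp only [P', Set.mem_iUnion, Set.mem_image] at hp
    obtain ⟨i, q, hq, rfl⟩ := hp
    have := h2 i q hq
    simp only [List.map_map]
    rwa [show (smap (fun _ => a) fun s : Σ i, M i => f s.1 s.2) ∘ smap id (Sigma.mk i) =
      smap (fun _ => a) (f i) from funext fun s => smap_smap _ _ _ _ s]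
  · ext w
    simp only [Set.mem_iUnion, h4, Set.mem_ofPred_eq]
    constructor
    · rintro ⟨i, s, hs, hg⟩
      exact ⟨⟨i, s⟩, hs, (key i [.nonterminal s] w).2 hg⟩
    · rintro ⟨⟨i, s⟩, hs, hg⟩
      exact ⟨i, s, hs, (key i [.nonterminal s] w).1 hg⟩

theorem exists_bound {P : Rules N} (h : P.Finite) :
    ∃ M, ∀ p ∈ P, ∀ x, Symbol.terminal x ∈ p.2 → x < M := by
  have : (⋃ p ∈ P, {x | Symbol.terminal x ∈ p.2}).Finite := by
    refine h.biUnion fun p _ => ?_
    exact (List.finite_toSet p.2).preimage (f := Symbol.terminal) fun _ _ _ _ e => by cases e; rfl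
  obtain ⟨M, hM⟩ := this.bddAbove
  exact ⟨M + 1, fun p hp x hx => Nat.lt_succ_of_le (hM (Set.mem_biUnion hp hx))⟩

theorem Gen.letters {P : Rules N} {Γ : Set ℕ} (h : ∀ p ∈ P, ∀ x, Symbol.terminal x ∈ p.2 → x ∈ Γ)
    {α w} (hg : Gen P α w) : (∀ x, Symbol.terminal x ∈ α → x ∈ Γ) → ∀ x ∈ w, x ∈ Γ := by
  induction hg with
  | nil => simp
  | ter _ ih =>
    intro ha x hx
    rcases List.mem_cons.1 hx with rfl | hx
    · exact ha _ List.mem_cons_self
    · exact ih (fun y hy => ha y (List.mem_cons_of_mem _ hy)) x hx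
  | nt hp _ _ ih1 ih2 =>
    intro ha x hx
    rcases List.mem_append.1 hx with hx | hx
    · exact ih1 (h _ hp) x hx
    · exact ih2 (fun y hy => ha y (List.mem_cons_of_mem _ hy)) x hx

theorem Un.bound {P₀ : Rules N₀} {S : N₀} {a : ℕ} {L : Set (List ℕ)} (h : Un P₀ S a L) :
    ∃ M, ∀ w ∈ L, ∀ x ∈ w, x < M := by
  obtain ⟨N, _, P, f, I, h1, -, -, rfl⟩ := h
  obtain ⟨M, hM⟩ := exists_bound h1
  exact ⟨M, fun w ⟨s, _, hg⟩ => hg.letters (Γ := {x | x < M}) hM (by simp)⟩

section trans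
variable {Q : Type} (δ : Set (Q × ℕ × ℕ × Q))

inductive Run : Q → List ℕ → List ℕ → Q → Prop
  | nil (q) : Run q [] [] q
  | cons {p x y q w w' r} : (p, x, y, q) ∈ δ → Run q w w' r → Run p (x :: w) (y :: w') r

inductive Lift : Q → List (Symbol ℕ N) → List (Symbol ℕ (Q × N × Q)) → Q → Prop
  | nil (q) : Lift q [] [] q
  | ter {p x y q α α' r} : (p, x, y, q) ∈ δ → Lift q α α' r →
      Lift p (.terminal x :: α) (.terminal y :: α') r
  | nt {p A q α α' r} : Lift q α α' r →
      Lift p (.nonterminal A :: α) (.nonterminal (p, A, q) :: α') r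

variable {δ}

theorem Run.append {p q r u u' v v'} (h : Run δ p u u' q) (h' : Run δ q v v' r) :
    Run δ p (u ++ v) (u' ++ v') r := by
  induction h with
  | nil => exact h'
  | cons h1 _ ih => exact Run.cons h1 (ih h')

theorem Run.split {u v : List ℕ} : ∀ {p w' r}, Run δ p (u ++ v) w' r →
    ∃ q u' v', w' = u' ++ v' ∧ Run δ p u u' q ∧ Run δ q v v' r := by
  induction u with
  | nil => exact fun h => ⟨_, [], _, rfl, Run.nil _, h⟩
  | cons x u ih =>
    intro p w' r h
    cases h with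
    | cons h1 h2 =>
      obtain ⟨q, u', v', rfl, a, b⟩ := ih h2
      exact ⟨q, _ :: u', v', rfl, Run.cons h1 a, b⟩

def liftR (δ : Set (Q × ℕ × ℕ × Q)) (P : Rules N) : Rules (Q × N × Q) :=
  {p | ∃ α, (p.1.2.1, α) ∈ P ∧ Lift δ p.1.1 α p.2 p.1.2.2}

theorem lift_A {P : Rules N} {α w} (h : Gen P α w) : ∀ {p w' q}, Run δ p w w' q →
    ∃ α', Lift δ p α α' q ∧ Gen (liftR δ P) α' w' := by
  induction h with
  | nil => intro p w' q h; cases h; exact ⟨[], Lift.nil _, Gen.nil⟩
  | ter _ ih =>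
    intro p w' q h
    cases h with
    | cons h1 h2 =>
      obtain ⟨α', a, b⟩ := ih h2
      exact ⟨_, Lift.ter h1 a, Gen.ter b⟩
  | @nt A β α u w hp _ _ ih1 ih2 =>
    intro p w' r h
    obtain ⟨q, u', v', rfl, a, b⟩ := h.split
    obtain ⟨β', c, d⟩ := ih1 a
    obtain ⟨α', e, f⟩ := ih2 b
    exact ⟨_, Lift.nt e, Gen.nt (A := (p, A, q)) ⟨β, hp, c⟩ d f⟩

theorem lift_B {P : Rules N} {α' w'} (h : Gen (liftR δ P) α' w') : ∀ {p α q}, Lift δ p α α' q →
    ∃ w, Gen P α w ∧ Run δ p w w' q := by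
  induction h with
  | nil => intro p α q h; cases h; exact ⟨[], Gen.nil, Run.nil _⟩
  | ter _ ih =>
    intro p α q h
    cases h with
    | ter h1 h2 =>
      obtain ⟨w, a, b⟩ := ih h2
      exact ⟨_, Gen.ter a, Run.cons h1 b⟩
  | nt hp _ _ ih1 ih2 =>
    intro p α q h
    cases h with
    | nt h2 =>
      obtain ⟨β, hb, hl⟩ := hp
      obtain ⟨u, a, b⟩ := ih1 hl
      obtain ⟨w, c, d⟩ := ih2 h2
      exact ⟨_, Gen.nt hb a c, b.append d⟩

theorem Lift.image {p q} {α : List (Symbol ℕ N)} {α'} (h : Lift δ p α α' q) (a : ℕ) (f : N → N₀) :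
    α'.map (smap (fun _ => a) fun s => f s.2.1) = α.map (smap (fun _ => a) f) := by
  induction h with
  | nil => rfl
  | ter _ _ ih => simp only [List.map_cons, ih]; rfl
  | nt _ ih => simp only [List.map_cons, ih]; rfl

theorem lift_finite [Finite Q] [Finite N] (hδ : δ.Finite) (α : List (Symbol ℕ N)) :
    {α' | ∃ p q, Lift δ p α α' q}.Finite := by
  have hs : ((fun d : Q × ℕ × ℕ × Q => (Symbol.terminal d.2.2.1 : Symbol ℕ (Q × N × Q))) '' δ ∪
      Set.range Symbol.nonterminal).Finite := (hδ.image _).union (Set.finite_range _)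
  induction α with
  | nil =>
    refine (Set.finite_singleton []).subset ?_
    rintro _ ⟨p, q, h⟩
    cases h; rfl
  | cons s α ih =>
    refine (hs.image2 List.cons ih).subset ?_
    rintro _ ⟨p, q, h⟩
    cases h with
    | ter h1 h2 => exact ⟨_, Or.inl ⟨_, h1, rfl⟩, _, ⟨_, _, h2⟩, rfl⟩
    | nt h2 => exact ⟨_, Or.inr ⟨_, rfl⟩, _, ⟨_, _, h2⟩, rfl⟩

theorem Un.trans [Finite Q] (hδ : δ.Finite) (q₀ : Q) (F : Set Q) {P₀ : Rules N₀} {S : N₀} {a : ℕ}
    {L : Set (List ℕ)} (h : Un P₀ S a L) :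
    Un P₀ S a {w' | ∃ w ∈ L, ∃ q ∈ F, Run δ q₀ w w' q} := by
  obtain ⟨N, _, P, f, I, h1, h2, h3, rfl⟩ := h
  refine ⟨Q × N × Q, inferInstance, liftR δ P, fun s => f s.2.1,
    {s | s.1 = q₀ ∧ s.2.1 ∈ I ∧ s.2.2 ∈ F}, ?_, ?_, fun s hs => h3 _ hs.2.1, ?_⟩
  · refine ((Set.finite_univ (α := Q × N × Q)).prod
      (h1.biUnion fun p _ => lift_finite hδ p.2)).subset ?_
    rintro p ⟨α, a, b⟩
    exact ⟨trivial, Set.mem_biUnion a ⟨_, _, b⟩⟩
  · rintro p ⟨α, a, b⟩
    rw [b.image]
    exact h2 _ a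
  · ext w'
    simp only [Set.mem_ofPred_eq]
    constructor
    · rintro ⟨w, ⟨s, hs, hg⟩, q, hq, hr⟩
      obtain ⟨α', a, b⟩ := lift_A hg hr
      cases a with
      | nt a => cases a; exact ⟨(q₀, s, q), ⟨rfl, hs, hq⟩, b⟩
    · rintro ⟨⟨p, s, q⟩, ⟨rfl, hs, hq⟩, hg⟩
      obtain ⟨w, a, b⟩ := lift_B hg (Lift.nt (Lift.nil _))
      exact ⟨w, ⟨s, hs, a⟩, q, hq, b⟩

end trans

theorem Gen.restrict {P : Rules N} (Γ : Set ℕ) {α w} (hg : Gen P α w) : (∀ x ∈ w, x ∈ Γ) →
    (∀ x, Symbol.terminal x ∈ α → x ∈ Γ) ∧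
      Gen {p ∈ P | ∀ x, Symbol.terminal x ∈ p.2 → x ∈ Γ} α w := by
  induction hg with
  | nil => exact fun _ => ⟨by simp, Gen.nil⟩
  | ter _ ih =>
    intro h
    obtain ⟨a, b⟩ := ih fun x hx => h x (List.mem_cons_of_mem _ hx)
    refine ⟨fun x hx => ?_, Gen.ter b⟩
    rcases List.mem_cons.1 hx with e | hx
    · cases e; exact h _ List.mem_cons_self
    · exact a x hx
  | nt hp _ _ ih1 ih2 =>
    intro h
    obtain ⟨a, b⟩ := ih1 fun x hx => h x (List.mem_append_left _ hx)
    obtain ⟨c, d⟩ := ih2 fun x hx => h x (List.mem_append_right _ hx)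
    refine ⟨fun x hx => ?_, Gen.nt ⟨hp, a⟩ b d⟩
    rcases List.mem_cons.1 hx with e | hx
    · cases e
    · exact c x hx

theorem Gen.mono {P P' : Rules N} (h : P ⊆ P') {α w} (hg : Gen P α w) : Gen P' α w := by
  induction hg with
  | nil => exact Gen.nil
  | ter _ ih => exact Gen.ter ih
  | nt hp _ _ ih1 ih2 => exact Gen.nt (h hp) ih1 ih2

theorem map_smap_congr {h h' : ℕ → ℕ} (f : N → N') {α : List (Symbol ℕ N)}
    (e : ∀ x, Symbol.terminal x ∈ α → h x = h' x) : α.map (smap h f) = α.map (smap h' f) := by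
  refine List.map_congr_left fun s hs => ?_
  cases s with
  | terminal x => exact congrArg Symbol.terminal (e x hs)
  | nonterminal x => rfl

theorem rulesOf_finite (g : ContextFreeGrammar ℕ) : (rulesOf g).Finite :=
  g.rules.finite_toSet.preimage (f := fun p : g.NT × List (Symbol ℕ g.NT) =>
    (⟨p.1, p.2⟩ : ContextFreeRule ℕ g.NT)) fun _ _ _ _ e => by
      simp only [ContextFreeRule.mk.injEq] at e; exact Prod.ext e.1 e.2

theorem fam_colour {H : Gr} (hT : H.T.Nonempty) {L : Language ℕ} (hL : L ∈ Fam H) :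
    ∃ h : ℕ → H.T, ∀ b : H.T,
      Un (rulesOf H.g) H.g.initial b {w | w ∈ L ∧ ∀ x ∈ w, h x = b} := by
  obtain ⟨G', ⟨w1, w2⟩, ⟨f, h, -, h2, h3, h4⟩, rfl⟩ := hL
  obtain ⟨b₀, hb₀⟩ := hT
  let c : ℕ → H.T := fun x => if hx : h x ∈ H.T then ⟨h x, hx⟩ else ⟨b₀, hb₀⟩
  refine ⟨c, fun b => ⟨G'.g.NT, w1, {p ∈ rulesOf G'.g | ∀ x, Symbol.terminal x ∈ p.2 → c x = b},
    f, {G'.g.initial}, (rulesOf_finite _).subset fun _ hp => hp.1, ?_, ?_, ?_⟩⟩
  · rintro p ⟨hp, hc⟩
    have := h4 _ hp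
    rw [map_smap_congr (h' := fun _ => b)] at this
    · exact this
    · intro x hx
      have hx' : h x ∈ H.T := h2 ▸ Finset.mem_image_of_mem h ((w2 _ hp).2 x hx)
      have := hc x hx
      simp only [c, dif_pos hx'] at this
      exact congrArg Subtype.val this
  · rintro s rfl; exact h3
  · ext w
    simp only [Set.mem_ofPred_eq, mem_lang, Set.mem_singleton_iff, exists_eq_left]
    constructor
    · rintro ⟨a, b'⟩
      exact (a.restrict {x | c x = b} b').2
    · intro hg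
      exact ⟨hg.mono fun _ hp => hp.1, hg.letters (Γ := {x | c x = b}) (fun p hp => hp.2) (by simp)⟩

theorem fam_restr (H : Gr) (a : ℕ) : Fam (restr H a) ⊆ Fam H := by
  rintro L ⟨G', w, ⟨f, h, h1, h2, h3, h4⟩, rfl⟩
  classical
  exact ⟨G', w, ⟨f, h, h1, h2, h3, fun r hr => (Finset.mem_filter.1 (h4 r hr)).1⟩, rfl⟩

theorem fam_of_un {H : Gr} (hH : WF H) {a : ℕ} (ha : a ∈ H.T) {L : Set (List ℕ)}
    (h : Un (rulesOf H.g) H.g.initial a L) : L ∈ Fam (restr H a) := by
  classical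
  obtain ⟨N, _, P, f, I, h1, h2, h3, rfl⟩ := h
  obtain ⟨M, hM⟩ := exists_bound h1
  have := hH.1
  let φ : N → Option N ⊕ H.g.NT := fun n => .inl (some n)
  let P' : Rules (Option N ⊕ H.g.NT) :=
    (fun p : N × List (Symbol ℕ N) => (φ p.1, p.2.map (smap id φ))) '' P ∪
      (fun p : N × List (Symbol ℕ N) => (.inl none, p.2.map (smap id φ))) '' {p ∈ P | p.1 ∈ I}
  have hP' : P'.Finite := (h1.image _).union ((h1.subset fun _ hp => hp.1).image _)
  let g' : ContextFreeGrammar ℕ := ⟨Option N ⊕ H.g.NT, .inl none,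
    hP'.toFinset.image fun p => ⟨p.1, p.2⟩⟩
  have hr : rulesOf g' = P' := by
    ext p
    simp only [rulesOf, g', Finset.mem_image, Set.Finite.mem_toFinset, Set.mem_ofPred_eq,
      ContextFreeRule.mk.injEq]
    exact ⟨fun ⟨q, hq, e1, e2⟩ => (Prod.ext e1 e2 : q = p) ▸ hq, fun hp => ⟨p, hp, rfl, rfl⟩⟩
  let f' : Option N ⊕ H.g.NT → H.g.NT := Sum.elim (fun o => o.elim H.g.initial f) id
  have hmem : ∀ r ∈ g'.rules, ∃ p ∈ P, f' r.input = f p.1 ∧ r.output = p.2.map (smap id φ) := by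
    intro r hr'
    have : (r.input, r.output) ∈ rulesOf g' := hr'
    rw [hr] at this
    rcases this with ⟨p, hp, e⟩ | ⟨p, hp, e⟩ <;> simp only [Prod.mk.injEq] at e
    · exact ⟨p, hp, by rw [← e.1]; rfl, e.2.symm⟩
    · exact ⟨p, hp.1, by rw [← e.1, h3 _ hp.2]; rfl, e.2.symm⟩
  have hter : ∀ (α : List (Symbol ℕ N)) x, Symbol.terminal x ∈ α.map (smap id φ) →
      Symbol.terminal x ∈ α := by
    intro α x hx
    obtain ⟨s, hs, e⟩ := List.mem_map.1 hx
    cases s with
    | terminal y => cases e; exact hs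
    | nonterminal y => cases e
  refine ⟨⟨g', Finset.range M ∪ H.T.image (M + ·)⟩, ⟨inferInstanceAs (Finite (Option N ⊕ H.g.NT)),
    fun r hr' => ?_⟩, ⟨f', fun x => if M ≤ x then x - M else a, fun n => ⟨.inr n, rfl⟩, ?_, rfl,
    fun r hr' => ?_⟩, ?_⟩
  · obtain ⟨p, hp, -, e⟩ := hmem r hr'
    rw [e]
    refine ⟨fun h0 => (hH.2 _ (h2 p hp)).1 ?_, fun x hx => ?_⟩
    · simp [List.map_eq_nil_iff.1 h0]
    · exact Finset.mem_union_left _ (Finset.mem_range.2 (hM p hp x (hter _ _ hx)))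
  · ext y
    simp only [Finset.mem_image, Finset.mem_union, Finset.mem_range, restr]
    constructor
    · rintro ⟨x, hx | ⟨z, hz, rfl⟩, rfl⟩
      · rwa [if_neg (by omega)]
      · simpa using hz
    · intro hy
      exact ⟨M + y, Or.inr ⟨y, hy, rfl⟩, by simp⟩
  · obtain ⟨p, hp, e1, e2⟩ := hmem r hr'
    have e3 : r.output.map (smap (fun x => if M ≤ x then x - M else a) f') =
        p.2.map (smap (fun _ => a) f) := by
      rw [e2, List.map_map, show smap (fun x => if M ≤ x then x - M else a) f' ∘ smap id φ =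
        smap (fun x => if M ≤ x then x - M else a) f from funext fun s => smap_smap _ _ _ _ s]
      exact map_smap_congr f fun x hx => if_neg (by have := hM p hp x hx; omega)
    have e4 : ∀ (A : H.g.NT) (β : List (Symbol ℕ H.g.NT)), A = f p.1 →
        β = p.2.map (smap (fun _ => a) f) →
        (⟨A, β⟩ : ContextFreeRule ℕ H.g.NT) ∈ (restr H a).g.rules := by
      rintro _ _ rfl rfl
      refine Finset.mem_filter.2 ⟨h2 p hp, fun x hx => ?_⟩
      obtain ⟨s, -, e⟩ := List.mem_map.1 hx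
      cases s with
      | terminal y => cases e; rfl
      | nonterminal y => cases e
    exact e4 _ _ e1 e3
  · have key : ∀ α w, Gen P' (α.map (smap id φ)) w ↔ Gen P α w := by
      refine gen_map φ fun A β' => ?_
      constructor
      · rintro (⟨⟨B, β⟩, hp, e⟩ | ⟨p, hp, e⟩)
        · cases e; exact ⟨β, hp, rfl⟩
        · cases e
      · rintro ⟨β, hb, rfl⟩
        exact Or.inl ⟨(A, β), hb, rfl⟩
    ext w
    change _ ↔ w ∈ g'.language
    rw [mem_lang, hr, gen_one]
    simp only [Set.mem_ofPred_eq, gen_one]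
    constructor
    · rintro ⟨s, hs, β, hb, hg⟩
      exact ⟨_, Or.inr ⟨(s, β), ⟨hb, hs⟩, rfl⟩, (key _ _).2 hg⟩
    · rintro ⟨β', ⟨p, hp, e⟩ | ⟨p, hp, e⟩, hg⟩
      · cases e
      · cases e
        exact ⟨p.1, hp.2, p.2, hp.1, (key _ _).1 hg⟩

/-- mark the first letter -/
def mark (c : ℕ → Bool → ℕ) : List ℕ → List ℕ
  | [] => []
  | x :: w => c x true :: w.map (c · false)

def encδ (c : ℕ → Bool → ℕ) (M : ℕ) : Set (Bool × ℕ × ℕ × Bool) :=
  (fun p : Bool × ℕ => (p.1, p.2, c p.2 p.1, false)) '' {p | p.2 < M}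

theorem enc_tail {c : ℕ → Bool → ℕ} {M : ℕ} {w : List ℕ} (hw : ∀ x ∈ w, x < M) :
    ∀ w' q, Run (encδ c M) false w w' q ↔ w' = w.map (c · false) ∧ q = false := by
  induction w with
  | nil =>
    intro w' q
    exact ⟨fun h => by cases h; exact ⟨rfl, rfl⟩, fun ⟨h1, h2⟩ => h1 ▸ h2 ▸ Run.nil _⟩
  | cons x w ih =>
    intro w' q
    have ih := ih fun y hy => hw y (List.mem_cons_of_mem _ hy)
    constructor
    · intro h
      cases h with
      | cons h1 h2 =>
        obtain ⟨⟨t, y⟩, -, e⟩ := h1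
        cases e
        obtain ⟨rfl, rfl⟩ := (ih _ _).1 h2
        exact ⟨rfl, rfl⟩
    · rintro ⟨rfl, rfl⟩
      exact Run.cons ⟨(false, x), hw x List.mem_cons_self, rfl⟩ ((ih _ _).2 ⟨rfl, rfl⟩)

theorem Un.enc {P₀ : Rules N₀} {S : N₀} {a : ℕ} {L : Set (List ℕ)} (h : Un P₀ S a L)
    (c : ℕ → Bool → ℕ) : Un P₀ S a (mark c '' L) := by
  obtain ⟨M, hM⟩ := h.bound
  have hf : (encδ c M).Finite := by
    refine Set.Finite.image _ ?_
    exact ((Set.finite_univ (α := Bool)).prod (Set.finite_lt_nat M)).subset fun p hp => ⟨trivial, hp⟩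
  have := h.trans hf true Set.univ
  refine (Set.ext fun w' => ?_ : _ = mark c '' L) ▸ this
  constructor
  · rintro ⟨w, hw, q, -, hr⟩
    refine ⟨w, hw, ?_⟩
    cases hr with
    | nil => rfl
    | cons h1 h2 =>
      obtain ⟨⟨t, y⟩, -, e⟩ := h1
      cases e
      obtain ⟨rfl, -⟩ := (enc_tail (fun y hy => hM _ hw y (List.mem_cons_of_mem _ hy)) _ _).1 h2
      rfl
  · rintro ⟨w, hw, rfl⟩
    cases w with
    | nil => exact ⟨[], hw, true, trivial, Run.nil _⟩
    | cons x w =>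
      exact ⟨_, hw, false, trivial, Run.cons ⟨(true, x), hM _ hw x List.mem_cons_self, rfl⟩
        ((enc_tail (fun y hy => hM _ hw y (List.mem_cons_of_mem _ hy)) _ _).2 ⟨rfl, rfl⟩)⟩

def decδ (c : ℕ → Bool → ℕ) (M : ℕ) (L : Set (List ℕ)) :
    Set (Option Prop × ℕ × ℕ × Option Prop) :=
  (fun x : ℕ => (none, c x true, x, some ([x] ∈ L))) '' {x | x < M} ∪
    (fun p : Prop × ℕ => (some p.1, c p.2 false, p.2, some True)) '' {p | p.2 < M}

theorem dec_tail {c : ℕ → Bool → ℕ} {M : ℕ} {L : Set (List ℕ)} {w : List ℕ} :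
    ∀ t u q, Run (decδ c M L) (some t) u w q ↔
      u = w.map (c · false) ∧ (∀ x ∈ w, x < M) ∧ q = some (w = [] → t) := by
  induction w with
  | nil =>
    intro t u q
    constructor
    · intro h; cases h; simp
    · rintro ⟨rfl, -, rfl⟩
      simpa using Run.nil _
  | cons x w ih =>
    intro t u q
    constructor
    · intro h
      cases h with
      | cons h1 h2 =>
        rcases h1 with ⟨y, -, e⟩ | ⟨⟨t, y⟩, hy, e⟩
        · cases e
        · cases e
          obtain ⟨rfl, b, rfl⟩ := (ih _ _ _).1 h2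
          refine ⟨rfl, ?_, by simp⟩
          intro z hz
          rcases List.mem_cons.1 hz with rfl | hz
          · exact hy
          · exact b z hz
    · rintro ⟨rfl, b, rfl⟩
      exact Run.cons (Or.inr ⟨(t, x), b x List.mem_cons_self, rfl⟩)
        ((ih _ _ _).2 ⟨rfl, fun y hy => b y (List.mem_cons_of_mem _ hy), by simp⟩)

theorem Un.dec {P₀ : Rules N₀} {S : N₀} {a : ℕ} {L K : Set (List ℕ)} (h : Un P₀ S a K)
    (c : ℕ → Bool → ℕ) {M : ℕ} (hM : ∀ w ∈ L, ∀ x ∈ w, x < M) (h1 : ∀ w ∈ L, mark c w ∈ K)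
    (h2 : ∀ x y w, (∀ z ∈ x :: y :: w, z < M) → mark c (x :: y :: w) ∈ K → x :: y :: w ∈ L) :
    Un P₀ S a L := by
  have hf : (decδ c M L).Finite := by
    refine ((Set.finite_lt_nat M).image _).union (Set.Finite.image _ ?_)
    exact ((Set.finite_univ (α := Prop)).prod (Set.finite_lt_nat M)).subset fun p hp => ⟨trivial, hp⟩
  have := h.trans hf none {q | q = some True ∨ (q = none ∧ [] ∈ L)}
  refine (Set.ext fun w => ?_ : _ = L) ▸ this
  constructor
  · rintro ⟨u, hu, q, hq, hr⟩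
    cases hr with
    | nil =>
      rcases hq with hq | hq
      · cases hq
      · exact hq.2
    | cons h3 h4 =>
      rcases h3 with ⟨x, hx, e⟩ | ⟨p, -, e⟩
      · cases e
        obtain ⟨rfl, b, rfl⟩ := (dec_tail _ _ _).1 h4
        rename_i w
        cases w with
        | nil =>
          rcases hq with hq | hq
          · simpa using hq
          · cases hq.1
        | cons y w =>
          refine h2 _ _ _ (fun z hz => ?_) hu
          rcases List.mem_cons.1 hz with rfl | hz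
          · exact hx
          · exact b z hz
      · cases e
  · intro hw
    refine ⟨mark c w, h1 w hw, ?_⟩
    cases w with
    | nil => exact ⟨none, Or.inr ⟨rfl, hw⟩, Run.nil _⟩
    | cons x w =>
      refine ⟨some True, Or.inl rfl, Run.cons (Or.inl ⟨x, hM _ hw x List.mem_cons_self, rfl⟩)
        ((dec_tail _ _ _).2 ⟨rfl, fun y hy => hM _ hw y (List.mem_cons_of_mem _ hy), ?_⟩)⟩
      refine congrArg some (propext ⟨fun _ h => h ▸ hw, fun _ => trivial⟩)

theorem line_eq {α ι : Type} {l m : Combinatorics.Line α ι} {p q p' q' : α} (hne : p' ≠ q')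
    (h1 : l p = m p') (h2 : l q = m q') : l = m := by
  have e1 := fun i => congrFun h1 i
  have e2 := fun i => congrFun h2 i
  simp only [Combinatorics.Line.coe_apply] at e1 e2
  obtain ⟨i₀, hi₀⟩ := m.proper
  have hpq : p = p' ∧ q = q' := by
    have a := e1 i₀
    have b := e2 i₀
    rw [hi₀] at a b
    cases hl : l.idxFun i₀ with
    | none => rw [hl] at a b; exact ⟨a, b⟩
    | some y => rw [hl] at a b; exact absurd (a.symm.trans b) hne
  obtain ⟨rfl, rfl⟩ := hpq
  have : l.idxFun = m.idxFun := by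
    funext i
    have a := e1 i
    have b := e2 i
    cases hl : l.idxFun i <;> cases hm : m.idxFun i <;> rw [hl, hm] at a b
    · exact absurd (a.trans b.symm) hne
    · exact absurd (a.symm.trans b) hne
    · exact congrArg some a
  cases l; cases m; cases this; rfl

theorem line_inj {α ι : Type} (l : Combinatorics.Line α ι) {p q : α} (h : l p = l q) : p = q := by
  obtain ⟨i, hi⟩ := l.proper
  simpa [hi] using congrFun h i

theorem map_eq_of {f : ℕ → ℕ} {M : ℕ} (hf : ∀ z z', z < M → z' < M → f z = f z' → z = z')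
    (u : List ℕ) : ∀ v : List ℕ, (∀ z ∈ u, z < M) → (∀ z ∈ v, z < M) → u.map f = v.map f → u = v := by
  induction u with
  | nil => intro v _ _ h; exact (List.map_eq_nil_iff.1 h.symm).symm
  | cons x u ih =>
    intro v h1 h2 h
    cases v with
    | nil => cases h
    | cons y v =>
      simp only [List.map_cons, List.cons.injEq] at h
      rw [hf x y (h1 _ (by simp)) (h2 _ (by simp)) h.1,
        ih v (fun z hz => h1 z (by simp [hz])) (fun z hz => h2 z (by simp [hz])) h.2]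

theorem main {G : Gr} (hG : WF G) (hu : G.T.card = 1) : UnaryComplete (Fam G) := by
  intro H hH hc hF
  obtain ⟨a, ha⟩ := Finset.card_eq_one.1 hu
  have haT : a ∈ G.T := by simp [ha]
  have hHT : H.T.Nonempty := Finset.card_pos.1 (by omega)
  have toUn : ∀ L ∈ Fam G, Un (rulesOf G.g) G.g.initial a L := by
    intro L hL
    obtain ⟨h, hh⟩ := fam_colour ⟨a, haT⟩ hL
    have := hh ⟨a, haT⟩
    have e : {w | w ∈ L ∧ ∀ x ∈ w, h x = ⟨a, haT⟩} = L := by
      refine Set.ext fun w => ⟨fun h => h.1, fun hw => ⟨hw, fun x _ => Subtype.ext ?_⟩⟩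
      exact Finset.mem_singleton.1 (ha ▸ (h x).2)
    rwa [e] at this
  by_contra hcon
  push Not at hcon
  have : ∀ b : H.T, ∃ L, Un (rulesOf G.g) G.g.initial a L ∧
      ¬ Un (rulesOf H.g) H.g.initial b L := by
    intro b
    by_contra h
    push Not at h
    refine hcon b b.2 (Set.Subset.antisymm (hF ▸ fam_restr H b) fun L hL => ?_)
    exact fam_of_un hH b.2 (h L (toUn L hL))
  choose L hL1 hL2 using this
  choose M hM using fun b => (hL1 b).bound
  obtain ⟨M', hM'⟩ := (Set.finite_range M).bddAbove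
  have hM2 : ∀ b, ∀ w ∈ L b, ∀ x ∈ w, x < M' + 1 := fun b w hw x hx =>
    Nat.lt_succ_of_le ((hM b w hw x hx).le.trans (hM' ⟨b, rfl⟩))
  obtain ⟨ι, _, hι⟩ := Combinatorics.Line.exists_mono_in_high_dimension
    (H.T × Fin (M' + 1) × Bool) H.T
  obtain ⟨e, he⟩ := exists_injective_nat (ι → H.T × Fin (M' + 1) × Bool)
  have : Finite (Combinatorics.Line (H.T × Fin (M' + 1) × Bool) ι) :=
    Finite.of_injective (fun l => l.idxFun) fun l m h => by cases l; cases m; cases h; rfl
  let c : Combinatorics.Line (H.T × Fin (M' + 1) × Bool) ι → H.T → ℕ → Bool → ℕ :=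
    fun l b x t => e (l (b, Fin.ofNat _ x, t))
  have hstar : (⋃ i : Combinatorics.Line (H.T × Fin (M' + 1) × Bool) ι × H.T,
      mark (c i.1 i.2) '' L i.2) ∈ Fam H :=
    hF ▸ fam_restr G a (fam_of_un hG haT (Un.iUnion fun i => (hL1 i.2).enc _))
  obtain ⟨col, hcol⟩ := fam_colour hHT hstar
  obtain ⟨l, b, hl⟩ := hι fun v => col (e v)
  refine hL2 b ((hcol b).dec (c l b) (hM2 b) (fun w hw => ⟨Set.mem_iUnion.2 ⟨(l, b), w, hw, rfl⟩,
    fun x hx => ?_⟩) ?_)
  · cases w with
    | nil => cases hx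
    | cons y w =>
      rcases List.mem_cons.1 hx with rfl | hx
      · exact hl _
      · obtain ⟨z, -, rfl⟩ := List.mem_map.1 hx
        exact hl _
  · rintro x y w hb ⟨h1, -⟩
    obtain ⟨⟨m, b'⟩, w', hw', e1⟩ := Set.mem_iUnion.1 h1
    have hfin : ∀ {z z' : ℕ}, z < M' + 1 → z' < M' + 1 →
        Fin.ofNat (M' + 1) z = Fin.ofNat (M' + 1) z' → z = z' := by
      intro z z' h1 h2 h
      have := congrArg Fin.val h
      simpa [Fin.ofNat, Nat.mod_eq_of_lt h1, Nat.mod_eq_of_lt h2] using this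
    rcases w' with _ | ⟨x', _ | ⟨y', w'⟩⟩
    · cases e1
    · simp [mark] at e1
    simp only [mark, List.map_cons, List.cons.injEq] at e1
    obtain ⟨a1, a2, a3⟩ := e1
    obtain rfl : m = l := line_eq (by simp) (he a1) (he a2)
    have b1 := line_inj m (he a1)
    have b2 := line_inj m (he a2)
    simp only [Prod.mk.injEq] at b1 b2
    obtain ⟨rfl, b1, -⟩ := b1
    have hb' := hM2 _ _ hw'
    obtain rfl := hfin (hb' _ (by simp)) (hb _ (by simp)) b1
    obtain rfl := hfin (hb' _ (by simp)) (hb _ (by simp)) b2.2.1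
    have : w' = w := by
      refine map_eq_of (M := M' + 1) (fun z z' h1 h2 h => ?_) _ _
        (fun z hz => hb' z (by simp [hz])) (fun z hz => hb z (by simp [hz])) a3
      have := line_inj m (he h)
      simp only [Prod.mk.injEq] at this
      exact hfin h1 h2 this.2.1
    exact this ▸ hw'

end Pool.Agent.H22.GForm
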