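import Mathlib

/-! Unfolding over the integers and a Bessel bound for Gabor coefficients. -/

namespace Pool.Agent.H22.Gab

open MeasureTheory Set Filter Topology Complex
open scoped Real

lemma summ {c : ℝ} (hc : 0 < c) : Summable fun i : ℤ => Real.exp (-c * |(i : ℝ)|) := by
  have h : Summable fun n : ℕ => Real.exp (n * (-c)) :=
    Real.summable_exp_nat_mul_iff.mpr (by linarith)
  refine Summable.of_nat_of_neg ?_ ?_ <;>
  · refine h.congr fun n => ?_
    simp [mul_comm]

lemma integ {c : ℝ} (hc : 0 < c) : Integrable fun s : ℝ => Real.exp (-c * |s|) := by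
  have h1 : IntegrableOn (fun s : ℝ => Real.exp (-c * |s|)) (Ioi 0) := by
    refine (exp_neg_integrableOn_Ioi 0 hc).congr_fun (fun s hs => ?_) measurableSet_Ioi
    simp only [abs_of_pos (show (0 : ℝ) < s from hs)]
  have h2 : IntegrableOn (fun s : ℝ => Real.exp (-c * |s|)) (Iic 0) := by
    rw [← Measure.map_neg_eq_self (volume : Measure ℝ)]
    have m : MeasurableEmbedding fun x : ℝ => -x := (Homeomorph.neg ℝ).measurableEmbedding
    rw [m.integrableOn_map_iff]
    simp_rw [Function.comp_def, abs_neg, neg_preimage, neg_Iic, neg_zero]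
    exact Iff.mpr integrableOn_Ici_iff_integrableOn_Ioi h1
  rw [← integrableOn_univ, ← Iic_union_Ioi (a := (0 : ℝ))]
  exact h2.union h1

lemma unfold {F : ℝ → ℂ} (hF : Integrable F) :
    ∫ s, F s = ∫ s in Ioc (0 : ℝ) 1, ∑' k : ℤ, F (s + k) := by
  rw [← hF.hasSum_intervalIntegral_comp_add_int.tsum_eq]
  simp_rw [intervalIntegral.integral_of_le zero_le_one]
  refine integral_tsum_of_summable_integral_norm
    (fun k => (hF.comp_add_right (k : ℝ)).integrableOn) ?_
  have := hF.norm.hasSum_intervalIntegral_comp_add_int.summable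
  simpa only [intervalIntegral.integral_of_le zero_le_one] using this

lemma int_ind {δ : ℝ} (h0 : 0 ≤ δ) (h1 : δ ≤ 1) (c : ℝ) :
    ∫ s in Ioc (0 : ℝ) 1, (if s < δ then c else 0) = δ * c := by
  have : (fun s : ℝ => if s < δ then c else 0) = (Iio δ).indicator fun _ => c := by
    ext s; simp [indicator]
  rw [this, setIntegral_indicator measurableSet_Iio, setIntegral_const]
  have e : Ioc (0 : ℝ) 1 ∩ Iio δ = Ioo 0 δ := by
    ext s; simp only [mem_inter_iff, mem_Ioc, mem_Iio, mem_Ioo]
    constructor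
    · rintro ⟨⟨a, _⟩, b⟩; exact ⟨a, b⟩
    · rintro ⟨a, b⟩; exact ⟨⟨a, by linarith⟩, b⟩
  rw [e]; simp [h0]

lemma bessel {F : ℝ → ℂ} (hm : Measurable F) (hF : Integrable F) {δ η : ℝ} (h0 : 0 ≤ δ)
    (h1 : δ ≤ 1) (hη : 0 ≤ η)
    (hb : ∀ s ∈ Ioo (0 : ℝ) 1, ‖∑' k : ℤ, F (s + k)‖ ≤ if s < δ then η else 0) :
    ∑' l : ℤ, ENNReal.ofReal (‖∫ s : ℝ, cexp (-(2 * π * I * l * s)) * F s‖ ^ 2) ≤
      ENNReal.ofReal (δ * η ^ 2) := by
  set G : ℝ → ℂ := fun s => ∑' k : ℤ, F (s + k) with hG
  have Gm : Measurable G := Measurable.tsum fun k => hm.comp (measurable_add_const _)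
  have hae : ∀ᵐ s ∂(volume.restrict (Ioc (0 : ℝ) 1)), s ∈ Ioo (0 : ℝ) 1 := by
    rw [← Measure.restrict_congr_set Ioo_ae_eq_Ioc]
    exact ae_restrict_mem measurableSet_Ioo
  have hL : MemLp G 2 (volume.restrict (Ioc (0 : ℝ) 1)) := by
    refine MemLp.of_bound Gm.aestronglyMeasurable η ?_
    filter_upwards [hae] with s hs
    refine (hb s hs).trans ?_
    split_ifs
    · exact le_rfl
    · exact hη
  have hs := hasSum_sq_fourierCoeffOn (zero_lt_one' ℝ) hL
  have hc : ∀ l : ℤ, ∫ s : ℝ, cexp (-(2 * π * I * l * s)) * F s =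
      fourierCoeffOn (zero_lt_one' ℝ) G l := by
    intro l
    have hi : Integrable fun s : ℝ => cexp (-(2 * π * I * l * s)) * F s := by
      refine hF.bdd_mul (c := 1) (by fun_prop) (Eventually.of_forall fun s => ?_)
      have : -(2 * π * I * l * s : ℂ) = ((-(2 * π * l * s) : ℝ) : ℂ) * I := by push_cast; ring
      rw [this, norm_exp_ofReal_mul_I]
    rw [unfold hi, fourierCoeffOn_eq_integral, intervalIntegral.integral_of_le zero_le_one]
    simp only [sub_zero, div_one, one_smul]
    refine setIntegral_congr_fun measurableSet_Ioc fun s _ => ?_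
    simp only [fourier_coe_apply, smul_eq_mul, hG]
    rw [← tsum_mul_left]
    refine tsum_congr fun k => ?_
    congr 1
    have : cexp (((-(l * k) : ℤ) : ℂ) * (2 * π * I)) = 1 := exp_int_mul_two_pi_mul_I _
    rw [← mul_one (cexp (2 * π * I * _ * _ / _)), ← this, ← Complex.exp_add]
    congr 1
    push_cast; ring
  simp_rw [hc]
  rw [← ENNReal.ofReal_tsum_of_nonneg (fun _ => by positivity) hs.summable, hs.tsum_eq]
  refine ENNReal.ofReal_le_ofReal ?_
  simp only [sub_zero, inv_one, one_smul]
  rw [intervalIntegral.integral_of_le zero_le_one, ← int_ind h0 h1]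
  refine integral_mono_of_nonneg (Eventually.of_forall fun s => by positivity) ?_ ?_
  · refine (integrable_const (η ^ 2)).mono' ?_ (Eventually.of_forall fun s => ?_)
    · exact (Measurable.ite measurableSet_Iio measurable_const
        measurable_const).aestronglyMeasurable
    · split_ifs
      · simp
      · simp; positivity
  · filter_upwards [hae] with s hs
    have := hb s hs
    split_ifs at this ⊢
    · exact pow_le_pow_left₀ (norm_nonneg _) this 2
    · have h2 : ‖G s‖ = 0 := le_antisymm this (norm_nonneg _)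
      simp [h2]

end Pool.Agent.H22.Gab
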