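import Pool.Agent.H22.Gab1

/-! Zeros of the Zak transform destroy the lower frame bound. -/

namespace Pool.Agent.H22.Gab

open MeasureTheory Set Filter Topology Complex
open scoped Real

noncomputable def chi (a ω : ℝ) (i : ℤ) : ℂ := cexp (-(2 * π * I * a * ω * i))

lemma norm_chi (a ω : ℝ) (i : ℤ) : ‖chi a ω i‖ = 1 := by
  have : -(2 * π * I * a * ω * i : ℂ) = ((-(2 * π * a * ω * i) : ℝ) : ℂ) * I := by
    push_cast; ring
  rw [chi, this, norm_exp_ofReal_mul_I]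

lemma chi_add (a ω : ℝ) (i j : ℤ) : chi a ω (i + j) = chi a ω i * chi a ω j := by
  simp only [chi, ← Complex.exp_add]; congr 1; push_cast; ring

lemma exp_diff {ρ : ℝ} (hρ : 0 ≤ ρ) (u v : ℝ) :
    |Real.exp (-ρ * |u + v|) - Real.exp (-ρ * |v|)| ≤
      Real.exp (-ρ * |v|) * (Real.exp (ρ * |u|) - 1) := by
  have h1 : |u + v| ≤ |u| + |v| := abs_add_le u v
  have h2 : |v| ≤ |u + v| + |u| := by
    have := abs_sub (u + v) u
    simpa using this
  have hp := Real.exp_pos (-ρ * |v|)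
  rw [abs_le]
  constructor
  · have e1 : Real.exp (-ρ * |v|) * Real.exp (-(ρ * |u|)) ≤ Real.exp (-ρ * |u + v|) := by
      rw [← Real.exp_add]; exact Real.exp_le_exp.mpr (by nlinarith)
    have e2 := Real.add_one_le_exp (-(ρ * |u|))
    have e3 := Real.add_one_le_exp (ρ * |u|)
    nlinarith
  · have e1 : Real.exp (-ρ * |u + v|) ≤ Real.exp (-ρ * |v|) * Real.exp (ρ * |u|) := by
      rw [← Real.exp_add]; exact Real.exp_le_exp.mpr (by nlinarith)
    linarith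

lemma decay {g : ℝ → ℝ} {C : ℝ} (hC : ∀ t, |g t| ≤ C * Real.exp (-|t|)) {a : ℝ} (ha : 2 ≤ a)
    {U u : ℝ} (hu : |u| ≤ U) (i : ℤ) :
    |g (u + a * i)| ≤ C * Real.exp U * Real.exp (-a * |(i : ℝ)|) := by
  have hC0 : 0 ≤ C := by
    have := (abs_nonneg _).trans (hC 0)
    simpa using this
  refine (hC _).trans ?_
  rw [mul_assoc, ← Real.exp_add]
  refine mul_le_mul_of_nonneg_left (Real.exp_le_exp.mpr ?_) hC0
  have h1 : |a * i| ≤ |u + a * i| + |u| := by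
    have := abs_sub (u + a * i) u
    simpa using this
  rw [abs_mul, abs_of_pos (by linarith : (0 : ℝ) < a)] at h1
  linarith

lemma point {g : ℝ → ℝ} (hg : Continuous g) {C : ℝ} (hC : ∀ t, |g t| ≤ C * Real.exp (-|t|))
    {a : ℝ} (ha : 2 ≤ a) (x ω : ℝ) (hz : ∑' i : ℤ, chi a ω i * (g (a * i - x) : ℂ) = 0)
    {ε : ℝ} (hε : 0 < ε) :
    ∀ᶠ ρ in 𝓝[>] (0 : ℝ), ∀ s ∈ Icc 0 ρ, ∀ j : ℤ,
      ‖∑' k : ℤ, (Real.exp (-ρ * |(k : ℝ)|) : ℂ) * chi a ω k * (g (a * (s + k) - x - a * j) : ℂ)‖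
        ≤ Real.exp (-ρ * |(j : ℝ)|) * ε := by
  set K := C * Real.exp (a + |x|) with hK
  have hb : ∀ s ∈ Icc (0 : ℝ) 1, ∀ i : ℤ,
      |g (a * s - x + a * i)| ≤ K * Real.exp (-a * |(i : ℝ)|) := by
    intro s hs i
    refine decay hC ha ?_ i
    refine (abs_sub _ _).trans ?_
    rw [abs_of_nonneg (by nlinarith [hs.1])]
    nlinarith [hs.2]
  have hK0 : 0 ≤ K := by
    have := (abs_nonneg _).trans (hb 0 ⟨le_rfl, zero_le_one⟩ 0)
    simpa using this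
  have hb1 : ∀ r ∈ Icc (0 : ℝ) 1, ∀ s ∈ Icc (0 : ℝ) 1, ∀ i : ℤ,
      ‖(Real.exp (r * |(i : ℝ)|) - 1) * |g (a * s - x + a * i)|‖ ≤
        K * Real.exp (-1 * |(i : ℝ)|) := by
    intro r hr s hs i
    have h0 : 0 ≤ |(i : ℝ)| := abs_nonneg _
    have h1 : 1 ≤ Real.exp (r * |(i : ℝ)|) := Real.one_le_exp (by nlinarith [hr.1])
    rw [Real.norm_eq_abs, abs_of_nonneg (mul_nonneg (by linarith) (abs_nonneg _))]
    calc _ ≤ Real.exp (r * |(i : ℝ)|) * (K * Real.exp (-a * |(i : ℝ)|)) :=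
          mul_le_mul (by linarith) (hb s hs i) (abs_nonneg _) (by positivity)
      _ = K * Real.exp (r * |(i : ℝ)| + -a * |(i : ℝ)|) := by rw [Real.exp_add]; ring
      _ ≤ _ := mul_le_mul_of_nonneg_left (Real.exp_le_exp.mpr (by nlinarith [hr.2])) hK0
  have hb2 : ∀ s ∈ Icc (0 : ℝ) 1, ∀ i : ℤ,
      ‖chi a ω i * (g (a * s - x + a * i) : ℂ)‖ ≤ K * Real.exp (-a * |(i : ℝ)|) := by
    intro s hs i
    rw [norm_mul, norm_chi, one_mul, norm_real, Real.norm_eq_abs]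
    exact hb s hs i
  have s1 := (summ one_pos).mul_left K
  have s2 := (summ (by linarith : 0 < a)).mul_left K
  set W : ℝ × ℝ → ℝ := fun p =>
    ∑' i : ℤ, (Real.exp (p.1 * |(i : ℝ)|) - 1) * |g (a * p.2 - x + a * i)| +
      ‖∑' i : ℤ, chi a ω i * (g (a * p.2 - x + a * i) : ℂ)‖ with hW
  have Wc : ContinuousOn W (Icc 0 1 ×ˢ Icc 0 1) := by
    refine ContinuousOn.add ?_ (ContinuousOn.norm ?_)
    · exact continuousOn_tsum (fun i => by fun_prop) s1 fun i p hp => hb1 _ hp.1 _ hp.2 i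
    · exact continuousOn_tsum (fun i => by fun_prop) s2 fun i p hp => hb2 _ hp.2 i
  have W0 : W (0, 0) = 0 := by
    have : ∀ i : ℤ, a * 0 - x + a * i = a * i - x := fun i => by ring
    simp only [hW, this, hz]; simp
  obtain ⟨ρ0, hρ0, hW'⟩ := Metric.continuousWithinAt_iff.mp
    (Wc (0, 0) ⟨⟨le_rfl, zero_le_one⟩, le_rfl, zero_le_one⟩) ε hε
  filter_upwards [Ioo_mem_nhdsGT (lt_min hρ0 one_pos)] with ρ hρ s hs j
  have hρ1 : ρ ∈ Icc (0 : ℝ) 1 := ⟨hρ.1.le, (hρ.2.trans_le (min_le_right _ _)).le⟩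
  have hs1 : s ∈ Icc (0 : ℝ) 1 := ⟨hs.1, hs.2.trans hρ1.2⟩
  have hw : W (ρ, s) ≤ ε := by
    have := hW' (x := (ρ, s)) ⟨hρ1, hs1⟩ (by
      have h3 := hρ.2.trans_le (min_le_left _ _)
      rw [Prod.dist_eq]
      simp only [dist_zero_right, Real.norm_eq_abs, abs_of_nonneg hρ1.1, abs_of_nonneg hs.1]
      exact max_lt h3 (hs.2.trans_lt h3))
    rw [W0, Real.dist_eq, sub_zero] at this
    exact (le_abs_self _).trans this.le
  have t2 : Summable fun i : ℤ => chi a ω i * (g (a * s - x + a * i) : ℂ) :=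
    Summable.of_norm_bounded s2 (hb2 s hs1)
  have t1 : Summable fun i : ℤ => (Real.exp (ρ * |(i : ℝ)|) - 1) * |g (a * s - x + a * i)| :=
    Summable.of_norm_bounded s1 (hb1 ρ hρ1 s hs1)
  have hn : ∀ i : ℤ, ‖((Real.exp (-ρ * |(i : ℝ) + j|) - Real.exp (-ρ * |(j : ℝ)|) : ℝ) : ℂ) *
      (chi a ω i * (g (a * s - x + a * i) : ℂ))‖ ≤ Real.exp (-ρ * |(j : ℝ)|) *
        ((Real.exp (ρ * |(i : ℝ)|) - 1) * |g (a * s - x + a * i)|) := by
    intro i
    rw [norm_mul, norm_mul, norm_chi, one_mul, norm_real, norm_real, Real.norm_eq_abs,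
      Real.norm_eq_abs, ← mul_assoc]
    exact mul_le_mul_of_nonneg_right (exp_diff hρ1.1 _ _) (abs_nonneg _)
  have t3 := Summable.of_norm_bounded (t1.mul_left _) hn
  have key : ∑' k : ℤ, (Real.exp (-ρ * |(k : ℝ)|) : ℂ) * chi a ω k *
      (g (a * (s + k) - x - a * j) : ℂ) = chi a ω j *
      (∑' i : ℤ, ((Real.exp (-ρ * |(i : ℝ) + j|) - Real.exp (-ρ * |(j : ℝ)|) : ℝ) : ℂ) *
        (chi a ω i * (g (a * s - x + a * i) : ℂ)) +
      (Real.exp (-ρ * |(j : ℝ)|) : ℂ) * ∑' i : ℤ, chi a ω i * (g (a * s - x + a * i) : ℂ)) := by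
    rw [← tsum_mul_left, ← t3.tsum_add (t2.mul_left _), ← tsum_mul_left,
      ← (Equiv.addRight j).tsum_eq]
    refine tsum_congr fun i => ?_
    have : a * (s + ((i + j : ℤ) : ℝ)) - x - a * j = a * s - x + a * i := by push_cast; ring
    simp only [Equiv.coe_addRight, this, chi_add]
    push_cast; ring
  rw [key, norm_mul, norm_chi, one_mul]
  refine (norm_add_le _ _).trans ?_
  refine (add_le_add (tsum_of_norm_bounded (t1.mul_left _).hasSum hn) le_rfl).trans ?_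
  rw [tsum_mul_left, norm_mul, norm_real, Real.norm_eq_abs, abs_of_pos (Real.exp_pos _),
    ← mul_add]
  exact mul_le_mul_of_nonneg_left hw (Real.exp_pos _).le

noncomputable def phi (ρ s : ℝ) : ℝ :=
  if Int.fract s < ρ then Real.exp (-ρ * |(⌊s⌋ : ℝ)|) else 0

lemma phi_meas (ρ : ℝ) : Measurable (phi ρ) := by
  refine Measurable.ite (measurableSet_lt (by fun_prop) measurable_const) ?_ measurable_const
  have : Measurable fun s : ℝ => ((⌊s⌋ : ℤ) : ℝ) :=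
    (measurable_from_top (f := fun k : ℤ => (k : ℝ))).comp Int.measurable_floor
  fun_prop

lemma phi_add {ρ s : ℝ} (hs : s ∈ Ioo (0 : ℝ) 1) (k : ℤ) :
    phi ρ (s + k) = if s < ρ then Real.exp (-ρ * |(k : ℝ)|) else 0 := by
  have h1 : ⌊s⌋ = 0 := Int.floor_eq_zero_iff.mpr ⟨hs.1.le, hs.2⟩
  simp [phi, Int.fract_eq_self.mpr ⟨hs.1.le, hs.2⟩, h1]

lemma phi_le {ρ : ℝ} (hρ : 0 < ρ) (s : ℝ) :
    0 ≤ phi ρ s ∧ phi ρ s ≤ 1 ∧ phi ρ s ≤ Real.exp ρ * Real.exp (-ρ * |s|) := by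
  unfold phi
  split_ifs
  · refine ⟨by positivity, Real.exp_le_one_iff.mpr ?_, ?_⟩
    · nlinarith [abs_nonneg ((⌊s⌋ : ℤ) : ℝ)]
    · rw [← Real.exp_add]
      refine Real.exp_le_exp.mpr ?_
      have h1 : |s| ≤ |((⌊s⌋ : ℤ) : ℝ)| + 1 := by
        have := abs_add_le ((⌊s⌋ : ℤ) : ℝ) (Int.fract s)
        rw [Int.floor_add_fract, abs_of_nonneg (Int.fract_nonneg s)] at this
        linarith [Int.fract_lt_one s]
      nlinarith
  · exact ⟨le_rfl, zero_le_one, by positivity⟩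

lemma phi_int {ρ : ℝ} (hρ : 0 < ρ) : Integrable (phi ρ) := by
  refine ((integ hρ).const_mul (Real.exp ρ)).mono' (phi_meas ρ).aestronglyMeasurable
    (Eventually.of_forall fun s => ?_)
  rw [Real.norm_eq_abs, abs_of_nonneg (phi_le hρ s).1]
  exact (phi_le hρ s).2.2

lemma phi_sq_int {ρ : ℝ} (hρ : 0 < ρ) : Integrable fun s => phi ρ s ^ 2 := by
  refine (phi_int hρ).mono' ((phi_meas ρ).pow_const 2).aestronglyMeasurable
    (Eventually.of_forall fun s => ?_)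
  rw [Real.norm_eq_abs, abs_of_nonneg (by positivity)]
  nlinarith [phi_le hρ s]

lemma phi_sq {ρ : ℝ} (hρ : 0 < ρ) (h1 : ρ ≤ 1) :
    ∫ s, phi ρ s ^ 2 = ρ * ∑' k : ℤ, Real.exp (-ρ * |(k : ℝ)|) ^ 2 := by
  rw [← (phi_sq_int hρ).hasSum_intervalIntegral_comp_add_int.tsum_eq, ← tsum_mul_left]
  refine tsum_congr fun k => ?_
  rw [← int_ind hρ.le h1, intervalIntegral.integral_of_le zero_le_one,
    integral_Ioc_eq_integral_Ioo, integral_Ioc_eq_integral_Ioo]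
  refine setIntegral_congr_fun measurableSet_Ioo fun s hs => ?_
  simp only [phi_add hs]
  split_ifs <;> simp

end Pool.Agent.H22.Gab
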