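import Pool.Agent.H22.Gab2

/-! Periodic configurations made of zeros of the Zak transform do not give frames. -/

namespace Pool.Agent.H22.Gab

open MeasureTheory Set Filter Topology Complex
open scoped Real ComplexConjugate

noncomputable def coef (g : ℝ → ℝ) (f : ℝ → ℂ) (γ : ℝ × ℝ) : ℂ :=
  ∫ t : ℝ, f t * conj (cexp (2 * π * I * γ.2 * t) * (g (t - γ.1) : ℂ))

lemma coef_le {g : ℝ → ℝ} (hg : Continuous g) {C : ℝ} (hC : ∀ t, |g t| ≤ C * Real.exp (-|t|))
    {a : ℝ} (ha : 0 < a) (x ω : ℝ) {ρ η : ℝ} (hρ : 0 < ρ) (h1 : ρ ≤ 1) (hη : 0 ≤ η) (j : ℤ)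
    (hb : ∀ s ∈ Icc 0 ρ,
      ‖∑' k : ℤ, (Real.exp (-ρ * |(k : ℝ)|) : ℂ) * chi a ω k * (g (a * (s + k) - x - a * j) : ℂ)‖
        ≤ η) :
    ∑' l : ℤ, ENNReal.ofReal
      (‖coef g (fun t => (phi ρ (t / a) : ℂ)) (x + a * j, ω + l / a)‖ ^ 2) ≤
      ENNReal.ofReal (ρ * (a * η) ^ 2) := by
  set F : ℝ → ℂ := fun s => (a * (cexp (-(2 * π * I * a * ω * s)) * (g (a * s - x - a * j) : ℂ))) *
    (phi ρ s : ℂ) with hF
  have pm := phi_meas ρ
  have gm := hg.measurable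
  have n1 : ∀ s : ℝ, ‖cexp (-(2 * π * I * a * ω * s))‖ = 1 := fun s => by
    have : -(2 * π * I * a * ω * s : ℂ) = ((-(2 * π * a * ω * s) : ℝ) : ℂ) * I := by
      push_cast; ring
    rw [this, norm_exp_ofReal_mul_I]
  have hC0 : 0 ≤ C := by
    have := (abs_nonneg _).trans (hC 0)
    simpa using this
  have Fi : Integrable F := by
    refine (phi_int hρ).ofReal.bdd_mul (c := a * C) (by fun_prop) (Eventually.of_forall fun s => ?_)
    rw [norm_mul, norm_mul, n1, one_mul, norm_real, norm_real, Real.norm_eq_abs, Real.norm_eq_abs,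
      abs_of_pos ha]
    refine mul_le_mul_of_nonneg_left ((hC _).trans ?_) ha.le
    exact mul_le_of_le_one_right hC0 (Real.exp_le_one_iff.mpr (by simp))
  have := bessel (F := F) (by fun_prop) Fi hρ.le h1 (η := a * η) (by positivity) (by
    intro s hs
    simp only [hF, phi_add hs]
    split_ifs with h
    · have e : ∀ k : ℤ, (a * (cexp (-(2 * π * I * a * ω * ((s + k : ℝ) : ℂ))) *
          (g (a * (s + k) - x - a * j) : ℂ))) * (Real.exp (-ρ * |(k : ℝ)|) : ℂ) =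
          (a * cexp (-(2 * π * I * a * ω * s))) * ((Real.exp (-ρ * |(k : ℝ)|) : ℂ) * chi a ω k *
            (g (a * (s + k) - x - a * j) : ℂ)) := by
        intro k
        have : cexp (-(2 * π * I * a * ω * ((s + k : ℝ) : ℂ))) =
            cexp (-(2 * π * I * a * ω * s)) * chi a ω k := by
          rw [chi, ← Complex.exp_add]; congr 1; push_cast; ring
        rw [this]; ring
      simp only [e]
      rw [tsum_mul_left, norm_mul, norm_mul, n1, mul_one, norm_real, Real.norm_eq_abs,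
        abs_of_pos ha]
      exact mul_le_mul_of_nonneg_left (hb s ⟨hs.1.le, h.le⟩) ha.le
    · simp)
  refine le_of_eq_of_le (tsum_congr fun l => ?_) this
  congr 3
  have h2 := Measure.integral_comp_mul_left (fun t : ℝ => (phi ρ (t / a) : ℂ) *
    conj (cexp (2 * π * I * ((ω + l / a : ℝ) : ℂ) * t) * (g (t - (x + a * j)) : ℂ))) a
  have h3 : coef g (fun t => (phi ρ (t / a) : ℂ)) (x + a * j, ω + l / a) = (a : ℂ) *
      ∫ s : ℝ, (phi ρ (a * s / a) : ℂ) * conj (cexp (2 * π * I * ((ω + l / a : ℝ) : ℂ) *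
        ((a * s : ℝ) : ℂ)) * (g (a * s - (x + a * j)) : ℂ)) := by
    rw [h2, coef, abs_of_pos (inv_pos.mpr ha), real_smul, ← mul_assoc, ← ofReal_mul,
      mul_inv_cancel₀ ha.ne']
    simp
  rw [h3, ← integral_const_mul]
  refine integral_congr_ae (Eventually.of_forall fun s => ?_)
  have ha' : (a : ℂ) ≠ 0 := by exact_mod_cast ha.ne'
  have e1 : conj (cexp (2 * π * I * ((ω + l / a : ℝ) : ℂ) * ((a * s : ℝ) : ℂ))) =
      cexp (-(2 * π * I * l * s)) * cexp (-(2 * π * I * a * ω * s)) := by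
    rw [← exp_conj, ← Complex.exp_add]
    congr 1
    simp only [map_mul, conj_ofReal, conj_I, map_ofNat]
    push_cast; field_simp; ring
  simp only [hF, map_mul, e1, conj_ofReal, mul_div_cancel_left₀ s ha.ne', ← sub_sub]
  ring

def conf (a : ℝ) (P : Finset (ℝ × ℝ)) : Set (ℝ × ℝ) :=
  {γ | ∃ p ∈ P, ∃ j l : ℤ, γ = (p.1 + a * j, p.2 + l / a)}

theorem nonframe {g : ℝ → ℝ} (hg : Continuous g) {C : ℝ}
    (hC : ∀ t, |g t| ≤ C * Real.exp (-|t|)) {a : ℝ} (ha : 2 ≤ a) (P : Finset (ℝ × ℝ))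
    (hz : ∀ p ∈ P, ∑' i : ℤ, chi a p.2 i * (g (a * i - p.1) : ℂ) = 0) {A : ℝ} (hA : 0 < A) :
    ∃ f : ℝ → ℂ, MemLp f 2 ∧ ∑' γ : conf a P, ENNReal.ofReal (‖coef g f γ‖ ^ 2) <
      ENNReal.ofReal (A * ∫ t, ‖f t‖ ^ 2) := by
  have ha0 : 0 < a := by linarith
  set ε := min 1 (A / ((P.card + 1) * a)) with hε
  have hε0 : 0 < ε := lt_min one_pos (by positivity)
  have hε1 : P.card * a * ε ^ 2 < A := by
    have h1 : ε ≤ 1 := min_le_left _ _
    have h2 : ε * ((P.card + 1) * a) ≤ A := (le_div_iff₀ (by positivity)).mp (min_le_right _ _)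
    have h3 : (0 : ℝ) ≤ P.card := Nat.cast_nonneg _
    have h4 : ε ^ 2 ≤ ε := by nlinarith
    have h5 : P.card * a * ε ^ 2 ≤ P.card * a * ε := mul_le_mul_of_nonneg_left h4 (by positivity)
    nlinarith [mul_pos hε0 ha0]
  have h01 : ∀ᶠ ρ in 𝓝[>] (0 : ℝ), ρ ∈ Ioo (0 : ℝ) 1 := Ioo_mem_nhdsGT one_pos
  obtain ⟨ρ, hρ, hp⟩ := (h01.and
    ((eventually_all_finset P).mpr fun p hp => point hg hC ha p.1 p.2 (hz p hp) hε0)).exists
  set S := ∑' k : ℤ, Real.exp (-ρ * |(k : ℝ)|) ^ 2 with hS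
  have sS : Summable fun k : ℤ => Real.exp (-ρ * |(k : ℝ)|) ^ 2 := by
    refine (summ (c := 2 * ρ) (by linarith [hρ.1])).congr fun k => ?_
    rw [← Real.exp_nat_mul]; congr 1; push_cast; ring
  have S0 : 0 < S := sS.tsum_pos (fun _ => by positivity) 0 (by positivity)
  have hn : ∀ t, ‖((phi ρ (t / a) : ℝ) : ℂ)‖ ^ 2 = phi ρ (t / a) ^ 2 := fun t => by
    rw [norm_real, Real.norm_eq_abs, sq_abs]
  have pm := phi_meas ρ
  refine ⟨fun t => (phi ρ (t / a) : ℂ), ?_, ?_⟩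
  · rw [memLp_two_iff_integrable_sq_norm (Measurable.aestronglyMeasurable (by fun_prop))]
    simp only [hn]
    exact (phi_sq_int hρ.1).comp_div ha0.ne'
  · have hI : ∫ t, ‖((phi ρ (t / a) : ℝ) : ℂ)‖ ^ 2 = a * (ρ * S) := by
      simp only [hn]
      rw [Measure.integral_comp_div (fun s => phi ρ s ^ 2), phi_sq hρ.1 hρ.2.le, abs_of_pos ha0,
        smul_eq_mul]
    rw [hI]
    let e : P × ℤ × ℤ → conf a P := fun q =>
      ⟨(q.1.1.1 + a * q.2.1, q.1.1.2 + q.2.2 / a), q.1.1, q.1.2, q.2.1, q.2.2, rfl⟩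
    have he : Function.Surjective e := by
      rintro ⟨γ, p, hp, j, l, rfl⟩
      exact ⟨(⟨p, hp⟩, j, l), rfl⟩
    refine (ENNReal.tsum_le_tsum_comp_of_surjective he _).trans_lt ?_
    rw [ENNReal.tsum_prod']
    have hq : ∀ p : P, ∑' q : ℤ × ℤ, ENNReal.ofReal
        (‖coef g (fun t => (phi ρ (t / a) : ℂ)) (e (p, q))‖ ^ 2) ≤
        ENNReal.ofReal (ρ * (a * ε) ^ 2 * S) := by
      intro p
      rw [ENNReal.tsum_prod', ← tsum_mul_left,
        ENNReal.ofReal_tsum_of_nonneg (fun _ => by have := hρ.1; positivity) (sS.mul_left _)]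
      refine ENNReal.tsum_le_tsum fun j => ?_
      refine (coef_le hg hC ha0 p.1.1 p.1.2 hρ.1 hρ.2.le (by positivity) j
        fun s hs => hp p.1 p.2 s hs j).trans (le_of_eq ?_)
      congr 1; ring
    refine (ENNReal.tsum_le_tsum hq).trans_lt ?_
    have := hρ.1
    rw [tsum_fintype, Finset.sum_const, Finset.card_univ, Fintype.card_coe, nsmul_eq_mul,
      ← ENNReal.ofReal_natCast, ← ENNReal.ofReal_mul (Nat.cast_nonneg _),
      ENNReal.ofReal_lt_ofReal_iff (by positivity)]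
    have h6 := mul_lt_mul_of_pos_right hε1 (by positivity : 0 < a * (ρ * S))
    calc _ = P.card * a * ε ^ 2 * (a * (ρ * S)) := by ring
      _ < _ := h6

end Pool.Agent.H22.Gab
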