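import Pool.Agent.H22.Gab3

/-! Sign changes of derivatives of the Gaussian and zeros of periodizations. -/

namespace Pool.Agent.H22.Gab

open MeasureTheory Set Filter Topology Polynomial
open scoped Real

lemma poly_bound (p : ℝ[X]) {c : ℝ} (hc : 0 < c) :
    ∃ C, ∀ t, |p.eval t * Real.exp (-c * t ^ 2)| ≤ C * Real.exp (-|t|) := by
  induction p using Polynomial.induction_on' with
  | add p q hp hq =>
    obtain ⟨C, hC⟩ := hp
    obtain ⟨D, hD⟩ := hq
    refine ⟨C + D, fun t => ?_⟩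
    rw [eval_add, add_mul, add_mul]
    exact (abs_add_le _ _).trans (add_le_add (hC t) (hD t))
  | monomial n b =>
    refine ⟨|b| * (n.factorial * Real.exp (1 / c)), fun t => ?_⟩
    rw [eval_monomial, abs_mul, abs_mul, abs_pow, abs_of_pos (Real.exp_pos _), mul_assoc,
      mul_assoc]
    refine mul_le_mul_of_nonneg_left ?_ (abs_nonneg _)
    have h1 : |t| ^ n ≤ n.factorial * Real.exp |t| := by
      have := Real.pow_div_factorial_le_exp |t| (abs_nonneg t) n
      rwa [div_le_iff₀ (by positivity), mul_comm] at this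
    calc _ ≤ n.factorial * Real.exp |t| * Real.exp (-c * t ^ 2) :=
          mul_le_mul_of_nonneg_right h1 (Real.exp_pos _).le
      _ = n.factorial * Real.exp (|t| + -c * t ^ 2) := by rw [Real.exp_add]; ring
      _ ≤ n.factorial * Real.exp (1 / c + -|t|) := by
          refine mul_le_mul_of_nonneg_left (Real.exp_le_exp.mpr ?_) (by positivity)
          have h2 : 0 ≤ (c * |t| - 1) ^ 2 / c := by positivity
          have h3 : (c * |t| - 1) ^ 2 / c = c * |t| ^ 2 - 2 * |t| + 1 / c := by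
            field_simp; ring
          rw [h3, sq_abs] at h2
          linarith
      _ = _ := by rw [Real.exp_add]; ring

noncomputable def G (n : ℕ) : ℝ → ℝ := iteratedDeriv n fun s => Real.exp (-2 * π * s ^ 2)

lemma hasD (p : ℝ[X]) (t : ℝ) : HasDerivAt (fun t => p.eval t * Real.exp (-2 * π * t ^ 2))
    ((derivative p - C (4 * π) * X * p).eval t * Real.exp (-2 * π * t ^ 2)) t := by
  have h1 : HasDerivAt (fun t : ℝ => -2 * π * t ^ 2) (-2 * π * (2 * t)) t := by
    simpa using (hasDerivAt_pow 2 t).const_mul (-2 * π)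
  refine ((p.hasDerivAt t).mul h1.exp).congr_deriv ?_
  simp only [eval_sub, eval_mul, eval_C, eval_X]; ring

lemma G_poly (n : ℕ) : ∃ p : ℝ[X], G n = fun t => p.eval t * Real.exp (-2 * π * t ^ 2) := by
  induction n with
  | zero => exact ⟨1, by ext t; simp [G]⟩
  | succ n ih =>
    obtain ⟨p, hp⟩ := ih
    refine ⟨derivative p - C (4 * π) * X * p, ?_⟩
    ext t
    rw [G, iteratedDeriv_succ, ← G, hp]
    exact (hasD p t).deriv

lemma G_neg (n : ℕ) (t : ℝ) : G n (-t) = (-1) ^ n * G n t := by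
  have := iteratedDeriv_comp_neg n (fun s : ℝ => Real.exp (-2 * π * s ^ 2)) (-t)
  simpa [G] using this

lemma mono {t : ℕ → ℝ} {n : ℕ} (h : ∀ i < n, t i < t (i + 1)) :
    ∀ j ≤ n, ∀ i < j, t i < t j := by
  intro j
  induction j with
  | zero => intro _ i hi; omega
  | succ j ih =>
    intro hj i hi
    rcases Nat.lt_succ_iff_lt_or_eq.mp hi with h1 | rfl
    · exact (ih (by omega) i h1).trans (h j (by omega))
    · exact h i (by omega)

lemma far {f : ℝ → ℝ} {C : ℝ} (hC : ∀ t, |f t| ≤ C * Real.exp (-|t|)) {ε : ℝ} (hε : 0 < ε)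
    (b : ℝ) : ∃ R, b < R ∧ |f R| < ε ∧ |f (-R)| < ε := by
  have h := (Real.tendsto_exp_neg_atTop_nhds_zero.const_mul C).eventually
    (gt_mem_nhds (show C * 0 < ε by simpa using hε))
  obtain ⟨R, h1, h2, h3⟩ := (h.and ((eventually_gt_atTop b).and (eventually_ge_atTop 0))).exists
  refine ⟨R, h2, (hC R).trans_lt ?_, (hC (-R)).trans_lt ?_⟩
  · rwa [abs_of_nonneg h3]
  · rwa [abs_neg, abs_of_nonneg h3]

lemma step {f : ℝ → ℝ} (hf : Differentiable ℝ f) {C : ℝ} (hC : ∀ t, |f t| ≤ C * Real.exp (-|t|))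
    {n : ℕ} {t : ℕ → ℝ} (h1 : ∀ i < n, t i < t (i + 1)) (h2 : ∀ i ≤ n, 0 < (-1) ^ i * f (t i)) :
    ∃ u : ℕ → ℝ, (∀ i < n + 1, u i < u (i + 1)) ∧ ∀ i ≤ n + 1, 0 < (-1) ^ i * deriv f (u i) := by
  obtain ⟨L, hL, -, hL'⟩ := far hC (h2 0 (by omega)) (-t 0)
  obtain ⟨R, hR, hR', -⟩ := far hC (h2 n le_rfl) (t n)
  set T : ℕ → ℝ := fun i => if i = 0 then -L else if i ≤ n + 1 then t (i - 1) else R with hT
  have key : ∀ i ≤ n + 1, T i < T (i + 1) ∧ 0 < (-1) ^ i * (f (T (i + 1)) - f (T i)) := by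
    intro i hi
    rcases i with _ | i
    · simp only [hT]
      simp at hL' ⊢
      exact ⟨by linarith, (le_abs_self _).trans_lt hL'⟩
    · rcases Nat.lt_or_ge i n with h | h
      · have e1 : T (i + 1) = t i := by simp [hT, h.le]
        have e2 : T (i + 1 + 1) = t (i + 1) := by simp [hT, h]
        rw [e1, e2]
        refine ⟨h1 i h, ?_⟩
        have a1 := h2 i h.le
        have a2 := h2 (i + 1) h
        rw [pow_succ] at a2 ⊢
        linarith
      · obtain rfl : i = n := by omega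
        have e1 : T (i + 1) = t i := by simp [hT]
        have e2 : T (i + 1 + 1) = R := by simp [hT]
        rw [e1, e2]
        refine ⟨hR, ?_⟩
        have a1 : (-1) ^ i * f R ≤ |f R| := by
          refine (le_abs_self _).trans ?_
          rw [abs_mul, abs_pow]; simp
        rw [pow_succ]
        linarith
  have ex : ∀ i, ∃ c, i ≤ n + 1 → T i < c ∧ c < T (i + 1) ∧ 0 < (-1) ^ i * deriv f c := by
    intro i
    by_cases hi : i ≤ n + 1
    · obtain ⟨k1, k2⟩ := key i hi
      obtain ⟨c, hc, hc'⟩ := exists_deriv_eq_slope f k1 hf.continuous.continuousOn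
        hf.differentiableOn
      refine ⟨c, fun _ => ⟨hc.1, hc.2, ?_⟩⟩
      rw [hc', ← mul_div_assoc]
      exact div_pos k2 (by linarith)
    · exact ⟨0, fun h => absurd h hi⟩
  choose u hu using ex
  exact ⟨u, fun i hi => (hu i hi.le).2.1.trans (hu (i + 1) hi).1, fun i hi => (hu i hi).2.2⟩

lemma G_alt (n : ℕ) :
    ∃ t : ℕ → ℝ, (∀ i < n, t i < t (i + 1)) ∧ ∀ i ≤ n, 0 < (-1) ^ i * G n (t i) := by
  induction n with
  | zero =>
    refine ⟨fun _ => 0, fun i hi => by omega, fun i hi => ?_⟩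
    obtain rfl : i = 0 := by omega
    simp [G]
  | succ n ih =>
    obtain ⟨t, h1, h2⟩ := ih
    obtain ⟨p, hp⟩ := G_poly n
    obtain ⟨C, hC⟩ := poly_bound p (c := 2 * π) (by positivity)
    have hd : Differentiable ℝ (G n) := by
      rw [hp]; exact fun s => (hasD p s).differentiableAt
    have := step hd (C := C) (fun s => by simpa only [hp, neg_mul] using hC s) h1 h2
    rwa [G, iteratedDeriv_succ]

lemma zeros {g : ℝ → ℝ} (hg : Continuous g) {C : ℝ} (hC : ∀ t, |g t| ≤ C * Real.exp (-|t|))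
    {n : ℕ} {t : ℕ → ℝ} {σ : ℝ} (h1 : ∀ i < n, t i < t (i + 1))
    (h2 : ∀ i ≤ n, 0 < σ * (-1) ^ i * g (t i)) :
    ∃ a : ℝ, 2 ≤ a ∧ (∀ i ≤ n, |t i| < a / 2) ∧ ∀ c : ℤ → ℝ, (∀ k, |c k| ≤ 1) → c 0 = 1 →
      ∃ z : ℕ → ℝ, ∀ i < n, t i < z i ∧ z i < t (i + 1) ∧ ∑' k : ℤ, c k * g (z i + a * k) = 0 := by
  set U := ∑ i ∈ Finset.range (n + 1), |t i| with hU
  have hU' : ∀ i ≤ n, |t i| ≤ U := fun i hi =>
    Finset.single_le_sum (f := fun i => |t i|) (fun _ _ => abs_nonneg _)
      (Finset.mem_range.mpr (by omega))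
  set K := C * Real.exp U with hK
  set S := ∑' k : ℤ, Real.exp (-1 * |(k : ℝ)|) with hS
  have hC0 : 0 ≤ C := by
    have := (abs_nonneg _).trans (hC 0)
    simpa using this
  have hK0 : 0 ≤ K := by positivity
  have hl : Tendsto (fun a : ℝ => |σ| * (K * Real.exp 1 * S) * Real.exp (-a)) atTop (𝓝 0) := by
    simpa using Real.tendsto_exp_neg_atTop_nhds_zero.const_mul (|σ| * (K * Real.exp 1 * S))
  obtain ⟨a, ha, ha1, ha2⟩ := ((eventually_ge_atTop 2).and ((eventually_gt_atTop (2 * U)).and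
    ((eventually_all_finset (Finset.range (n + 1))).mpr fun i hi =>
      hl.eventually (gt_mem_nhds (h2 i (by simpa [Nat.lt_succ_iff] using hi)))))).exists
  refine ⟨a, ha, fun i hi => by linarith [hU' i hi], fun c hc hc0 => ?_⟩
  have hb : ∀ (k : ℤ) (u : ℝ), u ∈ Icc (-U) U →
      ‖c k * g (u + a * k)‖ ≤ K * Real.exp (-a * |(k : ℝ)|) := by
    intro k u hu
    rw [Real.norm_eq_abs, abs_mul]
    exact (mul_le_of_le_one_left (abs_nonneg _) (hc k)).trans (decay hC ha (abs_le.mpr hu) k)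
  have s2 := (summ (by linarith : 0 < a)).mul_left K
  set Z : ℝ → ℝ := fun u => ∑' k : ℤ, c k * g (u + a * k) with hZ
  have Zc : ContinuousOn Z (Icc (-U) U) := continuousOn_tsum (fun i => by fun_prop) s2 hb
  have Zs : ∀ i ≤ n, 0 < σ * (-1) ^ i * Z (t i) := by
    intro i hi
    have hu := abs_le.mp (hU' i hi)
    have e := (Summable.of_norm_bounded s2 fun k => hb k _ hu).tsum_eq_add_tsum_ite 0
    have tl : ‖∑' k : ℤ, (if k = 0 then 0 else c k * g (t i + a * k))‖ ≤
        K * Real.exp 1 * Real.exp (-a) * S := by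
      refine tsum_of_norm_bounded ((summ one_pos).hasSum.mul_left _) fun k => ?_
      split_ifs with h
      · simp only [norm_zero]; positivity
      · refine (hb k _ hu).trans ?_
        rw [mul_assoc K, mul_assoc K, ← Real.exp_add, ← Real.exp_add]
        refine mul_le_mul_of_nonneg_left (Real.exp_le_exp.mpr ?_) hK0
        have : (1 : ℝ) ≤ |(k : ℝ)| := by exact_mod_cast Int.one_le_abs h
        nlinarith
    have h3 := ha2 i (Finset.mem_range.mpr (by omega))
    simp only [hZ, e, hc0, Int.cast_zero, mul_zero, add_zero, one_mul, mul_add]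
    have h4 : |σ * (-1) ^ i * ∑' k : ℤ, (if k = 0 then 0 else c k * g (t i + a * k))| ≤
        |σ| * (K * Real.exp 1 * Real.exp (-a) * S) := by
      rw [abs_mul, abs_mul, abs_pow, abs_neg, abs_one, one_pow, mul_one]
      exact mul_le_mul_of_nonneg_left tl (abs_nonneg _)
    have h5 := (abs_le.mp h4).1
    linarith
  have ex : ∀ i, ∃ z, i < n → t i < z ∧ z < t (i + 1) ∧ Z z = 0 := by
    intro i
    by_cases hi : i < n
    · have a1 := Zs i hi.le
      have a2 := Zs (i + 1) hi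
      have hs : Icc (t i) (t (i + 1)) ⊆ Icc (-U) U :=
        Icc_subset_Icc (abs_le.mp (hU' i hi.le)).1 (abs_le.mp (hU' (i + 1) hi)).2
      obtain ⟨z, hz, hz'⟩ := intermediate_value_Ioo (h1 i hi).le
        (f := fun y => σ * (-1) ^ (i + 1) * Z y) (continuousOn_const.mul (Zc.mono hs))
        (show (0 : ℝ) ∈ _ from ⟨by rw [pow_succ]; linarith, a2⟩)
      refine ⟨z, fun _ => ⟨hz.1, hz.2, ?_⟩⟩
      rcases mul_eq_zero.mp hz' with h | h
      · rw [h] at a2; simp at a2
      · exact h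
    · exact ⟨0, fun h => absurd h hi⟩
  choose z hz using ex
  exact ⟨z, hz⟩

end Pool.Agent.H22.Gab
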