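import Mathlib

set_option autoImplicit false
open MeasureTheory ProbabilityTheory Set
open scoped Classical

namespace Pool.Agent.H22.Glue
noncomputable section

variable {ι X : Type} [MeasurableSpace X]

def gl {ι X : Type} (D : Set ι) (y y' : ι → X) (i : ι) : X := if i ∈ D then y' i else y i

lemma gl_in {ι X : Type} {D : Set ι} (y y' : ι → X) {i : ι} (h : i ∈ D) : gl D y y' i = y' i :=
  if_pos h

lemma gl_out {ι X : Type} {D : Set ι} (y y' : ι → X) {i : ι} (h : i ∉ D) : gl D y y' i = y i :=
  if_neg h

lemma gl_congr {ι X : Type} {D D' : Set ι} (y y' : ι → X) {i : ι} (h : i ∈ D ↔ i ∈ D') :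
    gl D y y' i = gl D' y y' i := by simp only [gl, h]

lemma gl_empty {ι X : Type} (y y' : ι → X) : gl ∅ y y' = y := funext fun _ => gl_out _ _ id

lemma gl_univ {ι X : Type} (y y' : ι → X) : gl univ y y' = y' := funext fun _ => gl_in _ _ trivial

lemma glue_meas (D : Set ι) : Measurable fun p : (ι → X) × (ι → X) => gl D p.1 p.2 :=
  measurable_pi_lambda _ fun i => by
    by_cases h : i ∈ D <;> simp only [gl, h, if_true, if_false] <;> fun_prop

lemma glue (ν : ι → Measure X) [∀ i, IsProbabilityMeasure (ν i)] (D : Set ι) :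
    MeasurePreserving (fun p : (ι → X) × (ι → X) => gl D p.1 p.2)
      ((Measure.infinitePi ν).prod (Measure.infinitePi ν)) (Measure.infinitePi ν) := by
  refine ⟨glue_meas D, Measure.eq_infinitePi _ fun s t ht => ?_⟩
  rw [Measure.map_apply (glue_meas D) (.pi s.countable_toSet fun _ _ => ht _),
    show (fun p : (ι → X) × (ι → X) => gl D p.1 p.2) ⁻¹' (s : Set ι).pi t =
      ((s.filter (· ∉ D) : Finset ι) : Set ι).pi t ×ˢ ((s.filter (· ∈ D) : Finset ι) : Set ι).pi t by
      ext p; simp only [mem_preimage, mem_pi, mem_prod, Finset.coe_filter, mem_ofPred_eq, gl,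
        Finset.mem_coe]; grind,
    Measure.prod_prod, Measure.infinitePi_pi _ fun _ _ => ht _,
    Measure.infinitePi_pi _ fun _ _ => ht _, mul_comm, Finset.prod_filter_mul_prod_filter_not]

lemma reidx (ν : Measure X) [IsProbabilityMeasure ν] (e : ι ≃ ι) :
    MeasurePreserving (fun (y : ι → X) j => y (e j)) (Measure.infinitePi fun _ => ν)
      (Measure.infinitePi fun _ => ν) :=
  MeasurePreserving.symm _ ⟨(MeasurableEquiv.piCongrLeft (fun _ => X) e).measurable,
    Measure.infinitePi_map_piCongrLeft (fun _ : ι => ν) e⟩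

lemma shear [AddGroup X] [MeasurableAdd₂ X] (ν : Measure X) [IsProbabilityMeasure ν]
    [ν.IsAddLeftInvariant] (D : Set ι) (H : (ι → X) → ι → X) (hH : Measurable H)
    (h0 : ∀ y, ∀ i ∉ D, H y i = 0) (h1 : ∀ y y', H (gl D y y') = H y) :
    MeasurePreserving (fun y => H y + y) (Measure.infinitePi fun _ => ν)
      (Measure.infinitePi fun _ => ν) := by
  have h2 := (glue (fun _ => ν) D).comp (MeasurePreserving.skew_product (.id _)
    (g := fun y y' => H y + y') (μc := Measure.infinitePi fun _ : ι => ν) (by fun_prop)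
    (ae_of_all _ fun y => by
      have := Measure.infinitePi_map_pi (fun _ : ι => ν) (f := fun i x => H y i + x)
        fun i => measurable_const_add _
      simp only [map_add_left_eq_self] at this
      exact this))
  refine ⟨by fun_prop, ?_⟩
  conv_lhs => rw [← (glue (fun _ => ν) D).map_eq]
  rw [Measure.map_map (by fun_prop) (glue_meas D)]
  refine Eq.trans (congrArg (Measure.map · _) ?_) h2.map_eq
  ext p i
  by_cases h : i ∈ D <;> simp [h1, h, h0, gl]

def un (K : ℕ) : Measure (ZMod K) := uniformOn univ

instance (K : ℕ) [NeZero K] : IsProbabilityMeasure (un K) := by unfold un; infer_instance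

lemma un_single (K : ℕ) [NeZero K] (a : ZMod K) : un K {a} = (K : ENNReal)⁻¹ := by
  simp [un, uniformOn_univ]

instance (K : ℕ) [NeZero K] : (un K).IsAddLeftInvariant := ⟨fun g => Measure.ext_of_singleton fun a => by
  rw [Measure.map_apply (measurable_of_countable _) (measurableSet_singleton _)]
  simp [un_single]⟩

end
end Pool.Agent.H22.Glue
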