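import Mathlib

namespace Pool.Agent.H22.Harborth

/-- `k` belongs to `K_c`: `k` is positive and `n` divides `choose n (k - c n)` for every integer
`n` with `k / (c + 1) ≤ n ≤ k / c`. -/
def InK (c k : ℕ) : Prop :=
  0 < k ∧ ∀ n : ℕ, k ≤ (c + 1) * n → c * n ≤ k → n ∣ n.choose (k - c * n)

/-- `k = 2 q` for a Fermat prime `q > 3`. -/
def InS (k : ℕ) : Prop := ∃ m : ℕ, (2 ^ 2 ^ m + 1).Prime ∧ 3 < 2 ^ 2 ^ m + 1 ∧ k = 2 * (2 ^ 2 ^ m + 1)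

end Pool.Agent.H22.Harborth
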