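import Mathlib

namespace Pool.Agent.H22.Hoehnke

open Polynomial MonoidAlgebra

section tau

variable {L : Type} [Field L] [CharP L 2] {H : Type} [Group H] [Fintype H]

theorem tau_sq (hodd : Odd (Fintype.card H)) (a : MonoidAlgebra L H) :
    (a * a).coeff 1 = (a.coeff 1) ^ 2 := by
  classical
  rw [coeff_mul_apply_left, Finsupp.sum_fintype _ _ (by simp),
    ← Finset.add_sum_erase _ _ (Finset.mem_univ (1 : H))]
  have : ∑ g ∈ Finset.univ.erase (1 : H), a.coeff g * a.coeff (g⁻¹ * 1) = 0 := by
    apply Finset.sum_involution (fun g _ => g⁻¹)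
    · intro g _
      simp only [mul_one, inv_inv]
      rw [mul_comm (a.coeff g⁻¹)]
      exact CharTwo.add_self_eq_zero _
    · intro g hg _ h
      have hg1 : g ≠ 1 := (Finset.mem_erase.1 hg).1
      have h2 : g ^ 2 = 1 := by rw [pow_two]; nth_rewrite 1 [← h]; exact inv_mul_cancel g
      have h3 : orderOf g ∣ 2 := orderOf_dvd_of_pow_eq_one h2
      have h4 : orderOf g ∣ Fintype.card H := orderOf_dvd_card
      have h5 : orderOf g ∣ Nat.gcd 2 (Fintype.card H) := Nat.dvd_gcd h3 h4
      rw [(Nat.coprime_two_left.2 hodd).gcd_eq_one] at h5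
      exact hg1 (orderOf_eq_one_iff.1 (Nat.dvd_one.1 h5))
    · intro g _
      simp
    · intro g hg
      simpa using hg
  rw [this]
  simp [pow_two]

theorem tau_dich (hodd : Odd (Fintype.card H)) (n a : MonoidAlgebra L H) (c : L)
    (h : n * a * n = c • n) (h0 : (n * a).coeff 1 ≠ 0) : (n * a).coeff 1 = c := by
  have h1 := tau_sq hodd (n * a)
  rw [← mul_assoc, h, smul_mul_assoc, coeff_smul_apply, smul_eq_mul, pow_two] at h1
  exact (mul_right_cancel₀ h0 h1).symm

theorem rank_one (hodd : Odd (Fintype.card H)) (n : MonoidAlgebra L H) (hn : n ≠ 0) (s : H → L)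
    (h : ∀ g, n * single g 1 * n = s g • n) (g : H) : n.coeff g⁻¹ = s g := by
  have e : ∀ g : H, (n * single g 1).coeff 1 = n.coeff g⁻¹ := by
    intro g; rw [coeff_mul_single_apply]; simp
  by_cases h0 : n.coeff g⁻¹ = 0
  · obtain ⟨g0, hg0⟩ : ∃ g0 : H, n.coeff g0⁻¹ ≠ 0 := by
      by_contra hc
      push Not at hc
      apply hn
      ext k
      simpa using hc k⁻¹
    have h1 := tau_dich hodd n _ _ (h g0) (by rw [e]; exact hg0)
    have h2 := tau_dich hodd n (single g 1 + single g0 1) (s g + s g0)
      (by rw [mul_add, add_mul, h, h, add_smul])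
      (by rw [mul_add, MonoidAlgebra.coeff_add, Finsupp.add_apply, e, e, h0, zero_add]; exact hg0)
    rw [mul_add, MonoidAlgebra.coeff_add, Finsupp.add_apply, e, h1] at h2
    exact add_right_cancel h2
  · rw [← e]
    exact tau_dich hodd n _ _ (h g) (by rw [e]; exact h0)

end tau

section der

variable {F : Type} [Field F] {H : Type} [Group H]

/-- coefficientwise derivative -/
noncomputable def dP (D : F →+ F) (p : F[X]) : F[X] := p.sum (fun n a => monomial n (D a))

theorem coeff_dP (D : F →+ F) (p : F[X]) (n : ℕ) : (dP D p).coeff n = D (p.coeff n) := by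
  unfold dP
  rw [Polynomial.sum_def, finsetSum_coeff, Finset.sum_eq_single n]
  · simp
  · intro b _ hb
    simp [coeff_monomial, hb]
  · intro h
    rw [notMem_support_iff.1 h]
    simp

theorem dP_add (D : F →+ F) (p q : F[X]) : dP D (p + q) = dP D p + dP D q := by
  ext n; simp [coeff_dP]

theorem dP_mul (D : F →+ F) (hD : ∀ a b, D (a * b) = a * D b + D a * b) (p q : F[X]) :
    dP D (p * q) = p * dP D q + dP D p * q := by
  ext n
  simp only [coeff_dP, Polynomial.coeff_mul, Polynomial.coeff_add, map_sum, hD,
    Finset.sum_add_distrib]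

theorem D_one (D : F →+ F) (hD : ∀ a b, D (a * b) = a * D b + D a * b) : D 1 = 0 := by
  have := hD 1 1
  simpa using this

theorem dP_C (D : F →+ F) (a : F) : dP D (C a) = C (D a) := by
  ext n; simp only [coeff_dP, coeff_C]; split_ifs <;> simp

theorem dP_X (D : F →+ F) (hD : ∀ a b, D (a * b) = a * D b + D a * b) : dP D X = 0 := by
  ext n; simp only [coeff_dP, coeff_X]; split_ifs <;> simp [D_one D hD]

theorem map_mul_der (D : F →+ F) (hD : ∀ a b, D (a * b) = a * D b + D a * b)
    (y z : MonoidAlgebra F H) :
    MonoidAlgebra.map D (y * z) = y * MonoidAlgebra.map D z + MonoidAlgebra.map D y * z := by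
  induction y using MonoidAlgebra.induction_linear with
  | zero => simp [MonoidAlgebra.map_zero]
  | add y1 y2 h1 h2 =>
    rw [add_mul, MonoidAlgebra.map_add, h1, h2, MonoidAlgebra.map_add, add_mul, add_mul]; abel
  | single g a =>
    induction z using MonoidAlgebra.induction_linear with
    | zero => simp [MonoidAlgebra.map_zero]
    | add z1 z2 h1 h2 =>
      rw [mul_add, MonoidAlgebra.map_add, h1, h2, MonoidAlgebra.map_add, mul_add, mul_add]; abel
    | single k b =>
      simp only [single_mul_single, MonoidAlgebra.map_single, hD, single_add]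

variable {L : Type} [Field L] [Algebra F L]

theorem iota_aeval (x : MonoidAlgebra F H) (p : F[X]) :
    mapRingHom H (algebraMap F L) (aeval x p) =
      aeval (mapRingHom H (algebraMap F L) x) (p.map (algebraMap F L)) := by
  apply map_aeval_eq_aeval_map
  ext a
  simp

theorem divX_sub (r : L) (p : L[X]) :
    (p * X) /ₘ (X - C r) = (p /ₘ (X - C r)) * X + C (p.eval r) := by
  apply mul_left_cancel₀ (X_sub_C_ne_zero r)
  rw [X_sub_C_mul_divByMonic_eq_sub_modByMonic, modByMonic_X_sub_C_eq_C_eval, mul_add,
    ← mul_assoc, X_sub_C_mul_divByMonic_eq_sub_modByMonic, modByMonic_X_sub_C_eq_C_eval]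
  simp only [eval_mul, eval_X, C_mul]
  ring

theorem add_div' (r : L) (p q : L[X]) :
    (p + q) /ₘ (X - C r) = p /ₘ (X - C r) + q /ₘ (X - C r) := by
  apply mul_left_cancel₀ (X_sub_C_ne_zero r)
  simp only [mul_add, X_sub_C_mul_divByMonic_eq_sub_modByMonic, modByMonic_X_sub_C_eq_C_eval,
    eval_add, C_add]
  ring

theorem leib (D : F →+ F) (hD : ∀ a b, D (a * b) = a * D b + D a * b) (x : MonoidAlgebra F H)
    (h : H) (hx : MonoidAlgebra.map D x = single h 1) (n : MonoidAlgebra L H) (r : L)
    (hn : n * mapRingHom H (algebraMap F L) x = r • n) (p : F[X]) :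
    n * mapRingHom H (algebraMap F L) (MonoidAlgebra.map D (aeval x p)) =
      aeval r (dP D p) • n + n * single h 1 *
        aeval (mapRingHom H (algebraMap F L) x) (p.map (algebraMap F L) /ₘ (X - C r)) := by
  have hq : ∀ q : F[X], n * mapRingHom H (algebraMap F L) (aeval x q) = aeval r q • n := by
    intro q
    induction q using Polynomial.induction_on with
    | C a =>
      simp only [aeval_C]
      rw [MonoidAlgebra.coe_algebraMap]
      simp only [Function.comp, mapRingHom_single]
      rw [← single_one_comm]
      ext k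
      simp [Algebra.smul_def]
    | add p q h1 h2 => rw [map_add, map_add, mul_add, h1, h2, map_add, add_smul]
    | monomial k a ih =>
      rw [pow_succ, ← mul_assoc, map_mul, map_mul, ← mul_assoc, ih, aeval_X, smul_mul_assoc, hn,
        smul_smul, map_mul (aeval r) _ X, aeval_X]
  induction p using Polynomial.induction_on with
  | C a =>
    have : (C a).map (algebraMap F L) /ₘ (X - C r) = 0 := by
      rw [Polynomial.map_C, divByMonic_eq_zero_iff (monic_X_sub_C r), degree_X_sub_C]
      exact lt_of_le_of_lt degree_C_le (by simp)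
    rw [this, dP_C, ← hq]
    simp only [aeval_C, map_zero, mul_zero, add_zero]
    rw [MonoidAlgebra.coe_algebraMap]
    simp
  | add p q h1 h2 =>
    rw [map_add, MonoidAlgebra.map_add, map_add, mul_add, h1, h2, dP_add, Polynomial.map_add,
      add_div', map_add, map_add, add_smul, mul_add]
    abel
  | monomial k a ih =>
    rw [pow_succ, ← mul_assoc]
    generalize C a * X ^ k = p at ih
    rw [map_mul, aeval_X, map_mul_der D hD, hx, map_add, map_mul, map_mul, mul_add, ← mul_assoc,
      ← mul_assoc, ih, hq, dP_mul D hD, dP_X D hD, Polynomial.map_mul, Polynomial.map_X, divX_sub,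
      add_mul, smul_mul_assoc, smul_mul_assoc, hn]
    simp only [mapRingHom_single, map_one, mul_zero, zero_add, map_mul, aeval_X, map_add, aeval_C,
      eval_map_algebraMap, mul_add, smul_smul, mul_assoc]
    rw [Algebra.algebraMap_eq_smul_one]
    simp only [mul_smul_comm, mul_one]
    abel

theorem tele {R : Type} [CommRing R] (r : R) (p : R[X]) (N : ℕ) :
    (X - C r) * ∑ k ∈ Finset.range N, C (r ^ k) * divX^[k + 1] p =
      p - C (r ^ N) * divX^[N] p - ∑ k ∈ Finset.range N, C (p.coeff k * r ^ k) := by
  have hc : ∀ (N : ℕ) (k : ℕ), (divX^[N] p).coeff k = p.coeff (k + N) := by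
    intro N
    induction N with
    | zero => simp
    | succ N ih => intro k; rw [Function.iterate_succ_apply', coeff_divX, ih]; congr 1; ring
  induction N with
  | zero => simp
  | succ N ih =>
    rw [Finset.sum_range_succ, Finset.sum_range_succ, mul_add, ih]
    have h1 := X_mul_divX_add (divX^[N] p)
    rw [hc, zero_add, ← Function.iterate_succ_apply' divX] at h1
    simp only [Nat.succ_eq_add_one] at h1
    rw [← h1]
    simp only [C_mul, pow_succ]
    rw [h1]
    linear_combination (C (r ^ N)) * h1

theorem coeff_divX_iter {R : Type} [CommRing R] (p : R[X]) (N k : ℕ) :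
    (divX^[N] p).coeff k = p.coeff (k + N) := by
  induction N generalizing k with
  | zero => simp
  | succ N ih => rw [Function.iterate_succ_apply', coeff_divX, ih]; congr 1; ring

theorem div_eq (r : L) (p : L[X]) (hp : p.Monic) :
    p /ₘ (X - C r) = ∑ k ∈ Finset.range p.natDegree, C (r ^ k) * divX^[k + 1] p := by
  apply mul_left_cancel₀ (X_sub_C_ne_zero r)
  rw [X_sub_C_mul_divByMonic_eq_sub_modByMonic, modByMonic_X_sub_C_eq_C_eval, tele,
    eval_eq_sum_range, Finset.sum_range_succ, map_add, map_sum]
  have : divX^[p.natDegree] p = 1 := by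
    ext k
    rw [coeff_divX_iter, coeff_one]
    split_ifs with h
    · subst h; simpa using hp.leadingCoeff
    · exact coeff_eq_zero_of_natDegree_lt (by omega)
  rw [this, coeff_natDegree, hp.leadingCoeff]
  simp only [one_mul, mul_one]
  ring

theorem map_divX_iter (p : F[X]) (N : ℕ) :
    divX^[N] (p.map (algebraMap F L)) = (divX^[N] p).map (algebraMap F L) := by
  ext k
  simp [coeff_divX_iter]

theorem monic_divX_iter {p : F[X]} (hp : p.Monic) (N : ℕ) (hN : N ≤ p.natDegree) :
    (divX^[N] p).Monic ∧ (divX^[N] p).natDegree = p.natDegree - N := by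
  have h1 : (divX^[N] p).coeff (p.natDegree - N) = 1 := by
    rw [coeff_divX_iter, Nat.sub_add_cancel hN]; exact hp.leadingCoeff
  have h2 : (divX^[N] p).natDegree ≤ p.natDegree - N := by
    rw [natDegree_le_iff_coeff_eq_zero]
    intro k hk
    rw [coeff_divX_iter]
    exact coeff_eq_zero_of_natDegree_lt (by omega)
  have h3 : (divX^[N] p).natDegree = p.natDegree - N :=
    le_antisymm h2 (le_natDegree_of_ne_zero (by rw [h1]; exact one_ne_zero))
  exact ⟨by rw [Monic, leadingCoeff, h3, h1], h3⟩

theorem at_root [CharP L 2] [Fintype H] (hodd : Odd (Fintype.card H)) (D : H → F →+ F)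
    (hD : ∀ h a b, D h (a * b) = a * D h b + D h a * b) (x : MonoidAlgebra F H)
    (hx : ∀ h, MonoidAlgebra.map (D h) x = single h 1) (r : L)
    (hr : aeval r (minpoly F x) = 0) :
    (∀ h : H, aeval r (∑ k ∈ Finset.range (minpoly F x).natDegree,
      monomial k ((aeval x (divX^[k + 1] (minpoly F x))).coeff h⁻¹) + dP (D h) (minpoly F x)) = 0)
    ∧ ∃ h, aeval r (dP (D h) (minpoly F x)) ≠ 0 := by
  classical
  have hint : IsIntegral F x := Algebra.IsIntegral.isIntegral x
  set φ := minpoly F x with hφ
  have hmon : φ.Monic := minpoly.monic hint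
  have hpos : 0 < φ.natDegree := minpoly.natDegree_pos hint
  set ι := MonoidAlgebra.mapRingHom H (algebraMap F L) with hι
  set n := aeval (ι x) (φ.map (algebraMap F L) /ₘ (X - C r)) with hn
  have hroot : (φ.map (algebraMap F L)).IsRoot r := by
    rw [IsRoot.def, eval_map_algebraMap]; exact hr
  have hnx : n * ι x = r • n := by
    have h1 := congrArg (aeval (ι x)) (mul_divByMonic_eq_iff_isRoot.2 hroot)
    rw [← iota_aeval, minpoly.aeval, map_zero, mul_comm, map_mul, map_sub, aeval_X, aeval_C,
      ← hn, mul_sub, sub_eq_zero] at h1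
    rw [h1, Algebra.algebraMap_eq_smul_one, mul_smul_comm, mul_one]
  have hnsum : n = ∑ k ∈ Finset.range φ.natDegree, r ^ k • ι (aeval x (divX^[k + 1] φ)) := by
    rw [hn, div_eq r _ (hmon.map _), hmon.natDegree_map, map_sum]
    apply Finset.sum_congr rfl
    intro k _
    rw [map_mul, aeval_C, map_divX_iter, ← iota_aeval, ← Algebra.smul_def]
  have hn0 : n ≠ 0 := by
    intro h0
    obtain ⟨lam, hlam⟩ := (Algebra.linearMap F L).exists_leftInverse_of_injective
      (LinearMap.ker_eq_bot.2 (algebraMap F L).injective)
    have hl1 : lam 1 = 1 := by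
      have := LinearMap.congr_fun hlam 1
      simpa using this
    have h1 : aeval x (∑ k ∈ Finset.range φ.natDegree, C (lam (r ^ k)) * divX^[k + 1] φ) = 0 := by
      ext g
      have h2 := congrArg (fun y : MonoidAlgebra L H => lam (y.coeff g)) (hnsum.symm.trans h0)
      simp only [MonoidAlgebra.coeff_sum, Finsupp.coe_finsetSum, Finset.sum_apply, map_sum,
        coeff_smul_apply, hι, coeff_mapRingHom, smul_eq_mul, MonoidAlgebra.coeff_zero,
        Finsupp.coe_zero, Pi.zero_apply, map_zero] at h2
      simp only [map_sum, map_mul, aeval_C, ← Algebra.smul_def, MonoidAlgebra.coeff_sum,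
        Finsupp.coe_finsetSum, Finset.sum_apply, coeff_smul_apply, smul_eq_mul,
        MonoidAlgebra.coeff_zero, Finsupp.coe_zero, Pi.zero_apply]
      rw [← h2]
      apply Finset.sum_congr rfl
      intro k _
      rw [mul_comm (r ^ k), ← Algebra.smul_def, map_smul, smul_eq_mul, mul_comm]
    have hc : ∀ j, φ.natDegree - 1 ≤ j →
        (∑ k ∈ Finset.range φ.natDegree, C (lam (r ^ k)) * divX^[k + 1] φ).coeff j =
          φ.coeff (j + 1) := by
      intro j hj
      rw [finsetSum_coeff, Finset.sum_eq_single 0]
      · simp [hl1, coeff_divX]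
      · intro k _ hk
        rw [coeff_C_mul, coeff_divX_iter, coeff_eq_zero_of_natDegree_lt (by omega), mul_zero]
      · intro h; exact absurd (Finset.mem_range.2 hpos) h
    have hne : (∑ k ∈ Finset.range φ.natDegree, C (lam (r ^ k)) * divX^[k + 1] φ) ≠ 0 := by
      intro h
      have := hc _ le_rfl
      rw [h, Nat.sub_add_cancel hpos, coeff_natDegree, hmon.leadingCoeff] at this
      simp at this
    have h3 := natDegree_le_natDegree (minpoly.degree_le_of_ne_zero F x hne h1)
    have h4 : (∑ k ∈ Finset.range φ.natDegree, C (lam (r ^ k)) * divX^[k + 1] φ).natDegree ≤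
        φ.natDegree - 1 := by
      rw [natDegree_le_iff_coeff_eq_zero]
      intro j hj
      rw [hc j hj.le]
      exact coeff_eq_zero_of_natDegree_lt (by omega)
    rw [← hφ] at h3
    omega
  have hrank : ∀ h : H, n * single h 1 * n = (-aeval r (dP (D h) φ)) • n := by
    intro h
    have h1 := leib (D h) (hD h) x h (hx h) n r hnx φ
    rw [minpoly.aeval, MonoidAlgebra.map_zero, map_zero, mul_zero, ← hι, ← hn] at h1
    rw [neg_smul, eq_neg_iff_add_eq_zero, add_comm]
    exact h1.symm
  have hco := rank_one hodd n hn0 _ hrank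
  constructor
  · intro h
    rw [map_add, ← eq_neg_iff_add_eq_zero, ← hco h, hnsum]
    simp only [map_sum, aeval_monomial, MonoidAlgebra.coeff_sum, Finsupp.coe_finsetSum,
      Finset.sum_apply, coeff_smul_apply, hι, coeff_mapRingHom, smul_eq_mul, mul_comm]
  · by_contra hc
    push Not at hc
    apply hn0
    ext k
    have := hco k⁻¹
    rw [hc, inv_inv, neg_zero] at this
    simpa using this

theorem adj_formula [CharP F 2] [Fintype H] (hodd : Odd (Fintype.card H)) (D : H → F →+ F)
    (hD : ∀ h a b, D h (a * b) = a * D h b + D h a * b) (x : MonoidAlgebra F H)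
    (hx : ∀ h, MonoidAlgebra.map (D h) x = single h 1) (h : H) (k : ℕ)
    (hk : k < (minpoly F x).natDegree) :
    (aeval x (divX^[k + 1] (minpoly F x))).coeff h⁻¹ = -D h ((minpoly F x).coeff k) := by
  classical
  have hint : IsIntegral F x := Algebra.IsIntegral.isIntegral x
  have key := fun r hr => at_root (L := AlgebraicClosure F) hodd D hD x hx r hr
  set φ := minpoly F x with hφ
  have hmon : φ.Monic := minpoly.monic hint
  have hsq : Squarefree φ := by
    rw [squarefree_iff_no_irreducibles hmon.ne_zero]
    rintro f hf ⟨g, hg⟩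
    obtain ⟨r, hr⟩ := IsAlgClosed.exists_aeval_eq_zero (AlgebraicClosure F) f
      (degree_pos_of_irreducible hf).ne'
    obtain ⟨_, h0, h1⟩ := key r (by rw [hg]; simp [hr])
    apply h1
    rw [hg, dP_mul _ (hD h0), dP_mul _ (hD h0)]
    simp [hr]
  set w := ∑ k ∈ Finset.range φ.natDegree,
      monomial k ((aeval x (divX^[k + 1] φ)).coeff h⁻¹) + dP (D h) φ with hw
  have hdvd : φ ∣ w := by
    have h1 : φ.map (algebraMap F (AlgebraicClosure F)) ∣
        (w ^ φ.natDegree).map (algebraMap F (AlgebraicClosure F)) := by
      have hs := IsAlgClosed.splits (φ.map (algebraMap F (AlgebraicClosure F)))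
      rw [hs.eq_prod_roots_of_monic (hmon.map _), Polynomial.map_pow]
      have h2 := Multiset.prod_dvd_prod_of_dvd
        (S := (φ.map (algebraMap F (AlgebraicClosure F))).roots) (fun a => X - C a)
        (fun _ => w.map (algebraMap F (AlgebraicClosure F))) (by
          intro a ha
          rw [dvd_iff_isRoot, IsRoot.def, eval_map_algebraMap]
          have := (mem_roots (hmon.map _).ne_zero).1 ha
          rw [IsRoot.def, eval_map_algebraMap] at this
          exact (key a this).1 h)
      rw [Multiset.map_const', Multiset.prod_replicate, ← hs.natDegree_eq_card_roots,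
        hmon.natDegree_map] at h2
      exact h2
    exact (hsq.dvd_pow_iff_dvd (by omega)).1 ((map_dvd_map' _).1 h1)
  have hcw : ∀ j, w.coeff j = (if j < φ.natDegree then (aeval x (divX^[j + 1] φ)).coeff h⁻¹ else 0)
      + D h (φ.coeff j) := by
    intro j
    rw [hw, Polynomial.coeff_add, coeff_dP, finsetSum_coeff]
    simp [coeff_monomial]
  have hw0 : w = 0 := by
    apply eq_zero_of_dvd_of_natDegree_lt hdvd
    have : w.natDegree ≤ φ.natDegree - 1 := by
      rw [natDegree_le_iff_coeff_eq_zero]
      intro j hj
      rw [hcw, if_neg (by omega), zero_add]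
      rcases (show φ.natDegree ≤ j by omega).eq_or_lt with h1 | h1
      · rw [← h1, coeff_natDegree, hmon.leadingCoeff, D_one _ (hD h)]
      · rw [coeff_eq_zero_of_natDegree_lt h1, map_zero]
    omega
  have := hcw k
  rw [hw0, if_pos hk, Polynomial.coeff_zero] at this
  exact eq_neg_of_add_eq_zero_left this.symm

theorem top_of_monic (V : Submodule F F[X]) (h : ∀ d, ∃ p ∈ V, p.Monic ∧ p.natDegree = d)
    (q : F[X]) : q ∈ V := by
  have key : ∀ d, ∀ q : F[X], q.degree < (d : ℕ) → q ∈ V := by
    intro d
    induction d with
    | zero =>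
      intro q hq
      have : q = 0 := by
        rw [← degree_eq_bot]; simpa using hq
      rw [this]; exact V.zero_mem
    | succ d ih =>
      intro q hq
      obtain ⟨p, hp, hm, hd⟩ := h d
      have h1 : q - q.coeff d • p ∈ V := by
        apply ih
        rw [degree_lt_iff_coeff_zero]
        intro j hj
        rw [Polynomial.coeff_sub, Polynomial.coeff_smul, smul_eq_mul]
        rcases hj.eq_or_lt with hj | hj
        · rw [← hj, ← hd, coeff_natDegree, hm.leadingCoeff, mul_one, sub_self]
        · rw [(degree_lt_iff_coeff_zero _ _).1 hq j hj,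
            coeff_eq_zero_of_natDegree_lt (by omega : p.natDegree < j), mul_zero, sub_self]
      have := V.add_mem h1 (V.smul_mem (q.coeff d) hp)
      simpa using this
  exact key (q.natDegree + 1) q (lt_of_le_of_lt degree_le_natDegree (by exact_mod_cast Nat.lt_succ_self _))

theorem transfer [CharP F 2] {G : Type} [Group G] [Fintype G] [Fintype H]
    (hG : Odd (Fintype.card G)) (hH : Odd (Fintype.card H)) (π : G ≃ H) (D : G → F →+ F)
    (hD : ∀ h a b, D h (a * b) = a * D h b + D h a * b) (x : MonoidAlgebra F G)
    (x' : MonoidAlgebra F H)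
    (hx : ∀ h, MonoidAlgebra.map (D h) x = single h 1)
    (hx' : ∀ h, MonoidAlgebra.map (D h) x' = single (π h) 1)
    (he : minpoly F x = minpoly F x') (p : F[X]) (g : G) :
    (aeval x p).coeff g⁻¹ = (aeval x' p).coeff (π g)⁻¹ := by
  let V : Submodule F F[X] :=
    { carrier := {p | ∀ g : G, (aeval x p).coeff g⁻¹ = (aeval x' p).coeff (π g)⁻¹}
      add_mem' := by
        intro a b ha hb g
        simp only [map_add, MonoidAlgebra.coeff_add, Finsupp.add_apply, ha g, hb g]
      zero_mem' := by intro g; simp
      smul_mem' := by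
        intro c a ha g
        simp only [map_smul, coeff_smul_apply, ha g] }
  have hint : IsIntegral F x := Algebra.IsIntegral.isIntegral x
  have hmon := minpoly.monic hint
  refine top_of_monic V (fun d => ?_) p g
  rcases lt_or_ge d (minpoly F x).natDegree with hd | hd
  · obtain ⟨h1, h2⟩ := monic_divX_iter hmon ((minpoly F x).natDegree - d - 1 + 1) (by omega)
    refine ⟨_, fun g => ?_, h1, by omega⟩
    rw [adj_formula hG D hD x hx g _ (by omega)]
    have := adj_formula hH (fun h => D (π.symm h)) (fun h => hD _) x'
      (fun h => by rw [hx']; simp) (π g) ((minpoly F x).natDegree - d - 1) (by rw [← he]; omega)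
    rw [← he] at this
    rw [this]
    simp
  · refine ⟨minpoly F x * X ^ (d - (minpoly F x).natDegree), fun g => ?_,
      hmon.mul (monic_X_pow _), ?_⟩
    · rw [map_mul, map_mul, minpoly.aeval]
      nth_rewrite 2 [he]
      rw [minpoly.aeval]
      simp
    · rw [hmon.natDegree_mul (monic_X_pow _), natDegree_X_pow]; omega

end der

section scott

variable {G H : Type} [Group G] [Group H]

theorem comm_of_sq [Fintype H] (hodd : Odd (Fintype.card H)) {b y : H}
    (h : b * b * y = y * (b * b)) : b * y = y * b := by
  obtain ⟨k, hk⟩ := hodd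
  have h1 : (b * b) ^ (k + 1) = b := by
    rw [← pow_two, ← pow_mul, show 2 * (k + 1) = Fintype.card H + 1 by omega, pow_succ,
      pow_card_eq_one, one_mul]
  have h2 : Commute (b * b) y := h
  have h3 := h2.pow_left (k + 1)
  rw [h1] at h3
  exact h3

theorem scott [Fintype H] (hodd : Odd (Fintype.card H)) (π : G ≃ H)
    (hinv : ∀ a, π a⁻¹ = (π a)⁻¹)
    (hh : ∀ a b, (π (a * b) = π a * π b ∧ π (b * a) = π b * π a) ∨
      (π (a * b) = π b * π a ∧ π (b * a) = π a * π b)) : Nonempty (G ≃* H) := by
  have hsq : ∀ a, π (a * a) = π a * π a := fun a => by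
    rcases hh a a with h | h <;> exact h.1
  have hd : ∀ a b, π (a * b) = π a * π b ∨ π (a * b) = π b * π a := fun a b => by
    rcases hh a b with h | h
    · exact Or.inl h.1
    · exact Or.inr h.1
  have symP : ∀ a b, π (a * b) = π a * π b → π (b * a) = π b * π a := by
    intro a b h
    rcases hh a b with h1 | h1
    · exact h1.2
    · rw [h1.2, ← h, h1.1]
  have symQ : ∀ a b, π (a * b) = π b * π a → π (b * a) = π a * π b := by
    intro a b h
    rcases hh a b with h1 | h1
    · rw [h1.2, ← h, h1.1]
    · exact h1.2
  -- inverting the second argument keeps strict P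
  have invP : ∀ a b, π (a * b) = π a * π b → π a * π b ≠ π b * π a →
      π (a * b⁻¹) = π a * π b⁻¹ := by
    intro a b h hne
    rcases hd a b⁻¹ with h1 | h1
    · exact h1
    · exfalso
      have h2 := symP a b h
      have h3 : π (a * b⁻¹ * (b * a)) = π a * π a := by rw [← hsq]; congr 1; group
      rw [hinv] at h1
      rcases hd (a * b⁻¹) (b * a) with h4 | h4
      · rw [h3, h1, h2] at h4
        apply hne
        have h5 : π a = (π b)⁻¹ * π a * π b := by
          apply mul_right_cancel (b := π a); rw [h4]; group
        calc π a * π b = π b * ((π b)⁻¹ * π a * π b) := by group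
          _ = π b * π a := by rw [← h5]
      · rw [h3, h1, h2] at h4
        apply hne
        have h5 : π a = π b * π a * (π b)⁻¹ := by
          apply mul_right_cancel (b := π a); rw [h4]; group
        calc π a * π b = π b * π a * (π b)⁻¹ * π b := by rw [← h5]
          _ = π b * π a := by group
  have alt : ∀ a b c, π (a * b) = π a * π b → π a * π b ≠ π b * π a →
      π (a * c) = π c * π a → π a * π c ≠ π c * π a →
      π c * π a * π b = π b * π a * π c ∨ π b * π c = π c * π b := by
    intro a b c hP hPn hQ hQn
    have h1 := hd b (a * c)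
    have h2 := hd (b * a) c
    rw [← mul_assoc, hQ] at h1
    rw [symP a b hP] at h2
    rcases h1 with h1 | h1 <;> rcases h2 with h2 | h2
    · exfalso; apply hQn
      apply mul_left_cancel (a := π b)
      rw [← h1, h2]; group
    · right
      apply mul_right_cancel (b := π a)
      rw [mul_assoc, ← h1, h2]; group
    · left; rw [← h1, h2]
    · exfalso; apply hPn
      apply mul_left_cancel (a := π c)
      rw [← h2, h1]; group
  have nocomm : ∀ a b c, π (a * b) = π a * π b → π a * π b ≠ π b * π a →
      π (a * c) = π c * π a → π a * π c ≠ π c * π a → π b * π c = π c * π b := by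
    intro a b c hP hPn hQ hQn
    by_contra hne
    have h1 := (alt a b c hP hPn hQ hQn).resolve_right hne
    have h2 := (alt a b⁻¹ c (invP a b hP hPn) (by
      rw [hinv]; intro h; apply hPn
      calc π a * π b = π b * ((π b)⁻¹ * π a) * π b := by group
        _ = π b * π a := by rw [← h]; group) hQ hQn).resolve_right (by
      rw [hinv]; intro h; apply hne
      calc π b * π c = π b * (π c * (π b)⁻¹) * π b := by group
        _ = π c * π b := by rw [← h]; group)
    rw [hinv] at h2
    have h3 : π b * π b * (π a * π c) = π a * π c * (π b * π b) := by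
      calc π b * π b * (π a * π c) = π b * (π b * π a * π c) := by group
        _ = π b * (π c * π a * (π b)⁻¹) * (π b * π b) := by rw [← h1]; group
        _ = _ := by rw [h2]; group
    have h4 := comm_of_sq hodd h3
    apply hQn
    apply mul_right_cancel (b := π b)
    rw [h1, ← h4]; group
  have row : ∀ a, (∀ b, π (a * b) = π a * π b) ∨ ∀ b, π (a * b) = π b * π a := by
    intro a
    by_contra hc
    push Not at hc
    obtain ⟨⟨c, hc⟩, ⟨b, hb⟩⟩ := hc
    have hQ := (hd a c).resolve_left hc
    have hP := (hd a b).resolve_right hb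
    have hQn : π a * π c ≠ π c * π a := by rw [← hQ]; exact fun h => hc h.symm
    have hPn : π a * π b ≠ π b * π a := by rw [← hP]; exact hb
    have h1 := nocomm a b c hP hPn hQ hQn
    have hQ2 : π (a * (a * c)) = π (a * c) * π a := by
      rcases hd a (a * c) with h | h
      · exfalso
        have h' := hd (a * a) c
        rw [mul_assoc, h, hQ, hsq] at h'
        rcases h' with h' | h'
        · apply hQn
          apply mul_left_cancel (a := π a)
          rw [h']; group
        · apply hQn
          apply mul_right_cancel (b := π a)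
          rw [mul_assoc, h']; group
      · exact h
    have h2 := nocomm a b (a * c) hP hPn hQ2 (by
      rw [hQ]; intro h; apply hQn
      apply mul_right_cancel (b := π a)
      rw [mul_assoc, h])
    rw [hQ, ← mul_assoc, h1] at h2
    apply hPn
    apply mul_left_cancel (a := π c)
    rw [← mul_assoc, ← mul_assoc, h2]
  by_cases hall : ∀ a b, π (a * b) = π a * π b
  · exact ⟨{ π with map_mul' := hall }⟩
  · push Not at hall
    obtain ⟨c, d, hcd⟩ := hall
    have hc : ∀ b, π (c * b) = π b * π c := (row c).resolve_left (fun h => hcd (h d))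
    have hQ : ∀ a b, π (a * b) = π b * π a := by
      intro a
      by_contra hna
      have ha : ∀ b, π (a * b) = π a * π b := (row a).resolve_right hna
      rcases row (a * c) with h | h
      · apply hcd
        apply mul_left_cancel (a := π a)
        rw [← ha, ← mul_assoc, h, ha, mul_assoc]
      · apply hna
        intro b
        have h1 : π (b * (a * c)) = π (a * c) * π b := symQ _ _ (h b)
        have h2 : π (b * a * c) = π c * π (b * a) := symQ _ _ (hc (b * a))
        have h3 : π (a * c) = π c * π a := symQ _ _ (hc a)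
        rw [← mul_assoc, h2, h3, mul_assoc] at h1
        exact symQ _ _ (mul_left_cancel h1)
    refine ⟨{ toFun := fun a => (π a)⁻¹, invFun := fun y => π.symm y⁻¹,
              left_inv := fun a => by simp, right_inv := fun y => by simp,
              map_mul' := fun a b => by rw [hQ]; simp }⟩

end scott

section generic

variable {G H : Type} [Group G] [Group H] [Fintype G] [Fintype H] {K : Type} [Field K] [CharP K 2]

theorem iso_of_pow (hG : Odd (Fintype.card G)) (hH : Odd (Fintype.card H)) (π : G ≃ H)
    (hinv : ∀ a, π a⁻¹ = (π a)⁻¹)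
    (h : ∀ (c : G → K[X]) (k : ℕ) (g : G), ((∑ a, single a (c a)) ^ k).coeff g =
      ((∑ a, single (π a) (c a)) ^ k).coeff (π g)) : Nonempty (G ≃* H) := by
  classical
  have h2 : ∀ (a b : G) (k : ℕ) (g : G),
      ((single a (X : K[X]) + single b 1) ^ k).coeff g =
        ((single (π a) (X : K[X]) + single (π b) 1) ^ k).coeff (π g) := by
    intro a b k g
    have e1 : (∑ u, single u ((if u = a then (X : K[X]) else 0) + if u = b then 1 else 0)) =
        single a X + single b 1 := by
      simp only [single_add, Finset.sum_add_distrib, apply_ite (single _), single_zero,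
        Finset.sum_ite_eq', Finset.mem_univ, if_true]
    have e2 : (∑ u, single (π u) ((if u = a then (X : K[X]) else 0) + if u = b then 1 else 0)) =
        single (π a) X + single (π b) 1 := by
      simp only [single_add, Finset.sum_add_distrib, apply_ite (single _), single_zero,
        Finset.sum_ite_eq', Finset.mem_univ, if_true]
    rw [← e1, ← e2, h]
  have s2 : ∀ a b g : G, ((if a * b = g then 1 else 0) + (if b * a = g then 1 else 0) : K) =
      (if π a * π b = π g then 1 else 0) + (if π b * π a = π g then 1 else 0) := by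
    intro a b g
    have := congrArg (fun p : K[X] => p.coeff 1) (h2 a b 2 g)
    simp only [pow_two, mul_add, add_mul, single_mul_single, MonoidAlgebra.coeff_add,
      Finsupp.add_apply, MonoidAlgebra.coeff_single, Finsupp.single_apply, Polynomial.coeff_add, apply_ite (fun p : K[X] => p.coeff 1),
      mul_one, one_mul, coeff_X_mul, coeff_X_zero, coeff_X_one, Polynomial.coeff_zero,
      Polynomial.coeff_one, ite_self, zero_add, add_zero, one_ne_zero, if_false] at this
    linear_combination this
  have sq : ∀ a : G, π (a * a) = π a * π a := by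
    intro a
    have := congrArg (fun p : K[X] => p.coeff 2) (h2 a a 2 (a * a))
    by_contra hne
    simp [pow_two, mul_add, add_mul, single_mul_single, coeff_X_mul, coeff_X, coeff_one,
      Finsupp.single_apply, Ne.symm hne] at this
  have comm : ∀ a b : G, a * b = b * a → π a * π b = π b * π a := by
    intro a b hab
    have := s2 a b (π.symm (π a * π b))
    rw [hab, CharTwo.add_self_eq_zero, Equiv.apply_symm_apply, if_pos rfl] at this
    by_contra hne
    rw [if_neg (Ne.symm hne)] at this
    simp at this
  have cube : ∀ a b : G, a * b = b * a → π (a * a * b) = π a * π a * π b := by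
    intro a b hab
    have hab' := comm a b hab
    have := congrArg (fun p : K[X] => p.coeff 2) (h2 a b 3 (a * a * b))
    have e1 : a * b * a = a * a * b := by rw [mul_assoc, ← hab, mul_assoc]
    have e2 : b * a * a = a * a * b := by rw [← hab, e1]
    have e1' : π a * π b * π a = π a * π a * π b := by rw [mul_assoc, ← hab', mul_assoc]
    have e2' : π b * π a * π a = π a * π a * π b := by rw [← hab', e1']
    by_contra hne
    simp only [pow_succ, pow_zero, one_mul, mul_add, add_mul, single_mul_single,
      MonoidAlgebra.coeff_add, e1, e2, e1', e2',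
      Finsupp.add_apply, MonoidAlgebra.coeff_single, Finsupp.single_apply, Polynomial.coeff_add, apply_ite (fun p : K[X] => p.coeff 2),
      mul_one, coeff_mul_X, coeff_X_zero, coeff_X_one, Polynomial.coeff_zero, coeff_X,
      Polynomial.coeff_one, ite_self, zero_add, add_zero, if_neg (Ne.symm hne), if_true] at this
    norm_num at this
    have h3 : (1 : K) + 1 = 0 := CharTwo.add_self_eq_zero 1
    apply (one_ne_zero : (1 : K) ≠ 0)
    linear_combination this - h3
  have commP : ∀ a b : G, a * b = b * a → π (a * b) = π a * π b := by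
    intro a b hab
    obtain ⟨k, hk⟩ := hG
    have h1 : a ^ (k + 1) * a ^ (k + 1) = a := by
      rw [← pow_add, show k + 1 + (k + 1) = Fintype.card G + 1 by omega, pow_succ,
        pow_card_eq_one, one_mul]
    have h3 : Commute a b := hab
    have h4 := cube (a ^ (k + 1)) b (h3.pow_left (k + 1))
    rw [← sq, h1] at h4
    exact h4
  apply scott hH π hinv
  intro a b
  by_cases hab : a * b = b * a
  · exact Or.inl ⟨commP a b hab, commP b a hab.symm⟩
  · have t1 := s2 a b (a * b)
    have t2 := s2 a b (b * a)
    rw [if_pos rfl, if_neg (Ne.symm hab)] at t1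
    rw [if_pos rfl, if_neg hab] at t2
    have hne : π (a * b) ≠ π (b * a) := fun h => hab (π.injective h)
    by_cases c1 : π a * π b = π (a * b)
    · left
      refine ⟨c1.symm, ?_⟩
      by_contra c2
      rw [if_neg (by rw [c1]; exact hne), if_neg (Ne.symm c2)] at t2
      simp at t2
    · right
      have c2 : π b * π a = π (a * b) := by
        by_contra c2
        rw [if_neg c1, if_neg c2] at t1
        simp at t1
      refine ⟨c2.symm, ?_⟩
      by_contra c3
      rw [if_neg (Ne.symm c3), if_neg (by rw [c2]; exact hne)] at t2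
      simp at t2

theorem exists_der (ι : Type) [DecidableEq ι] (K : Type) [Field K] (h : ι) :
    ∃ D : FractionRing (MvPolynomial ι K) →+ FractionRing (MvPolynomial ι K),
      (∀ a b, D (a * b) = a * D b + D a * b) ∧
      ∀ g, D (algebraMap (MvPolynomial ι K) _ (MvPolynomial.X g)) = if g = h then 1 else 0 := by
  let R := MvPolynomial ι K
  let F := FractionRing R
  let σ0 : R →+* DualNumber F :=
    MvPolynomial.eval₂Hom ((algebraMap F (DualNumber F)).comp ((algebraMap R F).comp MvPolynomial.C))
      (fun g => TrivSqZeroExt.inl (algebraMap R F (MvPolynomial.X g)) +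
        TrivSqZeroExt.inr (if g = h then (1 : F) else 0))
  have hf : ∀ r : R, (σ0 r).fst = algebraMap R F r := by
    intro r
    have : (TrivSqZeroExt.fstHom F F F).toRingHom.comp σ0 = algebraMap R F := by
      apply MvPolynomial.ringHom_ext
      · intro a; simp [σ0]
      · intro g; simp [σ0]
    exact RingHom.congr_fun this r
  have hu : ∀ y : nonZeroDivisors R, IsUnit (σ0 y) := by
    intro y
    rw [TrivSqZeroExt.isUnit_iff_isUnit_fst, hf]
    exact IsLocalization.map_units F y
  let σ : F →+* DualNumber F := IsLocalization.lift hu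
  have hσ : ∀ a : F, (σ a).fst = a := by
    intro a
    have : (TrivSqZeroExt.fstHom F F F).toRingHom.comp σ = RingHom.id F := by
      apply IsLocalization.ringHom_ext (nonZeroDivisors R)
      apply RingHom.ext
      intro r
      have e : σ (algebraMap R F r) = σ0 r := IsLocalization.lift_eq hu r
      show (σ (algebraMap R F r)).fst = algebraMap R F r
      rw [e, hf]
    exact RingHom.congr_fun this a
  refine ⟨{ toFun := fun a => (σ a).snd, map_zero' := by simp, map_add' := by simp }, ?_, ?_⟩
  · intro a b
    simp [hσ]
  · intro g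
    have e : σ (algebraMap R F (MvPolynomial.X g)) = σ0 (MvPolynomial.X g) :=
      IsLocalization.lift_eq hu _
    show (σ (algebraMap R F (MvPolynomial.X g))).snd = _
    have e' : σ0 (MvPolynomial.X g) = TrivSqZeroExt.inl (algebraMap R F (MvPolynomial.X g)) +
        TrivSqZeroExt.inr (if g = h then (1 : F) else 0) := MvPolynomial.eval₂Hom_X' _ _ _
    rw [e, e']
    simp

theorem main (hG : Odd (Fintype.card G)) (hH : Odd (Fintype.card H)) (π : G ≃ H)
    (he : minpoly (FractionRing (MvPolynomial G K))
      (∑ g : G, (algebraMap (MvPolynomial G K) (FractionRing (MvPolynomial G K))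
        (MvPolynomial.X g)) • MonoidAlgebra.single g (1 : FractionRing (MvPolynomial G K))) =
      minpoly (FractionRing (MvPolynomial G K))
      (∑ g : G, (algebraMap (MvPolynomial G K) (FractionRing (MvPolynomial G K))
        (MvPolynomial.X g)) • MonoidAlgebra.single (π g) (1 : FractionRing (MvPolynomial G K)))) :
    Nonempty (G ≃* H) := by
  classical
  have : CharP (FractionRing (MvPolynomial G K)) 2 :=
    charP_of_injective_algebraMap (algebraMap K (FractionRing (MvPolynomial G K))).injective 2
  choose D hD hDX using exists_der G K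
  have key := transfer hG hH π D hD _ _ (by
      intro h
      simp only [MonoidAlgebra.map_sum, smul_single, smul_eq_mul, mul_one,
        MonoidAlgebra.map_single, hDX, apply_ite (single _), single_zero, Finset.sum_ite_eq',
        Finset.mem_univ, if_true]) (by
      intro h
      simp only [MonoidAlgebra.map_sum, smul_single, smul_eq_mul, mul_one,
        MonoidAlgebra.map_single, hDX, apply_ite (single _), single_zero, Finset.sum_ite_eq',
        Finset.mem_univ, if_true]) he
  have hinv : ∀ a, π a⁻¹ = (π a)⁻¹ := by
    intro a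
    have h1 := key X a
    simp only [aeval_X, smul_single, smul_eq_mul, mul_one, MonoidAlgebra.coeff_sum,
      Finsupp.coe_finsetSum, Finset.sum_apply, MonoidAlgebra.coeff_single, Finsupp.single_apply, Finset.sum_ite_eq',
      Finset.mem_univ, if_true, ← Equiv.eq_symm_apply] at h1
    have h2 := MvPolynomial.X_injective (IsFractionRing.injective (MvPolynomial G K) (FractionRing (MvPolynomial G K)) h1)
    rw [h2]; simp
  apply iso_of_pow (K := K) hG hH π hinv
  intro c k g
  have h1 := key (X ^ k) g⁻¹
  rw [hinv, inv_inv, inv_inv, map_pow, map_pow, aeval_X, aeval_X] at h1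
  have e1 : ∀ {M : Type} [Group M] (f : G → M), (∑ g : G, (algebraMap (MvPolynomial G K) (FractionRing (MvPolynomial G K)) (MvPolynomial.X g)) •
      MonoidAlgebra.single (f g) (1 : FractionRing (MvPolynomial G K))) =
      MonoidAlgebra.mapRingHom M (algebraMap (MvPolynomial G K) (FractionRing (MvPolynomial G K))) (∑ g : G, single (f g) (MvPolynomial.X g)) := by
    intro M _ f
    simp only [map_sum, mapRingHom_single, smul_single, smul_eq_mul, mul_one]
  have e2 : ∀ {M : Type} [Group M] (f : G → M), (∑ g : G, single (f g) (c g)) =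
      MonoidAlgebra.mapRingHom M (MvPolynomial.aeval c : MvPolynomial G K →ₐ[K] K[X]).toRingHom
        (∑ g : G, single (f g) (MvPolynomial.X g)) := by
    intro M _ f
    simp
  rw [e1 (fun g => g), e1 π, ← map_pow, ← map_pow, coeff_mapRingHom, coeff_mapRingHom] at h1
  rw [e2 (fun g => g), e2 π, ← map_pow, ← map_pow, coeff_mapRingHom, coeff_mapRingHom,
    IsFractionRing.injective (MvPolynomial G K) (FractionRing (MvPolynomial G K)) h1]

theorem eps_root {F : Type} [Field F] {M : Type} [Group M] (f : G → M) (c : G → F) :
    (minpoly F (∑ g : G, c g • MonoidAlgebra.single (f g) (1 : F))).eval (∑ g, c g) = 0 := by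
  have h := congrArg (MonoidAlgebra.lift F F M 1)
    (minpoly.aeval F (∑ g : G, c g • MonoidAlgebra.single (f g) (1 : F)))
  rw [← aeval_algHom_apply, map_zero] at h
  simpa using h

theorem eq_of_coeff {F : Type} [Field F] (p q : F[X]) (hp : p.Monic) (hq : q.Monic)
    (hd : p.natDegree = q.natDegree) (h : ∀ j, 1 ≤ j → j < p.natDegree → p.coeff j = q.coeff j)
    (e : F) (h1 : p.eval e = 0) (h2 : q.eval e = 0) : p = q := by
  have h3 : p - q = C ((p - q).coeff 0) := by
    apply eq_C_of_natDegree_le_zero
    rw [natDegree_le_iff_coeff_eq_zero]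
    intro j hj
    rw [Polynomial.coeff_sub]
    rcases lt_trichotomy j p.natDegree with h4 | h4 | h4
    · rw [h j hj h4, sub_self]
    · rw [h4, coeff_natDegree, hp.leadingCoeff, hd, coeff_natDegree, hq.leadingCoeff, sub_self]
    · rw [coeff_eq_zero_of_natDegree_lt h4, coeff_eq_zero_of_natDegree_lt (hd ▸ h4), sub_self]
  have h4 := congrArg (eval e) h3
  rw [eval_sub, h1, h2, eval_C, sub_self] at h4
  rw [← h4, C_0] at h3
  exact sub_eq_zero.1 h3

end generic

end Pool.Agent.H22.Hoehnke
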