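import Mathlib

/-! A compactly supported window of non-constant modulus with a Gabor orthonormal basis. -/

namespace Pool.Agent.H22.LW

open MeasureTheory Set Filter Topology Complex
open scoped Real ComplexConjugate

noncomputable def ch (n : ℤ) (x : ℝ) : ℝ := if ⌈x⌉ = n + 1 then 1 else 0
noncomputable def A (x : ℝ) : ℝ := (ch 0 x + 7 * ch 1 x) / 10
noncomputable def B (x : ℝ) : ℝ := (-7 * ch 0 x + ch 1 x) / 10
noncomputable def g (p : ℝ × ℝ) : ℂ := ((A p.1 * ch 0 p.2 + B p.1 * ch 1 p.2 : ℝ) : ℂ)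
noncomputable def e (t : ℝ) : ℂ := cexp (2 * π * I * t)
noncomputable def G (j k l m : ℤ) (p : ℝ × ℝ) : ℂ :=
  g (p.1 - j, p.2 - (2 * k : ℤ)) * e (l / 2 * p.1 + m * p.2)
noncomputable def psi (f : ℝ × ℝ → ℂ) (n m : ℤ) (x : ℝ) : ℂ :=
  ∫ y in Ioc (n : ℝ) (n + 1), e (-(m * y)) * f (x, y)

lemma ch_sub (n j : ℤ) (x : ℝ) : ch n (x - j) = ch (n + j) x := by
  simp only [ch, Int.ceil_sub_intCast]
  split_ifs <;> first | rfl | omega

lemma ceil_iff (n : ℤ) (x : ℝ) : ⌈x⌉ = n + 1 ↔ x ∈ Ioc (n : ℝ) (n + 1) := by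
  rw [Int.ceil_eq_iff]; simp

lemma ch_meas (n : ℤ) : Measurable (ch n) :=
  Measurable.ite (Int.measurable_ceil (measurableSet_singleton _)) measurable_const
    measurable_const

lemma A_meas : Measurable A := by
  have := ch_meas 0; have := ch_meas 1; unfold A; fun_prop

lemma B_meas : Measurable B := by
  have := ch_meas 0; have := ch_meas 1; unfold B; fun_prop

lemma g_meas : Measurable g := by
  have := ch_meas 0; have := ch_meas 1; have := A_meas; have := B_meas; unfold g; fun_prop

lemma AB_le (x : ℝ) : |A x| ≤ 1 ∧ |B x| ≤ 1 := by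
  simp only [A, B, ch]; split_ifs <;> norm_num [abs_le]

lemma g_le (p : ℝ × ℝ) : ‖g p‖ ≤ 2 := by
  have h1 := abs_le.mp (AB_le p.1).1
  have h2 := abs_le.mp (AB_le p.1).2
  simp only [g, norm_real, Real.norm_eq_abs, ch, abs_le]
  split_ifs <;> constructor <;> linarith

lemma out {x : ℝ} (hx : x ∉ Ioc (0 : ℝ) 2) : ch 0 x = 0 ∧ ch 1 x = 0 := by
  simp only [ch, ceil_iff, ite_eq_right_iff, mem_Ioc] at hx ⊢
  constructor <;> intro h <;> exfalso <;> apply hx <;> push_cast at h <;>
    constructor <;> linarith [h.1, h.2]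

lemma g_out {p : ℝ × ℝ} (h : p.1 ∉ Ioc (0 : ℝ) 2 ∨ p.2 ∉ Ioc (0 : ℝ) 2) : g p = 0 := by
  rcases h with h | h <;> simp [g, A, B, out h]

lemma norm_e (t : ℝ) : ‖e t‖ = 1 := by
  have : (2 * π * I * t : ℂ) = ((2 * π * t : ℝ) : ℂ) * I := by push_cast; ring
  rw [e, this, norm_exp_ofReal_mul_I]

lemma e_add (s t : ℝ) : e (s + t) = e s * e t := by
  simp only [e, ← Complex.exp_add]; congr 1; push_cast; ring

lemma conj_e (t : ℝ) : conj (e t) = e (-t) := by
  simp only [e, ← exp_conj, map_mul, conj_ofReal, conj_I, map_ofNat]; congr 1; push_cast; ring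

lemma e_cont : Continuous e := by unfold e; fun_prop

lemma G_mem (j k l m : ℤ) : MemLp (G j k l m) 2 := by
  have := g_meas
  have := e_cont.measurable
  have hm : Measurable (G j k l m) := by unfold G; fun_prop
  refine HasCompactSupport.memLp_of_bound ?_ hm.aestronglyMeasurable 2
    (Eventually.of_forall fun p => ?_)
  · refine HasCompactSupport.intro ((isCompact_Icc (a := (j : ℝ)) (b := j + 2)).prod
      (isCompact_Icc (a := ((2 * k : ℤ) : ℝ)) (b := (2 * k : ℤ) + 2))) fun p hp => ?_
    rw [G, g_out, zero_mul]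
    by_contra h
    simp only [not_or, not_not, mem_Ioc] at h
    exact hp ⟨⟨by linarith [h.1.1], by linarith [h.1.2]⟩, by linarith [h.2.1], by linarith [h.2.2]⟩
  · rw [G, norm_mul, norm_e, mul_one]; exact g_le _

lemma ind (n : ℤ) (F : ℝ → ℂ) :
    (fun y => (ch n y : ℂ) * F y) = (Ioc (n : ℝ) (n + 1)).indicator F := by
  ext y
  simp only [ch, ceil_iff, indicator]
  split_ifs <;> simp

lemma slice {f : ℝ × ℝ → ℂ} (hf : MemLp f 2) : ∀ᵐ x, MemLp (fun y => f (x, y)) 2 := by
  have h2 : Integrable (fun p => ‖f p‖ ^ 2) (volume.prod volume) :=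
    (memLp_two_iff_integrable_sq_norm hf.1).mp hf
  filter_upwards [h2.prod_right_ae, AEStronglyMeasurable.prodMk_left (μ := volume) (ν := volume)
    hf.1] with x h1 h3
  exact (memLp_two_iff_integrable_sq_norm h3).mpr h1

lemma fub {f : ℝ × ℝ → ℂ} (hf : MemLp f 2) (j k l m : ℤ) :
    ∫ p, f p * conj (G j k l m p) = ∫ x, e (-(l / 2 * x)) *
      (A (x - j) * psi f (2 * k) m x + B (x - j) * psi f (2 * k + 1) m x) := by
  have hi : Integrable (fun p => f p * conj (G j k l m p)) (volume.prod volume) :=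
    hf.integrable_mul (G_mem j k l m).star
  rw [Measure.volume_eq_prod, integral_prod _ hi]
  refine integral_congr_ae ?_
  filter_upwards [slice hf] with x hx
  have h1 : ∀ n : ℤ, Integrable fun y => (ch n y : ℂ) * (e (-(m * y)) * f (x, y)) := by
    intro n
    rw [ind, integrable_indicator_iff measurableSet_Ioc]
    refine Integrable.bdd_mul (c := 1) ((hx.restrict _).integrable one_le_two)
      (e_cont.comp (by fun_prop)).aestronglyMeasurable
      (Eventually.of_forall fun y => (norm_e _).le)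
  simp only [psi, ← integral_indicator measurableSet_Ioc, ← ind]
  rw [← integral_const_mul, ← integral_const_mul,
    ← integral_add ((h1 _).const_mul _) ((h1 _).const_mul _), ← integral_const_mul]
  refine integral_congr_ae (Eventually.of_forall fun y => ?_)
  simp only [G, g, map_mul, conj_ofReal, e_add, conj_e, ch_sub, zero_add, add_comm (1 : ℤ)]
  push_cast; ring

lemma int_e (a : ℝ) {T : ℝ} (hT : 0 < T) (c : ℤ) :
    ∫ y in Ioc a (a + T), e (c / T * y) = if c = 0 then (T : ℂ) else 0 := by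
  rw [← intervalIntegral.integral_of_le (by linarith)]
  split_ifs with h
  · simp [h, e]
  · have hT' : (T : ℂ) ≠ 0 := by exact_mod_cast hT.ne'
    have h1 : ∀ y : ℝ, e (c / T * y) = cexp ((2 * π * I * c / T) * y) := fun y => by
      rw [e]; congr 1; push_cast; ring
    simp only [h1]
    rw [integral_exp_mul_complex (by simp [h, hT', Real.pi_ne_zero]), div_eq_zero_iff]
    left
    rw [sub_eq_zero, ← mul_one (cexp (_ * (a : ℂ))), ← exp_int_mul_two_pi_mul_I c,
      ← Complex.exp_add]
    congr 1; push_cast; field_simp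

lemma psi_G (j k l m n m' : ℤ) (x : ℝ) : psi (G j k l m) n m' x =
    e (l / 2 * x) * ((if n = 2 * k then (A (x - j) : ℂ) else 0) +
      (if n = 2 * k + 1 then (B (x - j) : ℂ) else 0)) * (if m = m' then 1 else 0) := by
  have h := int_e n one_pos (m - m')
  simp only [sub_eq_zero, ofReal_one] at h
  rw [← h, ← integral_const_mul, psi]
  refine setIntegral_congr_fun measurableSet_Ioc fun y hy => ?_
  have h2 := (ceil_iff n y).mpr hy
  have h3 : ((m - m' : ℤ) : ℝ) / 1 * y = -(m' * y) + m * y := by push_cast; ring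
  simp only [G, g, ch_sub, e_add, h3]
  simp only [ch, h2, zero_add, add_left_inj, add_comm (1 : ℤ)]
  split_ifs <;> push_cast <;> ring

theorem orth (j k l m j' k' l' m' : ℤ) :
    ∫ p, G j k l m p * conj (G j' k' l' m' p) =
      if j = j' ∧ k = k' ∧ l = l' ∧ m = m' then 1 else 0 := by
  rw [fub (G_mem j k l m)]
  have h : ∀ x : ℝ, e (-(l' / 2 * x)) * (A (x - j') * psi (G j k l m) (2 * k') m' x +
      B (x - j') * psi (G j k l m) (2 * k' + 1) m' x) =
      (if j = j' ∧ k = k' ∧ m = m' then 1 / 2 else 0) *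
        (Ioc (j : ℝ) (j + 2)).indicator (fun x => e (((l - l' : ℤ) : ℝ) / 2 * x)) x := by
    intro x
    have h3 : ((l - l' : ℤ) : ℝ) / 2 * x = -(l' / 2 * x) + l / 2 * x := by push_cast; ring
    have h4 : x ∈ Ioc (j : ℝ) (j + 2) ↔ ⌈x⌉ = j + 1 ∨ ⌈x⌉ = j + 2 := by
      rw [mem_Ioc, ← Int.lt_ceil, show (j : ℝ) + 2 = ((j + 2 : ℤ) : ℝ) by push_cast; ring,
        ← Int.ceil_le]
      omega
    have h5 : 2 * k' ≠ 2 * k + 1 := by omega
    have h6 : 2 * k' + 1 ≠ 2 * k := by omega
    have h7 : 2 * k' = 2 * k ↔ k = k' := by omega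
    simp only [psi_G, indicator, h3, h4, e_add, h5, h6, h7, add_left_inj, if_false, A, B, ch_sub]
    simp only [ch]
    by_cases hk : k = k' <;> by_cases hm : m = m' <;> simp only [hk, hm, if_true, if_false,
      and_true, and_false, mul_zero, zero_mul, add_zero, mul_one, zero_add]
    split_ifs <;> first | omega | (push_cast; ring)
  simp only [h]
  rw [integral_const_mul, integral_indicator measurableSet_Ioc, int_e _ two_pos]
  simp only [sub_eq_zero]
  split_ifs <;> first | tauto | norm_num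

lemma parseval {F : ℝ → ℂ} (a : ℝ) {T : ℝ} (hT : 0 < T)
    (hF : MemLp F 2 (volume.restrict (Ioc a (a + T)))) :
    HasSum (fun c : ℤ => ‖∫ y in Ioc a (a + T), e (-(c / T * y)) * F y‖ ^ 2)
      (T * ∫ y in Ioc a (a + T), ‖F y‖ ^ 2) := by
  have hab : a < a + T := by linarith
  have h := (hasSum_sq_fourierCoeffOn hab hF).mul_left (T ^ 2)
  have e1 : ∀ c : ℤ, T ^ 2 * ‖fourierCoeffOn hab F c‖ ^ 2 =
      ‖∫ y in Ioc a (a + T), e (-(c / T * y)) * F y‖ ^ 2 := by
    intro c
    rw [fourierCoeffOn_eq_integral, intervalIntegral.integral_of_le hab.le, norm_smul, ← mul_pow,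
      ← mul_assoc, add_sub_cancel_left, Real.norm_eq_abs, abs_of_pos (by positivity),
      mul_one_div_cancel hT.ne', one_mul]
    congr 2
    refine setIntegral_congr_fun measurableSet_Ioc fun y _ => ?_
    simp only [fourier_coe_apply, smul_eq_mul, e]
    congr 2; push_cast; ring
  have e2 : T ^ 2 * (a + T - a)⁻¹ • ∫ x in a..a + T, ‖F x‖ ^ 2 =
      T * ∫ y in Ioc a (a + T), ‖F y‖ ^ 2 := by
    rw [intervalIntegral.integral_of_le hab.le, add_sub_cancel_left, smul_eq_mul]
    field_simp
  simpa only [e1, e2] using h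

lemma uniq {F : ℝ → ℂ} (a : ℝ) {T : ℝ} (hT : 0 < T)
    (hF : MemLp F 2 (volume.restrict (Ioc a (a + T))))
    (h : ∀ c : ℤ, ∫ y in Ioc a (a + T), e (-(c / T * y)) * F y = 0) :
    ∀ᵐ y, y ∈ Ioc a (a + T) → F y = 0 := by
  have h1 := parseval a hT hF
  simp only [h, norm_zero, ne_eq, OfNat.ofNat_ne_zero, not_false_eq_true, zero_pow] at h1
  have h2 := (mul_eq_zero.mp (h1.unique hasSum_zero)).resolve_left hT.ne'
  rw [integral_eq_zero_iff_of_nonneg (fun _ => by positivity)
    ((memLp_two_iff_integrable_sq_norm hF.1).mp hF)] at h2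
  rw [← ae_restrict_iff' measurableSet_Ioc]
  filter_upwards [h2] with y hy
  simpa using hy

lemma psi_mem {f : ℝ × ℝ → ℂ} (hf : MemLp f 2) (n m : ℤ) : MemLp (psi f n m) 2 := by
  have h2 : Integrable (fun p => ‖f p‖ ^ 2) (volume.prod volume) :=
    (memLp_two_iff_integrable_sq_norm hf.1).mp hf
  have hm : AEStronglyMeasurable (psi f n m) volume := by
    have h3 : AEStronglyMeasurable (fun p : ℝ × ℝ => (ch n p.2 : ℂ) * (e (-(m * p.2)) * f p))
        (volume.prod volume) := by
      have := ch_meas n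
      have := e_cont.measurable
      exact (Measurable.aestronglyMeasurable (by fun_prop)).mul
        ((Measurable.aestronglyMeasurable (by fun_prop)).mul hf.1)
    refine h3.integral_prod_right'.congr (Eventually.of_forall fun x => ?_)
    simp only [psi, ← integral_indicator measurableSet_Ioc, ← ind]
  rw [memLp_two_iff_integrable_sq_norm hm]
  refine h2.integral_prod_left.mono' (hm.norm.pow 2) ?_
  filter_upwards [slice hf] with x hx
  have h4 := le_hasSum (parseval n one_pos (hx.restrict _)) m fun _ _ => by positivity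
  simp only [div_one, one_mul] at h4
  rw [Real.norm_eq_abs, abs_of_nonneg (by positivity)]
  exact h4.trans (setIntegral_le_integral ((memLp_two_iff_integrable_sq_norm hx.1).mp hx)
    (Eventually.of_forall fun _ => by positivity))

theorem complete {f : ℝ × ℝ → ℂ} (hf : MemLp f 2)
    (h : ∀ j k l m, ∫ p, f p * conj (G j k l m p) = 0) : f =ᵐ[volume] 0 := by
  have h1 : ∀ j k m : ℤ, ∀ᵐ x : ℝ, x ∈ Ioc (j : ℝ) (j + 2) →
      A (x - j) * psi f (2 * k) m x + B (x - j) * psi f (2 * k + 1) m x = 0 := by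
    intro j k m
    have := A_meas
    have := B_meas
    refine uniq j two_pos (MemLp.restrict _ (MemLp.add ?_ ?_)) fun l => ?_
    · refine (psi_mem hf (2 * k) m).of_le
        ((Measurable.aestronglyMeasurable (by fun_prop)).mul (psi_mem hf _ m).1)
        (Eventually.of_forall fun x => ?_)
      rw [norm_mul, norm_real]
      exact mul_le_of_le_one_left (norm_nonneg _) (AB_le _).1
    · refine (psi_mem hf (2 * k + 1) m).of_le
        ((Measurable.aestronglyMeasurable (by fun_prop)).mul (psi_mem hf _ m).1)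
        (Eventually.of_forall fun x => ?_)
      rw [norm_mul, norm_real]
      exact mul_le_of_le_one_left (norm_nonneg _) (AB_le _).2
    · rw [← h j k l m, fub hf]
      refine setIntegral_eq_integral_of_forall_compl_eq_zero fun x hx => ?_
      have := out (x := x - j) fun h => hx ⟨by linarith [h.1], by linarith [h.2]⟩
      simp [A, B, this]
  have h2 : ∀ᵐ x : ℝ, ∫ y, ‖f (x, y)‖ ^ 2 = 0 := by
    filter_upwards [slice hf, ae_all_iff.mpr fun j => ae_all_iff.mpr fun k =>
      ae_all_iff.mpr fun m => h1 j k m] with x hx h3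
    have h4 : ∀ n m, psi f n m x = 0 := by
      intro n m
      have a1 := Int.le_ceil x
      have a2 := Int.ceil_lt_add_one x
      have b1 := fun k => h3 (⌈x⌉ - 1) k m ⟨by push_cast; linarith, by push_cast; linarith⟩
      have b2 := fun k => h3 (⌈x⌉ - 2) k m ⟨by push_cast; linarith, by push_cast; linarith⟩
      simp only [A, B, ch_sub] at b1 b2
      simp only [ch, show ⌈x⌉ = 0 + (⌈x⌉ - 1) + 1 ↔ True from iff_true_intro (by omega),
        show ⌈x⌉ = 1 + (⌈x⌉ - 1) + 1 ↔ False from iff_false_intro (by omega),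
        show ⌈x⌉ = 0 + (⌈x⌉ - 2) + 1 ↔ False from iff_false_intro (by omega),
        show ⌈x⌉ = 1 + (⌈x⌉ - 2) + 1 ↔ True from iff_true_intro (by omega),
        if_true, if_false] at b1 b2
      push_cast at b1 b2
      rcases Int.even_or_odd' n with ⟨k, rfl | rfl⟩
      · linear_combination (b1 k + 7 * b2 k) / 5
      · linear_combination (b2 k - 7 * b1 k) / 5
    have h5 : ∀ᵐ y, ∀ n : ℤ, y ∈ Ioc (n : ℝ) (n + 1) → f (x, y) = 0 :=
      ae_all_iff.mpr fun n => uniq n one_pos (hx.restrict _) fun c => by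
        simpa only [div_one, psi] using h4 n c
    refine integral_eq_zero_of_ae ?_
    filter_upwards [h5] with y hy
    simp [hy (⌈y⌉ - 1) ((ceil_iff _ _).mp (by omega))]
  have h6 : Integrable (fun p => ‖f p‖ ^ 2) (volume.prod volume) :=
    (memLp_two_iff_integrable_sq_norm hf.1).mp hf
  have h7 : ∫ p, ‖f p‖ ^ 2 ∂(volume.prod volume) = 0 := by
    rw [integral_prod _ h6]; exact integral_eq_zero_of_ae h2
  rw [integral_eq_zero_iff_of_nonneg (fun _ => by positivity) h6] at h7
  filter_upwards [h7] with p hp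
  simpa using hp

end Pool.Agent.H22.LW
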