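import Mathlib

set_option autoImplicit false
open MeasureTheory Set Filter Topology Real

namespace Pool.Agent.H22.Lap
noncomputable section

def w (β : ℝ) (f : ℝ → ℝ) (x : ℝ) : ℝ := exp (-(β * x)) * f x

def L (f : ℝ → ℝ) (β : ℝ) : ℝ := ∫ x, w β f x

structure P (f : ℝ → ℝ) : Prop where
  z : ∀ x ≤ 0, f x = 0
  i : ∀ᶠ β in atTop, Integrable (w β f)

def cv (f g : ℝ → ℝ) (x : ℝ) : ℝ := ∫ t, f t * g (x - t)

lemma cv_eq (f g : ℝ → ℝ) : cv f g = convolution f g (ContinuousLinearMap.mul ℝ ℝ) volume := rfl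

lemma w_cv (β : ℝ) (f g : ℝ → ℝ) : w β (cv f g) = cv (w β f) (w β g) := by
  ext x
  simp only [w, cv, ← integral_const_mul]
  congr 1; ext t
  rw [show -(β * x) = -(β * t) + -(β * (x - t)) by ring, exp_add]; ring

lemma cv_int {f g : ℝ → ℝ} (hf : Integrable f) (hg : Integrable g) : Integrable (cv f g) :=
  hf.integrable_convolution (ContinuousLinearMap.mul ℝ ℝ) hg

lemma cv_integral {f g : ℝ → ℝ} (hf : Integrable f) (hg : Integrable g) :
    ∫ x, cv f g x = (∫ x, f x) * ∫ x, g x :=
  integral_convolution (ContinuousLinearMap.mul ℝ ℝ) hf hg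

lemma cv_norm {f g : ℝ → ℝ} (hf : Integrable f) (hg : Integrable g) :
    ∫ x, ‖cv f g x‖ ≤ (∫ x, ‖f x‖) * ∫ x, ‖g x‖ := by
  rw [← cv_integral hf.norm hg.norm]
  refine integral_mono (cv_int hf hg).norm (cv_int hf.norm hg.norm) fun x => ?_
  simpa [cv] using norm_integral_le_integral_norm fun t => f t * g (x - t)

lemma cv_z {f g : ℝ → ℝ} (hf : ∀ x ≤ 0, f x = 0) (hg : ∀ x ≤ 0, g x = 0) :
    ∀ x ≤ 0, cv f g x = 0 := fun x hx => by
  unfold cv
  convert integral_zero ℝ ℝ with t
  rcases le_total t 0 with h | h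
  · simp [hf t h]
  · simp [hg (x - t) (by linarith)]

variable {f g : ℝ → ℝ}

lemma P.cv (hf : P f) (hg : P g) : P (cv f g) :=
  ⟨cv_z hf.z hg.z, by filter_upwards [hf.i, hg.i] with β h1 h2 using w_cv β f g ▸ cv_int h1 h2⟩

lemma L_cv (hf : P f) (hg : P g) : ∀ᶠ β in atTop, L (cv f g) β = L f β * L g β := by
  filter_upwards [hf.i, hg.i] with β h1 h2
  rw [L, w_cv, cv_integral h1 h2]; rfl

lemma P.add (hf : P f) (hg : P g) : P fun x => f x + g x :=
  ⟨fun x hx => by simp [hf.z x hx, hg.z x hx], by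
    filter_upwards [hf.i, hg.i] with β h1 h2
    exact (h1.add h2).congr (ae_of_all _ fun x => by simp [w, mul_add])⟩

lemma L_add (hf : P f) (hg : P g) :
    ∀ᶠ β in atTop, L (fun x => f x + g x) β = L f β + L g β := by
  filter_upwards [hf.i, hg.i] with β h1 h2
  rw [L, L, L, ← integral_add h1 h2]; simp [w, mul_add]

lemma P.cm (hf : P f) (c : ℝ) : P fun x => c * f x :=
  ⟨fun x hx => by simp [hf.z x hx], by
    filter_upwards [hf.i] with β h1
    exact (h1.const_mul c).congr (ae_of_all _ fun x => by simp [w, mul_left_comm])⟩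

lemma L_cm (c : ℝ) (f : ℝ → ℝ) (β : ℝ) : L (fun x => c * f x) β = c * L f β := by
  simp [L, w, ← integral_const_mul, mul_left_comm]

lemma P.congr (hf : P f) (hz : ∀ x ≤ 0, g x = 0) (h : f =ᵐ[volume] g) : P g :=
  ⟨hz, by
    filter_upwards [hf.i] with β h1
    exact h1.congr (h.mono fun x hx => by simp [w, hx])⟩

lemma L_congr (h : f =ᵐ[volume] g) : L f = L g :=
  funext fun _ => integral_congr_ae (h.mono fun x hx => by simp [w, hx])

lemma P.loc (hf : P f) : LocallyIntegrable f := by
  obtain ⟨β, h⟩ := hf.i.exists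
  have := h.locallyIntegrable.continuous_mul (g := fun x => exp (β * x)) (by fun_prop)
  simpa [w, ← mul_assoc, ← exp_add] using this

lemma P.ii (hf : P f) (a b : ℝ) : IntervalIntegrable f volume a b :=
  (hf.loc.integrableOn_isCompact isCompact_uIcc).intervalIntegrable

lemma uniq0 (hf : P f) (h : ∀ᶠ β in atTop, L f β = 0) : f =ᵐ[volume] 0 := by
  obtain ⟨b, hb⟩ := eventually_atTop.1 (hf.i.and h)
  have h1 (n : ℕ) (x : ℝ) : exp (-x) ^ n * w b f x = w (b + n) f x := by
    rw [w, w, ← exp_nat_mul, ← mul_assoc, ← exp_add]; ring_nf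
  have h2 (p : Polynomial ℝ) : Integrable (fun x => p.eval (exp (-x)) * w b f x) ∧
      ∫ x, p.eval (exp (-x)) * w b f x = 0 := by
    induction p using Polynomial.induction_on' with
    | add p q hp hq =>
      simp only [Polynomial.eval_add, add_mul]
      exact ⟨hp.1.add hq.1, by rw [integral_add hp.1 hq.1, hp.2, hq.2, add_zero]⟩
    | monomial n a =>
      simp only [Polynomial.eval_monomial, mul_assoc, h1, integral_const_mul]
      have := hb (b + n) (by simp)
      exact ⟨this.1.const_mul _, by rw [show ∫ x, w (b + n) f x = 0 from this.2, mul_zero]⟩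
  have hF := (hb b le_rfl).1
  have h3 := isOpen_Ioi.ae_eq_zero_of_integral_contDiff_smul_eq_zero (U := Ioi (0 : ℝ))
    (hF.locallyIntegrable.locallyIntegrableOn _) fun g hg hc hs => by
    have hg' := hg.continuous
    have h0 : g 0 = 0 := image_eq_zero_of_notMem_tsupport fun h => lt_irrefl (0 : ℝ) (hs h)
    have h4 : ContinuousOn (fun t => g (-log t)) (Icc 0 1) := fun t ht => by
      rcases ht.1.eq_or_lt with rfl | h
      · have : Tendsto (fun t => -log t) (𝓝[>] 0) (cocompact ℝ) :=
          (tendsto_neg_atBot_atTop.comp tendsto_log_nhdsGT_zero).mono_right atTop_le_cocompact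
        have := (hc.is_zero_at_infty.comp this)
        refine ContinuousWithinAt.mono (continuousWithinAt_Ioi_iff_Ici.1 ?_) Icc_subset_Ici_self
        simpa [ContinuousWithinAt, h0, Function.comp_def] using this
      · exact (hg'.continuousAt.comp (continuousAt_log h.ne').neg).continuousWithinAt
    refine norm_le_zero_iff.1 (le_of_forall_pos_le_add fun ε hε => ?_)
    have h6 : 0 ≤ ∫ x, ‖w b f x‖ := integral_nonneg fun x => norm_nonneg _
    obtain ⟨p, hp⟩ := exists_polynomial_near_of_continuousOn 0 1 _ h4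
      (ε / (1 + ∫ x, ‖w b f x‖)) (by positivity)
    have h7 : Integrable fun x => g x • w b f x :=
      hF.locallyIntegrable.integrable_smul_left_of_hasCompactSupport hg' hc
    rw [← sub_zero (∫ x, _), ← (h2 p).2, ← integral_sub h7 (h2 p).1]
    refine (norm_integral_le_of_norm_le (hF.norm.const_mul (ε / (1 + ∫ x, ‖w b f x‖)))
      (ae_of_all _ fun x => ?_)).trans ?_
    · rcases le_total x 0 with hx | hx
      · simp [w, hf.z x hx]
      · have := hp (exp (-x)) ⟨(exp_pos _).le, by simpa⟩
        rw [smul_eq_mul, ← sub_mul, norm_mul, norm_sub_rev]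
        gcongr
        simpa using this.le
    · rw [integral_const_mul, (h2 p).2, zero_add, div_mul_eq_mul_div, div_le_iff₀ (by positivity)]
      nlinarith
  filter_upwards [h3] with x hx
  rcases le_or_gt x 0 with h | h
  · exact hf.z x h
  · simpa [w] using hx h

lemma uniq (hf : P f) (hg : P g) (h : ∀ᶠ β in atTop, L f β = L g β) : f =ᵐ[volume] g := by
  have := uniq0 (hf.add (hg.cm (-1))) (by
    filter_upwards [h, L_add hf (hg.cm (-1))] with β h1 h2
    rw [h2, L_cm, h1]; ring)
  filter_upwards [this] with x hx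
  simpa [add_neg_eq_zero] using hx

lemma uniq' (hf : P f) (hg : P g) (h : ∀ᶠ β in atTop, L f β = L g β)
    (h1 : ContinuousOn f (Ioi 0)) (h2 : ContinuousOn g (Ioi 0)) : EqOn f g (Ioi 0) :=
  Measure.eqOn_open_of_ae_eq (ae_restrict_of_ae (uniq hf hg h)) isOpen_Ioi h1 h2

lemma der' {b β : ℝ} (hz : ∀ x ≤ 0, f x = 0) (hb : ∀ s ≥ b, Integrable (w s f)) (hβ : b + 1 < β) :
    Integrable (w β fun x => x * f x) ∧ HasDerivAt (L f) (-L (fun x => x * f x) β) β := by
  have := hasDerivAt_integral_of_dominated_loc_of_deriv_le (μ := volume) (F := fun β => w β f)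
    (F' := fun β x => -w β (fun x => x * f x) x) (Ioi_mem_nhds hβ) (bound := fun x => ‖w b f x‖)
    (by filter_upwards [Ioi_mem_nhds hβ] with s hs using (hb s (by simp at hs; linarith)).1)
    (hb β (by linarith)) ((aestronglyMeasurable_id.mul (hb β (by linarith)).1).neg.congr
      (ae_of_all _ fun x => by simp [w, mul_left_comm]))
    (ae_of_all _ fun x s hs => ?_) (hb b le_rfl).norm (ae_of_all _ fun x s hs => ?_)
  · exact ⟨by simpa using this.1.neg, by rw [L, ← integral_neg]; exact this.2⟩
  · rcases le_total x 0 with hx | hx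
    · simp [w, hz x hx]
    · simp only [w, norm_neg, norm_mul, ← mul_assoc, norm_of_nonneg hx, norm_eq_abs, abs_exp]
      gcongr
      calc _ ≤ exp (-(s * x)) * exp x := by gcongr; linarith [add_one_le_exp x]
        _ ≤ _ := by rw [← exp_add]; gcongr; simp at hs; nlinarith
  · have : HasDerivAt (fun s => -(s * x)) (-x) s := (hasDerivAt_mul_const x).neg
    exact (this.exp.mul_const (f x)).congr_deriv (by simp only [w]; ring)

lemma der (hf : P f) : ∀ᶠ β in atTop, Integrable (w β fun x => x * f x) ∧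
    HasDerivAt (L f) (-L (fun x => x * f x) β) β := by
  obtain ⟨b, hb⟩ := eventually_atTop.1 hf.i
  filter_upwards [eventually_gt_atTop (b + 1)] with β hβ using der' hf.z hb hβ

lemma P.x (hf : P f) : P fun x => x * f x :=
  ⟨fun x hx => by simp [hf.z x hx], (der hf).mono fun _ h => h.1⟩

lemma res (hf : P f) : ∃ r, P r ∧ ∀ᶠ β in atTop, (1 + L f β) * (1 + L r β) = 1 := by
  let a : ℕ → ℝ → ℝ := fun n => n.rec (fun x => -1 * f x) fun _ => cv fun x => -1 * f x
  have h0 := hf.cm (-1)
  have h1 : ∀ᶠ β in atTop, ∫ x, ‖w β (a 0) x‖ < 1 := by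
    obtain ⟨b, hb⟩ := eventually_atTop.1 h0.i
    have := tendsto_integral_filter_of_dominated_convergence (μ := volume) (l := atTop)
      (F := fun β x => ‖w β (a 0) x‖) (f := fun _ => 0) (fun x => ‖w b (a 0) x‖)
      (h0.i.mono fun β h => h.1.norm) ?_ (hb b le_rfl).norm (ae_of_all _ fun x => ?_)
    · exact this.eventually_lt_const (by simp)
    · filter_upwards [eventually_ge_atTop b] with β h
      refine ae_of_all _ fun x => ?_
      rcases le_total x 0 with hx | hx
      · simp [w, a, hf.z x hx]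
      · simp only [w, norm_mul, norm_eq_abs, abs_exp, abs_abs]; gcongr
    · rcases le_or_gt x 0 with hx | hx
      · simp [w, a, hf.z x hx]
      · simpa [w] using ((tendsto_exp_neg_atTop_nhds_zero.comp
          (tendsto_id.atTop_mul_const hx)).mul_const (a 0 x)).norm
  have h2 : ∀ᶠ β in atTop, Integrable (w β fun x => ∑' n, a n x) ∧
      (1 + L f β) * (1 + L (fun x => ∑' n, a n x) β) = 1 := by
    filter_upwards [h1, h0.i] with β h1 h2
    have h3 (n) : Integrable (w β (a n)) ∧ ∫ x, ‖w β (a n) x‖ ≤ (∫ x, ‖w β (a 0) x‖) ^ (n + 1) ∧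
        ∫ x, w β (a n) x = (-L f β) ^ (n + 1) := by
      have h4 : ∫ x, w β (a 0) x = -L f β := (L_cm (-1) f β).trans (by ring)
      induction n with
      | zero => exact ⟨h2, by simp, by simpa using h4⟩
      | succ n ih =>
        rw [show a (n + 1) = cv (a 0) (a n) from rfl, w_cv]
        refine ⟨cv_int h2 ih.1, (cv_norm h2 ih.1).trans ?_, ?_⟩
        · rw [pow_succ']
          exact mul_le_mul_of_nonneg_left ih.2.1 (integral_nonneg fun _ => norm_nonneg _)
        · rw [cv_integral (f := w β (a 0)) h2 ih.1, ih.2.2, pow_succ' _ (n + 1), h4]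
    have h5 : Summable fun n => ∫ x, ‖w β (a n) x‖ :=
      .of_nonneg_of_le (fun n => integral_nonneg fun _ => norm_nonneg _) (fun n => (h3 n).2.1)
        ((summable_nat_add_iff 1).2 (summable_geometric_of_lt_one
          (integral_nonneg fun _ => norm_nonneg _) h1))
    have h6 : (w β fun x => ∑' n, a n x) = fun x => ∑' n, w β (a n) x :=
      funext fun x => tsum_mul_left.symm
    have h7 := hasSum_integral_of_summable_integral_norm (fun n => (h3 n).1) h5
    have h8 : ‖-L f β‖ < 1 := by
      rw [← pow_one (-L f β), ← (h3 0).2.2]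
      exact (norm_integral_le_integral_norm _).trans_lt h1
    refine ⟨h6 ▸ ⟨(AEMeasurable.tsum fun n => (h3 n).1.aemeasurable).aestronglyMeasurable, ?_⟩, ?_⟩
    · refine (lintegral_mono fun x => enorm_tsum_le_tsum_enorm).trans_lt ?_
      rw [lintegral_tsum fun n => (h3 n).1.1.enorm]
      simp_rw [← fun n => ofReal_integral_norm_eq_lintegral_enorm (h3 n).1]
      rw [← ENNReal.ofReal_tsum_of_nonneg (fun n => integral_nonneg fun _ => norm_nonneg _) h5]
      exact ENNReal.ofReal_lt_top
    · simp only [fun n => (h3 n).2.2, pow_succ] at h7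
      have := h7.unique ((hasSum_geometric_of_norm_lt_one h8).mul_right _)
      rw [L, L, h6, this, ← L]
      have : 1 + L f β ≠ 0 := fun h => by simp [show L f β = -1 by linarith] at h8
      rw [sub_neg_eq_add]; field_simp; ring
  refine ⟨_, ⟨fun x hx => ?_, h2.mono fun _ h => h.1⟩, h2.mono fun _ h => h.2⟩
  have h3 (n) : ∀ x ≤ 0, a n x = 0 := by
    induction n with
    | zero => exact h0.z
    | succ n ih => exact cv_z h0.z ih
  simp [h3 _ x hx]

end
end Pool.Agent.H22.Lap
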