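import Pool.Agent.H22.Lap1

set_option autoImplicit false
open MeasureTheory Set Filter Topology Real

namespace Pool.Agent.H22.Lap
noncomputable section

variable {f g h : ℝ → ℝ} {k : ℕ}

def I (h : ℝ → ℝ) (x : ℝ) : ℝ := ∫ t in (0 : ℝ)..x, h t

def H : ℝ → ℝ := indicator (Ioi 0) fun _ => 1

lemma w_ind (β : ℝ) (f : ℝ → ℝ) :
    w β (indicator (Ioi 0) f) = indicator (Ioi 0) fun x => exp (-(β * x)) * f x := by
  ext x; by_cases hx : x ∈ Ioi (0 : ℝ) <;> simp [w, hx]

lemma H_int {β : ℝ} (hβ : 0 < β) : Integrable (w β H) := by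
  rw [H, w_ind, integrable_indicator_iff measurableSet_Ioi]
  simpa using exp_neg_integrableOn_Ioi 0 hβ

lemma P_H : P H := ⟨fun x hx => by simp [H, hx], (eventually_gt_atTop 0).mono fun _ => H_int⟩

lemma L_H' {β : ℝ} (hβ : 0 < β) : β * L H β = 1 := by
  rw [L, H, w_ind, integral_indicator measurableSet_Ioi]
  have := integral_exp_mul_Ioi (neg_lt_zero.2 hβ) 0
  simp only [neg_mul, mul_one] at this ⊢
  rw [this]; simp [hβ.ne']

lemma L_H : ∀ᶠ β in atTop, β * L H β = 1 := (eventually_gt_atTop 0).mono fun _ => L_H'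

lemma I_eq (hf : P f) : I f = cv f H := by
  ext x
  rcases le_or_gt x 0 with hx | hx
  · rw [cv_z hf.z P_H.z x hx, I, intervalIntegral.integral_of_ge hx,
      setIntegral_eq_zero_of_forall_eq_zero fun t ht => hf.z t ht.2, neg_zero]
  · rw [I, intervalIntegral.integral_of_le hx.le, integral_Ioc_eq_integral_Ioo,
      ← integral_indicator measurableSet_Ioo, cv]
    congr 1; ext t
    rcases le_or_gt t 0 with ht | ht
    · simp [hf.z t ht, indicator]
    · simp [H, indicator, ht]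

lemma P.I (hf : P f) : P (I f) := I_eq hf ▸ hf.cv P_H

lemma L_I (hf : P f) : ∀ᶠ β in atTop, β * L (I f) β = L f β := by
  filter_upwards [L_cv hf P_H, L_H] with β h1 h2
  rw [I_eq hf, h1, mul_left_comm, h2, mul_one]

lemma I_cont (hf : P f) : Continuous (I f) := intervalIntegral.continuous_primitive hf.ii 0

abbrev C (k : ℕ) (f : ℝ → ℝ) : Prop := ContDiffOn ℝ ((k : ℕ∞) : WithTop ℕ∞) f (Ioi 0)

lemma C0 : C 0 f ↔ ContinuousOn f (Ioi 0) := by simp [C]

lemma C_succ : C (k + 1) f ↔ DifferentiableOn ℝ f (Ioi 0) ∧ C k (deriv f) := by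
  have := contDiffOn_succ_iff_deriv_of_isOpen (𝕜 := ℝ) (n := ((k : ℕ∞) : WithTop ℕ∞)) (f := f)
    (isOpen_Ioi (a := (0 : ℝ)))
  simpa [C] using this

lemma C.le {j : ℕ} (hf : C k f) (hj : j ≤ k) : C j f := hf.of_le (by exact_mod_cast hj)

lemma I_iff (hf : P f) (hc : ContinuousOn f (Ioi 0)) : C (k + 1) (I f) ↔ C k f := by
  have h1 (x) (hx : x ∈ Ioi (0 : ℝ)) : HasDerivAt (I f) (f x) x :=
    intervalIntegral.integral_hasDerivAt_right (hf.ii _ _)
      (hc.stronglyMeasurableAtFilter isOpen_Ioi x hx) (hc.continuousAt (Ioi_mem_nhds hx))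
  exact C_succ.trans ((and_iff_right fun x hx =>
    (h1 x hx).differentiableAt.differentiableWithinAt).trans
      (contDiffOn_congr fun x hx => (h1 x hx).deriv))

lemma C.cv (hf : P f) (hg : P g) (h1 : C k f) (h2 : C k g) : C k (cv f g) := fun x hx => by
  have hx : 0 < x := hx
  let φ : ContDiffBump x := ⟨3 * x / 4, 7 * x / 8, by positivity, by linarith⟩
  have h3 (f) (h1 : C k f) : ContDiff ℝ (k : ℕ∞) fun y => φ y * f y := by
    refine contDiff_iff_contDiffAt.2 fun y => ?_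
    rcases lt_or_ge y (x / 8) with h | h
    · refine contDiffAt_const.congr_of_eventuallyEq (f := fun _ => (0 : ℝ)) ?_
      filter_upwards [Iio_mem_nhds h] with z hz
      rw [φ.zero_of_le_dist, zero_mul]
      rw [dist_eq]; refine le_trans ?_ (neg_le_abs _); simp only [φ, mem_Iio] at *; linarith
    · exact φ.contDiff.contDiffAt.mul (h1.contDiffAt (Ioi_mem_nhds (by linarith)))
  have h4 (f : ℝ → ℝ) : HasCompactSupport fun y => φ y * f y := φ.hasCompactSupport.mul_right
  have h5 : LocallyIntegrable fun y => f y - φ y * f y :=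
    hf.loc.sub (hf.loc.continuous_mul φ.continuous)
  have h6 := ((h4 f).contDiff_convolution_left (.mul ℝ ℝ) (h3 f h1) hg.loc).add
    ((h4 g).contDiff_convolution_right (.mul ℝ ℝ) h5 (h3 g h2))
  refine (h6.contDiffAt.congr_of_eventuallyEq ?_).contDiffWithinAt
  filter_upwards [Ioo_mem_nhds (show x / 2 < x by linarith) (show x < 3 * x / 2 by linarith)]
    with z hz
  refine Eq.trans ?_ (integral_add
    ((h4 f).convolutionExists_left (.mul ℝ ℝ) (h3 f h1).continuous hg.loc z)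
    ((h4 g).convolutionExists_right (.mul ℝ ℝ) h5 (h3 g h2).continuous z))
  unfold Lap.cv
  congr 1; ext t
  have h7 (y) (h : x / 4 ≤ y) (h' : y ≤ z) : φ y = 1 := φ.one_of_mem_closedBall (by
    simp only [φ, Metric.mem_closedBall, dist_eq, abs_le]; constructor <;> linarith [hz.2])
  simp only [ContinuousLinearMap.mul_apply']
  rcases le_or_gt t 0 with h | h
  · simp [hf.z t h]
  rcases le_or_gt z t with h' | h'
  · simp [hg.z (z - t) (by linarith)]
  rcases le_or_gt (x / 4) t with h8 | h8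
  · simp [h7 t h8 h'.le]
  · rw [h7 (z - t) (by linarith [hz.1]) (by linarith)]; ring

def Q (q h : ℝ → ℝ) (x : ℝ) : ℝ := h x + 2 * cv q h x + cv q (cv q h) x

lemma P.Q (hf : P f) (hh : P h) : P (Q f h) := (hh.add ((hf.cv hh).cm 2)).add (hf.cv (hf.cv hh))

lemma L_Q (hf : P f) (hh : P h) : ∀ᶠ β in atTop, L (Q f h) β = (1 + L f β) ^ 2 * L h β := by
  filter_upwards [L_add (hh.add ((hf.cv hh).cm 2)) (hf.cv (hf.cv hh)), L_add hh ((hf.cv hh).cm 2),
    L_cv hf hh, L_cv hf (hf.cv hh)] with β h1 h2 h3 h4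
  rw [show L (Q f h) β = _ from h1, h2, L_cm, h4, h3]; ring

lemma C.Q (hf : P f) (hh : P h) (h1 : C k f) (h2 : C k h) : C k (Q f h) :=
  (h2.add (contDiffOn_const.mul (h1.cv hf hh h2))).add (h1.cv hf (hf.cv hh) (h1.cv hf hh h2))

lemma xI (hh : P h) (e : ∀ᶠ β in atTop, β * L (fun x => x * f x) β = L h β) :
    ∀ᶠ β in atTop, L (fun x => x * f x) β = L (I h) β := by
  filter_upwards [e, L_I hh, eventually_gt_atTop 0] with β h1 h2 h3
  exact mul_left_cancel₀ h3.ne' (h1.trans h2.symm)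

lemma step (hf : P f) (hh : P h) (e : ∀ᶠ β in atTop, β * L (fun x => x * f x) β = L h β)
    (h0 : C 0 f) (h1 : C k h) : C (k + 1) f := by
  have h2 := uniq' hf.x hh.I (xI hh e) (continuousOn_id.mul (C0.1 h0)) (I_cont hh).continuousOn
  refine (((I_iff hh h1.continuousOn).2 h1).div contDiffOn_id fun x hx => ne_of_gt hx).congr
    fun x hx => ?_
  rw [Pi.div_apply, ← h2 hx]; simp [(mem_Ioi.1 hx).ne']

lemma fix (hf : P f) (hh : P h) (e : ∀ᶠ β in atTop, β * L (fun x => x * f x) β = L h β) :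
    ∃ g, P g ∧ C 0 g ∧ f =ᵐ[volume] g := by
  have h2 : f =ᵐ[volume] fun x => I h x / x := by
    filter_upwards [uniq hf.x hh.I (xI hh e), compl_mem_ae_iff.2 (volume_singleton (a := 0))]
      with x h1 h2
    rw [← h1]; simp [show x ≠ 0 from h2]
  exact ⟨_, hf.congr (fun x hx => by simp [hh.I.z x hx]) h2,
    C0.2 ((I_cont hh).continuousOn.div continuousOn_id fun x hx => ne_of_gt hx), h2⟩

lemma sym1 (hf : P f) (hg : P g) (hh : P h) (e0 : ∀ᶠ β in atTop, (1 + L f β) * (1 + L g β) = 1)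
    (e : ∀ᶠ β in atTop, β * L (fun x => x * f x) β = L h β) :
    ∀ᶠ β in atTop, β * L (fun x => x * g x) β = L (Q g fun x => -1 * h x) β := by
  obtain ⟨b, hb⟩ := eventually_atTop.1 e0
  filter_upwards [e, e0, der hf, der hg, L_Q hg (hh.cm (-1)), eventually_gt_atTop b]
    with β h1 h2 h3 h4 h5 h6
  have h7 := ((h3.2.const_add 1).mul (h4.2.const_add 1)).unique
    ((hasDerivAt_const β (1 : ℝ)).congr_of_eventuallyEq
      (by filter_upwards [Ioi_mem_nhds h6] with s hs using hb s (le_of_lt hs)))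
  rw [h5, L_cm, ← h1]
  linear_combination (-β * (1 + L g β)) * h7 - β * L (fun x => x * g x) β * h2

lemma dh (hf : P f) (hh : P h) (e : ∀ᶠ β in atTop, β * L (fun x => x * f x) β = L h β)
    (h0 : C 0 f) : h =ᵐ[volume] indicator (Ioi 0) (deriv fun x => x * f x) := by
  have h2 := uniq' hf.x hh.I (xI hh e) (continuousOn_id.mul (C0.1 h0)) (I_cont hh).continuousOn
  filter_upwards [LocallyIntegrable.ae_hasDerivAt_integral hh.loc] with x hx
  rcases le_or_gt x 0 with h3 | h3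
  · simp [hh.z x h3, h3]
  · rw [indicator_of_mem (show x ∈ Ioi 0 from h3),
      (h2.eventuallyEq_of_mem (Ioi_mem_nhds h3)).deriv_eq]
    exact (hx 0).deriv.symm

lemma sym2 (hf : P f) (hg : P g) (hh : P h) (e0 : ∀ᶠ β in atTop, (1 + L f β) * (1 + L g β) = 1)
    (e : ∀ᶠ β in atTop, β * L (fun x => x * f x) β = L h β) (h0 : C 0 g) (h1 : C (k + 1) f) :
    C (k + 1) g := by
  have h2 := dh hf hh e (h1.le (by simp))
  have h3 := hh.congr (fun x hx => by simp [hx]) h2
  rw [L_congr h2] at e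
  have h4 : C k (indicator (Ioi 0) (deriv fun x => x * f x)) :=
    (C_succ.1 (contDiffOn_id.mul h1)).2.congr fun x hx => indicator_of_mem hx _
  have h5 (j) (hj : j ≤ k + 1) : C j g := by
    induction j with
    | zero => exact h0
    | succ j ih =>
      exact step hg (hg.Q (h3.cm (-1))) (sym1 hf hg h3 e0 e) h0 ((ih (by omega)).Q hg (h3.cm (-1))
        (contDiffOn_const.mul (h4.le (by omega))))
  exact h5 _ le_rfl

lemma main (hf : P f) (hh : P h) (e : ∀ᶠ β in atTop, β * L (fun x => x * f x) β = L h β)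
    (h0 : C 0 f) {W : ℝ → ℝ} (hW : P W) (h1 : C 0 W)
    (e1 : ∀ᶠ β in atTop, L W β = 1 / (β ^ 2 * (1 + L f β))) : C (k + 3) W ↔ C (k + 1) f := by
  obtain ⟨r, hr, e0⟩ := res hf
  obtain ⟨g, hg, h2, h3⟩ := fix hr (hr.Q (hh.cm (-1))) (sym1 hf hr hh e0 e)
  rw [L_congr h3] at e0
  have h4 := P_H.add hg.I
  have h5 : C (k + 2) H := contDiffOn_const.congr fun x hx => indicator_of_mem hx _
  have h6 := h5.continuousOn.add (I_cont hg).continuousOn
  have h7 := uniq' hW h4.I (by
    filter_upwards [e1, e0, L_I h4, L_add P_H hg.I, L_H, L_I hg, eventually_gt_atTop 0]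
      with β a1 a2 a3 a4 a5 a6 a7
    have : 1 + L f β ≠ 0 := left_ne_zero_of_mul_eq_one a2
    rw [a1, div_eq_iff (by positivity)]
    rw [a4] at a3
    linear_combination -a2 - (1 + L f β) * (β * a3 + a5 + a6)) (C0.1 h1) (I_cont h4).continuousOn
  calc _ ↔ C (k + 3) (I fun x => H x + I g x) := contDiffOn_congr h7
    _ ↔ C (k + 2) (fun x => H x + I g x) := I_iff h4 h6
    _ ↔ C (k + 2) (I g) := ⟨fun h => (h.sub h5).congr fun _ _ => by ring, h5.add⟩
    _ ↔ C (k + 1) g := I_iff hg (C0.1 h2)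
    _ ↔ _ := ⟨sym2 hg hf (hg.Q (hh.cm (-1))) (e0.mono fun _ h => (mul_comm _ _).trans h)
      (sym1 hf hg hh e0 e) h0, sym2 hf hg hh e0 e h2⟩

end
end Pool.Agent.H22.Lap
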