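import Pool.Agent.H22.Lap2

set_option autoImplicit false
open MeasureTheory Set Filter Topology Real

namespace Pool.Agent.H22.Lap
noncomputable section

structure K (κ : ℝ → ℝ → ℝ) : Prop where
  m : Measurable (Function.uncurry κ)
  z : ∀ x, ∀ y ≤ 0, κ x y = 0
  a : ∀ x y, -1 < x → x < 0 → 0 < y → |κ x y| ≤ indicator (Ioo 0 (-x)) (fun _ => -x) y
  b : ∀ x y, x ≤ -1 → 0 < y → |κ x y| ≤ 2 * exp y

def D (x y : ℝ) : ℝ := if -1 < x then indicator (Ioo 0 (-x)) (fun _ => -x) y else 2 * w 1 H y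

lemma D_int {x : ℝ} (hx : x < 0) : Integrable (D x) ∧ ∫ y, D x y ≤ 2 * min 1 (x ^ 2) := by
  unfold D
  split_ifs with h
  · refine ⟨(integrable_indicator_iff measurableSet_Ioo).2 (by simp), ?_⟩
    rw [integral_indicator measurableSet_Ioo, min_eq_right (by nlinarith)]
    simp [hx.le]; nlinarith
  · refine ⟨(H_int one_pos).const_mul _, ?_⟩
    have := L_H' one_pos
    rw [integral_const_mul, min_eq_left (by nlinarith), ← L]; linarith

variable {κ : ℝ → ℝ → ℝ} {x β : ℝ} {μ : Measure ℝ}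

lemma K.le (h : K κ) (hx : x < 0) (hβ : 2 ≤ β) (y : ℝ) : ‖w β (κ x) y‖ ≤ D x y := by
  unfold D
  rcases le_or_gt y 0 with hy | hy
  · simp [w, h.z x y hy, H, hy.not_gt, indicator]
  rw [w, norm_mul, norm_eq_abs, abs_exp, norm_eq_abs]
  split_ifs with h1
  · exact (mul_le_of_le_one_left (abs_nonneg _) (by simp; positivity)).trans (h.a x y h1 hx hy)
  · calc _ ≤ exp (-(2 * y)) * (2 * exp y) := by gcongr; exact h.b x y (not_lt.1 h1) hy
      _ = _ := by
        rw [mul_left_comm, ← exp_add]; simp [w, H, hy]; ring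

lemma K.wm (h : K κ) (β : ℝ) : Measurable (Function.uncurry fun x => w β (κ x)) :=
  (by fun_prop : Measurable fun p : ℝ × ℝ => exp (-(β * p.2))).mul h.m

lemma K.int (h : K κ) (hx : x < 0) (hβ : 2 ≤ β) : Integrable (w β (κ x)) :=
  (D_int hx).1.mono' ((h.wm β).of_uncurry_left).aestronglyMeasurable (ae_of_all _ (h.le hx hβ))

lemma K.prod (h : K κ) (h0 : ∀ᵐ x ∂μ, x < 0) (h1 : Integrable (fun x : ℝ => min 1 (x ^ 2)) μ)
    (hβ : 2 ≤ β) : Integrable (Function.uncurry fun x => w β (κ x)) (μ.prod volume) := by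
  have h2 := (h.wm β).aestronglyMeasurable (μ := μ.prod volume)
  refine (integrable_prod_iff h2).2 ⟨h0.mono fun x hx => h.int hx hβ,
    (h1.const_mul 2).mono' h2.norm.integral_prod_right' (h0.mono fun x hx => ?_)⟩
  rw [norm_of_nonneg (integral_nonneg fun _ => norm_nonneg _)]
  exact (integral_mono (h.int hx hβ).norm (D_int hx).1 (h.le hx hβ)).trans (D_int hx).2

lemma w_int (κ : ℝ → ℝ → ℝ) (β : ℝ) :
    w β (fun y => ∫ x, κ x y ∂μ) = fun y => ∫ x, w β (κ x) y ∂μ := by
  ext y; simp [w, integral_const_mul]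

lemma K.P [SFinite μ] (h : K κ) (h0 : ∀ᵐ x ∂μ, x < 0)
    (h1 : Integrable (fun x : ℝ => min 1 (x ^ 2)) μ) : P fun y => ∫ x, κ x y ∂μ :=
  ⟨fun y hy => by simp [h.z _ y hy], (eventually_ge_atTop 2).mono fun β hβ =>
    w_int κ β ▸ (h.prod h0 h1 hβ).integral_prod_right⟩

lemma K.L [SFinite μ] (h : K κ) (h0 : ∀ᵐ x ∂μ, x < 0)
    (h1 : Integrable (fun x : ℝ => min 1 (x ^ 2)) μ) (hβ : 2 ≤ β) :
    Integrable (fun x => L (κ x) β) μ ∧ L (fun y => ∫ x, κ x y ∂μ) β = ∫ x, L (κ x) β ∂μ :=
  ⟨(h.prod h0 h1 hβ).integral_prod_left, by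
    rw [Lap.L, w_int]; exact (integral_integral_swap (h.prod h0 h1 hβ)).symm⟩

def E (u : ℝ) : ℝ → ℝ := indicator (Ioo 0 u) fun _ => 1

def k1 (x y : ℝ) : ℝ := if 0 < y then (if -1 < x then -x else 0) - min y (-x) else 0

def k3 (x y : ℝ) : ℝ := y * E (-x) y

lemma K1 : K k1 where
  m := .ite (measurableSet_lt measurable_const measurable_snd)
    (.sub (.ite (measurableSet_lt measurable_const measurable_fst) (by fun_prop) (by fun_prop))
      (by fun_prop)) measurable_const
  z x y h := if_neg h.not_gt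
  a x y h1 h2 h3 := by
    simp only [k1, h1, h3, if_true, indicator, mem_Ioo, true_and]
    split_ifs with h
    · rw [min_eq_left h.le, abs_le]; constructor <;> linarith
    · simp [min_eq_right (not_lt.1 h)]
  b x y h1 h2 := by
    simp only [k1, h1.not_gt, h2, if_true, if_false, zero_sub, abs_neg]
    rw [abs_of_pos (lt_min h2 (by linarith))]
    linarith [min_le_left y (-x), add_one_le_exp y]

lemma K2 : K fun x y => y * k1 x y where
  m := measurable_snd.mul K1.m
  z x y h := by simp [K1.z x y h]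
  a x y h1 h2 h3 := by
    have := K1.a x y h1 h2 h3
    rw [abs_mul, abs_of_pos h3]
    by_cases h : y ∈ Ioo 0 (-x)
    · exact (mul_le_of_le_one_left (abs_nonneg _) (by linarith [h.2])).trans this
    · rw [indicator_of_notMem h] at this ⊢
      exact mul_nonpos_of_nonneg_of_nonpos h3.le this
  b x y h1 h2 := by
    simp only [k1, h1.not_gt, h2, if_true, if_false, zero_sub, abs_neg, abs_mul]
    rw [abs_of_pos (lt_min h2 (by linarith)), abs_of_pos h2]
    nlinarith [min_le_left y (-x), quadratic_le_exp_of_nonneg h2.le]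

lemma K3 : K k3 where
  m := measurable_snd.mul (.ite ((measurableSet_lt measurable_const measurable_snd).inter
    (measurableSet_lt measurable_snd measurable_fst.neg)) measurable_const measurable_const)
  z x y h := by simp [k3, E, indicator, h.not_gt]
  a x y h1 h2 h3 := by
    by_cases h : y ∈ Ioo 0 (-x) <;> simp [k3, E, h, abs_of_pos h3]
    linarith [h.2]
  b x y h1 h2 := by
    have := add_one_le_exp y
    by_cases h : y ∈ Ioo 0 (-x) <;> simp [k3, E, h, abs_of_pos h2] <;> linarith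

lemma E_int (u β : ℝ) : Integrable (w β (E u)) := by
  have : w β (E u) = indicator (Ioo 0 u) fun x => exp (-(β * x)) := by
    ext x; by_cases h : x ∈ Ioo 0 u <;> simp [w, E, h]
  rw [this, integrable_indicator_iff measurableSet_Ioo]
  exact (Continuous.integrableOn_Icc (by fun_prop)).mono_set Ioo_subset_Icc_self

lemma P_E (u : ℝ) : P (E u) :=
  ⟨fun x hx => by simp [E, indicator, hx.not_gt], .of_forall (E_int u)⟩

lemma L_E {u : ℝ} (hu : 0 < u) (β : ℝ) : β * L (E u) β = 1 - exp (-(β * u)) := by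
  have : (fun x => β * w β (E u) x) = indicator (Ioo 0 u) fun x => β * exp (-(β * x)) := by
    ext x; by_cases h : x ∈ Ioo 0 u <;> simp [w, E, h]
  rw [L, ← integral_const_mul, this, integral_indicator measurableSet_Ioo,
    ← integral_Ioc_eq_integral_Ioo, ← intervalIntegral.integral_of_le hu.le,
    intervalIntegral.integral_eq_sub_of_hasDerivAt (f := fun x => -exp (-(β * x)))
      (fun x _ => ((hasDerivAt_const_mul β).neg.exp.neg).congr_deriv (by simp [mul_comm]))
      (Continuous.intervalIntegrable (by fun_prop) _ _)]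
  simp; ring

lemma L_k1 (hx : x < 0) (hβ : 0 < β) :
    β * L (k1 x) β = (if -1 < x then -x else 0) - L (E (-x)) β := by
  have h1 : w β (k1 x) = fun y => (if -1 < x then -x else 0) * w β H y -
      cv (w β (E (-x))) (w β H) y := by
    ext y
    rw [← w_cv, ← I_eq (P_E _)]
    rcases le_or_gt y 0 with hy | hy
    · simp [w, K1.z x y hy, P_H.z y hy, (P_E _).I.z y hy]
    · rw [w, w, w, I, intervalIntegral.integral_of_le hy.le, integral_Ioc_eq_integral_Ioo, E,
        setIntegral_indicator measurableSet_Ioo, Ioo_inter_Ioo]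
      simp [k1, H, hy, hy.le, hx.le]; split_ifs <;> ring
  rw [L, h1, integral_sub ((H_int hβ).const_mul _) (cv_int (E_int ..) (H_int hβ)),
    integral_const_mul, cv_integral (E_int ..) (H_int hβ), ← L, ← L]
  linear_combination ((if -1 < x then -x else 0) - L (E (-x)) β) * L_H' hβ

lemma L_k2 (hx : x < 0) (hβ : 3 < β) :
    β * L (fun y => y * k1 x y) β = L (k1 x) β - L (k3 x) β := by
  have h1 := (der' (K1.z x) (fun s => K1.int hx) (by linarith)).2
  have h2 := (der' (b := 2) (P_E (-x)).z (fun s _ => E_int _ _) (by linarith)).2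
  have := ((hasDerivAt_id β).mul h1).unique ((h2.const_sub _).congr_of_eventuallyEq (by
    filter_upwards [Ioi_mem_nhds hβ] with s hs using L_k1 (β := s) hx (by linarith [mem_Ioi.1 hs])))
  simp only [id] at this
  rw [show k3 x = fun y => y * E (-x) y from rfl]; linarith

lemma mono_eq {T S : ℝ → ℝ} (hT : AntitoneOn T (Ioi 0)) (hS : ContinuousOn S (Ioi 0))
    (h : ∀ᵐ y, 0 < y → T y = S y) : EqOn T S (Ioi 0) := fun y hy => by
  have h1 := Measure.dense_of_ae h
  have h2 (U : Set ℝ) (hU : IsOpen U) (h : y ∈ closure U) :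
      y ∈ closure (U ∩ {y | 0 < y → T y = S y}) :=
    closure_minimal (h1.open_subset_closure_inter hU) isClosed_closure h
  have h3 := hS.continuousAt (Ioi_mem_nhds hy)
  refine le_antisymm (ContinuousWithinAt.closure_le (f := fun _ => T y) (h2 (Ioo 0 y) isOpen_Ioo ?_)
    continuousWithinAt_const h3.continuousWithinAt fun z hz => ?_)
    (ContinuousWithinAt.closure_le (g := fun _ => T y) (h2 (Ioi y) isOpen_Ioi (by simp))
    h3.continuousWithinAt continuousWithinAt_const fun z hz => ?_)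
  · rw [closure_Ioo (ne_of_lt hy)]; exact right_mem_Icc.2 (le_of_lt hy)
  · exact hz.2 hz.1.1 ▸ hT hz.1.1 hy hz.1.2.le
  · exact hz.2 (lt_trans hy hz.1) ▸ hT hy (mem_Ioi.2 (lt_trans hy hz.1)) (le_of_lt hz.1)

end
end Pool.Agent.H22.Lap
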