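import Mathlib

set_option autoImplicit false

namespace Pool.Agent.H22.Lat

abbrev V (d : ℕ) := Fin d → ℤ

def G (d : ℕ) : SimpleGraph (V d) where
  Adj x y := ∑ i, (x i - y i) ^ 2 = 1
  symm := ⟨fun x y h => by
    rw [← h]; exact Finset.sum_congr rfl fun i _ => by ring⟩
  loopless := ⟨fun x h => by simp at h⟩

variable {d : ℕ}

def U (u : V d) : Prop := ∃ i, ∃ s : ℤ, (s = 1 ∨ s = -1) ∧ u = Pi.single i s

lemma sq_U (u : V d) : ∑ i, u i ^ 2 = 1 ↔ U u := by
  constructor
  · intro h
    obtain ⟨i, -, hi⟩ := Finset.exists_ne_zero_of_sum_ne_zero (h ▸ one_ne_zero :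
      ∑ i, u i ^ 2 ≠ 0)
    rw [← Finset.add_sum_erase _ _ (Finset.mem_univ i)] at h
    have h1 : 0 ≤ ∑ j ∈ Finset.univ.erase i, u j ^ 2 := Finset.sum_nonneg fun j _ => sq_nonneg _
    have h2 : 0 < u i ^ 2 := lt_of_le_of_ne (sq_nonneg _) hi.symm
    have h3 : u i ^ 2 = 1 := by omega
    have h4 : ∑ j ∈ Finset.univ.erase i, u j ^ 2 = 0 := by omega
    rw [Finset.sum_eq_zero_iff_of_nonneg fun j _ => sq_nonneg _] at h4
    refine ⟨i, u i, sq_eq_one_iff_of_ne_zero_or h3, funext fun j => ?_⟩
    by_cases hj : j = i
    · subst hj; simp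
    · rw [Pi.single_eq_of_ne hj]
      exact pow_eq_zero_iff two_ne_zero |>.1 (h4 j (by simp [hj]))
  · rintro ⟨i, s, hs, rfl⟩
    rw [Finset.sum_eq_single i (fun j _ hj => by simp [hj]) (by simp)]
    rcases hs with rfl | rfl <;> simp
where
  sq_eq_one_iff_of_ne_zero_or {a : ℤ} (h : a ^ 2 = 1) : a = 1 ∨ a = -1 := sq_eq_one_iff_of_int h
  sq_eq_one_iff_of_int {a : ℤ} (h : a ^ 2 = 1) : a = 1 ∨ a = -1 := by
    have : (a - 1) * (a + 1) = 0 := by linarith
    rcases mul_eq_zero.1 this with h | h <;> omega

lemma U_neg {u : V d} (h : U u) : U (-u) := by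
  obtain ⟨i, s, hs, rfl⟩ := h
  exact ⟨i, -s, by omega, by rw [Pi.single_neg]⟩

lemma adj_iff (x y : V d) : (G d).Adj x y ↔ U (y - x) := by
  rw [← sq_U]
  show ∑ i, (x i - y i) ^ 2 = 1 ↔ _
  rw [show ∑ i, (x i - y i) ^ 2 = ∑ i, (y - x) i ^ 2 from
    Finset.sum_congr rfl fun i _ => by simp only [Pi.sub_apply]; ring]

lemma four {u v a b : V d} (hu : U u) (hv : U v) (ha : U a) (hb : U b) (h : u + a = v + b)
    (huv : u ≠ v) : u + a = 0 ∨ a = v := by
  obtain ⟨i, s, hs, rfl⟩ := hu
  obtain ⟨j, t, ht, rfl⟩ := hv
  obtain ⟨k, s', hs', rfl⟩ := ha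
  obtain ⟨l, t', ht', rfl⟩ := hb
  have h1 := congrFun h i
  simp only [Pi.add_apply, Pi.single_apply, if_true] at h1
  by_cases h2 : i = k
  · subst h2
    by_cases h3 : s' = -s
    · left; rw [h3, Pi.single_neg, add_neg_cancel]
    · exfalso
      apply huv
      by_cases h4 : i = j
      · subst h4
        congr 1
        split_ifs at h1 <;> omega
      · split_ifs at h1 <;> omega
  · right
    by_cases h3 : i = j
    · subst h3
      exfalso
      apply huv
      congr 1
      split_ifs at h1 <;> omega
    · have h4 : i = l ∧ s = t' := by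
        split_ifs at h1 with h5 <;> first | omega | exact ⟨h5, by omega⟩
      obtain ⟨rfl, rfl⟩ := h4
      rw [add_comm] at h
      exact add_right_cancel h |>.trans rfl

lemma common {x u v z : V d} (hu : U u) (hv : U v) (huv : u ≠ v) (h1 : (G d).Adj (x + u) z)
    (h2 : (G d).Adj (x + v) z) : z = x ∨ z = x + u + v := by
  rw [adj_iff] at h1 h2
  rcases four hu hv h1 h2 (by ring) huv with h | h
  · left; linear_combination h
  · right; linear_combination h

lemma const {α : Type} (f : V d → α) (h : ∀ x i, f (x + Pi.single i 1) = f x) (x : V d) :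
    f x = f 0 := by
  have h1 : ∀ (n : ℤ) x i, f (x + Pi.single i n) = f x := by
    intro n x i
    induction n using Int.induction_on with
    | zero => simp
    | succ n ih => rw [Pi.single_add, ← add_assoc, h, ih]
    | pred n ih =>
      rw [← ih, ← h _ i, add_assoc, ← Pi.single_add]
      congr 3; ring
  have h2 : ∀ s : Finset (Fin d), f (∑ i ∈ s, Pi.single i (x i)) = f 0 := by
    intro s
    induction s using Finset.induction_on with
    | empty => simp
    | insert i s hi ih => rw [Finset.sum_insert hi, add_comm, h1, ih]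
  rw [← h2 Finset.univ, Finset.univ_sum_single]

theorem aut (φ : G d ≃g G d) : ∃ (σ : Equiv.Perm (Fin d)) (ε : Fin d → ℤ) (a : V d),
    (∀ i, ε i = 1 ∨ ε i = -1) ∧ ∀ x i, φ x (σ i) = a (σ i) + ε i * x i := by
  have hL : ∀ x u, U u → U (φ (x + u) - φ x) := fun x u hu =>
    (adj_iff _ _).1 (φ.map_adj_iff.2 ((adj_iff _ _).2 (by simpa using hu)))
  have hinj : ∀ x u v, φ (x + u) - φ x = φ (x + v) - φ x → u = v := fun x u v h =>
    add_left_cancel (φ.injective (sub_left_injective h))
  have hB : ∀ x u, U u → φ (x + -u) - φ x = -(φ (x + u) - φ x) := by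
    intro x u hu
    have hne : u ≠ -u := by
      obtain ⟨i, s, hs, rfl⟩ := hu
      intro h
      have := congrFun h i
      simp at this
      omega
    obtain ⟨z, hz⟩ := φ.surjective (φ (x + u) + φ (x + -u) - φ x)
    have hz' : φ z = φ (x + u) + φ (x + -u) - φ x := hz
    have h1 : (G d).Adj (x + u) z := φ.map_adj_iff.1 ((adj_iff _ _).2 (by
      rw [hz']; convert hL x _ (U_neg hu) using 1; ring))
    have h2 : (G d).Adj (x + -u) z := φ.map_adj_iff.1 ((adj_iff _ _).2 (by
      rw [hz']; convert hL x _ hu using 1; ring))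
    have h3 : z = x := by
      rcases common hu (U_neg hu) hne h1 h2 with h | h
      · exact h
      · rw [h]; ring
    rw [h3] at hz'
    linear_combination -hz'
  have hC0 : ∀ x u v, U u → U v → u ≠ v → φ (x + v + u) - φ (x + v) = φ (x + u) - φ x := by
    intro x u v hu hv huv
    by_cases h0 : u = -v
    · rw [h0, hB x v hv]; simp
    have h1 : (G d).Adj (φ x + (φ (x + u) - φ x)) (φ (x + v + u)) := by
      rw [add_sub_cancel]
      exact φ.map_adj_iff.2 ((adj_iff _ _).2 (by convert hv using 1; ring))
    have h2 : (G d).Adj (φ x + (φ (x + v) - φ x)) (φ (x + v + u)) := by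
      rw [add_sub_cancel]
      exact φ.map_adj_iff.2 ((adj_iff _ _).2 (by convert hu using 1; ring))
    rcases common (hL x u hu) (hL x v hv) (fun h => huv (hinj x u v h)) h1 h2 with h | h
    · exact absurd (by linear_combination φ.injective h) h0
    · linear_combination h
  have hC : ∀ x u v, U u → U v → φ (x + v + u) - φ (x + v) = φ (x + u) - φ x := by
    intro x u v hu hv
    by_cases huv : u = v
    · subst huv
      have := hB (x + u) u hu
      rw [add_neg_cancel_right] at this
      linear_combination this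
    · exact hC0 x u v hu hv huv
  have he : ∀ i : Fin d, U (Pi.single i 1 : V d) := fun i => ⟨i, 1, Or.inl rfl, rfl⟩
  have hD : ∀ x i, φ (x + Pi.single i 1) - φ x = φ (0 + Pi.single i 1) - φ 0 := fun x i =>
    const (fun x => φ (x + Pi.single i 1) - φ x) (fun x j => hC x _ _ (he i) (he j)) x
  choose σ ε hε hσ using fun i => hL 0 _ (he i)
  have hs : Function.Injective σ := by
    intro i k h
    by_cases h1 : ε i = ε k
    · have := congrFun (hinj 0 _ _ ((hσ i).trans (by rw [h, h1, hσ k]))) i
      by_contra h2
      simp [h2] at this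
    · have h2 : ε i = -ε k := by have := hε i; have := hε k; omega
      have := congrFun (hinj 0 _ (-Pi.single k 1) ((hσ i).trans (by
        rw [hB 0 _ (he k), h, h2, hσ k, Pi.single_neg]))) i
      simp only [Pi.single_eq_same, Pi.neg_apply, Pi.single_apply] at this
      split_ifs at this <;> omega
  refine ⟨Equiv.ofBijective σ (Finite.injective_iff_bijective.1 hs), ε, φ 0, hε, fun x i => ?_⟩
  have := const (fun x => φ x (σ i) - ε i * x i) (fun x j => by
    have h := congrFun ((hD x j).trans (hσ j)) (σ i)
    simp only [Pi.sub_apply, Pi.single_apply, hs.eq_iff, Pi.add_apply] at h ⊢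
    split_ifs at h ⊢ with h1
    · subst h1; linarith
    · linarith) x
  simp only [Pi.zero_apply, mul_zero, sub_zero] at this
  simp only [Equiv.ofBijective_apply]
  linarith

lemma line (H : SimpleGraph (V d)) (x : V d) (i : Fin d) (a b : ℤ)
    (h : ∀ t, min a b ≤ t → t < max a b →
      H.Adj (Function.update x i t) (Function.update x i (t + 1))) :
    H.Reachable (Function.update x i a) (Function.update x i b) := by
  wlog hab : a ≤ b generalizing a b
  · exact (this b a (by rwa [min_comm, max_comm]) (by omega)).symm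
  rw [min_eq_left hab, max_eq_right hab] at h
  induction b, hab using Int.leInduction with
  | base => rfl
  | succ b hb ih => exact (ih fun t h1 h2 => h t h1 (by omega)).trans (h b hb (by omega)).reachable

lemma box (H : SimpleGraph (V d)) (z z' : V d)
    (h : ∀ (x : V d) i t, (∀ j, x j = z j ∨ x j = z' j) → min (z i) (z' i) ≤ t →
      t < max (z i) (z' i) → H.Adj (Function.update x i t) (Function.update x i (t + 1))) :
    H.Reachable z z' := by
  have : ∀ s : Finset (Fin d), H.Reachable z (fun j => if j ∈ s then z' j else z j) := by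
    intro s
    induction s using Finset.induction_on with
    | empty => simp
    | insert i s hi ih =>
      refine ih.trans ?_
      have := line H (fun j => if j ∈ s then z' j else z j) i (z i) (z' i)
        (fun t => h _ i t fun j => by split_ifs <;> simp)
      convert this using 1
      · ext j
        by_cases hj : j = i
        · subst hj; simp [hi]
        · simp [hj]
      · ext j
        by_cases hj : j = i
        · subst hj; simp
        · simp [hj]
  simpa using this Finset.univ

end Pool.Agent.H22.Lat
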