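import Mathlib

set_option autoImplicit false
open MeasureTheory ProbabilityTheory Set

namespace Pool.Agent.H22.Perc3
noncomputable section

variable {ι X : Type} [MeasurableSpace X]

lemma ind (ν : ι → Measure X) [∀ i, IsProbabilityMeasure (ν i)] {S T : Set ι} (h : Disjoint S T)
    {A B : Set (ι → X)} (hA : MeasurableSet[cylinderEvents S] A)
    (hB : MeasurableSet[cylinderEvents T] B) :
    Measure.infinitePi ν (A ∩ B) = Measure.infinitePi ν A * Measure.infinitePi ν B := by
  have h1 : iIndepFun (fun (i : ι) (ω : ι → X) => ω i) (Measure.infinitePi ν) :=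
    iIndepFun_infinitePi (X := fun _ x => x) (fun _ => measurable_id)
  have h2 := indep_iSup_of_disjoint (fun i => (measurable_pi_apply i).comap_le) h1.iIndep h
  exact (Indep_iff _ _ _).1 h2 A B hA hB

lemma ind_prod {κ : Type} (ν : ι → Measure X) [∀ i, IsProbabilityMeasure (ν i)] (T0 : Set ι)
    (T : κ → Set ι) (A : Set (ι → X)) (B : κ → Set (ι → X)) (q : ENNReal) (s : Finset κ)
    (hA : MeasurableSet[cylinderEvents T0] A)
    (hB : ∀ g ∈ s, MeasurableSet[cylinderEvents (T g)] (B g))
    (h0 : ∀ g ∈ s, Disjoint T0 (T g)) (h1 : ∀ g ∈ s, ∀ h ∈ s, g ≠ h → Disjoint (T g) (T h))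
    (hq : ∀ g ∈ s, Measure.infinitePi ν (B g) ≤ q) :
    Measure.infinitePi ν (A ∩ ⋂ g ∈ s, B g) ≤ Measure.infinitePi ν A * q ^ s.card := by
  classical
  induction s using Finset.induction_on with
  | empty => simp
  | insert i s hi ih =>
    have hm : MeasurableSet[cylinderEvents (T0 ∪ ⋃ g ∈ s, T g)] (A ∩ ⋂ g ∈ s, B g) :=
      MeasurableSet.inter (cylinderEvents_mono subset_union_left _ hA)
        (Finset.measurableSet_biInter _ fun g hg => cylinderEvents_mono
          (subset_union_of_subset_right (subset_biUnion_of_mem (u := T) (Finset.mem_coe.2 hg)) _) _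
          (hB g (Finset.mem_insert_of_mem hg)))
    have hd : Disjoint (T0 ∪ ⋃ g ∈ s, T g) (T i) := by
      rw [disjoint_union_left]
      refine ⟨h0 i (Finset.mem_insert_self _ _), ?_⟩
      simp only [disjoint_iUnion_left]
      intro g hg
      exact h1 g (Finset.mem_insert_of_mem hg) i (Finset.mem_insert_self _ _)
        (by rintro rfl; exact hi hg)
    rw [Finset.set_biInter_insert, inter_comm (B i), ← inter_assoc,
      ind ν hd hm (hB i (Finset.mem_insert_self _ _)), Finset.card_insert_of_notMem hi, pow_succ,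
      ← mul_assoc]
    exact mul_le_mul' (ih (fun g hg => hB g (Finset.mem_insert_of_mem hg))
      (fun g hg => h0 g (Finset.mem_insert_of_mem hg))
      (fun g hg h hh => h1 g (Finset.mem_insert_of_mem hg) h (Finset.mem_insert_of_mem hh))
      (fun g hg => hq g (Finset.mem_insert_of_mem hg))) (hq i (Finset.mem_insert_self _ _))

lemma ev_meas (S : Set ι) (i : ι) (hi : i ∈ S) (A : Set X) (hA : MeasurableSet A) :
    MeasurableSet[cylinderEvents S] {ω : ι → X | ω i ∈ A} :=
  measurable_cylinderEvent_apply (X := fun _ => X) hi hA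

lemma ev_eq (ν : ι → Measure X) [∀ i, IsProbabilityMeasure (ν i)] (i : ι) (A : Set X)
    (hA : MeasurableSet A) : Measure.infinitePi ν {ω : ι → X | ω i ∈ A} = ν i A := by
  have : {ω : ι → X | ω i ∈ A} = (fun ω : ι → X => ω i) ⁻¹' A := rfl
  rw [this, ← Measure.map_apply (measurable_pi_apply _) hA, Measure.infinitePi_map_eval]

lemma rtg_meas {Ω α : Type} [Countable α] (m : MeasurableSpace Ω) (r : Ω → α → α → Prop)
    (hr : ∀ a b, MeasurableSet[m] {ω | r ω a b}) (a b : α) :
    MeasurableSet[m] {ω | Relation.ReflTransGen (r ω) a b} := by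
  let it : ℕ → α → Set Ω := fun n => Nat.rec (fun b => {_ω | a = b})
    (fun _ f b => ⋃ c, f c ∩ {ω | r ω c b}) n
  have h1 : ∀ n b, MeasurableSet[m] (it n b) := by
    intro n
    induction n with
    | zero => intro b; exact MeasurableSet.const _
    | succ n ih => intro b; exact MeasurableSet.iUnion fun c => (ih c).inter (hr c b)
  have h2 : ∀ n b ω, ω ∈ it n b → Relation.ReflTransGen (r ω) a b := by
    intro n
    induction n with
    | zero => rintro b ω (rfl : a = b); exact Relation.ReflTransGen.refl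
    | succ n ih =>
      intro b ω h
      obtain ⟨c, h1, h2⟩ := mem_iUnion.1 h
      exact (ih c ω h1).tail h2
  have : {ω | Relation.ReflTransGen (r ω) a b} = ⋃ n, it n b := by
    ext ω
    simp only [mem_ofPred_eq, mem_iUnion]
    refine ⟨fun h => ?_, fun ⟨n, h⟩ => h2 n b ω h⟩
    induction h with
    | refl => exact ⟨0, rfl⟩
    | tail _ h ih =>
      obtain ⟨n, hn⟩ := ih
      exact ⟨n + 1, mem_iUnion.2 ⟨_, hn, h⟩⟩
  rw [this]
  exact MeasurableSet.iUnion fun n => h1 n b

end
end Pool.Agent.H22.Perc3
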