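import Mathlib
import Pool.Agent.H22.Perc3

set_option autoImplicit false
open MeasureTheory ProbabilityTheory Set Filter Topology
open scoped NNReal

namespace Pool.Agent.H22.Lev
noncomputable section

lemma int_prod {ι X : Type} [MeasurableSpace X] (ν : ι → Measure X) [∀ i, IsProbabilityMeasure (ν i)]
    (s : Finset ι) (f : ι → X → ℂ) (hf : ∀ i, Measurable (f i)) :
    ∫ ω, ∏ i ∈ s, f i (ω i) ∂(Measure.infinitePi ν) = ∏ i ∈ s, ∫ x, f i x ∂(ν i) := by
  have h1 : iIndepFun (fun i (ω : ι → X) => f i (ω i)) (Measure.infinitePi ν) :=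
    iIndepFun_infinitePi hf
  have h2 := (h1.precomp (g := ((↑) : s → ι)) Subtype.val_injective).integral_fun_prod_eq_prod_integral
    (fun i => ((hf i).comp (measurable_pi_apply _)).aestronglyMeasurable)
  simp only [← Finset.prod_coe_sort s]
  rw [h2]
  refine Finset.prod_congr rfl fun i _ => ?_
  rw [← Measure.infinitePi_map_eval ν i, integral_map (measurable_pi_apply _).aemeasurable
    (hf i).aestronglyMeasurable]

abbrev Cell := ℕ × (ℕ → ℝ)

def un : Measure ℝ := volume.restrict (Ioc 0 1)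

instance : IsProbabilityMeasure un := ⟨by simp [un]⟩

abbrev cellM (c : ℝ≥0) : Measure Cell := (poissonMeasure c).prod (Measure.infinitePi fun _ => un)

lemma meas_prod {β : Type} [CommMonoid β] [MeasurableSpace β] [MeasurableMul₂ β] (g : ℝ → β)
    (hg : Measurable g) : Measurable fun ξ : Cell => ∏ l ∈ Finset.range ξ.1, g (ξ.2 l) :=
  measurable_from_prod_countable_right fun n => by dsimp only; fun_prop

lemma cell_int (c : ℝ≥0) (g : ℝ → ℂ) (hg : Measurable g) (hb : ∀ x, ‖g x‖ ≤ 1) :
    ∫ ξ, ∏ l ∈ Finset.range ξ.1, g (ξ.2 l) ∂(cellM c) = Complex.exp (c * (∫ u, g u ∂un - 1)) := by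
  rw [integral_prod _ (Integrable.of_bound (meas_prod g hg).aestronglyMeasurable 1
    (ae_of_all _ fun ξ => by
      rw [norm_prod]; exact Finset.prod_le_one (fun _ _ => norm_nonneg _) fun _ _ => hb _))]
  simp only [int_prod (fun _ => un) _ (fun _ => g) (fun _ => hg), Finset.prod_const,
    Finset.card_range]
  generalize ∫ u, g u ∂un = w
  rw [integral_poissonMeasure]
  calc ∑' a : ℕ, (Real.exp (-c) * c ^ a / a.factorial : ℝ) • w ^ a
      = ∑' a : ℕ, (Real.exp (-c) : ℂ) * ((c * w) ^ a / a.factorial) := by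
        congr with a
        rw [Complex.real_smul]
        push_cast
        ring
    _ = _ := by
        rw [tsum_mul_left, (NormedSpace.expSeries_div_hasSum_exp (c * w : ℂ)).tsum_eq,
          ← Complex.exp_eq_exp_ℂ, Complex.ofReal_exp, ← Complex.exp_add]
        push_cast
        ring_nf

abbrev I := ℕ × Bool
abbrev Om := I × ℕ → Cell
abbrev PP (c : I → ℝ≥0) : Measure Om := Measure.infinitePi fun p => cellM (c p.1)

def cnt (ξ : Cell) (s : ℝ) : ℝ := ∑ l ∈ Finset.range ξ.1, (Ioc 0 s).indicator 1 (ξ.2 l)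

def N (i : I) (t : ℝ) (ω : Om) : ℝ := ∑ j ∈ Finset.range ⌈t⌉₊, cnt (ω (i, j)) (t - j)

lemma cnt_meas (s : ℝ) : Measurable fun ξ => cnt ξ s :=
  measurable_from_prod_countable_right fun n => by
    unfold cnt; dsimp only
    exact Finset.measurable_sum _ fun l _ =>
      (measurable_one.indicator measurableSet_Ioc).comp (measurable_pi_apply l)

lemma N_meas' (i : I) (t : ℝ) (S : Set (I × ℕ)) (hS : ∀ j, (i, j) ∈ S) :
    Measurable[cylinderEvents S] (N i t) :=
  Finset.measurable_sum _ fun j _ => (cnt_meas _).comp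
    (measurable_cylinderEvent_apply (X := fun _ => Cell) (hS j))

lemma N_meas (i : I) (t : ℝ) : Measurable (N i t) :=
  (N_meas' i t univ fun _ => trivial).mono cylinderEvents_le_pi le_rfl

lemma N_eq (i : I) (t : ℝ) (ω : Om) {J : ℕ} (h : t ≤ J) :
    N i t ω = ∑ j ∈ Finset.range J, cnt (ω (i, j)) (t - j) := by
  refine Finset.sum_subset (Finset.range_mono (Nat.ceil_le.2 h)) fun j _ hj => ?_
  have : t ≤ j := Nat.ceil_le.1 (by simpa using hj)
  simp [cnt, Ioc_eq_empty (not_lt.2 (sub_nonpos.2 this))]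

lemma N_zero (i : I) (ω : Om) : N i 0 ω = 0 := by simp [N]

lemma N_mono (i : I) (ω : Om) : Monotone fun t => N i t ω := by
  intro s t h
  simp only
  rw [N_eq i s ω (h.trans (Nat.le_ceil t)), N]
  refine Finset.sum_le_sum fun j _ => Finset.sum_le_sum fun l _ => ?_
  exact indicator_le_indicator_of_subset (Ioc_subset_Ioc_right (by linarith)) (by simp) _

lemma N_int (i : I) (t : ℝ) (ω : Om) : ∃ n : ℕ, N i t ω = n := by
  classical
  refine ⟨∑ j ∈ Finset.range ⌈t⌉₊, ∑ l ∈ Finset.range (ω (i, j)).1,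
    if (ω (i, j)).2 l ∈ Ioc 0 (t - j) then 1 else 0, ?_⟩
  simp only [N, cnt, indicator_apply, Pi.one_apply]
  push_cast
  rfl

lemma N_right (i : I) (t : ℝ) (ω : Om) : ∀ᶠ s in 𝓝[≥] t, N i s ω = N i t ω := by
  have h1 : ∀ᶠ s : ℝ in 𝓝[≥] t, s ≤ ((⌈t⌉₊ + 1 : ℕ) : ℝ) :=
    nhdsWithin_le_nhds (Iic_mem_nhds (by push_cast; linarith [Nat.le_ceil t]))
  have h2 : ∀ a : ℝ, ∀ j : ℕ, ∀ᶠ s : ℝ in 𝓝[≥] t,
      (Ioc 0 (s - j)).indicator (1 : ℝ → ℝ) a = (Ioc 0 (t - j)).indicator 1 a := by
    intro a j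
    by_cases h : a ≤ t - j
    · filter_upwards [self_mem_nhdsWithin] with s hs
      have : a ≤ s - j := by linarith [mem_Ici.1 hs]
      simp [indicator_apply, h, this]
    · filter_upwards [nhdsWithin_le_nhds (Iio_mem_nhds (show t < a + j by linarith))] with s hs
      have : ¬ a ≤ s - j := by linarith [mem_Iio.1 hs]
      simp [h, this]
  have h3 : ∀ᶠ s : ℝ in 𝓝[≥] t, ∀ j ∈ Finset.range (⌈t⌉₊ + 1), ∀ l ∈ Finset.range (ω (i, j)).1,
      (Ioc 0 (s - j)).indicator (1 : ℝ → ℝ) ((ω (i, j)).2 l) =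
        (Ioc 0 (t - j)).indicator 1 ((ω (i, j)).2 l) := by
    simp only [eventually_all_finset]
    exact fun j _ l _ => h2 _ j
  filter_upwards [h1, h3] with s h1 h3
  rw [N_eq i s ω h1, N_eq i t ω (J := ⌈t⌉₊ + 1) (by push_cast; linarith [Nat.le_ceil t])]
  exact Finset.sum_congr rfl fun j hj => Finset.sum_congr rfl (h3 j hj)

lemma exp_ind {n : ℕ} (t : Fin (n + 1) → ℝ) (ht : Monotone t) (z : Fin n → ℂ) (s : ℝ) :
    Complex.exp (∑ m, (Ioc (t m.castSucc) (t m.succ)).indicator (fun _ => z m) s) =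
      1 + ∑ m, (Ioc (t m.castSucc) (t m.succ)).indicator (fun _ => Complex.exp (z m) - 1) s ∧
    ((∀ m, (z m).re ≤ 0) →
      (∑ m, (Ioc (t m.castSucc) (t m.succ)).indicator (fun _ => z m) s).re ≤ 0) := by
  refine ⟨?_, fun hz => ?_⟩
  · by_cases h : ∃ m : Fin n, s ∈ Ioc (t m.castSucc) (t m.succ)
    · obtain ⟨m, hm⟩ := h
      have h1 : ∀ k, k ≠ m → s ∉ Ioc (t k.castSucc) (t k.succ) := by
        intro k hk h
        rcases lt_or_gt_of_ne hk with h2 | h2
        · linarith [ht (show k.succ ≤ m.castSucc from h2), h.2, hm.1]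
        · linarith [ht (show m.succ ≤ k.castSucc from h2), h.1, hm.2]
      rw [Finset.sum_eq_single m (fun k _ hk => indicator_of_notMem (h1 k hk) _) (by simp),
        Finset.sum_eq_single m (fun k _ hk => indicator_of_notMem (h1 k hk) _) (by simp),
        indicator_of_mem hm, indicator_of_mem hm]
      ring
    · push Not at h
      simp [indicator_of_notMem (h _)]
  · rw [Complex.re_sum]
    refine Finset.sum_nonpos fun m _ => ?_
    by_cases h : s ∈ Ioc (t m.castSucc) (t m.succ) <;> simp [h, hz m]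

lemma core (c : I → ℝ≥0) (K : Finset I) {n : ℕ} (t : Fin (n + 1) → ℝ) (ht : Monotone t)
    (h0 : 0 ≤ t 0) (z : I → Fin n → ℂ) (hz : ∀ i m, (z i m).re ≤ 0) :
    ∫ ω, Complex.exp (∑ i ∈ K, ∑ m, z i m * ((N i (t m.succ) ω - N i (t m.castSucc) ω : ℝ) : ℂ))
      ∂(PP c) = Complex.exp (∑ i ∈ K, ∑ m, c i * (t m.succ - t m.castSucc : ℝ) *
        (Complex.exp (z i m) - 1)) := by
  set J := ⌈t (Fin.last n)⌉₊
  have hJ : ∀ m, t m ≤ J := fun m => (ht (Fin.le_last m)).trans (Nat.le_ceil _)
  have hm : ∀ m : Fin n, t m.castSucc ≤ t m.succ := fun m => ht (Fin.castSucc_lt_succ).le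
  let φ : I → ℝ → ℂ := fun i s => ∑ m, (Ioc (t m.castSucc) (t m.succ)).indicator (fun _ => z i m) s
  let ψ : I → ℝ → ℂ := fun i s =>
    ∑ m, (Ioc (t m.castSucc) (t m.succ)).indicator (fun _ => Complex.exp (z i m) - 1) s
  let g : I × ℕ → ℝ → ℂ := fun p u => if 0 < u then Complex.exp (φ p.1 (p.2 + u)) else 1
  have hφ : ∀ i, Measurable (φ i) := fun i =>
    Finset.measurable_sum _ fun m _ => measurable_const.indicator measurableSet_Ioc
  have hg : ∀ p, Measurable (g p) := fun p => Measurable.ite measurableSet_Ioi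
    (Complex.measurable_exp.comp ((hφ p.1).comp (measurable_const_add _))) measurable_const
  have h1 : ∀ ω, Complex.exp (∑ i ∈ K, ∑ m, z i m *
      ((N i (t m.succ) ω - N i (t m.castSucc) ω : ℝ) : ℂ)) =
      ∏ p ∈ K ×ˢ Finset.range J, ∏ l ∈ Finset.range (ω p).1, g p ((ω p).2 l) := by
    intro ω
    rw [Finset.prod_product, Complex.exp_sum]
    refine Finset.prod_congr rfl fun i _ => ?_
    simp only [N_eq i _ ω (hJ _), ← Finset.sum_sub_distrib, cnt, Complex.ofReal_sum, Finset.mul_sum]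
    rw [Finset.sum_comm, Complex.exp_sum]
    refine Finset.prod_congr rfl fun j _ => ?_
    rw [Finset.sum_comm, Complex.exp_sum]
    refine Finset.prod_congr rfl fun l _ => ?_
    generalize (ω (i, j)).2 l = u
    by_cases hu : 0 < u
    · simp only [g, if_pos hu, φ]
      congr 1
      refine Finset.sum_congr rfl fun m _ => ?_
      have := hm m
      simp only [indicator_apply, mem_Ioc, hu, true_and, Pi.one_apply, le_sub_iff_add_le']
      split_ifs with h1 h2 h3 h4 h5 h6 <;> simp <;> grind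
    · simp [g, hu]
  have hI : ∀ (a b : ℝ) (w : ℂ), Integrable ((Ioc a b).indicator fun _ => w) := fun a b w =>
    (integrableOn_const (by simp)).integrable_indicator measurableSet_Ioc
  have hψ : ∀ i a b, IntervalIntegrable (ψ i) volume a b := fun i a b =>
    (integrable_finsetSum _ fun m _ => hI _ _ _).intervalIntegrable
  have h2 : ∀ p, ∫ u, g p u ∂un - 1 = ∫ s in (p.2 : ℝ)..((p.2 + 1 : ℕ) : ℝ), ψ p.1 s := by
    intro p
    have h3 := intervalIntegral.integral_comp_add_left (a := 0) (b := 1) (ψ p.1) p.2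
    have h4 := (hψ p.1 (p.2 + 0) (p.2 + 1)).comp_add_left p.2
    simp only [add_zero, add_sub_cancel_left, sub_self] at h3 h4
    rw [un, setIntegral_congr_fun measurableSet_Ioc (g := fun u => 1 + ψ p.1 (p.2 + u))
      fun u hu => (if_pos hu.1).trans (exp_ind t ht (z p.1) _).1,
      ← intervalIntegral.integral_of_le zero_le_one,
      intervalIntegral.integral_add (by simp) h4, h3]
    simp
  simp only [h1]
  rw [int_prod (fun p : I × ℕ => cellM (c p.1)) _ _ fun p => meas_prod _ (hg p),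
    Finset.prod_congr rfl fun p _ => cell_int (c p.1) _ (hg p) fun u => ?_, ← Complex.exp_sum,
    Finset.sum_product]
  · congr 1
    refine Finset.sum_congr rfl fun i _ => ?_
    simp only [h2, ← Finset.mul_sum]
    rw [intervalIntegral.sum_integral_adjacent_intervals (a := fun k => (k : ℝ))
      fun k _ => hψ i _ _, intervalIntegral.integral_of_le (by simp)]
    simp only [ψ]
    rw [integral_finsetSum _ fun m _ => (hI _ _ _).integrableOn, Finset.mul_sum]
    refine Finset.sum_congr rfl fun m _ => ?_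
    rw [setIntegral_indicator measurableSet_Ioc, inter_eq_right.2 (Ioc_subset_Ioc
      (by simpa using h0.trans (ht (Fin.zero_le _))) (hJ _)), setIntegral_const,
      Real.volume_real_Ioc_of_le (hm m), Complex.real_smul, mul_assoc]
  · simp only [g]
    split_ifs
    · rw [Complex.norm_exp, Real.exp_le_one_iff]
      exact (exp_ind t ht (z p.1) _).2 (hz p.1)
    · simp

lemma N_law (c : I → ℝ≥0) (i : I) (a b : ℝ≥0) :
    (PP c).map (fun ω => N i (a + b) ω - N i a ω) = (poissonMeasure (c i * b)).map (↑) := by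
  have hm : Measurable fun ω => N i (a + b) ω - N i a ω := (N_meas _ _).sub (N_meas _ _)
  have := Measure.isProbabilityMeasure_map (μ := PP c) hm.aemeasurable
  refine Measure.ext_of_charFun (funext fun θ => ?_)
  have h := core c {i} ![a, a + b] (Fin.monotone_iff_le_succ.2 (by simp)) (by simp)
    (fun _ _ => θ * Complex.I) (by simp)
  rw [charFun_map_cast_poissonMeasure, charFun_apply_real, integral_map hm.aemeasurable
    (by fun_prop)]
  simp only [Finset.sum_singleton, Fin.sum_univ_one] at h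
  refine (integral_congr_ae (ae_of_all _ fun ω => ?_)).trans (h.trans ?_)
  · simp; ring_nf
  · simp

lemma N_set (c : I → ℝ≥0) (i : I) (a b : ℝ≥0) (S : Set ℝ) (hS : MeasurableSet S) :
    PP c {ω | N i (a + b) ω - N i a ω ∈ S} = poissonMeasure (c i * b) {n | (n : ℝ) ∈ S} := by
  have h := congrArg (fun μ : Measure ℝ => μ S) (N_law c i a b)
  rwa [Measure.map_apply ((N_meas _ _).fun_sub (N_meas _ _)) hS,
    Measure.map_apply (measurable_of_countable _) hS] at h

lemma po_exp (r : ℝ≥0) (θ l : ℝ) : poissonMeasure r {n | l ≤ θ * (n - r)} ≤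
    ENNReal.ofReal (Real.exp (r * (Real.exp θ - 1 - θ) - l)) := by
  have h1 := mul_meas_ge_le_lintegral (μ := poissonMeasure r)
    (f := fun n => ENNReal.ofReal (Real.exp (θ * (n - r) - l))) (measurable_of_countable _) 1
  have h2 : HasSum (fun n : ℕ => Real.exp (θ * (n - r) - l) * (Real.exp (-r) * r ^ n / n.factorial))
      (Real.exp (r * (Real.exp θ - 1 - θ) - l)) := by
    have := (NormedSpace.expSeries_div_hasSum_exp (r * Real.exp θ : ℝ)).mul_left
      (Real.exp (-θ * r - l - r))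
    rw [← Real.exp_eq_exp_ℝ, ← Real.exp_add] at this
    rw [show r * (Real.exp θ - 1 - θ) - l = -θ * r - l - r + r * Real.exp θ by ring]
    refine this.congr_fun fun n => ?_
    rw [mul_pow, ← Real.exp_nat_mul, show θ * (n - r) - l = n * θ + (-θ * r - l) by ring,
      Real.exp_add, Real.exp_sub _ r, Real.exp_neg]
    ring
  rw [one_mul, lintegral_countable'] at h1
  simp only [poissonMeasure_singleton, ← ENNReal.ofReal_mul (Real.exp_pos _).le] at h1
  rw [← ENNReal.ofReal_tsum_of_nonneg (fun _ => by positivity) h2.summable, h2.tsum_eq] at h1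
  refine (measure_mono fun n hn => ?_).trans h1
  simpa using hn

lemma dev (c : I → ℝ≥0) (m : I → ℕ) (hm : ∀ i, 1 ≤ m i) (hc : ∀ i, c i = m i ^ 4) :
    ∀ᵐ ω ∂(PP c), ∀ T : ℕ, ∀ᶠ k in atTop, ∀ b, ∀ t ∈ Icc (0 : ℝ) T,
      |N (k, b) t ω - c (k, b) * t| ≤ 2 ^ (k + 1) * m (k, b) ^ 3 := by
  rw [ae_all_iff]
  intro T
  let B : ℕ → Set Om := fun k => ⋃ b, ⋃ j ∈ Finset.range (T * m (k, b) + 2),
    {ω | (2 : ℝ) ^ k * m (k, b) ^ 3 ≤ |N (k, b) (j / m (k, b)) ω - j * m (k, b) ^ 3|}
  have h1 : ∀ k, PP c (B k) ≤ ENNReal.ofReal (4 * (T + 2) * Real.exp (T + 2) * 2⁻¹ ^ k) := by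
    intro k
    refine (measure_iUnion_fintype_le _ _).trans ((Finset.sum_le_card_nsmul _ _
      (ENNReal.ofReal (2 * (T + 2) * Real.exp (T + 2) * 2⁻¹ ^ k)) fun b _ => ?_).trans ?_)
    · set M := m (k, b)
      have hM : (1 : ℝ) ≤ M := by exact_mod_cast hm _
      refine (measure_biUnion_finset_le _ _).trans ((Finset.sum_le_card_nsmul _ _
        (ENNReal.ofReal (2 * Real.exp (T + 2 - 2 ^ k * M))) fun j hj => ?_).trans ?_)
      · have h2 := N_set c (k, b) 0 (j / M) {x | (2 : ℝ) ^ k * M ^ 3 ≤ |x - j * M ^ 3|}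
          (measurableSet_le measurable_const (by fun_prop))
        simp only [NNReal.coe_zero, zero_add, N_zero, sub_zero, NNReal.coe_div, NNReal.coe_natCast,
          mem_ofPred_eq] at h2
        rw [h2]
        obtain ⟨r, hr, hr'⟩ : ∃ r : ℝ≥0, c (k, b) * (j / M) = r ∧ (r : ℝ) = j * M ^ 3 :=
          ⟨_, rfl, by rw [hc]; change ((M ^ 4 * (j / M) : ℝ≥0) : ℝ) = _; push_cast; field_simp⟩
        have h3 : ∀ θ : ℝ, |θ| = 1 / M ^ 2 → poissonMeasure r {n | 2 ^ k * (M : ℝ) ≤ θ * (n - r)} ≤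
            ENNReal.ofReal (Real.exp (T + 2 - 2 ^ k * M)) := by
          intro θ hθ
          refine (po_exp r θ _).trans (ENNReal.ofReal_le_ofReal (Real.exp_le_exp.2 ?_))
          have h4 := (abs_le.1 (Real.abs_exp_sub_one_sub_id_le (x := θ) (by
            rw [hθ, div_le_one (by positivity)]; exact one_le_pow₀ hM))).2
          have h5 : (j : ℝ) ≤ (T + 2) * M := by
            have : (j : ℝ) ≤ (T * M + 2 : ℕ) := by exact_mod_cast (Finset.mem_range.1 hj).le
            push_cast at this; linarith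
          have h6 : r * θ ^ 2 = j / M := by rw [← sq_abs, hθ, hr']; field_simp
          have h7 := (div_le_iff₀ (by linarith)).2 h5
          nlinarith [mul_le_mul_of_nonneg_left h4 r.2]
        rw [hr, two_mul, ENNReal.ofReal_add (Real.exp_pos _).le (Real.exp_pos _).le]
        refine (measure_mono fun n hn => ?_).trans ((measure_union_le _ _).trans (add_le_add
          (h3 (1 / M ^ 2) (abs_of_pos (by positivity)))
          (h3 (-(1 / M ^ 2)) (by rw [abs_neg, abs_of_pos (by positivity)]))))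
        simp only [mem_union, mem_ofPred_eq, hr'] at hn ⊢
        refine (le_abs.1 hn).imp (fun h => ?_) fun h => ?_
        · rw [one_div, inv_mul_eq_div, le_div_iff₀ (by positivity)]; linarith
        · rw [neg_mul, ← mul_neg, one_div, inv_mul_eq_div, le_div_iff₀ (by positivity)]; linarith
      · rw [Finset.card_range, nsmul_eq_mul, ← ENNReal.ofReal_natCast,
          ← ENNReal.ofReal_mul (by positivity)]
        refine ENNReal.ofReal_le_ofReal ?_
        have h2 : 2 ^ k * M ≤ Real.exp (2 ^ k * M) := by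
          linarith [Real.add_one_le_exp (2 ^ k * M)]
        have h3 : ((T * M + 2 : ℕ) : ℝ) ≤ (T + 2) * M := by push_cast; linarith
        rw [Real.exp_sub]
        calc _ ≤ (T + 2) * M * (2 * (Real.exp (T + 2) / (2 ^ k * M))) := by gcongr
          _ = _ := by rw [inv_pow]; field_simp
    · rw [Finset.card_univ, Fintype.card_bool, two_nsmul, ← ENNReal.ofReal_add (by positivity)
        (by positivity)]
      exact le_of_eq (by congr 1; ring)
  have h2 : ∑' k, PP c (B k) ≠ ⊤ := by
    refine ne_top_of_le_ne_top ?_ (ENNReal.tsum_le_tsum h1)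
    rw [← ENNReal.ofReal_tsum_of_nonneg (fun n => by positivity)
      ((summable_geometric_of_lt_one (by norm_num) (by norm_num)).mul_left _)]
    exact ENNReal.ofReal_ne_top
  filter_upwards [ae_eventually_notMem h2] with ω hω
  filter_upwards [hω] with k hk b t ht
  simp only [B, mem_iUnion, mem_ofPred_eq, not_exists, not_le, Finset.mem_range] at hk
  set M := m (k, b)
  have hM : (1 : ℝ) ≤ M := by exact_mod_cast hm _
  have h3 := Nat.floor_le (show 0 ≤ t * M by have := ht.1; positivity)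
  have h4 := Nat.lt_floor_add_one (t * M)
  have h5 : ⌊t * M⌋₊ ≤ T * M := Nat.floor_le_of_le (by push_cast; nlinarith [ht.2])
  have h6 := abs_lt.1 (hk b ⌊t * M⌋₊ (by change _ < T * M + 2; omega))
  have h7 := abs_lt.1 (hk b (⌊t * M⌋₊ + 1) (by change _ < T * M + 2; omega))
  have h8 := N_mono (k, b) ω ((div_le_iff₀ (by linarith)).2 h3)
  have h9 := N_mono (k, b) ω ((le_div_iff₀ (by linarith)).2 h4.le)
  have h10 : (1 : ℝ) ≤ 2 ^ k := one_le_pow₀ (by norm_num)
  have h11 : (0 : ℝ) < M ^ 3 := by positivity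
  push_cast at h7
  simp only at h8 h9
  rw [hc, pow_succ 2, abs_le]
  push_cast
  constructor <;> nlinarith [mul_le_mul_of_nonneg_right h3 h11.le,
    mul_le_mul_of_nonneg_right h4.le h11.le, mul_le_mul_of_nonneg_right h10 h11.le]

end
end Pool.Agent.H22.Lev
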