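import Mathlib

namespace Pool.Agent.H22.LogHom
open FirstOrder FirstOrder.Language

universe u

/-- function symbols of the language of `K`-algebras -/
inductive Fn (K : Type u) : ℕ → Type u
  | add : Fn K 2
  | mul : Fn K 2
  | neg : Fn K 1
  | zero : Fn K 0
  | smul (c : K) : Fn K 1

/-- the language of `K`-algebras: `+`, `·`, `-`, `0` and one unary symbol per scalar -/
def lang (K : Type u) : FirstOrder.Language.{u, 0} := ⟨Fn K, fun _ => Empty⟩

/-- interpretation of the function symbols in an algebra -/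
def interp (K H : Type u) [Field K] [NonUnitalRing H] [Module K H] :
    {n : ℕ} → Fn K n → (Fin n → H) → H
  | _, .add, v => v 0 + v 1
  | _, .mul, v => v 0 * v 1
  | _, .neg, v => - v 0
  | _, .zero, _ => 0
  | _, .smul c, v => c • v 0

/-- an algebra as a first-order structure -/
@[reducible] def str (K H : Type u) [Field K] [NonUnitalRing H] [Module K H] :
    (lang K).Structure H where
  funMap := fun f v => interp K H f v
  RelMap := fun r _ => Empty.elim r

/-- two tuples have the same complete first-order type -/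
def SameType (K H : Type u) [Field K] [NonUnitalRing H] [Module K H] {m : ℕ}
    (μ₁ μ₂ : Fin m → H) : Prop :=
  ∀ φ : (lang K).Formula (Fin m),
    @Formula.Realize (lang K) H (str K H) (Fin m) φ μ₁ ↔
      @Formula.Realize (lang K) H (str K H) (Fin m) φ μ₂

/-- logically homogeneous algebra -/
def LogHomog (K H : Type u) [Field K] [NonUnitalRing H] [Module K H] : Prop :=
  ∀ (m : ℕ) (μ₁ μ₂ : Fin m → H), SameType K H μ₁ μ₂ →
    ∃ σ : H ≃ₗ[K] H, (∀ a b, σ (a * b) = σ a * σ b) ∧ ∀ i, σ (μ₁ i) = μ₂ i

/-- `Prodn k a`: `a` is a product of `k` elements -/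
inductive Prodn {A : Type u} [Mul A] : ℕ → A → Prop
  | one (a : A) : Prodn 1 a
  | mul {i j : ℕ} {a b : A} : Prodn i a → Prodn j b → Prodn (i + j) (a * b)

/-- `A ^ k` -/
def pw (K A : Type u) [Field K] [NonUnitalRing A] [Module K A] (k : ℕ) : Submodule K A :=
  Submodule.span K {a | Prodn k a}

/-- `A ^ (k)` -/
def der (K A : Type u) [Field K] [NonUnitalRing A] [Module K A] : ℕ → Submodule K A
  | 0 => ⊤
  | k + 1 => Submodule.span K {c | ∃ a ∈ der K A k, ∃ b ∈ der K A k, c = a * b}

/-- `H` is the free algebra on `x` in the variety `A ^ n = 0` -/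
def IsFreeNil (K : Type u) [Field K] (n r : ℕ) (H : Type u) [NonUnitalRing H] [Module K H]
    (x : Fin r → H) : Prop :=
  pw K H n = ⊥ ∧
    ∀ (B : Type u) [NonUnitalRing B] [Module K B] [IsScalarTower K B B] [SMulCommClass K B B],
      pw K B n = ⊥ → ∀ f : Fin r → B, ∃! φ : H →ₙₐ[K] B, ∀ i, φ (x i) = f i

/-- `H` is the free algebra on `x` in the variety `A ^ (n) = 0` -/
def IsFreeSolv (K : Type u) [Field K] (n r : ℕ) (H : Type u) [NonUnitalRing H] [Module K H]
    (x : Fin r → H) : Prop :=
  der K H n = ⊥ ∧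
    ∀ (B : Type u) [NonUnitalRing B] [Module K B] [IsScalarTower K B B] [SMulCommClass K B B],
      der K B n = ⊥ → ∀ f : Fin r → B, ∃! φ : H →ₙₐ[K] B, ∀ i, φ (x i) = f i

end Pool.Agent.H22.LogHom
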