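import Pool.Agent.H22.LogHom

namespace Pool.Agent.H22.LogHom
open FirstOrder FirstOrder.Language

universe u

section prods
variable {A : Type u} [NonUnitalRing A]

theorem Prodn.pos {k : ℕ} {a : A} (h : Prodn k a) : 1 ≤ k := by
  induction h with
  | one a => exact le_rfl
  | mul _ _ h1 h2 => omega

theorem Prodn.mul_left {k : ℕ} {b : A} (h : Prodn k b) : ∀ a : A, Prodn k (a * b) := by
  induction h with
  | one b => exact fun a => Prodn.one _
  | mul h1 h2 ih1 _ => intro a; rw [← mul_assoc]; exact Prodn.mul (ih1 a) h2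

theorem Prodn.down {k : ℕ} {c : A} (h : Prodn k c) : ∀ l, 1 ≤ l → l + 1 = k → Prodn l c := by
  induction h with
  | one a => intro l h1 h2; omega
  | @mul i j a b h1 h2 ih1 _ =>
    intro l hl hk
    have := h1.pos
    by_cases hi : i = 1
    · have : l = j := by omega
      subst this
      exact h2.mul_left a
    · have e : l = (i - 1) + j := by omega
      rw [e]
      exact Prodn.mul (ih1 (i - 1) (by omega) (by omega)) h2

theorem Prodn.anti {k l : ℕ} {c : A} (h : Prodn k c) (hl : 1 ≤ l) (hk : l ≤ k) : Prodn l c := by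
  induction k, hk using Nat.le_induction with
  | base => exact h
  | succ k hk ih => exact ih (h.down k (by omega) rfl)

theorem Prodn.split {k : ℕ} {c : A} (h : Prodn k c) :
    ∀ i j, 1 ≤ i → 1 ≤ j → i + j = k → ∃ a b, Prodn i a ∧ Prodn j b ∧ c = a * b := by
  induction h with
  | one a => intro i j h1 h2 h3; omega
  | @mul p q a b h1 h2 ih1 ih2 =>
    intro i j hi hj hk
    rcases lt_trichotomy i p with h | h | h
    · obtain ⟨a1, a2, e1, e2, rfl⟩ := ih1 i (p - i) hi (by omega) (by omega)
      refine ⟨a1, a2 * b, e1, ?_, mul_assoc _ _ _⟩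
      have : j = p - i + q := by omega
      rw [this]; exact Prodn.mul e2 h2
    · subst h
      have : j = q := by omega
      subst this
      exact ⟨a, b, h1, h2, rfl⟩
    · obtain ⟨b1, b2, e1, e2, rfl⟩ := ih2 (i - p) j (by omega) hj (by omega)
      refine ⟨a * b1, b2, ?_, e2, (mul_assoc _ _ _).symm⟩
      have : i = p + (i - p) := by omega
      rw [this]; exact Prodn.mul h1 e1

end prods

section pows
variable {K A : Type u} [Field K] [NonUnitalRing A] [Module K A] [IsScalarTower K A A]
  [SMulCommClass K A A]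

omit [IsScalarTower K A A] [SMulCommClass K A A] in
theorem mem_pw {k : ℕ} {a : A} (h : Prodn k a) : a ∈ pw K A k := Submodule.subset_span h

omit [IsScalarTower K A A] [SMulCommClass K A A] in
theorem pw_eq_bot {k : ℕ} : pw K A k = ⊥ ↔ ∀ a : A, Prodn k a → a = 0 := by
  unfold pw; rw [Submodule.span_eq_bot]; rfl

theorem pw_mul {i j : ℕ} {a b : A} (ha : a ∈ pw K A i) (hb : b ∈ pw K A j) :
    a * b ∈ pw K A (i + j) := by
  induction ha using Submodule.span_induction with
  | mem a ha =>
    induction hb using Submodule.span_induction with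
    | mem b hb => exact mem_pw (Prodn.mul ha hb)
    | zero => simp
    | add b c _ _ h1 h2 => rw [mul_add]; exact add_mem h1 h2
    | smul c b _ h => rw [mul_smul_comm]; exact Submodule.smul_mem _ _ h
  | zero => simp
  | add b c _ _ h1 h2 => rw [add_mul]; exact add_mem h1 h2
  | smul c b _ h => rw [smul_mul_assoc]; exact Submodule.smul_mem _ _ h

theorem der_eq (k : ℕ) : der K A k = pw K A (2 ^ k) := by
  induction k with
  | zero =>
    refine (top_le_iff.1 fun a _ => ?_).symm
    exact mem_pw (Prodn.one a)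
  | succ k ih =>
    have e : 2 ^ (k + 1) = 2 ^ k + 2 ^ k := by ring
    apply le_antisymm
    · refine Submodule.span_le.2 ?_
      rintro c ⟨a, ha, b, hb, rfl⟩
      rw [ih] at ha hb
      rw [e]; exact pw_mul ha hb
    · refine Submodule.span_le.2 fun c hc => ?_
      obtain ⟨a, b, ha, hb, rfl⟩ := Prodn.split hc (2 ^ k) (2 ^ k) Nat.one_le_two_pow
        Nat.one_le_two_pow e.symm
      refine Submodule.subset_span ⟨a, ?_, b, ?_, rfl⟩ <;> rw [ih]
      · exact mem_pw ha
      · exact mem_pw hb

/-- a subalgebra that is everything modulo `A ^ 2` is everything, if `A` is nilpotent -/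
theorem top_of_mod {n : ℕ} (hn : 1 ≤ n) (h0 : pw K A n = ⊥) (S : NonUnitalSubalgebra K A)
    (hS : ∀ a : A, ∃ s ∈ S, a - s ∈ pw K A 2) (a : A) : a ∈ S := by
  have h1 : ∀ k (c : A), Prodn k c → ∃ s ∈ S, s ∈ pw K A k ∧ c - s ∈ pw K A (k + 1) := by
    intro k c hc
    induction hc with
    | one c =>
      obtain ⟨s, hs, h⟩ := hS c
      exact ⟨s, hs, mem_pw (Prodn.one s), h⟩
    | @mul i j a b ha hb ih1 ih2 =>
      obtain ⟨s, hs, hs1, hs2⟩ := ih1
      obtain ⟨t, ht, ht1, ht2⟩ := ih2
      refine ⟨s * t, mul_mem hs ht, pw_mul hs1 ht1, ?_⟩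
      have e : a * b - s * t = (a - s) * b + s * (b - t) := by
        rw [sub_mul, mul_sub]; abel
      rw [e]
      refine add_mem ?_ (by rw [add_assoc]; exact pw_mul hs1 ht2)
      have := pw_mul hs2 (mem_pw (K := K) hb)
      rwa [show i + 1 + j = i + j + 1 by ring] at this
  have h2 : ∀ k (c : A), c ∈ pw K A k → ∃ s ∈ S, c - s ∈ pw K A (k + 1) := by
    intro k c hc
    induction hc using Submodule.span_induction with
    | mem c hc => obtain ⟨s, hs, _, h⟩ := h1 k c hc; exact ⟨s, hs, h⟩
    | zero => exact ⟨0, zero_mem _, by simp⟩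
    | add b c _ _ h1 h2 =>
      obtain ⟨s, hs, h1⟩ := h1
      obtain ⟨t, ht, h2⟩ := h2
      refine ⟨s + t, add_mem hs ht, ?_⟩
      rw [add_sub_add_comm]; exact add_mem h1 h2
    | smul c b _ h =>
      obtain ⟨s, hs, h⟩ := h
      refine ⟨c • s, SMulMemClass.smul_mem c hs, ?_⟩
      rw [← smul_sub]; exact Submodule.smul_mem _ _ h
  have h3 : ∀ k, ∃ s ∈ S, a - s ∈ pw K A (k + 1) := by
    intro k
    induction k with
    | zero => exact ⟨0, zero_mem _, mem_pw (Prodn.one _)⟩
    | succ k ih =>
      obtain ⟨s, hs, h⟩ := ih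
      obtain ⟨t, ht, h'⟩ := h2 _ _ h
      exact ⟨s + t, add_mem hs ht, by rwa [← sub_sub]⟩
  obtain ⟨s, hs, h⟩ := h3 (n - 1)
  rw [show n - 1 + 1 = n by omega, h0, Submodule.mem_bot, sub_eq_zero] at h
  rwa [h]

end pows

/-- the algebra `t K[t] / (t ^ 3)` -/
def B3 (K : Type u) : Type u := K × K

section b3
variable {K : Type u} [Field K]
instance : AddCommGroup (B3 K) := inferInstanceAs (AddCommGroup (K × K))
instance : Module K (B3 K) := inferInstanceAs (Module K (K × K))
instance : Mul (B3 K) := ⟨fun a b => ((0, a.1 * b.1) : K × K)⟩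
theorem B3.mul1 (a b : B3 K) : (a * b).1 = 0 := rfl
theorem B3.mul2 (a b : B3 K) : (a * b).2 = a.1 * b.1 := rfl
theorem B3.add1 (a b : B3 K) : (a + b).1 = a.1 + b.1 := rfl
theorem B3.add2 (a b : B3 K) : (a + b).2 = a.2 + b.2 := rfl
theorem B3.smul1 (c : K) (b : B3 K) : (c • b).1 = c * b.1 := rfl
theorem B3.smul2 (c : K) (b : B3 K) : (c • b).2 = c * b.2 := rfl
theorem B3.zero1 : (0 : B3 K).1 = 0 := rfl
theorem B3.zero2 : (0 : B3 K).2 = 0 := rfl
theorem B3.ext' {a b : B3 K} (h1 : a.1 = b.1) (h2 : a.2 = b.2) : a = b := Prod.ext h1 h2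

instance : NonUnitalRing (B3 K) where
  left_distrib a b c := B3.ext' (by simp [B3.mul1, B3.add1])
    (by simp [B3.mul2, B3.add1, B3.add2, mul_add])
  right_distrib a b c := B3.ext' (by simp [B3.mul1, B3.add1])
    (by simp [B3.mul2, B3.add1, B3.add2, add_mul])
  zero_mul a := B3.ext' rfl (by simp [B3.mul2, B3.zero1, B3.zero2])
  mul_zero a := B3.ext' rfl (by simp [B3.mul2, B3.zero1, B3.zero2])
  mul_assoc a b c := B3.ext' rfl (by simp [B3.mul1, B3.mul2])

instance : IsScalarTower K (B3 K) (B3 K) := ⟨fun c a b => B3.ext'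
  (by simp [B3.mul1, B3.smul1]) (by simp [B3.mul2, B3.smul1, B3.smul2, mul_assoc])⟩
instance : SMulCommClass K (B3 K) (B3 K) := ⟨fun c a b => B3.ext'
  (by simp [B3.mul1, B3.smul1]) (by simp [B3.mul2, B3.smul1, B3.smul2, mul_left_comm])⟩

theorem B3.nil {n : ℕ} (hn : 3 ≤ n) : pw K (B3 K) n = ⊥ := by
  rw [pw_eq_bot]
  intro c hc
  obtain ⟨a, b, _, hb, rfl⟩ := Prodn.split hc 1 (n - 1) le_rfl (by omega) (by omega)
  obtain ⟨b1, b2, _, _, rfl⟩ := Prodn.split hb 1 (n - 2) le_rfl (by omega) (by omega)
  exact B3.ext' rfl (by simp [B3.mul1, B3.mul2, B3.zero2])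
end b3

section free
variable {K H : Type u} [Field K] [NonUnitalRing H] [Module K H] [IsScalarTower K H H]
  [SMulCommClass K H H] {n r : ℕ} {x : Fin r → H}

theorem gen (hF : IsFreeNil K n r H x) (S : NonUnitalSubalgebra K H) (hS : ∀ i, x i ∈ S)
    (a : H) : a ∈ S := by
  have hn : pw K S n = ⊥ := by
    rw [pw_eq_bot]
    have : ∀ k (s : S), Prodn k s → Prodn k (s : H) := by
      intro k s hs
      induction hs with
      | one s => exact Prodn.one _
      | mul _ _ h1 h2 => exact Prodn.mul h1 h2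
    intro s hs
    exact Subtype.ext (pw_eq_bot.1 hF.1 _ (this _ _ hs))
  obtain ⟨φ, hφ, -⟩ := hF.2 S hn fun i => ⟨x i, hS i⟩
  obtain ⟨ψ, -, hψ⟩ := hF.2 H hF.1 x
  have e1 := hψ ((NonUnitalSubalgebraClass.subtype S).comp φ) (fun i => by simp [hφ i])
  have e2 := hψ (NonUnitalAlgHom.id K H) (fun i => rfl)
  have : ((NonUnitalSubalgebraClass.subtype S).comp φ) a = a := by rw [e1, ← e2]; rfl
  rw [← this]
  exact (φ a).2

theorem findim (hn : 1 ≤ n) (hF : IsFreeNil K n r H x) : FiniteDimensional K H := by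
  let ev : FreeSemigroup (Fin r) →ₙ* H := FreeSemigroup.lift x
  have hp : ∀ w : FreeSemigroup (Fin r), Prodn w.length (ev w) := by
    intro w
    induction w using FreeSemigroup.recOnMul with
    | ih1 i => exact Prodn.one _
    | ih2 i w h1 h2 => rw [map_mul, FreeSemigroup.length_mul]; exact Prodn.mul h1 h2
  let S : NonUnitalSubalgebra K H :=
    { toSubmodule := Submodule.span K (Set.range ev)
      mul_mem' := by
        intro a b ha hb
        change a ∈ Submodule.span K (Set.range ev) at ha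
        change b ∈ Submodule.span K (Set.range ev) at hb
        change a * b ∈ Submodule.span K (Set.range ev)
        induction ha using Submodule.span_induction with
        | mem a ha =>
          induction hb using Submodule.span_induction with
          | mem b hb =>
            obtain ⟨v, rfl⟩ := ha
            obtain ⟨w, rfl⟩ := hb
            exact Submodule.subset_span ⟨v * w, map_mul _ _ _⟩
          | zero => simp
          | add b c _ _ h1 h2 => rw [mul_add]; exact add_mem h1 h2
          | smul c b _ h => rw [mul_smul_comm]; exact Submodule.smul_mem _ _ h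
        | zero => simp
        | add b c _ _ h1 h2 => rw [add_mul]; exact add_mem h1 h2
        | smul c b _ h => rw [smul_mul_assoc]; exact Submodule.smul_mem _ _ h }
  have hfin : {w : FreeSemigroup (Fin r) | w.length < n}.Finite := by
    refine Set.Finite.of_finite_image (f := fun w => (w.head, w.tail)) ?_ ?_
    · refine ((Set.finite_univ (α := Fin r)).prod (List.finite_length_lt (Fin r) n)).subset ?_
      rintro _ ⟨w, hw, rfl⟩
      refine ⟨trivial, ?_⟩
      have : w.tail.length + 1 < n := hw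
      change w.tail.length < n
      omega
    · intro v _ w _ h
      simp only [Prod.mk.injEq] at h
      exact FreeSemigroup.ext h.1 h.2
  have htop : Submodule.span K (ev '' {w | w.length < n}) = ⊤ := by
    refine top_le_iff.1 fun a _ => ?_
    have ha : a ∈ Submodule.span K (Set.range ev) :=
      gen hF S (fun i => Submodule.subset_span ⟨FreeSemigroup.of i, by simp [ev]⟩) a
    refine Submodule.span_le.2 ?_ ha
    rintro _ ⟨w, rfl⟩
    by_cases hw : w.length < n
    · exact Submodule.subset_span ⟨w, hw, rfl⟩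
    · rw [pw_eq_bot.1 hF.1 _ ((hp w).anti hn (by omega))]; exact zero_mem _
  have := FiniteDimensional.span_of_finite K (hfin.image ev)
  rw [htop] at this
  exact Module.Finite.equiv Submodule.topEquiv

/-- the definable condition that singles out the generating tuples -/
def G (y : Fin r → H) : Prop := ∀ a : H, ∃ z : Fin r → H, a * a = ∑ i, y i * z i

theorem G_self (hF : IsFreeNil K n r H x) : G x := by
  let S : NonUnitalSubalgebra K H :=
    { carrier := {h | ∀ a, ∃ z : Fin r → H, h * a = ∑ i, x i * z i}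
      add_mem' := by
        intro p q hp hq a
        obtain ⟨z, hz⟩ := hp a
        obtain ⟨w, hw⟩ := hq a
        exact ⟨z + w, by simp [add_mul, mul_add, Finset.sum_add_distrib, hz, hw]⟩
      zero_mem' := fun a => ⟨0, by simp⟩
      mul_mem' := by
        intro p q hp _ a
        obtain ⟨z, hz⟩ := hp (q * a)
        exact ⟨z, by rw [mul_assoc, hz]⟩
      smul_mem' := by
        intro c p hp a
        obtain ⟨z, hz⟩ := hp a
        exact ⟨c • z, by simp [smul_mul_assoc, hz, Finset.smul_sum, mul_smul_comm]⟩ }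
  intro a
  refine gen hF S (fun i b => ⟨Pi.single i b, ?_⟩) a a
  rw [Finset.sum_eq_single i] <;> simp +contextual [Pi.single_apply]

theorem surj_of_G (hn : 3 ≤ n) (hF : IsFreeNil K n r H x) (σ : H →ₙₐ[K] H)
    (hG : G fun i => σ (x i)) : Function.Surjective σ := by
  intro a
  refine top_of_mod (by omega) hF.1 (NonUnitalAlgHom.range σ) ?_ a
  by_contra hcon
  push Not at hcon
  obtain ⟨a, ha⟩ := hcon
  have hne : a ∉ (NonUnitalAlgHom.range σ).toSubmodule ⊔ pw K H 2 := by
    intro h
    obtain ⟨s, hs, t, ht, rfl⟩ := Submodule.mem_sup.1 h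
    exact ha s hs (by simpa using ht)
  obtain ⟨l, hl, hk⟩ := Submodule.exists_le_ker_of_notMem hne
  obtain ⟨ψ, hψ, -⟩ := hF.2 (B3 K) (B3.nil hn) fun i => ((l (x i), 0) : K × K)
  let S : NonUnitalSubalgebra K H :=
    { carrier := {h | (ψ h).1 = l h}
      add_mem' := by
        intro p q hp hq
        change (ψ p).1 = l p at hp
        change (ψ q).1 = l q at hq
        change (ψ (p + q)).1 = l (p + q)
        rw [map_add, map_add, B3.add1, hp, hq]
      zero_mem' := by
        change (ψ 0).1 = l 0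
        rw [map_zero, map_zero]; rfl
      mul_mem' := by
        intro p q _ _
        change (ψ (p * q)).1 = l (p * q)
        rw [map_mul, B3.mul1]
        exact (hk (Submodule.mem_sup_right
          (mem_pw (Prodn.mul (Prodn.one p) (Prodn.one q))))).symm
      smul_mem' := by
        intro c p hp
        change (ψ p).1 = l p at hp
        change (ψ (c • p)).1 = l (c • p)
        rw [map_smul, map_smul, B3.smul1, hp]; rfl }
  have h1 : ∀ h, (ψ h).1 = l h := gen hF S fun i => by
    change (ψ (x i)).1 = l (x i)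
    rw [hψ i]
  obtain ⟨z, hz⟩ := hG a
  have h2 : ψ (a * a) = 0 := by
    rw [hz, map_sum]
    refine Finset.sum_eq_zero fun i _ => ?_
    rw [map_mul]
    refine B3.ext' rfl ?_
    have : l (σ (x i)) = 0 := hk (Submodule.mem_sup_left ⟨x i, rfl⟩)
    rw [B3.mul2, h1]
    change l (σ (x i)) * _ = 0
    rw [this, zero_mul]
  have h3 : (ψ (a * a)).2 = l a * l a := by rw [map_mul, B3.mul2, h1]
  rw [h2, B3.zero2] at h3
  exact hl (mul_self_eq_zero.1 h3.symm)

/-- term builders -/
def tadd {α : Type} (s t : (lang K).Term α) : (lang K).Term α := Term.func Fn.add ![s, t]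
def tmul {α : Type} (s t : (lang K).Term α) : (lang K).Term α := Term.func Fn.mul ![s, t]
def tsmul {α : Type} (c : K) (t : (lang K).Term α) : (lang K).Term α := Term.func (Fn.smul c) ![t]
def tzero {α : Type} : (lang K).Term α := Term.func Fn.zero ![]
def tsum {α : Type} : List ((lang K).Term α) → (lang K).Term α
  | [] => tzero
  | t :: l => tadd t (tsum l)

/-- value of a term -/
def ev (K : Type u) {H : Type u} [Field K] [NonUnitalRing H] [Module K H] {α : Type}
    (v : α → H) (t : (lang K).Term α) : H := @Term.realize (lang K) H (str K H) α v t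

section
omit [IsScalarTower K H H] [SMulCommClass K H H]
variable {α : Type} (v : α → H)
theorem ev_var (a : α) : ev K v (Term.var a) = v a := rfl
theorem ev_add (s t : (lang K).Term α) : ev K v (tadd s t) = ev K v s + ev K v t := rfl
theorem ev_mul (s t : (lang K).Term α) : ev K v (tmul s t) = ev K v s * ev K v t := rfl
theorem ev_smul (c : K) (t : (lang K).Term α) : ev K v (tsmul c t) = c • ev K v t := rfl
theorem ev_zero : ev K v tzero = 0 := rfl
theorem ev_sum {k : ℕ} (f : Fin k → (lang K).Term α) :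
    ev K v (tsum (List.ofFn f)) = ∑ i, ev K v (f i) := by
  induction k with
  | zero => simp [tsum, ev_zero]
  | succ k ih => rw [List.ofFn_succ, tsum, ev_add, ih, Fin.sum_univ_succ]
theorem ev_relabel {β : Type} (g : β → α) (t : (lang K).Term β) :
    ev K v (t.relabel g) = ev K (v ∘ g) t := by
  letI := str K H
  exact Term.realize_relabel
theorem ev_hom (σ : H →ₙₐ[K] H) (t : (lang K).Term α) :
    σ (ev K v t) = ev K (fun a => σ (v a)) t := by
  induction t with
  | var a => rfl
  | func f ts ih =>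
    cases f with
    | add => exact (map_add σ _ _).trans (congrArg₂ (· + ·) (ih 0) (ih 1))
    | mul => exact (map_mul σ _ _).trans (congrArg₂ (· * ·) (ih 0) (ih 1))
    | neg => exact (map_neg σ _).trans (congrArg Neg.neg (ih 0))
    | zero => exact map_zero σ
    | smul c => exact (map_smul σ c _).trans (congrArg (c • ·) (ih 0))

/-- definable predicates -/
def Df (K H : Type u) [Field K] [NonUnitalRing H] [Module K H] {α : Type}
    (P : (α → H) → Prop) : Prop :=
  ∃ φ : (lang K).Formula α, ∀ v, @Formula.Realize (lang K) H (str K H) α φ v ↔ P v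

theorem Df.eq (s t : (lang K).Term α) : Df K H fun v : α → H => ev K v s = ev K v t :=
  ⟨s.equal t, fun v => by letI := str K H; exact Formula.realize_equal⟩
theorem Df.and {P Q : (α → H) → Prop} (hP : Df K H P) (hQ : Df K H Q) :
    Df K H fun v => P v ∧ Q v := by
  letI := str K H
  obtain ⟨φ, h⟩ := hP
  obtain ⟨ψ, h'⟩ := hQ
  exact ⟨φ ⊓ ψ, fun v => by rw [Formula.realize_inf, h, h']⟩
theorem Df.fin {β : Type} [Finite β] {P : β → (α → H) → Prop} (hP : ∀ b, Df K H (P b)) :
    Df K H fun v => ∀ b, P b v := by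
  letI := str K H
  choose φ h using hP
  exact ⟨Formula.iInf φ, fun v => by rw [Formula.realize_iInf]; exact forall_congr' fun b => h b v⟩
theorem Df.ex {β : Type} [Finite β] {P : (α ⊕ β → H) → Prop} (hP : Df K H P) :
    Df K H fun v => ∃ y : β → H, P (Sum.elim v y) := by
  letI := str K H
  obtain ⟨φ, h⟩ := hP
  exact ⟨φ.iExs β, fun v => by rw [Formula.realize_iExs]; exact exists_congr fun b => h _⟩
theorem Df.all {β : Type} [Finite β] {P : (α ⊕ β → H) → Prop} (hP : Df K H P) :
    Df K H fun v => ∀ y : β → H, P (Sum.elim v y) := by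
  letI := str K H
  obtain ⟨φ, h⟩ := hP
  exact ⟨φ.iAlls β, fun v => by rw [Formula.realize_iAlls]; exact forall_congr' fun b => h _⟩
theorem Df.of_iff {P Q : (α → H) → Prop} (hP : Df K H P) (h : ∀ v, P v ↔ Q v) : Df K H Q := by
  obtain ⟨φ, h'⟩ := hP
  exact ⟨φ, fun v => (h' v).trans (h v)⟩
theorem Df.transfer {m : ℕ} {P : (Fin m → H) → Prop} (hP : Df K H P) {μ₁ μ₂ : Fin m → H}
    (h : SameType K H μ₁ μ₂) (h1 : P μ₁) : P μ₂ := by
  obtain ⟨φ, h'⟩ := hP
  exact (h' _).1 ((h φ).1 ((h' _).2 h1))

theorem Df.G (g : Fin r → α) : Df K H fun v : α → H => G fun i => v (g i) := by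
  have h := (Df.eq (K := K) (H := H) (α := (α ⊕ Unit) ⊕ Fin r)
    (tmul (Term.var (Sum.inl (Sum.inr ()))) (Term.var (Sum.inl (Sum.inr ()))))
    (tsum (List.ofFn fun i => tmul (Term.var (Sum.inl (Sum.inl (g i))))
      (Term.var (Sum.inr i))))).ex.all
  refine h.of_iff fun v => ?_
  simp only [ev_sum, ev_mul, ev_var, Sum.elim_inl, Sum.elim_inr]
  exact ⟨fun h a => h fun _ => a, fun h a => h (a ())⟩
end

theorem exists_term (hF : IsFreeNil K n r H x) (a : H) :
    ∃ t : (lang K).Term (Fin r), ev K x t = a := by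
  let S : NonUnitalSubalgebra K H :=
    { carrier := {h | ∃ t : (lang K).Term (Fin r), ev K x t = h}
      add_mem' := by
        rintro _ _ ⟨s, rfl⟩ ⟨t, rfl⟩
        exact ⟨tadd s t, rfl⟩
      zero_mem' := ⟨tzero, rfl⟩
      mul_mem' := by
        rintro _ _ ⟨s, rfl⟩ ⟨t, rfl⟩
        exact ⟨tmul s t, rfl⟩
      smul_mem' := by
        rintro c _ ⟨t, rfl⟩
        exact ⟨tsmul c t, rfl⟩ }
  exact gen hF S (fun i => ⟨Term.var i, rfl⟩) a

theorem homog_big (hn : 3 ≤ n) (hF : IsFreeNil K n r H x) : LogHomog K H := by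
  intro m μ₁ μ₂ h
  haveI := findim (by omega) hF
  choose t ht using fun j => exists_term hF (μ₁ j)
  have hd := ((Df.G (K := K) (H := H) (α := Fin m ⊕ Fin r) Sum.inr).and
    (Df.fin fun j : Fin m => Df.eq (Term.var (Sum.inl j)) ((t j).relabel Sum.inr))).ex
  obtain ⟨y, hy, hy'⟩ := hd.transfer h ⟨x, G_self hF, fun j => by
    rw [ev_relabel, ev_var]; exact (ht j).symm⟩
  obtain ⟨σ, hσ, -⟩ := hF.2 H hF.1 y
  have hs : Function.Surjective σ := surj_of_G hn hF σ (by simpa [hσ] using hy)
  let σ' : H →ₗ[K] H := (σ : H →ₗ[K] H)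
  have hb : Function.Bijective σ' :=
    ⟨LinearMap.injective_iff_surjective.2 hs, hs⟩
  refine ⟨LinearEquiv.ofBijective σ' hb, fun a b => map_mul σ a b, fun j => ?_⟩
  change σ (μ₁ j) = μ₂ j
  have := hy' j
  rw [ev_relabel, ev_var] at this
  rw [← ht j, ev_hom, funext hσ]
  exact this.symm

theorem homog_small (hn1 : 1 ≤ n) (hn : n ≤ 2) (hF : IsFreeNil K n r H x) : LogHomog K H := by
  intro m μ₁ μ₂ h
  haveI := findim hn1 hF
  have h0 : ∀ a b : H, a * b = 0 := fun a b =>
    pw_eq_bot.1 hF.1 _ ((Prodn.mul (Prodn.one a) (Prodn.one b)).anti hn1 hn)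
  have hd : ∀ c : Fin m → K, Df K H fun v : Fin m → H => ∑ j, c j • v j = 0 := fun c =>
    (Df.eq (tsum (List.ofFn fun j => tsmul (c j) (Term.var j))) tzero).of_iff fun v => by
      simp only [ev_sum, ev_smul, ev_var, ev_zero]
  let f₁ := Fintype.linearCombination K μ₁
  let f₂ := Fintype.linearCombination K μ₂
  have hk : LinearMap.ker f₁ = LinearMap.ker f₂ := by
    ext c
    simp only [LinearMap.mem_ker, f₁, f₂, Fintype.linearCombination_apply]
    exact ⟨(hd c).transfer h, (hd c).transfer fun φ => (h φ).symm⟩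
  let e : LinearMap.range f₁ ≃ₗ[K] LinearMap.range f₂ :=
    f₁.quotKerEquivRange.symm.trans ((Submodule.quotEquivOfEq _ _ hk).trans f₂.quotKerEquivRange)
  have he : ∀ c, (e ⟨f₁ c, c, rfl⟩ : H) = f₂ c := by
    intro c
    have : f₁.quotKerEquivRange.symm ⟨f₁ c, c, rfl⟩ = Submodule.Quotient.mk c := by
      rw [LinearEquiv.symm_apply_eq]; rfl
    simp only [e, LinearEquiv.trans_apply, this]
    rfl
  obtain ⟨g, hg⟩ := Submodule.exists_linearEquiv_restrict_eq e
  refine ⟨g, fun a b => by rw [h0, h0, map_zero], fun j => ?_⟩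
  have h1 := hg ⟨f₁ (Pi.single j 1), _, rfl⟩
  rw [he] at h1
  simpa [f₁, f₂] using h1.symm

theorem homog (hn1 : 1 ≤ n) (hF : IsFreeNil K n r H x) : LogHomog K H := by
  rcases le_or_gt n 2 with h | h
  · exact homog_small hn1 h hF
  · exact homog_big h hF

theorem nil_of_solv (hF : IsFreeSolv K n r H x) : IsFreeNil K (2 ^ n) r H x :=
  ⟨der_eq (K := K) (A := H) n ▸ hF.1, fun B _ _ _ _ hB => hF.2 B ((der_eq n).trans hB)⟩

end free
end Pool.Agent.H22.LogHom
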