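import Mathlib
import Pool.Agent.H22.Perc3

set_option autoImplicit false
open MeasureTheory ProbabilityTheory Set

namespace Pool.Agent.H22.LongR
open Pool.Agent.H22.Perc3
noncomputable section

variable {Γ : Type} [Group Γ]

def R (K : Set Γ) (g : Γ) : Set Γ := {z | ∃ a ∈ K, ∃ b ∈ K, z = a * g * b}

lemma R_fin {K : Set Γ} (hK : K.Finite) (g : Γ) : (R K g).Finite := by
  refine ((hK.prod hK).image (fun q : Γ × Γ => q.1 * g * q.2)).subset ?_
  rintro z ⟨a, ha, b, hb, rfl⟩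
  exact ⟨(a, b), ⟨ha, hb⟩, rfl⟩

lemma far [Infinite Γ] {K F : Set Γ} (hK : K.Finite) (hF : F.Finite) : ∃ g, Disjoint F (R K g) := by
  obtain ⟨g, hg⟩ := ((hK.prod (hF.prod hK)).image
    (fun q : Γ × Γ × Γ => q.1⁻¹ * q.2.1 * q.2.2⁻¹)).exists_notMem
  refine ⟨g, disjoint_left.2 ?_⟩
  rintro z hz ⟨a, ha, b, hb, rfl⟩
  exact hg ⟨(a, a * g * b, b), ⟨ha, hz, hb⟩, by simp [mul_assoc]⟩

def Sep (K : Set Γ) (G : Finset Γ) : Prop :=
  (∀ g ∈ G, Disjoint K (R K g)) ∧ ∀ g ∈ G, ∀ h ∈ G, g ≠ h → Disjoint (R K g) (R K h)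

lemma exists_sep [Infinite Γ] {K : Set Γ} (hK : K.Finite) (h1 : (1 : Γ) ∈ K) (n : ℕ) :
    ∃ G : Finset Γ, G.card = n ∧ Sep K G := by
  classical
  induction n with
  | zero => exact ⟨∅, rfl, by simp [Sep]⟩
  | succ n ih =>
    obtain ⟨G, hG, h2, h3⟩ := ih
    obtain ⟨g, hg⟩ := far (F := K ∪ ⋃ h ∈ G, R K h) hK
      (hK.union (G.finite_toSet.biUnion fun h _ => R_fin hK h))
    rw [disjoint_union_left] at hg
    have h4 : ∀ h ∈ G, Disjoint (R K h) (R K g) := fun h hh =>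
      hg.2.mono_left (subset_biUnion_of_mem (u := R K) (Finset.mem_coe.2 hh))
    have hn : g ∉ G := fun hh =>
      have hm : g ∈ R K g := ⟨1, h1, 1, h1, by simp⟩
      disjoint_left.1 (h4 g hh) hm hm
    refine ⟨insert g G, by rw [Finset.card_insert_of_notMem hn, hG], ?_, ?_⟩
    · intro h hh
      rcases Finset.mem_insert.1 hh with rfl | hh
      · exact hg.1
      · exact h2 h hh
    · intro a ha b hb hab
      rcases Finset.mem_insert.1 ha with h5 | h5 <;> rcases Finset.mem_insert.1 hb with h6 | h6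
      · exact (hab (h5.trans h6.symm)).elim
      · rw [h5]; exact (h4 b h6).symm
      · rw [h6]; exact h4 a h5
      · exact h3 a h5 b h6 hab

lemma exists_levels [Infinite Γ] : ∃ (K : ℕ → Set Γ) (G : ℕ → Finset Γ), ∀ k,
    (K k).Finite ∧ (1 : Γ) ∈ K k ∧ (G k).card = k + 8 ∧ Sep (K k) (G k) ∧ K k ⊆ K (k + 1) ∧
      ∀ g ∈ G k, R (K k) g ⊆ K (k + 1) := by
  choose gs hc hs using fun (K : {K : Set Γ // K.Finite ∧ (1 : Γ) ∈ K}) (n : ℕ) =>
    exists_sep K.2.1 K.2.2 n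
  let KK : ℕ → {K : Set Γ // K.Finite ∧ (1 : Γ) ∈ K} := fun n => Nat.rec ⟨{1}, by simp⟩
    (fun k K => ⟨K.1 ∪ ⋃ h ∈ gs K (k + 8), R K.1 h,
      K.2.1.union ((gs K (k + 8)).finite_toSet.biUnion fun h _ => R_fin K.2.1 h), Or.inl K.2.2⟩) n
  refine ⟨fun k => (KK k).1, fun k => gs (KK k) (k + 8), fun k =>
    ⟨(KK k).2.1, (KK k).2.2, hc _ _, hs _ _, subset_union_left, fun g hg => ?_⟩⟩
  exact subset_union_of_subset_right (subset_biUnion_of_mem (u := R (KK k).1) (Finset.mem_coe.2 hg)) _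

abbrev Om (Γ : Type) := Sym2 Γ → ℕ

def sh (y : Γ) (K : Set Γ) : Set Γ := {z | y⁻¹ * z ∈ K}

def C (ω : Om Γ) (U : Set Γ) (y : Γ) : Set Γ :=
  {z | Relation.ReflTransGen (fun a b => a ∈ U ∧ b ∈ U ∧ ω s(a, b) ≠ 0) y z}

def Ed (U : Set Γ) : Set (Sym2 Γ) := {e | ∀ z ∈ e, z ∈ U}

def Cl (U : Set Γ) (y : Γ) (S : Finset Γ) : Set (Om Γ) := {ω | C ω U y = S}

def A (K : Set Γ) (k : ℕ) (y : Γ) : Set (Om Γ) := ⋃ (S : Finset Γ) (_ : 2 ^ k ≤ S.card), Cl (sh y K) y S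

omit [Group Γ] in
lemma C_sub {ω : Om Γ} {U : Set Γ} {y : Γ} (hy : y ∈ U) : C ω U y ⊆ U := by
  intro z hz
  induction hz with
  | refl => exact hy
  | tail _ h _ => exact h.2.1

omit [Group Γ] in
lemma C_mono {ω : Om Γ} {U W : Set Γ} (h : U ⊆ W) (y : Γ) : C ω U y ⊆ C ω W y := by
  intro z hz
  induction hz with
  | refl => exact Relation.ReflTransGen.refl
  | tail _ hh ih => exact Relation.ReflTransGen.tail ih ⟨h hh.1, h hh.2.1, hh.2.2⟩

omit [Group Γ] in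
lemma Cl_meas [Countable Γ] (U : Set Γ) (y : Γ) (S : Finset Γ) :
    MeasurableSet[cylinderEvents (Ed U)] (Cl U y S) := by
  have h1 : ∀ z, MeasurableSet[cylinderEvents (Ed U)] {ω : Om Γ | z ∈ C ω U y} := by
    intro z
    refine rtg_meas _ (fun (ω : Om Γ) a b => a ∈ U ∧ b ∈ U ∧ ω s(a, b) ≠ 0) (fun a b => ?_) y z
    by_cases h : a ∈ U ∧ b ∈ U
    · have : {ω : Om Γ | a ∈ U ∧ b ∈ U ∧ ω s(a, b) ≠ 0} = {ω : Om Γ | ω s(a, b) ∈ ({0}ᶜ : Set ℕ)} := by
        ext ω; simp [h.1, h.2]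
      rw [this]
      refine ev_meas _ _ ?_ _ (by trivial)
      intro z hz
      rcases Sym2.mem_iff.1 hz with rfl | rfl
      · exact h.1
      · exact h.2
    · have : {ω : Om Γ | a ∈ U ∧ b ∈ U ∧ ω s(a, b) ≠ 0} = ∅ := by
        ext ω; simp only [mem_ofPred_eq, mem_empty_iff_false, iff_false]
        exact fun hh => h ⟨hh.1, hh.2.1⟩
      rw [this]; exact @MeasurableSet.empty _ (cylinderEvents _)
  have : Cl U y S = ⋂ z, ({ω : Om Γ | z ∈ C ω U y} ∩ {_ω | z ∈ S})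
      ∪ ({ω : Om Γ | z ∈ C ω U y}ᶜ ∩ {_ω | z ∉ S}) := by
    ext ω
    simp only [Cl, Set.ext_iff, mem_ofPred_eq, mem_iInter, mem_union, mem_inter_iff, mem_compl_iff,
      Finset.mem_coe]
    refine forall_congr' fun z => ?_
    tauto
  rw [this]
  exact MeasurableSet.iInter fun z => ((h1 z).inter (MeasurableSet.const _)).union
    ((h1 z).compl.inter (MeasurableSet.const _))

lemma A_meas [Countable Γ] (K : Set Γ) (k : ℕ) (y : Γ) :
    MeasurableSet[cylinderEvents (Ed (sh y K))] (A K k y) :=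
  MeasurableSet.iUnion fun S => MeasurableSet.iUnion fun _ => Cl_meas _ _ S

def cls (x g : Γ) : Set (Om Γ) := {ω | ω s(x, x * g) ∈ ({0} : Set ℕ)}

def Suc (K : Set Γ) (k : ℕ) (S : Finset Γ) (g : Γ) : Set (Om Γ) :=
  ⋃ x ∈ S, (cls x g)ᶜ ∩ A K k (x * g)

lemma sh_R {K : Set Γ} {y x : Γ} (g : Γ) (hx : x ∈ sh y K) : sh (x * g) K ⊆ sh y (R K g) :=
  fun z hz => ⟨_, hx, _, hz, by simp [mul_assoc]⟩

lemma self_sh {K : Set Γ} (h1 : (1 : Γ) ∈ K) (y : Γ) : y ∈ sh y K := by simpa [sh] using h1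

lemma sh_disj {K L : Set Γ} (h : Disjoint K L) (y : Γ) : Disjoint (sh y K) (sh y L) :=
  disjoint_left.2 fun _ h1 h2 => disjoint_left.1 h h1 h2

variable (ν : Sym2 Γ → Measure ℕ) [∀ e, IsProbabilityMeasure (ν e)]

lemma Suc_ge [Countable Γ] (K : Set Γ) (k : ℕ) (y g : Γ)
    (hd : Disjoint K (R K g)) (hA : ∀ z, 2⁻¹ ≤ Measure.infinitePi ν (A K k z)) (S : Finset Γ)
    (hS : ∀ x ∈ S, x ∈ sh y K) :
    2⁻¹ * Measure.infinitePi ν (⋂ x ∈ S, cls x g)ᶜ ≤ Measure.infinitePi ν (Suc K k S g) := by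
  classical
  induction S using Finset.induction_on with
  | empty => simp
  | insert x S hx ih =>
    have hc : ∀ x ∈ sh y K, MeasurableSet[cylinderEvents {e : Sym2 Γ | ∃ z ∈ e, z ∈ sh y K}] (cls x g) :=
      fun x hx => ev_meas {e : Sym2 Γ | ∃ z ∈ e, z ∈ sh y K} s(x, x * g) ⟨x, by simp, hx⟩ {0} (by trivial)
    have hm : MeasurableSet[cylinderEvents {e : Sym2 Γ | ∃ z ∈ e, z ∈ sh y K}]
        ((⋂ x ∈ S, cls x g) ∩ (cls x g)ᶜ) :=
      (Finset.measurableSet_biInter _ fun w hw => hc w (hS w (Finset.mem_insert_of_mem hw))).inter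
        (hc x (hS x (Finset.mem_insert_self _ _))).compl
    have hdd : Disjoint {e : Sym2 Γ | ∃ z ∈ e, z ∈ sh y K} (Ed (sh (x * g) K)) := by
      rw [disjoint_left]
      rintro e ⟨z, h2, h3⟩ h4
      exact disjoint_left.1 (sh_disj hd y) h3 (sh_R g (hS x (Finset.mem_insert_self _ _)) (h4 z h2))
    have e1 : (⋂ w ∈ insert x S, cls w g)ᶜ ⊆ (⋂ x ∈ S, cls x g)ᶜ ∪ ((⋂ x ∈ S, cls x g) ∩ (cls x g)ᶜ) := by
      rw [Finset.set_biInter_insert]
      intro ω h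
      by_cases h2 : ω ∈ ⋂ x ∈ S, cls x g
      · exact Or.inr ⟨h2, fun h3 => h ⟨h3, h2⟩⟩
      · exact Or.inl h2
    have e2 : Suc K k S g ∪ (((⋂ x ∈ S, cls x g) ∩ (cls x g)ᶜ) ∩ A K k (x * g))
        ⊆ Suc K k (insert x S) g := by
      unfold Suc
      rw [Finset.set_biUnion_insert]
      rintro ω (h | h)
      · exact Or.inr h
      · exact Or.inl ⟨h.1.2, h.2⟩
    have e3 : Disjoint (Suc K k S g) (((⋂ x ∈ S, cls x g) ∩ (cls x g)ᶜ) ∩ A K k (x * g)) := by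
      rw [disjoint_left]
      intro ω h2 h3
      simp only [Suc, mem_iUnion] at h2
      obtain ⟨w, hw, h4, -⟩ := h2
      exact h4 (mem_iInter₂.1 h3.1.1 w hw)
    refine le_trans ?_ (measure_mono e2)
    rw [measure_union e3 ((cylinderEvents_le_pi _ hm).inter (cylinderEvents_le_pi _ (A_meas K k _))),
      ind ν hdd hm (A_meas K k _)]
    refine le_trans (mul_le_mul' le_rfl ((measure_mono e1).trans (measure_union_le _ _))) ?_
    rw [mul_add]
    refine add_le_add (ih fun w hw => hS w (Finset.mem_insert_of_mem hw)) ?_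
    rw [mul_comm]
    exact mul_le_mul' le_rfl (hA _)

lemma half_compl {Ω : Type} [MeasurableSpace Ω] (μ : Measure Ω) [IsProbabilityMeasure μ]
    (B : Set Ω) (h : μ B ≤ 2⁻¹) : 2⁻¹ ≤ μ Bᶜ := by
  have h1 : (1 : ENNReal) ≤ μ B + μ Bᶜ := by
    rw [← measure_univ (μ := μ), ← union_compl_self B]; exact measure_union_le _ _
  have h2 : (2⁻¹ + 2⁻¹ : ENNReal) ≤ 2⁻¹ + μ Bᶜ := by
    rw [ENNReal.inv_two_add_inv_two]; exact h1.trans (add_le_add h le_rfl)
  exact (ENNReal.add_le_add_iff_left (by simp)).1 h2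

def TT (K : Set Γ) (y g : Γ) : Set (Sym2 Γ) :=
  {e | (∃ z ∈ e, z ∈ sh y (R K g)) ∧ ∀ z ∈ e, z ∈ sh y K ∨ z ∈ sh y (R K g)}

lemma Suc_meas [Countable Γ] (K : Set Γ) (h1 : (1 : Γ) ∈ K) (k : ℕ) (y g : Γ) (S : Finset Γ)
    (hS : ∀ x ∈ S, x ∈ sh y K) : MeasurableSet[cylinderEvents (TT K y g)] (Suc K k S g) := by
  refine Finset.measurableSet_biUnion _ fun x hx => MeasurableSet.inter (MeasurableSet.compl ?_) ?_
  · have h2 := sh_R g (hS x hx) (self_sh h1 _)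
    refine ev_meas (TT K y g) s(x, x * g) ⟨⟨x * g, by simp, h2⟩, fun z hz => ?_⟩ {0} (by trivial)
    rcases Sym2.mem_iff.1 hz with rfl | rfl
    · exact Or.inl (hS _ hx)
    · exact Or.inr h2
  · refine cylinderEvents_mono ?_ _ (A_meas K k _)
    intro e he
    refine ⟨?_, fun z hz => Or.inr (sh_R g (hS x hx) (he z hz))⟩
    induction e using Sym2.ind with
    | _ a b => exact ⟨a, by simp, sh_R g (hS x hx) (he a (by simp))⟩

lemma Suc_compl [Countable Γ] (K : Set Γ) (h1 : (1 : Γ) ∈ K) (k : ℕ) (y g : Γ)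
    (hd : Disjoint K (R K g)) (hA : ∀ z, 2⁻¹ ≤ Measure.infinitePi ν (A K k z)) (S : Finset Γ)
    (hS : ∀ x ∈ S, x ∈ sh y K) (hc : 2 ^ k ≤ S.card) (c : ENNReal) (hc1 : c ^ (2 ^ k) ≤ 2⁻¹)
    (hc2 : c ≤ 1) (hν : ∀ x, ν s(x, x * g) {0} ≤ c) :
    Measure.infinitePi ν (Suc K k S g)ᶜ ≤ 3 * 4⁻¹ := by
  have h2 := ind_prod ν ∅ (fun x => {s(x, x * g)}) univ (fun x => cls x g) c S
    (@MeasurableSet.univ _ (cylinderEvents _))
    (fun x _ => ev_meas {s(x, x * g)} s(x, x * g) rfl {0} (by trivial)) (by simp) (by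
      intro a ha b hb hab
      rw [disjoint_singleton]
      intro h
      rcases Sym2.eq_iff.1 h with h | h
      · exact hab h.1
      · refine disjoint_left.1 (sh_disj hd y) (hS a ha) ?_
        rw [h.1]
        exact sh_R g (hS b hb) (self_sh h1 _))
    (fun x _ => by rw [cls, ev_eq ν _ _ (by trivial)]; exact hν x)
  rw [univ_inter, measure_univ, one_mul] at h2
  have h3 := half_compl _ _ (h2.trans ((pow_le_pow_of_le_one (by simp) hc2 hc).trans hc1))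
  have h4 := (mul_le_mul' le_rfl h3).trans (Suc_ge ν K k y g hd hA S hS)
  rw [prob_compl_eq_one_sub (cylinderEvents_le_pi _ (Suc_meas K h1 k y g S hS))]
  refine tsub_le_iff_right.2 (le_trans (le_of_eq ?_) (add_le_add le_rfl h4))
  rw [← ENNReal.toReal_eq_toReal_iff' (by finiteness) (by finiteness),
    ENNReal.toReal_add (by finiteness) (by finiteness)]
  simp
  norm_num

lemma grow (K K' : Set Γ) (hK' : K'.Finite) (h1 : (1 : Γ) ∈ K) (k : ℕ) (y g : Γ) (hKK : K ⊆ K')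
    (hR : R K g ⊆ K') (hd : Disjoint K (R K g)) (S : Finset Γ) (hc : 2 ^ k ≤ S.card) (ω : Om Γ)
    (h2 : ω ∈ Cl (sh y K) y S) (h3 : ω ∈ Suc K k S g) : ω ∈ A K' (k + 1) y := by
  classical
  simp only [Suc, A, mem_iUnion, mem_inter_iff] at h3 ⊢
  obtain ⟨x, hx, h4, S2, hc2, h5⟩ := h3
  have s1 : sh y K ⊆ sh y K' := fun z hz => hKK hz
  have s2 : sh y (R K g) ⊆ sh y K' := fun z hz => hR hz
  have hxC : x ∈ C ω (sh y K) y := by rw [h2]; exact hx
  have hxK := C_sub (self_sh h1 y) hxC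
  have hfin : (C ω (sh y K') y).Finite := by
    refine ((hK'.image (fun z => y * z)).subset ?_).subset (C_sub (s1 (self_sh h1 y)))
    exact fun z hz => ⟨_, hz, by simp⟩
  refine ⟨hfin.toFinset, ?_, by simp [Cl]⟩
  have hS : ∀ z ∈ S, z ∈ C ω (sh y K) y := fun z hz => by rw [h2]; exact hz
  have hS2 : ∀ z ∈ S2, z ∈ C ω (sh (x * g) K) (x * g) := fun z hz => by rw [h5]; exact hz
  have hdis : Disjoint S S2 := by
    rw [Finset.disjoint_left]
    intro z a b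
    exact disjoint_left.1 (sh_disj hd y) (C_sub (self_sh h1 y) (hS z a))
      (sh_R g hxK (C_sub (self_sh h1 _) (hS2 z b)))
  have hsub : S ∪ S2 ⊆ hfin.toFinset := by
    intro z hz
    rw [Finite.mem_toFinset]
    rcases Finset.mem_union.1 hz with hz | hz
    · exact C_mono s1 y (hS z hz)
    · have a1 := C_mono s1 y hxC
      have a2 := C_mono ((sh_R g hxK).trans s2) _ (hS2 z hz)
      exact Relation.ReflTransGen.trans (Relation.ReflTransGen.tail a1
        ⟨s1 hxK, s2 (sh_R g hxK (self_sh h1 _)), h4⟩) a2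
  have := Finset.card_le_card hsub
  rw [Finset.card_union_of_disjoint hdis] at this
  rw [pow_succ]; omega

lemma step [Countable Γ] (K K' : Set Γ) (G : Finset Γ) (hK' : K'.Finite) (h1 : (1 : Γ) ∈ K) (k : ℕ)
    (hKK : K ⊆ K') (hR : ∀ g ∈ G, R K g ⊆ K') (hs : Sep K G)
    (hA : ∀ z, 2⁻¹ ≤ Measure.infinitePi ν (A K k z)) (c : ENNReal) (hc1 : c ^ (2 ^ k) ≤ 2⁻¹)
    (hc2 : c ≤ 1) (hν : ∀ g ∈ G, ∀ x, ν s(x, x * g) {0} ≤ c) (y : Γ) :
    Measure.infinitePi ν (A K k y \ A K' (k + 1) y) ≤ (3 * 4⁻¹) ^ G.card := by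
  have e1 : A K k y \ A K' (k + 1) y ⊆ ⋃ (S : Finset Γ) (_ : 2 ^ k ≤ S.card ∧ ∀ x ∈ S, x ∈ sh y K),
      Cl (sh y K) y S ∩ ⋂ g ∈ G, (Suc K k S g)ᶜ := by
    rintro ω ⟨h2, h3⟩
    simp only [A, mem_iUnion] at h2
    obtain ⟨S, hc, h2⟩ := h2
    simp only [mem_iUnion, mem_inter_iff, mem_iInter, mem_compl_iff]
    refine ⟨S, ⟨hc, fun x hx => C_sub (ω := ω) (self_sh h1 y) (by rw [h2]; exact hx)⟩, h2,
      fun g hg h4 => h3 (grow K K' hK' h1 k y g hKK (hR g hg) (hs.1 g hg) S hc ω h2 h4)⟩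
  refine (measure_mono e1).trans ((measure_iUnion_le _).trans ?_)
  have e2 : ∀ S : Finset Γ, Measure.infinitePi ν
      (⋃ (_ : 2 ^ k ≤ S.card ∧ ∀ x ∈ S, x ∈ sh y K), Cl (sh y K) y S ∩ ⋂ g ∈ G, (Suc K k S g)ᶜ)
      ≤ Measure.infinitePi ν (Cl (sh y K) y S) * (3 * 4⁻¹) ^ G.card := by
    classical
    intro S
    by_cases hS : 2 ^ k ≤ S.card ∧ ∀ x ∈ S, x ∈ sh y K
    · rw [iUnion_eq_if, if_pos hS]
      refine ind_prod ν (Ed (sh y K)) (TT K y) _ _ _ G (Cl_meas _ _ _)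
        (fun g _ => (Suc_meas K h1 k y g S hS.2).compl) ?_ ?_
        (fun g hg => Suc_compl ν K h1 k y g (hs.1 g hg) hA S hS.2 hS.1 c hc1 hc2 (hν g hg))
      · intro g hg
        rw [disjoint_left]
        rintro e h2 ⟨⟨z, h3, h4⟩, -⟩
        exact disjoint_left.1 (sh_disj (hs.1 g hg) y) (h2 z h3) h4
      · intro g hg h hh hne
        rw [disjoint_left]
        rintro e ⟨⟨z, h3, h4⟩, -⟩ ⟨-, h5⟩
        rcases h5 z h3 with h6 | h6
        · exact disjoint_left.1 (sh_disj (hs.1 g hg) y) h6 h4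
        · exact disjoint_left.1 (sh_disj (hs.2 g hg h hh hne) y) h4 h6
    · rw [iUnion_eq_if, if_neg hS]; simp
  refine (ENNReal.tsum_le_tsum e2).trans ?_
  rw [ENNReal.tsum_mul_right, ← measure_iUnion ?_ (fun S => cylinderEvents_le_pi _ (Cl_meas _ _ S))]
  · exact (mul_le_mul' prob_le_one le_rfl).trans (by rw [one_mul])
  · intro S S' hne
    rw [Function.onFun, disjoint_left]
    intro ω h2 h3
    exact hne (Finset.coe_injective (h2.symm.trans h3))

lemma geo : ∑' k : ℕ, (3 * 4⁻¹ : ENNReal) ^ (k + 8) ≤ 2⁻¹ := by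
  simp_rw [pow_add]
  rw [ENNReal.tsum_mul_right, ENNReal.tsum_geometric]
  have : (1 - 3 * 4⁻¹ : ENNReal) = 4⁻¹ := by
    refine ENNReal.sub_eq_of_eq_add (by finiteness) ?_
    rw [← ENNReal.toReal_eq_toReal_iff' (by finiteness) (by finiteness),
      ENNReal.toReal_add (by finiteness) (by finiteness)]
    simp
    norm_num
  rw [this, inv_inv, ← ENNReal.toReal_le_toReal (by finiteness) (by finiteness)]
  simp
  norm_num

lemma perc [Countable Γ] (K : ℕ → Set Γ) (G : ℕ → Finset Γ) (h : ∀ k,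
    (K k).Finite ∧ (1 : Γ) ∈ K k ∧ (G k).card = k + 8 ∧ Sep (K k) (G k) ∧ K k ⊆ K (k + 1) ∧
      ∀ g ∈ G k, R (K k) g ⊆ K (k + 1)) (c : ℕ → ENNReal) (hc1 : ∀ k, c k ^ (2 ^ k) ≤ 2⁻¹)
    (hc2 : ∀ k, c k ≤ 1) (hν : ∀ k, ∀ g ∈ G k, ∀ x, ν s(x, x * g) {0} ≤ c k) :
    Measure.infinitePi ν {ω | ∃ c : (SimpleGraph.fromEdgeSet {e | ω e ≠ 0}).ConnectedComponent,
      c.supp.Infinite} ≠ 0 := by
  have a0 : ∀ y, A (K 0) 0 y = univ := by
    intro y
    ext ω
    simp only [A, mem_iUnion, mem_univ, iff_true]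
    have hfin : (C ω (sh y (K 0)) y).Finite := by
      refine (((h 0).1.image (fun z => y * z)).subset ?_).subset (C_sub (self_sh (h 0).2.1 y))
      exact fun z hz => ⟨_, hz, by simp⟩
    refine ⟨hfin.toFinset, ?_, by simp [Cl]⟩
    exact Finset.card_pos.2 ⟨y, hfin.mem_toFinset.2 Relation.ReflTransGen.refl⟩
  have st : ∀ k, (∀ y, Measure.infinitePi ν (A (K k) k y)ᶜ ≤ 2⁻¹) → ∀ y,
      Measure.infinitePi ν (A (K k) k y \ A (K (k + 1)) (k + 1) y) ≤ (3 * 4⁻¹) ^ (k + 8) := by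
    intro k hk y
    rw [← (h k).2.2.1]
    exact step ν _ _ _ (h (k + 1)).1 (h k).2.1 k (h k).2.2.2.2.1 (h k).2.2.2.2.2 (h k).2.2.2.1
      (fun z => by simpa using half_compl _ _ (hk z)) (c k) (hc1 k) (hc2 k) (hν k) y
  have b1 : ∀ k y, Measure.infinitePi ν (A (K k) k y)ᶜ
      ≤ ∑ j ∈ Finset.range k, (3 * 4⁻¹ : ENNReal) ^ (j + 8) := by
    intro k
    induction k with
    | zero => intro y; simp [a0]
    | succ k ih =>
      intro y
      have : (A (K (k + 1)) (k + 1) y)ᶜ ⊆ (A (K k) k y)ᶜ ∪ (A (K k) k y \ A (K (k + 1)) (k + 1) y) := by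
        intro ω hω
        by_cases h2 : ω ∈ A (K k) k y
        · exact Or.inr ⟨h2, hω⟩
        · exact Or.inl h2
      rw [Finset.sum_range_succ]
      exact (measure_mono this).trans ((measure_union_le _ _).trans (add_le_add (ih y)
        (st k (fun z => (ih z).trans ((ENNReal.sum_le_tsum _).trans geo)) y)))
  have b2 : ∀ k y, Measure.infinitePi ν (A (K k) k y)ᶜ ≤ 2⁻¹ := fun k z =>
    (b1 k z).trans ((ENNReal.sum_le_tsum _).trans geo)
  intro h0
  have e1 : {ω : Om Γ | ∃ c : (SimpleGraph.fromEdgeSet {e | ω e ≠ 0}).ConnectedComponent,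
      c.supp.Infinite}ᶜ ⊆ ⋃ k, A (K k) k 1 \ A (K (k + 1)) (k + 1) 1 := by
    intro ω hω
    by_contra hh
    simp only [mem_iUnion, not_exists, mem_sdiff, not_and, not_not] at hh
    have h2 : ∀ k, ω ∈ A (K k) k 1 := by
      intro k
      induction k with
      | zero => rw [a0]; trivial
      | succ k ih => exact hh k ih
    refine hω ⟨(SimpleGraph.fromEdgeSet {e | ω e ≠ 0}).connectedComponentMk 1, fun hfin => ?_⟩
    have h3 := h2 hfin.toFinset.card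
    simp only [A, mem_iUnion] at h3
    obtain ⟨S, hS, h3⟩ := h3
    have h4 : S ⊆ hfin.toFinset := by
      intro z hz
      have h5 : z ∈ C ω (sh 1 (K hfin.toFinset.card)) 1 := by rw [h3]; exact hz
      rw [Finite.mem_toFinset, SimpleGraph.ConnectedComponent.mem_supp_iff,
        SimpleGraph.ConnectedComponent.eq]
      clear hz
      induction h5 with
      | refl => rfl
      | @tail a b _ h6 ih =>
        refine SimpleGraph.Reachable.trans ?_ ih
        by_cases hab : a = b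
        · rw [hab]
        · exact SimpleGraph.Adj.reachable
            (SimpleGraph.Adj.symm ((SimpleGraph.fromEdgeSet_adj _).2 ⟨h6.2.2, hab⟩))
    have := Finset.card_le_card h4
    have := Nat.lt_two_pow_self (n := hfin.toFinset.card)
    omega
  have h3 := half_compl _ _ ((measure_mono e1).trans ((measure_iUnion_le _).trans
    ((ENNReal.tsum_le_tsum fun k => st k (b2 k) 1).trans geo)))
  rw [compl_compl, h0] at h3
  simp at h3

lemma weights [Countable Γ] (G : ℕ → Finset Γ) (hG : ∀ k, (G k).card = k + 8) :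
    ∃ (μ : Γ → NNReal) (l0 : NNReal), HasSum μ 1 ∧ (∀ g, μ g⁻¹ = μ g) ∧ (∀ g, μ g ≠ 0) ∧
      ∀ k, ∀ g ∈ G k, (2⁻¹ : ℝ) ^ k ≤ l0 * μ g := by
  classical
  obtain ⟨en, hen⟩ := exists_surjective_nat Γ
  let f : Γ → ENNReal := fun g => ∑' k, if g ∈ insert (en k) (G k) then 2⁻¹ ^ k else 0
  have hf : ∀ k, ∀ g ∈ insert (en k) (G k), 2⁻¹ ^ k ≤ f g := fun k g hg =>
    le_trans (by rw [if_pos hg]) (ENNReal.le_tsum k)
  have hs : ∑' g, f g ≠ ⊤ := by
    simp only [f]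
    rw [ENNReal.tsum_comm]
    have h1 : ∀ k : ℕ, (∑' g, if g ∈ insert (en k) (G k) then (2⁻¹ : ENNReal) ^ k else 0)
        ≤ ENNReal.ofReal (((k : ℝ) ^ 1 + 9) * (2⁻¹ : ℝ) ^ k) := by
      intro k
      rw [tsum_eq_sum (s := insert (en k) (G k)) (fun g hg => if_neg hg),
        Finset.sum_congr rfl (fun g hg => if_pos hg), Finset.sum_const, nsmul_eq_mul,
        ENNReal.ofReal_mul (by positivity), ENNReal.ofReal_pow (by norm_num),
        ENNReal.ofReal_inv_of_pos (by norm_num), ENNReal.ofReal_ofNat]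
      gcongr
      rw [← ENNReal.ofReal_natCast]
      apply ENNReal.ofReal_le_ofReal
      have := Finset.card_insert_le (en k) (G k)
      rw [hG] at this
      rw [pow_one]
      exact_mod_cast this
    refine ne_top_of_le_ne_top ?_ (ENNReal.tsum_le_tsum h1)
    rw [← ENNReal.ofReal_tsum_of_nonneg (fun k => by positivity)]
    · exact ENNReal.ofReal_ne_top
    · simp_rw [add_mul]
      exact (summable_pow_mul_geometric_of_norm_lt_one 1 (by norm_num)).add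
        ((summable_geometric_of_lt_one (by norm_num) (by norm_num)).mul_left 9)
  let m : Γ → ENNReal := fun g => f g + f g⁻¹
  have hZ : ∑' g, m g ≠ ⊤ := by
    simp only [m]
    rw [ENNReal.tsum_add, show ∑' g, f g⁻¹ = ∑' g, f g from (Equiv.inv Γ).tsum_eq f]
    exact ENNReal.add_ne_top.2 ⟨hs, hs⟩
  have hm0 : ∀ g, m g ≠ 0 := by
    intro g
    obtain ⟨k, rfl⟩ := hen g
    exact ne_of_gt (lt_of_lt_of_le (ENNReal.pow_pos (by simp) k)
      ((hf k _ (Finset.mem_insert_self _ _)).trans le_self_add))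
  have hZ0 : ∑' g, m g ≠ 0 := fun h => hm0 1 (ENNReal.tsum_eq_zero.1 h 1)
  have hmt : ∀ g, m g ≠ ⊤ := fun g => ne_top_of_le_ne_top hZ (ENNReal.le_tsum g)
  have hc : ∀ g, (((m g * (∑' g, m g)⁻¹).toNNReal : NNReal) : ENNReal) = m g * (∑' g, m g)⁻¹ :=
    fun g => ENNReal.coe_toNNReal (ENNReal.mul_ne_top (hmt g) (by simpa using hZ0))
  refine ⟨fun g => (m g * (∑' g, m g)⁻¹).toNNReal, (∑' g, m g).toNNReal, ?_, ?_, ?_, ?_⟩
  · rw [← ENNReal.hasSum_coe]
    simp_rw [hc]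
    have := ENNReal.summable.hasSum (f := fun g => m g * (∑' g, m g)⁻¹)
    rwa [ENNReal.tsum_mul_right, ENNReal.mul_inv_cancel hZ0 hZ] at this
  · intro g
    simp only [m, inv_inv, add_comm]
  · intro g h
    have := hc g
    beta_reduce at h
    rw [h] at this
    exact mul_ne_zero (hm0 g) (by simpa using hZ) this.symm
  · intro k g hg
    have h1 : (2⁻¹ : ENNReal) ^ k ≤ m g := (hf k g (Finset.mem_insert_of_mem hg)).trans le_self_add
    have h2 := ENNReal.toReal_mono (hmt g) h1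
    have h3 : (((∑' g, m g).toNNReal * (m g * (∑' g, m g)⁻¹).toNNReal : NNReal) : ENNReal) = m g := by
      rw [ENNReal.coe_mul, hc, ENNReal.coe_toNNReal hZ, mul_comm, mul_assoc,
        ENNReal.inv_mul_cancel hZ0 hZ, mul_one]
    rw [← h3] at h2
    simpa using h2

lemma main [Countable Γ] [Infinite Γ] : ∃ (μ : Γ → NNReal) (l0 : NNReal), HasSum μ 1 ∧
    (∀ g, μ g⁻¹ = μ g) ∧ (∀ g, μ g ≠ 0) ∧ ∀ lam : NNReal, l0 ≤ lam →
      Measure.infinitePi (fun e : Sym2 Γ =>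
        poissonMeasure (lam * μ ((Quot.out e).1⁻¹ * (Quot.out e).2)))
      {ω | ∃ c : (SimpleGraph.fromEdgeSet {e | ω e ≠ 0}).ConnectedComponent, c.supp.Infinite} ≠ 0 := by
  obtain ⟨K, G, h⟩ := exists_levels (Γ := Γ)
  obtain ⟨μ, l0, h1, h2, h3, h4⟩ := weights G (fun k => (h k).2.2.1)
  refine ⟨μ, l0, h1, h2, h3, fun lam hl => ?_⟩
  refine perc _ K G h (fun k => ENNReal.ofReal (Real.exp (-(2⁻¹ : ℝ) ^ k))) ?_ ?_ ?_
  · intro k
    rw [← ENNReal.ofReal_pow (Real.exp_pos _).le, ← Real.exp_nat_mul]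
    have : ((2 ^ k : ℕ) : ℝ) * -(2⁻¹ : ℝ) ^ k = -1 := by
      push_cast
      rw [mul_neg, ← mul_pow]; norm_num
    rw [this, ← ENNReal.ofReal_ofNat, ← ENNReal.ofReal_inv_of_pos (by norm_num), Real.exp_neg]
    apply ENNReal.ofReal_le_ofReal
    exact inv_anti₀ (by norm_num) (by linarith [Real.add_one_le_exp 1])
  · intro k
    rw [ENNReal.ofReal_le_one, Real.exp_le_one_iff, neg_nonpos]
    positivity
  · intro k g hg x
    have e : μ ((Quot.out s(x, x * g)).1⁻¹ * (Quot.out s(x, x * g)).2) = μ g := by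
      have h5 : s((Quot.out s(x, x * g)).1, (Quot.out s(x, x * g)).2) = s(x, x * g) :=
        Quot.out_eq _
      rcases Sym2.eq_iff.1 h5 with h6 | h6
      · rw [h6.1, h6.2]; simp
      · rw [h6.1, h6.2, ← h2]; simp
    rw [e, poissonMeasure_singleton]
    apply ENNReal.ofReal_le_ofReal
    simp only [pow_zero, mul_one, Nat.factorial_zero, Nat.cast_one, div_one, Real.exp_le_exp,
      neg_le_neg_iff, NNReal.coe_mul]
    exact (h4 k g hg).trans (mul_le_mul_of_nonneg_right (by exact_mod_cast hl) (μ g).2)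

end
end Pool.Agent.H22.LongR
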