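import Mathlib

/-! Entropy-type window inequality for the Matsaev counterexample near exponent two. -/

namespace Pool.Agent.H22.Mat

open Real Set

def R (x y : ℂ) : ℝ := x.re * y.re + x.im * y.im

noncomputable def L (x y : ℂ) : ℝ := log ‖x‖ - log ‖y‖

lemma nsq (x : ℂ) : ‖x‖ ^ 2 = x.re ^ 2 + x.im ^ 2 := by
  rw [Complex.sq_norm, Complex.normSq_apply]; ring

lemma R_le (x y : ℂ) : |R x y| ≤ ‖x‖ * ‖y‖ := by
  rw [← abs_of_nonneg (mul_nonneg (norm_nonneg x) (norm_nonneg y)), ← sq_le_sq, mul_pow, nsq, nsq,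
    R]
  nlinarith [sq_nonneg (x.re * y.im - x.im * y.re)]

lemma cosh_low (t : ℝ) : |t| ≤ 0.685 * cosh t := by
  have h1 : ∀ u : ℝ, 1 + u ^ 2 / 2 ≤ cosh u := by
    intro u
    have e : cosh u = 1 + 2 * sinh (|u| / 2) ^ 2 := by
      rw [← cosh_abs u]
      have := cosh_two_mul (|u| / 2)
      rw [show 2 * (|u| / 2) = |u| by ring, cosh_sq] at this
      linarith
    have : |u| / 2 ≤ sinh (|u| / 2) := self_le_sinh_iff.mpr (by positivity)
    have h2 := pow_le_pow_left₀ (by positivity) this 2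
    rw [e, ← sq_abs u]; nlinarith
  have e : cosh t = 2 * cosh (t / 2) ^ 2 - 1 := by
    have := cosh_two_mul (t / 2)
    rw [show 2 * (t / 2) = t by ring, sinh_sq] at this
    linarith
  have h2 := pow_le_pow_left₀ (by positivity) (h1 (t / 2)) 2
  have : (t / 2) ^ 2 = |t| ^ 2 / 4 := by rw [sq_abs]; ring
  rw [this] at h2
  rw [e]
  nlinarith [sq_nonneg (|t| - 1.23), sq_nonneg (|t| ^ 2 - 1.5), abs_nonneg t]

lemma key {a b : ℝ} (ha : 0 ≤ a) (hb : 0 ≤ b) :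
    a * b * |log a - log b| ≤ 0.685 * (a ^ 2 + b ^ 2) / 2 := by
  rcases ha.eq_or_lt with rfl | ha
  · simp; positivity
  rcases hb.eq_or_lt with rfl | hb
  · simp; positivity
  have h := cosh_low (log a - log b)
  rw [cosh_eq, neg_sub, exp_sub, exp_sub, exp_log ha, exp_log hb] at h
  have := mul_le_mul_of_nonneg_left h (mul_pos ha hb).le
  refine this.trans (le_of_eq ?_)
  field_simp

lemma RL (x y : ℂ) : |R x y * L x y| ≤ 0.685 * (‖x‖ ^ 2 + ‖y‖ ^ 2) / 2 := by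
  rw [abs_mul]
  exact (mul_le_mul_of_nonneg_right (R_le x y) (abs_nonneg _)).trans
    (key (norm_nonneg x) (norm_nonneg y))

lemma sgn (x y : ℂ) (h : R x y ≠ 0) : 0 ≤ L x y * (‖x‖ ^ 2 - ‖y‖ ^ 2) := by
  have hx : 0 < ‖x‖ := norm_pos_iff.mpr (by rintro rfl; simp [R] at h)
  have hy : 0 < ‖y‖ := norm_pos_iff.mpr (by rintro rfl; simp [R] at h)
  rcases le_total ‖x‖ ‖y‖ with l | l
  · exact mul_nonneg_of_nonpos_of_nonpos (sub_nonpos.mpr (log_le_log hx l)) (by nlinarith)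
  · exact mul_nonneg (sub_nonneg.mpr (log_le_log hy l)) (by nlinarith)

lemma ex2 (u : ℝ) : |exp u - 1 - u| ≤ u ^ 2 * exp |u| := by
  have := Complex.norm_exp_sub_sum_le_norm_mul_exp (u : ℂ) 2
  simp only [Finset.sum_range_succ, Finset.sum_range_zero] at this
  rw [← Real.norm_eq_abs, ← Complex.norm_real]
  simp only [Complex.norm_real, Real.norm_eq_abs, sq_abs] at this
  convert this using 2
  push_cast; simp; ring

lemma taylor (x y : ℂ) {s : ℝ} (hs : |s| ≤ 1 / 2) :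
    |R x y * exp (s * L x y) - R x y - s * (R x y * L x y)| ≤
      16 * s ^ 2 * (‖x‖ ^ 2 + ‖y‖ ^ 2) := by
  by_cases hx : x = 0
  · simp [hx, R]; positivity
  by_cases hy : y = 0
  · simp [hy, R]; positivity
  have hx := norm_pos_iff.mpr hx
  have hy := norm_pos_iff.mpr hy
  have h1 : ‖x‖ * ‖y‖ * exp |L x y| ≤ ‖x‖ ^ 2 + ‖y‖ ^ 2 := by
    rcases abs_cases (L x y) with ⟨e, -⟩ | ⟨e, -⟩ <;> rw [e, L]
    · rw [exp_sub, exp_log hx, exp_log hy]; field_simp; nlinarith [sq_nonneg ‖y‖]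
    · rw [neg_sub, exp_sub, exp_log hx, exp_log hy]; field_simp; nlinarith [sq_nonneg ‖x‖]
  have h2 : L x y ^ 2 ≤ 16 * exp (|L x y| / 2) := by
    have := add_one_le_exp (|L x y| / 4)
    have h3 := pow_le_pow_left₀ (by positivity : 0 ≤ |L x y| / 4) (by linarith :
      |L x y| / 4 ≤ exp (|L x y| / 4)) 2
    rw [← exp_nat_mul, div_pow, sq_abs, show ((2 : ℕ) : ℝ) * (|L x y| / 4) = |L x y| / 2 by
      push_cast; ring] at h3
    linarith
  have h3 : exp |s * L x y| ≤ exp (|L x y| / 2) := by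
    rw [exp_le_exp, abs_mul]; nlinarith [abs_nonneg (L x y)]
  have h4 : |exp (s * L x y) - 1 - s * L x y| ≤ 16 * s ^ 2 * exp |L x y| := by
    refine (ex2 _).trans ?_
    have : exp |L x y| = exp (|L x y| / 2) * exp (|L x y| / 2) := by rw [← exp_add]; ring_nf
    rw [this, mul_pow]
    calc s ^ 2 * L x y ^ 2 * exp |s * L x y|
        ≤ s ^ 2 * (16 * exp (|L x y| / 2)) * exp (|L x y| / 2) := by gcongr
      _ = _ := by ring
  calc _ = |R x y| * |exp (s * L x y) - 1 - s * L x y| := by rw [← abs_mul]; ring_nf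
    _ ≤ ‖x‖ * ‖y‖ * (16 * s ^ 2 * exp |L x y|) := by gcongr; exact R_le x y
    _ = 16 * s ^ 2 * (‖x‖ * ‖y‖ * exp |L x y|) := by ring
    _ ≤ _ := by gcongr

noncomputable def E (x y : ℂ) : ℝ := R x y * L x y

noncomputable def q (x y z : ℂ) : ℝ := ‖z - √2 * y + x‖ ^ 2

lemma ker (x y : ℂ) : E y x + E (√2 * y - x) y + E (y - √2 * x) (√2 * y - x) + E (-x) (y - √2 * x)
    ≤ √2 * 0.685 / 4 * (‖x‖ ^ 2 + ‖y‖ ^ 2 + ‖√2 * y - x‖ ^ 2 + ‖y - √2 * x‖ ^ 2) := by
  have hr : √2 * √2 = (2 : ℝ) := mul_self_sqrt (by norm_num)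
  have r0 : 0 < √2 := by positivity
  set r := √2
  set z := r * y - x with hz
  set v := y - r * x with hv
  have e : E y x + E z y + E v z + E (-x) v = -r * (R x z * L x z) + -r * (R y v * L y v) := by
    simp only [E, L, norm_neg, R, hz, hv]
    simp
    linear_combination (x.re * y.re + x.im * y.im) * (log ‖x‖ - log ‖y‖) * hr
  have e1 : ‖x‖ ^ 2 - ‖z‖ ^ 2 = -2 * R y v := by
    simp only [nsq, R, hz, hv]; simp
    linear_combination -(y.re ^ 2 + y.im ^ 2) * hr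
  have e2 : ‖y‖ ^ 2 - ‖v‖ ^ 2 = 2 * R x z := by
    simp only [nsq, R, hz, hv]; simp
    linear_combination -(x.re ^ 2 + x.im ^ 2) * hr
  have a1 := abs_le.mp (RL x z)
  have a2 := abs_le.mp (RL y v)
  have e3 : ‖x‖ ^ 2 + ‖z‖ ^ 2 = ‖y‖ ^ 2 + ‖v‖ ^ 2 := by
    simp only [nsq, hz, hv]; simp
    linear_combination (y.re ^ 2 + y.im ^ 2 - x.re ^ 2 - x.im ^ 2) * hr
  have : 0 ≤ R x z * L x z ∨ 0 ≤ R y v * L y v := by
    by_contra! h
    have s1 := sgn x z (left_ne_zero_of_mul h.1.ne)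
    have s2 := sgn y v (left_ne_zero_of_mul h.2.ne)
    rw [e1] at s1; rw [e2] at s2
    have p := mul_pos_of_neg_of_neg h.1 h.2
    nlinarith [mul_nonneg s1 s2]
  rw [e]
  rcases this with h | h <;> nlinarith [mul_nonneg r0.le h]

lemma E_cont : Continuous fun p : ℂ × ℂ => E p.1 p.2 := by
  have h : Continuous fun x : ℂ => x * log ‖x‖ := by
    refine continuous_iff_continuousAt.mpr fun x => ?_
    by_cases hx : x = 0
    · subst hx
      rw [ContinuousAt, tendsto_iff_norm_sub_tendsto_zero]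
      have := ((continuous_mul_log.comp continuous_norm).abs.tendsto (0 : ℂ))
      simpa [abs_mul] using this
    · have := norm_ne_zero_iff.mpr hx
      exact continuousAt_id.mul (Complex.continuous_ofReal.continuousAt.comp
        (continuous_norm.continuousAt.log this))
  have : (fun p : ℂ × ℂ => E p.1 p.2) =
      fun p => R (p.1 * log ‖p.1‖) p.2 - R p.1 (p.2 * log ‖p.2‖) := by
    ext p; simp [E, R, L]; ring
  have h1 := h.comp (continuous_fst (X := ℂ) (Y := ℂ))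
  have h2 := h.comp (continuous_snd (X := ℂ) (Y := ℂ))
  have cR : Continuous fun p : ℂ × ℂ => R p.1 p.2 := by unfold R; fun_prop
  rw [this]
  exact (cR.comp (h1.prodMk continuous_snd)).sub (cR.comp (continuous_fst.prodMk h2))

lemma E_smul (x y : ℂ) {t : ℝ} (ht : 0 < t) : E (t * x) (t * y) = t ^ 2 * E x y := by
  by_cases hx : x = 0
  · simp [hx, E, R]
  by_cases hy : y = 0
  · simp [hy, E, R]
  simp only [E, L, norm_mul, Complex.norm_real, Real.norm_eq_abs, abs_of_pos ht]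
  rw [log_mul ht.ne' (norm_ne_zero_iff.mpr hx), log_mul ht.ne' (norm_ne_zero_iff.mpr hy)]
  simp [R]; ring

noncomputable def F (w : Fin 5 → ℂ) : ℝ :=
  E (w 1) (w 0) + E (w 2) (w 1) + E (w 3) (w 2) + E (w 4) (w 3) -
    √2 * 0.69 / 4 * (‖w 0‖ ^ 2 + ‖w 1‖ ^ 2 + ‖w 2‖ ^ 2 + ‖w 3‖ ^ 2)

noncomputable def G (w : Fin 5 → ℂ) : ℝ :=
  q (w 0) (w 1) (w 2) + q (w 1) (w 2) (w 3) + q (w 2) (w 3) (w 4)

lemma G_nn (w : Fin 5 → ℂ) : 0 ≤ G w := by unfold G q; positivity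

lemma F_neg {w : Fin 5 → ℂ} (hw : w ≠ 0) (h : G w = 0) : F w < 0 := by
  have hr : (√2 : ℂ) * √2 = 2 := by
    rw [← Complex.ofReal_mul, mul_self_sqrt (by norm_num)]; rfl
  have z : ∀ x y z, q x y z ≤ 0 → z = √2 * y - x := by
    intro x y z h
    have : ‖z - √2 * y + x‖ = 0 := by unfold q at h; nlinarith [norm_nonneg (z - √2 * y + x)]
    linear_combination norm_eq_zero.mp this
  have n : ∀ x y z, 0 ≤ q x y z := fun _ _ _ => by unfold q; positivity
  unfold G at h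
  have h2 := z (w 0) (w 1) (w 2) (by linarith [n (w 1) (w 2) (w 3), n (w 2) (w 3) (w 4)])
  have h3 := z (w 1) (w 2) (w 3) (by linarith [n (w 0) (w 1) (w 2), n (w 2) (w 3) (w 4)])
  have h4 := z (w 2) (w 3) (w 4) (by linarith [n (w 1) (w 2) (w 3), n (w 0) (w 1) (w 2)])
  have h3' : w 3 = w 1 - √2 * w 0 := by rw [h3, h2]; linear_combination w 1 * hr
  have h4' : w 4 = -w 0 := by rw [h4, h3', h2]; linear_combination -w 0 * hr
  have k := ker (w 0) (w 1)
  rw [← h2, ← h3', ← h4'] at k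
  have : 0 < ‖w 0‖ ^ 2 + ‖w 1‖ ^ 2 := by
    by_contra! hh
    have a0 : w 0 = 0 := norm_eq_zero.mp (by nlinarith [norm_nonneg (w 0), sq_nonneg ‖w 1‖])
    have a1 : w 1 = 0 := norm_eq_zero.mp (by nlinarith [norm_nonneg (w 1), sq_nonneg ‖w 0‖])
    apply hw; ext i; fin_cases i <;> simp [a0, a1, h2, h3', h4']
  have r0 : 0 < √2 := by positivity
  unfold F
  nlinarith [mul_pos r0 (show 0 < ‖w 0‖ ^ 2 + ‖w 1‖ ^ 2 + ‖w 2‖ ^ 2 + ‖w 3‖ ^ 2 by positivity)]

theorem window : ∃ Λ : ℝ, 0 ≤ Λ ∧ ∀ w, F w ≤ Λ * G w := by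
  have cE : ∀ i j, Continuous fun w : Fin 5 → ℂ => E (w i) (w j) := fun i j =>
    E_cont.comp (by fun_prop : Continuous fun w : Fin 5 → ℂ => (w i, w j))
  have cF : Continuous F := by unfold F; fun_prop
  have cG : Continuous G := by unfold G q; fun_prop
  obtain ⟨n, hn⟩ := (isCompact_sphere (0 : Fin 5 → ℂ) 1).elim_directed_cover
    (fun n : ℕ => {w | F w < n * G w}) (fun n => isOpen_lt cF (by fun_prop)) (by
      intro w hw
      have h0 : w ≠ 0 := by rintro rfl; simp at hw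
      rcases (G_nn w).eq_or_lt with h | h
      · exact mem_iUnion.mpr ⟨0, by simpa using F_neg h0 h.symm⟩
      · obtain ⟨n, hn⟩ := exists_nat_gt (F w / G w)
        exact mem_iUnion.mpr ⟨n, (div_lt_iff₀ h).mp hn⟩)
    (Monotone.directed_le fun m n hmn w hw => lt_of_lt_of_le hw
      (mul_le_mul_of_nonneg_right (Nat.cast_le.mpr hmn) (G_nn w)))
  refine ⟨n, n.cast_nonneg, fun w => ?_⟩
  by_cases h0 : w = 0
  · simp [h0, F, G, E, R, q]
  have ht := norm_pos_iff.mpr h0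
  have h : F _ ≤ n * G _ :=
    le_of_lt (hn (a := (‖w‖⁻¹ : ℝ) • w) (by simp [norm_smul, ht.ne']))
  have ti := inv_pos.mpr ht
  have e1 : F ((‖w‖⁻¹ : ℝ) • w) = ‖w‖⁻¹ ^ 2 * F w := by
    simp only [F, Pi.smul_apply, Complex.real_smul, E_smul _ _ ti, norm_mul, Complex.norm_real,
      Real.norm_eq_abs, abs_of_pos ti]
    ring
  have e2 : G ((‖w‖⁻¹ : ℝ) • w) = ‖w‖⁻¹ ^ 2 * G w := by
    have : ∀ x y z : ℂ, q ((‖w‖⁻¹ : ℝ) * x) ((‖w‖⁻¹ : ℝ) * y) ((‖w‖⁻¹ : ℝ) * z) =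
        ‖w‖⁻¹ ^ 2 * q x y z := fun x y z => by
      generalize ‖w‖⁻¹ = t at ti
      rw [q, q, show (t : ℂ) * z - √2 * (t * y) + t * x = t * (z - √2 * y + x) by ring, norm_mul,
        Complex.norm_real, Real.norm_eq_abs, abs_of_pos ti, mul_pow]
    simp only [G, Pi.smul_apply, Complex.real_smul, this]; ring
  rw [e1, e2, mul_left_comm] at h
  exact le_of_mul_le_mul_left h (by positivity)

end Pool.Agent.H22.Mat
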