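import Pool.Agent.H22.Mat1

/-! Numerical-range bound for the shift and the norm bound near exponent two. -/

namespace Pool.Agent.H22.Mat

open Real Set

noncomputable def J (s : ℝ) (x y : ℂ) : ℝ := R x y * exp (s * L x y)

noncomputable def term (s Λ : ℝ) (w : ℤ → ℂ) (i : ℤ) : ℝ :=
  (Λ * √2 + 1 / (2 * s)) * J s (w (i + 1)) (w i) + (Λ * √2 - 1 / (2 * s)) * J s (w (i + -1)) (w i)
    - Λ * J s (w (i + -2)) (w i)

def Fs (w : ℤ → ℂ) : Prop := ∃ t : Finset ℤ, ∀ i ∉ t, w i = 0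

lemma Fs.sum {w : ℤ → ℂ} (h : Fs w) {g : ℤ → ℝ} (hg : ∀ i, w i = 0 → g i = 0) :
    ∃ a, HasSum g a := by
  obtain ⟨t, ht⟩ := h
  exact summable_of_ne_finset_zero (s := t) fun i hi => hg i (ht i hi)

lemma sh {g : ℤ → ℝ} {a : ℝ} (h : HasSum g a) (k : ℤ) : HasSum (fun i => g (i + k)) a :=
  (Equiv.addRight k).hasSum_iff.mpr h

lemma q_eq (x y z : ℂ) : q x y z =
    ‖z‖ ^ 2 + 2 * ‖y‖ ^ 2 + ‖x‖ ^ 2 - 2 * √2 * (R z y + R y x) + 2 * R z x := by
  have hr : √2 * √2 = (2 : ℝ) := mul_self_sqrt (by norm_num)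
  simp only [q, nsq, R]; simp
  linear_combination (y.re ^ 2 + y.im ^ 2) * hr

theorem numr : ∃ s Λ σ : ℝ, 0 < s ∧ s ≤ 1 / 2 ∧ 0 ≤ Λ ∧ 0 ≤ σ ∧ σ < 2 * Λ + √2 * log 2 / 4 ∧
    ∀ w, Fs w → ∀ n T, HasSum (fun i => ‖w i‖ ^ 2) n → HasSum (term s Λ w) T → T ≤ σ * n := by
  obtain ⟨Λ', h0, hw⟩ := window
  set Λ := 3 * Λ' / 2 with hΛ
  have Λ0 : 0 ≤ Λ := by positivity
  set s := 0.001 / (32 + 70 * Λ) with hs
  have s0 : 0 < s := by positivity
  have s1 : s * (32 + 70 * Λ) = 0.001 := by rw [hs]; field_simp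
  have s2 : s ≤ 1 / 2 := by nlinarith
  have r1 : 1.4 < √2 := lt_sqrt_of_sq_lt (by norm_num)
  have r2 : √2 < 1.5 := (sqrt_lt' (by norm_num)).mpr (by norm_num)
  refine ⟨s, Λ, 2 * Λ + √2 * 0.69 / 4 + 0.001, s0, s2, Λ0, by positivity,
    by nlinarith [log_two_gt_d9], fun w hf n T hn hT => ?_⟩
  obtain ⟨r1, h1⟩ := hf.sum (g := fun i => R (w (i + 1)) (w i)) fun i h => by simp [R, h]
  obtain ⟨r2', h2⟩ := hf.sum (g := fun i => R (w (i + 2)) (w i)) fun i h => by simp [R, h]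
  obtain ⟨e, he⟩ := hf.sum (g := fun i => E (w (i + 1)) (w i)) fun i h => by simp [E, R, h]
  have hq : HasSum (fun i => q (w i) (w (i + 1)) (w (i + 2)))
      (n + 2 * n + n - 2 * √2 * (r1 + r1) + 2 * r2') := by
    have := ((((sh hn 2).add ((sh hn 1).mul_left 2)).add hn).sub
      (((sh h1 1).add h1).mul_left (2 * √2))).add (h2.mul_left 2)
    simpa only [q_eq, add_assoc, one_add_one_eq_two] using this
  generalize hQ : n + 2 * n + n - 2 * √2 * (r1 + r1) + 2 * r2' = Q at hq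
  have hE : e + e + e + e - √2 * 0.69 / 4 * (n + n + n + n) ≤ Λ' * (Q + Q + Q) := by
    refine hasSum_le (fun i => ?_) ((((he.add (sh he 1)).add (sh he 2)).add (sh he 3)).sub
      ((((hn.add (sh hn 1)).add (sh hn 2)).add (sh hn 3)).mul_left _))
      (((hq.add (sh hq 1)).add (sh hq 2)).mul_left Λ')
    have := hw ![w i, w (i + 1), w (i + 2), w (i + 3), w (i + 4)]
    simp only [add_assoc]
    norm_num
    simp [F, G] at this
    norm_num at this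
    linarith
  set B := Λ * √2 + 1 / (2 * s) with hB
  set c := Λ * √2 - 1 / (2 * s) with hc
  have B0 : 0 ≤ B := by positivity
  have cB : |c| ≤ B := by
    have : 0 ≤ Λ * √2 := by positivity
    have : 0 ≤ 1 / (2 * s) := by positivity
    rw [abs_le]; constructor <;> linarith
  have hs' : |s| ≤ 1 / 2 := by rwa [abs_of_pos s0]
  have hT' : T ≤ B * (r1 + s * e + 16 * s ^ 2 * (n + n)) + (c * (r1 - s * e) +
      B * (16 * s ^ 2 * (n + n))) + Λ * (-r2' + (s + 16 * s ^ 2) * (n + n)) := by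
    refine hasSum_le (fun i => ?_) hT
      (((((h1.add (he.mul_left s)).add (((sh hn 1).add hn).mul_left _)).mul_left B).add
      ((((sh h1 (-1)).sub ((sh he (-1)).mul_left s)).mul_left c).add
        ((((sh hn (-1)).add hn).mul_left _).mul_left B))).add
      (((sh h2 (-2)).neg.add (((sh hn (-2)).add hn).mul_left _)).mul_left Λ))
    simp only [term, neg_add_cancel_right, ← hB, ← hc, J, E]
    have t1 := (abs_le.mp (taylor (w (i + 1)) (w i) hs')).2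
    have t2 := taylor (w (i + -1)) (w i) hs'
    have t3 := (abs_le.mp (taylor (w (i + -2)) (w i) hs')).1
    have t4 := (abs_le.mp (RL (w (i + -2)) (w i))).1
    have c1 : ∀ x y, R x y = R y x := fun x y => by unfold R; ring
    have c2 : ∀ x y, L x y = -L y x := fun x y => by unfold L; ring
    rw [c1 (w i) (w (i + -1)), c2 (w i) (w (i + -1)), c1 (w i) (w (i + -2))]
    have u1 := mul_le_mul_of_nonneg_left t1 B0
    have u2 := (le_abs_self _).trans ((abs_mul c _).le.trans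
      (mul_le_mul cB t2 (abs_nonneg _) B0))
    have u3 := mul_le_mul_of_nonneg_left t3 Λ0
    have u4 := mul_le_mul_of_nonneg_left t4 (mul_nonneg Λ0 s0.le)
    have u5 : 0 ≤ Λ * s * (‖w (i + -2)‖ ^ 2 + ‖w i‖ ^ 2) := by positivity
    nlinarith
  have n0 : 0 ≤ n := hn.nonneg fun _ => by positivity
  have b1 : B * s = Λ * √2 * s + 1 / 2 := by rw [hB]; field_simp
  have b2 : c * s = Λ * √2 * s - 1 / 2 := by rw [hc]; field_simp
  have b3 : B + c = 2 * (Λ * √2) := by rw [hB, hc]; ring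
  have b4 : 64 * (B * s) * s + 2 * Λ * (s + 16 * s ^ 2) ≤ 0.001 := by
    have : 0 ≤ Λ * s := by positivity
    rw [b1, ← s1]
    nlinarith [mul_le_mul_of_nonneg_left s2 this, mul_nonneg this (show 0 ≤ 0.75 - √2 * s by nlinarith)]
  have b5 := mul_le_mul_of_nonneg_right b4 n0
  have : B * (r1 + s * e + 16 * s ^ 2 * (n + n)) + (c * (r1 - s * e) +
      B * (16 * s ^ 2 * (n + n))) + Λ * (-r2' + (s + 16 * s ^ 2) * (n + n)) =
      (B + c) * r1 + (B * s - c * s) * e - Λ * r2' +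
        (64 * (B * s) * s + 2 * Λ * (s + 16 * s ^ 2)) * n := by ring
  rw [this, b3] at hT'
  have b6 : B * s - c * s = 1 := by rw [b1, b2]; ring
  rw [b6] at hT'
  subst hQ
  rw [hΛ] at hT' b5 ⊢
  nlinarith

lemma conc {p : ℝ} (h1 : 1 < p) (h2 : p ≤ 2) (y h : ℂ) :
    ‖y + h‖ ^ p ≤ ‖y‖ ^ p + p * (R h y * ‖y‖ ^ (p - 2)) + 6 * ‖h‖ ^ p := by
  have hp : 0 ≤ ‖h‖ ^ p := by positivity
  by_cases hy : y = 0
  · simp [hy, R, zero_rpow (by linarith : p ≠ 0)]; linarith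
  have y0 := norm_pos_iff.mpr hy
  have ey : ‖y‖ ^ p = ‖y‖ ^ 2 * ‖y‖ ^ (p - 2) := by
    rw [← rpow_natCast, ← rpow_add y0]; norm_num
  have yp : 0 < ‖y‖ ^ (p - 2) := by positivity
  have hR := abs_le.mp (R_le h y)
  rcases le_total ‖h‖ ‖y‖ with l | l
  · have e : ‖y + h‖ ^ 2 = ‖y‖ ^ 2 * (1 + (2 * R h y + ‖h‖ ^ 2) / ‖y‖ ^ 2) := by
      field_simp; simp only [nsq, R]; simp; ring
    have e0 : -1 ≤ (2 * R h y + ‖h‖ ^ 2) / ‖y‖ ^ 2 := by
      rw [le_div_iff₀ (by positivity)]; nlinarith [sq_nonneg (‖h‖ - ‖y‖)]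
    have e1 : ∀ x : ℂ, ‖x‖ ^ p = (‖x‖ ^ 2) ^ (p / 2) := fun x => by
      rw [← rpow_natCast, ← rpow_mul (norm_nonneg x)]; congr 1; push_cast; ring
    have b := rpow_one_add_le_one_add_mul_self e0 (by linarith : 0 ≤ p / 2) (by linarith)
    have hh : ‖h‖ ^ 2 * ‖y‖ ^ (p - 2) ≤ ‖h‖ ^ p := by
      by_cases h0 : h = 0
      · simp [h0]; positivity
      have h0 := norm_pos_iff.mpr h0
      calc _ ≤ ‖h‖ ^ 2 * ‖h‖ ^ (p - 2) := by
            gcongr ?_ * ?_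
            exact rpow_le_rpow_of_nonpos h0 l (by linarith)
        _ = _ := by rw [← rpow_natCast, ← rpow_add h0]; norm_num
    rw [e1 (y + h), e, mul_rpow (by positivity) (by linarith), ← e1]
    refine (mul_le_mul_of_nonneg_left b (by positivity)).trans ?_
    have : ‖y‖ ^ p * (1 + p / 2 * ((2 * R h y + ‖h‖ ^ 2) / ‖y‖ ^ 2)) =
        ‖y‖ ^ p + p * (R h y * ‖y‖ ^ (p - 2)) + p / 2 * (‖h‖ ^ 2 * ‖y‖ ^ (p - 2)) := by
      rw [ey]; field_simp; ring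
    rw [this]
    nlinarith [mul_nonneg (sq_nonneg ‖h‖) yp.le]
  · have h0 : 0 < ‖h‖ := y0.trans_le l
    have a1 : ‖y + h‖ ^ p ≤ 4 * ‖h‖ ^ p := by
      calc ‖y + h‖ ^ p ≤ (2 * ‖h‖) ^ p := by
            gcongr; linarith [norm_add_le y h]
        _ = 2 ^ p * ‖h‖ ^ p := mul_rpow (by norm_num) h0.le
        _ ≤ 2 ^ (2 : ℝ) * ‖h‖ ^ p := by gcongr; norm_num
        _ = _ := by norm_num
    have a2 : ‖h‖ * ‖y‖ * ‖y‖ ^ (p - 2) ≤ ‖h‖ ^ p := by
      calc _ = ‖h‖ * ‖y‖ ^ (p - 1) := by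
            rw [mul_assoc, show p - 1 = 1 + (p - 2) by ring, rpow_add y0, rpow_one]
        _ ≤ ‖h‖ * ‖h‖ ^ (p - 1) := by gcongr
        _ = _ := by rw [show p = 1 + (p - 1) by ring, rpow_add h0]; simp
    have a3 := mul_le_mul_of_nonneg_right hR.1 yp.le
    have a4 : 0 ≤ ‖y‖ ^ p := by positivity
    have a5 : 0 ≤ ‖h‖ * ‖y‖ * ‖y‖ ^ (p - 2) := by positivity
    nlinarith

noncomputable def W (p : ℝ) (y : ℂ) : ℂ := y * (‖y‖ ^ (p / 2 - 1) : ℝ)

lemma W_norm {p : ℝ} (hp : 0 < p) (y : ℂ) : ‖W p y‖ = ‖y‖ ^ (p / 2) := by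
  rw [W, norm_mul, Complex.norm_real, Real.norm_eq_abs, abs_of_nonneg (by positivity),
    show p / 2 = 1 + (p / 2 - 1) by ring, rpow_add' (norm_nonneg y) (by linarith)]
  simp

lemma W_J {p s : ℝ} (hp : 0 < p) (hs : p * (1 + s) = 2) (x y : ℂ) :
    R x y * ‖y‖ ^ (p - 2) = J s (W p x) (W p y) := by
  by_cases hx : x = 0
  · simp [hx, J, R, W]
  by_cases hy : y = 0
  · simp [hy, J, R, W]
  have hx := norm_pos_iff.mpr hx
  have hy := norm_pos_iff.mpr hy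
  have : R (W p x) (W p y) = R x y * (‖x‖ ^ (p / 2 - 1) * ‖y‖ ^ (p / 2 - 1)) := by
    simp only [R, W, Complex.mul_re, Complex.mul_im, Complex.ofReal_re, Complex.ofReal_im]; ring
  rw [J, this, L, W_norm hp, W_norm hp, log_rpow hx, log_rpow hy, rpow_def_of_pos hx,
    rpow_def_of_pos hy, rpow_def_of_pos hy, mul_assoc, ← exp_add, ← exp_add]
  congr 2
  linear_combination (log ‖y‖ - log ‖x‖) / 2 * hs

lemma three {p D a b c : ℝ} (hp : 0 < p) (hD : 0 ≤ D) (ha : |a| ≤ D) (hb : |b| ≤ D) (hc : |c| ≤ D)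
    (x y z : ℂ) : ‖a * x + b * y + c * z‖ ^ p ≤ (3 * D) ^ p * (‖x‖ ^ p + ‖y‖ ^ p + ‖z‖ ^ p) := by
  set m := max ‖x‖ (max ‖y‖ ‖z‖)
  have m0 : 0 ≤ m := le_max_of_le_left (norm_nonneg _)
  have h : ‖a * x + b * y + c * z‖ ≤ 3 * D * m := by
    refine norm_add₃_le.trans ?_
    simp only [norm_mul, Complex.norm_real, Real.norm_eq_abs]
    have h1 := mul_le_mul ha (le_max_left ‖x‖ (max ‖y‖ ‖z‖)) (norm_nonneg _) hD
    have h2 := mul_le_mul hb ((le_max_left ‖y‖ ‖z‖).trans (le_max_right ‖x‖ _)) (norm_nonneg _) hD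
    have h3 := mul_le_mul hc ((le_max_right ‖y‖ ‖z‖).trans (le_max_right ‖x‖ _)) (norm_nonneg _) hD
    linarith
  refine (rpow_le_rpow (norm_nonneg _) h hp.le).trans ?_
  rw [mul_rpow (by positivity) m0]
  gcongr
  have : 0 ≤ ‖x‖ ^ p ∧ 0 ≤ ‖y‖ ^ p ∧ 0 ≤ ‖z‖ ^ p := ⟨by positivity, by positivity, by positivity⟩
  simp only [m, max_def]
  split_ifs <;> linarith [this.1, this.2.1, this.2.2]

theorem shift : ∃ s Λ σ K : ℝ, 0 < s ∧ s ≤ 1 / 2 ∧ 0 ≤ Λ ∧ 0 ≤ σ ∧ 0 < K ∧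
    σ < 2 * Λ + √2 * log 2 / 4 ∧ ∀ p : ℝ, p * (1 + s) = 2 → ∀ ε : ℝ, 0 < ε →
    ∀ Y, Fs Y → ∀ n, HasSum (fun i => ‖Y i‖ ^ p) n → ∀ t : Finset ℤ,
      ∑ i ∈ t, ‖Y (i + -1) + ((ε * (Λ * √2 + 1 / (2 * s)) : ℝ) * Y (i + -1 + 1) +
        (ε * (Λ * √2 - 1 / (2 * s)) : ℝ) * Y (i + -1 + -1) + (ε * -Λ : ℝ) * Y (i + -1 + -2))‖ ^ p
        ≤ (1 + p * ε * σ + ε ^ p * K) * n := by
  obtain ⟨s, Λ, σ, s0, s1, Λ0, σ0, hσ, h⟩ := numr
  set D := Λ * √2 + 1 / (2 * s) + Λ + 1 with hD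
  have d1 : 0 ≤ Λ * √2 := by positivity
  have d2 : 0 ≤ 1 / (2 * s) := by positivity
  refine ⟨s, Λ, σ, 18 * (3 * D) ^ (2 : ℝ), s0, s1, Λ0, σ0, by positivity, hσ,
    fun p hp ε ε0 Y hY n hn t => ?_⟩
  have p1 : 1 < p := by nlinarith
  have p2 : p ≤ 2 := by nlinarith
  have p0 : 0 < p := by linarith
  have hW : Fs fun i => W p (Y i) := hY.imp fun t ht i hi => by simp [W, ht i hi]
  obtain ⟨T, hT⟩ := hW.sum (g := term s Λ fun i => W p (Y i)) fun i h => by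
    simp only [term, J, R, h]; simp
  have hTn := h _ hW n T (by
    convert hn using 2 with i
    rw [W_norm p0, ← rpow_natCast, ← rpow_mul (norm_nonneg _)]; norm_num) hT
  have hs := (hn.add (hT.mul_left (p * ε))).add
    ((((sh hn 1).add (sh hn (-1))).add (sh hn (-2))).mul_left (6 * (3 * (ε * D)) ^ p))
  have pt : ∀ i, ‖Y i + ((ε * (Λ * √2 + 1 / (2 * s)) : ℝ) * Y (i + 1) +
        (ε * (Λ * √2 - 1 / (2 * s)) : ℝ) * Y (i + -1) + (ε * -Λ : ℝ) * Y (i + -2))‖ ^ p ≤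
      ‖Y i‖ ^ p + p * ε * term s Λ (fun i => W p (Y i)) i +
        6 * (3 * (ε * D)) ^ p * (‖Y (i + 1)‖ ^ p + ‖Y (i + -1)‖ ^ p + ‖Y (i + -2)‖ ^ p) := by
    intro i
    refine (conc p1 p2 _ _).trans ?_
    have ab : ∀ u : ℝ, -D ≤ u → u ≤ D → |ε * u| ≤ ε * D := fun u h1 h2 => by
      rw [abs_mul, abs_of_pos ε0]; gcongr; exact abs_le.mpr ⟨h1, h2⟩
    have := three p0 (by positivity) (ab (Λ * √2 + 1 / (2 * s)) (by linarith) (by linarith))
      (ab (Λ * √2 - 1 / (2 * s)) (by linarith) (by linarith)) (ab (-Λ) (by linarith) (by linarith))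
      (Y (i + 1)) (Y (i + -1)) (Y (i + -2))
    simp only [term, ← W_J p0 hp]
    refine add_le_add (le_of_eq ?_) (by linarith)
    simp only [R, Complex.add_re, Complex.add_im, Complex.mul_re, Complex.mul_im,
      Complex.ofReal_re, Complex.ofReal_im]
    ring
  refine (Finset.sum_le_sum fun i _ => pt (i + -1)).trans ((sum_le_hasSum t
    (fun i _ => le_trans (by positivity) (pt (i + -1))) (sh hs (-1))).trans ?_)
  have n0 : 0 ≤ n := hn.nonneg fun _ => by positivity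
  have k : (3 * (ε * D)) ^ p ≤ ε ^ p * (3 * D) ^ (2 : ℝ) := by
    rw [mul_left_comm, mul_rpow ε0.le (by positivity)]
    gcongr; linarith
  have := mul_le_mul_of_nonneg_left hTn (mul_pos p0 ε0).le
  nlinarith [mul_le_mul_of_nonneg_right k n0]

end Pool.Agent.H22.Mat
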