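import Pool.Agent.H22.Nil5

set_option autoImplicit false
open MeasureTheory ProbabilityTheory Set Function
open scoped Classical ENNReal

namespace Pool.Agent.H22.Net
noncomputable section

section
variable {α : Type} [MeasurableSpace α] [Inhabited α]

def sf {α : Type} (k : ℤ) (x : ℤ → α) : ℤ → α := fun n => x (n + k)
def mL {α : Type} [Inhabited α] (t : ℤ) (x : ℤ → α) : ℤ → α := fun n => if n ≤ t then x n else default
def mR {α : Type} [Inhabited α] (t : ℤ) (x : ℤ → α) : ℤ → α := fun n => if t ≤ n then x n else default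

omit [Inhabited α] in
@[fun_prop] lemma sfm (k : ℤ) : Measurable (sf (α := α) k) := by unfold sf; fun_prop
@[fun_prop] lemma mLm (k : ℤ) : Measurable (mL (α := α) k) :=
  measurable_pi_lambda _ fun n => by unfold mL; split_ifs <;> fun_prop
@[fun_prop] lemma mRm (k : ℤ) : Measurable (mR (α := α) k) :=
  measurable_pi_lambda _ fun n => by unfold mR; split_ifs <;> fun_prop

lemma ind_map {Ω Ω' β γ : Type} [MeasurableSpace Ω] [MeasurableSpace Ω'] [MeasurableSpace β]
    [MeasurableSpace γ] {μ : Measure Ω} {μ' : Measure Ω'} {φ : Ω → Ω'}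
    (h : MeasurePreserving φ μ μ') {f : Ω' → β} {g : Ω' → γ} (hf : Measurable f)
    (hg : Measurable g) : IndepFun f g μ' ↔ IndepFun (f ∘ φ) (g ∘ φ) μ := by
  simp only [indepFun_iff_measure_inter_preimage_eq_mul]
  refine forall₄_congr fun s t hs ht => ?_
  rw [← h.measure_preimage ((hf hs).inter (hg ht)).nullMeasurableSet,
    ← h.measure_preimage (hf hs).nullMeasurableSet, ← h.measure_preimage (hg ht).nullMeasurableSet]
  rfl

def Dep (μ : Measure (ℤ → α)) (c : ℤ) : Prop :=
  (∀ k, MeasurePreserving (sf k) μ μ) ∧ ∀ t u, t + c ≤ u → IndepFun (mL t) (mR u) μ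

lemma dep_of {μ : Measure (ℤ → α)} (h : ∀ k, MeasurePreserving (sf k) μ μ) {t0 u0 c : ℤ}
    (h1 : IndepFun (mL t0) (mR u0) μ) (hc : u0 - t0 ≤ c) : Dep μ c := by
  refine ⟨h, fun t u hu => ?_⟩
  have := ((ind_map (h (t - t0)) (mLm t0) (mRm u0)).1 h1).comp (sfm (t0 - t))
    ((mRm u).comp (sfm (t0 - t)))
  convert this using 1 <;> ext x n <;> simp only [comp, sf, mL, mR, sub_add_sub_cancel',
    add_assoc, sub_self, add_zero] <;> split_ifs <;> first | rfl | omega
end

def b (x : ℤ → Prop) (i : ℤ) : ℤ := if x i then 1 else 0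
def cnt (x : ℤ → Prop) (n : ℤ) : ℤ := ∑ i ∈ Finset.Ico 0 n, b x i - ∑ i ∈ Finset.Ico n 0, b x i

lemma cnt0 (x : ℤ → Prop) : cnt x 0 = 0 := by simp [cnt]
lemma cnts (x : ℤ → Prop) (n : ℤ) : cnt x (n + 1) = cnt x n + b x n := by
  unfold cnt
  rcases le_or_gt 0 n with h | h
  · rw [← Finset.insert_Ico_right_eq_Ico_add_one h, Finset.sum_insert (by simp),
      Finset.Ico_eq_empty (a := n + 1) (by omega), Finset.Ico_eq_empty (a := n) (by omega)]; ring
  · rw [← Finset.insert_Ico_add_one_left_eq_Ico h, Finset.sum_insert (by simp),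
      Finset.Ico_eq_empty (b := n + 1) (by omega), Finset.Ico_eq_empty (b := n) (by omega)]; ring

lemma cnt_mono (x : ℤ → Prop) : Monotone (cnt x) :=
  monotone_int_of_le_succ fun n => by rw [cnts, b]; split_ifs <;> omega

lemma cnt_sf (x : ℤ → Prop) (k n : ℤ) : cnt x (n + k) = cnt (sf k x) n + cnt x k := by
  induction n using Int.induction_on with
  | zero => simp [cnt0]
  | succ n ih => rw [add_right_comm, cnts, cnts, ih, add_right_comm]; rfl
  | pred n ih =>
    have h1 := cnts x (-n - 1 + k)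
    have h2 := cnts (sf k x) (-n - 1)
    rw [show -(n : ℤ) - 1 + k + 1 = -n + k by ring] at h1
    rw [sub_add_cancel] at h2
    have : b (sf k x) (-n - 1) = b x (-n - 1 + k) := rfl
    omega

lemma cntL (x : ℤ → Prop) {n : ℤ} (h : n ≤ 0) : cnt (mL 0 x) n = cnt x n := by
  unfold cnt
  rw [Finset.Ico_eq_empty (b := n) (by omega)]
  congr 1
  exact Finset.sum_congr rfl fun i hi => by simp at hi; simp [b, mL, hi.2.le]

lemma cntR (x : ℤ → Prop) {n : ℤ} (h : 0 ≤ n) : cnt (mR 0 x) n = cnt x n := by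
  unfold cnt
  rw [Finset.Ico_eq_empty (a := n) (by omega)]
  congr 1
  exact Finset.sum_congr rfl fun i hi => by simp at hi; simp [b, mR, hi.1]

@[fun_prop] lemma cntm (n : ℤ) : Measurable (cnt · n) := by
  have : ∀ i, Measurable (b · i) := fun i =>
    (measurable_of_countable fun p : Prop => if p then (1 : ℤ) else 0).comp (measurable_pi_apply i)
  unfold cnt; fun_prop

lemma evm {α : Type} [MeasurableSpace α] {f : α → ℤ → ℕ} {g : α → ℤ} (hf : Measurable f)
    (hg : Measurable g) : Measurable fun a => f a (g a) :=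
  (measurable_from_prod_countable_left (f := fun p : (ℤ → ℕ) × ℤ => p.1 p.2)
    fun n => measurable_pi_apply n).comp (hf.prodMk hg)

def Ph (s : ℤ) (p : (ℤ → Prop) × (ℤ → ℕ)) (n : ℤ) : Prop :=
  p.1 n ∧ ∀ n', p.1 n' → |n - n'| < 2 * s → p.2 (cnt p.1 n) ≤ p.2 (cnt p.1 n')

@[fun_prop] lemma Phm (s : ℤ) : Measurable (Ph s) := measurable_pi_lambda _ fun n =>
  .and (by fun_prop) (.forall fun n' => .imp (by fun_prop) (.imp measurable_const
    (measurableSet_setOfPred.1 (measurableSet_le (evm measurable_snd (by fun_prop))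
      (evm measurable_snd (by fun_prop))))))

lemma Ph_sf (s k : ℤ) (x : ℤ → Prop) (y : ℤ → ℕ) :
    sf k (Ph s (x, y)) = Ph s (sf k x, sf (cnt x k) y) := by
  ext n
  simp only [sf, Ph, ← cnt_sf]
  refine and_congr_right fun _ => ⟨fun h n' h1 h2 => h _ h1 (by simpa using h2), fun h n' h1 h2 => ?_⟩
  simpa using h (n' - k) (by simpa using h1) (by convert h2 using 2; ring)

lemma PhL {s : ℤ} (hs : 0 < s) (x : ℤ → Prop) (y : ℤ → ℕ) :
    mL (-2 * s) (Ph s (x, y)) = mL (-2 * s) (Ph s (mL 0 x, mL 0 y)) := by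
  ext n
  have e : ∀ n ≤ 0, mL 0 y (cnt (mL 0 x) n) = y (cnt x n) := fun n h => by
    rw [cntL x h]; exact if_pos ((cnt_mono x h).trans (cnt0 x).le)
  unfold mL
  split_ifs with h
  · refine and_congr (by simp only [if_pos (show n ≤ 0 by omega)]) (forall_congr' fun n' => ?_)
    by_cases h2 : |n - n'| < 2 * s
    · have : n' ≤ 0 := by rw [abs_lt] at h2; omega
      have e1 := e n (by omega)
      have e2 := e n' this
      unfold mL at e1 e2
      simp only [e1, e2, if_pos this]
    · simp [h2]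
  · rfl

lemma PhR {s : ℤ} (hs : 0 < s) (x : ℤ → Prop) (y : ℤ → ℕ) {n : ℤ} (h : 2 * s ≤ n) :
    Ph s (x, y) n = Ph s (mR 0 x, mR 0 y) n := by
  have e : ∀ n, 0 ≤ n → mR 0 y (cnt (mR 0 x) n) = y (cnt x n) := fun n h => by
    rw [cntR x h]; exact if_pos ((cnt0 x).ge.trans (cnt_mono x h))
  refine propext (and_congr (by simp only [mR, if_pos (show 0 ≤ n by omega)])
    (forall_congr' fun n' => ?_))
  by_cases h2 : |n - n'| < 2 * s
  · have : 0 ≤ n' := by rw [abs_lt] at h2; omega
    simp only [e n (by omega), e n' this]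
    simp only [mR, if_pos this]
  · simp [h2]

def Gd (s : ℤ) (x : ℤ → Prop) : Prop :=
  (∀ n n', x n → x n' → n < n' → s ≤ n' - n) ∧ ∀ n, ∃ n', x n' ∧ |n - n'| ≤ 100 * s

lemma Gd_Ph {s : ℤ} (hs : 0 < s) {x : ℤ → Prop} {y : ℤ → ℕ} (hx : Gd s x)
    (hy : ∀ n, y n ≠ y (n + 1) ∧ y n ≤ 48) : Gd (2 * s) (Ph s (x, y)) := by
  refine ⟨fun n n' h h' hn => not_lt.1 fun c => ?_, fun n => ?_⟩
  · have h1 := h.2 n' h'.1 (by rw [abs_lt]; omega)
    have h2 := h'.2 n h.1 (by rw [abs_lt]; omega)
    have : ∀ m, n + 1 ≤ m → m ≤ n' → cnt x m = cnt x n + 1 := fun m hm => by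
      induction m, hm using Int.leInduction with
      | base => exact fun _ => by rw [cnts, b, if_pos h.1]
      | succ m hm ih =>
        intro h3
        rw [cnts, ih (by omega), b, if_neg, add_zero]
        intro h4
        have := hx.1 _ _ h.1 h4 (by omega)
        have := hx.1 _ _ h4 h'.1 (by omega)
        omega
    simp only [this n' hn le_rfl] at h1 h2
    exact (hy _).1 (h1.antisymm h2)
  · have : ∀ c : ℕ, ∀ n, x n → y (cnt x n) = c → ∃ n', Ph s (x, y) n' ∧ |n - n'| ≤ 2 * s * c := by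
      intro c
      induction c using Nat.strong_induction_on with
      | _ c ih =>
      intro n h hc
      by_cases e : Ph s (x, y) n
      · exact ⟨n, e, by simp; positivity⟩
      simp only [Ph, h, true_and, not_forall, not_le] at e
      obtain ⟨m, h1, h2, h3⟩ := e
      obtain ⟨n', h4, h5⟩ := ih _ (hc ▸ h3) m h1 rfl
      refine ⟨n', h4, (abs_sub_le n m n').trans ?_⟩
      have : (y (cnt x m) : ℤ) + 1 ≤ c := by omega
      nlinarith
    obtain ⟨m, h1, h2⟩ := hx.2 n
    obtain ⟨n', h3, h4⟩ := this _ m h1 rfl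
    refine ⟨n', h3, (abs_sub_le n m n').trans ?_⟩
    have : (y (cnt x m) : ℤ) ≤ 48 := by exact_mod_cast (hy _).2
    nlinarith

lemma two {s : ℤ} (hs : 0 < s) {x : ℤ → Prop} (hx : Gd s x) : 2 ≤ cnt x (402 * s) := by
  obtain ⟨n, h1, h2⟩ := hx.2 (100 * s)
  obtain ⟨m, h3, h4⟩ := hx.2 (301 * s)
  rw [abs_le] at h2 h4
  have := cnt_mono x (show 0 ≤ n by omega)
  have := cnt_mono x (show n + 1 ≤ m by omega)
  have := cnt_mono x (show m + 1 ≤ 402 * s by omega)
  have := cnt0 x
  simp only [cnts, b, if_pos h1, if_pos h3] at *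
  omega

lemma col : ∃ ν : Measure (ℤ → ℕ), IsProbabilityMeasure ν ∧ Dep ν 2 ∧
    ∀ᵐ y ∂ν, ∀ n, y n ≠ y (n + 1) ∧ y n ≤ 48 := by
  let f : Nil.S → ℕ := fun z => 7 * z.1.1 + z.1.2
  have hf : Measurable f :=
    (measurable_of_countable fun g : Nil.G => 7 * g.1.1 + g.2.1).comp measurable_fst
  have hY : Measurable fun ω n => f (Nil.X n ω) := by fun_prop
  have mp : MeasurePreserving _ Nil.mu _ := ⟨hY, rfl⟩
  refine ⟨_, Measure.isProbabilityMeasure_map hY.aemeasurable, dep_of (t0 := 0) (u0 := 2)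
    (fun k => ⟨sfm k, ?_⟩) ((ind_map mp (mLm 0) (mRm 2)).2 ?_) le_rfl, ?_⟩
  · conv_rhs => rw [← (Nil.sft_mp k).map_eq]
    rw [Measure.map_map (sfm k) hY, Measure.map_map hY (Nil.sft_mp k).measurable]
    simp only [comp_def, Nil.Xs]; rfl
  · convert (Nil.ind1 (A := Iic 0) (B := Ici 2) fun i hi j hj => by
      simp only [mem_Iic, mem_Ici] at hi hj; rw [lt_abs]; omega).comp
      (φ := fun z n => if h : n ≤ 0 then f (z ⟨n, h⟩) else default)
      (ψ := fun z n => if h : 2 ≤ n then f (z ⟨n, h⟩) else default)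
      (measurable_pi_lambda _ fun n => by split_ifs <;> fun_prop)
      (measurable_pi_lambda _ fun n => by split_ifs <;> fun_prop) using 1 <;> ext ω n <;>
      simp [mL, mR]
  · rw [ae_map_iff hY.aemeasurable (measurableSet_setOfPred.2 (.forall fun n => .and
      (.not (measurableSet_setOfPred.1 (measurableSet_eq_fun (by fun_prop) (by fun_prop))))
      (measurableSet_setOfPred.1 (measurableSet_le (by fun_prop) (by fun_prop)))))]
    filter_upwards [ae_all_iff.2 Nil.proper] with ω h n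
    refine ⟨fun e => h n ?_, by simp only [f]; omega⟩
    simp only [f] at e
    ext <;> omega

lemma Gdm (s : ℤ) : MeasurableSet {x | Gd s x} := measurableSet_setOfPred.2 <| .and
  (.forall fun _ => .forall fun _ => .imp (by fun_prop) (.imp (by fun_prop) measurable_const))
  (.forall fun _ => .exists fun _ => .and (by fun_prop) measurable_const)

lemma step {s : ℤ} (hs : 0 < s) (μ : Measure (ℤ → Prop)) [IsProbabilityMeasure μ]
    (h1 : Dep μ (402 * s)) (h2 : ∀ᵐ x ∂μ, Gd s x) : ∃ μ' : Measure (ℤ → Prop),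
    IsProbabilityMeasure μ' ∧ Dep μ' (402 * (2 * s)) ∧ ∀ᵐ x ∂μ', Gd (2 * s) x := by
  obtain ⟨ν, _, h3, h4⟩ := col
  have mp : MeasurePreserving (Ph s) (μ.prod ν) _ := ⟨Phm s, rfl⟩
  refine ⟨_, Measure.isProbabilityMeasure_map (Phm s).aemeasurable, dep_of (t0 := -2 * s)
    (u0 := 404 * s) (fun k => ⟨sfm k, ?_⟩) ((ind_map mp (mLm _) (mRm _)).2 ?_) (by omega), ?_⟩
  · have := (h1.1 k).skew_product (g := fun x y => sf (cnt x k) y) (μc := ν)
      (measurable_pi_lambda _ fun n => evm (f := Prod.snd) measurable_snd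
        (g := fun p => n + cnt p.1 k) (by fun_prop)) (ae_of_all _ fun x => (h3.1 _).map_eq)
    conv_rhs => rw [← this.map_eq]
    rw [Measure.map_map (sfm k) (Phm s), Measure.map_map (Phm s) this.measurable]
    congr 1 with p : 1
    exact Ph_sf s k p.1 p.2
  · let F : (ℤ → Prop) × (ℤ → ℕ) → ℤ → Prop := fun p => mL (-2 * s) (Ph s (p.1, mL 0 p.2))
    let H : (ℤ → Prop) × (ℤ → ℕ) → ℤ → Prop := fun p =>
      mR (404 * s) (sf (-402 * s) (Ph s (sf (402 * s) p.1, mR 0 p.2)))
    have hF : Measurable F := by fun_prop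
    have hH : Measurable H := by fun_prop
    have key : ∀ E E', MeasurableSet E → MeasurableSet E' → (μ.prod ν) ((mL (-2 * s) ∘ Ph s) ⁻¹' E ∩
        (mR (404 * s) ∘ Ph s) ⁻¹' E') = (∫⁻ x, ν (Prod.mk (mL 0 x) ⁻¹' (F ⁻¹' E)) ∂μ) *
        ∫⁻ x, ν (Prod.mk (mR (402 * s) x) ⁻¹' (H ⁻¹' E')) ∂μ := fun E E' hE hE' => by
      have m1 := measurable_measure_prodMk_left (ν := ν) (hF hE)
      have m2 := measurable_measure_prodMk_left (ν := ν) (hH hE')
      rw [Measure.prod_apply ((((mLm _).comp (Phm s)) hE).inter (((mRm _).comp (Phm s)) hE'))]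
      refine (lintegral_congr_ae (h2.mono fun x hx => ?_)).trans
        (lintegral_mul_eq_lintegral_mul_lintegral_of_indepFun'' (m1.comp (mLm 0)).aemeasurable
          (m2.comp (mRm _)).aemeasurable ((h1.2 0 _ (zero_add _).le).comp m1 m2))
      have := ((h3.2 0 (cnt x (402 * s)) (by simpa using two hs hx)).comp
        (φ := fun y => mL (-2 * s) (Ph s (mL 0 x, y))) (ψ := fun y => mR (404 * s) (sf (-402 * s)
          (Ph s (sf (402 * s) (mR (402 * s) x), sf (cnt x (402 * s)) y)))) (by fun_prop)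
          (by fun_prop)).measure_inter_preimage_eq_mul _ _ hE hE'
      change ν (Prod.mk x ⁻¹' _) = ν (Prod.mk (mL 0 x) ⁻¹' (F ⁻¹' E)) *
        ν (Prod.mk (mR (402 * s) x) ⁻¹' (H ⁻¹' E'))
      rw [← (h3.1 (cnt x (402 * s))).measure_preimage
        (measurable_prodMk_left (hH hE')).nullMeasurableSet]
      have e : ∀ {α : Type} [Inhabited α] (k : ℤ) (y : ℤ → α), sf k (mR k y) = mR 0 (sf k y) :=
        fun k y => by ext n; simp [sf, mR]
      convert this using 2
      · ext y
        simp only [mem_preimage, mem_inter_iff, comp, ← PhL hs, e]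
        congr! 2 with n
        unfold mR
        ext n
        split_ifs with hn
        · have := congrFun (Ph_sf s (402 * s) x y) (n + -402 * s)
          rw [PhR hs _ _ (by omega)] at this
          simp only [sf] at this ⊢
          rw [show n + -402 * s + 402 * s = n by ring] at this
          rw [this]; rfl
        · rfl
      · rfl
      · congr 1 with y
        simp only [mem_preimage, comp, e, H]
    rw [indepFun_iff_measure_inter_preimage_eq_mul]
    intro E E' hE hE'
    have k1 := key E univ hE .univ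
    have k2 := key univ E' .univ hE'
    simp only [preimage_univ, inter_univ, univ_inter, measure_univ, lintegral_const, mul_one,
      one_mul] at k1 k2
    rw [key E E' hE hE', k1, k2]
  · rw [ae_map_iff (Phm s).aemeasurable (Gdm _)]
    filter_upwards [measurePreserving_fst.quasiMeasurePreserving.ae h2,
      measurePreserving_snd.quasiMeasurePreserving.ae h4] with p h h' using Gd_Ph hs h h'

lemma nets (m : ℕ) : ∃ μ : Measure (ℤ → Prop),
    IsProbabilityMeasure μ ∧ Dep μ (402 * 2 ^ m) ∧ ∀ᵐ x ∂μ, Gd (2 ^ m) x := by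
  induction m with
  | zero =>
    refine ⟨.dirac fun _ => True, inferInstance, ⟨fun k => ⟨sfm k, ?_⟩, fun t u _ => ?_⟩, ?_⟩
    · rw [Measure.map_dirac' (sfm k)]; rfl
    · exact (indepFun_const_left (mL t fun _ => True) (mR u)).congr
        (by rw [Filter.EventuallyEq, ae_dirac_iff (measurableSet_eq_fun (by fun_prop) (mLm t))])
        .rfl
    · rw [ae_dirac_iff (Gdm _)]
      exact ⟨fun n n' _ _ h => by omega, fun n => ⟨n, trivial, by simp⟩⟩
  | succ m ih =>
    obtain ⟨μ, _, h1, h2⟩ := ih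
    rw [pow_succ']
    exact step (by positivity) μ h1 h2

end
end Pool.Agent.H22.Net
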