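import Pool.Agent.H22.Net1

set_option autoImplicit false
open MeasureTheory ProbabilityTheory Set Function Filter Topology
open scoped Classical ENNReal

namespace Pool.Agent.H22.Net
noncomputable section

abbrev K := ℚ × ℚ → Bool

def Good (z : K) : Prop :=
  (∀ p q p' q', z (p, q) → p' ≤ p → q ≤ q' → z (p', q')) ∧
  (∀ p q r, z (p, r) → z (p, q) ∨ z (q, r)) ∧
  (∀ p q p' q', z (p, q) → z (p', q') → q < p' → 1 ≤ q' - p) ∧
  (∀ p, z (p, p + 201)) ∧ ∀ p q, z (p, q) → p ≤ q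

lemma cl (φ : Bool → Bool → Bool → Prop) (i j k : ℚ × ℚ) :
    IsClosed {z : K | φ (z i) (z j) (z k)} :=
  (isClosed_discrete {q : Bool × Bool × Bool | φ q.1 q.2.1 q.2.2}).preimage
    (f := fun z : K => (z i, z j, z k)) (by fun_prop)

lemma Good_cl : IsClosed {z | Good z} := by
  simp only [Good, ofPred_and, ofPred_forall (p := fun (_ : ℚ) (_ : K) => _)]
  refine .inter ?_ (.inter ?_ (.inter ?_ (.inter ?_ ?_))) <;> repeat refine isClosed_iInter fun _ : ℚ => ?_
  · exact cl (fun a b _ => a → _ → _ → b) _ _ 0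
  · exact cl (fun a b c => a → b ∨ c) _ _ _
  · exact cl (fun a b _ => a → b → _) _ _ 0
  · exact cl (fun a _ _ => a) _ 0 0
  · exact cl (fun a _ _ => a → _) _ 0 0

abbrev Om := {z : K // Good z}
instance : CompactSpace Om := isCompact_iff_compactSpace.1 Good_cl.isCompact

instance : HasOuterApproxClosed Om :=
  haveI : TopologicalSpace.MetrizableSpace Om := IsEmbedding.subtypeVal.metrizableSpace
  inferInstance

lemma evc (i : ℚ × ℚ) : Continuous fun z : Om => z.1 i :=
  (continuous_apply i).comp continuous_subtype_val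

def raw (m : ℕ) (x : ℤ → Prop) : K := fun i =>
  decide (∃ n : ℤ, x n ∧ i.1 ≤ (n : ℚ) / 2 ^ m + 1 ∧ (n : ℚ) / 2 ^ m + 1 ≤ i.2)

@[fun_prop] lemma rawm (m : ℕ) : Measurable (raw m) := measurable_pi_lambda _ fun _ =>
  (measurable_of_countable fun p : Prop => decide p).comp
    (.exists fun _ => .and (by fun_prop) measurable_const)

lemma raw_good {m : ℕ} {x : ℤ → Prop} (h : Gd (2 ^ m) x) : Good (raw m x) := by
  have h2 : (0 : ℚ) < 2 ^ m := by positivity
  simp only [Good, raw, decide_eq_true_eq]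
  refine ⟨fun p q p' q' ⟨n, a, b, c⟩ d e => ⟨n, a, d.trans b, c.trans e⟩,
    fun p q r ⟨n, a, b, c⟩ => (le_total _ q).imp (fun d => ⟨n, a, b, d⟩) fun d => ⟨n, a, d, c⟩,
    fun p q p' q' ⟨n, a, b, c⟩ ⟨n', a', b', c'⟩ d => ?_, fun p => ?_,
    fun p q ⟨n, a, b, c⟩ => b.trans c⟩
  · have : (n : ℚ) / 2 ^ m < n' / 2 ^ m := by linarith
    rw [div_lt_div_iff_of_pos_right h2] at this
    have : (2 : ℚ) ^ m ≤ n' - n := by exact_mod_cast h.1 n n' a a' (by exact_mod_cast this)
    have : 1 ≤ ((n' : ℚ) - n) / 2 ^ m := (one_le_div h2).2 this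
    rw [sub_div] at this
    linarith
  · obtain ⟨n, a, b⟩ := h.2 ⌈(p + 99) * 2 ^ m⌉
    have b : |(⌈(p + 99) * 2 ^ m⌉ : ℚ) - n| ≤ 100 * 2 ^ m := by exact_mod_cast b
    rw [abs_le] at b
    have := Int.le_ceil ((p + 99) * 2 ^ m)
    have := Int.ceil_lt_add_one ((p + 99) * 2 ^ m)
    have : (1 : ℚ) ≤ 2 ^ m := one_le_pow₀ one_le_two
    refine ⟨n, a, ?_, ?_⟩
    · rw [← sub_le_iff_le_add, le_div_iff₀ h2]; linarith
    · rw [← le_sub_iff_add_le, div_le_iff₀ h2]; linarith

def emb (m : ℕ) (x : ℤ → Prop) : Om :=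
  ⟨if Gd (2 ^ m) x then raw m x else raw 0 fun _ => True, by
    split_ifs with h
    exacts [raw_good h, raw_good ⟨fun n n' _ _ h => by omega, fun n => ⟨n, trivial, by simp⟩⟩]⟩

lemma embm (m : ℕ) : Measurable (emb m) := (Measurable.ite (Gdm _) (rawm m) measurable_const).subtype_mk

def ta (t : ℚ) (z : Om) : Om := ⟨fun i => z.1 (i.1 + t, i.2 + t), by
  obtain ⟨h1, h2, h3, h4, h5⟩ := z.2
  exact ⟨fun p q p' q' a b c => h1 _ _ _ _ a (by linarith) (by linarith), fun p q r => h2 _ _ _,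
    fun p q p' q' a b c => by linarith [h3 _ _ _ _ a b (by linarith)],
    fun p => by simpa only [add_right_comm] using h4 (p + t), fun p q a => by linarith [h5 _ _ a]⟩⟩

lemma tac (t : ℚ) : Continuous (ta t) := Continuous.subtype_mk (continuous_pi fun _ => evc _) _

lemma clo {ι : Type} (f : ι → ℚ × ℚ) (s : Finset ι) (E : ι → Set Bool) :
    IsClopen {z : Om | ∀ i ∈ s, z.1 (f i) ∈ E i} := by
  simp only [ofPred_forall]
  exact isClopen_biInter_finset fun i _ =>
    (isClopen_discrete (E i)).preimage (evc _)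

lemma lim : ∃ P : Measure Om, IsProbabilityMeasure P ∧
    IndepFun (fun (z : Om) (i : {i : ℚ × ℚ // i.2 ≤ 1}) => z.1 i)
      (fun (z : Om) (i : {i : ℚ × ℚ // 403 ≤ i.1}) => z.1 i) P ∧
    ∀ (j : ℕ) (k : ℤ), MeasurePreserving (ta (k / 2 ^ j)) P P := by
  choose μ h0 h1 h2 using nets
  let Pm : ℕ → ProbabilityMeasure Om := fun m =>
    ⟨(μ m).map (emb m), Measure.isProbabilityMeasure_map (embm m).aemeasurable⟩
  obtain ⟨P, -, hP⟩ := isCompact_univ.ultrafilter_le_nhds ((hyperfilter ℕ).map Pm) (by simp)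
  have key : ∀ E, IsClopen E → Tendsto (fun m => (μ m).map (emb m) E) (hyperfilter ℕ)
      (𝓝 ((P : Measure Om) E)) := fun E hE =>
    ProbabilityMeasure.tendsto_measure_of_null_frontier_of_tendsto' (μs := Pm) hP (by simp [hE])
  have mp : ∀ m, MeasurePreserving (emb m) (μ m) _ := fun m => ⟨embm m, rfl⟩
  refine ⟨P, inferInstance, Nil.indep_rect (fun _ => (evc _).measurable) (fun _ => (evc _).measurable)
    fun s s' E E' _ _ => ?_,
    fun j k => ⟨(tac _).measurable, ?_⟩⟩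
  · refine tendsto_nhds_unique (key _ ((clo _ s E).inter (clo _ s' E'))) ?_
    convert ENNReal.Tendsto.mul (key _ (clo _ s E)) (.inr (by simp)) (key _ (clo _ s' E'))
      (.inr (by simp)) using 2 with m
    have : IndepFun (fun (z : Om) (i : {i : ℚ × ℚ // i.2 ≤ 1}) => z.1 i)
        (fun (z : Om) (i : {i : ℚ × ℚ // 403 ≤ i.1}) => z.1 i) ((μ m).map (emb m)) := by
      have h3 : (0 : ℚ) < 2 ^ m := by positivity
      refine (ind_map (mp m) (measurable_pi_lambda _ fun _ => (evc _).measurable)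
        (measurable_pi_lambda _ fun _ => (evc _).measurable)).2 (IndepFun.congr
        (((h1 m).2 0 _ (zero_add _).le).comp (φ := fun x i => raw m x i.1)
          (ψ := fun x i => raw m x i.1) (by fun_prop) (by fun_prop)) ?_ ?_) <;>
        filter_upwards [h2 m] with x hx <;> ext i <;>
        simp only [comp, emb, if_pos hx, raw, mL, mR, decide_eq_decide] <;>
        refine exists_congr fun n => and_congr_left fun h => ?_ <;> rw [if_pos]
      · have : (n : ℚ) / 2 ^ m ≤ 0 := by linarith [i.2]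
        rw [div_le_iff₀ h3, zero_mul] at this
        exact_mod_cast this
      · have : 402 ≤ (n : ℚ) / 2 ^ m := by linarith [i.2]
        rw [le_div_iff₀ h3] at this
        exact_mod_cast this
    exact this.measure_inter_preimage_eq_mul (pi s E) (pi s' E')
      (.pi s.countable_toSet fun _ _ => .of_discrete) (.pi s'.countable_toSet fun _ _ => .of_discrete)
  · have := Measure.isProbabilityMeasure_map (μ := (P : Measure Om)) (tac (k / 2 ^ j)).aemeasurable
    refine ext_of_generate_finite _ (Nil.Rc_gen fun i (z : Om) => z.1 i) (Nil.Rc_pi _) ?_ (by simp)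
    rintro - ⟨-, ⟨s, E, -, rfl⟩, rfl⟩
    have hc := clo id s E
    change _ = (P : Measure Om) {z : Om | ∀ i ∈ s, z.1 (id i) ∈ E i}
    refine (Measure.map_apply (tac _).measurable hc.isOpen.measurableSet).trans
      (tendsto_nhds_unique (key _ (hc.preimage (tac _))) ((key _ hc).congr' ?_))
    filter_upwards [Nat.hyperfilter_le_atTop (eventually_ge_atTop j)] with m hm
    obtain ⟨m, rfl⟩ := Nat.exists_eq_add_of_le hm
    have h3 := (h1 (j + m)).1 (k * 2 ^ m)
    rw [← Measure.map_apply (tac _).measurable hc.isOpen.measurableSet,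
      Measure.map_map (tac _).measurable (embm _)]
    conv_lhs => rw [← h3.map_eq, Measure.map_map (embm _) h3.measurable]
    congr 1
    refine Measure.map_congr ?_
    filter_upwards [h2 (j + m), h3.quasiMeasurePreserving.ae (h2 (j + m))] with x hx hx'
    ext i
    simp only [comp, emb, ta, if_pos hx, if_pos hx', raw, sf, decide_eq_decide]
    have e : ∀ n : ℤ, ((n + k * 2 ^ m : ℤ) : ℚ) / 2 ^ (j + m) = n / 2 ^ (j + m) + k / 2 ^ j :=
      fun n => by push_cast; field_simp; ring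
    refine ⟨fun ⟨n, a, b, c⟩ => ⟨_, a, by rw [e]; linarith, by rw [e]; linarith⟩,
      fun ⟨n, a, b, c⟩ => ?_⟩
    obtain ⟨n, rfl⟩ : ∃ n', n = n' + k * 2 ^ m := ⟨n - k * 2 ^ m, by ring⟩
    rw [e] at b c
    exact ⟨n, a, by linarith, by linarith⟩

def XX (z : Om) : Set ℝ := {x | ∀ p q : ℚ, p < x → x < q → z.1 (p, q)}

lemma hit (z : Om) {p q : ℚ} (h : z.1 (p, q)) : ∃ x ∈ XX z, (p : ℝ) ≤ x ∧ x ≤ q := by
  obtain ⟨h1, h2, -, -, h5⟩ := z.2
  let A : Set ℝ := {r | ∃ r' : ℚ, z.1 (p, r') ∧ r' = r}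
  have hb : (p : ℝ) ∈ lowerBounds A := by rintro _ ⟨r, a, rfl⟩; exact_mod_cast h5 _ _ a
  have hn : (q : ℝ) ∈ A := ⟨q, h, rfl⟩
  refine ⟨sInf A, fun p' q' a b => ?_, le_csInf ⟨_, hn⟩ hb, csInf_le ⟨_, hb⟩ hn⟩
  obtain ⟨_, ⟨r, c, rfl⟩, d⟩ := exists_lt_of_csInf_lt ⟨_, hn⟩ b
  exact h1 _ _ _ _ ((h2 p p' r c).resolve_left fun e => a.not_ge (csInf_le ⟨_, hb⟩ ⟨_, e, rfl⟩))
    le_rfl (by exact_mod_cast d.le)

lemma sep (z : Om) {x y : ℝ} (hx : x ∈ XX z) (hy : y ∈ XX z) (h : x < y) : 1 ≤ y - x := by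
  by_contra! c
  obtain ⟨p, a1, a2⟩ := exists_rat_btwn (show y - 1 < x by linarith)
  obtain ⟨q', b1, b2⟩ := exists_rat_btwn (show y < p + 1 by linarith)
  obtain ⟨q, c1, c2⟩ := exists_rat_btwn h
  obtain ⟨p', d1, d2⟩ := exists_rat_btwn c2
  have : (1 : ℝ) ≤ q' - p := by
    exact_mod_cast z.2.2.2.1 _ _ _ _ (hx p q a2 c1) (hy p' q' d2 b1) (by exact_mod_cast d1)
  linarith

lemma sep' (z : Om) {x y : ℝ} (hx : x ∈ XX z) (hy : y ∈ XX z) (h : x ≠ y) : 1 ≤ |x - y| := by
  rcases h.lt_or_gt with h | h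
  · exact (sep z hx hy h).trans (abs_sub_comm x y ▸ le_abs_self _)
  · exact (sep z hy hx h).trans (le_abs_self _)

lemma fin (z : Om) (u v : ℝ) : (XX z ∩ Icc u v).Finite :=
  Finite.of_injOn (f := Int.floor) (t := Icc ⌊u⌋ ⌊v⌋)
    (fun _ h => ⟨Int.floor_mono h.2.1, Int.floor_mono h.2.2⟩)
    (fun _ h _ h' e => by_contra fun c => (sep' z h.1 h'.1 c).not_gt (Int.abs_sub_lt_one_of_floor_eq_floor e))
    (finite_Icc _ _)

lemma hit' (z : Om) {s t : ℝ} (h : s ≤ t) : (XX z ∩ Icc s t).Nonempty ↔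
    ∀ p q : ℚ, p < s → t < q → s - 1 ≤ p → q ≤ t + 1 → z.1 (p, q) := by
  refine ⟨fun ⟨x, a, b⟩ p q c d _ _ => a p q (c.trans_le b.1) (b.2.trans_lt d), fun H => ?_⟩
  by_contra c
  have h1 : s ∉ XX z := fun e => c ⟨s, e, le_rfl, h⟩
  have h2 : t ∉ XX z := fun e => c ⟨t, e, h, le_rfl⟩
  simp only [XX, mem_ofPred_eq, not_forall] at h1 h2
  obtain ⟨p1, q1, a1, b1, c1⟩ := h1
  obtain ⟨p2, q2, a2, b2, c2⟩ := h2
  obtain ⟨p, d1, d2⟩ := exists_rat_btwn (max_lt a1 (sub_one_lt s))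
  obtain ⟨q, e1, e2⟩ := exists_rat_btwn (lt_min b2 (lt_add_one t))
  rw [max_lt_iff] at d1
  rw [lt_min_iff] at e2
  obtain ⟨x, f1, f2, f3⟩ := hit z (H p q d2 e1 d1.2.le e2.2.le)
  by_cases g : x < s
  · exact c1 (f1 _ _ (by linarith [d1.1]) (by linarith))
  by_cases g' : t < x
  · exact c2 (f1 _ _ (by linarith) (by linarith [e2.1]))
  exact c ⟨x, f1, not_lt.1 g, not_lt.1 g'⟩

lemma ncm (M : MeasurableSpace Om) (n : ℕ) : ∀ u v : ℝ, v - u < (n + 2) / 2 →
    (∀ p q : ℚ, u - 1 ≤ p → q ≤ v + 1 → Measurable[M] fun z : Om => z.1 (p, q)) →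
    Measurable[M] fun z => (XX z ∩ Icc u v).ncard := by
  have base : ∀ u v : ℝ, v - u < 1 →
      (∀ p q : ℚ, u - 1 ≤ p → q ≤ v + 1 → Measurable[M] fun z : Om => z.1 (p, q)) →
      Measurable[M] fun z => (XX z ∩ Icc u v).ncard := fun u v h H => by
    rcases lt_or_ge v u with c | c
    · simp [Icc_eq_empty c.not_ge]
    have : (fun z => (XX z ∩ Icc u v).ncard) = fun z =>
        if (XX z ∩ Icc u v).Nonempty then 1 else 0 := funext fun z => by
      split_ifs with e
      · obtain ⟨x, hx⟩ := e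
        refine ncard_eq_one.2 ⟨x, eq_singleton_iff_unique_mem.2 ⟨hx, fun y hy => by_contra fun c =>
          (sep' z hy.1 hx.1 c).not_gt (abs_lt.2 ⟨?_, ?_⟩)⟩⟩ <;> linarith [hx.2.1, hx.2.2, hy.2.1, hy.2.2]
      · simp [not_nonempty_iff_eq_empty.1 e]
    rw [this]
    refine .ite ?_ measurable_const measurable_const
    simp only [hit' _ c, ofPred_forall]
    exact .iInter fun p => .iInter fun q => .iInter fun _ => .iInter fun _ => .iInter fun a =>
      .iInter fun b => H p q a b (measurableSet_singleton true)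
  induction n with
  | zero => exact fun u v h => base u v (by simpa using h)
  | succ n ih =>
    intro u v h H
    rcases lt_or_ge (v - u) 1 with c | c
    · exact base u v c H
    have : (fun z => (XX z ∩ Icc u v).ncard) = fun z => (XX z ∩ Icc u (u + 1 / 2)).ncard +
        (XX z ∩ Icc (u + 1 / 2) v).ncard - (XX z ∩ Icc (u + 1 / 2) (u + 1 / 2)).ncard :=
      funext fun z => by
        rw [← ncard_union_add_ncard_inter _ _ (fin z _ _) (fin z _ _), ← inter_union_distrib_left,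
          Icc_union_Icc_eq_Icc (by linarith) (by linarith), ← inter_inter_distrib_left,
          Icc_inter_Icc_eq_singleton (by linarith) (by linarith), Icc_self, Nat.add_sub_cancel]
    rw [this]
    exact ((base _ _ (by linarith) fun p q a b => H p q a (by linarith)).add
      (ih _ _ (by push_cast at h; linarith) fun p q a b => H p q (by linarith) b)).sub
      (base _ _ (by linarith) fun p q a b => H p q (by linarith) (by linarith))

lemma ncm' (M : MeasurableSpace Om) (u v : ℝ)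
    (h : ∀ p q : ℚ, u - 1 ≤ p → q ≤ v + 1 → Measurable[M] fun z : Om => z.1 (p, q)) :
    Measurable[M] fun z => (XX z ∩ Icc u v).ncard :=
  ncm M ⌈2 * (v - u)⌉₊ u v (by linarith [Nat.le_ceil (2 * (v - u))]) h

lemma XX_ta (t : ℚ) (z : Om) (x : ℝ) : x ∈ XX (ta t z) ↔ x + t ∈ XX z := by
  refine ⟨fun h p q a b => ?_, fun h p q a b => h _ _ (by push_cast; linarith) (by push_cast; linarith)⟩
  simpa [ta] using h (p - t) (q - t) (by push_cast; linarith) (by push_cast; linarith)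

lemma nc_ta (t : ℚ) (z : Om) (l r : ℝ) :
    (XX (ta t z) ∩ Icc l r).ncard = (XX z ∩ Icc (l + t) (r + t)).ncard := by
  rw [← ncard_image_of_injective _ (add_left_injective (t : ℝ))]
  congr 1 with x
  simp only [image_add_right, mem_preimage, mem_inter_iff, XX_ta, mem_Icc, neg_add_cancel_right]
  refine and_congr_right fun _ => and_congr ?_ ?_ <;> constructor <;> intro <;> linarith

end
end Pool.Agent.H22.Net
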