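import Pool.Agent.H22.Glue

set_option autoImplicit false
open MeasureTheory ProbabilityTheory Set Function
open scoped Classical ENNReal

namespace Pool.Agent.H22.Nil
noncomputable section
open Glue

abbrev C := ℕ → Bool
def coin : Measure Bool := uniformOn univ
instance : IsProbabilityMeasure coin := by unfold coin; infer_instance
def nu : Measure C := Measure.infinitePi fun _ => coin
instance : IsProbabilityMeasure nu := by unfold nu; infer_instance

def sh (s : C) : C := fun n => s (n + 1)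
def cons (b : Bool) (u : C) : C := fun n => Nat.casesOn n b u
@[simp] lemma sh_cons (b : Bool) (u : C) : sh (cons b u) = u := rfl
@[simp] lemma cons0 (b : Bool) (u : C) : cons b u 0 = b := rfl
@[simp] lemma cons1 (b : Bool) (u : C) : cons b u 1 = u 0 := rfl
@[fun_prop] lemma sh_meas : Measurable sh := by unfold sh; fun_prop
lemma cons_meas : Measurable fun p : C × Bool => cons p.2 p.1 :=
  measurable_pi_lambda _ fun n => by cases n <;> simp only [cons] <;> fun_prop
@[fun_prop] lemma cons_meas' (b : Bool) : Measurable (cons b) :=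
  cons_meas.comp (measurable_id.prodMk measurable_const)

lemma cons_mp : MeasurePreserving (fun p : C × Bool => cons p.2 p.1) (nu.prod coin) nu := by
  have h1 : MeasurePreserving sh nu nu :=
    ⟨sh_meas, Measure.map_infinitePi_infinitePi_of_inj (P := fun _ => coin) Nat.succ_injective⟩
  have h2 := h1.prod (measurePreserving_eval_infinitePi (fun _ : ℕ => coin) 0)
  refine ⟨cons_meas, ?_⟩
  rw [← h2.map_eq, Measure.map_map cons_meas h2.measurable]
  refine Eq.trans (congrArg (Measure.map · _) ?_) (glue (fun _ : ℕ => coin) {0}).map_eq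
  ext p n
  cases n <;> simp [gl, cons, sh]

def Bd (f : C → ℝ) : Prop := Measurable f ∧ ∀ u, |f u| ≤ 1

lemma Bd.int {f : C → ℝ} (h : Bd f) : Integrable f nu :=
  .of_bound h.1.aestronglyMeasurable 1 (ae_of_all _ h.2)

lemma Bd.le {f : C → ℝ} (h : Bd f) : |∫ u, f u ∂nu| ≤ 1 := by
  simpa using norm_integral_le_of_norm_le_const (μ := nu) (f := f) (C := 1) (ae_of_all _ h.2)

lemma Bd.mul {f g : C → ℝ} (h : Bd f) (h' : Bd g) : Bd fun u => f u * g u :=
  ⟨h.1.mul h'.1, fun u => by
    rw [abs_mul]; exact mul_le_one₀ (h.2 u) (abs_nonneg _) (h'.2 u)⟩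

lemma Bd.cons {f : C → ℝ} (h : Bd f) (b : Bool) : Bd fun u => f (cons b u) :=
  ⟨h.1.comp (cons_meas' b), fun _ => h.2 _⟩

lemma split {f : C → ℝ} (h : Bd f) : ∫ u, f u ∂nu = (∑ b, ∫ u, f (cons b u) ∂nu) / 2 := by
  have h1 : Integrable (fun p : C × Bool => f (cons p.2 p.1)) (nu.prod coin) :=
    .of_bound (h.1.comp cons_meas).aestronglyMeasurable 1 (ae_of_all _ fun _ => h.2 _)
  rw [← cons_mp.map_eq, integral_map cons_meas.aemeasurable h.1.aestronglyMeasurable,
    cons_mp.map_eq, integral_prod_symm _ h1, integral_fintype .of_finite]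
  simp only [coin, Measure.real, uniformOn_univ]
  simp
  ring

lemma split2 {f : C → ℝ} (h : Bd f) :
    ∫ u, f u ∂nu = (∑ b : Bool × Bool, ∫ u, f (cons b.1 (cons b.2 u)) ∂nu) / 4 := by
  rw [split h, Fintype.sum_prod_type]
  simp only [split (h.cons _), ← Finset.sum_div]
  ring

lemma contr {α : Type} (Φ : α → ℝ) (τ : α → α) (h1 : ∀ x, |Φ x| ≤ 1)
    (h2 : ∀ x, |Φ x| ≤ |Φ (τ x)| / 2) (x : α) : Φ x = 0 := by
  have h : ∀ n : ℕ, ∀ x, |Φ x| ≤ (1 / 2) ^ n := fun n => by
    induction n with
    | zero => simpa using h1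
    | succ n ih => intro x; have := ih (τ x); have := h2 x; rw [pow_succ]; linarith
  exact abs_nonpos_iff.1 (ge_of_tendsto' (tendsto_pow_atTop_nhds_zero_of_lt_one
    (by norm_num) (by norm_num)) fun n => h n x)

lemma noatom (s : C) : ∀ᵐ u ∂nu, s ≠ u := by
  have hb : ∀ s : C, Bd fun u => if s = u then (1 : ℝ) else 0 := fun s =>
    ⟨.ite (measurableSet_eq_fun measurable_const measurable_id) measurable_const measurable_const,
      fun u => by dsimp only; split_ifs <;> simp⟩
  have h := contr (fun s => ∫ u, (if s = u then (1 : ℝ) else 0) ∂nu) sh (fun s => (hb s).le)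
    (fun s => by
      have e : ∀ b u, (s = cons b u) ↔ (s 0 = b ∧ sh s = u) := fun b u =>
        ⟨fun h => by simp [h], fun h => by ext n; cases n <;> simp [← h.1, ← h.2, cons, sh]⟩
      simp only [split (hb s), e, abs_div]
      cases s 0 <;> simp) s
  rw [integral_eq_zero_iff_of_nonneg (fun u => by dsimp; split_ifs <;> simp) (hb s).int] at h
  filter_upwards [h] with u hu he
  simp [he] at hu

lemma ex (s t : C) : ∃ n, s n ≠ t n ∨ s = t := by
  by_cases h : s = t
  · exact ⟨0, .inr h⟩
  · obtain ⟨n, hn⟩ := ne_iff.1 h; exact ⟨n, .inl hn⟩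

def d (s t : C) : ℕ := Nat.find (ex s t)

lemma d1 {s t : C} (h : s ≠ t) : s (d s t) ≠ t (d s t) := (Nat.find_spec (ex s t)).resolve_right h
lemma d2 {s t : C} {i : ℕ} (h : i < d s t) : s i = t i := by
  have := Nat.find_min (ex s t) h; tauto
lemma sh_ne {s t : C} (h0 : s 0 = t 0) (h : s ≠ t) : sh s ≠ sh t := fun e => h <| by
  ext n; cases n with
  | zero => exact h0
  | succ n => exact congrFun e n
lemma d3 {s t : C} (h0 : s 0 = t 0) (h : s ≠ t) : d s t = d (sh s) (sh t) + 1 := by
  refine (Nat.find_eq_iff _).2 ⟨.inl (d1 (sh_ne h0 h)), fun n hn => ?_⟩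
  cases n with
  | zero => tauto
  | succ n => have := d2 (s := sh s) (t := sh t) (i := n) (by omega); simp only [sh] at this; tauto

def sg (b : Bool) : ℤ := if b then -1 else 1
def F (c : Fin 4) (x y : Bool × Bool) : ℤ :=
  sg x.1 * sg y.1 * if (if c = 0 then !x.2 && y.2 else if c = 1 then x.2 && !y.2
    else if c = 2 then x.1 == x.2 && y.1 != y.2 else x.1 != x.2 && y.1 == y.2) then 1 else 0

lemma F0 : ∀ c x, F c x x = 0 := by decide
lemma F1 : ∀ c x, ∑ y, F c x y = 0 := by decide
lemma F2 : ∀ c y, ∑ x, F c x y = 0 := by decide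
lemma F3 : ∀ c x z, ∑ y, F c x y * F c y z = 0 := by decide
lemma F4 : ∀ c x y, |F c x y| ≤ 1 := by decide
lemma F5 : ∀ x y : Bool × Bool, x.1 ≠ y.1 → ∑ c, F c x y = -1 := by decide
lemma F6 : ∀ x y : Bool × Bool, x.1 = y.1 → x.2 ≠ y.2 → ∑ c, F c x y = 2 := by decide

def bl (s : C) (n : ℕ) : Bool × Bool := (s (2 * (n / 2)), s (2 * (n / 2) + 1))
def a (c : Fin 4) (s t : C) : ℝ := F c (bl s (d s t)) (bl t (d s t))

lemma a_meas (c : Fin 4) : Measurable fun p : C × C => a c p.1 p.2 := by
  refine Measurable.find (f := fun n (p : C × C) => (F c (bl p.1 n) (bl p.2 n) : ℝ))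
    (p := fun n p => p.1 n ≠ p.2 n ∨ p.1 = p.2) (fun n => ?_) (fun n => ?_) fun p => ex p.1 p.2
  · exact (measurable_of_countable fun q : (Bool × Bool) × Bool × Bool => (F c q.1 q.2 : ℝ)).comp
      (f := fun p : C × C => (bl p.1 n, bl p.2 n)) (by unfold bl; fun_prop)
  · exact (measurableSet_eq_fun (by fun_prop) (by fun_prop)).compl.union
      (measurableSet_eq_fun measurable_fst measurable_snd)

lemma a_le (c : Fin 4) (s t : C) : |a c s t| ≤ 1 := by unfold a; exact_mod_cast F4 _ _ _
lemma a_self (c : Fin 4) (s : C) : a c s s = 0 := by simp [a, F0]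
lemma a_b1 (c : Fin 4) (s : C) : Bd (a c s) :=
  ⟨(a_meas c).comp (measurable_const.prodMk measurable_id), a_le c s⟩
lemma a_b2 (c : Fin 4) (t : C) : Bd (a c · t) :=
  ⟨(a_meas c).comp (measurable_id.prodMk measurable_const), fun s => a_le c s t⟩

lemma a_rec (c : Fin 4) (s t : C) : a c s t = F c (s 0, s 1) (t 0, t 1) +
    if (s 0, s 1) = (t 0, t 1) then a c (sh (sh s)) (sh (sh t)) else 0 := by
  split_ifs with h
  · rw [h, F0]
    simp only [Prod.mk.injEq] at h
    by_cases e : s = t
    · simp [e, a_self]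
    have := d3 (s := sh s) (t := sh t) h.2 (sh_ne h.1 e)
    simp only [a, bl, d3 h.1 e, this, Int.cast_zero, zero_add]
    rw [show ∀ n, 2 * ((n + 1 + 1) / 2) = 2 * (n / 2) + 1 + 1 by omega]; rfl
  · have : d s t / 2 = 0 := by
      by_contra h2
      exact h (by rw [d2 (i := 0) (s := s) (t := t) (by omega),
        d2 (i := 1) (s := s) (t := t) (by omega)])
    simp [a, bl, this]

lemma a_sum {s t : C} (h : s ≠ t) : ∑ c, a c s t = if d s t % 2 = 0 then -1 else 2 := by
  have h1 := d1 h
  simp only [a]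
  split_ifs with e
  · exact_mod_cast F5 _ _ (by simp only [bl]; rwa [show 2 * (d s t / 2) = d s t by omega])
  · exact_mod_cast F6 _ _ (d2 (by omega))
      (by simp only [bl]; rwa [show 2 * (d s t / 2) + 1 = d s t by omega])

lemma a_row (c : Fin 4) (s : C) : ∫ u, a c s u ∂nu = 0 := by
  refine contr (fun s => ∫ u, a c s u ∂nu) (fun s => sh (sh s)) (fun s => (a_b1 c s).le)
    (fun s => ?_) s
  have e : ∀ b : Bool × Bool, ∫ u, a c s (cons b.1 (cons b.2 u)) ∂nu = F c (s 0, s 1) b +
      if (s 0, s 1) = b then ∫ u, a c (sh (sh s)) u ∂nu else 0 := fun b => by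
    simp only [a_rec c s (cons _ _), cons0, cons1, sh_cons, Prod.mk.eta]
    split_ifs
    · rw [integral_add (integrable_const _) (a_b1 _ _).int]; simp
    · simp
  simp only [split2 (a_b1 c s), e, Finset.sum_add_distrib, Finset.sum_ite_eq, Finset.mem_univ,
    if_true, ← Int.cast_sum, F1, abs_div, Int.cast_zero, zero_add]
  gcongr; norm_num

lemma a_col (c : Fin 4) (s : C) : ∫ u, a c u s ∂nu = 0 := by
  refine contr (fun s => ∫ u, a c u s ∂nu) (fun s => sh (sh s)) (fun s => (a_b2 c s).le)
    (fun s => ?_) s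
  have e : ∀ b : Bool × Bool, ∫ u, a c (cons b.1 (cons b.2 u)) s ∂nu = F c b (s 0, s 1) +
      if b = (s 0, s 1) then ∫ u, a c u (sh (sh s)) ∂nu else 0 := fun b => by
    simp only [a_rec c (cons _ _) s, cons0, cons1, sh_cons, Prod.mk.eta]
    split_ifs
    · rw [integral_add (integrable_const _) (a_b2 _ _).int]; simp
    · simp
  simp only [split2 (a_b2 c s), e, Finset.sum_add_distrib, Finset.sum_ite_eq', Finset.mem_univ,
    if_true, ← Int.cast_sum, F2, abs_div, Int.cast_zero, zero_add]
  gcongr; norm_num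

lemma a_sq (c : Fin 4) (s t : C) : ∫ u, a c s u * a c u t ∂nu = 0 := by
  refine contr (fun p : C × C => ∫ u, a c p.1 u * a c u p.2 ∂nu)
    (fun p => (sh (sh p.1), sh (sh p.2))) (fun p => ((a_b1 c _).mul (a_b2 c _)).le)
    (fun ⟨s, t⟩ => ?_) (s, t)
  have e : ∀ b : Bool × Bool, ∫ u, a c s (cons b.1 (cons b.2 u)) *
      a c (cons b.1 (cons b.2 u)) t ∂nu = F c (s 0, s 1) b * F c b (t 0, t 1) +
      if (s 0, s 1) = b then (if b = (t 0, t 1) then
        ∫ u, a c (sh (sh s)) u * a c u (sh (sh t)) ∂nu else 0) else 0 := fun b => by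
    simp only [a_rec c s (cons _ _), a_rec c (cons _ _) t, cons0, cons1, sh_cons, Prod.mk.eta]
    split_ifs with h1 h2 h2
    · rw [← h2, h1]; simp [F0]
    · rw [h1]; simp [F0, integral_mul_const, a_row]
    · rw [← h2]; simp [F0, integral_const_mul, a_col]
    · simp
  simp only [split2 ((a_b1 c s).mul (a_b2 c t)), e, Finset.sum_add_distrib, Finset.sum_ite_eq,
    Finset.mem_univ, if_true, ← Int.cast_mul, ← Int.cast_sum, F3, abs_div, Int.cast_zero, zero_add]
  split_ifs
  · gcongr; norm_num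
  · simp; positivity

def ps (c : Fin 4) (x y : Bool) : ℝ := if (if c.1 < 2 then !x && y else x && !y) then 1 else 0
def m (c : Bool × Fin 4) (s t : C) : ℝ :=
  if c.1 then a c.2 s t else ps c.2 (s 0) (t 0) + if s 0 = t 0 then a c.2 (sh s) (sh t) else 0

lemma ps0 (c : Fin 4) (x : Bool) : ps c x x = 0 := by cases x <;> simp [ps]

lemma m_meas (c : Bool × Fin 4) : Measurable fun p : C × C => m c p.1 p.2 := by
  unfold m
  split_ifs
  · exact a_meas _
  · refine .add ((measurable_of_countable fun q : Bool × Bool => ps c.2 q.1 q.2).comp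
      (f := fun p : C × C => (p.1 0, p.2 0)) (by fun_prop))
      (.ite (measurableSet_eq_fun (by fun_prop) (by fun_prop)) ((a_meas _).comp
        (f := fun p : C × C => (sh p.1, sh p.2)) (by fun_prop)) measurable_const)

lemma m_le (c : Bool × Fin 4) (s t : C) : |m c s t| ≤ 1 := by
  unfold m
  split_ifs with h1 h2
  · exact a_le _ _ _
  · rw [h2, ps0, zero_add]; exact a_le _ _ _
  · unfold ps; split_ifs <;> simp

lemma m_self (c : Bool × Fin 4) (s : C) : m c s s = 0 := by simp [m, ps0, a_self]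

lemma m_sum {s t : C} (h : s ≠ t) : ∑ c, m c s t = 1 := by
  simp only [Fintype.sum_prod_type, Fintype.sum_bool, m, if_true, Bool.false_eq_true, if_false,
    a_sum h]
  by_cases e : s 0 = t 0
  · simp only [e, ps0, zero_add, if_true, a_sum (sh_ne e h), d3 e h]
    split_ifs <;> first | omega | norm_num
  · have : d s t = 0 := by by_contra h2; exact e (d2 (by omega))
    simp only [e, this, if_true, if_false, Fin.sum_univ_four, ps]
    revert e
    cases s 0 <;> cases t 0 <;> simp <;> norm_num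

lemma m_bd (c : Bool × Fin 4) (s t : C) : Bd fun u => m c s u * m c u t :=
  Bd.mul ⟨(m_meas c).comp (measurable_const.prodMk measurable_id), m_le c s⟩
    ⟨(m_meas c).comp (measurable_id.prodMk measurable_const), fun u => m_le c u t⟩

lemma m_sq (c : Bool × Fin 4) (s t : C) : ∫ u, m c s u * m c u t ∂nu = 0 := by
  obtain ⟨b, c⟩ := c
  cases b
  · rw [split (m_bd _ s t), Finset.sum_eq_zero, zero_div]
    intro b _
    simp only [m, Bool.false_eq_true, if_false, cons0, sh_cons]
    split_ifs with h1 h2 h2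
    · rw [← h2, h1]; simp [ps0, a_sq]
    · rw [h1]; simp [ps0, integral_mul_const, a_row]
    · rw [← h2]; simp [ps0, integral_const_mul, a_col]
    · revert h1 h2
      cases s 0 <;> cases t 0 <;> cases b <;> simp [ps]
  · exact a_sq c s t

end
end Pool.Agent.H22.Nil
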