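import Pool.Agent.H22.Nil1

set_option autoImplicit false
open MeasureTheory ProbabilityTheory Set Function
open scoped Classical ENNReal

namespace Pool.Agent.H22.Nil
noncomputable section

abbrev G := Fin 7 × Fin 7
abbrev K := Bool × Fin 4
def ln (c : K) (x : G) : Fin 7 :=
  if c = (true, 3) then x.1 else x.2 + (Fin.ofNat 7 ((if c.1 then 4 else 0) + c.2.1)) * x.1
def rho (i j : Fin 7) : ℤ := if i = j then 6 else -1
def r (c : K) (x y : G) : ℤ := rho (ln c x) (ln c y)

lemma r1' : ∀ (c : K) (i : Fin 7), ∑ y, rho i (ln c y) = 0 := by decide +kernel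
lemma r2' : ∀ (c : K) (i : Fin 7), ∑ y, rho (ln c y) i = 0 := by decide +kernel
lemma r3' : ∀ (c c' : K) (i j : Fin 7), c ≠ c' → ∑ y, rho i (ln c y) * rho (ln c' y) j = 0 := by
  decide +kernel
lemma r4' : ∀ x y : G, x ≠ y → ∃ c0, ∀ c, ln c x = ln c y ↔ c = c0 := by decide +kernel

lemma r1 (c : K) (x : G) : ∑ y, (r c x y : ℝ) = 0 := by exact_mod_cast r1' c _
lemma r2 (c : K) (y : G) : ∑ x, (r c x y : ℝ) = 0 := by exact_mod_cast r2' c _
lemma r3 {c c' : K} (h : c ≠ c') (x z : G) : ∑ y, (r c x y : ℝ) * r c' y z = 0 := by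
  exact_mod_cast r3' c c' _ _ h

abbrev S := G × C
def un : Measure G := uniformOn univ
instance : IsProbabilityMeasure un := by unfold un; infer_instance
def pi0 : Measure S := un.prod nu
instance : IsProbabilityMeasure pi0 := by unfold pi0; infer_instance

def q (x y : S) : ℝ := ∑ c, m c x.2 y.2 * r c x.1 y.1
def pr (x y : S) : ℝ := 1 - q x y / 6

lemma q_meas : Measurable fun p : S × S => q p.1 p.2 :=
  Finset.measurable_sum _ fun c _ => ((m_meas c).comp (f := fun p : S × S => (p.1.2, p.2.2))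
    (by fun_prop)).mul ((measurable_of_countable fun p : G × G => (r c p.1 p.2 : ℝ)).comp
      (f := fun p : S × S => (p.1.1, p.2.1)) (by fun_prop))

lemma pr_meas : Measurable fun p : S × S => pr p.1 p.2 :=
  measurable_const.sub (q_meas.div_const _)

lemma pr_m1 (x : S) : Measurable (pr x) := pr_meas.of_uncurry_left (f := pr)
lemma pr_m2 (y : S) : Measurable (pr · y) := pr_meas.of_uncurry_right (f := pr)

lemma pr_le (x y : S) : |pr x y| ≤ 9 := by
  have : |q x y| ≤ ∑ _c : K, (6 : ℝ) := (Finset.abs_sum_le_sum_abs _ _).trans <|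
    Finset.sum_le_sum fun c _ => by
      rw [abs_mul]
      refine (mul_le_of_le_one_left (abs_nonneg _) (m_le _ _ _)).trans ?_
      unfold r rho; split_ifs <;> norm_num
  simp at this
  rw [abs_le] at *; unfold pr; constructor <;> linarith

lemma pr_diag {x y : S} (h : x.1 = y.1) (h' : x.2 ≠ y.2) : pr x y = 0 := by
  simp [pr, q, h, r, rho, ← Finset.sum_mul, m_sum h']

lemma pr_nonneg (x y : S) : 0 ≤ pr x y := by
  by_cases h' : x.2 = y.2
  · simp [pr, q, h', m_self]
  by_cases h : x.1 = y.1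
  · exact (pr_diag h h').ge
  obtain ⟨c0, hc⟩ := r4' _ _ h
  have : q x y = ∑ c, ((if c = c0 then 7 * m c x.2 y.2 else 0) - m c x.2 y.2) :=
    Finset.sum_congr rfl fun c _ => by
      simp only [r, rho, hc]; split_ifs <;> push_cast <;> ring
  rw [Finset.sum_sub_distrib, m_sum h', Finset.sum_ite_eq', if_pos (Finset.mem_univ _)] at this
  have := (abs_le.1 (m_le c0 x.2 y.2)).2
  unfold pr; linarith

lemma key (f : S → ℝ) (hm : Measurable f) (h0 : ∀ y, 0 ≤ f y) (hb : ∀ y, |f y| ≤ 81) :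
    ∫⁻ y, ENNReal.ofReal (f y) ∂pi0 = ENNReal.ofReal (∫ u, (∑ g, f (g, u)) / 49 ∂nu) := by
  have hi : Integrable f pi0 := .of_bound hm.aestronglyMeasurable 81 (ae_of_all _ hb)
  rw [← ofReal_integral_eq_lintegral_ofReal hi (ae_of_all _ h0), pi0, integral_prod_symm _ hi]
  congr 2 with u
  rw [integral_fintype .of_finite]
  simp only [un, Measure.real, uniformOn_univ]
  simp [div_eq_inv_mul, Finset.mul_sum]

def p (x y : S) : ℝ≥0∞ := ENNReal.ofReal (pr x y)

lemma p_meas : Measurable fun z : S × S => p z.1 z.2 := pr_meas.ennreal_ofReal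

lemma p1 (x : S) : ∫⁻ y, p x y ∂pi0 = 1 := by
  simp only [p]
  rw [key (pr x) (pr_m1 x) (pr_nonneg x) fun y => (pr_le x y).trans (by norm_num)]
  have : ∀ u, ∑ g, q x (g, u) = 0 := fun u => by
    simp only [q]; rw [Finset.sum_comm]; simp [← Finset.mul_sum, r1]
  simp [pr, ← Finset.sum_div, this]

lemma p2 (y : S) : ∫⁻ x, p x y ∂pi0 = 1 := by
  simp only [p]
  rw [key (pr · y) (pr_m2 y) (pr_nonneg · y)
      fun x => (pr_le x y).trans (by norm_num)]
  have : ∀ u, ∑ g, q (g, u) y = 0 := fun u => by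
    simp only [q]; rw [Finset.sum_comm]; simp [← Finset.mul_sum, r2]
  simp [pr, ← Finset.sum_div, this]

lemma p3 (x z : S) : ∫⁻ y, p x y * p y z ∂pi0 = 1 := by
  simp only [p, ← ENNReal.ofReal_mul (pr_nonneg x _)]
  rw [key (fun y => pr x y * pr y z) ((pr_m1 x).mul (pr_m2 z))
    (fun y => mul_nonneg (pr_nonneg _ _) (pr_nonneg _ _))
    fun y => by
      rw [abs_mul]; exact (mul_le_mul (pr_le _ _) (pr_le _ _) (abs_nonneg _) (by norm_num)).trans
        (by norm_num)]
  have h1 : ∀ u, ∑ g, q x (g, u) = 0 := fun u => by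
    simp only [q]; rw [Finset.sum_comm]; simp [← Finset.mul_sum, r1]
  have h2 : ∀ u, ∑ g, q (g, u) z = 0 := fun u => by
    simp only [q]; rw [Finset.sum_comm]; simp [← Finset.mul_sum, r2]
  have h3 : ∀ u, ∑ g, q x (g, u) * q (g, u) z =
      ∑ c, m c x.2 u * m c u z.2 * ∑ g, (r c x.1 g : ℝ) * r c g z.1 := fun u => by
    simp only [q, Finset.sum_mul_sum]
    rw [Finset.sum_comm]
    refine Finset.sum_congr rfl fun c _ => ?_
    rw [Finset.sum_comm, Finset.sum_eq_single c (fun c' _ h => ?_) (by simp), Finset.mul_sum]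
    · exact Finset.sum_congr rfl fun _ _ => by ring
    · rw [← mul_zero (m c x.2 u * m c' u z.2), ← r3 h.symm x.1 z.1, Finset.mul_sum]
      exact Finset.sum_congr rfl fun _ _ => by ring
  have h4 : ∀ u, (∑ g, pr x (g, u) * pr (g, u) z) / 49 = 1 +
      ∑ c, m c x.2 u * m c u z.2 * ((∑ g, (r c x.1 g : ℝ) * r c g z.1) / 1764) := fun u => by
    have : ∀ g, pr x (g, u) * pr (g, u) z =
        1 - q x (g, u) / 6 - q (g, u) z / 6 + q x (g, u) * q (g, u) z / 36 := fun g => by
      unfold pr; ring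
    simp only [this, Finset.sum_add_distrib, Finset.sum_sub_distrib, ← Finset.sum_div, h1, h2, h3,
      ← mul_div_assoc]
    simp
    ring
  simp only [h4]
  rw [integral_add (integrable_const _) (integrable_finset_sum _ fun c _ =>
    (m_bd c _ _).int.mul_const _), integral_finset_sum _ fun c _ => (m_bd c _ _).int.mul_const _]
  simp [integral_mul_const, m_sq]

lemma p4 (x : S) : ∀ᵐ y ∂pi0, x.1 = y.1 → p x y = 0 := by
  filter_upwards [(measurePreserving_snd (μ := un) (ν := nu)).quasiMeasurePreserving.ae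
    (noatom x.2)] with y hy h
  simp [p, pr_diag h hy]

end
end Pool.Agent.H22.Nil
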