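import Pool.Agent.H22.Nil2

set_option autoImplicit false
open MeasureTheory ProbabilityTheory Set Function unitInterval
open scoped Classical ENNReal

namespace Pool.Agent.H22.Nil
noncomputable section
open Glue

lemma exP : ∃ P : S → S → ℝ≥0∞, Measurable (uncurry P) ∧ (∀ x, ∫⁻ y, P x y ∂pi0 = 1) ∧
    (∀ y, ∫⁻ x, P x y ∂pi0 = 1) ∧ (∀ x z, ∫⁻ y, P x y * P y z ∂pi0 = 1) ∧
    ∀ x : S, ∀ᵐ y ∂pi0, x.1 = y.1 → P x y = 0 := ⟨p, p_meas, p1, p2, p3, p4⟩

def P : S → S → ℝ≥0∞ := exP.choose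
@[fun_prop] lemma Pm {α : Type} [MeasurableSpace α] {f g : α → S} (hf : Measurable f)
    (hg : Measurable g) : Measurable fun x => P (f x) (g x) := exP.choose_spec.1.comp (hf.prodMk hg)
lemma P1 (x : S) : ∫⁻ y, P x y ∂pi0 = 1 := exP.choose_spec.2.1 x
lemma P2 (y : S) : ∫⁻ x, P x y ∂pi0 = 1 := exP.choose_spec.2.2.1 y
lemma P3 (x z : S) : ∫⁻ y, P x y * P y z ∂pi0 = 1 := exP.choose_spec.2.2.2.1 x z
lemma P4 (x : S) : ∀ᵐ y ∂pi0, x.1 = y.1 → P x y = 0 := exP.choose_spec.2.2.2.2 x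

lemma rep {X : Type} [MeasurableSpace X] (q : X → S → ℝ≥0∞) (hq : Measurable (uncurry q))
    (h1 : ∀ x, ∫⁻ y, q x y ∂pi0 = 1) : ∃ f : X → I → S, Measurable (uncurry f) ∧
    ∀ x (h : S → ℝ≥0∞), Measurable h → ∫⁻ u, h (f x u) = ∫⁻ y, q x y * h y ∂pi0 := by
  have e : ∀ x, (Kernel.const X pi0).withDensity q x = pi0.withDensity (q x) := fun x => by
    rw [Kernel.withDensity_apply _ hq, Kernel.const_apply]
  have : IsMarkovKernel ((Kernel.const X pi0).withDensity q) :=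
    ⟨fun x => ⟨by rw [e, withDensity_apply _ .univ, Measure.restrict_univ, h1]⟩⟩
  obtain ⟨f, hf, h⟩ := ((Kernel.const X pi0).withDensity q).exists_measurable_map_eq_unitInterval
  refine ⟨f, hf, fun x g hg => ?_⟩
  rw [← lintegral_map hg hf.of_uncurry_left, h, e,
    lintegral_withDensity_eq_lintegral_mul _ hq.of_uncurry_left hg]
  rfl

lemma exw : ∃ f : Unit → I → S, Measurable (uncurry f) ∧
    ∀ x (h : S → ℝ≥0∞), Measurable h → ∫⁻ u, h (f x u) = ∫⁻ y, 1 * h y ∂pi0 :=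
  rep (fun _ _ => 1) measurable_const (by simp)
lemma exf : ∃ f : S → I → S, Measurable (uncurry f) ∧
    ∀ x (h : S → ℝ≥0∞), Measurable h → ∫⁻ u, h (f x u) = ∫⁻ y, P x y * h y ∂pi0 :=
  rep P (Pm measurable_fst measurable_snd) P1
lemma exb : ∃ f : S × S → I → S, Measurable (uncurry f) ∧ ∀ x (h : S → ℝ≥0∞), Measurable h →
    ∫⁻ u, h (f x u) = ∫⁻ y, P x.1 y * P y x.2 * h y ∂pi0 :=
  rep (fun (x : S × S) y => P x.1 y * P y x.2) (by unfold uncurry; fun_prop) fun x => P3 _ _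

def w : I → S := exw.choose ()
def fw : S → I → S := exf.choose
def br : S × S → I → S := exb.choose
@[fun_prop] lemma wm : Measurable w := exw.choose_spec.1.of_uncurry_left
@[fun_prop] lemma fwm {α : Type} [MeasurableSpace α] {f : α → S} {g : α → I} (hf : Measurable f)
    (hg : Measurable g) : Measurable fun x => fw (f x) (g x) :=
  exf.choose_spec.1.comp (hf.prodMk hg)
@[fun_prop] lemma brm {α : Type} [MeasurableSpace α] {f : α → S × S} {g : α → I}
    (hf : Measurable f) (hg : Measurable g) : Measurable fun x => br (f x) (g x) :=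
  exb.choose_spec.1.comp (hf.prodMk hg)
lemma w1 {h : S → ℝ≥0∞} (hm : Measurable h) : ∫⁻ u, h (w u) = ∫⁻ y, h y ∂pi0 := by
  simpa [w] using exw.choose_spec.2 () h hm
lemma fw1 (x : S) {h : S → ℝ≥0∞} (hm : Measurable h) :
    ∫⁻ u, h (fw x u) = ∫⁻ y, P x y * h y ∂pi0 := exf.choose_spec.2 x h hm
lemma br1 (x z : S) {h : S → ℝ≥0∞} (hm : Measurable h) :
    ∫⁻ u, h (br (x, z) u) = ∫⁻ y, P x y * P y z * h y ∂pi0 := exb.choose_spec.2 (x, z) h hm

def Z (M : ℕ → Prop) (W V : ℕ → I) : ℕ → S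
  | 0 => w (W 0)
  | k + 1 => if M (k + 1) then w (W (k + 1)) else if M (k + 2) then
      br (Z M W V k, w (W (k + 2))) (V (k + 1)) else fw (Z M W V k) (V (k + 1))

lemma Zm {α : Type} [MeasurableSpace α] {M : α → ℕ → Prop} {W V : α → ℕ → I}
    (hM : ∀ i, MeasurableSet {x | M x i}) (hW : ∀ i, Measurable (W · i))
    (hV : ∀ i, Measurable (V · i)) (k : ℕ) : Measurable fun x => Z (M x) (W x) (V x) k := by
  induction k with
  | zero => exact wm.comp (hW 0)
  | succ k ih =>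
    exact .ite (hM _) (wm.comp (hW _)) (.ite (hM _) (brm (ih.prodMk (wm.comp (hW _))) (hV _))
      (fwm ih (hV _)))

lemma Zc {M M' : ℕ → Prop} {W V W' V' : ℕ → I} {k : ℕ} (h1 : ∀ i ≤ k + 1, M i ↔ M' i)
    (h2 : ∀ i ≤ k, W i = W' i ∧ V i = V' i) (h3 : M (k + 1) → W (k + 1) = W' (k + 1)) :
    Z M W V k = Z M' W' V' k := by
  induction k with
  | zero => simp [Z, h2]
  | succ k ih =>
    have := ih (fun i hi => h1 i (by omega)) (fun i hi => h2 i (by omega)) fun _ => (h2 _ le_rfl).1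
    simp only [Z, ← h1 (k + 1) (by omega), ← h1 (k + 2) le_rfl, this, h2 _ le_rfl]
    split_ifs with a b
    · rfl
    · rw [h3 b]
    · rfl

lemma Zs {M : ℕ → Prop} (W V : ℕ → I) {j : ℕ} (h : M j) (k : ℕ) :
    Z M W V (j + k) = Z (fun i => M (j + i)) (fun i => W (j + i)) (fun i => V (j + i)) k := by
  induction k with
  | zero => cases j <;> simp [Z, h]
  | succ k ih => rw [← add_assoc, Z, ih]; rfl

def Gd (a : ℕ → S → ℝ≥0∞) : ℕ → S → ℝ≥0∞
  | 0 => a 0
  | k + 1 => fun y => a (k + 1) y * ∫⁻ x, Gd a k x * P x y ∂pi0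

lemma Gm {a : ℕ → S → ℝ≥0∞} (ha : ∀ i, Measurable (a i)) (k : ℕ) : Measurable (Gd a k) := by
  induction k with
  | zero => exact ha 0
  | succ k ih => exact (ha _).mul (Measurable.lintegral_prod_left'
      (f := fun p : S × S => Gd a k p.1 * P p.1 p.2) (by fun_prop))

lemma Pfm {h : S → ℝ≥0∞} (hh : Measurable h) : Measurable fun x => ∫⁻ y, P x y * h y ∂pi0 :=
  Measurable.lintegral_prod_right' (f := fun p : S × S => P p.1 p.2 * h p.2) (by fun_prop)

lemma Gstep {a : ℕ → S → ℝ≥0∞} (ha : ∀ i, Measurable (a i)) (k : ℕ) {h : S → ℝ≥0∞}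
    (hm : Measurable h) : ∫⁻ y, Gd a (k + 1) y * h y ∂pi0 =
      ∫⁻ x, Gd a k x * ∫⁻ y, P x y * (a (k + 1) y * h y) ∂pi0 ∂pi0 := by
  have := Gm ha k
  have := ha (k + 1)
  simp only [Gd]
  calc _ = ∫⁻ y, ∫⁻ x, Gd a k x * (P x y * (a (k + 1) y * h y)) ∂pi0 ∂pi0 :=
        lintegral_congr fun y => by
          rw [mul_right_comm, ← lintegral_const_mul _ (by fun_prop)]
          exact lintegral_congr fun x => by ring
    _ = _ := by
        rw [lintegral_lintegral_swap (Measurable.aemeasurable (by unfold uncurry; fun_prop))]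
        exact lintegral_congr fun x => lintegral_const_mul _ (by fun_prop)

abbrev J := ℤ × Fin 3
abbrev Om := J → I
def mu : Measure Om := Measure.infinitePi fun _ => volume
instance : IsProbabilityMeasure mu := by unfold mu; infer_instance

lemma res (j : J) {f : Om → ℝ≥0∞} (hf : Measurable f) :
    ∫⁻ ω, f ω ∂mu = ∫⁻ ω, ∫⁻ u, f (update ω j u) ∂volume ∂mu := by
  rw [mu, ← (glue (fun _ : J => (volume : Measure I)) {j}).lintegral_comp hf,
    lintegral_prod (fun p : Om × Om => f (gl {j} p.1 p.2)) (hf.comp (glue_meas _)).aemeasurable]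
  refine lintegral_congr fun ω => ?_
  rw [← (measurePreserving_eval_infinitePi (fun _ : J => (volume : Measure I)) j).lintegral_comp
    (f := fun u => f (update ω j u)) (hf.comp (measurable_update ω))]
  refine lintegral_congr fun ω' => congrArg f (funext fun i => ?_)
  by_cases h : i = j <;> simp [gl, h]

def ZZ (T : Set ℤ) (t : ℤ) (ω : Om) (k : ℕ) : S :=
  Z (fun i => t + i ∈ T) (fun i => ω (t + i, 1)) (fun i => ω (t + i, 2)) k

lemma ZZs (T : Set ℤ) (t : ℤ) (ω : Om) (k : ℕ) : ZZ T t ω (k + 1) =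
    if t + (k + 1 : ℕ) ∈ T then w (ω (t + (k + 1 : ℕ), 1)) else if t + (k + 1 + 1 : ℕ) ∈ T then
      br (ZZ T t ω k, w (ω (t + (k + 1 + 1 : ℕ), 1))) (ω (t + (k + 1 : ℕ), 2))
      else fw (ZZ T t ω k) (ω (t + (k + 1 : ℕ), 2)) := by
  unfold ZZ; rw [Z]

lemma ZZm (T : Set ℤ) (t : ℤ) (k : ℕ) : Measurable (ZZ T t · k) :=
  Zm (M := fun (_ : Om) i => t + i ∈ T) (W := fun ω i => ω (t + i, 1))
    (V := fun ω i => ω (t + i, 2)) (fun _ => .const _) (fun _ => by fun_prop)
    (fun _ => by fun_prop) k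

lemma ZZu {T : Set ℤ} {t : ℤ} (ω : Om) {k n : ℕ} {c : Fin 3} (u : I) (h : k < n)
    (h' : c = 2 ∨ k + 1 < n) : ZZ T t (update ω (t + n, c) u) k = ZZ T t ω k :=
  Zc (fun _ _ => .rfl) (fun i hi => by
    constructor <;> exact update_of_ne (by simp; omega) _ _) fun _ =>
      update_of_ne (by simp; omega) _ _

def Q (a : ℕ → S → ℝ≥0∞) (z : ℕ → S) (k : ℕ) : ℝ≥0∞ := ∏ i ∈ Finset.range (k + 1), a i (z i)

lemma Qm {α : Type} [MeasurableSpace α] {a : ℕ → S → ℝ≥0∞} (ha : ∀ i, Measurable (a i))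
    {z : α → ℕ → S} (hz : ∀ i, Measurable (z · i)) (k : ℕ) : Measurable fun x => Q a (z x) k :=
  Finset.measurable_prod _ fun i _ => (ha i).comp (hz i)

lemma Qs (a : ℕ → S → ℝ≥0∞) (z : ℕ → S) (k : ℕ) :
    Q a z (k + 1) = Q a z k * a (k + 1) (z (k + 1)) := Finset.prod_range_succ _ _

lemma Qu {a : ℕ → S → ℝ≥0∞} {T : Set ℤ} {t : ℤ} (ω : Om) {k n : ℕ} {c : Fin 3} (u : I) (h : k < n)
    (h' : c = 2 ∨ k + 1 < n) : Q a (ZZ T t (update ω (t + n, c) u)) k = Q a (ZZ T t ω) k :=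
  Finset.prod_congr rfl fun i hi => by
    rw [ZZu ω u (by simp at hi; omega) (by simp at hi; omega)]

lemma HA {T : Set ℤ} {t : ℤ} (hT : ∀ n ∈ T, n + 1 ∉ T) (ht : t + 1 ∉ T)
    {a : ℕ → S → ℝ≥0∞} (ha : ∀ i, Measurable (a i)) (k : ℕ) : t + (k + 1 : ℕ) ∉ T →
    ∀ h : S → ℝ≥0∞, Measurable h →
    ∫⁻ ω, Q a (ZZ T t ω) k * h (ZZ T t ω k) ∂mu = ∫⁻ y, Gd a k y * h y ∂pi0 := by
  have hm : ∀ k, ∀ h : S → ℝ≥0∞, Measurable h →
      Measurable fun ω => Q a (ZZ T t ω) k * h (ZZ T t ω k) := fun k h hh =>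
    (Qm ha (ZZm T t) k).mul (hh.comp (ZZm T t k))
  induction k using Nat.strong_induction_on with
  | _ k ih =>
  intro hk h hh
  rcases k with _ | k
  · rw [res (t + (0 : ℕ), 1) (hm _ h hh)]
    simp only [Q, ZZ, Z, Gd, zero_add, Finset.prod_range_one, update_self]
    rw [w1 (h := fun y => a 0 y * h y) ((ha 0).mul hh)]
    simp
  have := ha (k + 1)
  by_cases h1 : t + (k + 1 : ℕ) ∈ T
  · rcases k with _ | k
    · exact absurd (by simpa using h1) ht
    have h2 : t + (k + 1 : ℕ) ∉ T := fun e => hT _ e (by push_cast at *; rwa [add_assoc])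
    have := ha (k + 1)
    have m1 := Pfm (h := fun z => a (k + 1 + 1) z * h z) (by fun_prop)
    rw [Gstep ha _ hh, Gstep ha _ m1, ← ih k (by omega) h2 _ (Pfm (h := fun y => a (k + 1) y *
      ∫⁻ z, P y z * (a (k + 1 + 1) z * h z) ∂pi0) (this.mul m1)),
      res (t + (k + 1 : ℕ), 2) (hm _ h hh), res (t + (k + 1 + 1 : ℕ), 1)
        (f := fun ω => ∫⁻ u, Q a (ZZ T t (update ω (t + (k + 1 : ℕ), 2) u)) (k + 1 + 1) *
          h (ZZ T t (update ω (t + (k + 1 : ℕ), 2) u) (k + 1 + 1)))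
        (Measurable.lintegral_prod_right' ((hm _ h hh).comp measurable_update'))]
    refine lintegral_congr fun ω => ?_
    have e : ∀ v u, Q a (ZZ T t (update (update ω (t + (k + 1 + 1 : ℕ), 1) v) (t + (k + 1 : ℕ), 2) u))
        (k + 1 + 1) * h (ZZ T t (update (update ω (t + (k + 1 + 1 : ℕ), 1) v)
        (t + (k + 1 : ℕ), 2) u) (k + 1 + 1)) = Q a (ZZ T t ω) k * (a (k + 1 + 1) (w v) * h (w v)) *
          a (k + 1) (br (ZZ T t ω k, w v) u) := fun v u => by
      rw [Qs, Qs, Qu _ _ (by omega) (by omega), Qu _ _ (by omega) (by omega), ZZs _ _ _ (k + 1),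
        ZZs, if_pos h1, if_neg h2, if_pos h1, ZZu _ _ (by omega) (by omega),
        ZZu _ _ (by omega) (by omega), update_self, update_of_ne (by simp), update_self]
      ring
    simp only [e]
    calc _ = ∫⁻ v, Q a (ZZ T t ω) k * ∫⁻ y, P (ZZ T t ω k) y * (a (k + 1) y *
            (P y (w v) * (a (k + 1 + 1) (w v) * h (w v)))) ∂pi0 := lintegral_congr fun v => by
          rw [lintegral_const_mul _ (by fun_prop), br1 _ _ this, mul_assoc,
            ← lintegral_const_mul _ (by fun_prop)]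
          congr 2 with y; ring
      _ = _ := by
          have m2 : Measurable fun z => ∫⁻ y, P (ZZ T t ω k) y * (a (k + 1) y *
              (P y z * (a (k + 1 + 1) z * h z))) ∂pi0 := Measurable.lintegral_prod_right'
            (f := fun p : S × S => P (ZZ T t ω k) p.2 * (a (k + 1) p.2 *
              (P p.2 p.1 * (a (k + 1 + 1) p.1 * h p.1)))) (by fun_prop)
          rw [lintegral_const_mul _ (f := fun v => ∫⁻ y, P (ZZ T t ω k) y * (a (k + 1) y *
              (P y (w v) * (a (k + 1 + 1) (w v) * h (w v)))) ∂pi0) (m2.comp wm), w1 m2,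
            lintegral_lintegral_swap (Measurable.aemeasurable (by unfold uncurry; fun_prop))]
          congr 2 with y
          rw [lintegral_const_mul _ (by fun_prop), lintegral_const_mul _ (by fun_prop)]
  · rw [Gstep ha _ hh, ← ih k (by omega) h1 _ (Pfm (h := fun y => a (k + 1) y * h y)
      (by fun_prop)),
      res (t + (k + 1 : ℕ), 2) (hm _ h hh)]
    refine lintegral_congr fun ω => ?_
    rw [← fw1 _ (h := fun y => a (k + 1) y * h y) (by fun_prop),
      ← lintegral_const_mul _ (by fun_prop)]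
    refine lintegral_congr fun u => ?_
    rw [Qs, Qu _ _ (by omega) (by omega), ZZs, if_neg h1, if_neg hk, ZZu _ _ (by omega) (by omega),
      update_self, mul_assoc]

lemma Gc {a a' : ℕ → S → ℝ≥0∞} {k : ℕ} (h : ∀ i ≤ k, a i = a' i) : Gd a k = Gd a' k := by
  induction k with
  | zero => exact h 0 le_rfl
  | succ k ih => simp only [Gd, h _ le_rfl, ih fun i hi => h i (by omega)]

lemma HB {T : Set ℤ} {t : ℤ} (hT : ∀ n ∈ T, n + 1 ∉ T) (ht : t + 1 ∉ T)
    {a : ℕ → S → ℝ≥0∞} (ha : ∀ i, Measurable (a i)) (k : ℕ) :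
    ∫⁻ ω, Q a (ZZ T t ω) k ∂mu = ∫⁻ y, Gd a k y ∂pi0 := by
  by_cases h : t + (k + 1 : ℕ) ∈ T
  · have ha' : ∀ i, Measurable (update a (k + 1) 1 i) := fun i => by
      by_cases e : i = k + 1 <;> simp [e, ha, measurable_one]
    have := HA hT ht ha' (k + 1) (fun e => hT _ h (by push_cast at *; rwa [add_assoc])) 1
      measurable_one
    rw [Gstep ha' _ measurable_one, Gc (a' := a) fun i hi => update_of_ne (by omega) _ _] at this
    simp only [Qs, update_self, Pi.one_apply, mul_one, P1] at this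
    rw [← this]
    exact lintegral_congr fun ω => Finset.prod_congr rfl fun i hi => by
      rw [update_of_ne (by simp at hi; omega)]
  · simpa using HA hT ht ha k h 1 measurable_one

lemma HC {T : Set ℤ} {t : ℤ} (hT : ∀ n ∈ T, n + 1 ∉ T) (ht : t + 1 ∉ T) (j : ℕ)
    {a : ℕ → S → ℝ≥0∞} (ha : ∀ i, Measurable (a i)) (k : ℕ) :
    ∫⁻ ω, Q a (fun i => ZZ T t ω (j + i)) k ∂mu = ∫⁻ y, Gd a k y ∂pi0 := by
  induction j generalizing a k with
  | zero => simpa using HB hT ht ha k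
  | succ j ih =>
    have e : ∀ k, Gd (fun i => Nat.casesOn i 1 a) (k + 1) = Gd a k := fun k => by
      induction k with
      | zero => ext y; simp [Gd, P2]
      | succ k ih => rw [Gd, ih]; rfl
    rw [← e, ← ih (fun i => by cases i; exacts [measurable_one, ha _])]
    refine lintegral_congr fun ω => ?_
    rw [Q, Q, Finset.prod_range_succ' _ (k + 1)]
    simp [add_assoc, add_comm 1]

end
end Pool.Agent.H22.Nil
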