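import Pool.Agent.H22.Nil3

set_option autoImplicit false
open MeasureTheory ProbabilityTheory Set Function unitInterval Filter
open scoped Classical ENNReal

namespace Pool.Agent.H22.Nil
noncomputable section
open Glue

lemma inc (e : ℕ → J) (he : Injective e) {l : ℝ} (hl : 0 < l) (r : ℕ) :
    mu {ω | ∀ i < r, ω (e i) ≤ ω (e (i + 1))} ≤ ENNReal.ofReal (Real.exp l * l⁻¹ ^ r) := by
  have ms : ∀ r, MeasurableSet {ω : Om | ∀ i < r, ω (e i) ≤ ω (e (i + 1))} := fun r => by
    simp only [ofPred_forall]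
    exact .iInter fun i => .iInter fun _ => measurableSet_le (by fun_prop) (by fun_prop)
  let f : ℕ → Om → ℝ≥0∞ := fun r => {ω : Om | ∀ i < r, ω (e i) ≤ ω (e (i + 1))}.indicator
    fun ω => ENNReal.ofReal (Real.exp (-l * ω (e r)))
  have fm : ∀ r, Measurable (f r) := fun r => .indicator (by fun_prop) (ms r)
  have h : ∀ r, ∫⁻ ω, f r ω ∂mu ≤ ENNReal.ofReal (l⁻¹ ^ r) := fun r => by
    induction r with
    | zero =>
      refine (lintegral_mono (g := fun _ => 1) fun ω => ?_).trans (by simp)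
      simp only [f]
      refine (indicator_le_self _ _ ω).trans (ENNReal.ofReal_le_one.2 (Real.exp_le_one_iff.2 ?_))
      nlinarith [(ω (e 0)).2.1]
    | succ r ih =>
      rw [res (e (r + 1)) (fm _), pow_succ', ENNReal.ofReal_mul (by positivity)]
      refine le_trans (lintegral_mono fun ω => ?_) ((lintegral_const_mul _ (fm r)).trans_le
        (mul_le_mul_right ih _))
      by_cases hω : ∀ i < r, ω (e i) ≤ ω (e (i + 1))
      · calc _ ≤ ∫⁻ u : I, (Ici (ω (e r) : ℝ)).indicator
              (fun x => ENNReal.ofReal (Real.exp (-l * x))) u := lintegral_mono fun u => by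
              simp only [f]
              refine indicator_apply_le' (fun hu => ?_) fun _ => zero_le
              have := hu r (by omega)
              rw [update_self, update_of_ne (he.ne (by omega))] at this
              rw [update_self, indicator_of_mem (show (u : ℝ) ∈ Ici _ from this)]
          _ ≤ ∫⁻ x in Ici (ω (e r) : ℝ), ENNReal.ofReal (Real.exp (-l * x)) := by
              rw [measurePreserving_coe.lintegral_comp (.indicator (by fun_prop) measurableSet_Ici),
                ← lintegral_indicator measurableSet_Ici]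
              exact setLIntegral_le_lintegral _ _
          _ = _ := by
              rw [← setLIntegral_congr Ioi_ae_eq_Ici, ← ofReal_integral_eq_lintegral_ofReal
                (integrableOn_exp_mul_Ioi (by linarith) _) (ae_of_all _ fun _ => by positivity),
                integral_exp_mul_Ioi (by linarith)]
              simp only [f]
              rw [indicator_of_mem (by exact hω), ← ENNReal.ofReal_mul (by positivity)]
              congr 1; field_simp
      · refine le_trans (lintegral_mono (g := fun _ => 0) fun u => ?_) (by simp)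
        simp only [f]
        rw [indicator_of_notMem fun hu => hω fun i hi => ?_]
        have := hu i (by omega)
        rwa [update_of_ne (he.ne (by omega)), update_of_ne (he.ne (by omega))] at this
  rw [ENNReal.ofReal_mul (by positivity), ← lintegral_indicator_one (ms r)]
  refine le_trans (lintegral_mono fun ω => ?_) ((lintegral_const_mul _ (fm r)).trans_le
    (mul_le_mul_right (h r) _))
  refine indicator_apply_le' (fun hω => ?_) fun _ => zero_le
  simp only [f]
  rw [indicator_of_mem hω, ← ENNReal.ofReal_mul (by positivity), ← Real.exp_add]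
  exact ENNReal.one_le_ofReal.2 (Real.one_le_exp (by nlinarith [(ω (e r)).2.2]))

def T (ω : Om) : Set ℤ := {n | ω (n, 0) < ω (n - 1, 0) ∧ ω (n, 0) ≤ ω (n + 1, 0)}

lemma hT (ω : Om) : ∀ n ∈ T ω, n + 1 ∉ T ω := fun n h h' =>
  absurd h.2 (not_le.2 (by simpa using h'.1))

lemma Tm (n : ℤ) : MeasurableSet {ω | n ∈ T ω} :=
  (measurableSet_lt (by fun_prop) (by fun_prop)).inter
    (measurableSet_le (by fun_prop) (by fun_prop))

lemma tail (t : ℤ) {l : ℝ} (hl : 0 < l) (r : ℕ) : mu {ω | ∀ k < 2 * r, t - (k : ℕ) ∉ T ω} ≤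
    2 * ENNReal.ofReal (Real.exp l * l⁻¹ ^ r) := by
  rw [two_mul (ENNReal.ofReal _)]
  refine le_trans (measure_mono fun ω hω => ?_) ((measure_union_le _ _).trans (add_le_add
    (inc (fun i => (t - i, 0)) (fun i j h => by simpa using h) hl r)
    (inc (fun i => (t - 2 * r + i, 0)) (fun i j h => by simpa using h) hl r)))
  refine or_iff_not_imp_left.2 fun h => ?_
  simp only [mem_ofPred_eq, not_forall, not_le] at h
  obtain ⟨i, hi, h⟩ := h
  have key : ∀ j, i ≤ j → j < 2 * r → ω (t - (j + 1 : ℕ), 0) ≤ ω (t - j, 0) := fun j hj => by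
    induction j, hj using Nat.le_induction with
    | base => exact fun _ => h.le
    | succ j hj ih =>
      intro h2
      refine not_lt.1 fun h3 => hω (j + 1) h2 ⟨?_, ?_⟩
      · rwa [show t - (j + 1 : ℕ) - 1 = t - (j + 1 + 1 : ℕ) by omega]
      · convert ih (by omega) using 3; push_cast; ring
  intro j hj
  convert key (2 * r - j - 1) (by omega) (by omega) using 3 <;> omega

lemma mark (t : ℤ) : ∀ᵐ ω ∂mu, ∃ k : ℕ, t - k ∈ T ω := by
  have h : Tendsto (fun r : ℕ => 2 * ENNReal.ofReal (Real.exp 2 * 2⁻¹ ^ r)) atTop (nhds 0) := by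
    simpa using ENNReal.Tendsto.const_mul (a := 2) (ENNReal.tendsto_ofReal
      ((tendsto_pow_atTop_nhds_zero_of_lt_one (r := 2⁻¹) (by norm_num) (by norm_num)).const_mul
        (Real.exp 2))) (.inr (by simp))
  refine nonpos_iff_eq_zero.1 (ge_of_tendsto' h fun r => le_trans (measure_mono fun ω hω => ?_)
    (tail t two_pos r))
  exact fun k _ hk => hω ⟨k, hk⟩

lemma exM (M : ℕ → Prop) : ∃ k, M k ∨ ∀ k, ¬ M k := by
  by_cases h : ∃ k, M k
  · exact h.imp fun _ => .inl
  · exact ⟨0, .inr (not_exists.1 h)⟩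

def kap (M : ℕ → Prop) : ℕ := Nat.find (exM M)

def X (n : ℤ) (ω : Om) : S :=
  ZZ (T ω) (n - kap fun k => n - k ∈ T ω) ω (kap fun k => n - k ∈ T ω)

@[fun_prop] lemma Xm (n : ℤ) : Measurable (X n) := by
  refine Measurable.find (f := fun k ω => ZZ (T ω) (n - k) ω k)
    (p := fun k ω => n - k ∈ T ω ∨ ∀ k : ℕ, n - k ∉ T ω) (fun k => ?_) (fun k => ?_)
    fun ω => exM fun k => n - k ∈ T ω
  · exact Zm (M := fun ω i => n - k + i ∈ T ω) (W := fun ω i => ω (n - k + i, 1))
      (V := fun ω i => ω (n - k + i, 2)) (fun _ => Tm _) (fun _ => by fun_prop)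
      (fun _ => by fun_prop) k
  · refine (Tm _).union (s₂ := {ω | ∀ k : ℕ, n - k ∉ T ω}) ?_
    simp only [ofPred_forall]
    exact .iInter fun _ => (Tm _).compl

lemma Xeq {t : ℤ} {ω : Om} (h : t ∈ T ω) (k : ℕ) : X (t + k) ω = ZZ (T ω) t ω k := by
  have h1 : (fun j : ℕ => t + k - j ∈ T ω) k := by simpa using h
  have h2 : kap (fun j : ℕ => t + k - j ∈ T ω) ≤ k := Nat.find_le (.inl h1)
  have h3 := (Nat.find_spec (exM fun j : ℕ => t + k - j ∈ T ω)).resolve_right fun e => e k h1
  unfold X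
  change t + k - (kap _ : ℕ) ∈ T ω at h3
  generalize kap _ = c at *
  obtain ⟨j, rfl⟩ : ∃ j, k = j + c := ⟨k - c, by omega⟩
  have e : t + (j + c : ℕ) - c = t + j := by push_cast; ring
  rw [e] at h3 ⊢
  unfold ZZ
  rw [Zs (M := fun i => t + i ∈ T ω) _ _ h3]
  simp only [Nat.cast_add, add_assoc]

def sft (n : ℤ) (ω : Om) : Om := fun j => ω (j.1 + n, j.2)

lemma Xs (m n : ℤ) (ω : Om) : X m (sft n ω) = X (m + n) ω := by
  have e : ∀ i, i ∈ T (sft n ω) ↔ i + n ∈ T ω := fun i => by
    simp only [T, sft, mem_ofPred_eq, add_right_comm i n, sub_add_eq_add_sub]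
  simp only [X, ZZ, e, sft, sub_add_eq_add_sub, add_right_comm _ _ n]

lemma sft_mp (n : ℤ) : MeasurePreserving (sft n) mu mu :=
  reidx volume ((Equiv.addRight n).prodCongr (.refl _))

lemma Xdet {ω ω' : Om} {k r : ℕ} (h : -(k : ℤ) ∈ T ω) (hk : k + 2 ≤ r)
    (h' : ∀ j : J, |j.1| ≤ r → ω j = ω' j) : X 0 ω = X 0 ω' := by
  have e : ∀ i ≤ k + 1, (-(k : ℤ) + (i : ℕ) ∈ T ω ↔ -(k : ℤ) + i ∈ T ω') := fun i hi => by
    simp only [T, mem_ofPred_eq]
    rw [h', h', h'] <;> rw [abs_le] <;> constructor <;> simp only <;> omega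
  have h1 := Xeq h k
  have h2 := Xeq (t := -k) (ω := ω') (by simpa [h] using e 0 (by omega)) k
  rw [neg_add_cancel] at h1 h2
  rw [h1, h2]
  refine Zc e (fun i hi => ⟨h' _ ?_, h' _ ?_⟩) fun _ => h' _ ?_ <;> rw [abs_le] <;> constructor <;>
    simp only <;> omega

lemma fdd (t : ℤ) {a : ℕ → S → ℝ≥0∞} (ha : ∀ i, Measurable (a i)) (k : ℕ) :
    ∫⁻ ω, Q a (fun i => X (t + i) ω) k ∂mu = ∫⁻ y, Gd a k y ∂pi0 := by
  have hf := Qm ha (z := fun ω i => X (t + i) ω) (fun i => Xm _) k
  rw [mu, ← (glue (fun _ : J => (volume : Measure I)) {j | j.2 ≠ 0}).lintegral_comp hf,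
    lintegral_prod (fun p : Om × Om => Q a (fun i => X (t + i) (gl {j | j.2 ≠ 0} p.1 p.2)) k)
      (hf.comp (glue_meas _)).aemeasurable, ← mu,
    lintegral_congr_ae (g := fun _ => ∫⁻ y, Gd a k y ∂pi0)]
  · simp
  filter_upwards [mark t] with ω ⟨j, hj⟩
  rw [← HC (hT ω) (hT ω _ hj) j ha k]
  refine lintegral_congr fun ω' => ?_
  have e : T (gl {j | j.2 ≠ 0} ω ω') = T ω := by simp [T, gl]
  congr 1 with i : 1
  rw [show t + i = t - j + (j + i : ℕ) by push_cast; ring, Xeq (e ▸ hj), e]
  simp [ZZ, gl]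

lemma quiet {a : ℕ → S → ℝ≥0∞} (ha : ∀ i, Measurable (a i)) {k : ℕ} (h : a k = 1)
    (h' : ∀ j, k = j + 1 → a j = 1) : ∃ c, Gd a k = fun _ => c := by
  rcases k with _ | _ | k
  · exact ⟨1, h⟩
  · exact ⟨1, funext fun y => by simp [Gd, h, h' 0 rfl, P2]⟩
  · refine ⟨∫⁻ x, Gd a k x ∂pi0, funext fun z => ?_⟩
    rw [Gd]
    simp [h, Gstep ha k (h := (P · z)) (by fun_prop), h' _ rfl, P3]

lemma Gmul {a b : ℕ → S → ℝ≥0∞} (ha : ∀ i, Measurable (a i)) (hb : ∀ i, Measurable (b i))
    (h : ∀ i j, i ≤ j + 1 → j ≤ i + 1 → a i = 1 ∨ b j = 1) (k : ℕ) :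
    ∫⁻ y, Gd (a * b) k y ∂pi0 = (∫⁻ y, Gd a k y ∂pi0) * ∫⁻ y, Gd b k y ∂pi0 := by
  have q : ∀ k, (∃ c, Gd a k = fun _ => c) ∨ ∃ c, Gd b k = fun _ => c := fun k => by
    rcases k with _ | k
    · exact (h 0 0 (by omega) (by omega)).imp (fun e => ⟨1, e⟩) fun e => ⟨1, e⟩
    have := h k k (by omega) (by omega)
    have := h (k + 1) k (by omega) (by omega)
    have := h k (k + 1) (by omega) (by omega)
    have := h (k + 1) (k + 1) (by omega) (by omega)
    have : (a (k + 1) = 1 ∧ a k = 1) ∨ (b (k + 1) = 1 ∧ b k = 1) := by tauto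
    exact this.imp (fun e => quiet ha e.1 fun j hj => by cases hj; exact e.2)
      fun e => quiet hb e.1 fun j hj => by cases hj; exact e.2
  have e : ∀ k, Gd (a * b) k = Gd a k * Gd b k := fun k => by
    induction k with
    | zero => rfl
    | succ k ih =>
      ext y
      have := Gm ha k
      have := Gm hb k
      simp only [Gd, ih, Pi.mul_apply]
      rcases q k with ⟨c, hc⟩ | ⟨c, hc⟩ <;> simp only [hc]
      · simp only [mul_assoc c]
        rw [lintegral_const_mul _ (by fun_prop), lintegral_const_mul _ (by fun_prop), P2]; ring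
      · simp only [mul_right_comm _ c]
        rw [lintegral_mul_const _ (by fun_prop), lintegral_const_mul _ (by fun_prop), P2]; ring
  simp only [e, Pi.mul_apply]
  rcases q k with ⟨c, hc⟩ | ⟨c, hc⟩ <;> simp only [hc]
  · rw [lintegral_const_mul _ (Gm hb k)]; simp
  · rw [lintegral_mul_const _ (Gm ha k)]; simp

end
end Pool.Agent.H22.Nil
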