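import Pool.Agent.H22.Nil4

set_option autoImplicit false
open MeasureTheory ProbabilityTheory Set Function unitInterval Filter MeasurableSpace
open scoped Classical ENNReal

namespace Pool.Agent.H22.Nil
noncomputable section

section
variable {Ω ι : Type} {α : ι → Type} [∀ i, MeasurableSpace (α i)]

def Rc (Y : ∀ i, Ω → α i) : Set (Set Ω) := {s | ∃ t ∈ squareCylinders
  (fun i => {s : Set (α i) | MeasurableSet s}), (fun ω i => Y i ω) ⁻¹' t = s}

lemma Rc_pi (Y : ∀ i, Ω → α i) : IsPiSystem (Rc Y) :=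
  IsPiSystem.comap (isPiSystem_squareCylinders (fun _ => isPiSystem_measurableSet) (by simp)) _

lemma Rc_gen (Y : ∀ i, Ω → α i) :
    (MeasurableSpace.pi.comap fun ω i => Y i ω) = generateFrom (Rc Y) := by
  rw [generateFrom_squareCylinders.symm, MeasurableSpace.comap_generateFrom]
  rfl

lemma indep_rect {κ : Type} {β : κ → Type} [∀ i, MeasurableSpace (β i)] [MeasurableSpace Ω]
    {μ : Measure Ω} [IsProbabilityMeasure μ] {Y : ∀ i, Ω → α i} {Y' : ∀ i, Ω → β i}
    (hY : ∀ i, Measurable (Y i)) (hY' : ∀ i, Measurable (Y' i))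
    (h : ∀ (s : Finset ι) (s' : Finset κ) (E : ∀ i, Set (α i)) (E' : ∀ i, Set (β i)),
      (∀ i, MeasurableSet (E i)) → (∀ i, MeasurableSet (E' i)) →
      μ ({ω | ∀ i ∈ s, Y i ω ∈ E i} ∩ {ω | ∀ i ∈ s', Y' i ω ∈ E' i}) =
        μ {ω | ∀ i ∈ s, Y i ω ∈ E i} * μ {ω | ∀ i ∈ s', Y' i ω ∈ E' i}) :
    IndepFun (fun ω i => Y i ω) (fun ω i => Y' i ω) μ := by
  refine IndepSets.indep (measurable_pi_iff.2 hY).comap_le (measurable_pi_iff.2 hY').comap_le
    (Rc_pi Y) (Rc_pi Y') (Rc_gen Y) (Rc_gen Y') ((IndepSets_iff _ _ _).2 ?_)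
  rintro - - ⟨-, ⟨s, E, hE, rfl⟩, rfl⟩ ⟨-, ⟨s', E', hE', rfl⟩, rfl⟩
  exact h s s' E E' (fun i => hE i trivial) fun i => hE' i trivial

lemma indep_pi {β : ι → Type} [∀ i, MeasurableSpace (β i)] [MeasurableSpace Ω]
    {μ : Measure Ω} [IsProbabilityMeasure μ] {f : ∀ i, Ω → α i} {g : ∀ i, Ω → β i}
    (hf : ∀ i, Measurable (f i)) (hg : ∀ i, Measurable (g i)) (h : ∀ i, IndepFun (f i) (g i) μ) :
    IndepFun (fun (ξ : ι → Ω) i => f i (ξ i)) (fun ξ i => g i (ξ i))
      (Measure.infinitePi fun _ => μ) := by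
  refine indep_rect (Y := fun i (ξ : ι → Ω) => f i (ξ i)) (Y' := fun i (ξ : ι → Ω) => g i (ξ i))
    (fun i => (hf i).comp (measurable_pi_apply i))
    (fun i => (hg i).comp (measurable_pi_apply i)) fun s s' E E' hE hE' => ?_
  let A : ∀ i, Set (α i) := fun i => if i ∈ s then E i else univ
  let B : ∀ i, Set (β i) := fun i => if i ∈ s' then E' i else univ
  have hA : ∀ i, MeasurableSet (A i) := fun i => by simp only [A]; split_ifs <;> simp [hE]
  have hB : ∀ i, MeasurableSet (B i) := fun i => by simp only [B]; split_ifs <;> simp [hE']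
  have e1 : {ξ : ι → Ω | ∀ i ∈ s, f i (ξ i) ∈ E i} = pi ↑(s ∪ s') fun i => f i ⁻¹' A i := by
    ext ξ; simp only [mem_ofPred_eq, Set.mem_pi, A, mem_preimage, Finset.mem_coe]; grind
  have e2 : {ξ : ι → Ω | ∀ i ∈ s', g i (ξ i) ∈ E' i} = pi ↑(s ∪ s') fun i => g i ⁻¹' B i := by
    ext ξ; simp only [mem_ofPred_eq, Set.mem_pi, B, mem_preimage, Finset.mem_coe]; grind
  rw [e1, e2, ← pi_inter_distrib, Measure.infinitePi_pi _ fun i _ => hf i (hA i),
    Measure.infinitePi_pi _ fun i _ => hg i (hB i),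
    Measure.infinitePi_pi _ fun i _ => (hf i (hA i)).inter (hg i (hB i)), ← Finset.prod_mul_distrib]
  exact Finset.prod_congr rfl fun i _ => (h i).measure_inter_preimage_eq_mul _ _ (hA i) (hB i)
end

lemma fddh (t : ℤ) {a : ℕ → S → ℝ≥0∞} (ha : ∀ i, Measurable (a i)) (k : ℕ) {h : S → ℝ≥0∞}
    (hh : Measurable h) : ∫⁻ ω, Q a (fun i => X (t + i) ω) k * h (X (t + k) ω) ∂mu =
      ∫⁻ y, Gd a k y * h y ∂pi0 := by
  have := fdd t (a := update a k (a k * h)) (fun i => by
    by_cases e : i = k <;> simp [e, ha, (ha k).mul hh]) k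
  convert this using 3 with ω y
  · simp only [Q, Finset.prod_range_succ, update_self, Pi.mul_apply, mul_assoc]
    congr 1
    exact Finset.prod_congr rfl fun i hi => by rw [update_of_ne (by simp at hi; omega)]
  · cases k with
    | zero => simp [Gd]
    | succ k =>
      rw [Gd, Gd, Gc (a := update a (k + 1) _) (a' := a) fun i hi => update_of_ne (by omega) _ _]
      simp [mul_right_comm]

def wt (s : Finset ℤ) (E : ℤ → Set S) (t : ℤ) (i : ℕ) : S → ℝ≥0∞ :=
  if t + i ∈ s then (E (t + i)).indicator 1 else 1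

lemma wtm (s : Finset ℤ) {E : ℤ → Set S} (hE : ∀ i, MeasurableSet (E i)) (t : ℤ) (i : ℕ) :
    Measurable (wt s E t i) := by
  unfold wt; split_ifs
  exacts [measurable_one.indicator (hE _), measurable_one]

lemma Qwt {s : Finset ℤ} (E : ℤ → Set S) {t : ℤ} {k : ℕ} (h : ∀ i ∈ s, t ≤ i ∧ i ≤ t + k) (ω : Om) :
    Q (wt s E t) (fun i => X (t + i) ω) k = {ω | ∀ i ∈ s, X i ω ∈ E i}.indicator 1 ω := by
  by_cases e : ∀ i ∈ s, X i ω ∈ E i
  · rw [indicator_of_mem (by exact e)]
    refine Finset.prod_eq_one fun i _ => ?_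
    unfold wt; split_ifs with h1
    exacts [indicator_of_mem (e _ h1) _, rfl]
  · rw [indicator_of_notMem (by exact e)]
    push Not at e
    obtain ⟨i, hi, e⟩ := e
    obtain ⟨j, rfl⟩ : ∃ j : ℕ, i = t + j := ⟨(i - t).toNat, by have := h i hi; omega⟩
    refine Finset.prod_eq_zero (i := j) (by have := h _ hi; simp; omega) ?_
    simp [wt, hi, e]

lemma cylm (s : Finset ℤ) {E : ℤ → Set S} (hE : ∀ i, MeasurableSet (E i)) :
    MeasurableSet {ω | ∀ i ∈ s, X i ω ∈ E i} := by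
  simp only [ofPred_forall]
  exact .iInter fun i => .iInter fun _ => Xm i (hE i)

lemma win (s : Finset ℤ) (n : ℤ) (h : ∀ i ∈ s, i ≤ n) :
    ∃ (t : ℤ) (k : ℕ), n = t + k ∧ ∀ i ∈ s, t ≤ i ∧ i ≤ t + k := by
  obtain ⟨t, ht⟩ := (insert n s).bddBelow
  have := ht (show n ∈ _ by simp)
  refine ⟨t, (n - t).toNat, by omega, fun i hi => ⟨ht (show i ∈ _ by simp [hi]), ?_⟩⟩
  have := h i hi; omega

lemma sub {A : Set ℤ} (s : Finset A) (E : A → Set S) (hE : ∀ i, MeasurableSet (E i)) :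
    ∃ (s' : Finset ℤ) (E' : ℤ → Set S), (∀ i, MeasurableSet (E' i)) ∧ (∀ i ∈ s', i ∈ A) ∧
      {ω | ∀ i ∈ s, X i ω ∈ E i} = {ω | ∀ i ∈ s', X i ω ∈ E' i} := by
  refine ⟨s.map (Embedding.subtype _), fun i => if h : i ∈ A then E ⟨i, h⟩ else univ,
    fun i => by dsimp only; split_ifs <;> simp [hE], by simp +contextual, ?_⟩
  ext ω; simp only [mem_ofPred_eq, Finset.mem_map, Embedding.coe_subtype]; grind

lemma ind1 {A B : Set ℤ} (h : ∀ i ∈ A, ∀ j ∈ B, 1 < |i - j|) :
    IndepFun (fun ω (i : A) => X i ω) (fun ω (i : B) => X i ω) mu := by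
  refine indep_rect (fun _ => Xm _) (fun _ => Xm _) fun s s' E E' hE hE' => ?_
  obtain ⟨s, E, hE, hs, e⟩ := sub s E hE
  obtain ⟨s', E', hE', hs', e'⟩ := sub s' E' hE'
  obtain ⟨n, hn⟩ := (s ∪ s').bddAbove
  obtain ⟨t, k, -, ht⟩ := win (s ∪ s') n hn
  have h1 := fun i hi => ht i (Finset.mem_union_left _ hi)
  have h2 := fun i hi => ht i (Finset.mem_union_right _ hi)
  rw [e, e', ← lintegral_indicator_one (cylm s hE), ← lintegral_indicator_one (cylm s' hE'),
    ← lintegral_indicator_one ((cylm s hE).inter (cylm s' hE')), inter_indicator_one]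
  simp only [Pi.mul_apply, ← Qwt E h1, ← Qwt E' h2]
  rw [fdd t (wtm s hE t), fdd t (wtm s' hE' t), ← Gmul (wtm s hE t) (wtm s' hE' t),
    ← fdd t (a := wt s E t * wt s' E' t) fun i => (wtm s hE t i).mul (wtm s' hE' t i)]
  · simp only [Q, ← Finset.prod_mul_distrib]; rfl
  intro i j hi hj
  unfold wt
  by_contra! e
  have := h _ (hs _ (by_contra fun c => e.1 (if_neg c))) _ (hs' _ (by_contra fun c => e.2 (if_neg c)))
  rw [lt_abs] at this
  omega

lemma proper (n : ℤ) : ∀ᵐ ω ∂mu, (X n ω).1 ≠ (X (n + 1) ω).1 := by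
  have : ∀ᵐ ω ∂mu, ∀ c : G, ¬ ((X n ω).1 = c ∧ (X (n + 1) ω).1 = c) := ae_all_iff.2 fun c => by
    have hE : MeasurableSet {y : S | y.1 = c} := measurable_fst (measurableSet_singleton c)
    have hm : Measurable ({y : S | y.1 = c}.indicator (1 : S → ℝ≥0∞)) := measurable_one.indicator hE
    have h := fddh n (a := fun _ => {y : S | y.1 = c}.indicator 1) (fun _ => hm) (0 + 1)
      measurable_one
    rw [Gstep (fun _ => hm) 0 measurable_one, lintegral_congr (g := fun _ => 0) (μ := pi0),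
      lintegral_zero] at h
    · filter_upwards [(lintegral_eq_zero_iff
        ((Qm (fun _ => hm) (fun _ => Xm _) _).mul measurable_const)).1 h] with ω hω e
      simp [Q, Finset.prod_range_succ, e] at hω
    intro x
    by_cases e : x.1 = c
    · rw [lintegral_congr_ae (g := fun _ => 0)]
      · simp
      filter_upwards [P4 x] with y hy
      by_cases e' : y.1 = c
      · simp [hy (e.trans e'.symm)]
      · simp [e']
    · simp [Gd, e]
  filter_upwards [this] with ω hω e using hω _ ⟨e, rfl⟩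

def ph (A : Set S) (x : S) : ℝ≥0∞ := ∫⁻ y, P x y * A.indicator 1 y ∂pi0

lemma phm {A : Set S} (hA : MeasurableSet A) : Measurable (ph A) :=
  Pfm (measurable_one.indicator hA)

lemma ph1 (A : Set S) (x : S) : ph A x ≤ 1 :=
  (lintegral_mono fun y => mul_le_of_le_one_right' (indicator_le_self _ _ y)).trans (P1 x).le

lemma markov (n : ℤ) {A : Set S} (hA : MeasurableSet A) (D : Set Om)
    (hD : MeasurableSet[MeasurableSpace.pi.comap fun ω (i : Iic n) => X i ω] D) :
    mu (D ∩ X (n + 1) ⁻¹' A) = ∫⁻ ω in D, ph A (X n ω) ∂mu := by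
  have hm := (measurable_pi_iff.2 fun i : Iic n => Xm i).comap_le
  have key : ∀ D ∈ Rc fun (i : Iic n) ω => X i ω, (mu.restrict (X (n + 1) ⁻¹' A)).trim hm D =
      (mu.withDensity fun ω => ph A (X n ω)).trim hm D := by
    intro D hD
    have h0 : MeasurableSet[MeasurableSpace.pi.comap fun ω (i : Iic n) => X i ω] D := by
      rw [Rc_gen (fun (i : Iic n) ω => X i ω)]; exact measurableSet_generateFrom hD
    rw [trim_measurableSet_eq _ h0, trim_measurableSet_eq _ h0, Measure.restrict_apply (hm _ h0),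
      withDensity_apply _ (hm _ h0)]
    obtain ⟨-, ⟨s, E, hE, rfl⟩, rfl⟩ := hD
    have := sub s E fun i => hE i trivial
    change mu ({ω | ∀ i ∈ s, X i ω ∈ E i} ∩ _) = ∫⁻ ω in {ω | ∀ i ∈ s, X i ω ∈ E i}, _ ∂mu
    clear hE h0
    obtain ⟨s', E', hE, hs, e⟩ := this
    rw [e]
    clear e s E
    rename' s' => s, E' => E
    obtain ⟨t, k, rfl, ht⟩ := win s n hs
    have h1 := fddh t (wtm s hE t) k (phm hA)
    have h2 := fddh t (wtm s hE t) (k + 1) (measurable_one.indicator hA)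
    have h3 : wt s E t (k + 1) = 1 := if_neg fun c => by have := ht _ c; omega
    rw [Gstep (wtm s hE t) k (measurable_one.indicator hA)] at h2
    simp only [Qs, h3, Pi.one_apply, one_mul, mul_one, Qwt E ht] at h1 h2
    rw [← lintegral_indicator_one ((cylm s hE).inter (Xm _ hA)), inter_indicator_one,
      ← lintegral_indicator (cylm s hE)]
    convert h2.trans h1.symm using 3 with ω ω
    · push_cast; rw [add_assoc]; rfl
    · by_cases c : ω ∈ {ω | ∀ i ∈ s, X i ω ∈ E i} <;> simp only [c, indicator_of_mem,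
        indicator_of_notMem, not_false_eq_true, Pi.one_apply, one_mul, zero_mul]
  have := ext_of_generate_finite _ (Rc_gen fun (i : Iic n) ω => X i ω) (Rc_pi _) key
    (key _ ⟨univ, ⟨∅, fun _ => univ, by simp, by simp⟩, rfl⟩)
  rw [← Measure.restrict_apply (hm _ hD), ← withDensity_apply _ (hm _ hD),
    ← trim_measurableSet_eq hm hD, this, trim_measurableSet_eq hm hD]

end
end Pool.Agent.H22.Nil
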