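import Mathlib

set_option autoImplicit false

namespace Pool.Agent.H22.Paw

open SimpleGraph

/-- H has a colouring with at most k classes, no class containing F as an induced subgraph. -/
def Free {α V : Type} (F : SimpleGraph α) (H : SimpleGraph V) (k : ℕ) : Prop :=
  ∃ c : V → Fin k, ∀ (f : F ↪g H) (i : Fin k), ¬ ∀ v, c (f v) = i

/-- The F-free chromatic number of H. -/
noncomputable def chi {α V : Type} (F : SimpleGraph α) (H : SimpleGraph V) : ℕ :=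
  sInf {k | Free F H k}

/-- F and G are n-chromatically related. -/
def Rel {α β : Type} (n : ℕ) (F : SimpleGraph α) (G : SimpleGraph β) : Prop :=
  ∃ (V : Type) (_ : Finite V) (H : SimpleGraph V), chi F H = n ∧ chi G H = n

def pawB (u v : Fin 4) : Bool := ([14, 5, 3, 1].getD u.val 0).testBit v.val

def paw : SimpleGraph (Fin 4) where
  Adj u v := pawB u v = true
  symm := ⟨by decide⟩
  loopless := ⟨by decide⟩

def adjB (u v : Fin 19) : Bool := ([574, 481, 185, 501, 461, 143, 410, 382, 218, 187393, 365056, 414208, 404992, 217088, 207360, 460288, 451584, 391680, 236544].getD u.val 0).testBit v.val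

def G : SimpleGraph (Fin 19) where
  Adj u v := adjB u v = true
  symm := ⟨by decide +kernel⟩
  loopless := ⟨by decide +kernel⟩

def col (v : Fin 19) : Fin 2 := [1, 1, 1, 0, 0, 1, 0, 0, 0, 0, 0, 1, 1, 0, 1, 1, 1, 0, 0].getD v.val 0

def ea (i : Fin 9) : Fin 19 := ⟨i.val, by omega⟩
def eb (i : Fin 10) : Fin 19 := ⟨i.val + 9, by omega⟩

def isPaw (a b c d : Fin 19) : Bool :=
  adjB a b && adjB a c && adjB b c && adjB a d && !adjB b d && !adjB c d

def isP4 (a b c d : Fin 19) : Bool :=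
  adjB a b && adjB b c && adjB c d && !adjB a c && !adjB a d && !adjB b d

def pawsA : List (Fin 9 × Fin 9 × Fin 9 × Fin 9) :=
  [(0, 1, 5, 4), (0, 2, 3, 1), (0, 2, 4, 1), (0, 3, 4, 1), (1, 0, 5, 6), (1, 0, 5, 8), (1, 6, 7,
  0), (1, 6, 8, 0), (1, 6, 8, 5), (1, 7, 8, 0), (3, 0, 2, 6), (3, 0, 2, 8), (3, 0, 5, 6), (3, 0,
  5, 8), (3, 2, 5, 6), (3, 2, 5, 8), (3, 4, 6, 5), (3, 4, 8, 5), (3, 6, 7, 0), (3, 6, 8, 0), (3,
  6, 8, 2), (3, 6, 8, 5), (3, 7, 8, 0), (4, 0, 2, 6), (4, 0, 2, 8), (4, 6, 7, 0), (4, 6, 8, 0),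
  (4, 6, 8, 2), (4, 7, 8, 0), (5, 2, 3, 1), (6, 3, 4, 1), (7, 1, 5, 4), (7, 1, 6, 2), (7, 1, 8,
  2), (7, 2, 3, 1), (7, 2, 4, 1), (7, 2, 5, 6), (7, 2, 5, 8), (7, 3, 4, 1), (7, 4, 6, 5), (7, 4,
  8, 5), (7, 6, 8, 2), (7, 6, 8, 5), (8, 3, 4, 1)]

def trisA : List (Fin 9 × Fin 9 × Fin 9) :=
  [(0, 1, 5), (0, 2, 3), (0, 2, 4), (0, 2, 5), (0, 3, 4), (0, 3, 5), (1, 5, 7), (1, 6, 7), (1, 6,
  8), (1, 7, 8), (2, 3, 4), (2, 3, 5), (2, 3, 7), (2, 4, 7), (2, 5, 7), (3, 4, 6), (3, 4, 7), (3,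
  4, 8), (3, 5, 7), (3, 6, 7), (3, 6, 8), (3, 7, 8), (4, 6, 7), (4, 6, 8), (4, 7, 8), (6, 7, 8)]

def pawsB : List (Fin 10 × Fin 10 × Fin 10 × Fin 10) :=
  [(0, 1, 3, 5), (0, 1, 6, 2), (0, 1, 6, 5), (0, 2, 3, 6), (0, 2, 5, 1), (0, 2, 5, 6), (0, 2, 8,
  1), (0, 5, 8, 1), (1, 0, 3, 7), (1, 6, 7, 3), (1, 7, 9, 0), (2, 0, 5, 9), (2, 3, 9, 5), (3, 0,
  1, 4), (3, 0, 2, 4), (3, 1, 9, 4), (3, 2, 8, 1), (3, 2, 9, 4), (3, 4, 8, 1), (4, 5, 7, 3), (5,
  0, 2, 4), (5, 0, 2, 7), (5, 4, 7, 0), (5, 4, 7, 2), (6, 7, 9, 0), (7, 1, 6, 4), (7, 1, 6, 5),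
  (7, 1, 9, 4), (7, 1, 9, 5), (7, 4, 5, 1), (7, 4, 5, 6), (7, 4, 5, 9), (7, 4, 8, 1), (7, 5, 8,
  1), (7, 6, 9, 4), (7, 6, 9, 5), (8, 0, 2, 4), (8, 0, 2, 7), (8, 0, 3, 7), (8, 0, 5, 9), (8, 0,
  6, 4), (8, 2, 3, 6), (8, 2, 3, 7), (8, 2, 5, 6), (8, 2, 9, 4), (8, 3, 4, 6), (8, 3, 9, 5), (8,
  4, 5, 6), (8, 4, 5, 9), (8, 4, 7, 0), (8, 4, 7, 2), (8, 5, 7, 3), (8, 6, 7, 2), (8, 6, 7, 3),
  (8, 6, 9, 4), (8, 6, 9, 5), (8, 7, 9, 0), (9, 1, 6, 2), (9, 1, 7, 2), (9, 2, 3, 6), (9, 2, 3,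
  7), (9, 2, 8, 1), (9, 6, 7, 2), (9, 6, 7, 3)]

def pathsB : List (Fin 10 × Fin 10 × Fin 10 × Fin 10) :=
  [(0, 1, 7, 4), (0, 2, 9, 7), (0, 3, 4, 7), (0, 3, 9, 7), (0, 5, 7, 9), (0, 6, 7, 4), (1, 0, 5,
  4), (1, 0, 8, 4), (1, 3, 2, 5), (1, 3, 4, 5), (1, 3, 8, 5), (1, 6, 8, 2), (1, 6, 8, 4), (1, 6,
  8, 5), (1, 7, 5, 2), (1, 7, 8, 2), (1, 9, 2, 5), (1, 9, 8, 4), (1, 9, 8, 5), (2, 0, 1, 7), (2,
  0, 6, 7), (2, 3, 1, 6), (2, 3, 1, 7), (2, 3, 4, 7), (2, 5, 7, 6), (2, 9, 7, 4), (3, 0, 5, 7),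
  (3, 0, 6, 7), (3, 1, 7, 5), (3, 2, 5, 7), (3, 4, 7, 6), (3, 9, 7, 5), (4, 3, 0, 6), (4, 3, 1,
  6), (4, 3, 9, 6), (4, 5, 0, 6), (4, 5, 2, 9), (5, 0, 1, 9), (5, 0, 3, 9), (5, 0, 6, 9), (5, 2,
  9, 6), (5, 4, 3, 9)]

def chkA (s : Fin 9 → Bool) : Bool :=
  (pawsA.any fun q => s q.1 && s q.2.1 && s q.2.2.1 && s q.2.2.2 &&
    isPaw (ea q.1) (ea q.2.1) (ea q.2.2.1) (ea q.2.2.2)) ||
  (trisA.any fun q => !s q.1 && !s q.2.1 && !s q.2.2 &&
    adjB (ea q.1) (ea q.2.1) && adjB (ea q.1) (ea q.2.2) && adjB (ea q.2.1) (ea q.2.2))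

def chkB (s : Fin 10 → Bool) : Bool :=
  (pawsB.any fun q => s q.1 && s q.2.1 && s q.2.2.1 && s q.2.2.2 &&
    isPaw (eb q.1) (eb q.2.1) (eb q.2.2.1) (eb q.2.2.2)) ||
  (pawsB.any fun q => !s q.1 && !s q.2.1 && !s q.2.2.1 && !s q.2.2.2 &&
    isPaw (eb q.1) (eb q.2.1) (eb q.2.2.1) (eb q.2.2.2)) ||
  (pathsB.any fun q => !s q.1 && !s q.2.1 && !s q.2.2.1 && !s q.2.2.2 &&
    isP4 (eb q.1) (eb q.2.1) (eb q.2.2.1) (eb q.2.2.2))

theorem chkA' : ∀ b0 b1 b2 b3 b4 b5 b6 b7 b8 : Bool,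
    chkA (fun i => [b0, b1, b2, b3, b4, b5, b6, b7, b8].getD i.val false) = true := by decide +kernel

theorem chkB' : ∀ b0 b1 b2 b3 b4 b5 b6 b7 b8 b9 : Bool,
    chkB (fun i => [b0, b1, b2, b3, b4, b5, b6, b7, b8, b9].getD i.val false) = true := by decide +kernel

theorem chkA_all (s : Fin 9 → Bool) : chkA s = true := by
  have : s = fun i => [s 0, s 1, s 2, s 3, s 4, s 5, s 6, s 7, s 8].getD i.val false := by
    funext i; fin_cases i <;> rfl
  rw [this]; exact chkA' _ _ _ _ _ _ _ _ _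

theorem chkB_all (s : Fin 10 → Bool) : chkB s = true := by
  have : s = fun i =>
      [s 0, s 1, s 2, s 3, s 4, s 5, s 6, s 7, s 8, s 9].getD i.val false := by
    funext i; fin_cases i <;> rfl
  rw [this]; exact chkB' _ _ _ _ _ _ _ _ _ _

theorem col_ok : ∀ a b : Fin 19, adjB a b = true → col a = col b → ∀ c : Fin 19,
    adjB a c = true → adjB b c = true → col a = col c → ∀ d : Fin 19, adjB a d = true →
    col a = col d → adjB b d = true ∨ adjB c d = true := by decide +kernel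

theorem par : ∀ v : Fin 19, v ≠ 0 → ∃ u : Fin 19, u < v ∧ adjB u v = true := by decide +kernel

theorem pawEmb {V : Type} (H : SimpleGraph V) {a b c d : V} (hab : H.Adj a b) (hac : H.Adj a c)
    (hbc : H.Adj b c) (had : H.Adj a d) (hbd : ¬ H.Adj b d) (hcd : ¬ H.Adj c d) :
    ∃ f : paw ↪g H, ∀ v, f v = a ∨ f v = b ∨ f v = c ∨ f v = d := by
  have n1 := hab.ne
  have n2 := hac.ne
  have n3 := hbc.ne
  have n4 := had.ne
  have n5 : b ≠ d := fun h => hcd (h ▸ hbc.symm)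
  have n6 : c ≠ d := fun h => hbd (h ▸ hbc)
  have hdb : ¬ H.Adj d b := fun h => hbd h.symm
  have hdc : ¬ H.Adj d c := fun h => hcd h.symm
  refine ⟨⟨⟨![a, b, c, d], ?_⟩, ?_⟩, fun v => ?_⟩
  · intro i j h
    fin_cases i <;> fin_cases j <;> simp_all [eq_comm]
  · intro i j
    show H.Adj (![a, b, c, d] i) (![a, b, c, d] j) ↔ pawB i j = true
    fin_cases i <;> fin_cases j <;>
      simp [pawB, hab, hac, hbc, had, hbd, hcd, hdb, hdc, hab.symm, hac.symm, hbc.symm,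
        had.symm] <;> decide
  · show ![a, b, c, d] v = a ∨ ![a, b, c, d] v = b ∨ ![a, b, c, d] v = c ∨ ![a, b, c, d] v = d
    fin_cases v <;> simp

theorem not_rel : ¬ Rel 3 paw G := by
  classical
  rintro ⟨V, -, H, h1, h2⟩
  have hne : ({k | Free paw H k} : Set ℕ).Nonempty := by
    by_contra h0
    rw [Set.not_nonempty_iff_eq_empty] at h0
    unfold chi at h1
    rw [h0, Nat.sInf_empty] at h1
    omega
  have hm := Nat.sInf_mem hne
  unfold chi at h1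
  rw [h1] at hm
  obtain ⟨c, hc⟩ := hm
  have np : ∀ (i : Fin 3) {a b x d : V}, c a = i → c b = i → c x = i → c d = i → H.Adj a b →
      H.Adj a x → H.Adj b x → H.Adj a d → ¬ H.Adj b d → ¬ H.Adj x d → False := by
    intro i a b x d e1 e2 e3 e4 p1 p2 p3 p4 p5 p6
    obtain ⟨f, hf⟩ := pawEmb H p1 p2 p3 p4 p5 p6
    exact hc f i fun v => by rcases hf v with h | h | h | h <;> rw [h] <;> assumption
  let T : V → Prop := fun v => ∃ x y, c x = 2 ∧ c y = 2 ∧ H.Adj v x ∧ H.Adj v y ∧ H.Adj x y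
  have three : ∀ i : Fin 3, i ≠ 0 → i ≠ 1 → i = 2 := by decide
  have hF : Free G H 2 := by
    refine ⟨fun v => if c v = 0 then 0 else if c v = 1 then 1 else if T v then 1 else 0,
      fun f i hi => ?_⟩
    have ad : ∀ u v, adjB u v = true → H.Adj (f u) (f v) := fun u v h => f.map_rel_iff.2 h
    have nd : ∀ u v, adjB u v = false → ¬ H.Adj (f u) (f v) := fun u v h h' => by
      have : adjB u v = true := f.map_rel_iff.1 h'
      rw [h] at this; exact Bool.false_ne_true this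
    fin_cases i
    · have key : ∀ v, ¬ c (f v) = 0 → c (f v) = 2 ∧ ¬ T (f v) := fun v h0 => by
        have := hi v
        simp only [h0, if_false] at this
        by_cases g1 : c (f v) = 1
        · simp [g1] at this
        · refine ⟨three _ h0 g1, fun ht => ?_⟩
          simp [g1, ht] at this
      have := chkA_all fun i => decide (c (f (ea i)) = 0)
      simp only [chkA, isPaw, Bool.or_eq_true, List.any_eq_true, Bool.and_eq_true,
        decide_eq_true_eq, Bool.not_eq_eq_eq_not, Bool.not_true, decide_eq_false_iff_not] at this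
      rcases this with ⟨q, -, ⟨⟨⟨e1, e2⟩, e3⟩, e4⟩, ⟨⟨⟨⟨p1, p2⟩, p3⟩, p4⟩, p5⟩, p6⟩ |
        ⟨q, -, ⟨⟨⟨⟨e1, e2⟩, e3⟩, p1⟩, p2⟩, p3⟩
      · exact np 0 e1 e2 e3 e4 (ad _ _ p1) (ad _ _ p2) (ad _ _ p3) (ad _ _ p4) (nd _ _ p5)
          (nd _ _ p6)
      · exact (key _ e1).2 ⟨_, _, (key _ e2).1, (key _ e3).1, ad _ _ p1, ad _ _ p2, ad _ _ p3⟩
    · have key : ∀ v, ¬ c (f v) = 1 → c (f v) = 2 ∧ T (f v) := fun v g1 => by
        have := hi v
        by_cases h0 : c (f v) = 0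
        · simp [h0] at this
        · refine ⟨three _ h0 g1, ?_⟩
          by_contra ht
          simp [h0, g1, ht] at this
      have := chkB_all fun i => decide (c (f (eb i)) = 1)
      simp only [chkB, isPaw, isP4, Bool.or_eq_true, List.any_eq_true, Bool.and_eq_true,
        decide_eq_true_eq, Bool.not_eq_eq_eq_not, Bool.not_true, decide_eq_false_iff_not] at this
      rcases this with (⟨q, -, ⟨⟨⟨e1, e2⟩, e3⟩, e4⟩, ⟨⟨⟨⟨p1, p2⟩, p3⟩, p4⟩, p5⟩, p6⟩ |
        ⟨q, -, ⟨⟨⟨e1, e2⟩, e3⟩, e4⟩, ⟨⟨⟨⟨p1, p2⟩, p3⟩, p4⟩, p5⟩, p6⟩) |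
        ⟨q, -, ⟨⟨⟨e1, e2⟩, e3⟩, e4⟩, ⟨⟨⟨⟨p1, p2⟩, p3⟩, p4⟩, p5⟩, p6⟩
      · exact np 1 e1 e2 e3 e4 (ad _ _ p1) (ad _ _ p2) (ad _ _ p3) (ad _ _ p4) (nd _ _ p5)
          (nd _ _ p6)
      · exact np 2 (key _ e1).1 (key _ e2).1 (key _ e3).1 (key _ e4).1 (ad _ _ p1) (ad _ _ p2)
          (ad _ _ p3) (ad _ _ p4) (nd _ _ p5) (nd _ _ p6)
      · obtain ⟨ca, x, y, cx, cy, ax, ay, xy⟩ := key _ e1
        have cb := (key _ e2).1
        have cc := (key _ e3).1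
        have cd := (key _ e4).1
        have ab := ad _ _ p1
        have bc := ad _ _ p2
        have cd' := ad _ _ p3
        have ac := nd _ _ p4
        have ad' := nd _ _ p5
        have bd := nd _ _ p6
        have fin : ∀ z, c z = 2 → H.Adj (f (eb q.1)) z → H.Adj (f (eb q.2.1)) z → False := by
          intro z cz az bz
          have zc : H.Adj z (f (eb q.2.2.1)) := by
            by_contra h
            exact np 2 cb ca cz cc ab.symm bz az bc ac h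
          have zd : H.Adj z (f (eb q.2.2.2)) := by
            by_contra h
            exact np 2 cc cb cz cd bc.symm zc.symm bz cd' bd h
          exact np 2 cz cc cd ca zc zd cd' az.symm (fun h => ac h.symm) (fun h => ad' h.symm)
        by_cases bx : H.Adj (f (eb q.2.1)) x
        · exact fin x cx ax bx
        by_cases by' : H.Adj (f (eb q.2.1)) y
        · exact fin y cy ay by'
        exact np 2 ca cx cy cb ax ay xy ab (fun h => bx h.symm) (fun h => by' h.symm)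
  have : chi G H ≤ 2 := Nat.sInf_le hF
  omega

theorem chi_two {α V : Type} {F : SimpleGraph α} {H : SimpleGraph V} [Nonempty V]
    (h2 : Free F H 2) (f : F ↪g H) : chi F H = 2 := by
  refine le_antisymm (Nat.sInf_le h2) (le_csInf ⟨2, h2⟩ ?_)
  rintro k ⟨c, hc⟩
  by_contra hk
  have : k = 0 ∨ k = 1 := by omega
  rcases this with rfl | rfl
  · exact (c (Classical.arbitrary V)).elim0
  · exact hc f 0 fun v => Subsingleton.elim _ _

theorem free_paw_G : Free paw G 2 := by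
  refine ⟨col, fun f i hi => ?_⟩
  have a : ∀ u v, pawB u v = true → adjB (f u) (f v) = true := fun u v h => f.map_rel_iff.2 h
  have n : ∀ u v, adjB (f u) (f v) = true → pawB u v = true := fun u v h => f.map_rel_iff.1 h
  rcases col_ok (f 0) (f 1) (a _ _ (by decide)) (by rw [hi, hi]) (f 2) (a _ _ (by decide))
    (a _ _ (by decide)) (by rw [hi, hi]) (f 3) (a _ _ (by decide)) (by rw [hi, hi]) with h | h
  · exact absurd (n _ _ h) (by decide)
  · exact absurd (n _ _ h) (by decide)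

theorem rel_two : Rel 2 paw G := by
  refine ⟨Fin 19, inferInstance, G, ?_, chi_two ?_ (RelEmbedding.refl _)⟩
  · obtain ⟨f, -⟩ := pawEmb G (a := 0) (b := 1) (c := 5) (d := 4)
      (show adjB _ _ = true by decide) (show adjB _ _ = true by decide)
      (show adjB _ _ = true by decide) (show adjB _ _ = true by decide)
      (show ¬ adjB _ _ = true by decide) (show ¬ adjB _ _ = true by decide)
    exact chi_two free_paw_G f
  · refine ⟨col, fun f i hi => ?_⟩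
    have hs : Function.Surjective f := Finite.injective_iff_surjective.1 f.injective
    obtain ⟨u, hu⟩ := hs 0
    obtain ⟨v, hv⟩ := hs 9
    have h1 := hi u
    have h2 := hi v
    rw [hu] at h1
    rw [hv, ← h1] at h2
    exact absurd h2 (by decide)

theorem chi_G_paw : chi G paw ≤ 2 := by
  refine Nat.sInf_le ⟨fun _ => 0, fun f => ?_⟩
  have := Fintype.card_le_of_injective f f.injective
  simp at this

theorem G_conn : G.Connected := by
  have : ∀ n : ℕ, ∀ v : Fin 19, v.val = n → G.Reachable 0 v := by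
    intro n
    induction n using Nat.strong_induction_on with
    | _ n ih =>
      intro v hv
      by_cases h0 : v = 0
      · rw [h0]
      · obtain ⟨u, hu, huv⟩ := par v h0
        exact (ih u.val (hv ▸ hu) u rfl).trans (Adj.reachable huv)
  exact ⟨fun u v => (this _ u rfl).symm.trans (this _ v rfl)⟩

theorem paw_conn : paw.Connected := by
  have : ∀ v : Fin 4, paw.Reachable 0 v := fun v => by
    by_cases h0 : v = 0
    · rw [h0]
    · exact Adj.reachable (show pawB 0 v = true by revert v; decide)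
  exact ⟨fun u v => (this u).symm.trans (this v)⟩

end Pool.Agent.H22.Paw
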