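import Mathlib

set_option autoImplicit false
open MeasureTheory ProbabilityTheory Set

namespace Pool.Agent.H22.Perc
noncomputable section

/-! Independence of events on disjoint sets of coordinates. -/
lemma ind {ι : Type} (ν : Measure Bool) [IsProbabilityMeasure ν] {S T : Set ι} (h : Disjoint S T)
    {A B : Set (ι → Bool)} (hA : MeasurableSet[cylinderEvents S] A)
    (hB : MeasurableSet[cylinderEvents T] B) :
    Measure.infinitePi (fun _ : ι => ν) (A ∩ B)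
      = Measure.infinitePi (fun _ : ι => ν) A * Measure.infinitePi (fun _ : ι => ν) B := by
  have h1 : iIndepFun (fun (i : ι) (ω : ι → Bool) => ω i) (Measure.infinitePi (fun _ : ι => ν)) :=
    iIndepFun_infinitePi (X := fun _ x => x) (fun _ => measurable_id)
  have h2 := indep_iSup_of_disjoint (fun i => (measurable_pi_apply i).comap_le) h1.iIndep h
  exact (Indep_iff _ _ _).1 h2 A B hA hB

/-! Block renormalisation on the quadrant. -/
abbrev E := Fin 3 × ℕ × ℕ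
abbrev K := Fin 3 × Fin 4 × Fin 4

def ty (c : K) : Fin 3 :=
  if c.1 = 1 ∧ c.2.1 = 3 then 1 else if c.1 = 2 ∧ c.2.2 = 3 then 2 else 0

def ch (a b : ℕ) (c : K) : E := (c.1, 4 * a + c.2.1, 4 * b + c.2.2)

def par (e : E) : E :=
  (ty (e.1, ⟨e.2.1 % 4, Nat.mod_lt _ (by norm_num)⟩, ⟨e.2.2 % 4, Nat.mod_lt _ (by norm_num)⟩),
    e.2.1 / 4, e.2.2 / 4)

lemma par_ch (a b : ℕ) (c : K) : par (ch a b c) = (ty c, a, b) := by
  obtain ⟨t, i, j⟩ := c
  have hi := i.2
  have hj := j.2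
  have e1 : (4 * a + i) % 4 = i := by omega
  have e2 : (4 * b + j) % 4 = j := by omega
  have e3 : (4 * a + i) / 4 = a := by omega
  have e4 : (4 * b + j) / 4 = b := by omega
  simp only [par, ch, e1, e2, e3, e4]

lemma ch_inj (a b : ℕ) : Function.Injective (ch a b) := by
  rintro ⟨t, i, j⟩ ⟨t', i', j'⟩ h
  simp only [ch, Prod.mk.injEq] at h
  obtain ⟨h1, h2, h3⟩ := h
  simp only [Prod.mk.injEq]
  exact ⟨h1, Fin.ext (by omega), Fin.ext (by omega)⟩

variable {Ω : Type}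

def bad (B : E → Set Ω) : ℕ → E → Set Ω
  | 0, e => B e
  | k + 1, e => ⋃ (q : K × K) (_ : q.1 ≠ q.2 ∧ ty q.1 = e.1 ∧ ty q.2 = e.1),
      bad B k (ch e.2.1 e.2.2 q.1) ∩ bad B k (ch e.2.1 e.2.2 q.2)

def reg {ι : Type} (D : E → Set ι) (k : ℕ) (e : E) : Set ι := ⋃ (z : E) (_ : par^[k] z = e), D z

lemma reg_sub {ι : Type} (D : E → Set ι) (k : ℕ) (e : E) (c : K) (h : ty c = e.1) :
    reg D k (ch e.2.1 e.2.2 c) ⊆ reg D (k + 1) e := by
  intro x hx
  simp only [reg, mem_iUnion] at hx ⊢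
  obtain ⟨z, hz, hx⟩ := hx
  refine ⟨z, ?_, hx⟩
  rw [Function.iterate_succ_apply', hz, par_ch, h]

lemma reg_disj {ι : Type} (D : E → Set ι) (hD : Pairwise (Function.onFun Disjoint D)) (k : ℕ)
    {e e' : E} (h : e ≠ e') : Disjoint (reg D k e) (reg D k e') := by
  simp only [reg, disjoint_iUnion_left, disjoint_iUnion_right]
  intro z hz z' hz'
  refine hD ?_
  rintro rfl
  exact h (hz'.symm.trans hz)

lemma bad_meas {ι : Type} (D : E → Set ι) (B : E → Set (ι → Bool))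
    (hB : ∀ e, MeasurableSet[cylinderEvents (D e)] (B e)) (k : ℕ) (e : E) :
    MeasurableSet[cylinderEvents (reg D k e)] (bad B k e) := by
  induction k generalizing e with
  | zero =>
    refine cylinderEvents_mono ?_ _ (hB e)
    intro x hx
    simp only [reg, mem_iUnion]
    exact ⟨e, rfl, hx⟩
  | succ k ih =>
    unfold bad
    refine MeasurableSet.iUnion fun q => MeasurableSet.iUnion fun hq => MeasurableSet.inter ?_ ?_
    · exact cylinderEvents_mono (reg_sub D k e _ hq.2.1) _ (ih _)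
    · exact cylinderEvents_mono (reg_sub D k e _ hq.2.2) _ (ih _)

lemma bad_le {ι : Type} (ν : Measure Bool) [IsProbabilityMeasure ν] (D : E → Set ι)
    (hD : Pairwise (Function.onFun Disjoint D)) (B : E → Set (ι → Bool))
    (hB : ∀ e, MeasurableSet[cylinderEvents (D e)] (B e))
    (h0 : ∀ e, Measure.infinitePi (fun _ : ι => ν) (B e) ≤ 2304⁻¹ * 2⁻¹) (k : ℕ) (e : E) :
    Measure.infinitePi (fun _ : ι => ν) (bad B k e) ≤ 2304⁻¹ * 2⁻¹ ^ (k + 1) := by
  induction k generalizing e with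
  | zero => simpa [bad] using h0 e
  | succ k ih =>
    unfold bad
    refine (measure_iUnion_fintype_le _ _).trans ?_
    have h1 : ∀ q : K × K, Measure.infinitePi (fun _ : ι => ν)
        (⋃ (_ : q.1 ≠ q.2 ∧ ty q.1 = e.1 ∧ ty q.2 = e.1),
          bad B k (ch e.2.1 e.2.2 q.1) ∩ bad B k (ch e.2.1 e.2.2 q.2))
        ≤ (2304⁻¹ * 2⁻¹ ^ (k + 1)) * (2304⁻¹ * 2⁻¹ ^ (k + 1)) := by
      intro q
      classical
      by_cases hq : q.1 ≠ q.2 ∧ ty q.1 = e.1 ∧ ty q.2 = e.1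
      · rw [iUnion_eq_if, if_pos hq, ind ν (reg_disj D hD k (fun h => hq.1 (ch_inj _ _ h))) (bad_meas D B hB k _)
          (bad_meas D B hB k _)]
        exact mul_le_mul' (ih _) (ih _)
      · rw [iUnion_eq_if, if_neg hq]; simp
    refine (Finset.sum_le_sum fun q _ => h1 q).trans ?_
    rw [Finset.sum_const, Finset.card_univ]
    have : Fintype.card (K × K) = 2304 := by simp
    rw [this, nsmul_eq_mul, mul_mul_mul_comm, ← pow_add, ← mul_assoc, ← mul_assoc, Nat.cast_ofNat,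
      ENNReal.mul_inv_cancel (by simp) (by simp), one_mul]
    exact mul_le_mul' le_rfl (pow_le_pow_of_le_one (by simp) (by simp) (by omega))

lemma bad_union_le {ι : Type} (ν : Measure Bool) [IsProbabilityMeasure ν] (D : E → Set ι)
    (hD : Pairwise (Function.onFun Disjoint D)) (B : E → Set (ι → Bool))
    (hB : ∀ e, MeasurableSet[cylinderEvents (D e)] (B e))
    (h0 : ∀ e, Measure.infinitePi (fun _ : ι => ν) (B e) ≤ 2304⁻¹ * 2⁻¹) (e : E) :
    Measure.infinitePi (fun _ : ι => ν) (⋃ k, bad B k e) ≤ 2304⁻¹ := by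
  refine (measure_iUnion_le _).trans ?_
  refine (ENNReal.tsum_le_tsum fun k => bad_le ν D hD B hB h0 k e).trans ?_
  rw [ENNReal.tsum_mul_left, ENNReal.tsum_geometric_add_one]
  simp only [ENNReal.one_sub_inv_two, inv_inv]
  rw [ENNReal.inv_mul_cancel (by simp) (by simp), mul_one]

/-! The deterministic part. -/
lemma one_bad (B : E → Set Ω) (ω : Ω) (k : ℕ) (t : Fin 3) (a b : ℕ)
    (h : ω ∉ bad B (k + 1) (t, a, b)) :
    ∃ β : K, ∀ c : K, ty c = t → c ≠ β → ω ∉ bad B k (ch a b c) := by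
  by_cases hh : ∃ β : K, ty β = t ∧ ω ∈ bad B k (ch a b β)
  · obtain ⟨β, h1, h2⟩ := hh
    refine ⟨β, fun c hc hne hb => h ?_⟩
    simp only [bad, mem_iUnion]
    exact ⟨(c, β), ⟨hne, hc, h1⟩, hb, h2⟩
  · exact ⟨(0, 0, 0), fun c hc _ hb => hh ⟨c, hc, hb⟩⟩

abbrev S4 := Fin 4 × Fin 4

def adj (β : K) (c d : S4) : Prop :=
  (0, c) ≠ β ∧ (0, d) ≠ β ∧
    (((d.1 : ℕ) = c.1 + 1 ∧ d.2 = c.2 ∧ (1, c) ≠ β) ∨ ((d.2 : ℕ) = c.2 + 1 ∧ d.1 = c.1 ∧ (2, c) ≠ β))

instance (β : K) (c d : S4) : Decidable (adj β c d) := by unfold adj; infer_instance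

def grow (β : K) (s : Finset S4) : Finset S4 :=
  Finset.univ.filter (fun d => d ∈ s ∨ ∃ c ∈ s, adj β c d ∨ adj β d c)

def base (β : K) : S4 := if β = (0, 0, 0) then (1, 0) else (0, 0)

lemma grow_all : ∀ β : K, ∀ d : S4, (0, d) ≠ β → d ∈ (grow β)^[7] {base β} := by
  decide +kernel

lemma grid (β : K) (ρ : S4 → S4 → Prop) (hρ : Equivalence ρ) (h : ∀ c d, adj β c d → ρ c d)
    (c d : S4) (hc : (0, c) ≠ β) (hd : (0, d) ≠ β) : ρ c d := by
  have : ∀ n, ∀ d ∈ (grow β)^[n] {base β}, ρ (base β) d := by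
    intro n
    induction n with
    | zero => intro d hd; simp at hd; rw [hd]; exact hρ.refl _
    | succ n ih =>
      intro d hd
      rw [Function.iterate_succ_apply', grow, Finset.mem_filter] at hd
      rcases hd.2 with h1 | ⟨c, h1, h2 | h2⟩
      · exact ih d h1
      · exact hρ.trans (ih c h1) (h c d h2)
      · exact hρ.trans (ih c h1) (hρ.symm (h d c h2))
  exact hρ.trans (hρ.symm (this 7 c (grow_all β c hc))) (this 7 d (grow_all β d hd))

open Classical in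
def rep (B : E → Set Ω) (ω : Ω) : ℕ → ℕ → ℕ → ℕ × ℕ
  | 0, a, b => (a, b)
  | k + 1, a, b => if ω ∉ bad B k (0, 4 * a, 4 * b) then rep B ω k (4 * a) (4 * b)
      else rep B ω k (4 * a + 1) (4 * b)

lemma rep_ge (B : E → Set Ω) (ω : Ω) (k a b : ℕ) : 4 ^ k * a ≤ (rep B ω k a b).1 := by
  induction k generalizing a b with
  | zero => simp [rep]
  | succ k ih =>
    unfold rep
    split_ifs
    · refine le_trans ?_ (ih _ _); rw [pow_succ]; nlinarith [Nat.zero_le (4 ^ k)]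
    · refine le_trans ?_ (ih _ _); rw [pow_succ]; nlinarith [Nat.zero_le (4 ^ k)]

def Link (B : E → Set Ω) (ω : Ω) (R : ℕ × ℕ → ℕ × ℕ → Prop) (k : ℕ) : Prop :=
  (∀ a b, ω ∉ bad B k (0, a, b) → ω ∉ bad B k (0, a + 1, b) → ω ∉ bad B k (1, a, b) →
    R (rep B ω k a b) (rep B ω k (a + 1) b)) ∧
  (∀ a b, ω ∉ bad B k (0, a, b) → ω ∉ bad B k (0, a, b + 1) → ω ∉ bad B k (2, a, b) →
    R (rep B ω k a b) (rep B ω k a (b + 1)))

lemma ty0 (c : S4) : ty (0, c) = 0 := by revert c; decide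

lemma inner (B : E → Set Ω) (ω : Ω) (R : ℕ × ℕ → ℕ × ℕ → Prop) (hR : Equivalence R) (k : ℕ)
    (hL : Link B ω R k) (a b : ℕ) (h : ω ∉ bad B (k + 1) (0, a, b)) (c : S4)
    (hc : ω ∉ bad B k (0, 4 * a + c.1, 4 * b + c.2)) :
    R (rep B ω (k + 1) a b) (rep B ω k (4 * a + c.1) (4 * b + c.2)) := by
  have hex : ∃ β : K, (∀ c : K, ty c = 0 → c ≠ β → ω ∉ bad B k (ch a b c)) ∧
      ∀ d : S4, ω ∉ bad B k (0, 4 * a + d.1, 4 * b + d.2) → (0, d) ≠ β := by
    obtain ⟨β, hβ⟩ := one_bad B ω k 0 a b h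
    by_cases hb : ω ∈ bad B k (ch a b β)
    · refine ⟨β, hβ, ?_⟩
      rintro d hd rfl
      exact hd hb
    · refine ⟨(1, 3, 0), fun c h1 _ => ?_, fun d _ => by simp⟩
      by_cases h2 : c = β
      · rw [h2]; exact hb
      · exact hβ c h1 h2
  obtain ⟨β, hβ, hβ'⟩ := hex
  have key := grid β (fun c d => R (rep B ω k (4 * a + c.1) (4 * b + c.2))
      (rep B ω k (4 * a + d.1) (4 * b + d.2)))
    ⟨fun _ => hR.refl _, fun h => hR.symm h, fun h h' => hR.trans h h'⟩ (by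
      rintro c d ⟨h1, h2, ⟨h3, h4, h5⟩ | ⟨h3, h4, h5⟩⟩
      · have g1 := hβ (0, c) (ty0 c) h1
        have g2 := hβ (0, d) (ty0 d) h2
        have t1 : ty (1, c) = 0 := by
          have : c.1 ≠ 3 := by
            intro h6; have := d.1.2; rw [h3, h6] at this; simp at this
          simp [ty, this]
        have g3 := hβ (1, c) t1 h5
        simp only [ch, h3, h4] at g1 g2 g3 ⊢
        exact hL.1 _ _ g1 g2 g3
      · have g1 := hβ (0, c) (ty0 c) h1
        have g2 := hβ (0, d) (ty0 d) h2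
        have t1 : ty (2, c) = 0 := by
          have : c.2 ≠ 3 := by
            intro h6; have := d.2.2; rw [h3, h6] at this; simp at this
          simp [ty, this]
        have g3 := hβ (2, c) t1 h5
        simp only [ch, h3, h4] at g1 g2 g3 ⊢
        exact hL.2 _ _ g1 g2 g3)
  rw [rep]
  split_ifs with h0
  · have e1 : β = (0, 0, 0) := by
      by_contra hne
      exact hβ (0, 0, 0) (by decide) (Ne.symm hne) (by simpa [ch] using h0)
    exact key (1, 0) c (by rw [e1]; decide) (hβ' c hc)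
  · exact key (0, 0) c (hβ' (0, 0) (by simpa using h0)) (hβ' c hc)

lemma avoid3 : ∀ x y z : Fin 4, ∃ j : Fin 4, j ≠ x ∧ j ≠ y ∧ j ≠ z := by decide

lemma link (B : E → Set Ω) (ω : Ω) (R : ℕ × ℕ → ℕ × ℕ → Prop) (hR : Equivalence R)
    (h0 : Link B ω R 0) (k : ℕ) : Link B ω R k := by
  induction k with
  | zero => exact h0
  | succ k ih =>
    constructor
    · intro a b h1 h2 h3
      obtain ⟨β1, g1⟩ := one_bad B ω k 0 a b h1
      obtain ⟨β2, g2⟩ := one_bad B ω k 0 (a + 1) b h2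
      obtain ⟨β3, g3⟩ := one_bad B ω k 1 a b h3
      obtain ⟨j, j1, j2, j3⟩ := avoid3 β1.2.2 β2.2.2 β3.2.2
      have a1 := g1 (0, 3, j) (ty0 _) (fun h => j1 (by rw [← h]))
      have a2 := g2 (0, 0, j) (ty0 _) (fun h => j2 (by rw [← h]))
      have a3 := g3 (1, 3, j) (by simp [ty]) (fun h => j3 (by rw [← h]))
      have b1 := inner B ω R hR k ih a b h1 (3, j) a1
      have b2 := inner B ω R hR k ih (a + 1) b h2 (0, j) a2
      exact hR.trans b1 (hR.trans (ih.1 _ _ a1 a2 a3) (hR.symm b2))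
    · intro a b h1 h2 h3
      obtain ⟨β1, g1⟩ := one_bad B ω k 0 a b h1
      obtain ⟨β2, g2⟩ := one_bad B ω k 0 a (b + 1) h2
      obtain ⟨β3, g3⟩ := one_bad B ω k 2 a b h3
      obtain ⟨j, j1, j2, j3⟩ := avoid3 β1.2.1 β2.2.1 β3.2.1
      have a1 := g1 (0, j, 3) (ty0 _) (fun h => j1 (by rw [← h]))
      have a2 := g2 (0, j, 0) (ty0 _) (fun h => j2 (by rw [← h]))
      have a3 := g3 (2, j, 3) (by simp [ty]) (fun h => j3 (by rw [← h]))
      have b1 := inner B ω R hR k ih a b h1 (j, 3) a1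
      have b2 := inner B ω R hR k ih a (b + 1) h2 (j, 0) a2
      exact hR.trans b1 (hR.trans (ih.2 _ _ a1 a2 a3) (hR.symm b2))

lemma far (B : E → Set Ω) (ω : Ω) (R : ℕ × ℕ → ℕ × ℕ → Prop) (hR : Equivalence R)
    (h1 : ∀ a b, ω ∉ B (1, a, b) → R (a, b) (a + 1, b))
    (h2 : ∀ a b, ω ∉ B (2, a, b) → R (a, b) (a, b + 1))
    (g0 : ω ∉ ⋃ k, bad B k (0, 0, 0)) (g1 : ω ∉ ⋃ k, bad B k (0, 1, 0)) (n : ℕ) :
    ∃ z : ℕ × ℕ, n ≤ z.1 ∧ R (0, 0) z := by
  simp only [mem_iUnion, not_exists] at g0 g1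
  have hL := link B ω R hR ⟨fun a b _ _ h => h1 a b h, fun a b _ _ h => h2 a b h⟩
  have h3 : ∀ k, R (0, 0) (rep B ω k 0 0) := by
    intro k
    induction k with
    | zero => exact hR.refl _
    | succ k ih => exact hR.trans ih (hR.symm (inner B ω R hR k (hL k) 0 0 (g0 _) (0, 0) (g0 _)))
  refine ⟨rep B ω n 1 0, ?_, hR.trans (h3 (n + 1)) (inner B ω R hR n (hL n) 0 0 (g0 _) (1, 0) (g1 _))⟩
  refine le_trans ?_ (rep_ge B ω n 1 0)
  rw [mul_one]
  exact (Nat.lt_pow_self (by norm_num)).le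

end
end Pool.Agent.H22.Perc
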