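import Mathlib
import Pool.Agent.H22.Perc1

set_option autoImplicit false
open MeasureTheory ProbabilityTheory Set

namespace Pool.Agent.H22.Perc
noncomputable section

abbrev Z2 := ℤ × ℤ
abbrev V (M : ℕ) := Z2 × Option (Bool × Fin M)

def hd (u : Z2) (d : Bool) : Z2 :=
  if 0 ≤ u.1 ∧ 0 ≤ u.2 then (if d then (u.1 + 1, u.2) else (u.1, u.2 + 1))
  else if u.1 ≤ -2 ∧ u.2 ≤ -2 then (if d then (u.1 - 1, u.2) else (u.1, u.2 - 1)) else u

def rel (M : ℕ) (x y : V M) : Prop :=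
  y.2 = none ∧ ((x.2 = none ∧ (y.1 = (x.1.1 + 1, x.1.2) ∨ y.1 = (x.1.1, x.1.2 + 1))) ∨
    ∃ m, x.2 = some m ∧ (y.1 = x.1 ∨ y.1 = hd x.1 m.1))

def G (M : ℕ) : SimpleGraph (V M) := SimpleGraph.fromRel (rel M)

def l1 (u v : Z2) : ℤ := |u.1 - v.1| + |u.2 - v.2|

lemma l1_comm (u v : Z2) : l1 u v = l1 v u := by
  unfold l1; rw [abs_sub_comm u.1, abs_sub_comm u.2]

lemma l1_tri (u v w : Z2) : l1 u w ≤ l1 u v + l1 v w := by
  unfold l1
  have := abs_sub_le u.1 v.1 w.1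
  have := abs_sub_le u.2 v.2 w.2
  linarith

lemma l1_hd (u : Z2) (d : Bool) : l1 u (hd u d) ≤ 1 := by
  unfold hd l1
  split_ifs <;> simp

lemma rel_l1 {M : ℕ} {x y : V M} (h : rel M x y) : l1 x.1 y.1 ≤ 1 := by
  obtain ⟨-, ⟨-, h | h⟩ | ⟨m, -, h | h⟩⟩ := h
  · rw [h]; simp [l1]
  · rw [h]; simp [l1]
  · rw [h]; simp [l1]
  · rw [h]; exact l1_hd _ _

lemma adj_l1 {M : ℕ} {x y : V M} (h : (G M).Adj x y) : l1 x.1 y.1 ≤ 1 := by
  rw [G, SimpleGraph.fromRel_adj] at h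
  rcases h.2 with h | h
  · exact rel_l1 h
  · rw [l1_comm]; exact rel_l1 h

lemma walk_l1 {W : Type} {H : SimpleGraph W} (π : W → Z2)
    (hπ : ∀ x y, H.Adj x y → l1 (π x) (π y) ≤ 1) {x y : W} (p : H.Walk x y) :
    l1 (π x) (π y) ≤ p.length := by
  induction p with
  | nil => simp [l1]
  | cons h p ih =>
    have := l1_tri (π _) (π _) (π _) |>.trans (add_le_add (hπ _ _ h) ih)
    simp only [SimpleGraph.Walk.length_cons]
    push_cast
    linarith

lemma adj_right (M : ℕ) (a b : ℤ) : (G M).Adj ((a, b), none) ((a + 1, b), none) := by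
  rw [G, SimpleGraph.fromRel_adj]
  exact ⟨by simp, Or.inl ⟨rfl, Or.inl ⟨rfl, Or.inl rfl⟩⟩⟩

lemma adj_up (M : ℕ) (a b : ℤ) : (G M).Adj ((a, b), none) ((a, b + 1), none) := by
  rw [G, SimpleGraph.fromRel_adj]
  exact ⟨by simp, Or.inl ⟨rfl, Or.inl ⟨rfl, Or.inr rfl⟩⟩⟩

lemma adj_tail (M : ℕ) (u : Z2) (m : Bool × Fin M) : (G M).Adj (u, some m) (u, none) := by
  rw [G, SimpleGraph.fromRel_adj]
  exact ⟨by simp, Or.inl ⟨rfl, Or.inr ⟨m, rfl, Or.inl rfl⟩⟩⟩

lemma adj_head (M : ℕ) (u : Z2) (m : Bool × Fin M) : (G M).Adj (u, some m) (hd u m.1, none) := by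
  rw [G, SimpleGraph.fromRel_adj]
  exact ⟨by simp, Or.inl ⟨rfl, Or.inr ⟨m, rfl, Or.inr rfl⟩⟩⟩

lemma site_walk (M : ℕ) (n : ℕ) : ∀ u v : Z2, l1 u v = n →
    ∃ p : (G M).Walk (u, none) (v, none), p.length ≤ n := by
  induction n with
  | zero =>
    rintro ⟨a, b⟩ ⟨c, d⟩ h
    simp only [l1, Int.abs_eq_natAbs] at h
    obtain rfl : a = c := by omega
    obtain rfl : b = d := by omega
    exact ⟨SimpleGraph.Walk.nil, by simp⟩
  | succ n ih =>
    rintro ⟨a, b⟩ ⟨c, d⟩ h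
    simp only [l1, Int.abs_eq_natAbs] at h
    rcases lt_trichotomy a c with h1 | h1 | h1
    · obtain ⟨p, hp⟩ := ih (a + 1, b) (c, d) (by simp only [l1, Int.abs_eq_natAbs]; omega)
      exact ⟨SimpleGraph.Walk.cons (adj_right M a b) p, by simpa using hp⟩
    · rcases lt_trichotomy b d with h2 | h2 | h2
      · obtain ⟨p, hp⟩ := ih (a, b + 1) (c, d) (by simp only [l1, Int.abs_eq_natAbs]; omega)
        exact ⟨SimpleGraph.Walk.cons (adj_up M a b) p, by simpa using hp⟩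
      · omega
      · obtain ⟨p, hp⟩ := ih (a, b - 1) (c, d) (by simp only [l1, Int.abs_eq_natAbs]; omega)
        have := (adj_up M a (b - 1)).symm
        rw [sub_add_cancel] at this
        exact ⟨SimpleGraph.Walk.cons this p, by simpa using hp⟩
    · obtain ⟨p, hp⟩ := ih (a - 1, b) (c, d) (by simp only [l1, Int.abs_eq_natAbs]; omega)
      have := (adj_right M (a - 1) b).symm
      rw [sub_add_cancel] at this
      exact ⟨SimpleGraph.Walk.cons this p, by simpa using hp⟩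

lemma to_site (M : ℕ) (x : V M) : ∃ p : (G M).Walk x (x.1, none), p.length ≤ 1 := by
  obtain ⟨u, _ | m⟩ := x
  · exact ⟨SimpleGraph.Walk.nil, by simp⟩
  · exact ⟨SimpleGraph.Walk.cons (adj_tail M u m) SimpleGraph.Walk.nil, by simp⟩

lemma any_walk (M : ℕ) (x y : V M) : ∃ p : (G M).Walk x y, (p.length : ℤ) ≤ l1 x.1 y.1 + 2 := by
  obtain ⟨p, hp⟩ := to_site M x
  obtain ⟨q, hq⟩ := to_site M y
  have h0 : 0 ≤ l1 x.1 y.1 := by unfold l1; positivity
  obtain ⟨r, hr⟩ := site_walk M (l1 x.1 y.1).toNat x.1 y.1 (by omega)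
  refine ⟨p.append (r.append q.reverse), ?_⟩
  simp only [SimpleGraph.Walk.length_append, SimpleGraph.Walk.length_reverse]
  omega

lemma G_conn (M : ℕ) : (G M).Connected := by
  have : Nonempty (V M) := ⟨((0, 0), none)⟩
  exact ⟨fun x y => let ⟨p, _⟩ := any_walk M x y; ⟨p⟩⟩

lemma G_deg (M : ℕ) : ∃ D : ℕ, ∀ v : V M, ((G M).neighborSet v).encard ≤ (D : ℕ∞) := by
  refine ⟨Fintype.card (Fin 3 × Fin 3 × Option (Bool × Fin M)), fun v => ?_⟩
  have : (G M).neighborSet v ⊆ range (fun q : Fin 3 × Fin 3 × Option (Bool × Fin M) =>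
      (((v.1.1 + (q.1 : ℕ) - 1, v.1.2 + (q.2.1 : ℕ) - 1), q.2.2) : V M)) := by
    intro w hw
    have h := adj_l1 (show (G M).Adj v w from hw)
    simp only [l1, Int.abs_eq_natAbs] at h
    refine ⟨(⟨(w.1.1 - v.1.1 + 1).toNat, by omega⟩, ⟨(w.1.2 - v.1.2 + 1).toNat, by omega⟩, w.2), ?_⟩
    refine Prod.ext (Prod.ext ?_ ?_) rfl
    · simp only; omega
    · simp only; omega
  refine (encard_le_encard this).trans ?_
  rw [← image_univ]
  refine (encard_image_le _ _).trans ?_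
  simp only [encard_univ, ENat.card_eq_coe_fintype_card, le_refl]

lemma G_qi (M : ℕ) : ∃ (f : V M → (Fin 2 → ℤ)) (C K : ℕ),
        (∀ x y : V M,
          (∑ i, |f x i - f y i|) ≤ (C : ℤ) * ((G M).dist x y : ℤ) + (K : ℤ) ∧
          ((G M).dist x y : ℤ) ≤ (C : ℤ) * (∑ i, |f x i - f y i|) + (K : ℤ)) ∧
        ∀ z : Fin 2 → ℤ, ∃ x : V M, (∑ i, |z i - f x i|) ≤ (K : ℤ) := by
  refine ⟨fun x => ![x.1.1, x.1.2], 1, 2, fun x y => ⟨?_, ?_⟩, fun z => ⟨((z 0, z 1), none), ?_⟩⟩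
  · obtain ⟨p, hp⟩ := (G_conn M).exists_walk_length_eq_dist x y
    have := walk_l1 (H := G M) Prod.fst (fun _ _ h => adj_l1 h) p
    rw [hp] at this
    simp only [Fin.sum_univ_two, l1] at this ⊢
    simp
    linarith
  · obtain ⟨p, hp⟩ := any_walk M x y
    have := SimpleGraph.dist_le p
    simp only [Fin.sum_univ_two, l1] at hp ⊢
    simp
    omega
  · simp

/-! Open edges. -/
abbrev Om (M : ℕ) := (G M).edgeSet → Bool

def op {M : ℕ} (x y : V M) : Set (Om M) := {ω | ∃ h : s(x, y) ∈ (G M).edgeSet, ω ⟨s(x, y), h⟩ = true}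

lemma op_symm {M : ℕ} {x y : V M} {ω : Om M} (h : ω ∈ op x y) : ω ∈ op y x := by
  unfold op at h ⊢
  rw [Sym2.eq_swap]
  exact h

lemma op_adj {M : ℕ} {x y : V M} {ω : Om M} (h : ω ∈ op x y) : (G M).Adj x y := h.1

lemma op_meas {M : ℕ} (x y : V M) (S : Set (G M).edgeSet) (hS : ∀ h, ⟨s(x, y), h⟩ ∈ S) :
    MeasurableSet[cylinderEvents S] (op x y) := by
  by_cases h : s(x, y) ∈ (G M).edgeSet
  · have : op x y = (fun ω : Om M => ω ⟨s(x, y), h⟩) ⁻¹' {true} := by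
      ext ω; simp [op, h]
    rw [this]
    exact measurable_cylinderEvent_apply (X := fun _ => Bool) (hS h) (measurableSet_singleton _)
  · have : op x y = ∅ := by
      ext ω; simp only [op, mem_ofPred_eq, mem_empty_iff_false, iff_false]
      rintro ⟨h', -⟩; exact h h'
    rw [this]; exact @MeasurableSet.empty _ (cylinderEvents S)

abbrev Pm (M : ℕ) (ν : Measure Bool) [IsProbabilityMeasure ν] : Measure (Om M) :=
  Measure.infinitePi (fun _ : (G M).edgeSet => ν)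

lemma op_eq {M : ℕ} (ν : Measure Bool) [IsProbabilityMeasure ν] {x y : V M} (h : (G M).Adj x y) :
    Pm M ν (op x y) = ν {true} := by
  have h' : s(x, y) ∈ (G M).edgeSet := h
  have : op x y = (fun ω : Om M => ω ⟨s(x, y), h'⟩) ⁻¹' {true} := by
    ext ω; simp [op, h']
  rw [this, ← Measure.map_apply (measurable_pi_apply _) (measurableSet_singleton _),
    Measure.infinitePi_map_eval]

lemma op_le {M : ℕ} (ν : Measure Bool) [IsProbabilityMeasure ν] (x y : V M) :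
    Pm M ν (op x y) ≤ ν {true} := by
  by_cases h : (G M).Adj x y
  · exact (op_eq ν h).le
  · have : op x y = ∅ := by
      ext ω; simp only [mem_empty_iff_false, iff_false]
      exact fun h' => h (op_adj h')
    rw [this]; simp

/-! Long open lattice paths are unlikely. -/
def dir (u : Z2) (d : Fin 4) : Z2 :=
  ![(u.1 + 1, u.2), (u.1, u.2 + 1), (u.1 - 1, u.2), (u.1, u.2 - 1)] d

def O (M : ℕ) : ℕ → Z2 → Set Z2 → Set (Om M)
  | 0, _, _ => univ
  | n + 1, x, F => ⋃ (d : Fin 4) (_ : dir x d ∉ insert x F),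
      op (x, none) (dir x d, none) ∩ O M n (dir x d) (insert x F)

def away (M : ℕ) (F : Set Z2) : Set (G M).edgeSet := {e | ∀ z ∈ F, ((z, none) : V M) ∉ e.1}

lemma O_meas (M : ℕ) (n : ℕ) : ∀ (x : Z2) (F : Set Z2), x ∉ F →
    MeasurableSet[cylinderEvents (away M F)] (O M n x F) := by
  induction n with
  | zero => intro x F _; exact @MeasurableSet.univ _ (cylinderEvents _)
  | succ n ih =>
    intro x F hx
    rw [O]
    refine MeasurableSet.iUnion fun d => MeasurableSet.iUnion fun hd => MeasurableSet.inter ?_ ?_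
    · refine op_meas _ _ _ fun h z hz hm => ?_
      simp only [Sym2.mem_iff, Prod.mk.injEq, and_true] at hm
      rcases hm with rfl | rfl
      · exact hx hz
      · exact hd (mem_insert_of_mem _ hz)
    · refine cylinderEvents_mono ?_ _ (ih _ _ hd)
      exact fun e he z hz => he z (mem_insert_of_mem _ hz)

lemma O_le (M : ℕ) (ν : Measure Bool) [IsProbabilityMeasure ν] (hν : ν {true} ≤ 8⁻¹) (n : ℕ) :
    ∀ (x : Z2) (F : Set Z2), Pm M ν (O M n x F) ≤ 2⁻¹ ^ n := by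
  classical
  induction n with
  | zero => intro x F; simp [O]
  | succ n ih =>
    intro x F
    rw [O]
    refine (measure_iUnion_fintype_le _ _).trans ?_
    have h1 : ∀ d : Fin 4, Pm M ν (⋃ (_ : dir x d ∉ insert x F),
        op (x, none) (dir x d, none) ∩ O M n (dir x d) (insert x F)) ≤ 8⁻¹ * 2⁻¹ ^ n := by
      intro d
      by_cases hd : dir x d ∉ insert x F
      · rw [iUnion_eq_if, if_pos hd, ind ν (S := {e | ((x, none) : V M) ∈ e.1})
          (T := away M (insert x F)) ?_ (op_meas _ _ _ (fun _ => by simp)) (O_meas M n _ _ hd)]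
        · exact mul_le_mul' ((op_le ν _ _).trans hν) (ih _ _)
        · rw [disjoint_left]
          exact fun e h1 h2 => h2 x (mem_insert _ _) h1
      · rw [iUnion_eq_if, if_neg hd]; simp
    refine (Finset.sum_le_sum fun d _ => h1 d).trans (le_of_eq ?_)
    rw [Finset.sum_const, Finset.card_univ, Fintype.card_fin, nsmul_eq_mul, ← mul_assoc, pow_succ']
    congr 1
    rw [show (8 : ENNReal) = 4 * 2 by norm_num, ENNReal.mul_inv (by simp) (by simp), ← mul_assoc,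
      Nat.cast_ofNat, ENNReal.mul_inv_cancel (by simp) (by simp), one_mul]

def Lat {M : ℕ} (ω : Om M) : SimpleGraph Z2 where
  Adj u v := ω ∈ op (u, none) (v, none)
  symm := ⟨fun _ _ h => op_symm h⟩
  loopless := ⟨fun _ h => (op_adj h).ne rfl⟩

lemma adj_dir {M : ℕ} {u v : Z2} (h : (G M).Adj (u, none) (v, none)) : ∃ d, v = dir u d := by
  rw [G, SimpleGraph.fromRel_adj] at h
  rcases h.2 with ⟨-, ⟨-, h | h⟩ | ⟨m, h, -⟩⟩ | ⟨-, ⟨-, h | h⟩ | ⟨m, h, -⟩⟩
  · exact ⟨0, h⟩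
  · exact ⟨1, h⟩
  · simp at h
  · refine ⟨2, ?_⟩
    simp only at h
    rw [h]; simp [dir]
  · refine ⟨3, ?_⟩
    simp only at h
    rw [h]; simp [dir]
  · simp at h

lemma path_O {M : ℕ} (ω : Om M) {x y : Z2} (p : (Lat ω).Walk x y) :
    ∀ (n : ℕ) (F : Set Z2), p.IsPath → n ≤ p.length → (∀ z ∈ p.support, z ∉ F) → ω ∈ O M n x F := by
  induction p with
  | nil =>
    intro n F _ h _
    obtain rfl : n = 0 := by simpa using h
    trivial
  | @cons u v w h p ih =>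
    intro n F hp hn hF
    cases n with
    | zero => trivial
    | succ n =>
      obtain ⟨d, rfl⟩ := adj_dir (op_adj h)
      rw [SimpleGraph.Walk.cons_isPath_iff] at hp
      have h1 : ∀ z ∈ p.support, z ∉ insert u F := by
        rintro z hz (rfl | h2)
        · exact hp.2 hz
        · exact hF z (by simp [hz]) h2
      rw [O]
      simp only [mem_iUnion]
      exact ⟨d, h1 _ p.start_mem_support, h, ih n _ hp.1 (by simpa using hn) h1⟩

def Cross (M : ℕ) : Set (Om M) := ⋃ q : ℕ × ℕ, O M (q.1 + q.2 + 4) (q.1, q.2) ∅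

lemma Cross_le (M : ℕ) (ν : Measure Bool) [IsProbabilityMeasure ν] (hν : ν {true} ≤ 8⁻¹) :
    Pm M ν (Cross M) ≤ 4⁻¹ := by
  refine (measure_iUnion_le _).trans ?_
  refine (ENNReal.tsum_le_tsum fun q => O_le M ν hν _ _ _).trans (le_of_eq ?_)
  rw [ENNReal.tsum_prod']
  simp_rw [pow_add]
  simp_rw [ENNReal.tsum_mul_right, ENNReal.tsum_mul_left, ENNReal.tsum_mul_right,
    ENNReal.tsum_geometric]
  simp only [ENNReal.one_sub_inv_two, inv_inv]
  rw [← ENNReal.toReal_eq_toReal_iff' (by finiteness) (by finiteness)]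
  simp
  norm_num

lemma no_cross {M : ℕ} (ω : Om M) (h : ω ∉ Cross M) {u v : Z2} (hu : 0 ≤ u.1 ∧ 0 ≤ u.2)
    (hv : v.1 ≤ -2 ∧ v.2 ≤ -2) : ¬ (Lat ω).Reachable u v := by
  intro hr
  obtain ⟨p, hp⟩ := hr.exists_isPath
  have h1 := walk_l1 (H := Lat ω) id (fun _ _ h => adj_l1 (op_adj h)) p
  apply h
  simp only [Cross, mem_iUnion]
  refine ⟨(u.1.toNat, u.2.toNat), ?_⟩
  have e : ((u.1.toNat : ℤ), (u.2.toNat : ℤ)) = u := Prod.ext (by simp [hu.1]) (by simp [hu.2])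
  simp only
  rw [e]
  refine path_O ω p _ _ hp ?_ (by simp)
  simp only [l1, id, Int.abs_eq_natAbs] at h1
  omega

def Op {M : ℕ} (ω : Om M) : SimpleGraph (V M) :=
  SimpleGraph.fromEdgeSet {e : Sym2 (V M) | ∃ h : e ∈ (G M).edgeSet, ω ⟨e, h⟩ = true}

lemma Op_adj {M : ℕ} (ω : Om M) (x y : V M) : (Op ω).Adj x y ↔ ω ∈ op x y := by
  rw [Op, SimpleGraph.fromEdgeSet_adj]
  exact ⟨fun h => h.1, fun h => ⟨h, (op_adj h).ne⟩⟩

lemma separated {M : ℕ} (ω : Om M) (h : ω ∉ Cross M) :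
    ¬ (Op ω).Reachable ((0, 0), none) ((-2, -2), none) := by
  let C : Set Z2 := {v | ∃ u : Z2, (0 ≤ u.1 ∧ 0 ≤ u.2) ∧ (Lat ω).Reachable u v}
  have hQ : ∀ u : Z2, (0 ≤ u.1 ∧ 0 ≤ u.2) → u ∈ C := fun u hu => ⟨u, hu, SimpleGraph.Reachable.refl _⟩
  have hN : ∀ v : Z2, (v.1 ≤ -2 ∧ v.2 ≤ -2) → v ∉ C := fun v hv ⟨u, hu, hr⟩ => no_cross ω h hu hv hr
  have hiff : ∀ (u : Z2) (d : Bool), u ∈ C ↔ hd u d ∈ C := by
    intro u d
    unfold hd
    split_ifs with h1 h2 h3 h4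
    · exact iff_of_true (hQ _ h1) (hQ _ ⟨by simp; omega, h1.2⟩)
    · exact iff_of_true (hQ _ h1) (hQ _ ⟨h1.1, by simp; omega⟩)
    · exact iff_of_false (hN _ h3) (hN _ ⟨by simp; omega, h3.2⟩)
    · exact iff_of_false (hN _ h3) (hN _ ⟨h3.1, by simp; omega⟩)
    · rfl
  have step : ∀ x y : V M, ω ∈ op x y → rel M x y → (x.1 ∈ C ↔ y.1 ∈ C) := by
    rintro ⟨u, a⟩ ⟨v, b⟩ ho ⟨h1, ⟨h2, -⟩ | ⟨m, -, h3 | h3⟩⟩
    · simp only at h1 h2
      subst h1 h2
      have ha : (Lat ω).Adj u v := ho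
      exact ⟨fun ⟨w, hw, hr⟩ => ⟨w, hw, hr.trans ha.reachable⟩,
        fun ⟨w, hw, hr⟩ => ⟨w, hw, hr.trans ha.symm.reachable⟩⟩
    · rw [h3]
    · rw [h3]; exact hiff _ _
  have walk : ∀ {x y : V M}, (Op ω).Walk x y → x.1 ∈ C → y.1 ∈ C := by
    intro x y p
    induction p with
    | nil => exact id
    | cons h p ih =>
      intro hx
      apply ih
      rw [Op_adj] at h
      have h2 := op_adj h
      rw [G, SimpleGraph.fromRel_adj] at h2
      rcases h2.2 with h3 | h3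
      · exact (step _ _ h h3).1 hx
      · exact (step _ _ (op_symm h) h3).2 hx
  rintro ⟨p⟩
  exact hN (-2, -2) (by simp) (walk p (hQ (0, 0) (by simp)))

/-! The thick quadrants. -/
def st (s : Bool) (z : ℕ × ℕ) : Z2 := if s then (z.1, z.2) else (-(z.1 : ℤ) - 2, -(z.2 : ℤ) - 2)

lemma st_inj (s : Bool) : Function.Injective (st s) := by
  rintro ⟨a, b⟩ ⟨c, d⟩ h
  cases s <;> simp [st] at h ⊢ <;> omega

lemma hd_true (s : Bool) (a b : ℕ) : hd (st s (a, b)) true = st s (a + 1, b) := by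
  cases s
  · have h1 : ¬ ((0 : ℤ) ≤ -(a : ℤ) - 2 ∧ (0 : ℤ) ≤ -(b : ℤ) - 2) := by omega
    have h2 : (-(a : ℤ) - 2 ≤ -2 ∧ -(b : ℤ) - 2 ≤ -2) := by omega
    simp only [hd, st, Bool.false_eq_true, if_false, if_neg h1, if_pos h2, if_true]
    simp; ring
  · simp [hd, st]

lemma hd_false (s : Bool) (a b : ℕ) : hd (st s (a, b)) false = st s (a, b + 1) := by
  cases s
  · have h1 : ¬ ((0 : ℤ) ≤ -(a : ℤ) - 2 ∧ (0 : ℤ) ≤ -(b : ℤ) - 2) := by omega
    have h2 : (-(a : ℤ) - 2 ≤ -2 ∧ -(b : ℤ) - 2 ≤ -2) := by omega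
    simp only [hd, st, Bool.false_eq_true, if_false, if_neg h1, if_pos h2]
    simp; ring
  · simp [hd, st]

lemma hd_ne (s : Bool) (z : ℕ × ℕ) (d : Bool) : hd (st s z) d ≠ st s z := by
  obtain ⟨a, b⟩ := z
  cases d
  · rw [hd_false]; intro h; simpa using st_inj s h
  · rw [hd_true]; intro h; simpa using st_inj s h

def touch (M : ℕ) (A : Set (Z2 × Bool × Fin M)) : Set (G M).edgeSet :=
  {e | ∃ m ∈ A, ((m.1, some m.2) : V M) ∈ e.1}

lemma touch_disj (M : ℕ) {A A' : Set (Z2 × Bool × Fin M)} (h : Disjoint A A') :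
    Disjoint (touch M A) (touch M A') := by
  rw [disjoint_left]
  rintro ⟨e, he⟩ ⟨m, hm, h1⟩ ⟨m', hm', h2⟩
  have hne : m ≠ m' := by
    rintro rfl
    exact disjoint_left.1 h hm hm'
  have hne' : ((m.1, some m.2) : V M) ≠ (m'.1, some m'.2) := by
    intro h3
    simp only [Prod.mk.injEq, Option.some.injEq] at h3
    exact hne (Prod.ext h3.1 h3.2)
  have : e = s(((m.1, some m.2) : V M), (m'.1, some m'.2)) :=
    (Sym2.mem_and_mem_iff hne').1 ⟨h1, h2⟩
  rw [this, SimpleGraph.mem_edgeSet, G, SimpleGraph.fromRel_adj] at he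
  rcases he.2 with h3 | h3 <;> simpa using h3.1

def thru (M : ℕ) (u : Z2) (d : Bool) (i : Fin M) : Set (Om M) :=
  op (u, some (d, i)) (u, none) ∩ op (u, some (d, i)) (hd u d, none)

lemma thru_meas (M : ℕ) (u : Z2) (d : Bool) (i : Fin M) (A : Set (Z2 × Bool × Fin M))
    (h : (u, d, i) ∈ A) : MeasurableSet[cylinderEvents (touch M A)] (thru M u d i) :=
  MeasurableSet.inter (op_meas _ _ _ fun _ => ⟨_, h, by simp⟩) (op_meas _ _ _ fun _ => ⟨_, h, by simp⟩)

lemma thru_eq (M : ℕ) (ν : Measure Bool) [IsProbabilityMeasure ν] (u : Z2) (d : Bool) (i : Fin M)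
    (h : hd u d ≠ u) : Pm M ν (thru M u d i) = ν {true} * ν {true} := by
  rw [thru, ind ν (S := {e | ((u, none) : V M) ∈ e.1}) (T := {e | ((u, none) : V M) ∉ e.1})
    disjoint_compl_right (op_meas _ _ _ (fun _ => by simp)) (op_meas _ _ _ (fun _ => by simp [h.symm])),
    op_eq ν (adj_tail M u (d, i)), op_eq ν (adj_head M u (d, i))]

lemma blocked_le (M : ℕ) (ν : Measure Bool) [IsProbabilityMeasure ν] (u : Z2) (d : Bool)
    (h : hd u d ≠ u) (s : Finset (Fin M)) :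
    Pm M ν (⋂ i ∈ s, (thru M u d i)ᶜ) = (1 - ν {true} * ν {true}) ^ s.card := by
  induction s using Finset.induction_on with
  | empty => simp
  | insert i s hi ih =>
    rw [Finset.set_biInter_insert, ind ν (S := touch M {(u, d, i)})
      (T := touch M {m | m.2.2 ∈ s}) (touch_disj M (by simpa using hi))
      (thru_meas M u d i {(u, d, i)} rfl).compl
      (Finset.measurableSet_biInter _ fun j hj => (thru_meas M u d j {m | m.2.2 ∈ s} hj).compl), ih,
      Finset.card_insert_of_notMem hi, pow_succ', prob_compl_eq_one_sub, thru_eq M ν u d i h]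
    exact cylinderEvents_le_pi _ (thru_meas M u d i univ trivial)

def B0 (M : ℕ) (s : Bool) (e : E) : Set (Om M) :=
  if e.1 = 0 then ∅ else ⋂ i ∈ (Finset.univ : Finset (Fin M)), (thru M (st s e.2) (e.1 = 1) i)ᶜ

def D0 (M : ℕ) (s : Bool) (e : E) : Set (G M).edgeSet :=
  touch M {m | e.1 ≠ 0 ∧ m.1 = st s e.2 ∧ m.2.1 = decide (e.1 = 1)}

lemma D0_disj (M : ℕ) (s : Bool) : Pairwise (Function.onFun Disjoint (D0 M s)) := by
  rintro ⟨t, z⟩ ⟨t', z'⟩ hne
  refine touch_disj M ?_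
  rw [disjoint_left]
  rintro m ⟨h1, h2, h3⟩ ⟨h4, h5, h6⟩
  apply hne
  have e1 : z = z' := st_inj s (h2.symm.trans h5)
  have e2 : t = t' := by
    have : ∀ t t' : Fin 3, t ≠ 0 → t' ≠ 0 → decide (t = 1) = decide (t' = 1) → t = t' := by decide
    exact this t t' h1 h4 (h3.symm.trans h6)
  rw [e1, e2]

lemma B0_meas (M : ℕ) (s : Bool) (e : E) : MeasurableSet[cylinderEvents (D0 M s e)] (B0 M s e) := by
  unfold B0
  split_ifs with h
  · exact @MeasurableSet.empty _ (cylinderEvents _)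
  · exact Finset.measurableSet_biInter _ fun j _ => (thru_meas M _ _ j
      {m | e.1 ≠ 0 ∧ m.1 = st s e.2 ∧ m.2.1 = decide (e.1 = 1)} ⟨h, rfl, rfl⟩).compl

lemma quad_inf {M : ℕ} (s : Bool) (ω : Om M) (g0 : ω ∉ ⋃ k, bad (B0 M s) k (0, 0, 0))
    (g1 : ω ∉ ⋃ k, bad (B0 M s) k (0, 1, 0)) :
    ((Op ω).connectedComponentMk (st s (0, 0), none)).supp.Infinite := by
  have key : ∀ (u : Z2) (d : Bool), ω ∉ (⋂ i ∈ (Finset.univ : Finset (Fin M)), (thru M u d i)ᶜ) →
      (Op ω).Reachable (u, none) (hd u d, none) := by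
    intro u d h
    simp only [mem_iInter, mem_compl_iff, not_forall, not_not] at h
    obtain ⟨i, -, h1, h2⟩ := h
    exact ((Op_adj ω _ _).2 h1).symm.reachable.trans ((Op_adj ω _ _).2 h2).reachable
  have hf := far (B0 M s) ω (fun z w => (Op ω).Reachable (st s z, none) (st s w, none))
    ⟨fun _ => SimpleGraph.Reachable.refl _, fun h => h.symm, fun h h' => h.trans h'⟩
    (fun a b h => by
      have := key (st s (a, b)) true (by simpa [B0] using h)
      rwa [hd_true] at this)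
    (fun a b h => by
      have := key (st s (a, b)) false (by simpa [B0] using h)
      rwa [hd_false] at this) g0 g1
  intro hfin
  have h2 : ((fun z : ℕ × ℕ => ((st s z, none) : V M)) ⁻¹'
      ((Op ω).connectedComponentMk (st s (0, 0), none)).supp).Finite :=
    hfin.preimage (fun z _ w _ h => st_inj s (congrArg Prod.fst h))
  obtain ⟨n, hn⟩ := (h2.image Prod.fst).bddAbove
  obtain ⟨z, h3, h4⟩ := hf (n + 1)
  have : z.1 ≤ n := hn ⟨z, by
    simp only [mem_preimage, SimpleGraph.ConnectedComponent.mem_supp_iff,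
      SimpleGraph.ConnectedComponent.eq]
    exact h4.symm, rfl⟩
  omega

lemma main (ν : Measure Bool) [IsProbabilityMeasure ν] (hν : ν {true} = 8⁻¹) : ∃ M : ℕ,
    ¬ ∀ᵐ ω ∂(Pm M ν), ∀ c₁ c₂ : (Op ω).ConnectedComponent,
      c₁.supp.Infinite → c₂.supp.Infinite → c₁ = c₂ := by
  have hlt : (1 - ν {true} * ν {true} : ENNReal) < 1 := by
    rw [hν]
    exact ENNReal.sub_lt_self (by simp) (by simp) (by simp)
  obtain ⟨M, hM⟩ := ((ENNReal.tendsto_pow_atTop_nhds_zero_of_lt_one hlt).eventually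
    (ge_mem_nhds (show (0 : ENNReal) < 2304⁻¹ * 2⁻¹ by
      exact ENNReal.mul_pos (by simp) (by simp)))).exists
  refine ⟨M, fun h => ?_⟩
  have h0 : ∀ s e, Pm M ν (B0 M s e) ≤ 2304⁻¹ * 2⁻¹ := by
    intro s e
    unfold B0
    split_ifs
    · simp
    · rw [blocked_le M ν _ _ (hd_ne s _ _)]
      simpa using hM
  have hb := fun s e => bad_union_le ν (D0 M s) (D0_disj M s) (B0 M s) (B0_meas M s) (h0 s) e
  rw [ae_iff] at h
  have hsub : (univ : Set (Om M)) ⊆ {ω | ¬ ∀ c₁ c₂ : (Op ω).ConnectedComponent,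
      c₁.supp.Infinite → c₂.supp.Infinite → c₁ = c₂} ∪ Cross M
      ∪ (⋃ k, bad (B0 M true) k (0, 0, 0)) ∪ (⋃ k, bad (B0 M true) k (0, 1, 0))
      ∪ (⋃ k, bad (B0 M false) k (0, 0, 0)) ∪ (⋃ k, bad (B0 M false) k (0, 1, 0)) := by
    intro ω _
    by_contra hh
    simp only [mem_union, not_or] at hh
    obtain ⟨⟨⟨⟨⟨a1, a2⟩, a3⟩, a4⟩, a5⟩, a6⟩ := hh
    apply a1
    intro h1
    have := h1 _ _ (quad_inf true ω a3 a4) (quad_inf false ω a5 a6)
    rw [SimpleGraph.ConnectedComponent.eq] at this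
    exact separated ω a2 (by simpa [st] using this)
  have h2 : (1 : ENNReal) ≤ 0 + 4⁻¹ + 2304⁻¹ + 2304⁻¹ + 2304⁻¹ + 2304⁻¹ := by
    rw [← measure_univ (μ := Pm M ν)]
    refine (measure_mono hsub).trans ?_
    refine (measure_union_le _ _).trans (add_le_add ?_ (hb _ _))
    refine (measure_union_le _ _).trans (add_le_add ?_ (hb _ _))
    refine (measure_union_le _ _).trans (add_le_add ?_ (hb _ _))
    refine (measure_union_le _ _).trans (add_le_add ?_ (hb _ _))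
    exact (measure_union_le _ _).trans (add_le_add h.le (Cross_le M ν hν.le))
  rw [← ENNReal.toReal_le_toReal (by finiteness) (by finiteness)] at h2
  repeat rw [ENNReal.toReal_add (by finiteness) (by finiteness)] at h2
  simp at h2
  norm_num at h2

end
end Pool.Agent.H22.Perc
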