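import Mathlib

namespace Pool.Agent.H22.PiLength

/-- iterated commutator -/
def it {G : Type} [Group G] (B : Subgroup G) (c : ℕ) : Subgroup G :=
  (fun K : Subgroup G => ⁅K, B⁆)^[c] B

theorem it_succ {G : Type} [Group G] (B : Subgroup G) (c : ℕ) : it B (c + 1) = ⁅it B c, B⁆ := by
  unfold it; rw [Function.iterate_succ_apply']

theorem it_map {G Q : Type} [Group G] [Group Q] (f : G →* Q) (B : Subgroup G) (c : ℕ) :
    (it B c).map f = it (B.map f) c := by
  induction c with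
  | zero => rfl
  | succ c ih => rw [it_succ, it_succ, Subgroup.map_commutator, ih]

theorem it_top {G : Type} [Group G] (c : ℕ) : it (⊤ : Subgroup G) c = (⊤ : Subgroup G).lowerCentralSeries c := by
  induction c with
  | zero => rfl
  | succ c ih => rw [it_succ, ih]; rfl

theorem it_eq {G : Type} [Group G] (B : Subgroup G) (c : ℕ) :
    it B c = ((⊤ : Subgroup B).lowerCentralSeries c).map B.subtype := by
  rw [← it_top, it_map, ← MonoidHom.range_eq_map, Subgroup.range_subtype]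

theorem nilp_of_it {G : Type} [Group G] (B : Subgroup G) (c : ℕ) (h : it B c ≤ ⊥) :
    Group.IsNilpotent B := by
  rw [Subgroup.nilpotent_iff_lowerCentralSeries]
  refine ⟨c, ?_⟩
  rw [it_eq, le_bot_iff, Subgroup.map_eq_bot_iff_of_injective _ B.subtype_injective] at h
  exact h

theorem it_of_pgroup {G : Type} [Group G] [Finite G] (p : ℕ) (hp : p.Prime) (A B : Subgroup G)
    [A.Normal] (h : ∀ x ∈ B, ∃ k, x ^ p ^ k ∈ A) : ∃ c, it B c ≤ A := by
  have : Fact p.Prime := ⟨hp⟩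
  have h1 : IsPGroup p (B.map (QuotientGroup.mk' A)) := by
    rintro ⟨_, x, hx, rfl⟩
    obtain ⟨k, hk⟩ := h x hx
    refine ⟨k, Subtype.ext ?_⟩
    simp only [SubgroupClass.coe_pow, OneMemClass.coe_one]
    rw [← map_pow]
    exact (QuotientGroup.eq_one_iff _).2 hk
  obtain ⟨c, hc⟩ := Subgroup.nilpotent_iff_lowerCentralSeries.1 h1.isNilpotent
  refine ⟨c, ?_⟩
  have h2 := it_map (QuotientGroup.mk' A) B c
  rw [it_eq (B.map _), hc, Subgroup.map_bot, Subgroup.map_eq_bot_iff, QuotientGroup.ker_mk'] at h2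
  exact h2

inductive L {G : Type} [Group G] : Subgroup G → ℕ → Prop
  | top (n : ℕ) : L ⊤ n
  | pp (A B : Subgroup G) (n : ℕ) : B.Normal → (∀ x ∈ B, ∃ m, Nat.Coprime m 6 ∧ x ^ m ∈ A) →
      L B n → L A n
  | nil (A B : Subgroup G) (n : ℕ) : B.Normal → (∃ c, it B c ≤ A) → L B n → L A (n + 1)

theorem L.succ {G : Type} [Group G] {A : Subgroup G} {n : ℕ} (h : L A n) : L A (n + 1) := by
  induction h with
  | top n => exact L.top _
  | pp A B n h1 h2 _ ih => exact L.pp A B _ h1 h2 ih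
  | nil A B n h1 h2 _ ih => exact L.nil A B _ h1 h2 ih

theorem L.mono {G : Type} [Group G] {A : Subgroup G} {n m : ℕ} (h : L A n) (hm : n ≤ m) :
    L A m := by
  induction hm with
  | refl => exact h
  | step _ ih => exact ih.succ

theorem L.map {G Q : Type} [Group G] [Group Q] (f : G →* Q) (hf : Function.Surjective f)
    {A : Subgroup G} {n : ℕ} (h : L A n) : L (A.map f) n := by
  induction h with
  | top n => rw [Subgroup.map_top_of_surjective f hf]; exact L.top _
  | pp A B n h1 h2 _ ih =>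
    refine L.pp _ _ _ (h1.map f hf) ?_ ih
    rintro _ ⟨x, hx, rfl⟩
    obtain ⟨m, hm, hm'⟩ := h2 x hx
    exact ⟨m, hm, x ^ m, hm', map_pow f x m⟩
  | nil A B n h1 h2 _ ih =>
    obtain ⟨c, hc⟩ := h2
    refine L.nil _ _ _ (h1.map f hf) ⟨c, ?_⟩ ih
    rw [← it_map]
    exact Subgroup.map_mono hc

/-- wreath layer -/
abbrev W (p : ℕ) (Q : Type) : Type := Multiplicative (ZMod p) ≀ᵣ Q

section layer

variable (p : ℕ) [hp : Fact p.Prime] (Q : Type) [Group Q]

open RegularWreathProduct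

theorem surj : Function.Surjective (rightHom : W p Q →* Q) := fun q => ⟨inl q, rfl⟩

theorem ker_pow (x : W p Q) (hx : x.right = 1) (n : ℕ) : x ^ n = ⟨x.left ^ n, 1⟩ := by
  induction n with
  | zero => ext <;> simp
  | succ n ih =>
    rw [pow_succ, ih]
    ext <;> simp [hx, pow_succ]

theorem ker_exp (x : W p Q) (hx : x.right = 1) : x ^ p = 1 := by
  rw [ker_pow p Q x hx]
  ext y
  · have : (x.left y) ^ p = 1 := by
      have h := pow_card_eq_one' (x := x.left y)
      simpa using h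
    simp [this]
  · rfl

theorem self_cent (w : W p Q) (h : ∀ b : W p Q, b.right = 1 → w * b = b * w) : w.right = 1 := by
  classical
  have h1 := congrArg (fun z : W p Q => z.left 1)
    (h ⟨Pi.mulSingle 1 (Multiplicative.ofAdd 1), 1⟩ rfl)
  simp only [mul_left, Pi.mul_apply, mul_one, Pi.mulSingle_eq_same, inv_one] at h1
  rw [mul_comm] at h1
  have h2 := mul_right_cancel h1
  by_contra hne
  rw [Pi.mulSingle_eq_of_ne (by simpa using hne)] at h2
  have h3 : (0 : ZMod p) = 1 := congrArg Multiplicative.toAdd h2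
  exact zero_ne_one h3

theorem normal_triv (N : Subgroup (W p Q)) (hN : N.Normal)
    (h : ∀ x ∈ N, ∃ m, Nat.Coprime m p ∧ x ^ m = 1) : N = ⊥ := by
  have key : ∀ x ∈ N, x.right = 1 → x = 1 := by
    intro x hx hx1
    obtain ⟨m, hm, hm'⟩ := h x hx
    exact (pow_eq_one_iff_of_coprime hm).1 ⟨hm', ker_exp p Q x hx1⟩
  rw [eq_bot_iff]
  intro x hx
  rw [Subgroup.mem_bot]
  apply key x hx
  apply self_cent
  intro b hb
  have h1 : x * (b * x⁻¹ * b⁻¹) ∈ N := N.mul_mem hx (hN.conj_mem _ (N.inv_mem hx) b)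
  have h2 := key _ h1 (by simp [hb])
  calc x * b = x * (b * x⁻¹ * b⁻¹) * (b * x) := by group
    _ = b * x := by rw [h2, one_mul]

theorem no_pgroup (q : ℕ) (hq : q.Prime) (hpq : q ≠ p) (N : Subgroup (W p Q)) (hN : N.Normal)
    (h : IsPGroup q N) : N = ⊥ := by
  apply normal_triv p Q N hN
  intro x hx
  obtain ⟨k, hk⟩ := h ⟨x, hx⟩
  refine ⟨q ^ k, Nat.Coprime.pow_left k ((Nat.coprime_primes hq hp.out).2 hpq), ?_⟩
  exact congrArg Subtype.val hk

theorem nil_pgroup [Finite Q] (N : Subgroup (W p Q)) (hN : N.Normal) (h : Group.IsNilpotent N) :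
    IsPGroup p N := by
  have hc : ∀ q, q.Prime → q ∣ Nat.card N → q = p := by
    intro q hq hd
    by_contra hne
    have : Fact q.Prime := ⟨hq⟩
    obtain ⟨P⟩ : Nonempty (Sylow q N) := inferInstance
    have hPn : (P : Subgroup N).Normal :=
      P.normal_of_normalizerCondition (Group.normalizerCondition_of_isNilpotent)
    have hPc : (P : Subgroup N).Characteristic := P.characteristic_of_normal hPn
    have h1 : ((P : Subgroup N).map N.subtype).Normal :=
      ConjAct.normal_of_characteristic_of_normal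
    have h2 := no_pgroup p Q q hq hne _ h1 (P.isPGroup'.map _)
    rw [Subgroup.map_eq_bot_iff_of_injective _ N.subtype_injective] at h2
    exact P.ne_bot_of_dvd_card hd h2
  exact IsPGroup.of_card (Nat.eq_prime_pow_of_unique_prime_dvd Nat.card_pos.ne' (fun {d} => hc d))

theorem drop [Finite Q] (h6 : p ∣ 6) (hQ : ∀ N : Subgroup Q, N.Normal → IsPGroup p N → N = ⊥)
    (A : Subgroup (W p Q)) (m : ℕ) (h : L A m) (hA : A = ⊥) :
    ∃ n, m = n + 1 ∧ L (⊥ : Subgroup Q) n := by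
  induction h with
  | top n =>
    exfalso
    have h1 : (⟨fun _ => Multiplicative.ofAdd 1, 1⟩ : W p Q) ∈ (⊥ : Subgroup (W p Q)) := by
      rw [← hA]; trivial
    rw [Subgroup.mem_bot] at h1
    have h2 := congrArg (fun z : W p Q => Multiplicative.toAdd (z.left 1)) h1
    simp at h2
  | pp A B n h1 h2 _ ih =>
    apply ih
    apply normal_triv p Q B h1
    intro x hx
    obtain ⟨m, hm, hm'⟩ := h2 x hx
    rw [hA, Subgroup.mem_bot] at hm'
    exact ⟨m, Nat.Coprime.coprime_dvd_right h6 hm, hm'⟩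
  | nil A B n h1 h2 h3 _ =>
    obtain ⟨c, hc⟩ := h2
    rw [hA] at hc
    have h4 := nil_pgroup p Q B h1 (nilp_of_it B c hc)
    have h5 := hQ _ (h1.map rightHom (surj p Q)) (h4.map _)
    refine ⟨n, rfl, ?_⟩
    rw [← h5]
    exact h3.map _ (surj p Q)

theorem pass (m : ℕ) (h : L (⊥ : Subgroup (W p Q)) m) : L (⊥ : Subgroup Q) m := by
  have := h.map _ (surj p Q)
  rwa [Subgroup.map_bot] at this

theorem card_W [Finite Q] : Nat.card (W p Q) = p ^ Nat.card Q * Nat.card Q := by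
  rw [RegularWreathProduct.card]; simp

theorem card_comap [Finite Q] (S : Subgroup Q) :
    Nat.card (S.comap (rightHom : W p Q →* Q)) = p ^ Nat.card Q * Nat.card S := by
  have h1 := (S.comap (rightHom : W p Q →* Q)).card_mul_index
  rw [Subgroup.index_comap_of_surjective _ (surj p Q), card_W, ← S.card_mul_index,
    ← mul_assoc] at h1
  rw [← S.card_mul_index]
  exact Nat.eq_of_mul_eq_mul_right (Nat.pos_of_ne_zero S.index_ne_zero_of_finite) h1

end layer

/-- a normal series with prime power factors -/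
def Ser (G : Type) [Group G] (k : ℕ) (ps : ℕ → ℕ) (s : ℕ → Subgroup G) : Prop :=
  s 0 = ⊥ ∧ s k = ⊤ ∧ (∀ i ≤ k, (s i).Normal) ∧ (∀ i < k, s i ≤ s (i + 1)) ∧
    ∀ i < k, ∃ e, Nat.card (s (i + 1)) = ps i ^ e * Nat.card (s i)

theorem ser_layer (p : ℕ) [hp : Fact p.Prime] (Q : Type) [Group Q] [Finite Q] (k : ℕ) (ps : ℕ → ℕ)
    (h : ∃ s, Ser Q k ps s) : ∃ s, Ser (W p Q) (k + 1) (fun i => Nat.casesOn i p ps) s := by
  obtain ⟨s, h0, hk, hn, hm, hc⟩ := h
  refine ⟨fun i => Nat.casesOn i ⊥ (fun j => (s j).comap RegularWreathProduct.rightHom),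
    rfl, ?_, ?_, ?_, ?_⟩
  · simp [hk]
  · rintro (_ | i) hi
    · exact Subgroup.normal_bot
    · exact (hn i (by omega)).comap _
  · rintro (_ | i) hi
    · exact bot_le
    · exact Subgroup.comap_mono (hm i (by omega))
  · rintro (_ | i) hi
    · refine ⟨Nat.card Q, ?_⟩
      show Nat.card ((s 0).comap RegularWreathProduct.rightHom) = p ^ _ * Nat.card (⊥ : Subgroup (W p Q))
      rw [card_comap, h0]; simp
    · obtain ⟨e, he⟩ := hc i (by omega)
      refine ⟨e, ?_⟩
      show Nat.card ((s (i + 1)).comap RegularWreathProduct.rightHom) =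
        ps i ^ e * Nat.card ((s i).comap RegularWreathProduct.rightHom)
      rw [card_comap, card_comap, he]; ring

/-- existence of a Hall subgroup -/
def Hall (G : Type) [Group G] : Prop :=
  ∃ H : Subgroup G, (∃ N, Nat.card H ∣ 6 ^ N) ∧ ∃ N, H.index ∣ 5 ^ N

theorem hall_pi (p : ℕ) [hp : Fact p.Prime] (Q : Type) [Group Q] [Finite Q] (h6 : p ∣ 6)
    (h : Hall Q) : Hall (W p Q) := by
  obtain ⟨H, ⟨N, hN⟩, M, hM⟩ := h
  refine ⟨H.comap RegularWreathProduct.rightHom, ⟨Nat.card Q + N, ?_⟩, M, ?_⟩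
  · rw [card_comap, pow_add]
    exact mul_dvd_mul (pow_dvd_pow_of_dvd h6 _) hN
  · rwa [Subgroup.index_comap_of_surjective _ (surj p Q)]

theorem hall_five [hp : Fact (Nat.Prime 5)] (Q : Type) [Group Q] [Finite Q]
    (h : Hall Q) : Hall (W 5 Q) := by
  obtain ⟨H, ⟨N, hN⟩, M, hM⟩ := h
  have hinj : Function.Injective (RegularWreathProduct.inl : Q →* W 5 Q) := fun a b hab =>
    congrArg RegularWreathProduct.right hab
  have hc : Nat.card (H.map (RegularWreathProduct.inl : Q →* W 5 Q)) = Nat.card H :=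
    Subgroup.card_map_of_injective hinj
  refine ⟨H.map RegularWreathProduct.inl, ⟨N, by rwa [hc]⟩, Nat.card Q + M, ?_⟩
  have h1 := (H.map (RegularWreathProduct.inl : Q →* W 5 Q)).card_mul_index
  rw [hc, card_W, ← H.card_mul_index, mul_left_comm] at h1
  have h2 := Nat.eq_of_mul_eq_mul_left Nat.card_pos h1
  rw [h2, H.card_mul_index, pow_add]
  exact mul_dvd_mul_left _ hM

instance : Fact (Nat.Prime 5) := ⟨by norm_num⟩

abbrev G1 : Type := W 3 Unit
abbrev G2 : Type := W 5 G1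
abbrev G3 : Type := W 3 G2
abbrev G4 : Type := W 2 G3
abbrev G5 : Type := W 5 G4
abbrev G6 : Type := W 2 G5

theorem lower : ¬ L (⊥ : Subgroup G6) 3 := by
  intro h
  obtain ⟨n1, e1, h1⟩ := drop 2 G5 (by norm_num) (no_pgroup 5 G4 2 (by norm_num) (by norm_num))
    _ _ h rfl
  obtain ⟨n2, e2, h2⟩ := drop 2 G3 (by norm_num) (no_pgroup 3 G2 2 (by norm_num) (by norm_num))
    _ _ (pass 5 G4 _ h1) rfl
  obtain ⟨n3, e3, h3⟩ := drop 3 G2 (by norm_num) (no_pgroup 5 G1 3 (by norm_num) (by norm_num))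
    _ _ h2 rfl
  obtain ⟨n4, e4, h4⟩ := drop 3 Unit (by norm_num) (fun N _ _ => Subsingleton.elim _ _) _ _
    (pass 5 G1 _ h3) rfl
  omega

theorem hall6 : Hall G6 :=
  hall_pi 2 _ (by norm_num) (hall_five _ (hall_pi 2 _ (by norm_num) (hall_pi 3 _ (by norm_num)
    (hall_five _ (hall_pi 3 _ (by norm_num) ⟨⊤, ⟨0, by simp⟩, 0, by simp⟩)))))

theorem ser6 : ∃ s : ℕ → Subgroup G6, s 0 = ⊥ ∧ s 6 = ⊤ ∧ (∀ i ≤ 6, (s i).Normal) ∧
    (∀ i < 6, s i ≤ s (i + 1)) ∧
    (∃ e, Nat.card (s 1) = 2 ^ e * Nat.card (s 0)) ∧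
    (∃ e, Nat.card (s 2) = 5 ^ e * Nat.card (s 1)) ∧
    (∃ e, Nat.card (s 3) = 2 ^ e * Nat.card (s 2)) ∧
    (∃ e, Nat.card (s 4) = 3 ^ e * Nat.card (s 3)) ∧
    (∃ e, Nat.card (s 5) = 5 ^ e * Nat.card (s 4)) ∧
    (∃ e, Nat.card (s 6) = 3 ^ e * Nat.card (s 5)) := by
  have h0 : ∃ s, Ser Unit 0 (fun _ => 1) s :=
    ⟨fun _ => ⊥, rfl, Subsingleton.elim _ _, fun _ _ => Subgroup.normal_bot,
      fun _ _ => le_rfl, fun i hi => absurd hi (Nat.not_lt_zero i)⟩
  obtain ⟨s, h1, h2, h3, h4, h5⟩ := ser_layer 2 _ _ _ (ser_layer 5 _ _ _ (ser_layer 2 _ _ _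
    (ser_layer 3 _ _ _ (ser_layer 5 _ _ _ (ser_layer 3 _ _ _ h0)))))
  exact ⟨s, h1, h2, h3, h4, h5 0 (by norm_num), h5 1 (by norm_num), h5 2 (by norm_num),
    h5 3 (by norm_num), h5 4 (by norm_num), h5 5 (by norm_num)⟩

theorem pow_ratio {G : Type} [Group G] [Finite G] (A B : Subgroup G) (hA : A.Normal) (hAB : A ≤ B)
    (x : G) (hx : x ∈ B) : x ^ (Nat.card B / Nat.card A) ∈ A := by
  have h1 := Subgroup.pow_relIndex_mem A hx
  have h2 : Nat.card A * A.relIndex B = Nat.card B := by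
    rw [Subgroup.relIndex, ← (A.subgroupOf B).card_mul_index]
    congr 1
    exact (Nat.card_congr (Subgroup.subgroupOfEquivOfLe hAB).toEquiv).symm
  rw [← h2, Nat.mul_div_cancel_left _ Nat.card_pos]
  exact h1

theorem L_of_series {G : Type} [Group G] [Finite G] (k : ℕ) (s : ℕ → Subgroup G) (T : Finset ℕ)
    (hk : s k = ⊤) (hn : ∀ i ≤ k, (s i).Normal) (hm : ∀ i < k, s i ≤ s (i + 1))
    (h : ∀ i < k, (∀ q : ℕ, q.Prime → q ∣ Nat.card (s (i + 1)) / Nat.card (s i) →
      q ∉ ({2, 3} : Set ℕ)) ∨ (i ∈ T ∧ ∃ c, it (s (i + 1)) c ≤ s i)) : L (s 0) T.card := by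
  have key : ∀ j i, i + j = k → L (s i) (T.filter (fun t => i ≤ t)).card := by
    intro j
    induction j with
    | zero => intro i hi; rw [show i = k by omega, hk]; exact L.top _
    | succ j ih =>
      intro i hi
      have h1 := ih (i + 1) (by omega)
      have hsub : T.filter (fun t => i + 1 ≤ t) ⊆ T.filter (fun t => i ≤ t) := by
        intro t ht
        simp only [Finset.mem_filter] at ht ⊢
        exact ⟨ht.1, by omega⟩
      rcases h i (by omega) with h2 | ⟨h2, h3⟩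
      · refine L.pp _ _ _ (hn (i + 1) (by omega)) ?_ (h1.mono (Finset.card_le_card hsub))
        intro x hx
        refine ⟨_, ?_, pow_ratio _ _ (hn i (by omega)) (hm i (by omega)) x hx⟩
        rw [show 6 = 2 * 3 by norm_num]
        apply Nat.Coprime.mul_right
        · exact ((Nat.Prime.coprime_iff_not_dvd Nat.prime_two).2
            (fun hd => h2 2 Nat.prime_two hd (by simp))).symm
        · exact ((Nat.Prime.coprime_iff_not_dvd Nat.prime_three).2
            (fun hd => h2 3 Nat.prime_three hd (by simp))).symm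
      · refine (L.nil _ _ _ (hn (i + 1) (by omega)) h3 h1).mono ?_
        apply Finset.card_lt_card
        rw [Finset.ssubset_iff_of_subset hsub]
        exact ⟨i, by simp [h2], by simp⟩
  have := key k 0 (by omega)
  simpa using this

theorem gcd_pow (x a b p M N : ℕ) (h1 : x ∣ (p * a) ^ M) (h2 : x ∣ (p * b) ^ N)
    (hab : Nat.Coprime a (p * b)) : ∃ k, x ∣ p ^ k := by
  refine ⟨M, ?_⟩
  rw [mul_pow] at h1
  exact (Nat.Coprime.coprime_dvd_left h2 (hab.symm.pow N M)).dvd_of_dvd_mul_right h1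

end Pool.Agent.H22.PiLength
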