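import Mathlib

set_option autoImplicit false
open MeasureTheory Set

namespace Pool.Agent.H22.Rdv
noncomputable section

abbrev Om := ℕ → Bool

def P : Measure Om := Measure.infinitePi (fun _ : ℕ => (PMF.uniformOfFintype Bool).toMeasure)

instance : IsProbabilityMeasure P := by unfold P; infer_instance

def T (f g : NNReal → UnitAddCircle) (a : UnitAddCircle) : ENNReal :=
  ⨅ (τ : NNReal) (_ : a + f τ = g τ), (τ : ENNReal)

lemma lin (c d lo hi : ℝ) (hle : lo ≤ hi) (hn : ∀ a ∈ Ioc lo hi, 0 ≤ c + d * a) :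
    ∫⁻ a in Ioc lo hi, ENNReal.ofReal (c + d * a)
      = ENNReal.ofReal (c * (hi - lo) + d * (hi ^ 2 - lo ^ 2) / 2) := by
  have hc : Continuous fun a : ℝ => c + d * a := by fun_prop
  rw [← ofReal_integral_eq_lintegral_ofReal]
  · rw [← intervalIntegral.integral_of_le hle]
    have h1 : ∫ a in lo..hi, (c + d * a) = c * (hi - lo) + d * (hi ^ 2 - lo ^ 2) / 2 := by
      rw [intervalIntegral.integral_add (by simp) ((by fun_prop : Continuous fun a : ℝ => d * a).intervalIntegrable _ _),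
        intervalIntegral.integral_const_mul, integral_id]
      simp; ring
    rw [h1]
  · exact (hc.integrableOn_Icc).mono_set Ioc_subset_Icc_self
  · exact (ae_restrict_iff' measurableSet_Ioc).2 (Filter.Eventually.of_forall hn)

/-! The number of initial agreements. -/
def A (η : Om) (k : ℕ) : Set Om := {ω | ∀ j ≤ k, η j = ω j}

def K (η ω : Om) : ENNReal := ∑' k, (A η k).indicator 1 ω

lemma A_eq (η : Om) (k : ℕ) : A η k = Set.pi (Finset.range (k + 1) : Set ℕ) (fun j => {η j}) := by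
  ext ω
  simp only [A, mem_ofPred_eq, mem_pi, Finset.coe_range, mem_Iio, mem_singleton_iff]
  constructor
  · intro h j hj; exact (h j (by omega)).symm
  · intro h j hj; exact (h j (by omega)).symm

lemma A_meas (η : Om) (k : ℕ) : MeasurableSet (A η k) := by
  rw [A_eq]
  exact MeasurableSet.pi (Finset.countable_toSet _) (fun _ _ => measurableSet_singleton _)

lemma A_P (η : Om) (k : ℕ) : P (A η k) = (2⁻¹ : ENNReal) ^ (k + 1) := by
  rw [A_eq, P, Measure.infinitePi_pi _ (fun _ _ => measurableSet_singleton _)]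
  have : ∀ b : Bool, (PMF.uniformOfFintype Bool).toMeasure {b} = 2⁻¹ := by
    intro b
    rw [PMF.toMeasure_apply_singleton _ _ (measurableSet_singleton _)]
    simp
  simp [this]

lemma K_meas (η : Om) : Measurable (K η) :=
  Measurable.tsum fun k => (measurable_one.indicator (A_meas η k))

lemma K_int (η : Om) : ∫⁻ ω, K η ω ∂P = 1 := by
  unfold K
  rw [lintegral_tsum fun k => (measurable_one.indicator (A_meas η k)).aemeasurable]
  simp_rw [lintegral_indicator_one (A_meas η _), A_P]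
  rw [ENNReal.tsum_geometric_add_one]
  simp
  exact ENNReal.inv_mul_cancel (by simp) (by simp)

lemma K_eq (η ω : Om) (k : ℕ) (h : ∀ j < k, η j = ω j) (hk : η k ≠ ω k) : K η ω = k := by
  unfold K
  rw [tsum_eq_sum (s := Finset.range k)]
  · rw [Finset.sum_congr rfl (g := fun _ => 1)]
    · simp
    · intro j hj
      have hj' := Finset.mem_range.1 hj
      have : ω ∈ A η j := fun i hi => h i (by omega)
      simp [this]
  · intro j hj
    have hj' : k ≤ j := by simpa using hj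
    have : ω ∉ A η j := fun hh => hk (hh k hj')
    simp [this]

lemma K_top (η : Om) : K η η = ⊤ := by
  unfold K
  have : ∀ k, (A η k).indicator (1 : Om → ENNReal) η = 1 := by
    intro k
    have : η ∈ A η k := fun _ _ => rfl
    simp [this]
  simp_rw [this]
  exact ENNReal.tsum_const_eq_top_of_ne_zero one_ne_zero

lemma cases_K (η ω : Om) : η = ω ∨ ∃ k, (∀ j < k, η j = ω j) ∧ η k ≠ ω k := by
  classical
  by_cases h : η = ω
  · exact Or.inl h
  · right
    have : ∃ k, η k ≠ ω k := by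
      by_contra hh
      push Not at hh
      exact h (funext hh)
    refine ⟨Nat.find this, fun j hj => ?_, Nat.find_spec this⟩
    simpa using Nat.find_min this hj

lemma aff_int (c d : ENNReal) (η : Om) : ∫⁻ ω, c + d * K η ω ∂P = c + d := by
  rw [lintegral_add_left measurable_const, lintegral_const_mul _ (K_meas η), K_int]
  simp

/-! Lower bound for the coin half tour. -/
def G (ω : Om) (τ : NNReal) : ℝ :=
  (∑ j ∈ Finset.range ⌊2 * (τ : ℝ)⌋₊, (if ω j then (1 / 2 : ℝ) else -1 / 2))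
    + (if ω ⌊2 * (τ : ℝ)⌋₊ then (1 : ℝ) else -1) * ((τ : ℝ) - (⌊2 * (τ : ℝ)⌋₊ : ℝ) / 2)

lemma G_neg (ω : Om) (τ : NNReal) : G (fun j => !ω j) τ = - G ω τ := by
  unfold G
  rw [neg_add, ← Finset.sum_neg_distrib]
  congr 1
  · refine Finset.sum_congr rfl fun j _ => ?_
    cases h : ω j <;> simp [h] <;> ring
  · cases h : ω ⌊2 * (τ : ℝ)⌋₊ <;> simp [h]

lemma G_agree (η ω : Om) (k : ℕ) (h : ∀ j < k, η j = ω j) (τ : NNReal)
    (hτ : ⌊2 * (τ : ℝ)⌋₊ < k) : G η τ = G ω τ := by
  unfold G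
  rw [h _ hτ]
  congr 1
  refine Finset.sum_congr rfl fun j hj => ?_
  rw [h j (lt_trans (Finset.mem_range.1 hj) hτ)]

lemma G_step (η ω : Om) (k : ℕ) (h : ∀ j < k, η j = ω j) (hk : η k ≠ ω k) (τ : NNReal)
    (hτ : ⌊2 * (τ : ℝ)⌋₊ = k) :
    G ω τ - G η τ = (if ω k then 2 else -2) * ((τ : ℝ) - k / 2) := by
  unfold G
  rw [hτ]
  have : (∑ j ∈ Finset.range k, (if η j then (1 / 2 : ℝ) else -1 / 2))
      = ∑ j ∈ Finset.range k, (if ω j then (1 / 2 : ℝ) else -1 / 2) :=
    Finset.sum_congr rfl fun j hj => by rw [h j (Finset.mem_range.1 hj)]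
  rw [this]
  cases h1 : η k <;> cases h2 : ω k <;> simp_all <;> ring

lemma coe_eq {x y z : ℝ} (h : ((x : ℝ) : UnitAddCircle) + (y : UnitAddCircle) = (z : UnitAddCircle)) :
    ∃ m : ℤ, x + y - z = m := by
  have : ((x + y - z : ℝ) : UnitAddCircle) = 0 := by
    rw [AddCircle.coe_sub, AddCircle.coe_add, h, sub_self]
  rw [AddCircle.coe_eq_zero_iff] at this
  obtain ⟨m, hm⟩ := this
  exact ⟨m, by simpa using hm.symm⟩

lemma eq_coe {x y z : ℝ} (m : ℤ) (h : x + y - z = m) :
    ((x : ℝ) : UnitAddCircle) + (y : UnitAddCircle) = (z : UnitAddCircle) := by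
  have : ((x + y - z : ℝ) : UnitAddCircle) = 0 := by
    rw [AddCircle.coe_eq_zero_iff]
    exact ⟨m, by simpa using h.symm⟩
  rw [AddCircle.coe_sub, AddCircle.coe_add, sub_eq_zero] at this
  exact this

lemma no_int {x : ℝ} {m : ℤ} (h : x = m) (h0 : 0 < x) (h1 : x < 1) : False := by
  have a : (0 : ℤ) < m := by exact_mod_cast (h ▸ h0 : (0 : ℝ) < m)
  have b : m < (1 : ℤ) := by exact_mod_cast (h ▸ h1 : (m : ℝ) < 1)
  omega

lemma low_pt (η ω : Om) (k : ℕ) (h : ∀ j < k, η j = ω j) (hk : η k ≠ ω k) (a : ℝ)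
    (ha : a ∈ Ioo (0 : ℝ) 1) :
    ENNReal.ofReal ((k / 2 + (if ω k then 0 else 1 / 2)) + (if ω k then 1 / 2 else -1 / 2) * a)
      ≤ T (fun τ => (G η τ : UnitAddCircle)) (fun τ => (G ω τ : UnitAddCircle)) a := by
  unfold T
  refine le_iInf₂ fun τ hτ => ?_
  rw [ENNReal.ofReal_le_coe]
  obtain ⟨m, hm⟩ := coe_eq hτ
  by_contra hlt
  push Not at hlt
  have hτ0 : (0 : ℝ) ≤ τ := τ.2
  have hb : (τ : ℝ) < k / 2 + 1 / 2 := by
    refine lt_of_lt_of_le hlt ?_
    cases ω k <;> simp <;> linarith [ha.1, ha.2]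
  have hf : ⌊2 * (τ : ℝ)⌋₊ < k + 1 := by
    rw [Nat.floor_lt (by linarith)]; push_cast; linarith
  rcases Nat.lt_succ_iff_lt_or_eq.1 hf with h1 | h1
  · rw [G_agree η ω k h τ h1] at hm
    exact no_int (x := a) (m := m) (by linarith) ha.1 ha.2
  · have h2 := G_step η ω k h hk τ h1
    have h3 : (k : ℝ) ≤ 2 * τ := by
      rw [← h1]; exact Nat.floor_le (by linarith)
    cases h4 : ω k
    · simp only [h4] at h2 hlt
      simp at h2 hlt
      exact no_int (x := a + G η τ - G ω τ) hm (by linarith [ha.1]) (by linarith)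
    · simp only [h4] at h2 hlt
      simp at h2 hlt
      exact no_int (x := a + G η τ - G ω τ) hm (by linarith) (by linarith [ha.2])

lemma low (η ω : Om) :
    4⁻¹ + 2⁻¹ * K η ω
      ≤ ∫⁻ a, T (fun τ => (G η τ : UnitAddCircle)) (fun τ => (G ω τ : UnitAddCircle)) a := by
  rw [← UnitAddCircle.lintegral_preimage 0, zero_add, ← setLIntegral_congr Ioo_ae_eq_Ioc]
  rcases cases_K η ω with rfl | ⟨k, h, hk⟩
  · have : ∀ a ∈ Ioo (0 : ℝ) 1, (⊤ : ENNReal) ≤
        T (fun τ => (G η τ : UnitAddCircle)) (fun τ => (G η τ : UnitAddCircle)) a := by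
      intro a ha
      unfold T
      refine le_iInf₂ fun τ hτ => ?_
      obtain ⟨m, hm⟩ := coe_eq hτ
      exact (no_int (x := a) (m := m) (by linarith) ha.1 ha.2).elim
    refine le_trans ?_ (setLIntegral_mono' measurableSet_Ioo this)
    simp
  · refine le_trans ?_ (setLIntegral_mono' measurableSet_Ioo (low_pt η ω k h hk))
    rw [setLIntegral_congr Ioo_ae_eq_Ioc, lin _ _ _ _ zero_le_one, K_eq η ω k h hk]
    · have : (4⁻¹ + 2⁻¹ * (k : ENNReal)) = ENNReal.ofReal (1 / 4 + 1 / 2 * k) := by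
        rw [ENNReal.ofReal_add (by norm_num) (by positivity), ENNReal.ofReal_mul (by norm_num),
          one_div, one_div, ENNReal.ofReal_inv_of_pos (by norm_num),
          ENNReal.ofReal_inv_of_pos (by norm_num)]
        simp
      rw [this]
      apply ENNReal.ofReal_le_ofReal
      cases ω k <;> simp <;> linarith
    · intro a ha
      have : (0 : ℝ) ≤ k := Nat.cast_nonneg k
      cases ω k <;> simp <;> linarith [ha.1, ha.2]

lemma low_int (η : Om) : (4⁻¹ + 2⁻¹ : ENNReal) ≤ ∫⁻ ω,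
    ∫⁻ a, T (fun τ => (G η τ : UnitAddCircle)) (fun τ => (G ω τ : UnitAddCircle)) a ∂volume ∂P := by
  rw [← aff_int _ _ η]
  exact lintegral_mono fun ω => low η ω

/-! Quarter step paths. -/
def sg (b : Bool) : ℝ := if b then 1 else -1

def S (s : Om) (n : ℕ) : ℝ := ∑ j ∈ Finset.range n, sg (s j) / 4

def F (s : Om) (τ : ℝ) : ℝ := S s ⌊4 * τ⌋₊ + sg (s ⌊4 * τ⌋₊) * (τ - ⌊4 * τ⌋₊ / 4)

lemma abs_sg (b : Bool) : |sg b| = 1 := by cases b <;> simp [sg]

lemma S_succ (s : Om) (n : ℕ) : S s (n + 1) = S s n + sg (s n) / 4 := by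
  unfold S; rw [Finset.sum_range_succ]

lemma F_eval (s : Om) (i : ℕ) (t : ℝ) (h0 : 0 ≤ t) (h1 : t ≤ 1 / 4) :
    F s (i / 4 + t) = S s i + sg (s i) * t := by
  rcases h1.lt_or_eq with h | h
  · have : ⌊4 * ((i : ℝ) / 4 + t)⌋₊ = i := by
      rw [Nat.floor_eq_iff (by positivity)]
      constructor <;> linarith
    unfold F; rw [this]; ring
  · have : ⌊4 * ((i : ℝ) / 4 + t)⌋₊ = i + 1 := by
      rw [Nat.floor_eq_iff (by positivity)]
      push_cast
      constructor <;> linarith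
    unfold F; rw [this, S_succ, h]; push_cast; ring

lemma S_diff (s : Om) (n d : ℕ) : |S s (n + d) - S s n| ≤ d / 4 := by
  induction d with
  | zero => simp
  | succ d ih =>
    rw [← add_assoc, S_succ]
    have h1 := abs_sg (s (n + d))
    have : S s (n + d) + sg (s (n + d)) / 4 - S s n = (S s (n + d) - S s n) + sg (s (n + d)) / 4 := by
      ring
    rw [this]
    refine (abs_add_le _ _).trans ?_
    rw [abs_div, h1]
    push_cast
    norm_num
    linarith

lemma decomp (τ : ℝ) (h : 0 ≤ τ) : ∃ (n : ℕ) (t : ℝ), 0 ≤ t ∧ t < 1 / 4 ∧ τ = n / 4 + t := by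
  refine ⟨⌊4 * τ⌋₊, τ - ⌊4 * τ⌋₊ / 4, ?_, ?_, by ring⟩
  · have := Nat.floor_le (show 0 ≤ 4 * τ by linarith); linarith
  · have := Nat.lt_floor_add_one (4 * τ); linarith

lemma F_lip (s : Om) (x y : ℝ) (hx : 0 ≤ x) (hxy : x ≤ y) : |F s y - F s x| ≤ y - x := by
  obtain ⟨n, t, t0, t1, rfl⟩ := decomp x hx
  obtain ⟨m, u, u0, u1, rfl⟩ := decomp y (hx.trans hxy)
  rw [F_eval s n t t0 t1.le, F_eval s m u u0 u1.le]
  have hnm : n ≤ m := by
    by_contra hh
    have : (m : ℝ) + 1 ≤ n := by exact_mod_cast (by omega : m + 1 ≤ n)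
    linarith
  rcases hnm.eq_or_lt with rfl | hlt
  · have : S s n + sg (s n) * u - (S s n + sg (s n) * t) = sg (s n) * (u - t) := by ring
    rw [this, abs_mul, abs_sg, abs_of_nonneg (by linarith)]
    linarith
  · obtain ⟨d, rfl⟩ : ∃ d, m = n + 1 + d := ⟨m - (n + 1), by omega⟩
    have h1 := S_diff s (n + 1) d
    have h2 := S_succ s n
    have : S s (n + 1 + d) + sg (s (n + 1 + d)) * u - (S s n + sg (s n) * t)
        = sg (s (n + 1 + d)) * u + (S s (n + 1 + d) - S s (n + 1)) + sg (s n) * (1 / 4 - t) := by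
      rw [h2]; ring
    rw [this]
    refine (abs_add_three _ _ _).trans ?_
    rw [abs_mul, abs_mul, abs_sg, abs_sg, abs_of_nonneg u0, abs_of_nonneg (show 0 ≤ 1 / 4 - t by linarith)]
    push_cast
    linarith

def pth (s : Om) (τ : NNReal) : UnitAddCircle := (F s τ : ℝ)

lemma pth_lip (s : Om) : LipschitzWith 1 (pth s) := by
  refine LipschitzWith.of_dist_le_mul fun x y => ?_
  unfold pth
  rw [dist_eq_norm, ← AddCircle.coe_sub]
  refine le_trans QuotientAddGroup.norm_mk_le_norm ?_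
  rw [Real.norm_eq_abs, NNReal.dist_eq, NNReal.coe_one, one_mul]
  rcases le_total (x : ℝ) y with h | h
  · rw [abs_sub_comm, abs_sub_comm (x : ℝ), abs_of_nonneg (sub_nonneg.2 h)]
    exact F_lip s x y x.2 h
  · rw [abs_of_nonneg (sub_nonneg.2 h)]
    exact F_lip s y x y.2 h

lemma pth_zero (s : Om) : pth s 0 = 0 := by
  simp [pth, F, S]

lemma pth_neg (s : Om) (τ : NNReal) : pth (fun j => !s j) τ = - pth s τ := by
  have h : ∀ b, sg (!b) = - sg b := by intro b; cases b <;> simp [sg]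
  unfold pth F S
  rw [← AddCircle.coe_neg]
  congr 1
  simp only [h, neg_add, neg_mul, neg_div, Finset.sum_neg_distrib]

lemma pth_cont (τ : NNReal) : Continuous fun s : Om => pth s τ := by
  have h : ∀ j : ℕ, Continuous fun s : Om => sg (s j) := fun j =>
    (continuous_of_discreteTopology (f := sg)).comp (continuous_apply j)
  unfold pth F S
  refine (AddCircle.continuous_mk' 1).comp ?_
  exact (continuous_finsetSum _ fun j _ => (h j).div_const _).add ((h _).mul continuous_const)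

def Φ (s : Om) : C(NNReal, UnitAddCircle) := ⟨pth s, (pth_lip s).continuous⟩

lemma Φ_cont : Continuous Φ :=
  ContinuousMap.continuous_of_continuous_uncurry Φ
    (continuous_prod_of_continuous_lipschitzWith' _ 1 (fun s => pth_lip s) (fun τ => pth_cont τ))

/-! The integer walk. -/
def zs (b : Bool) : ℤ := if b then 1 else -1

def X (s r : Om) : ℕ → ℤ
  | 0 => 0
  | n + 1 => X s r n + if s n = r n then 0 else zs (r n)

lemma S_X (s r : Om) (n : ℕ) : S r n - S s n = X s r n / 2 := by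
  induction n with
  | zero => simp [S, X]
  | succ n ih =>
    rw [S_succ, S_succ, X]
    cases h1 : s n <;> cases h2 : r n <;> simp [sg, zs] <;> linarith

lemma X_congr (s r s' r' : Om) (n : ℕ) (h1 : ∀ j < n, s j = s' j) (h2 : ∀ j < n, r j = r' j) :
    X s r n = X s' r' n := by
  induction n with
  | zero => rfl
  | succ n ih =>
    rw [X, X, ih (fun j hj => h1 j (by omega)) (fun j hj => h2 j (by omega)), h1 n (by omega),
      h2 n (by omega)]

lemma X_const (s r : Om) (n d : ℕ) (h : ∀ j, n ≤ j → j < n + d → s j = r j) :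
    X s r (n + d) = X s r n := by
  induction d with
  | zero => rfl
  | succ d ih =>
    rw [← add_assoc, X, ih (fun j a b => h j a (by omega)), if_pos (h _ (by omega) (by omega))]
    simp

def lo (x : ℤ) (b : Bool) : ℤ := if b then x else x - 1

lemma arc (s r : Om) (i : ℕ) (h : ℕ) (hne : s i ≠ r i) (hp : lo (X s r i) (r i) % 2 = h) :
    ∫⁻ a in Ioc ((h : ℝ) / 2) (h / 2 + 1 / 2), T (pth s) (pth r) a
      ≤ ENNReal.ofReal (i / 8 + 1 / 16) := by
  have hi : (0 : ℝ) ≤ i := Nat.cast_nonneg i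
  have hS := S_X s r i
  have key : ∀ (a t : ℝ), 0 ≤ t → t ≤ 1 / 4 → (∃ m : ℤ, a + (S s i + sg (s i) * t) - (S r i + sg (r i) * t) = m) →
      T (pth s) (pth r) a ≤ ENNReal.ofReal (i / 4 + t) := by
    rintro a t t0 t1 ⟨m, hm⟩
    unfold T
    refine iInf₂_le_of_le ⟨i / 4 + t, by positivity⟩ ?_ ?_
    · unfold pth
      refine eq_coe m ?_
      show a + F s (i / 4 + t) - F r (i / 4 + t) = m
      rw [F_eval s i t t0 t1, F_eval r i t t0 t1, hm]
    · rw [ENNReal.ofReal, ENNReal.coe_le_coe, ← NNReal.coe_le_coe, Real.coe_toNNReal _ (by positivity)]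
      rfl
  obtain ⟨m, hm⟩ : ∃ m : ℤ, lo (X s r i) (r i) = 2 * m + h := ⟨lo (X s r i) (r i) / 2, by omega⟩
  cases h2 : r i
  · have h1 : s i = true := by cases h1 : s i <;> simp_all
    rw [h2] at hm
    have hm' : (X s r i : ℝ) - 1 = 2 * m + h := by
      have : X s r i - 1 = 2 * m + h := by simpa [lo] using hm
      exact_mod_cast this
    have : ∀ a ∈ Ioc ((h : ℝ) / 2) (h / 2 + 1 / 2), T (pth s) (pth r) a
        ≤ ENNReal.ofReal ((i / 4 + h / 4 + 1 / 4) + (-1 / 2) * a) := by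
      intro a ha
      refine (key a ((h / 2 + 1 / 2 - a) / 2) (by linarith [ha.2]) (by linarith [ha.1]) ⟨-m, ?_⟩).trans
        (ENNReal.ofReal_le_ofReal (by linarith))
      simp only [h1, h2, sg]
      simp
      linarith
    refine (setLIntegral_mono' measurableSet_Ioc this).trans ?_
    rw [lin _ _ _ _ (by linarith) (fun a ha => by linarith [ha.2])]
    exact ENNReal.ofReal_le_ofReal (le_of_eq (by ring))
  · have h1 : s i = false := by cases h1 : s i <;> simp_all
    rw [h2] at hm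
    have hm' : (X s r i : ℝ) = 2 * m + h := by
      have : X s r i = 2 * m + h := by simpa [lo] using hm
      exact_mod_cast this
    have : ∀ a ∈ Ioc ((h : ℝ) / 2) (h / 2 + 1 / 2), T (pth s) (pth r) a
        ≤ ENNReal.ofReal ((i / 4 - h / 4) + (1 / 2) * a) := by
      intro a ha
      refine (key a ((a - h / 2) / 2) (by linarith [ha.1]) (by linarith [ha.2]) ⟨-m, ?_⟩).trans
        (ENNReal.ofReal_le_ofReal (by linarith))
      simp only [h1, h2, sg]
      simp
      linarith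
    refine (setLIntegral_mono' measurableSet_Ioc this).trans ?_
    rw [lin _ _ _ _ (by linarith) (fun a ha => by linarith [ha.1])]
    exact ENNReal.ofReal_le_ofReal (le_of_eq (by ring))

lemma two_arcs (s r : Om) (i0 i1 : ℕ) (hne0 : s i0 ≠ r i0) (hp0 : lo (X s r i0) (r i0) % 2 = 0)
    (hne1 : s i1 ≠ r i1) (hp1 : lo (X s r i1) (r i1) % 2 = 1) :
    ∫⁻ a, T (pth s) (pth r) a ≤ ((i0 + i1 + 1 : ℕ) : ENNReal) * 8⁻¹ := by
  have a0 := arc s r i0 0 hne0 (by simpa using hp0)
  have a1 := arc s r i1 1 hne1 (by simpa using hp1)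
  rw [← UnitAddCircle.lintegral_preimage 0, zero_add,
    ← Ioc_union_Ioc_eq_Ioc (b := (1 / 2 : ℝ)) (by norm_num) (by norm_num)]
  refine (lintegral_union_le _ _ _).trans ?_
  simp only [Nat.cast_zero, zero_div, zero_add, Nat.cast_one, add_halves] at a0 a1
  refine (add_le_add a0 a1).trans ?_
  rw [← ENNReal.ofReal_add (by positivity) (by positivity)]
  have : ((i0 + i1 + 1 : ℕ) : ENNReal) * 8⁻¹ = ENNReal.ofReal (((i0 + i1 + 1 : ℕ) : ℝ) * 8⁻¹) := by
    rw [ENNReal.ofReal_mul (by positivity), ENNReal.ofReal_natCast,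
      ENNReal.ofReal_inv_of_pos (by norm_num)]
    simp
  rw [this]
  exact ENNReal.ofReal_le_ofReal (le_of_eq (by push_cast; ring))

/-! The ten opening patterns. -/
def tab : List (List Bool) :=
  [[true, true, true, true, true, true], [true, true, true, false, false, false],
   [true, true, false, false, true, true], [true, false, true, true, false, true],
   [true, false, false, false, false, true],
   [false, true, true, true, true, false], [false, true, false, false, true, false],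
   [false, false, true, true, false, false], [false, false, false, true, true, true],
   [false, false, false, false, false, false]]

def pat (p : Fin 10) (j : ℕ) : Bool := (tab.getD p []).getD j false

def sq (p : Fin 10) (ω : Om) (j : ℕ) : Bool := if j < 6 then pat p j else ω ((j - 6) / 2)

def fi (p q : Fin 10) (h : ℤ) : ℕ :=
  ((List.range 6).find? (fun i => decide (pat p i ≠ pat q i ∧ lo (X (pat p) (pat q) i) (pat q i) % 2 = h))).getD 6

def c0 (p q : Fin 10) (h : ℤ) (d : Bool) : ℕ :=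
  if fi p q h < 6 then fi p q h else if lo (X (pat p) (pat q) 6) d % 2 = h then 6 else 7

def c1 (p q : Fin 10) (h : ℤ) : ℕ := if fi p q h < 6 then 0 else 2

lemma fi_spec : ∀ p q : Fin 10, ∀ h ∈ [(0 : ℤ), 1], fi p q h < 6 →
    pat p (fi p q h) ≠ pat q (fi p q h) ∧
      lo (X (pat p) (pat q) (fi p q h)) (pat q (fi p q h)) % 2 = h := by
  decide +kernel

lemma c0_sum : ∀ d : Bool, ∑ p : Fin 10, ∑ q : Fin 10, (c0 p q 0 d + c0 p q 1 d + 1) = 558 := by
  decide +kernel

lemma c1_sum : ∑ p : Fin 10, ∑ q : Fin 10, (c1 p q 0 + c1 p q 1) = 40 := by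
  decide +kernel

lemma pat_rev : ∀ p : Fin 10, ∀ j < 6, pat (Fin.rev p) j = !pat p j := by
  decide +kernel

lemma sq_rev (p : Fin 10) (ω : Om) : sq (Fin.rev p) (fun j => !ω j) = fun j => !sq p ω j := by
  funext j
  unfold sq
  split_ifs with h
  · exact pat_rev p j h
  · rfl

lemma idx_spec (p q : Fin 10) (η ω : Om) (k : ℕ) (hag : ∀ j < k, η j = ω j) (hk : η k ≠ ω k)
    (h : ℤ) (hh : h ∈ [(0 : ℤ), 1]) :
    sq p η (c0 p q h (ω k) + c1 p q h * k) ≠ sq q ω (c0 p q h (ω k) + c1 p q h * k) ∧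
    lo (X (sq p η) (sq q ω) (c0 p q h (ω k) + c1 p q h * k))
      (sq q ω (c0 p q h (ω k) + c1 p q h * k)) % 2 = h := by
  have hX : ∀ n ≤ 6, X (sq p η) (sq q ω) n = X (pat p) (pat q) n := fun n hn =>
    X_congr _ _ _ _ n (fun j hj => by simp [sq, show j < 6 by omega])
      (fun j hj => by simp [sq, show j < 6 by omega])
  by_cases hf : fi p q h < 6
  · have := fi_spec p q h hh hf
    simp only [c0, c1, if_pos hf, zero_mul, add_zero]
    rw [hX _ hf.le]
    simpa only [sq, if_pos hf] using this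
  · have e1 : X (sq p η) (sq q ω) (6 + 2 * k) = X (pat p) (pat q) 6 := by
      rw [X_const, hX 6 le_rfl]
      intro j a b
      simp only [sq, if_neg (show ¬ j < 6 by omega)]
      exact hag _ (by omega)
    have s1 : ∀ (r : Fin 10) (ζ : Om), sq r ζ (6 + 2 * k) = ζ k := by
      intro r ζ
      simp only [sq, if_neg (show ¬ 6 + 2 * k < 6 by omega)]
      congr 1; omega
    have s2 : ∀ (r : Fin 10) (ζ : Om), sq r ζ (7 + 2 * k) = ζ k := by
      intro r ζ
      simp only [sq, if_neg (show ¬ 7 + 2 * k < 6 by omega)]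
      congr 1; omega
    by_cases hl : lo (X (pat p) (pat q) 6) (ω k) % 2 = h
    · simp only [c0, c1, if_neg hf, if_pos hl]
      rw [s1, s1, e1]
      exact ⟨hk, hl⟩
    · simp only [c0, c1, if_neg hf, if_neg hl]
      rw [s2, s2, show 7 + 2 * k = 6 + 2 * k + 1 by omega, X, e1, s1, s1, if_neg hk]
      refine ⟨hk, ?_⟩
      simp only [List.mem_cons, List.not_mem_nil, or_false] at hh
      revert hl
      cases ω k <;> simp only [lo, zs] <;> simp <;> omega

lemma up (η ω : Om) : ∑ p : Fin 10, ∑ q : Fin 10, ∫⁻ a, T (pth (sq p η)) (pth (sq q ω)) a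
    ≤ 558 * 8⁻¹ + (40 * 8⁻¹) * K η ω := by
  rcases cases_K η ω with rfl | ⟨k, h, hk⟩
  · rw [K_top, ENNReal.mul_top (by simp)]
    simp
  · rw [K_eq η ω k h hk]
    have h1 : ∀ p q : Fin 10, ∫⁻ a, T (pth (sq p η)) (pth (sq q ω)) a ≤
        (((c0 p q 0 (ω k) + c0 p q 1 (ω k) + 1) + (c1 p q 0 + c1 p q 1) * k : ℕ) : ENNReal) * 8⁻¹ := by
      intro p q
      have a0 := idx_spec p q η ω k h hk 0 (by simp)
      have a1 := idx_spec p q η ω k h hk 1 (by simp)
      refine (two_arcs _ _ _ _ a0.1 a0.2 a1.1 a1.2).trans (le_of_eq ?_)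
      congr 2
      ring
    refine (Finset.sum_le_sum fun p _ => Finset.sum_le_sum fun q _ => h1 p q).trans (le_of_eq ?_)
    simp_rw [← Finset.sum_mul, ← Nat.cast_sum]
    have : ∑ p : Fin 10, ∑ q : Fin 10,
        ((c0 p q 0 (ω k) + c0 p q 1 (ω k) + 1) + (c1 p q 0 + c1 p q 1) * k) = 558 + 40 * k := by
      rw [← c0_sum (ω k), ← c1_sum, Finset.sum_mul, ← Finset.sum_add_distrib]
      refine Finset.sum_congr rfl fun p _ => ?_
      rw [Finset.sum_mul, ← Finset.sum_add_distrib]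
    rw [this]
    push_cast
    ring

lemma sum_le_lint {α ι : Type*} [MeasurableSpace α] (μ : Measure α) (s : Finset ι)
    (f : ι → α → ENNReal) : ∑ i ∈ s, ∫⁻ a, f i a ∂μ ≤ ∫⁻ a, ∑ i ∈ s, f i a ∂μ := by
  classical
  induction s using Finset.induction_on with
  | empty => simp
  | insert i s hi ih =>
    simp_rw [Finset.sum_insert hi]
    exact (add_le_add le_rfl ih).trans (le_lintegral_add _ _)

/-! The mixed strategy. -/
abbrev Pa := C(NNReal, UnitAddCircle)

instance : MeasurableSpace Pa := borel Pa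
instance : BorelSpace Pa := ⟨rfl⟩

lemma sq_cont (p : Fin 10) : Continuous (sq p) := by
  refine continuous_pi fun j => ?_
  unfold sq
  split_ifs
  · exact continuous_const
  · exact continuous_apply _

lemma Φ_meas (p : Fin 10) : Measurable fun ω => Φ (sq p ω) :=
  (Φ_cont.comp (sq_cont p)).measurable

def μ0 : Measure Pa := ∑ p : Fin 10, (10⁻¹ : ENNReal) • P.map (fun ω => Φ (sq p ω))

lemma μ0_prob : IsProbabilityMeasure μ0 := by
  constructor
  unfold μ0
  rw [Measure.finsetSum_apply]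
  simp_rw [Measure.smul_apply, Measure.map_apply (Φ_meas _) MeasurableSet.univ]
  simp
  exact ENNReal.mul_inv_cancel (by simp) (by simp)

lemma μ0_ae : ∀ᵐ (f : Pa) ∂μ0, LipschitzWith 1 (⇑f) ∧ f 0 = 0 := by
  have hc : IsClosed {f : Pa | LipschitzWith 1 (⇑f) ∧ f 0 = 0} := by
    refine IsClosed.inter (s₁ := {f : Pa | LipschitzWith 1 (⇑f)}) (s₂ := {f : Pa | f 0 = 0}) ?_ ?_
    · have : {f : Pa | LipschitzWith 1 (⇑f)}
          = ⋂ x, ⋂ y, {f : Pa | edist (f x) (f y) ≤ (1 : NNReal) * edist x y} := by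
        ext f; simp only [mem_iInter, mem_ofPred_eq]; rfl
      rw [this]
      exact isClosed_iInter fun x => isClosed_iInter fun y =>
        isClosed_le ((continuous_eval_const x).edist (continuous_eval_const y)) continuous_const
    · exact isClosed_eq (continuous_eval_const _) continuous_const
  rw [ae_iff]
  have hm : MeasurableSet {f : Pa | ¬ (LipschitzWith 1 (⇑f) ∧ f 0 = 0)} := hc.measurableSet.compl
  unfold μ0
  rw [Measure.finsetSum_apply]
  refine Finset.sum_eq_zero fun p _ => ?_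
  rw [Measure.smul_apply, Measure.map_apply (Φ_meas _) hm]
  have : (fun ω => Φ (sq p ω)) ⁻¹' {f : Pa | ¬ (LipschitzWith 1 (⇑f) ∧ f 0 = 0)} = ∅ := by
    ext ω
    simp only [mem_preimage, mem_ofPred_eq, mem_empty_iff_false, iff_false, not_not]
    exact ⟨pth_lip _, pth_zero _⟩
  rw [this]; simp

lemma μ0_le (H : Pa → ENNReal) :
    ∫⁻ f, H f ∂μ0 ≤ ∫⁻ ω, 10⁻¹ * ∑ p : Fin 10, H (Φ (sq p ω)) ∂P := by
  unfold μ0
  rw [lintegral_finsetSum_measure]
  simp_rw [lintegral_smul_measure, smul_eq_mul]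
  rw [← Finset.mul_sum, lintegral_const_mul' _ _ (by simp)]
  gcongr
  exact (Finset.sum_le_sum fun p _ => lintegral_map_le _ _).trans (sum_le_lint _ _ _)

lemma μ0_two (H : Pa → Pa → ENNReal) (c : ENNReal)
    (hc : ∀ η, ∫⁻ ω, ∑ p : Fin 10, ∑ q : Fin 10, H (Φ (sq p η)) (Φ (sq q ω)) ∂P ≤ c) :
    ∫⁻ f, ∫⁻ g, H f g ∂μ0 ∂μ0 ≤ 10⁻¹ * (10⁻¹ * c) := by
  refine (μ0_le _).trans ?_
  refine (lintegral_mono (g := fun _ => 10⁻¹ * (10⁻¹ * c)) fun η => ?_).trans (by simp)
  beta_reduce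
  gcongr
  refine (Finset.sum_le_sum fun p _ => μ0_le _).trans ?_
  simp_rw [lintegral_const_mul' _ _ (show (10⁻¹ : ENNReal) ≠ ⊤ by simp)]
  rw [← Finset.mul_sum]
  gcongr
  exact (sum_le_lint _ _ _).trans (hc η)

lemma num : (10⁻¹ * (10⁻¹ * (558 * 8⁻¹ + 40 * 8⁻¹)) : ENNReal) < 4⁻¹ + 2⁻¹ := by
  rw [← ENNReal.toReal_lt_toReal (by finiteness) (by finiteness)]
  rw [ENNReal.toReal_add (by finiteness) (by finiteness), ENNReal.toReal_mul, ENNReal.toReal_mul,
    ENNReal.toReal_add (by finiteness) (by finiteness)]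
  simp
  norm_num

lemma directed : ∫⁻ f, ∫⁻ g, ∫⁻ a, T f g a ∂volume ∂μ0 ∂μ0 < 4⁻¹ + 2⁻¹ := by
  refine lt_of_le_of_lt (μ0_two (fun f g => ∫⁻ a, T f g a) _ fun η => ?_) num
  rw [← aff_int _ _ η]
  exact lintegral_mono fun ω => up η ω

lemma T_meas (f g : NNReal → UnitAddCircle) (hf : Continuous f) (hg : Continuous g) :
    Measurable (T f g) := by
  refine measurable_of_Iio fun c => ?_
  have : T f g ⁻¹' Iio c = ⋃ (q : ℚ) (_ : ((Real.toNNReal q : NNReal) : ENNReal) < c),
      (fun τ => g τ - f τ) '' Icc 0 (Real.toNNReal q) := by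
    ext a
    simp only [T, mem_preimage, mem_Iio, iInf_lt_iff, mem_iUnion, mem_image, mem_Icc]
    constructor
    · rintro ⟨τ, h1, h2⟩
      obtain ⟨q, -, h3, h4⟩ := ENNReal.lt_iff_exists_rat_btwn.1 h2
      exact ⟨q, h4, τ, ⟨by simp, by exact_mod_cast h3.le⟩, by rw [← h1]; simp⟩
    · rintro ⟨q, h1, τ, ⟨-, h2⟩, h3⟩
      exact ⟨τ, by rw [← h3]; simp, lt_of_le_of_lt (by exact_mod_cast h2) h1⟩
  rw [this]
  exact MeasurableSet.iUnion fun q => MeasurableSet.iUnion fun _ =>
    (isCompact_Icc.image (hg.sub hf)).measurableSet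

lemma K_neg (η ω : Om) : K η (fun j => !ω j) = K (fun j => !η j) ω := by
  unfold K
  congr 1
  funext k
  have : (fun j => !ω j) ∈ A η k ↔ ω ∈ A (fun j => !η j) k := by
    simp only [A, mem_ofPred_eq]
    refine forall₂_congr fun j _ => ?_
    cases η j <;> cases ω j <;> simp
  by_cases h : ω ∈ A (fun j => !η j) k
  · simp [h, this.2 h]
  · simp [h, mt this.1 h]

lemma up' (η ω : Om) :
    ∑ p : Fin 10, ∑ q : Fin 10, ∫⁻ a, T (pth (sq p η)) (fun τ => - pth (sq q ω) τ) a
    ≤ 558 * 8⁻¹ + (40 * 8⁻¹) * K (fun j => !η j) ω := by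
  rw [← K_neg]
  refine le_trans (le_of_eq ?_) (up η _)
  refine Finset.sum_congr rfl fun p _ => ?_
  rw [← Equiv.sum_comp Fin.revPerm (fun q => ∫⁻ a, T (pth (sq p η)) (pth (sq q (fun j => !ω j))) a)]
  refine Finset.sum_congr rfl fun q _ => ?_
  have : pth (sq (Fin.revPerm q) (fun j => !ω j)) = fun τ => - pth (sq q ω) τ := by
    funext τ
    rw [Fin.revPerm_apply, sq_rev, pth_neg]
  rw [this]

lemma undirected : ∫⁻ f, ∫⁻ g, 2⁻¹ * ∫⁻ a, T f g a + T f (fun τ => - g τ) a ∂volume ∂μ0 ∂μ0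
    < 4⁻¹ + 2⁻¹ := by
  refine lt_of_le_of_lt (μ0_two (fun f g => 2⁻¹ * ∫⁻ a, T f g a + T f (fun τ => - g τ) a) _
    fun η => ?_) num
  have h1 : ∀ ω, ∑ p : Fin 10, ∑ q : Fin 10, 2⁻¹ * ∫⁻ a, T (Φ (sq p η)) (Φ (sq q ω)) a
        + T (Φ (sq p η)) (fun τ => - (Φ (sq q ω)) τ) a
      ≤ 2⁻¹ * ((558 * 8⁻¹ + (40 * 8⁻¹) * K η ω) + (558 * 8⁻¹ + (40 * 8⁻¹) * K (fun j => !η j) ω)) := by
    intro ω
    simp_rw [← Finset.mul_sum]
    gcongr
    refine le_trans (le_of_eq ?_) (add_le_add (up η ω) (up' η ω))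
    rw [← Finset.sum_add_distrib]
    refine Finset.sum_congr rfl fun p _ => ?_
    rw [← Finset.sum_add_distrib]
    refine Finset.sum_congr rfl fun q _ => ?_
    rw [lintegral_add_left (T_meas _ _ (Φ _).continuous (Φ _).continuous)]
    rfl
  refine (lintegral_mono h1).trans (le_of_eq ?_)
  rw [lintegral_const_mul' _ _ (by simp),
    lintegral_add_left (((K_meas η).const_mul _).const_add _), aff_int, aff_int, ← two_mul, ← mul_assoc,
    ENNReal.inv_mul_cancel (by simp) (by simp), one_mul]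

lemma low_two : (4⁻¹ + 2⁻¹ : ENNReal) ≤ ∫⁻ η, ∫⁻ ω,
    ∫⁻ a, T (fun τ => (G η τ : UnitAddCircle)) (fun τ => (G ω τ : UnitAddCircle)) a ∂volume ∂P ∂P :=
  le_trans (by simp) (lintegral_mono low_int)

lemma low_two' : (4⁻¹ + 2⁻¹ : ENNReal) ≤ ∫⁻ η, ∫⁻ ω, 2⁻¹ *
    ∫⁻ a, T (fun τ => (G η τ : UnitAddCircle)) (fun τ => (G ω τ : UnitAddCircle)) a
      + T (fun τ => (G η τ : UnitAddCircle)) (fun τ => - (G ω τ : UnitAddCircle)) a ∂volume ∂P ∂P := by
  refine le_trans (by simp) (lintegral_mono (f := fun _ => (4⁻¹ + 2⁻¹ : ENNReal)) fun η => ?_)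
  have h1 : ∀ ω, 2⁻¹ * ((4⁻¹ + 2⁻¹ * K η ω) + (4⁻¹ + 2⁻¹ * K (fun j => !η j) ω)) ≤ 2⁻¹ *
    ∫⁻ a, T (fun τ => (G η τ : UnitAddCircle)) (fun τ => (G ω τ : UnitAddCircle)) a
      + T (fun τ => (G η τ : UnitAddCircle)) (fun τ => - (G ω τ : UnitAddCircle)) a := by
    intro ω
    gcongr
    refine le_trans (add_le_add (low η ω) ?_) (le_lintegral_add _ _)
    rw [← K_neg]
    refine le_trans (low η _) (le_of_eq ?_)
    simp only [G_neg, AddCircle.coe_neg]
  refine le_trans (le_of_eq ?_) (lintegral_mono h1)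
  rw [lintegral_const_mul' _ _ (by simp),
    lintegral_add_left (((K_meas η).const_mul _).const_add _), aff_int, aff_int, ← two_mul, ← mul_assoc,
    ENNReal.inv_mul_cancel (by simp) (by simp), one_mul]

end
end Pool.Agent.H22.Rdv
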