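import Mathlib
import Pool.Agent.H22.Perc3

set_option autoImplicit false
open MeasureTheory ProbabilityTheory Set

namespace Pool.Agent.H22.Sand
noncomputable section
open Pool.Agent.H22.Perc3

def T : ℕ → ℕ
  | 0 => 2 ^ 36
  | n + 1 => T n ^ 2

lemma T_succ (n : ℕ) : T (n + 1) = T n ^ 2 := rfl

lemma T_ge (n : ℕ) : (2 ^ (n + 1)) ^ 36 ≤ T n := by
  induction n with
  | zero => simp [T]
  | succ n ih =>
    rw [T_succ, pow_succ 2 (n + 1), mul_pow, sq]
    exact Nat.mul_le_mul ih (le_trans (Nat.pow_le_pow_left (Nat.le_self_pow (by omega) 2) 36) ih)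

lemma T_big (n : ℕ) : 2 ^ 36 ≤ T n :=
  le_trans (Nat.pow_le_pow_left (Nat.le_self_pow (by omega) 2) 36) (T_ge n)

attribute [irreducible] T

lemma T_mono : Monotone T := monotone_nat_of_le_succ fun n => by
  rw [T_succ]; exact Nat.le_self_pow two_ne_zero _

def w (k : ℕ) : ℝ := 2⁻¹ ^ (k + 1)

def t (k : ℕ) : ℝ := 16 * (T k : ℝ) ^ 8

lemma w_pos (k : ℕ) : 0 < w k := by unfold w; positivity

lemma T_one (k : ℕ) : (1 : ℝ) ≤ T k := by
  have := T_big k
  exact_mod_cast le_trans (by norm_num) this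

lemma t_one (k : ℕ) : 1 ≤ t k := by
  have := one_le_pow₀ (n := 8) (T_one k)
  unfold t; linarith

lemma t_mono : Monotone t := fun a b h => by
  have : (T a : ℝ) ≤ T b := by exact_mod_cast T_mono h
  unfold t; gcongr

lemma t_lt (k : ℕ) : t k < t (k + 1) := by
  have h : (2 : ℝ) ≤ T k := by exact_mod_cast le_trans (by norm_num) (T_big k)
  have : (T k : ℝ) < T (k + 1) := by rw [T_succ]; push_cast; nlinarith
  unfold t; gcongr

lemma wT (k : ℕ) : 1 ≤ w k ^ 36 * T k := by
  have h : ((2 : ℝ) ^ (k + 1)) ^ 36 ≤ T k := by exact_mod_cast T_ge k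
  have h1 : w k * 2 ^ (k + 1) = 1 := by simp [w]
  have h2 : w k ^ 36 * (2 ^ (k + 1)) ^ 36 = 1 := by rw [← mul_pow, h1, one_pow]
  rw [← h2]
  exact mul_le_mul_of_nonneg_left h (pow_pos (w_pos k) _).le

lemma w_le (k : ℕ) : w k ≤ 2⁻¹ := by
  unfold w
  exact pow_le_of_le_one (by norm_num) (by norm_num) (by omega)

lemma w_sum : HasSum w 1 := by
  have := (hasSum_geometric_of_lt_one (r := 2⁻¹) (by norm_num) (by norm_num)).mul_right 2⁻¹
  have e : w = fun i => 2⁻¹ ^ i * 2⁻¹ := funext fun k => pow_succ _ _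
  rwa [show ((1 : ℝ) - 2⁻¹)⁻¹ * 2⁻¹ = 1 by norm_num, ← e] at this

lemma w_tail (n : ℕ) : HasSum (fun k => if n < k then w k else 0) (w n) := by
  rw [← hasSum_nat_add_iff' (n + 1), Finset.sum_eq_zero (fun k hk => if_neg (by
    simp only [Finset.mem_range] at hk; omega)), sub_zero]
  have e : (fun k => if n < k + (n + 1) then w (k + (n + 1)) else 0) = fun k => w k * w n := by
    ext k
    rw [if_pos (by omega), w, w, w, ← pow_add]
    congr 1; omega
  rw [e]
  simpa using w_sum.mul_right (w n)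

def ν : Measure ℝ := Measure.sum fun k => ENNReal.ofReal (w k * (1 - 1 / t k)) • Measure.dirac 0 +
  ENNReal.ofReal (w k / t k) • Measure.dirac (t k)

lemma lint (φ : ℝ → ℝ) (h0 : ∀ x, 0 ≤ φ x) : ∫⁻ x, ENNReal.ofReal (φ x) ∂ν =
    ∑' k, ENNReal.ofReal (w k * ((1 - 1 / t k) * φ 0 + φ (t k) / t k)) := by
  rw [ν, lintegral_sum_measure]
  congr 1
  ext k
  have h1 := t_one k
  have h2 := w_pos k
  have h3 : 0 ≤ 1 - 1 / t k := by rw [sub_nonneg, div_le_one (by linarith)]; exact h1
  have := h0 0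
  have := h0 (t k)
  rw [lintegral_add_measure, lintegral_smul_measure, lintegral_smul_measure, lintegral_dirac,
    lintegral_dirac, smul_eq_mul, smul_eq_mul, ← ENNReal.ofReal_mul (by positivity),
    ← ENNReal.ofReal_mul (by positivity), ← ENNReal.ofReal_add (by positivity) (by positivity)]
  congr 1; ring

lemma lint_le (φ : ℝ → ℝ) (h0 : ∀ x, 0 ≤ φ x) (a : ℕ → ℝ) (B : ℝ) (ha : HasSum a B)
    (h : ∀ k, w k * ((1 - 1 / t k) * φ 0 + φ (t k) / t k) ≤ a k) :
    ∫⁻ x, ENNReal.ofReal (φ x) ∂ν ≤ ENNReal.ofReal B := by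
  rw [lint φ h0, ← ha.tsum_eq, ENNReal.ofReal_tsum_of_nonneg (fun k => le_trans ?_ (h k))
    ha.summable]
  · exact ENNReal.tsum_le_tsum fun k => ENNReal.ofReal_le_ofReal (h k)
  · have h1 := t_one k
    have h2 := w_pos k
    have h3 : 0 ≤ 1 - 1 / t k := by rw [sub_nonneg, div_le_one (by linarith)]; exact h1
    have := h0 0
    have := h0 (t k)
    positivity

lemma sum_w : ∑' k, ENNReal.ofReal (w k) = 1 := by
  rw [← ENNReal.ofReal_tsum_of_nonneg (fun k => (w_pos k).le) w_sum.summable, w_sum.tsum_eq]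
  simp

instance : IsProbabilityMeasure ν := ⟨by
  have := lint (fun _ => 1) (fun _ => zero_le_one)
  simp only [ENNReal.ofReal_one, lintegral_const, one_mul, mul_one, sub_add_cancel] at this
  rw [this, sum_w]⟩

lemma meas_eq (S : Set ℝ) (hS : MeasurableSet S) :
    ν S = ∫⁻ x, ENNReal.ofReal (S.indicator 1 x) ∂ν := by
  rw [← lintegral_indicator_one hS]
  congr 1
  ext x
  by_cases h : x ∈ S <;> simp [h]

lemma neg_null : ν (Iio 0) = 0 := by
  rw [meas_eq _ measurableSet_Iio, lint ((Iio 0).indicator 1) fun x =>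
    indicator_nonneg (fun _ _ => zero_le_one) x]
  simp only [ENNReal.tsum_eq_zero]
  intro k
  rw [indicator_of_notMem (by simp), indicator_of_notMem (by simp; linarith [t_one k])]
  simp

lemma big_le (n : ℕ) : ν (Ioi (t n)) ≤ ENNReal.ofReal (w n / t (n + 1)) := by
  rw [meas_eq _ measurableSet_Ioi]
  refine lint_le _ (fun x => indicator_nonneg (fun _ _ => zero_le_one) x) _ _
    ((w_tail n).div_const (t (n + 1))) fun k => ?_
  rw [indicator_of_notMem (by simp; linarith [t_one n])]
  by_cases h : n < k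
  · have h1 := t_mono (show n + 1 ≤ k from h)
    have h2 := t_one (n + 1)
    have h3 := w_pos k
    rw [if_pos h, indicator_of_mem (show t k ∈ Ioi (t n) from (t_lt n).trans_le h1)]
    simp only [mul_zero, zero_add, mul_one_div]
    gcongr
  · rw [if_neg h, indicator_of_notMem (by simpa using t_mono (not_lt.1 h))]
    simp

lemma abs_lint : ∫⁻ x, ENNReal.ofReal |x| ∂ν = 1 := by
  rw [lint _ abs_nonneg, ← sum_w]
  congr 1
  ext k
  have := t_one k
  rw [abs_of_nonneg (by linarith : 0 ≤ t k), div_self (by linarith)]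
  simp

lemma ν_int : Integrable (fun x : ℝ => x) ν := by
  refine ⟨measurable_id.aestronglyMeasurable, ?_⟩
  rw [hasFiniteIntegral_iff_norm]
  simp only [Real.norm_eq_abs, abs_lint, ENNReal.one_lt_top]

lemma ν_mean : ∫ x, x ∂ν = 1 := by
  have h : ∀ᵐ x ∂ν, x = |x| := by
    filter_upwards [measure_eq_zero_iff_ae_notMem.1 neg_null] with x hx
    exact (abs_of_nonneg (by simpa using hx)).symm
  rw [integral_congr_ae h, integral_eq_lintegral_of_nonneg_ae (ae_of_all _ abs_nonneg)
    (by fun_prop), abs_lint]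
  simp

lemma ν_sq : ¬ Integrable (fun x : ℝ => x ^ 2) ν := by
  intro h
  have h1 := h.2
  rw [hasFiniteIntegral_iff_norm] at h1
  simp only [norm_pow, Real.norm_eq_abs, sq_abs] at h1
  rw [lint _ sq_nonneg] at h1
  refine h1.ne (top_le_iff.1 (le_trans (le_of_eq (ENNReal.tsum_const_eq_top_of_ne_zero (α := ℕ)
    one_ne_zero).symm) (ENNReal.tsum_le_tsum fun k => ?_)))
  have h2 := t_one k
  have h3 := wT k
  have h4 := w_pos k
  have h5 := T_one k
  have h6 : w k ^ 36 ≤ w k := pow_le_of_le_one h4.le (by linarith [w_le k]) (by omega)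
  have h7 : (T k : ℝ) ≤ T k ^ 8 := le_self_pow₀ h5 (by omega)
  rw [ENNReal.one_le_ofReal, show w k * ((1 - 1 / t k) * 0 ^ 2 + t k ^ 2 / t k) = w k * t k by
    field_simp; ring, t]
  nlinarith [mul_le_mul h6 h7 (by linarith) h4.le]

def tr (n : ℕ) (x : ℝ) : ℝ := if x ≤ t n then x else 0

def y (n : ℕ) : ℝ := w n ^ 2 / (16 * t n)

lemma mgf (n : ℕ) : ∫⁻ x, ENNReal.ofReal (Real.exp (w n / (4 * t n) * (tr n x - 1 + w n / 2))) ∂ν ≤
    ENNReal.ofReal (Real.exp (-y n)) := by
  have h1 := t_one n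
  have h2 := w_pos n
  have h3 := w_le n
  set θ := w n / (4 * t n) with hθ
  have h4 : 0 < θ := by positivity
  have h5 : θ * t n = w n / 4 := by rw [hθ]; field_simp
  have h6 : y n = θ * w n / 4 := by rw [hθ, y]; field_simp; ring
  set c := Real.exp (θ * (-1 + w n / 2))
  have hc : 0 < c := Real.exp_pos _
  refine (lint_le _ (fun _ => (Real.exp_pos _).le) _ _ (((w_sum.mul_left (1 + θ + θ * w n / 4)).sub
    ((w_tail n).mul_left θ)).mul_left c) fun k => ?_).trans (ENNReal.ofReal_le_ofReal ?_)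
  · have h7 := t_one k
    have h8 := w_pos k
    have e : ∀ x, Real.exp (θ * (x - 1 + w n / 2)) = c * Real.exp (θ * x) := fun x => by
      rw [← Real.exp_add]; congr 1; ring
    rw [e, e, tr, tr, if_pos (by linarith), mul_zero, Real.exp_zero]
    by_cases h : n < k
    · rw [if_pos h, if_neg (not_le.2 ((t_lt n).trans_le (t_mono (show n + 1 ≤ k from h)))),
        mul_zero, Real.exp_zero]
      have : w k * ((1 - 1 / t k) * (c * 1) + c * 1 / t k) = c * w k := by field_simp; ring
      rw [this]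
      have : 0 ≤ c * (θ * w n / 4 * w k) := by positivity
      linarith
    · have h9 := t_mono (not_lt.1 h)
      rw [if_neg h, if_pos h9]
      have h10 : θ * t k ≤ w n / 4 := by rw [← h5]; gcongr
      have h11 := (abs_le.1 (Real.abs_exp_sub_one_sub_id_le (x := θ * t k)
        (by rw [abs_of_nonneg (by positivity)]; linarith))).2
      have h12 : (Real.exp (θ * t k) - 1) / t k ≤ θ + θ * w n / 4 := by
        rw [div_le_iff₀ (by linarith)]
        have : 0 ≤ θ * t k := by positivity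
        nlinarith
      have : w k * ((1 - 1 / t k) * (c * 1) + c * Real.exp (θ * t k) / t k) =
          c * w k * (1 + (Real.exp (θ * t k) - 1) / t k) := by field_simp; ring
      rw [this]
      have h13 := mul_le_mul_of_nonneg_left h12 (mul_pos hc h8).le
      linarith
  · refine (mul_le_mul_of_nonneg_left (show _ ≤ Real.exp (θ - 3 * θ * w n / 4) by
      linarith [Real.add_one_le_exp (θ - 3 * θ * w n / 4)]) hc.le).trans (le_of_eq ?_)
    rw [← Real.exp_add, h6]; congr 1; ring

lemma chern {V : Type} (n : ℕ) (F : Finset V) : Measure.infinitePi (fun _ : V => ν)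
    {σ | (1 - w n / 2) * F.card ≤ ∑ x ∈ F, tr n (σ x)} ≤
      ENNReal.ofReal (Real.exp (-y n)) ^ F.card := by
  let ψ : ℝ → ENNReal := fun x =>
    ENNReal.ofReal (Real.exp (w n / (4 * t n) * (tr n x - 1 + w n / 2)))
  have hm : Measurable ψ := by
    have : Measurable (tr n) :=
      Measurable.ite (measurableSet_le measurable_id measurable_const) measurable_id measurable_const
    fun_prop
  have h1 : iIndepFun (fun (i : V) (ω : V → ℝ) => ψ (ω i)) (Measure.infinitePi fun _ => ν) :=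
    iIndepFun_infinitePi (X := fun _ x => ψ x) (fun _ => hm)
  have h2 := lintegral_prod_eq_prod_lintegral_of_indepFun F _ h1 (by fun_prop)
  have h3 := mul_meas_ge_le_lintegral (μ := Measure.infinitePi fun _ : V => ν)
    (f := fun σ => ∏ x ∈ F, ψ (σ x)) (by fun_prop) 1
  rw [one_mul, h2] at h3
  refine (measure_mono fun σ hσ => ?_).trans (h3.trans (Finset.prod_le_pow_card _ _ _ fun x _ => ?_))
  · simp only [mem_ofPred_eq, ψ] at hσ ⊢
    rw [← ENNReal.ofReal_prod_of_nonneg (fun _ _ => (Real.exp_pos _).le), ← Real.exp_sum,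
      ENNReal.one_le_ofReal, Real.one_le_exp_iff, ← Finset.mul_sum]
    have := t_one n
    have := w_pos n
    refine mul_nonneg (by positivity) ?_
    simp only [Finset.sum_add_distrib, Finset.sum_sub_distrib, Finset.sum_const, nsmul_eq_mul]
    linarith
  · rw [(measurePreserving_eval_infinitePi (fun _ : V => ν) x).lintegral_comp hm]
    exact mgf n

lemma geo (n : ℕ) : ∑' i, ENNReal.ofReal (Real.exp (-y n)) ^ (T n ^ 10 + i) ≤
    ENNReal.ofReal (w n / 4) := by
  have h1 := t_one n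
  have h2 := w_pos n
  have h3 := w_le n
  have h4 : 0 < y n := by unfold y; positivity
  have h5 : y n ≤ 1 := by
    rw [y, div_le_one (by positivity)]; nlinarith
  have h6 : Real.exp (-y n) < 1 := Real.exp_lt_one_iff.2 (by linarith)
  have hs := (hasSum_geometric_of_lt_one (Real.exp_pos _).le h6).mul_left
    (Real.exp (-y n) ^ (T n ^ 10))
  simp only [← pow_add] at hs
  simp only [← ENNReal.ofReal_pow (Real.exp_pos _).le]
  rw [← ENNReal.ofReal_tsum_of_nonneg (fun _ => by positivity) hs.summable, hs.tsum_eq]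
  refine ENNReal.ofReal_le_ofReal ?_
  have h7 : (1 - Real.exp (-y n))⁻¹ ≤ 2 / y n := by
    have h8 : Real.exp (-y n) * (y n + 1) ≤ 1 := by
      rw [Real.exp_neg, inv_mul_le_iff₀ (Real.exp_pos _), mul_one]
      exact Real.add_one_le_exp _
    rw [inv_le_comm₀ (by linarith) (by positivity), inv_div]
    nlinarith [Real.exp_pos (-y n)]
  have hT := T_one n
  have h8 : Real.exp (-y n) ^ (T n ^ 10) ≤ 120 / (y n * T n ^ 10) ^ 5 := by
    have := Real.pow_div_factorial_le_exp (y n * T n ^ 10) (by positivity) 5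
    rw [← Real.exp_nat_mul, show ((T n ^ 10 : ℕ) : ℝ) * -y n = -(y n * T n ^ 10) by
      push_cast; ring, Real.exp_neg, inv_le_comm₀ (Real.exp_pos _) (by positivity), inv_div]
    simpa [Nat.factorial] using this
  refine (mul_le_mul h8 h7 (inv_nonneg.2 (by linarith)) (by positivity)).trans ?_
  have h9 : 120 / (y n * T n ^ 10) ^ 5 * (2 / y n) = 240 * 256 ^ 6 / (w n ^ 12 * T n ^ 2) := by
    rw [y, t]; field_simp; ring
  rw [h9, div_le_div_iff₀ (by positivity) (by positivity)]
  have h10 := wT n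
  have h11 : w n ^ 59 ≤ 2⁻¹ ^ 59 := by gcongr
  have h12 : 1 ≤ (w n ^ 36 * T n) ^ 2 := one_le_pow₀ h10
  have h13 : (w n ^ 36 * T n) ^ 2 = w n ^ 59 * (w n * (w n ^ 12 * T n ^ 2)) := by ring
  have h14 : 0 ≤ w n * (w n ^ 12 * T n ^ 2) := by positivity
  have h15 := mul_le_mul_of_nonneg_right h11 h14
  norm_num at h15 ⊢
  linarith

end
end Pool.Agent.H22.Sand
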