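import Mathlib
import Pool.Agent.H22.Sand1

set_option autoImplicit false
open MeasureTheory ProbabilityTheory Set

namespace Pool.Agent.H22.Sand
noncomputable section
open Pool.Agent.H22.Perc3 Classical

def a (n : ℕ) : ℕ := 2 * T n ^ 8
def m (n : ℕ) : ℕ := T n ^ 5

lemma m_pos (n : ℕ) : 1 ≤ m n := Nat.one_le_pow _ _ (lt_of_lt_of_le (by norm_num) (T_big n))

lemma pw (n : ℕ) : T n ^ 5 ≤ T n ^ 8 ∧ 4 * T n ^ 8 ≤ T n ^ 10 ∧ T n ^ 10 ≤ T n ^ 16 ∧
    4 * T n ^ 8 ≤ T n ^ 16 := by
  have h : 2 ≤ T n := le_trans (by norm_num) (T_big n)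
  have h1 : 4 * T n ^ 8 ≤ T n ^ 10 := by
    rw [show T n ^ 10 = T n ^ 2 * T n ^ 8 by ring]
    exact Nat.mul_le_mul_right _ (Nat.pow_le_pow_left h 2)
  have h2 : T n ^ 10 ≤ T n ^ 16 := Nat.pow_le_pow_right (by omega) (by omega)
  exact ⟨Nat.pow_le_pow_right (by omega) (by omega), h1, h2, h1.trans h2⟩

lemma T8 (n : ℕ) : T (n + 1) ^ 8 = T n ^ 16 := by rw [T_succ]; ring

lemma b_le (n : ℕ) : a n + m n ≤ T (n + 1) ^ 8 := by
  have := pw n
  rw [T8, a, m]; omega

lemma b_le' (n : ℕ) : a n + m n ≤ a (n + 1) := by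
  have := b_le n
  rw [a] at this ⊢; rw [a]; omega

lemma a_mono : StrictMono a := strictMono_nat_of_lt_succ fun n => by
  have := b_le' n
  have := m_pos n
  omega

def l (j : ℕ) : ℕ := if h : ∃ n, a n ≤ j ∧ j < a n + m n then m h.choose - 1 else 0

lemma uniq {j n k : ℕ} (h1 : a n ≤ j) (h2 : j < a (n + 1)) (h3 : a k ≤ j) (h4 : j < a k + m k) :
    k = n := by
  have h5 := a_mono.lt_iff_lt.1 (h3.trans_lt h2)
  have h6 := a_mono.lt_iff_lt.1 (h1.trans_lt (h4.trans_le (b_le' k)))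
  omega

lemma l_comb {j n : ℕ} (h1 : a n ≤ j) (h2 : j < a n + m n) : l j + 1 = m n := by
  have h : ∃ n, a n ≤ j ∧ j < a n + m n := ⟨n, h1, h2⟩
  rw [l, dif_pos h, uniq h1 (h2.trans_le (b_le' n)) h.choose_spec.1 h.choose_spec.2]
  have := m_pos n
  omega

lemma l_path {j n : ℕ} (h1 : a n + m n ≤ j) (h2 : j < a (n + 1)) : l j = 0 := by
  refine dif_neg ?_
  rintro ⟨k, h3, h4⟩
  obtain rfl := uniq (by omega) h2 h3 h4
  omega

lemma l_init {j : ℕ} (h : j < a 0) : l j = 0 := by
  refine dif_neg ?_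
  rintro ⟨k, h3, -⟩
  have := a_mono.monotone (Nat.zero_le k)
  omega

def M (j : ℕ) : ℕ := ∑ k ∈ Finset.range j, (l k + 1)

lemma M_add (j i : ℕ) : M j + i ≤ M (j + i) := by
  induction i with
  | zero => rfl
  | succ i ih =>
    have : M (j + i + 1) = M (j + i) + (l (j + i) + 1) := Finset.sum_range_succ _ _
    rw [← add_assoc, ← add_assoc]; omega

lemma M_const (j i c : ℕ) (h : ∀ k, j ≤ k → k < j + i → l k + 1 = c) : M (j + i) = M j + i * c := by
  induction i with
  | zero => simp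
  | succ i ih =>
    rw [← add_assoc, M, Finset.sum_range_succ, ← M, ih fun k h1 h2 => h k h1 (by omega),
      h _ (by omega) (by omega)]
    ring

lemma M_b (n : ℕ) : M (a n + m n) = M (a n) + T n ^ 10 := by
  rw [M_const _ _ _ fun k h1 h2 => l_comb h1 h2, m]; ring

lemma M_a (n : ℕ) : M (a n) ≤ 4 * T n ^ 8 := by
  induction n with
  | zero =>
    have := M_const 0 (a 0) 1 fun k _ h => by rw [l_init (by omega)]
    rw [zero_add, M, M] at this
    rw [M, this, a]; simp; omega
  | succ n ih =>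
    obtain ⟨i, hi⟩ := Nat.exists_eq_add_of_le (b_le' n)
    have h1 := M_const (a n + m n) i 1 fun k h1 h2 => by rw [l_path h1 (by omega)]
    have h2 := pw n
    rw [hi, h1, M_b, T8]
    rw [a, T8] at hi
    omega

abbrev V := {p : ℕ × ℕ // p.2 ≤ l p.1}

def π (j i : ℕ) : V := ⟨(j, min i (l j)), min_le_right _ _⟩

instance : Infinite V := Infinite.of_injective (fun j => π j 0) fun a b h => by
  simpa [π] using h

def par (x : V) : V := if x.1.2 = 0 then π (x.1.1 + 1) 0 else π x.1.1 (x.1.2 - 1)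

def G : SimpleGraph V := SimpleGraph.fromRel fun x y => y = par x

def ch (x : V) : Finset V := (if x.1.2 < l x.1.1 then {π x.1.1 (x.1.2 + 1)} else ∅) ∪
  (if x.1.2 = 0 ∧ 1 ≤ x.1.1 then {π (x.1.1 - 1) 0} else ∅)

lemma mem_ch (x z : V) : z ∈ ch x ↔ x = par z := by
  obtain ⟨⟨j, i⟩, h⟩ := x
  obtain ⟨⟨j', i'⟩, h'⟩ := z
  simp only at h h'
  simp only [ch, par, π, Finset.mem_union]
  by_cases e : j = j'
  · subst e
    split_ifs <;> simp [Subtype.ext_iff] <;> omega
  · split_ifs <;> simp [Subtype.ext_iff] <;> omega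

lemma par_ne (x : V) : par x ≠ x := by
  obtain ⟨⟨j, i⟩, h⟩ := x
  simp only [par, π]
  split_ifs <;> simp [Subtype.ext_iff]
  omega

lemma par_not (x : V) : par x ∉ ch x := by
  rw [mem_ch]
  obtain ⟨⟨j, i⟩, h⟩ := x
  simp only at h
  simp only [par, π]
  split_ifs <;> simp_all [Subtype.ext_iff] <;> omega

lemma adj_iff (x z : V) : G.Adj x z ↔ z ∈ insert (par x) (ch x) := by
  rw [G, SimpleGraph.fromRel_adj, Finset.mem_insert, mem_ch]
  refine ⟨fun h => h.2, fun h => ⟨?_, h⟩⟩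
  rintro rfl
  exact par_ne x (h.elim Eq.symm Eq.symm)

instance : G.LocallyFinite := fun x =>
  Fintype.ofFinset (insert (par x) (ch x)) fun z => (adj_iff x z).symm

lemma nbr (x : V) : G.neighborFinset x = insert (par x) (ch x) := by
  ext z; rw [SimpleGraph.mem_neighborFinset, adj_iff]

lemma deg (x : V) : G.degree x = (ch x).card + 1 := by
  rw [← SimpleGraph.card_neighborFinset_eq_degree, nbr, Finset.card_insert_of_notMem (par_not x)]

lemma deg_le (x : V) : G.degree x ≤ 3 := by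
  rw [deg, ch]
  refine Nat.succ_le_succ ((Finset.card_union_le _ _).trans ?_)
  split_ifs <;> simp

lemma adj_par (x : V) : G.Adj x (par x) := (adj_iff _ _).2 (Finset.mem_insert_self _ _)

lemma conn : G.Connected := by
  have h : ∀ j i, i ≤ l j → G.Reachable (π 0 0) (π j i) := by
    intro j i
    induction i with
    | zero =>
      intro _
      induction j with
      | zero => rfl
      | succ j ih => exact (ih (by omega)).trans (by simpa [par, π] using (adj_par (π j 0)).reachable)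
    | succ i ih =>
      intro hi
      refine (ih (by omega)).trans ?_
      have := (adj_par (π j (i + 1))).reachable.symm
      rwa [show par (π j (i + 1)) = π j i by simp [par, π, min_eq_left hi]] at this
  have h2 : ∀ x : V, G.Reachable (π 0 0) x := fun x => by
    have := h _ _ x.2
    rwa [show π x.1.1 x.1.2 = x by simp [π, min_eq_left x.2]] at this
  exact ⟨fun x z => (h2 x).symm.trans (h2 z)⟩

def F (j : ℕ) : Finset V :=
  ((Finset.range j).sigma fun k => Finset.range (l k + 1)).image fun p => π p.1 p.2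

lemma F_sum {β : Type} [AddCommMonoid β] (j : ℕ) (f : V → β) :
    ∑ x ∈ F j, f x = ∑ k ∈ Finset.range j, ∑ i ∈ Finset.range (l k + 1), f (π k i) := by
  rw [F, Finset.sum_image, Finset.sum_sigma]
  rintro ⟨k, i⟩ h ⟨k', i'⟩ h' e
  simp only [Finset.coe_sigma, mem_sigma_iff, Finset.coe_range, mem_Iio, π, Subtype.mk.injEq,
    Prod.mk.injEq] at h h' e
  obtain ⟨rfl, e⟩ := e
  congr 1; omega

lemma F_card (j : ℕ) : (F j).card = M j := by
  rw [Finset.card_eq_sum_ones, F_sum, M]; simp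

lemma F_mono {j k : ℕ} (h : j ≤ k) : F j ⊆ F k :=
  Finset.image_subset_image (Finset.sigma_mono (Finset.range_mono h) fun _ => subset_rfl)

variable (σ : V → ℝ)

def Tt (j i : ℕ) : ℝ := ∑ b ∈ Finset.Ico i (l j + 1), (σ (π j b) - 1)
def S (j : ℕ) : ℝ := ∑ k ∈ Finset.range j, Tt σ k 0
def W (j : ℕ) : ℝ := ∑ k ∈ Finset.range j, S σ k
def v (C : ℝ) (x : V) : ℝ :=
  C - W σ (x.1.1 + 1) + ∑ b ∈ Finset.range x.1.2, Tt σ x.1.1 (b + 1)

lemma S_eq (j : ℕ) : S σ j = ∑ x ∈ F j, σ x - M j := by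
  rw [F_sum, S, M]
  simp [Tt, Finset.sum_sub_distrib]

lemma lap (C : ℝ) (x : V) : σ x + ∑ z ∈ G.neighborFinset x, v σ C z - G.degree x * v σ C x = 1 := by
  let f : V → ℝ := fun z => if z.1.2 = 0 then S σ (z.1.1 + 1) else Tt σ z.1.1 z.1.2
  have h1 : ∀ z, v σ C z = v σ C (par z) + f z := by
    rintro ⟨⟨j, i⟩, h⟩
    cases i with
    | zero => simp [v, par, π, f, W, Finset.sum_range_succ]; ring
    | succ i =>
      have : i ≤ l j := by simp only at h; omega
      simp [v, par, π, f, Finset.sum_range_succ, min_eq_left this, add_assoc]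
  have h2 : ∑ z ∈ ch x, v σ C z = ∑ z ∈ ch x, (v σ C x + f z) :=
    Finset.sum_congr rfl fun z hz => by rw [h1 z, ← (mem_ch _ _).1 hz]
  have h3 : f x = σ x - 1 + ∑ z ∈ ch x, f z := by
    obtain ⟨⟨j, i⟩, h⟩ := x
    simp only at h
    have h4 : Tt σ j i = σ ⟨(j, i), h⟩ - 1 + Tt σ j (i + 1) := by
      rw [Tt, Finset.sum_eq_sum_Ico_succ_bot (by omega), Tt]
      simp [π, min_eq_left h]
    have h5 : ∑ z ∈ (if i < l j then {π j (i + 1)} else ∅ : Finset V), f z = Tt σ j (i + 1) := by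
      split_ifs with h5
      · simp [f, π, min_eq_left (Nat.succ_le_of_lt h5)]
      · rw [Tt, Finset.Ico_eq_empty (by omega)]; simp
    rw [ch, Finset.sum_union (by dsimp only; split_ifs <;> simp [π]; omega), h5]
    by_cases h6 : i = 0
    · subst h6
      cases j with
      | zero => simp [f, S, h4]
      | succ j =>
        simp only [f, S, π, Finset.sum_range_succ _ (j + 1), h4]
        simp; ring
    · simp [f, h6, h4]
  rw [nbr, Finset.sum_insert (par_not x), h2, deg, Finset.sum_add_distrib, Finset.sum_const,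
    nsmul_eq_mul]
  have := h1 x
  push_cast
  linarith

lemma v_nn (h0 : ∀ x, 0 ≤ σ x) (hA : ∀ n, ∀ x ∈ F (a (n + 1)), σ x ≤ t n)
    (hB : ∀ n i, ∑ x ∈ F (a n + m n + i), tr n (σ x) < (1 - w n / 2) * (F (a n + m n + i)).card) :
    ∃ C, ∀ x, 0 ≤ v σ C x := by
  have h1 : ∀ n j, a n + m n ≤ j → j ≤ a (n + 1) → S σ j ≤ -(w n / 2 * M j) := by
    intro n j h1 h2
    obtain ⟨i, rfl⟩ := Nat.exists_eq_add_of_le h1
    have := hB n i
    have e : ∑ x ∈ F (a n + m n + i), tr n (σ x) = ∑ x ∈ F (a n + m n + i), σ x :=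
      Finset.sum_congr rfl fun x hx => if_pos (hA n x (F_mono h2 hx))
    rw [e, F_card] at this
    rw [S_eq]; linarith
  have h1' : ∀ n j, a n + m n ≤ j → j ≤ a (n + 1) → S σ j ≤ 0 := fun n j h2 h3 =>
    (h1 n j h2 h3).trans (neg_nonpos.2 (by have := w_pos n; positivity))
  have h2 : ∀ n j, j ≤ a n + m n → S σ j ≤ 2 * T n ^ 10 := by
    intro n j h
    have h3 := h1' n _ le_rfl (b_le' n)
    have h4 := Finset.sum_le_sum_of_subset_of_nonneg (F_mono h) fun x _ _ => h0 x
    have h5 : (M (a n + m n) : ℝ) ≤ 2 * T n ^ 10 := by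
      have := M_a n
      have := pw n
      exact_mod_cast (by rw [M_b]; omega : M (a n + m n) ≤ 2 * T n ^ 10)
    rw [S_eq] at h3 ⊢
    have : (0 : ℝ) ≤ M j := by positivity
    linarith
  have h3 : ∀ j i (c : ℝ), (∀ k, j ≤ k → k < j + i → S σ k ≤ c) → W σ (j + i) ≤ W σ j + i * c := by
    intro j i c h
    induction i with
    | zero => simp
    | succ i ih =>
      have := ih fun k h1 h2 => h k h1 (by omega)
      have := h (j + i) (by omega) (by omega)
      rw [← add_assoc, W, Finset.sum_range_succ, ← W]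
      push_cast; linarith
  obtain ⟨C, hC⟩ : ∃ C : ℝ, C = (a 0 + m 0 : ℕ) * (2 * T 0 ^ 10) + T 0 ^ 10 := ⟨_, rfl⟩
  have h4 : ∀ n, ∀ j ≤ a n + m n, (n = 0 ∨ a n ≤ j) → W σ j ≤ C - T n ^ 10 := by
    intro n
    induction n with
    | zero =>
      intro j hj _
      have := h3 0 j _ fun k _ hk => h2 0 k (by omega)
      have h5 : (j : ℝ) ≤ (a 0 + m 0 : ℕ) := by exact_mod_cast hj
      have h6 := mul_le_mul_of_nonneg_right h5 (show (0 : ℝ) ≤ 2 * T 0 ^ 10 by positivity)
      rw [zero_add, show W σ 0 = 0 from rfl] at this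
      linarith
    | succ n ih =>
      intro j hj hj'
      obtain ⟨i, rfl⟩ := Nat.exists_eq_add_of_le (hj'.resolve_left (by omega))
      obtain ⟨k, hk⟩ := Nat.exists_eq_add_of_le (b_le n)
      have e : a (n + 1) = T (n + 1) ^ 8 + T (n + 1) ^ 8 := two_mul _
      have h5 := ih _ le_rfl (Or.inr (by omega))
      have h6 := h3 _ k 0 fun q h6 h7 => h1' n q h6 (by omega)
      have hw := w_pos n
      have h7 := h3 (T (n + 1) ^ 8) (T (n + 1) ^ 8) (-(w n / 2 * T (n + 1) ^ 8)) fun q h7 h8 =>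
        (h1 n q (by omega) (by omega)).trans (by
          have h9 := M_add 0 q
          have : (T (n + 1) : ℝ) ^ 8 ≤ M q := by
            exact_mod_cast (by rw [zero_add] at h9; omega : T (n + 1) ^ 8 ≤ M q)
          gcongr)
      have h8 := h3 (a (n + 1)) i _ fun q _ hq => h2 (n + 1) q (by omega)
      have h9 : (i : ℝ) ≤ T (n + 1) ^ 5 := by exact_mod_cast (by rw [m] at hj; omega : i ≤ _)
      rw [← hk] at h6
      rw [← e] at h7
      have hT := T_one (n + 1)
      have h10 : 6 ≤ w n * T (n + 1) := by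
        have h11 := wT n
        have h12 : w n ^ 36 ≤ w n := pow_le_of_le_one hw.le (by linarith [w_le n]) (by omega)
        have h13 : (6 : ℝ) ≤ T n := by exact_mod_cast le_trans (by norm_num) (T_big n)
        rw [T_succ]; push_cast
        nlinarith [mul_le_mul_of_nonneg_right h12 (by linarith : (0 : ℝ) ≤ T n)]
      have h11 := mul_le_mul_of_nonneg_right h10 (show (0 : ℝ) ≤ T (n + 1) ^ 15 by positivity)
      have h12 : (T (n + 1) : ℝ) ^ 10 ≤ T (n + 1) ^ 15 := pow_le_pow_right₀ hT (by omega)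
      have h13 := mul_le_mul_of_nonneg_right h9 (show (0 : ℝ) ≤ 2 * T (n + 1) ^ 10 by positivity)
      have h14 : (0 : ℝ) ≤ T n ^ 10 := by positivity
      push_cast at h7
      nlinarith
  have h5 : ∀ j, W σ (j + 1) ≤ C - l j ^ 2 := by
    intro j
    have h6 : ∀ n, a n ≤ j → j < a n + m n → W σ (j + 1) ≤ C - l j ^ 2 := fun n h6 h7 => by
      have h8 : (l j : ℝ) ≤ T n ^ 5 := by
        have := l_comb h6 h7
        exact_mod_cast (by rw [m] at this; omega : l j ≤ T n ^ 5)
      have := h4 n (j + 1) h7 (Or.inr (by omega))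
      nlinarith [pow_le_pow_left₀ (by positivity) h8 2]
    by_cases h7 : j < a 0
    · have := h4 0 (j + 1) (by omega) (Or.inl rfl)
      have h14 : (0 : ℝ) ≤ T 0 ^ 10 := by positivity
      rw [l_init h7]; simp; linarith
    · have hex : ∃ n, j < a (n + 1) := ⟨j, lt_of_lt_of_le (by omega) a_mono.le_apply⟩
      have h8 := Nat.find_spec hex
      have h9 : a (Nat.find hex) ≤ j := by
        rcases h : Nat.find hex with _ | n
        · omega
        · exact not_lt.1 (Nat.find_min hex (by omega))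
      generalize Nat.find hex = n at h8 h9
      by_cases h10 : j < a n + m n
      · exact h6 n h9 h10
      · obtain ⟨i, hi⟩ := Nat.exists_eq_add_of_le (show a n + m n ≤ j + 1 by omega)
        have h11 := h3 _ i 0 fun q h6 h7 => h1' n q h6 (by omega)
        have := h4 n _ le_rfl (Or.inr (by omega))
        have h14 : (0 : ℝ) ≤ T n ^ 10 := by positivity
        rw [l_path (not_lt.1 h10) h8, hi]; simp; linarith
  refine ⟨C, fun ⟨⟨j, i⟩, h⟩ => ?_⟩
  have h6 := h5 j
  have h7 : ∀ b ∈ Finset.range i, -(l j : ℝ) ≤ Tt σ j (b + 1) := fun b _ => by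
    have := Finset.card_nsmul_le_sum (Finset.Ico (b + 1) (l j + 1)) (fun b => σ (π j b) - 1) (-1)
      fun b _ => by linarith [h0 (π j b)]
    have h8 : ((l j + 1 - (b + 1) : ℕ) : ℝ) ≤ l j := by exact_mod_cast (by omega)
    rw [Nat.card_Ico, nsmul_eq_mul] at this
    rw [Tt]; linarith
  have h8 := Finset.card_nsmul_le_sum _ _ _ h7
  have h9 : (i : ℝ) ≤ l j := by exact_mod_cast h
  rw [Finset.card_range, nsmul_eq_mul] at h8
  simp only [v]
  nlinarith [mul_le_mul_of_nonneg_right h9 (show (0 : ℝ) ≤ l j by positivity)]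

lemma main : ¬ ∀ᵐ σ ∂(Measure.infinitePi (fun _ : V => ν)),
    ¬ ∃ u : V → ℝ, (∀ x, 0 ≤ u x) ∧
      ∀ x, σ x + (∑ z ∈ G.neighborFinset x, u z / (G.degree z : ℝ)) - u x ≤ 1 := by
  intro h
  set P := Measure.infinitePi (fun _ : V => ν)
  have h0 : ∀ᵐ σ ∂P, ∀ x, 0 ≤ σ x := by
    rw [ae_all_iff]
    intro x
    rw [ae_iff]
    simp only [not_le]
    exact (ev_eq (fun _ : V => ν) x _ measurableSet_Iio).trans neg_null
  have h1 : univ ≤ᵐ[P] ((⋃ n, ⋃ x ∈ F (a (n + 1)), {σ | σ x ∈ Ioi (t n)}) ∪ ⋃ n, ⋃ i,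
      {σ | (1 - w n / 2) * (F (a n + m n + i)).card ≤ ∑ x ∈ F (a n + m n + i), tr n (σ x)} :
      Set (V → ℝ)) := by
    filter_upwards [h, h0] with σ h2 h3 _
    by_contra h4
    have h5 := not_or.1 h4
    change σ ∉ _ ∧ σ ∉ _ at h5
    simp only [ mem_iUnion, mem_ofPred_eq, mem_Ioi, not_exists, not_lt,
      not_le] at h5
    obtain ⟨C, hC⟩ := v_nn σ h3 h5.1 h5.2
    refine h2 ⟨fun x => G.degree x * v σ C x, fun x => mul_nonneg (by positivity) (hC x),
      fun x => le_of_eq ?_⟩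
    rw [← lap σ C x]
    congr 2
    refine Finset.sum_congr rfl fun z _ => mul_div_cancel_left₀ _ ?_
    rw [deg]; positivity
  have h4 : ∑' n, ENNReal.ofReal (w n / 4) = ENNReal.ofReal (1 / 4) := by
    rw [← ENNReal.ofReal_tsum_of_nonneg (fun k => by have := w_pos k; positivity)
      (w_sum.div_const 4).summable, (w_sum.div_const 4).tsum_eq]
  have h2 : ∀ n, P (⋃ x ∈ F (a (n + 1)), {σ | σ x ∈ Ioi (t n)}) ≤ ENNReal.ofReal (w n / 4) := by
    intro n
    refine (measure_biUnion_finset_le _ _).trans ((Finset.sum_le_card_nsmul _ _ _ fun x _ =>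
      (ev_eq (fun _ : V => ν) x _ measurableSet_Ioi).le.trans (big_le n)).trans ?_)
    rw [F_card, nsmul_eq_mul, ← ENNReal.ofReal_natCast, ← ENNReal.ofReal_mul (by positivity)]
    refine ENNReal.ofReal_le_ofReal ?_
    have h5 : (M (a (n + 1)) : ℝ) ≤ 4 * T (n + 1) ^ 8 := by exact_mod_cast M_a (n + 1)
    have := w_pos n
    have := t_one (n + 1)
    have := T_one (n + 1)
    refine (mul_le_mul_of_nonneg_right h5 (by positivity)).trans (le_of_eq ?_)
    rw [t]; field_simp; norm_num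
  have h3 : ∀ n, P (⋃ i, {σ | (1 - w n / 2) * (F (a n + m n + i)).card ≤
      ∑ x ∈ F (a n + m n + i), tr n (σ x)}) ≤ ENNReal.ofReal (w n / 4) := by
    intro n
    refine (measure_iUnion_le _).trans ((ENNReal.tsum_le_tsum fun i =>
      (chern n _).trans ?_).trans (geo n))
    refine pow_le_pow_right_of_le_one' (ENNReal.ofReal_le_one.2 (Real.exp_le_one_iff.2 ?_)) ?_
    · have := t_one n
      rw [neg_nonpos, y]; positivity
    · have := M_add (a n + m n) i
      rw [F_card]
      rw [M_b] at this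
      omega
  have h5 := (measure_mono_ae h1).trans ((measure_union_le _ _).trans (add_le_add
    ((measure_iUnion_le _).trans (ENNReal.tsum_le_tsum h2))
    ((measure_iUnion_le _).trans (ENNReal.tsum_le_tsum h3))))
  rw [h4, measure_univ, ← ENNReal.ofReal_add (by norm_num) (by norm_num),
    ENNReal.one_le_ofReal] at h5
  norm_num at h5

end
end Pool.Agent.H22.Sand
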