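import Mathlib
import Pool.Agent.H22.Perc3

set_option autoImplicit false
open MeasureTheory ProbabilityTheory Set

namespace Pool.Agent.H22.Saw
noncomputable section
open Pool.Agent.H22.Perc3

variable {V X : Type} [MeasurableSpace X]

def O (nb : V → Fin 4 → V) (S : Set X) : ℕ → V → Set V → Set (Sym2 V → X)
  | 0, _, _ => univ
  | n + 1, x, F => ⋃ (d : Fin 4) (_ : nb x d ∉ insert x F),
      {ω | ω s(x, nb x d) ∈ S} ∩ O nb S n (nb x d) (insert x F)

def away (F : Set V) : Set (Sym2 V) := {e | ∀ z ∈ F, z ∉ e}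

lemma O_meas (nb : V → Fin 4 → V) (S : Set X) (hS : MeasurableSet S) (n : ℕ) :
    ∀ (x : V) (F : Set V), x ∉ F → MeasurableSet[cylinderEvents (away F)] (O nb S n x F) := by
  induction n with
  | zero => intro x F _; exact @MeasurableSet.univ _ (cylinderEvents _)
  | succ n ih =>
    intro x F hx
    rw [O]
    refine MeasurableSet.iUnion fun d => MeasurableSet.iUnion fun hd => MeasurableSet.inter ?_ ?_
    · refine ev_meas _ _ (fun z hz hm => ?_) S hS
      rcases Sym2.mem_iff.1 hm with rfl | rfl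
      · exact hx hz
      · exact hd (mem_insert_of_mem _ hz)
    · refine cylinderEvents_mono ?_ _ (ih _ _ hd)
      exact fun e he z hz => he z (mem_insert_of_mem _ hz)

lemma O_le (nb : V → Fin 4 → V) (S : Set X) (hS : MeasurableSet S) (ν : Measure X)
    [IsProbabilityMeasure ν] (hν : ν S ≤ 8⁻¹) (n : ℕ) :
    ∀ (x : V) (F : Set V), Measure.infinitePi (fun _ : Sym2 V => ν) (O nb S n x F) ≤ 2⁻¹ ^ n := by
  classical
  induction n with
  | zero => intro x F; simp [O]
  | succ n ih =>
    intro x F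
    rw [O]
    refine (measure_iUnion_fintype_le _ _).trans ?_
    have h1 : ∀ d : Fin 4, Measure.infinitePi (fun _ : Sym2 V => ν) (⋃ (_ : nb x d ∉ insert x F),
        {ω | ω s(x, nb x d) ∈ S} ∩ O nb S n (nb x d) (insert x F)) ≤ 8⁻¹ * 2⁻¹ ^ n := by
      intro d
      by_cases hd : nb x d ∉ insert x F
      · rw [iUnion_eq_if, if_pos hd, ind _ (S := {e | x ∈ e})
          (T := away (insert x F)) ?_ (ev_meas _ _ (by simp) S hS) (O_meas nb S hS n _ _ hd),
          ev_eq _ _ _ hS]
        · exact mul_le_mul' hν (ih _ _)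
        · rw [disjoint_left]
          exact fun e h1 h2 => h2 x (mem_insert _ _) h1
      · rw [iUnion_eq_if, if_neg hd]; simp
    refine (Finset.sum_le_sum fun d _ => h1 d).trans (le_of_eq ?_)
    rw [Finset.sum_const, Finset.card_univ, Fintype.card_fin, nsmul_eq_mul, ← mul_assoc, pow_succ']
    congr 1
    rw [show (8 : ENNReal) = 4 * 2 by norm_num, ENNReal.mul_inv (by simp) (by simp), ← mul_assoc,
      Nat.cast_ofNat, ENNReal.mul_inv_cancel (by simp) (by simp), one_mul]

def Sm (G : SimpleGraph V) (S : Set X) (ω : Sym2 V → X) : SimpleGraph V where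
  Adj u v := G.Adj u v ∧ ω s(u, v) ∈ S
  symm := ⟨fun _ _ h => ⟨h.1.symm, by rw [Sym2.eq_swap]; exact h.2⟩⟩
  loopless := ⟨fun _ h => h.1.ne rfl⟩

omit [MeasurableSpace X] in
lemma path_O (G : SimpleGraph V) (nb : V → Fin 4 → V) (hG : ∀ x y, G.Adj x y → ∃ d, y = nb x d)
    (S : Set X) (ω : Sym2 V → X) {x y : V} (p : (Sm G S ω).Walk x y) :
    ∀ (n : ℕ) (F : Set V), p.IsPath → n ≤ p.length → (∀ z ∈ p.support, z ∉ F) →
      ω ∈ O nb S n x F := by
  induction p with
  | nil =>
    intro n F _ h _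
    obtain rfl : n = 0 := by simpa using h
    trivial
  | @cons u v w h p ih =>
    intro n F hp hn hF
    cases n with
    | zero => trivial
    | succ n =>
      obtain ⟨d, rfl⟩ := hG _ _ h.1
      rw [SimpleGraph.Walk.cons_isPath_iff] at hp
      have h1 : ∀ z ∈ p.support, z ∉ insert u F := by
        rintro z hz (rfl | h2)
        · exact hp.2 hz
        · exact hF z (by simp [hz]) h2
      rw [O]
      simp only [mem_iUnion]
      exact ⟨d, h1 _ p.start_mem_support, h.2, ih n _ hp.1 (by simpa using hn) h1⟩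

lemma short_fin (H : SimpleGraph V) (nb : V → Fin 4 → V) (hG : ∀ x y, H.Adj x y → ∃ d, y = nb x d)
    (n : ℕ) : ∀ x, {y | ∃ p : H.Walk x y, p.length ≤ n}.Finite := by
  induction n with
  | zero =>
    intro x
    refine (finite_singleton x).subset ?_
    rintro y ⟨p, hp⟩
    exact (SimpleGraph.Walk.eq_of_length_eq_zero (Nat.le_zero.1 hp)).symm
  | succ n ih =>
    intro x
    refine ((finite_singleton x).union (finite_iUnion fun d => ih (nb x d))).subset ?_
    rintro y ⟨p, hp⟩
    cases p with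
    | nil => exact Or.inl rfl
    | cons h p =>
      obtain ⟨d, rfl⟩ := hG _ _ h
      exact Or.inr (mem_iUnion.2 ⟨d, p, by simpa using hp⟩)

lemma ae_fin [Countable V] (G : SimpleGraph V) (nb : V → Fin 4 → V)
    (hG : ∀ x y, G.Adj x y → ∃ d, y = nb x d) (S : Set X) (hS : MeasurableSet S) (ν : Measure X)
    [IsProbabilityMeasure ν] (hν : ν S ≤ 8⁻¹) :
    ∀ᵐ ω ∂(Measure.infinitePi (fun _ : Sym2 V => ν)),
      ∀ x, {y | (Sm G S ω).Reachable x y}.Finite := by
  rw [ae_all_iff]
  intro x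
  rw [ae_iff]
  refine le_antisymm (ge_of_tendsto' (ENNReal.tendsto_pow_atTop_nhds_zero_of_lt_one
    (r := 2⁻¹) (by norm_num)) fun n => (measure_mono ?_).trans (O_le nb S hS ν hν n x ∅)) bot_le
  intro ω hω
  have h1 := short_fin (Sm G S ω) nb (fun a b h => hG a b h.1) n x
  obtain ⟨y, hy, hy'⟩ := (Set.Infinite.sdiff hω h1).nonempty
  obtain ⟨p, hp⟩ := SimpleGraph.Reachable.exists_isPath hy
  refine path_O G nb hG S ω p n ∅ hp ?_ (by simp)
  by_contra h
  exact hy' ⟨p, by omega⟩

end
end Pool.Agent.H22.Saw
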