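import Mathlib

/-! Hilbert-Schmidt operators along a Hilbert basis and the quartic form of the class S4. -/

namespace Pool.Agent.H22.Sch

open InnerProductSpace Filter Topology Complex
open scoped InnerProductSpace ComplexConjugate

variable {H : Type} [NormedAddCommGroup H] [InnerProductSpace ℂ H] [CompleteSpace H]
  (b : HilbertBasis ℕ ℂ H)

abbrev K (H : Type) [NormedAddCommGroup H] : Type := lp (fun _ : ℕ => H) 2

def Mem (C : H →L[ℂ] H) : Prop := Memℓp (fun m => C (b m)) 2

open Classical in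
noncomputable def vec (C : H →L[ℂ] H) : K H := if h : Mem b C then ⟨_, h⟩ else 0

variable {b} {C D x y : H →L[ℂ] H}

omit [CompleteSpace H] in
lemma vec_apply (h : Mem b C) (m : ℕ) : vec b C m = C (b m) := by simp [vec, h]

omit [CompleteSpace H] in
lemma mem_iff : Mem b C ↔ Summable fun m => ‖C (b m)‖ ^ 2 := by
  simpa [Mem] using memℓp_gen_iff (p := 2) (by norm_num) (f := fun m => C (b m))

omit [CompleteSpace H] in
lemma hsum (h : Mem b C) : HasSum (fun m => ‖C (b m)‖ ^ 2) (‖vec b C‖ ^ 2) := by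
  simpa [vec_apply h] using lp.hasSum_norm (by norm_num) (vec b C)

omit [CompleteSpace H] in
lemma Mem.add (h : Mem b C) (h' : Mem b D) : Mem b (C + D) := Memℓp.add h h'

omit [CompleteSpace H] in
lemma Mem.smul (h : Mem b C) (c : ℂ) : Mem b (c • C) := Memℓp.const_smul h c

omit [CompleteSpace H] in
lemma vec_add (h : Mem b C) (h' : Mem b D) : vec b (C + D) = vec b C + vec b D :=
  lp.ext (funext fun m => by simp [vec_apply h, vec_apply h', vec_apply (h.add h')])

omit [CompleteSpace H] in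
lemma vec_smul (h : Mem b C) (c : ℂ) : vec b (c • C) = c • vec b C :=
  lp.ext (funext fun m => by simp [vec_apply h, vec_apply (h.smul c)])

omit [CompleteSpace H] in
lemma app (C : H →L[ℂ] H) (v : H) : HasSum (fun m => ⟪b m, v⟫_ℂ • C (b m)) (C v) := by
  simpa [b.repr_apply_apply] using (b.hasSum_repr v).mapL C

omit [CompleteSpace H] in
lemma ext0 (h : ∀ m, C (b m) = 0) : C = 0 := by
  ext v; simpa [h] using (app (b := b) C v).tsum_eq.symm

omit [CompleteSpace H] in
lemma vec_zero (h : Mem b C) (h0 : vec b C = 0) : C = 0 :=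
  ext0 (b := b) fun m => by rw [← vec_apply h, h0]; rfl

omit [CompleteSpace H] in
lemma pars (v : H) : HasSum (fun m => ‖⟪b m, v⟫_ℂ‖ ^ 2) (‖v‖ ^ 2) := by
  have := Complex.hasSum_re (b.hasSum_inner_mul_inner v v)
  convert this using 2 with m
  · rw [← inner_conj_symm v (b m), conj_mul']; norm_cast
  · rw [inner_self_eq_norm_sq_to_K]; norm_cast

omit [CompleteSpace H] in
lemma mem_rank (v w : H) : Mem b (rankOne ℂ v w) :=
  mem_iff.mpr (by
    simpa [norm_smul, mul_pow, norm_inner_symm w] using (pars (b := b) w).summable.mul_right _)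

omit [CompleteSpace H] in
lemma inner_rank (h : Mem b C) (v : H) : ⟪vec b (rankOne ℂ v v), vec b C⟫_ℂ = ⟪v, C v⟫_ℂ := by
  refine (lp.hasSum_inner _ _).unique ?_
  simpa [vec_apply h, vec_apply (mem_rank v v), inner_smul_left, inner_smul_right] using
    (app (b := b) C v).mapL (innerSL ℂ v)

noncomputable def rho (b : HilbertBasis ℕ ℂ H) (y : H →L[ℂ] H) (n : ℕ) : K H :=
  vec b (rankOne ℂ (star y (b n)) (star y (b n)))

lemma adj (y : H →L[ℂ] H) (u v : H) : ⟪star y u, v⟫_ℂ = ⟪u, y v⟫_ℂ :=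
  ContinuousLinearMap.adjoint_inner_left y v u

lemma adj' (y : H →L[ℂ] H) (u v : H) : ⟪u, star y v⟫_ℂ = ⟪y u, v⟫_ℂ :=
  ContinuousLinearMap.adjoint_inner_right y u v

lemma bound (y : H →L[ℂ] H) (s : Finset ℕ) :
    ‖∑ n ∈ s, rho b y n‖ ^ 2 ≤ ∑ n ∈ s, ‖(y * star y) (b n)‖ ^ 2 := by
  rw [@norm_sq_eq_re_inner ℂ, inner_sum, map_sum]
  refine Finset.sum_le_sum fun j _ => le_trans (le_of_eq ?_)
    (b.orthonormal.sum_inner_products_le (s := s) _)
  rw [sum_inner, map_sum]
  refine Finset.sum_congr rfl fun i _ => ?_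
  rw [rho, rho, inner_rank (mem_rank _ _), rankOne_apply, inner_smul_right,
    ← inner_conj_symm (star y (b j)), conj_mul', adj]
  norm_cast

lemma sq_eq (x : H →L[ℂ] H) (v : H) : (⟪v, (star x * x) v⟫_ℂ).re = ‖x v‖ ^ 2 := by
  rw [mul_apply_eq_comp, adj', inner_self_eq_norm_sq_to_K]; norm_cast

def S (b : HilbertBasis ℕ ℂ H) (x : H →L[ℂ] H) : Prop := Mem b (star x * x)

lemma S.star (h : S b x) : S b (star x) := by
  rw [S, star_star]
  refine mem_iff.mpr (summable_of_sum_le (fun _ => sq_nonneg _) (c := ‖vec b (Star.star x * x)‖ ^ 2)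
    fun s => ?_)
  have h1 := bound (b := b) x s
  have h2 : ∑ n ∈ s, ‖(x * Star.star x) (b n)‖ ^ 2 =
      (⟪∑ n ∈ s, rho b x n, vec b (Star.star x * x)⟫_ℂ).re := by
    rw [sum_inner, re_sum]
    exact Finset.sum_congr rfl fun n _ => by rw [rho, inner_rank h, sq_eq]; rfl
  have h3 := (re_le_norm _).trans (norm_inner_le_norm (𝕜 := ℂ) (∑ n ∈ s, rho b x n)
    (vec b (Star.star x * x)))
  nlinarith [sq_nonneg (‖∑ n ∈ s, rho b x n‖ - ‖vec b (Star.star x * x)‖)]

lemma rep (h : S b y) : HasSum (rho b y) (vec b (star y * y)) := by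
  have h1 : Summable fun n => ‖(y * star y) (b n)‖ ^ 2 := by
    simpa only [star_star] using mem_iff.mp h.star
  have h2 : Summable (rho b y) := summable_iff_vanishing_norm.mpr fun ε hε => by
    obtain ⟨s, hs⟩ := summable_iff_vanishing_norm.mp h1 (ε ^ 2) (by positivity)
    exact ⟨s, fun t ht => lt_of_pow_lt_pow_left₀ 2 hε.le
      ((bound y t).trans_lt ((le_abs_self _).trans_lt (hs t ht)))⟩
  convert h2.hasSum
  refine lp.ext (funext fun m => ?_)
  refine HasSum.unique ?_ (h2.hasSum.mapL (lp.evalCLM ℂ (fun _ : ℕ => H) 2 m))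
  have := app (b := b) (star y) (y (b m))
  rw [vec_apply h, mul_apply_eq_comp]
  refine (funext fun n => ?_ : (fun n => _) = fun n => _) ▸ this
  change _ = rho b y n m
  rw [rho, vec_apply (mem_rank _ _), rankOne_apply, adj]

lemma key (h : S b y) (hC : Mem b C) : HasSum (fun n => ⟪star y (b n), C (star y (b n))⟫_ℂ)
    ⟪vec b (star y * y), vec b C⟫_ℂ := by
  have := (rep h).mapL (innerSLFlip ℂ (vec b C))
  simpa [rho, inner_rank hC] using this

lemma cross (hx : S b x) (hy : S b y) : HasSum (fun n => ‖(x * star y) (b n)‖ ^ 2)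
    (⟪vec b (star y * y), vec b (star x * x)⟫_ℂ).re := by
  simpa only [sq_eq, mul_apply_eq_comp x] using Complex.hasSum_re (key hy hx)

lemma S.mem (hx : S b x) (hy : S b y) : Mem b (Star.star x * y) := by
  simpa using mem_iff.mpr (cross hx.star hy.star).summable

lemma expand0 (x y : H →L[ℂ] H) (c : ℂ) : star (x + c • y) * (x + c • y) =
    star x * x + c • (star x * y) + conj c • (star y * x) + (conj c * c) • (star y * y) := by
  simp only [star_add, star_smul, add_mul, mul_add, smul_mul_assoc, mul_smul_comm, smul_add,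
    smul_smul, RCLike.star_def, mul_comm c]
  abel

lemma S.comb (hx : S b x) (hy : S b y) (c : ℂ) : S b (x + c • y) := by
  rw [S, expand0]
  exact ((hx.add ((hx.mem hy).smul _)).add ((hy.mem hx).smul _)).add (Mem.smul hy _)

lemma expand (hx : S b x) (hy : S b y) (c : ℂ) : vec b (star (x + c • y) * (x + c • y)) =
    vec b (star x * x) + c • vec b (star x * y) + conj c • vec b (star y * x) +
      (conj c * c) • vec b (star y * y) := by
  rw [expand0, vec_add ((Mem.add hx ((hx.mem hy).smul _)).add ((hy.mem hx).smul _)) (Mem.smul hy _),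
    vec_add (Mem.add hx ((hx.mem hy).smul _)) ((hy.mem hx).smul _),
    vec_add hx ((hx.mem hy).smul _), vec_smul (hx.mem hy), vec_smul (hy.mem hx), vec_smul hy]

noncomputable def N (b : HilbertBasis ℕ ℂ H) (x : H →L[ℂ] H) : ℝ := ‖vec b (star x * x)‖ ^ 2

noncomputable def L (b : HilbertBasis ℕ ℂ H) (x y : H →L[ℂ] H) : ℝ :=
  (⟪vec b (star x * x), vec b (star x * y) + vec b (star y * x)⟫_ℂ).re

lemma der0 {E : Type} [NormedAddCommGroup E] [InnerProductSpace ℂ E] (X Y Z : E) :
    HasDerivAt (fun t : ℝ => ‖X + (t : ℂ) • Y + ((t : ℂ) * t) • Z‖ ^ 2) (2 * (⟪X, Y⟫_ℂ).re) 0 := by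
  have h1 : HasDerivAt (fun t : ℝ => (t : ℂ)) 1 0 := Complex.ofRealCLM.hasDerivAt
  have h : HasDerivAt (fun t : ℝ => X + (t : ℂ) • Y + ((t : ℂ) * t) • Z) Y 0 :=
    (((h1.smul_const Y).const_add X).add ((h1.mul h1).smul_const Z)).congr_deriv (by simp)
  have h2 := (Complex.reCLM.hasFDerivAt.comp_hasDerivAt 0 (h.inner ℂ h))
  refine (h2.congr_deriv ?_).congr_of_eventuallyEq (Eventually.of_forall fun t => ?_)
  · simp only [ofReal_zero, zero_smul, add_zero, mul_zero, reCLM_apply, add_re]
    rw [← inner_conj_symm Y, conj_re]; ring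
  · simp only [Function.comp_apply, reCLM_apply]
    rw [inner_self_eq_norm_sq_to_K]; norm_cast

lemma der (hx : S b x) (hy : S b y) :
    HasDerivAt (fun t : ℝ => N b (x + (t : ℂ) • y)) (2 * L b x y) 0 := by
  refine (der0 (vec b (star x * x)) (vec b (star x * y) + vec b (star y * x))
    (vec b (star y * y))).congr_of_eventuallyEq (Eventually.of_forall fun t => ?_)
  simp only [N]
  rw [expand hx hy, conj_ofReal, smul_add, add_assoc (vec b (star x * x))]

lemma L_eq {x' y' : H →L[ℂ] H} (hx : S b x) (hy : S b y) (hx' : S b x') (hy' : S b y')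
    (h0 : N b x' = N b x) (h : ∀ t : ℝ, N b (x' + (t : ℂ) • y') ≤ N b (x + (t : ℂ) • y)) :
    L b x' y' = L b x y := by
  have := IsLocalMin.hasDerivAt_eq_zero (Eventually.of_forall fun t => ?_)
    ((der hx hy).sub (der hx' hy'))
  · linarith
  · simpa [h0] using h t

lemma clark (hx : S b x) (hy : S b y) : N b (x + (1 : ℂ) • y) + N b (x + (-1 : ℂ) • y) =
    2 * N b x + 2 * N b y + 4 * (⟪vec b (star x * x), vec b (star y * y)⟫_ℂ).re +
      2 * ‖vec b (star x * y) + vec b (star y * x)‖ ^ 2 := by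
  have := parallelogram_law_with_norm ℂ (vec b (star x * x) + vec b (star y * y))
    (vec b (star x * y) + vec b (star y * x))
  have h2 := norm_add_sq (𝕜 := ℂ) (vec b (star x * x)) (vec b (star y * y))
  rw [N, N, N, N, expand hx hy, expand hx hy]
  simp only [map_one, map_neg, one_smul, mul_one, mul_neg, neg_neg, neg_smul]
  rw [show vec b (star x * x) + vec b (star x * y) + vec b (star y * x) + vec b (star y * y) =
      vec b (star x * x) + vec b (star y * y) + (vec b (star x * y) + vec b (star y * x)) by abel,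
    show vec b (star x * x) + -vec b (star x * y) + -vec b (star y * x) + vec b (star y * y) =
      vec b (star x * x) + vec b (star y * y) - (vec b (star x * y) + vec b (star y * x)) by abel]
  simp only [RCLike.re_to_complex] at h2
  nlinarith

lemma pos (hx : S b x) (hy : S b y) : 0 ≤ (⟪vec b (star x * x), vec b (star y * y)⟫_ℂ).re :=
  (cross hy hx).nonneg fun _ => sq_nonneg _

lemma N_zero (hx : S b x) (h : N b x ≤ 0) : x = 0 :=
  CStarRing.star_mul_self_eq_zero_iff x |>.mp (vec_zero hx (norm_eq_zero.mp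
    (pow_eq_zero_iff two_ne_zero |>.mp (le_antisymm h (sq_nonneg _)))))

lemma orth1 (hx : S b x) (hy : S b y)
    (h : N b (x + (1 : ℂ) • y) + N b (x + (-1 : ℂ) • y) = 2 * N b x + 2 * N b y) :
    y * star x = 0 ∧ star x * y + star y * x = 0 := by
  have h1 := clark hx hy
  have h2 := pos hx hy
  have h3 := sq_nonneg ‖vec b (star x * y) + vec b (star y * x)‖
  constructor
  · have := cross hy hx
    rw [show (⟪vec b (star x * x), vec b (star y * y)⟫_ℂ).re = 0 by linarith,
      hasSum_zero_iff_of_nonneg fun _ => sq_nonneg _] at this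
    exact ext0 (b := b) fun m => by simpa using congrFun this m
  · refine vec_zero ((hx.mem hy).add (hy.mem hx)) ?_
    rw [vec_add (hx.mem hy) (hy.mem hx), ← norm_eq_zero, ← pow_eq_zero_iff two_ne_zero]
    linarith

end Pool.Agent.H22.Sch
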