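import Pool.Agent.H22.Sch1

/-! No isometry of the class S4 can dilate the averaging map on two diagonal units. -/

namespace Pool.Agent.H22.Sch

open InnerProductSpace Filter Topology Complex
open scoped InnerProductSpace ComplexConjugate

variable {H : Type} [NormedAddCommGroup H] [InnerProductSpace ℂ H] [CompleteSpace H]
  {b : HilbertBasis ℕ ℂ H}

lemma bessel {E : Type} [NormedAddCommGroup E] [InnerProductSpace ℂ E] (v : ℕ → E)
    (h1 : ∀ n, ‖v n‖ = 1) (h2 : ∀ n m, n ≠ m → (⟪v n, v m⟫_ℂ).re = 0) (w : E) :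
    Tendsto (fun n => ‖⟪w, v n⟫_ℂ‖ ^ 2) atTop (𝓝 0) := by
  have key : ∀ w : E, Tendsto (fun n => (⟪v n, w⟫_ℂ).re ^ 2) atTop (𝓝 0) := fun w => by
    let _ := InnerProductSpace.rclikeToReal ℂ E
    have ho : Orthonormal ℝ v := ⟨h1, fun n m h => h2 n m h⟩
    have := (ho.inner_products_summable w).tendsto_atTop_zero
    simp only [Real.norm_eq_abs, sq_abs] at this
    exact this
  have := (key w).add (key (I • w))
  rw [add_zero] at this
  refine this.congr fun n => ?_
  rw [norm_inner_symm, Complex.sq_norm, normSq_apply, inner_smul_right]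
  simp; ring

lemma compact (F : H →L[ℂ] H) (hF : Mem b F) (D : ℕ → H →L[ℂ] H) (hD : ∀ n, Mem b (D n))
    (hs : ∀ n, star (D n) = D n) (hb : ∀ n v, ‖D n v‖ ≤ ‖F v‖) (h1 : ∀ n, ‖vec b (D n)‖ = 1)
    (h2 : ∀ n m, n ≠ m → (⟪vec b (D n), vec b (D m)⟫_ℂ).re = 0) : False := by
  have hF' := mem_iff.mp hF
  have e1 : ∀ m k, Tendsto (fun n => ‖⟪b k, D n (b m)⟫_ℂ‖ ^ 2) atTop (𝓝 0) := fun m k => by
    simpa only [lp.inner_single_left, vec_apply (hD _)] using
      bessel _ h1 h2 (lp.single 2 m (b k) : K H)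
  have e2 : ∀ m, Tendsto (fun n => ‖D n (b m)‖ ^ 2) atTop (𝓝 0) := fun m => by
    have := tendsto_tsum_of_dominated_convergence hF' (e1 m) (Eventually.of_forall fun n k => ?_)
    · simpa only [(pars _).tsum_eq, tsum_zero] using this
    · rw [norm_pow, norm_norm, ← hs n, adj']
      refine pow_le_pow_left₀ (norm_nonneg _) ((norm_inner_le_norm _ _).trans ?_) 2
      rw [b.orthonormal.1 m, mul_one]; exact hb n _
  have := tendsto_tsum_of_dominated_convergence hF' e2 (Eventually.of_forall fun n k => ?_)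
  · simp only [(hsum (hD _)).tsum_eq, tsum_zero, h1] at this
    simp at this
  · rw [norm_pow, norm_norm]
    exact pow_le_pow_left₀ (norm_nonneg _) (hb n _) 2

lemma S.add {x y : H →L[ℂ] H} (hx : S b x) (hy : S b y) : S b (x + y) := by
  simpa using hx.comb hy 1

lemma S.smul {x : H →L[ℂ] H} (hx : S b x) (c : ℂ) : S b (c • x) := by
  have := hx.comb hx (c - 1)
  rwa [sub_smul, one_smul, add_sub_cancel] at this

lemma orth2 {h h' : H →L[ℂ] H} (hh : S b h) (hh' : S b h')
    (hN : ∀ α β : ℂ, N b (α • h + β • h') = ‖α‖ ^ 4 + ‖β‖ ^ 4) :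
    h' * star h = 0 ∧ star h * h' = 0 ∧ star h' * h = 0 := by
  have a1 : N b h = 1 := by simpa using hN 1 0
  have a2 : ∀ c : ℂ, ‖c‖ = 1 → N b (c • h') = 1 := fun c hc => by simpa [hc] using hN 0 c
  have a3 : ∀ c : ℂ, ‖c‖ = 1 → N b (h + c • h') = 2 := fun c hc => by
    have := hN 1 c
    rw [one_smul, hc, norm_one] at this
    linarith
  have o1 := orth1 hh hh' (by
    rw [a3 1 (by simp), a3 (-1) (by simp), a1, ← one_smul ℂ h', a2 1 (by simp)]; norm_num)
  have o2 := orth1 hh (hh'.smul I) (by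
    rw [smul_smul, smul_smul, a3 _ (by simp), a3 _ (by simp), a1, a2 I (by simp)]; norm_num)
  have o3 : star h * h' - star h' * h = 0 := by
    have := congrArg (fun z => (-I) • z) o2.2
    simpa [smul_smul, sub_eq_add_neg] using this
  have o4 : star h * h' = 0 := by
    have : (2 : ℂ) • (star h * h') = 0 := by
      rw [two_smul]; linear_combination (norm := abel1) o1.2 + o3
    simpa using this
  exact ⟨o1.1, o4, by simpa [o4] using o1.2⟩

theorem core (U P : (H →L[ℂ] H) →ₗ[ℂ] (H →L[ℂ] H)) (hUS : ∀ x, S b x → S b (U x))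
    (hUN : ∀ x, S b x → N b (U x) = N b x)
    (hPN : ∀ x, S b x → N b (P x) ≤ N b x) (g g' : H →L[ℂ] H) (hg : S b g) (hg' : S b g')
    (hN : ∀ α β : ℂ, N b (α • g + β • g') = ‖α‖ ^ 4 + ‖β‖ ^ 4) (p1 : P g = g) (p2 : P g' = g')
    (p3 : P (U (g + g')) = g + g')
    (p4 : ∀ n, P ((U ^ (n + 1)) g) = (1 / 2 : ℂ) • (g + g')) : False := by
  set f := g + g' with hf
  have sf : S b f := hg.add hg'
  have pf : P f = f := by rw [hf, map_add, p1, p2]
  have uf : U f = f := by
    have sz := hUS f sf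
    have sx : S b ((1 / 2 : ℂ) • (U f + f)) := (sz.add sf).smul _
    have sy : S b ((1 / 2 : ℂ) • (U f + (-1 : ℂ) • f)) := (sz.comb sf _).smul _
    have c := clark sx sy
    have c1 := pos sx sy
    have c2 := hPN _ sx
    rw [show (1 / 2 : ℂ) • (U f + f) + (1 : ℂ) • (1 / 2 : ℂ) • (U f + (-1 : ℂ) • f) = U f by module,
      show (1 / 2 : ℂ) • (U f + f) + (-1 : ℂ) • (1 / 2 : ℂ) • (U f + (-1 : ℂ) • f) = f by module,
      hUN f sf] at c
    rw [map_smul, map_add, p3, pf, show (1 / 2 : ℂ) • (f + f) = f by module] at c2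
    have := N_zero sy (by nlinarith [sq_nonneg ‖vec b (star ((1 / 2 : ℂ) • (U f + f)) *
      (1 / 2 : ℂ) • (U f + (-1 : ℂ) • f)) + vec b (star ((1 / 2 : ℂ) • (U f + (-1 : ℂ) • f)) *
      (1 / 2 : ℂ) • (U f + f))‖])
    linear_combination (norm := module) (2 : ℂ) • this
  have pS : ∀ n x, S b x → S b ((U ^ n) x) := fun n => by
    induction n with
    | zero => exact fun x hx => hx
    | succ n ih => exact fun x hx => by rw [pow_succ']; exact hUS _ (ih x hx)
  have pN : ∀ n x, S b x → N b ((U ^ n) x) = N b x := fun n => by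
    induction n with
    | zero => exact fun x _ => rfl
    | succ n ih => exact fun x hx => by rw [pow_succ']; exact (hUN _ (pS n x hx)).trans (ih x hx)
  have pf' : ∀ n, (U ^ n) g + (U ^ n) g' = f := fun n => by
    rw [← map_add, ← hf]
    induction n with
    | zero => rfl
    | succ n ih => rw [pow_succ, Module.End.mul_apply, uf, ih]
  obtain ⟨h, hh⟩ : ∃ h : ℕ → H →L[ℂ] H, ∀ n, h n = (U ^ n) g := ⟨_, fun _ => rfl⟩
  obtain ⟨k, hk⟩ : ∃ h : ℕ → H →L[ℂ] H, ∀ n, h n = (U ^ n) g' := ⟨_, fun _ => rfl⟩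
  have sh : ∀ n, S b (h n) := fun n => hh n ▸ pS n g hg
  have sk : ∀ n, S b (k n) := fun n => hk n ▸ pS n g' hg'
  have hkf : ∀ n, h n + k n = f := fun n => by rw [hh, hk, pf']
  have o : ∀ n, k n * star (h n) = 0 ∧ star (h n) * k n = 0 ∧ star (k n) * h n = 0 := fun n =>
    orth2 (sh n) (sk n) fun α β => by
      rw [hh, hk, ← map_smul, ← map_smul, ← map_add, pN n _ ((hg.smul _).add (hg'.smul _)), hN]
  have n1 : ∀ n, N b (h n) = 1 := fun n => by rw [hh, pN n g hg]; simpa using hN 1 0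
  have og := orth2 hg hg' hN
  have l1 : L b g ((1 / 2 : ℂ) • f) = 1 := by
    have e1 : star g * ((1 / 2 : ℂ) • f) = (1 / 2 : ℂ) • (star g * g) := by
      rw [hf, mul_smul_comm, mul_add, og.2.1, add_zero]
    have e2 : star ((1 / 2 : ℂ) • f) * g = (1 / 2 : ℂ) • (star g * g) := by
      rw [hf, star_smul, smul_mul_assoc, star_add, add_mul, og.2.2, add_zero]; simp
    have : N b g = 1 := by simpa using hN 1 0
    rw [L, e1, e2, vec_smul hg, ← add_smul, add_halves, one_smul, ← RCLike.re_to_complex,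
      ← norm_sq_eq_re_inner]
    exact this
  have l2 : ∀ m j, L b (h m) (h (m + (j + 1))) = 1 := fun m j => by
    have a1 : L b (h m) (h (m + (j + 1))) = L b g (h (j + 1)) := by
      refine L_eq hg (sh _) (sh _) (sh _) (by rw [hh, pN _ _ hg]) fun t => le_of_eq ?_
      rw [hh, hh, pow_add, Module.End.mul_apply, ← map_smul, ← map_add, ← hh,
        pN _ _ (hg.comb (sh _) _)]
    rw [a1, ← l1]
    refine (L_eq hg (sh _) hg (sf.smul _) rfl fun t => ?_).symm
    have := hPN _ (hg.comb (sh (j + 1)) t)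
    rwa [map_add, map_smul, p1, hh, p4, ← hh] at this
  have i1 : ∀ m j, (⟪vec b (star (h m) * h m), vec b (star (h (m + (j + 1))) * h (m + (j + 1)))⟫_ℂ).re
      = 1 / 2 := fun m j => by
    have := l2 m j
    set r := m + (j + 1)
    have z1 : ⟪vec b (star (h m) * h m), vec b (star (k m) * h r)⟫_ℂ = 0 := by
      refine (key (sh m) ((sk m).mem (sh r))).unique ?_
      simp only [mul_apply_eq_comp, adj', ← mul_apply_eq_comp (k m), (o m).1]
      simp
    have z2 : ⟪vec b (star (h m) * h m), vec b (star (h r) * k m)⟫_ℂ = 0 := by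
      refine (key (sh m) ((sh r).mem (sk m))).unique ?_
      simp only [mul_apply_eq_comp, ← mul_apply_eq_comp (k m), (o m).1]
      simp
    have e1 : star (h r) * h r = star (h m) * h r + star (k m) * h r := by
      rw [← add_mul, ← star_add, hkf, ← hkf r, star_add, add_mul, (o r).2.2, add_zero]
    have e2 : star (h r) * h r = star (h r) * h m + star (h r) * k m := by
      rw [← mul_add, hkf, ← hkf r, mul_add, (o r).2.1, add_zero]
    have f1 := congrArg (fun C => (⟪vec b (star (h m) * h m), vec b C⟫_ℂ).re) e1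
    have f2 := congrArg (fun C => (⟪vec b (star (h m) * h m), vec b C⟫_ℂ).re) e2
    simp only [vec_add ((sh m).mem (sh r)) ((sk m).mem (sh r)), inner_add_right, z1, add_zero,
      vec_add ((sh r).mem (sh m)) ((sh r).mem (sk m)), z2] at f1 f2
    rw [L, inner_add_right, add_re] at this
    linarith
  have i2 : ∀ m r, m ≠ r → (⟪vec b (star (h m) * h m), vec b (star (h r) * h r)⟫_ℂ).re = 1 / 2 :=
    fun m r hmr => by
      rcases lt_or_gt_of_ne hmr with h1 | h1
      · obtain ⟨j, rfl⟩ := Nat.exists_eq_add_of_lt h1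
        exact i1 m j
      · obtain ⟨j, rfl⟩ := Nat.exists_eq_add_of_lt h1
        rw [← inner_conj_symm, conj_re]; exact i1 r j
  have bd : ∀ n v, ‖(star (h n) * h n) v‖ ≤ ‖(star f * f) v‖ := fun n v => by
    have e : star f * f = star (h n) * h n + star (k n) * k n := by
      rw [← hkf n, star_add, add_mul, mul_add, mul_add, (o n).2.1, (o n).2.2, add_zero, zero_add]
    have z : ⟪(star (k n) * k n) v, (star (h n) * h n) v⟫_ℂ = 0 := by
      rw [mul_apply_eq_comp, mul_apply_eq_comp, adj, ← mul_apply_eq_comp (k n), (o n).1]; simp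
    rw [e, add_comm, add_apply]
    have := norm_add_sq_eq_norm_sq_add_norm_sq_of_inner_eq_zero _ _ z
    exact le_of_sq_le_sq (by nlinarith [sq_nonneg ‖(star (k n) * k n) v‖]) (norm_nonneg _)
  have vd : ∀ n, vec b (star (h (2 * n)) * h (2 * n) + (-1 : ℂ) • (star (h (2 * n + 1)) *
      h (2 * n + 1))) = vec b (star (h (2 * n)) * h (2 * n)) -
      vec b (star (h (2 * n + 1)) * h (2 * n + 1)) := fun n => by
    rw [vec_add (sh _) (Mem.smul (sh _) _), vec_smul (sh _), neg_one_smul, sub_eq_add_neg]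
  refine compact ((2 : ℂ) • (star f * f)) (Mem.smul sf _) (fun n => star (h (2 * n)) * h (2 * n) +
    (-1 : ℂ) • (star (h (2 * n + 1)) * h (2 * n + 1))) (fun n => Mem.add (sh _) (Mem.smul (sh _) _))
    (fun n => by simp) (fun n v => ?_) (fun n => ?_) fun n m hnm => ?_
  · rw [add_apply, smul_apply,
      smul_apply, norm_smul]
    refine (norm_add_le _ _).trans ?_
    rw [norm_smul, norm_neg, norm_one, one_mul, Complex.norm_two]
    linarith [bd (2 * n) v, bd (2 * n + 1) v]
  · rw [vd, ← pow_eq_one_iff_of_nonneg (norm_nonneg _) two_ne_zero, norm_sub_sq (𝕜 := ℂ),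
      RCLike.re_to_complex, i2 _ _ (by omega)]
    linarith [show ‖_‖ ^ 2 = (1 : ℝ) from n1 (2 * n), show ‖_‖ ^ 2 = (1 : ℝ) from n1 (2 * n + 1)]
  · rw [vd, vd, inner_sub_left, inner_sub_right, inner_sub_right, sub_re, sub_re, sub_re,
      i2 _ _ (by omega), i2 _ _ (by omega), i2 _ _ (by omega), i2 _ _ (by omega)]
    norm_num

end Pool.Agent.H22.Sch
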