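import Pool.Agent.H22.Sch2

/-! Trace norm bounds and the two-unit diagonal operators. -/

namespace Pool.Agent.H22.Sch

open InnerProductSpace Filter Topology Complex
open scoped InnerProductSpace ComplexConjugate

variable {H : Type} [NormedAddCommGroup H] [InnerProductSpace ℂ H] [CompleteSpace H]
  {b : HilbertBasis ℕ ℂ H}

noncomputable def ab (x : H →L[ℂ] H) : H →L[ℂ] H := cfc (fun t : ℝ => √t) (star x * x)

omit [CompleteSpace H] in
lemma re_mono {A B : H →L[ℂ] H} (h : A ≤ B) (v : H) : (⟪v, A v⟫_ℂ).re ≤ (⟪v, B v⟫_ℂ).re := by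
  have := ((ContinuousLinearMap.le_def _ _).mp h).re_inner_nonneg_right v
  simpa [inner_sub_right] using this

lemma ab_le (x : H →L[ℂ] H) (v : H) (hv : ‖v‖ = 1) : (⟪v, ab x v⟫_ℂ).re ≤ ‖x v‖ := by
  have h1 : star (ab x) * ab x = star x * x := by
    rw [ab, (cfc_predicate (R := ℝ) _ _ : IsSelfAdjoint _).star_eq, ← cfc_mul ..]
    conv_rhs => rw [← cfc_id' ℝ (star x * x)]
    exact cfc_congr fun t ht =>
      Real.mul_self_sqrt (spectrum_nonneg_of_nonneg (star_mul_self_nonneg x) ht)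
  have h2 := sq_eq (ab x) v
  rw [h1, sq_eq, sq_eq_sq₀ (norm_nonneg _) (norm_nonneg _)] at h2
  refine ((re_le_norm _).trans (norm_inner_le_norm _ _)).trans ?_
  rw [hv, one_mul, h2]

lemma tr_le (x : H →L[ℂ] H) (hs : Summable fun n => (⟪b n, ab x (b n)⟫_ℂ).re) (s : Finset ℕ) :
    ∑ i ∈ s, ‖⟪b i, x (b i)⟫_ℂ‖ ≤ ∑' n, (⟪b n, ab x (b n)⟫_ℂ).re := by
  have sa : IsSelfAdjoint (star x * x) := .star_mul_self x
  have nn : ∀ n, 0 ≤ (⟪b n, ab x (b n)⟫_ℂ).re := fun n => by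
    simpa [ab] using re_mono (cfc_nonneg (a := star x * x) fun t _ => Real.sqrt_nonneg t) (b n)
  have main : ∀ ε : ℝ, 0 < ε → ∑ i ∈ s, ‖⟪b i, x (b i)⟫_ℂ‖ ≤
      ∑' n, (⟪b n, ab x (b n)⟫_ℂ).re + s.card * ε := fun ε hε => by
    have hp : ∀ t : ℝ, 0 < √t + ε := fun t => by positivity
    have c1 : Continuous fun t : ℝ => √(√t + ε) := by fun_prop
    have c2 : Continuous fun t : ℝ => (√(√t + ε))⁻¹ :=
      c1.inv₀ fun t => (Real.sqrt_pos.mpr (hp t)).ne'
    set c := cfc (fun t : ℝ => (√(√t + ε))⁻¹) (star x * x) with hc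
    set d := cfc (fun t : ℝ => √(√t + ε)) (star x * x) with hd
    have sc : star c = c := (cfc_predicate (R := ℝ) _ _ : IsSelfAdjoint _).star_eq
    have sd : star d = d := (cfc_predicate (R := ℝ) _ _ : IsSelfAdjoint _).star_eq
    have cd : c * d = 1 := by
      rw [hc, hd, ← cfc_mul _ _ _ c2.continuousOn c1.continuousOn, ← cfc_one ℝ (star x * x)]
      exact cfc_congr fun t _ => inv_mul_cancel₀ (Real.sqrt_pos.mpr (hp t)).ne'
    have dd : star d * d = ab x + algebraMap ℝ _ ε := by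
      rw [sd, hd, ← cfc_mul _ _ _ c1.continuousOn c1.continuousOn, ab, ← cfc_add_const ..]
      exact cfc_congr fun t _ => Real.mul_self_sqrt (hp t).le
    have yy : star (x * c) * (x * c) ≤ ab x := by
      have : star (x * c) * (x * c) = cfc (fun t : ℝ => (√(√t + ε))⁻¹ * t * (√(√t + ε))⁻¹)
          (star x * x) := by
        rw [cfc_mul (fun t : ℝ => (√(√t + ε))⁻¹ * t) _ _
          (c2.mul continuous_id').continuousOn c2.continuousOn,
          cfc_mul _ _ _ c2.continuousOn continuous_id'.continuousOn, cfc_id' ℝ _ sa, ← hc,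
          star_mul, sc]
        simp only [mul_assoc]
      rw [this, ab]
      refine cfc_mono (fun t _ => ?_) ((c2.mul continuous_id').mul c2).continuousOn
        Real.continuous_sqrt.continuousOn
      rw [mul_comm, ← mul_assoc, ← mul_inv, Real.mul_self_sqrt (hp t).le, inv_mul_le_iff₀ (hp t)]
      nlinarith [Real.sq_sqrt' (x := t), le_max_left t 0, Real.sqrt_nonneg t]
    have h1 : ∀ i, ‖⟪b i, x (b i)⟫_ℂ‖ ≤ (‖star (x * c) (b i)‖ ^ 2 +
        ((⟪b i, ab x (b i)⟫_ℂ).re + ε)) / 2 := fun i => by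
      have e1 : ⟪b i, x (b i)⟫_ℂ = ⟪star (x * c) (b i), d (b i)⟫_ℂ := by
        rw [adj, ← mul_apply_eq_comp, mul_assoc, cd, mul_one]
      have e2 : ‖d (b i)‖ ^ 2 = (⟪b i, ab x (b i)⟫_ℂ).re + ε := by
        rw [← sq_eq, dd, add_apply, inner_add_right, add_re, Algebra.algebraMap_eq_smul_one]
        simp [b.orthonormal.1 i, ← Complex.coe_smul, inner_smul_right]
      rw [e1, ← e2]
      nlinarith [norm_inner_le_norm (𝕜 := ℂ) (star (x * c) (b i)) (d (b i)),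
        sq_nonneg (‖star (x * c) (b i)‖ - ‖d (b i)‖)]
    have h2 : ∑ i ∈ s, ‖star (x * c) (b i)‖ ^ 2 ≤ ∑' n, (⟪b n, ab x (b n)⟫_ℂ).re := by
      refine hasSum_le (fun n => ?_) (hasSum_sum fun i _ => pars (b := b) (star (x * c) (b i)))
        hs.hasSum
      simp only [adj', norm_inner_symm ((x * c) _)]
      refine (b.orthonormal.sum_inner_products_le _).trans ?_
      rw [← sq_eq]; exact re_mono yy _
    have h3 := hs.sum_le_tsum s fun n _ => nn n
    have h4 := Finset.sum_le_sum fun i (_ : i ∈ s) => h1 i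
    rw [← Finset.sum_div, Finset.sum_add_distrib, Finset.sum_add_distrib, Finset.sum_const,
      nsmul_eq_mul] at h4
    have : (0 : ℝ) ≤ s.card * ε := by positivity
    linarith
  refine le_of_forall_pos_le_add fun ε hε => (main (ε / (s.card + 1)) (by positivity)).trans ?_
  gcongr
  rw [mul_div_assoc', div_le_iff₀ (by positivity)]
  nlinarith

noncomputable def e (b : HilbertBasis ℕ ℂ H) (α β : ℂ) : H →L[ℂ] H :=
  α • rankOne ℂ (b 0) (b 0) + β • rankOne ℂ (b 1) (b 1)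

omit [CompleteSpace H] in
lemma ip (i j : ℕ) : ⟪b i, b j⟫_ℂ = if i = j then 1 else 0 := orthonormal_iff_ite.mp b.orthonormal i j

omit [CompleteSpace H] in
lemma e0 (α β : ℂ) : e b α β (b 0) = α • b 0 := by simp [e, ip, b.orthonormal.1 0]

omit [CompleteSpace H] in
lemma e1 (α β : ℂ) : e b α β (b 1) = β • b 1 := by simp [e, ip, b.orthonormal.1 1]

omit [CompleteSpace H] in
lemma e2 (α β : ℂ) (m : ℕ) (hm : m ∉ ({0, 1} : Finset ℕ)) : e b α β (b m) = 0 := by
  simp only [Finset.mem_insert, Finset.mem_singleton, not_or] at hm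
  simp [e, ip, Ne.symm hm.1, Ne.symm hm.2]

omit [CompleteSpace H] in
lemma e_sum (α β : ℂ) (r : ℕ) (hr : r ≠ 0) :
    HasSum (fun m => ‖e b α β (b m)‖ ^ r) (‖α‖ ^ r + ‖β‖ ^ r) := by
  have := hasSum_sum_of_ne_finset_zero (f := fun m => ‖e b α β (b m)‖ ^ r) (s := {0, 1})
    (L := SummationFilter.unconditional ℕ) fun m hm => by simp [e2 α β m hm, hr]
  simpa [e0, e1, norm_smul, b.orthonormal.1 0, b.orthonormal.1 1] using this

lemma e_star (α β : ℂ) : star (e b α β) * e b α β = e b (conj α * α) (conj β * β) := by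
  have : star (e b α β) = e b (conj α) (conj β) := by
    simp [e, ContinuousLinearMap.star_eq_adjoint]
  rw [this]
  ext v
  simp [e, ip, smul_smul, mul_assoc, b.orthonormal.1 0, b.orthonormal.1 1, inner_add_right,
    inner_smul_right]

lemma e_S (α β : ℂ) : S b (e b α β) := by
  rw [S, e_star]; exact mem_iff.mpr (e_sum _ _ 2 two_ne_zero).summable

lemma e_N (α β : ℂ) : N b (e b α β) = ‖α‖ ^ 4 + ‖β‖ ^ 4 := by
  rw [N, (hsum (e_S α β)).unique (e_star (b := b) α β ▸ e_sum _ _ 2 two_ne_zero)]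
  simp; ring

lemma e_norm : ‖e b 1 1‖ ≤ 1 := by
  have := CStarRing.norm_star_mul_self (x := e b 1 1)
  rw [e_star, map_one, mul_one] at this
  nlinarith [norm_nonneg (e b 1 1)]

lemma diag_le {x : H →L[ℂ] H} (hx : S b x) (m : ℕ) : ‖⟪b m, x (b m)⟫_ℂ‖ ^ 4 ≤ N b x := by
  have h1 : ‖⟪b m, x (b m)⟫_ℂ‖ ≤ ‖x (b m)‖ := by
    simpa [b.orthonormal.1 m] using norm_inner_le_norm (𝕜 := ℂ) (b m) (x (b m))
  have h2 : ‖x (b m)‖ ^ 2 ≤ ‖(star x * x) (b m)‖ := by
    rw [← sq_eq]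
    simpa [b.orthonormal.1 m] using (re_le_norm _).trans
      (norm_inner_le_norm (𝕜 := ℂ) (b m) ((star x * x) (b m)))
  refine le_trans ?_ (le_hasSum (hsum hx) m fun _ _ => sq_nonneg _)
  calc _ ≤ (‖x (b m)‖ ^ 2) ^ 2 := by rw [← pow_mul]; gcongr
    _ ≤ _ := by gcongr

noncomputable def av (b : HilbertBasis ℕ ℂ H) : (H →L[ℂ] H) →ₗ[ℂ] ℂ where
  toFun x := (⟪b 0, x (b 0)⟫_ℂ + ⟪b 1, x (b 1)⟫_ℂ) / 2
  map_add' x y := by simp; ring
  map_smul' c x := by simp; ring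

omit [CompleteSpace H] in
lemma av_def (x : H →L[ℂ] H) : av b x = (⟪b 0, x (b 0)⟫_ℂ + ⟪b 1, x (b 1)⟫_ℂ) / 2 := rfl

noncomputable def T (b : HilbertBasis ℕ ℂ H) : (H →L[ℂ] H) →ₗ[ℂ] (H →L[ℂ] H) :=
  (av b).smulRight (e b 1 1)

omit [CompleteSpace H] in
lemma T_eq (x : H →L[ℂ] H) : T b x = e b (av b x) (av b x) := by simp [T, e]

omit [CompleteSpace H] in
lemma av_le (x : H →L[ℂ] H) : ‖av b x‖ ≤ (‖⟪b 0, x (b 0)⟫_ℂ‖ + ‖⟪b 1, x (b 1)⟫_ℂ‖) / 2 := by
  rw [av_def, norm_div, Complex.norm_two]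
  gcongr
  exact norm_add_le _ _

omit [CompleteSpace H] in
lemma av_e (α β : ℂ) : av b (e b α β) = (α + β) / 2 := by
  simp [av_def, e0, e1, b.orthonormal.1 0, b.orthonormal.1 1]

end Pool.Agent.H22.Sch
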