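import Pool.Agent.H22.Sch3

/-! The averaging map on two diagonal units is far from every isometry of the class S4. -/

namespace Pool.Agent.H22.Sch

open InnerProductSpace Filter Topology Complex
open scoped InnerProductSpace ComplexConjugate ENNReal

variable {H : Type} [NormedAddCommGroup H] [InnerProductSpace ℂ H] [CompleteSpace H]
  {b : HilbertBasis ℕ ℂ H}

lemma tail {f g : ℕ → ℝ} {F G : ℝ} (hf : HasSum f F) (hg : HasSum g G)
    (h : ∀ n, n ≠ 0 → n ≠ 1 → f n ≤ g n) : F - (f 0 + f 1) ≤ G - (g 0 + g 1) := by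
  have key : ∀ {u : ℕ → ℝ} {U : ℝ}, HasSum u U →
      HasSum (fun x : {x // x ∉ ({0, 1} : Finset ℕ)} => u x) (U - (u 0 + u 1)) := fun hu => by
    rw [Finset.hasSum_compl_iff, Finset.sum_pair (by norm_num), sub_add_cancel]; exact hu
  refine hasSum_le (fun x => ?_) (key hf) (key hg)
  have := x.2
  simp only [Finset.mem_insert, Finset.mem_singleton, not_or] at this
  exact h _ this.1 this.2

lemma col_le (x : H →L[ℂ] H) (m : ℕ) : (‖x (b m)‖ ^ 2) ^ 2 ≤ ‖(star x * x) (b m)‖ ^ 2 := by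
  have h2 : ‖x (b m)‖ ^ 2 ≤ ‖(star x * x) (b m)‖ := by
    rw [← sq_eq]
    simpa [b.orthonormal.1 m] using (re_le_norm _).trans
      (norm_inner_le_norm (𝕜 := ℂ) (b m) ((star x * x) (b m)))
  gcongr

omit [CompleteSpace H] in
lemma ent_le (x : H →L[ℂ] H) (m : ℕ) : ‖⟪b m, x (b m)⟫_ℂ‖ ≤ ‖x (b m)‖ := by
  simpa [b.orthonormal.1 m] using norm_inner_le_norm (𝕜 := ℂ) (b m) (x (b m))

lemma two_le {x : H →L[ℂ] H} (hx : S b x) :
    ‖(star x * x) (b 0)‖ ^ 2 + ‖(star x * x) (b 1)‖ ^ 2 ≤ N b x := by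
  have := sum_le_hasSum ({0, 1} : Finset ℕ) (fun _ _ => sq_nonneg _) (hsum hx)
  rwa [Finset.sum_pair (by norm_num)] at this

lemma T_contr {x : H →L[ℂ] H} (hx : S b x) : N b (T b x) ≤ N b x := by
  rw [T_eq, e_N]
  have h1 := pow_le_pow_left₀ (norm_nonneg _) (av_le (b := b) x) 4
  have h2 := add_pow_le (norm_nonneg (inner ℂ (b 0) (x (b 0))))
    (norm_nonneg (inner ℂ (b 1) (x (b 1)))) 4
  rw [div_pow] at h1
  have h3 := two_le hx
  have h4 := col_le (b := b) x 0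
  have h5 := col_le (b := b) x 1
  have h6 := pow_le_pow_left₀ (norm_nonneg _) (ent_le (b := b) x 0) 4
  have h7 := pow_le_pow_left₀ (norm_nonneg _) (ent_le (b := b) x 1) 4
  norm_num at h1 h2 ⊢
  rw [← pow_mul, show 2 * 2 = 4 from rfl] at h4 h5
  linarith

theorem far (h k : H →L[ℂ] H) (sh : S b h) (sk : S b k)
    (hN : ∀ α β : ℂ, N b (α • h + β • k) = ‖α‖ ^ 4 + ‖β‖ ^ 4)
    (d1 : ∀ i, i = 0 ∨ i = 1 → ‖⟪b i, h (b i)⟫_ℂ - 1 / 2‖ ≤ 1 / 1000)
    (d2 : ∀ i, i = 0 ∨ i = 1 → ‖⟪b i, k (b i)⟫_ℂ - 1 / 2‖ ≤ 1 / 1000)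
    (d3 : ‖⟪b 0, h (b 1)⟫_ℂ‖ ≤ 1 / 1000) (d4 : ‖⟪b 1, h (b 0)⟫_ℂ‖ ≤ 1 / 1000) : False := by
  have o := orth2 sh sk hN
  set m := h + k with hm
  have sm : S b m := sh.add sk
  have n1 : N b h = 1 := by simpa using hN 1 0
  have n2 : N b m = 2 := by
    have := hN 1 1
    rw [one_smul, one_smul, norm_one] at this
    rw [hm, this]; norm_num
  have bd : ∀ v, ‖(star h * h) v‖ ^ 2 ≤ ‖(star m * m) v‖ ^ 2 := fun v => by
    have e : star m * m = star h * h + star k * k := by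
      rw [hm, star_add, add_mul, mul_add, mul_add, o.2.1, o.2.2, add_zero, zero_add]
    have z : ⟪(star k * k) v, (star h * h) v⟫_ℂ = 0 := by
      rw [mul_apply_eq_comp, mul_apply_eq_comp, adj, ← mul_apply_eq_comp k, o.1]; simp
    rw [e, add_comm, add_apply]
    have := norm_add_sq_eq_norm_sq_add_norm_sq_of_inner_eq_zero _ _ z
    nlinarith [sq_nonneg ‖(star k * k) v‖]
  have a1 : ∀ i, i = 0 ∨ i = 1 → 998 / 1000 ≤ (⟪b i, m (b i)⟫_ℂ).re := fun i hi => by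
    have e1 := (abs_le.1 ((abs_re_le_norm _).trans (d1 i hi))).1
    have e2 := (abs_le.1 ((abs_re_le_norm _).trans (d2 i hi))).1
    rw [hm, add_apply, inner_add_right, add_re]
    norm_num at e1 e2 ⊢
    linarith
  have a2 : ∀ i, i = 0 ∨ i = 1 → 992 / 1000 ≤ ‖(star m * m) (b i)‖ ^ 2 := fun i hi => by
    refine le_trans ?_ (col_le m i)
    have := (a1 i hi).trans ((re_le_norm _).trans (ent_le m i))
    calc (992 / 1000 : ℝ) ≤ ((998 / 1000) ^ 2) ^ 2 := by norm_num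
      _ ≤ _ := by gcongr
  have a3 := two_le sm
  have a0 := a2 0 (Or.inl rfl)
  have a1' := a2 1 (Or.inr rfl)
  have a4 : ∀ i, i = 0 ∨ i = 1 → ‖m (b i) - b i‖ ≤ 9 / 100 := fun i hi => by
    have e1 : (‖m (b i)‖ ^ 2) ^ 2 ≤ 1008 / 1000 := by
      refine (col_le m i).trans ?_
      rcases hi with rfl | rfl <;> linarith
    have e2 := norm_sub_sq (𝕜 := ℂ) (b i) (m (b i))
    rw [b.orthonormal.1 i, RCLike.re_to_complex] at e2
    rw [norm_sub_rev]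
    refine le_of_sq_le_sq ?_ (by norm_num)
    nlinarith [a1 i hi, sq_nonneg (‖m (b i)‖ ^ 2 - 1)]
  have a5 : ∀ i, ‖h (b i)‖ ≤ 1 := fun i => by
    have := (col_le h i).trans (le_hasSum (hsum sh) i fun _ _ => sq_nonneg _)
    rw [← pow_mul] at this
    exact (pow_le_one_iff_of_nonneg (norm_nonneg _) (by norm_num : 2 * 2 ≠ 0)).1 (this.trans_eq n1)
  have a6 : ∀ i j, j = 0 ∨ j = 1 →
      ‖⟪b i, (star h * h) (b j)⟫_ℂ‖ ≤ ‖⟪b j, h (b i)⟫_ℂ‖ + 9 / 100 := fun i j hj => by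
    have e : star h * h = star h * m := by rw [hm, mul_add, o.2.1, add_zero]
    rw [e, mul_apply_eq_comp, adj', ← add_sub_cancel (b j) (m (b j)),
      inner_add_right]
    refine (norm_add_le _ _).trans (add_le_add (norm_inner_symm _ _).le ?_)
    refine (norm_inner_le_norm _ _).trans ?_
    nlinarith [a5 i, a4 j hj, norm_nonneg (h (b i)), norm_nonneg (m (b j) - b j)]
  have t1 := tail (hsum sh) (hsum sm) fun n _ _ => bd _
  have t2 : ∀ j, _ := fun j => tail (pars (b := b) ((star h * h) (b j))) (hsum sm) fun n _ _ => by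
    refine le_trans ?_ (bd _)
    have sa : star (star h * h) = star h * h := by simp
    rw [← sa, adj', sa]
    refine pow_le_pow_left₀ (norm_nonneg _) ((norm_inner_le_norm _ _).trans ?_) 2
    rw [b.orthonormal.1 j, mul_one]
  have t3 := t2 0
  have t4 := t2 1
  have dg : ∀ i, i = 0 ∨ i = 1 → ‖⟪b i, (star h * h) (b i)⟫_ℂ‖ ^ 2 ≤ (6 / 10) ^ 2 := fun i hi => by
    refine pow_le_pow_left₀ (norm_nonneg _) ((a6 i i hi).trans ?_) 2
    have := norm_sub_norm_le (⟪b i, h (b i)⟫_ℂ) (1 / 2)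
    have e : ‖(1 / 2 : ℂ)‖ = 1 / 2 := by simp
    linarith [d1 i hi]
  have g0 := dg 0 (Or.inl rfl)
  have g1 := dg 1 (Or.inr rfl)
  have g2 : ‖⟪b 1, (star h * h) (b 0)⟫_ℂ‖ ^ 2 ≤ (1 / 10) ^ 2 :=
    pow_le_pow_left₀ (norm_nonneg _) ((a6 1 0 (Or.inl rfl)).trans (by linarith)) 2
  have g3 : ‖⟪b 0, (star h * h) (b 1)⟫_ℂ‖ ^ 2 ≤ (1 / 10) ^ 2 :=
    pow_le_pow_left₀ (norm_nonneg _) ((a6 0 1 (Or.inr rfl)).trans (by linarith)) 2
  rw [N] at n1 n2 a3
  linarith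

/-- trace of |x|^r along the basis b -/
noncomputable def Q (b : HilbertBasis ℕ ℂ H) (r : ℝ) (x : H →L[ℂ] H) : ℝ≥0∞ :=
  ∑' n : ℕ, ENNReal.ofReal
    (inner ℂ (b n) ((cfc (fun t : ℝ => t ^ (r / 2)) (star x * x)) (b n))).re

/-- trace along the basis b -/
noncomputable def tr (b : HilbertBasis ℕ ℂ H) (x : H →L[ℂ] H) : ℂ := ∑' n : ℕ, inner ℂ (b n) (x (b n))

/-- V restricted to S_p is a linear isometry of S_p into itself -/
def IsIso (b : HilbertBasis ℕ ℂ H) (p : ℝ) (V : (H →L[ℂ] H) → (H →L[ℂ] H)) : Prop :=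
  (∀ x y, Q b p x < ⊤ → Q b p y < ⊤ → V (x + y) = V x + V y) ∧
  (∀ (c : ℂ) x, Q b p x < ⊤ → V (c • x) = c • V x) ∧
  ∀ x, Q b p x < ⊤ → Q b p (V x) = Q b p x

/-- A is a pw-limit of isometries of S_p -/
def PwLim (b : HilbertBasis ℕ ℂ H) (p : ℝ) (A : (H →L[ℂ] H) → (H →L[ℂ] H)) : Prop :=
  ∃ (ι : Type) (l : Filter ι) (V : ι → (H →L[ℂ] H) → (H →L[ℂ] H)), l.NeBot ∧
    (∀ i, IsIso b p (V i)) ∧ ∀ (n : ℕ) x y, Q b p x < ⊤ → Q b (p / (p - 1)) y < ⊤ →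
      Tendsto (fun i => tr b ((V i)^[n] x * y)) l (𝓝 (tr b (A^[n] x * y)))

lemma q4 (x : H →L[ℂ] H) : Q b 4 x = ∑' n, ENNReal.ofReal (‖(star x * x) (b n)‖ ^ 2) := by
  have sa : IsSelfAdjoint (star x * x) := .star_mul_self x
  have : cfc (fun t : ℝ => t ^ ((4 : ℝ) / 2)) (star x * x) = star (star x * x) * (star x * x) := by
    rw [sa.star_eq, ← pow_two, ← cfc_pow_id (R := ℝ) (star x * x) 2]
    congr 1; ext t
    rw [show (4 : ℝ) / 2 = 2 by norm_num, Real.rpow_two]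
  simp only [Q, this, sq_eq]

lemma q1 (x : H →L[ℂ] H) : Q b 1 x = ∑' n, ENNReal.ofReal (inner ℂ (b n) (ab x (b n))).re := by
  simp only [Q, ab, Real.sqrt_eq_rpow]

lemma qN (x : H →L[ℂ] H) (hx : S b x) : Q b 4 x = ENNReal.ofReal (N b x) := by
  rw [q4, N, ← (hsum hx).tsum_eq,
    ENNReal.ofReal_tsum_of_nonneg (fun _ => sq_nonneg _) (hsum hx).summable]

lemma qS (x : H →L[ℂ] H) : Q b 4 x < ⊤ ↔ S b x := by
  refine ⟨fun h => mem_iff.mpr ?_, fun h => by rw [qN x h]; exact ENNReal.ofReal_lt_top⟩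
  rw [q4] at h
  simpa only [ENNReal.toReal_ofReal (sq_nonneg _)] using ENNReal.summable_toReal h.ne

lemma q_rank (r : ℝ) (hr : 0 < r) (i j : ℕ) : Q b r (rankOne ℂ (b j) (b i)) < ⊤ := by
  have e : star (rankOne ℂ (b j) (b i)) * rankOne ℂ (b j) (b i) = rankOne ℂ (b i) (b i) := by
    ext v; simp [ContinuousLinearMap.star_eq_adjoint, b.orthonormal.1 j]
  have id : IsIdempotentElem (rankOne ℂ (b i) (b i)) := by
    unfold IsIdempotentElem
    ext v; simp [b.orthonormal.1 i]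
  have sa : IsSelfAdjoint (rankOne ℂ (b i) (b i)) := e ▸ IsSelfAdjoint.star_mul_self _
  have c : cfc (fun t : ℝ => t ^ (r / 2)) (rankOne ℂ (b i) (b i)) = rankOne ℂ (b i) (b i) := by
    conv_rhs => rw [← cfc_id' ℝ (rankOne ℂ (b i) (b i))]
    refine cfc_congr fun t ht => ?_
    rcases id.spectrum_subset ℝ ht with rfl | rfl
    · exact Real.zero_rpow (by positivity)
    · exact Real.one_rpow _
  rw [Q, e, c, tsum_eq_single i]
  · exact ENNReal.ofReal_lt_top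
  · intro n hn
    simp [ip, hn, hn.symm]

omit [CompleteSpace H] in
lemma tr_rank (x : H →L[ℂ] H) (i j : ℕ) :
    tr b (x * rankOne ℂ (b j) (b i)) = ⟪b i, x (b j)⟫_ℂ := by
  rw [tr, tsum_eq_single i]
  · simp [b.orthonormal.1 i]
  · intro n hn
    simp [ip, hn.symm]

theorem not_pw : ¬ PwLim b 4 (T b) := by
  rintro ⟨ι, l, V, hl, hV, hc⟩
  have Nn : ∀ x, 0 ≤ N b x := fun x => sq_nonneg _
  have c : ∀ (α β : ℂ) (i j : ℕ), α + β = 1 → ∀ᶠ a in l,
      ‖⟪b i, V a (e b α β) (b j)⟫_ℂ - ⟪b i, e b (1 / 2) (1 / 2) (b j)⟫_ℂ‖ < 1 / 1000 :=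
    fun α β i j hs => by
      have := hc 1 (e b α β) _ ((qS _).2 (e_S _ _)) (q_rank _ (by norm_num) i j)
      simp only [Function.iterate_one, tr_rank, T_eq, av_e, hs] at this
      simpa only [dist_eq_norm] using Metric.tendsto_nhds.1 this (1 / 1000) (by norm_num)
  obtain ⟨a, ⟨⟨⟨⟨c1, c2⟩, c3⟩, c4⟩, c5⟩, c6⟩ := ((((((c 1 0 0 0 (by simp)).and (c 1 0 1 1 (by simp))).and
    (c 0 1 0 0 (by simp))).and (c 0 1 1 1 (by simp))).and (c 1 0 0 1 (by simp))).and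
    (c 1 0 1 0 (by simp))).exists
  obtain ⟨v1, v2, v3⟩ := hV a
  simp only [qS] at v1 v2 v3
  have iso : ∀ x, S b x → S b (V a x) ∧ N b (V a x) = N b x := fun x hx => by
    have h1 : S b (V a x) := by rw [← qS, v3 x hx, qS]; exact hx
    have := v3 x hx
    rw [qN _ h1, qN _ hx, ENNReal.ofReal_eq_ofReal_iff (Nn _) (Nn _)] at this
    exact ⟨h1, this⟩
  have ee : ∀ α β : ℂ, α • e b 1 0 + β • e b 0 1 = e b α β := fun α β => by simp [e]
  simp only [e0, e1, inner_smul_right, ip, if_true, mul_one, zero_ne_one, one_ne_zero, if_false,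
    mul_zero, sub_zero] at c1 c2 c3 c4 c5 c6
  refine far (V a (e b 1 0)) (V a (e b 0 1)) (iso _ (e_S _ _)).1 (iso _ (e_S _ _)).1
    (fun α β => ?_) ?_ ?_ c5.le c6.le
  · rw [← v2 _ _ (e_S _ _), ← v2 _ _ (e_S _ _), ← v1 _ _ ((e_S _ _).smul _) ((e_S _ _).smul _), ee,
      (iso _ (e_S _ _)).2, e_N]
  · rintro i (rfl | rfl)
    exacts [c1.le, c2.le]
  · rintro i (rfl | rfl)
    exacts [c3.le, c4.le]

theorem T4 (x : H →L[ℂ] H) (hx : Q b 4 x < ⊤) : Q b 4 (T b x) ≤ Q b 4 x := by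
  rw [qS] at hx
  rw [qN _ hx, qN _ (by rw [T_eq]; exact e_S _ _)]
  exact ENNReal.ofReal_le_ofReal (T_contr hx)

theorem T1 (x : H →L[ℂ] H) (h1 : Q b 1 x < ⊤) : Q b 1 (T b x) ≤ Q b 1 x := by
  have nn : ∀ n, 0 ≤ (inner ℂ (b n) (ab x (b n))).re := fun n => by
    simpa [ab] using re_mono (cfc_nonneg (a := star x * x) fun t _ => Real.sqrt_nonneg t) (b n)
  have hs : Summable fun n => (inner ℂ (b n) (ab x (b n))).re := by
    rw [q1] at h1
    simpa only [ENNReal.toReal_ofReal (nn _)] using ENNReal.summable_toReal h1.ne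
  have h2 := e_sum (b := b) (av b x) (av b x) 1 one_ne_zero
  simp only [pow_one] at h2
  rw [q1, q1, ← ENNReal.ofReal_tsum_of_nonneg nn hs, T_eq]
  refine (ENNReal.tsum_le_tsum fun n => ENNReal.ofReal_le_ofReal
    (ab_le _ _ (b.orthonormal.1 n))).trans ?_
  rw [← ENNReal.ofReal_tsum_of_nonneg (fun _ => norm_nonneg _) h2.summable, h2.tsum_eq]
  refine ENNReal.ofReal_le_ofReal ?_
  have h3 := tr_le x hs {0, 1}
  rw [Finset.sum_pair (by norm_num)] at h3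
  linarith [av_le (b := b) x]

theorem Tinf (x : H →L[ℂ] H) : ‖T b x‖ ≤ ‖x‖ := by
  have h1 : ∀ m, ‖inner ℂ (b m) (x (b m))‖ ≤ ‖x‖ := fun m => by
    refine (norm_inner_le_norm _ _).trans ?_
    simpa [b.orthonormal.1 m] using x.le_opNorm (b m)
  change ‖av b x • e b 1 1‖ ≤ _
  rw [norm_smul]
  refine (mul_le_of_le_one_right (norm_nonneg _) e_norm).trans ((av_le x).trans ?_)
  linarith [h1 0, h1 1]

end Pool.Agent.H22.Sch
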