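import Mathlib

/-! The Fibonacci automorphism of the two-torus: local lifts, bracket, rigidity. -/

namespace Pool.Agent.H22.Smale

open Set Filter Topology

abbrev V := ℝ × ℝ
abbrev T := UnitAddCircle × UnitAddCircle

noncomputable def pr : V →+ T :=
  AddMonoidHom.mk' (fun v => ((v.1 : UnitAddCircle), (v.2 : UnitAddCircle))) (fun _ _ => rfl)

def A : V →+ V := AddMonoidHom.mk' (fun v => (v.1 + v.2, v.1)) (fun _ _ => by ext <;> simp; ring)
def Ai : V →+ V := AddMonoidHom.mk' (fun v => (v.2, v.1 - v.2)) (fun _ _ => by ext <;> simp; ring)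
noncomputable def a : T →+ T :=
  AddMonoidHom.mk' (fun v => (v.1 + v.2, v.1)) (fun _ _ => by ext <;> simp; abel)
noncomputable def ai : T →+ T :=
  AddMonoidHom.mk' (fun v => (v.2, v.1 - v.2)) (fun _ _ => by ext <;> simp; abel)

lemma pr_A (v : V) : pr (A v) = a (pr v) := rfl
lemma pr_Ai (v : V) : pr (Ai v) = ai (pr v) := rfl
lemma a_ai (x : T) : a (ai x) = x := by ext <;> simp [a, ai]
lemma ai_a (x : T) : ai (a x) = x := by ext <;> simp [a, ai]
lemma A_Ai (x : V) : A (Ai x) = x := by ext <;> simp [A, Ai]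
lemma Ai_A (x : V) : Ai (A x) = x := by ext <;> simp [A, Ai]
lemma a_cont : Continuous a := by
  show Continuous fun v : T => (v.1 + v.2, v.1); fun_prop
lemma ai_cont : Continuous ai := by
  show Continuous fun v : T => (v.2, v.1 - v.2); fun_prop
lemma A_cont : Continuous A := by
  show Continuous fun v : V => (v.1 + v.2, v.1); fun_prop
lemma Ai_cont : Continuous Ai := by
  show Continuous fun v : V => (v.2, v.1 - v.2); fun_prop
lemma pr_cont : Continuous pr := by
  show Continuous fun v : V => ((v.1 : UnitAddCircle), (v.2 : UnitAddCircle))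
  exact ((AddCircle.continuous_mk' 1).comp continuous_fst).prodMk
    ((AddCircle.continuous_mk' 1).comp continuous_snd)

lemma abs1 (v : V) : |v.1| ≤ ‖v‖ := norm_fst_le v
lemma abs2 (v : V) : |v.2| ≤ ‖v‖ := norm_snd_le v
lemma nle (v : V) (c : ℝ) (h1 : |v.1| ≤ c) (h2 : |v.2| ≤ c) : ‖v‖ ≤ c := max_le h1 h2

lemma nA (v : V) : ‖A v‖ ≤ 2 * ‖v‖ := by
  have h1 := abs_le.1 (abs1 v); have h2 := abs_le.1 (abs2 v)
  refine nle _ _ (abs_le.2 ⟨?_, ?_⟩) (abs_le.2 ⟨?_, ?_⟩) <;> simp only [A, AddMonoidHom.mk'_apply] <;>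
    linarith [norm_nonneg v]
lemma nAi (v : V) : ‖Ai v‖ ≤ 2 * ‖v‖ := by
  have h1 := abs_le.1 (abs1 v); have h2 := abs_le.1 (abs2 v)
  refine nle _ _ (abs_le.2 ⟨?_, ?_⟩) (abs_le.2 ⟨?_, ?_⟩) <;>
    simp only [Ai, AddMonoidHom.mk'_apply] <;> linarith [norm_nonneg v]

lemma ex1 (x : UnitAddCircle) : ∃ r : ℝ, (r : UnitAddCircle) = x ∧ |r| = ‖x‖ := by
  obtain ⟨y, rfl⟩ := QuotientAddGroup.mk_surjective x
  refine ⟨y - round y, ?_, UnitAddCircle.norm_eq.symm⟩
  rw [AddCircle.coe_sub, sub_eq_self, AddCircle.coe_eq_zero_iff]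
  exact ⟨round y, by simp⟩

lemma exL (x : T) : ∃ v : V, pr v = x ∧ ‖v‖ = ‖x‖ := by
  obtain ⟨r, h1, h2⟩ := ex1 x.1
  obtain ⟨s, h3, h4⟩ := ex1 x.2
  refine ⟨(r, s), Prod.ext h1 h3, ?_⟩
  rw [Prod.norm_def, Prod.norm_def, ← h2, ← h4]; rfl

noncomputable def L (x : T) : V := (exL x).choose
lemma pr_L (x : T) : pr (L x) = x := (exL x).choose_spec.1
lemma n_L (x : T) : ‖L x‖ = ‖x‖ := (exL x).choose_spec.2

lemma n_pr (v : V) : ‖pr v‖ ≤ ‖v‖ :=
  max_le (QuotientAddGroup.norm_mk_le_norm.trans (norm_fst_le v))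
    (QuotientAddGroup.norm_mk_le_norm.trans (norm_snd_le v))

lemma z1 (r : ℝ) (h : (r : UnitAddCircle) = 0) (h1 : |r| < 1) : r = 0 := by
  obtain ⟨n, rfl⟩ := (AddCircle.coe_eq_zero_iff _).1 h
  simp only [zsmul_eq_mul, mul_one] at h1 ⊢
  have : |n| < 1 := by exact_mod_cast h1
  have : n = 0 := by rw [abs_lt] at this; omega
  simp [this]

lemma small0 (v : V) (h : pr v = 0) (h1 : ‖v‖ < 1) : v = 0 :=
  Prod.ext (z1 _ (congrArg Prod.fst h) ((abs1 v).trans_lt h1))
    (z1 _ (congrArg Prod.snd h) ((abs2 v).trans_lt h1))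

lemma Leq (v : V) (x : T) (h : pr v = x) (h1 : ‖v‖ < 1 / 2) : L x = v := by
  have h2 : ‖L x‖ ≤ ‖v‖ := by rw [n_L, ← h]; exact n_pr v
  refine sub_eq_zero.1 (small0 _ (by rw [map_sub, pr_L, h, sub_self]) ?_)
  linarith [norm_sub_le (L x) v]

lemma n_pr' (v : V) (h1 : ‖v‖ < 1 / 2) : ‖pr v‖ = ‖v‖ := by
  rw [← n_L, Leq v _ rfl h1]

lemma L_cont : ContinuousOn L {x | ‖x‖ ≤ 1 / 8} := by
  refine LipschitzOnWith.continuousOn (K := 1) (LipschitzOnWith.of_dist_le_mul ?_)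
  intro x hx y hy
  have hx' : ‖x‖ ≤ 1 / 8 := hx
  have hy' : ‖y‖ ≤ 1 / 8 := hy
  rw [dist_eq_norm, dist_eq_norm, ← n_pr' (L x - L y), map_sub, pr_L, pr_L]
  · simp
  · linarith [norm_sub_le (L x) (L y), n_L x, n_L y]

noncomputable def ph : ℝ := Real.goldenRatio
lemma ph2 : ph ^ 2 = ph + 1 := Real.goldenRatio_sq
lemma ph_gt : 8 / 5 < ph := by
  have h := ph2; have h1 : 1 < ph := Real.one_lt_goldenRatio
  nlinarith
lemma ph_lt : ph < 5 / 3 := by
  have h := ph2; have h1 : 1 < ph := Real.one_lt_goldenRatio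
  nlinarith

noncomputable def t : V →+ ℝ :=
  AddMonoidHom.mk' (fun v => ((3 - ph) * v.1 + (1 - 2 * ph) * v.2) / 5) (fun _ _ => by simp; ring)
noncomputable def u : V →+ ℝ :=
  AddMonoidHom.mk' (fun v => ph * v.1 + v.2) (fun _ _ => by simp; ring)
noncomputable def P : V →+ V :=
  AddMonoidHom.mk' (fun v => (t v, -ph * t v)) (fun _ _ => by ext <;> simp; ring)

lemma t_def (v : V) : t v = ((3 - ph) * v.1 + (1 - 2 * ph) * v.2) / 5 := rfl
lemma u_def (v : V) : u v = ph * v.1 + v.2 := rfl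
lemma P_def (v : V) : P v = (t v, -ph * t v) := rfl
lemma A_def (v : V) : A v = (v.1 + v.2, v.1) := rfl
lemma Ai_def (v : V) : Ai v = (v.2, v.1 - v.2) := rfl

lemma t_P (v : V) : t (P v) = t v := by
  rw [P_def, t_def (_, _)]; linear_combination (2 * t v / 5) * ph2
lemma P_P (v : V) : P (P v) = P v := by rw [P_def (P v), t_P, P_def]
lemma t_A (v : V) : t (A v) = (1 - ph) * t v := by
  rw [A_def, t_def, t_def]; linear_combination (-(v.1 + 2 * v.2) / 5) * ph2
lemma t_Ai (v : V) : t (Ai v) = (-ph) * t v := by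
  rw [Ai_def, t_def, t_def]; linear_combination (-(v.1 + 2 * v.2) / 5) * ph2
lemma u_A (v : V) : u (A v) = ph * u v := by
  rw [A_def, u_def, u_def]; linear_combination (-v.1) * ph2
lemma u_Ai (v : V) : u (Ai v) = (ph - 1) * u v := by
  rw [Ai_def, u_def, u_def]; linear_combination (-v.1) * ph2
lemma A_P (v : V) : A (P v) = (1 - ph) • P v := by
  rw [P_def, A_def]; ext
  · simp; ring
  · simp; linear_combination (-t v) * ph2
lemma P_A (v : V) : P (A v) = A (P v) := by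
  rw [A_P, P_def, P_def, t_A]; ext <;> simp; ring
lemma tu0 (v : V) (h1 : t v = 0) (h2 : u v = 0) : v = 0 := by
  rw [t_def] at h1; rw [u_def] at h2
  have e2 : v.2 = -ph * v.1 := by linarith
  have e1 : v.1 = 0 := by rw [e2] at h1; linear_combination h1 - (2 * v.1 / 5) * ph2
  ext <;> simp [e1, e2]
lemma Ai_t0 (v : V) (h1 : t v = 0) : Ai v = (ph - 1) • v := by
  rw [t_def] at h1
  have e : v.1 = ph * v.2 := by linear_combination (2 + ph) * h1 + ((v.1 + 2 * v.2) / 5) * ph2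
  rw [Ai_def]; ext
  · simp [e]; linear_combination (-v.2) * ph2
  · simp [e]; ring
lemma nt (v : V) : |t v| ≤ ‖v‖ := by
  have h1 := abs_le.1 (abs1 v); have h2 := abs_le.1 (abs2 v)
  have := ph_gt; have := ph_lt
  rw [t_def, abs_le]; constructor <;> nlinarith [norm_nonneg v]
lemma nu (v : V) : |u v| ≤ 3 * ‖v‖ := by
  have h1 := abs_le.1 (abs1 v); have h2 := abs_le.1 (abs2 v)
  have := ph_gt; have := ph_lt
  rw [u_def, abs_le]; constructor <;> nlinarith [norm_nonneg v]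
lemma nP (v : V) : ‖P v‖ ≤ 2 * ‖v‖ := by
  have h := nt v
  have := ph_gt; have := ph_lt
  refine nle _ _ (h.trans (by linarith [norm_nonneg v])) ?_
  show |(-ph) * t v| ≤ _
  rw [abs_mul, abs_neg, abs_of_pos (by linarith : 0 < ph)]
  nlinarith [abs_nonneg (t v)]
lemma P_cont : Continuous P := by
  show Continuous fun v : V => (((3 - ph) * v.1 + (1 - 2 * ph) * v.2) / 5,
    -ph * (((3 - ph) * v.1 + (1 - 2 * ph) * v.2) / 5))
  fun_prop

/-- the bracket -/
noncomputable def bt (x y : T) : T := x + pr (P (L (y - x)))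

lemma bt_cont : ContinuousOn (fun p : T × T => bt p.1 p.2) {p | dist p.1 p.2 ≤ 1 / 16} := by
  refine continuousOn_fst.add (pr_cont.comp_continuousOn (P_cont.comp_continuousOn
    (L_cont.comp (by fun_prop) ?_)))
  intro p hp
  have : dist p.1 p.2 ≤ 1 / 16 := hp
  rw [dist_comm, dist_eq_norm] at this
  show ‖p.2 - p.1‖ ≤ 1 / 8
  linarith

lemma L0 : L 0 = 0 := Leq 0 0 (map_zero _) (by simp)
lemma bt_self (x : T) : bt x x = x := by simp [bt, L0]

lemma nL (x y : T) (h : dist x y ≤ 1 / 16) : ‖L (y - x)‖ ≤ 1 / 16 := by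
  rwa [n_L, ← dist_eq_norm, dist_comm]

lemma bt_r (x y z : T) (h1 : dist y z ≤ 1 / 16) (h3 : dist x z ≤ 1 / 16) :
    bt x (bt y z) = bt x z := by
  have n1 := nL y z h1; have n3 := nL x z h3
  have : L (bt y z - x) = L (z - x) - L (z - y) + P (L (z - y)) := by
    refine Leq _ _ (by simp only [map_add, map_sub, pr_L, bt]; abel) ?_
    linarith [norm_add_le (L (z - x) - L (z - y)) (P (L (z - y))), norm_sub_le (L (z - x)) (L (z - y)),
      nP (L (z - y))]
  rw [bt, this, map_add, map_sub, P_P, sub_add_cancel, bt]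

lemma bt_l (x y z : T) (h1 : dist x y ≤ 1 / 16) (h3 : dist x z ≤ 1 / 16) :
    bt (bt x y) z = bt x z := by
  have n1 := nL x y h1; have n3 := nL x z h3
  have : L (z - bt x y) = L (z - x) - P (L (y - x)) := by
    refine Leq _ _ (by simp only [map_sub, pr_L, bt]; abel) ?_
    linarith [norm_sub_le (L (z - x)) (P (L (y - x))), nP (L (y - x))]
  rw [bt, this, map_sub, P_P, map_sub, bt, bt]; abel

lemma bt_a (x y : T) (h1 : dist x y ≤ 1 / 16) : a (bt x y) = bt (a x) (a y) := by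
  have n1 := nL x y h1
  have : L (a y - a x) = A (L (y - x)) :=
    Leq _ _ (by rw [pr_A, pr_L, map_sub]) (by linarith [nA (L (y - x))])
  rw [bt, bt, this, P_A, pr_A, map_add]

lemma bt_s (x y z : T) (h1 : dist x y ≤ 1 / 16) (e1 : bt y x = x) (h2 : dist x z ≤ 1 / 16)
    (e2 : bt z x = x) : dist (a y) (a z) ≤ 8 / 9 * dist y z := by
  have n1 := nL y x (by rwa [dist_comm]); have n2 := nL z x (by rwa [dist_comm])
  have e : y - z = pr (P (L (x - z) - L (x - y))) := by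
    rw [map_sub, map_sub, eq_sub_of_add_eq' e1, eq_sub_of_add_eq' e2]; abel
  have hn : ‖P (L (x - z) - L (x - y))‖ < 1 / 2 := by
    linarith [nP (L (x - z) - L (x - y)), norm_sub_le (L (x - z)) (L (x - y))]
  rw [dist_eq_norm, dist_eq_norm, ← map_sub, e, ← pr_A, n_pr' _ hn, A_P]
  refine (n_pr _).trans ?_
  rw [norm_smul, Real.norm_eq_abs]
  have := ph_gt; have := ph_lt
  exact mul_le_mul_of_nonneg_right (abs_le.2 ⟨by linarith, by linarith⟩) (norm_nonneg _)

lemma bt_u (x y z : T) (h1 : dist x y ≤ 1 / 16) (e1 : bt x y = x) (h2 : dist x z ≤ 1 / 16)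
    (e2 : bt x z = x) : dist (ai y) (ai z) ≤ 8 / 9 * dist y z := by
  have n1 := nL x y h1; have n2 := nL x z h2
  have p1 : t (L (y - x)) = 0 :=
    congrArg Prod.fst (small0 _ (add_eq_left.1 e1) (by linarith [nP (L (y - x))]))
  have p2 : t (L (z - x)) = 0 :=
    congrArg Prod.fst (small0 _ (add_eq_left.1 e2) (by linarith [nP (L (z - x))]))
  have e : y - z = pr (L (y - x) - L (z - x)) := by rw [map_sub, pr_L, pr_L]; abel
  have hn : ‖L (y - x) - L (z - x)‖ < 1 / 2 := by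
    linarith [norm_sub_le (L (y - x)) (L (z - x))]
  rw [dist_eq_norm, dist_eq_norm, ← map_sub, e, ← pr_Ai, n_pr' _ hn,
    Ai_t0 _ (by rw [map_sub, p1, p2, sub_zero])]
  refine (n_pr _).trans ?_
  rw [norm_smul, Real.norm_eq_abs]
  have := ph_gt; have := ph_lt
  exact mul_le_mul_of_nonneg_right (abs_le.2 ⟨by linarith, by linarith⟩) (norm_nonneg _)

end Pool.Agent.H22.Smale
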