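import Pool.Agent.H22.Smale1

/-! Surjectivity and rigidity lemmas for the Fibonacci automorphism. -/

namespace Pool.Agent.H22.Smale

open Set Filter Topology

lemma bdd0 (x : ℕ → ℝ) (μ C : ℝ) (hμ : 1 < |μ|) (h : ∀ n, x (n + 1) = μ * x n)
    (hC : ∀ n, |x n| ≤ C) : x 0 = 0 := by
  have e : ∀ n, |x n| = |μ| ^ n * |x 0| := by
    intro n; induction n with
    | zero => simp
    | succ n ih => rw [h, abs_mul, ih]; ring
  by_contra h0
  have hp : 0 < |x 0| := abs_pos.2 h0
  obtain ⟨n, hn⟩ := ((tendsto_pow_atTop_atTop_of_one_lt hμ).eventually_gt_atTop (C / |x 0|)).exists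
  have := hC n
  rw [e] at this
  rw [div_lt_iff₀ hp] at hn
  linarith

lemma one_sided (B : V →+ V) (b : T →+ T) (l : V →+ ℝ) (μ : ℝ) (hμ : 1 < |μ|)
    (hB : ∀ v, pr (B v) = b (pr v)) (nB : ∀ v, ‖B v‖ ≤ 2 * ‖v‖) (hl : ∀ v, l (B v) = μ * l v)
    (nl : ∀ v, |l v| ≤ 3 * ‖v‖) (w : T) (hw : ∀ n, ‖b^[n] w‖ ≤ 1 / 8) : l (L w) = 0 := by
  refine bdd0 (fun n => l (L (b^[n] w))) μ 1 hμ (fun n => ?_) (fun n => ?_)
  · rw [← hl, Function.iterate_succ_apply']
    congr 1
    exact Leq _ _ (by rw [hB, pr_L]) (by linarith [nB (L (b^[n] w)), n_L (b^[n] w), hw n])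
  · linarith [nl (L (b^[n] w)), n_L (b^[n] w), hw n]

lemma a_inj : Function.Injective a := Function.LeftInverse.injective ai_a
lemma a_a (y : T) : a (a y) = a y + y := by ext <;> simp [a]

lemma pow_form (n : ℕ) : ∃ p q : ℤ, 0 ≤ p ∧ 1 ≤ q ∧
    (p ^ 2 + p * q - q ^ 2 = 1 ∨ p ^ 2 + p * q - q ^ 2 = -1) ∧
    ∀ y, a^[n + 1] y = p • y + q • a y := by
  induction n with
  | zero => exact ⟨0, 1, le_rfl, le_rfl, by norm_num, fun y => by simp⟩
  | succ n ih =>
    obtain ⟨p, q, hp, hq, h, e⟩ := ih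
    refine ⟨q, p + q, by omega, by omega, ?_, fun y => ?_⟩
    · rcases h with h | h
      · right; linarith
      · left; linarith
    · rw [Function.iterate_succ_apply', e, map_add, map_zsmul, map_zsmul, a_a]; module

lemma fin_tors (D : ℤ) (hD : D ≠ 0) : {y : T | D • y = 0}.Finite := by
  have h : {x : UnitAddCircle | D • x = 0}.Finite :=
    AddCircle.finite_torsion_of_isSMulRegular_int 1 D
      (.of_right_eq_zero_of_smul fun _ => by simp [hD])
  exact (h.prod h).subset fun y hy => ⟨congrArg Prod.fst hy, congrArg Prod.snd hy⟩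

lemma fin_per (n : ℕ) : {y : T | a^[n + 1] y = y}.Finite := by
  obtain ⟨p, q, hp, hq, h, e⟩ := pow_form n
  refine (fin_tors ((p - 1) ^ 2 + (p - 1) * q - q ^ 2) ?_).subset fun y hy => ?_
  · intro h0
    rcases h with h | h
    · have h1 : 2 * p + q = 2 := by linarith
      have h2 : p = 0 := by omega
      have h3 : q = 2 := by omega
      subst h2 h3; norm_num at h
    · have h1 : 2 * p + q = 0 := by linarith
      omega
  · have h1 : p • y + q • a y = y := (e y).symm.trans hy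
    have h2 := congrArg a h1
    rw [map_add, map_zsmul, map_zsmul, a_a] at h2
    show ((p - 1) ^ 2 + (p - 1) * q - q ^ 2) • y = 0
    linear_combination (norm := module) (p - 1 + q) • h1 - q • h2

lemma dense_tors : Dense {y : T | ∃ D : ℤ, D ≠ 0 ∧ D • y = 0} := by
  have h1 : DenseRange (Prod.map (Rat.cast : ℚ → ℝ) (Rat.cast : ℚ → ℝ)) :=
    Rat.denseRange_cast.prodMap Rat.denseRange_cast
  have h2 : DenseRange pr := Function.Surjective.denseRange fun x => ⟨L x, pr_L x⟩
  refine (h2.comp h1 pr_cont).mono ?_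
  rintro _ ⟨⟨q, r⟩, rfl⟩
  refine ⟨q.den * r.den, by positivity, ?_⟩
  rw [Function.comp_apply, ← map_zsmul]
  refine Prod.ext ?_ ?_
  · refine (AddCircle.coe_eq_zero_iff _).2 ⟨q.num * r.den, ?_⟩
    have : (q.num : ℝ) = q.den * q := by exact_mod_cast (Rat.den_mul_eq_num q).symm
    simp [this]; ring
  · refine (AddCircle.coe_eq_zero_iff _).2 ⟨r.num * q.den, ?_⟩
    have : (r.num : ℝ) = r.den * r := by exact_mod_cast (Rat.den_mul_eq_num r).symm
    simp [this]; ring

lemma surj_comm (φ : T → T) (hc : Continuous φ) (hi : Function.Injective φ)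
    (h : ∀ y, φ (a y) = a (φ y)) : Function.Surjective φ := by
  have hs : Function.Semiconj φ a a := h
  rw [← range_eq_univ, ← (isCompact_range hc).isClosed.closure_eq]
  refine (dense_tors.mono ?_).closure_eq
  rintro y ⟨D, hD, hy⟩
  obtain ⟨i, j, hij, e⟩ := (fin_tors D hD).exists_lt_map_eq_of_forall_mem
    (f := fun n : ℕ => a^[n] y) (fun n => by
      show D • a^[n] y = 0
      rw [← iterate_map_zsmul, hy, iterate_map_zero])
  obtain ⟨k, rfl⟩ : ∃ k, j = i + (k + 1) := ⟨j - i - 1, by omega⟩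
  have e' : a^[k + 1] y = y := by
    simp only [Function.iterate_add_apply a i] at e
    exact ((a_inj.iterate i) e).symm
  have hm : MapsTo φ {y : T | a^[k + 1] y = y} {y : T | a^[k + 1] y = y} := fun z hz => by
    show a^[k + 1] (φ z) = φ z
    rw [← (hs.iterate_right (k + 1)) z, hz]
  obtain ⟨z, -, hz⟩ := (((fin_per k).injOn_iff_bijOn_of_mapsTo hm).1 hi.injOn).surjOn e'
  exact ⟨z, hz⟩

lemma iter_l (B : V →+ V) (l : V →+ ℝ) (μ : ℝ) (hl : ∀ v, l (B v) = μ * l v) (n : ℕ) (v : V)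
    (h : l v = 0) : l (B^[n] v) = 0 := by
  induction n with
  | zero => exact h
  | succ n ih => rw [Function.iterate_succ_apply', hl, ih, mul_zero]

lemma pr_iter (B : V →+ V) (b : T →+ T) (hB : ∀ v, pr (B v) = b (pr v)) (n : ℕ) (v : V) :
    pr (B^[n] v) = b^[n] (pr v) :=
  (Function.Semiconj.iterate_right (f := pr) hB n) v

instance : ConnectedSpace UnitAddCircle :=
  QuotientAddGroup.mk_surjective.connectedSpace (AddCircle.continuous_mk' 1)

lemma ker_const (c : T → V) (hc : Continuous c) (h : ∀ y, pr (c y) = 0) (y : T) : c y = c 0 := by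
  have : IsLocallyConstant c := by
    rw [IsLocallyConstant.iff_eventually_eq]
    intro x
    filter_upwards [hc.continuousAt.eventually (Metric.ball_mem_nhds (c x) one_pos)] with z hz
    rw [dist_eq_norm] at hz
    exact sub_eq_zero.1 (small0 _ (by rw [map_sub, h, h, sub_self]) hz)
  exact this.apply_eq_of_preconnectedSpace y 0

lemma rigid (φ τ0 τ1 : T → T) (hφ : Continuous φ) (h0 : Continuous τ0) (h1 : Continuous τ1)
    (c0 : ∀ y, τ0 (a y) = a (τ0 y)) (c1 : ∀ y, τ1 (a y) = a (τ1 y)) (N : ℕ)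
    (b1 : ∀ y n, ‖a^[n] (a^[N] (φ y - τ1 y))‖ ≤ 1 / 8)
    (b0 : ∀ y n, ‖ai^[n] (ai^[N] (φ y - τ0 y))‖ ≤ 1 / 8) : ∃ c, ∀ y, φ y = τ1 y + c := by
  have hp := ph_gt
  set S : T → V := fun y => Ai^[N] (L (a^[N] (φ y - τ1 y))) with hS
  set U : T → V := fun y => A^[N] (L (ai^[N] (φ y - τ0 y))) with hU
  have Sc : Continuous S := (Ai_cont.iterate N).comp
    (L_cont.comp_continuous ((a_cont.iterate N).comp (hφ.sub h1)) fun y => b1 y 0)
  have Uc : Continuous U := (A_cont.iterate N).comp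
    (L_cont.comp_continuous ((ai_cont.iterate N).comp (hφ.sub h0)) fun y => b0 y 0)
  have pS : ∀ y, pr (S y) = φ y - τ1 y := fun y => by
    rw [hS, pr_iter Ai ai pr_Ai, pr_L]
    exact (Function.LeftInverse.iterate ai_a N) _
  have pU : ∀ y, pr (U y) = φ y - τ0 y := fun y => by
    rw [hU, pr_iter A a pr_A, pr_L]
    exact (Function.LeftInverse.iterate a_ai N) _
  have uS : ∀ y, u (S y) = 0 := fun y => iter_l Ai u _ u_Ai N _
    (one_sided A a u ph (by rw [abs_of_pos] <;> linarith) pr_A nA u_A nu _ (b1 y))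
  have tU : ∀ y, t (U y) = 0 := fun y => iter_l A t _ t_A N _
    (one_sided Ai ai t (-ph) (by rw [abs_neg, abs_of_pos] <;> linarith) pr_Ai nAi t_Ai
      (fun v => (nt v).trans (by linarith [norm_nonneg v])) _ (b0 y))
  have hk := ker_const (fun y => (S (a y) - U (a y)) - A (S y - U y))
    (((Sc.comp a_cont).sub (Uc.comp a_cont)).sub (A_cont.comp (Sc.sub Uc))) (fun y => by
      simp only [map_sub, pr_A, pS, pU, c0, c1]; abel)
  have hk' : ∀ y, t (S (a y)) - t (S 0) = (1 - ph) * (t (S y) - t (S 0)) := fun y => by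
    have := congrArg t (hk y)
    simp only [map_sub, t_A, tU, map_zero] at this
    linarith
  obtain ⟨C, hC⟩ := (isCompact_range Sc).isBounded.exists_norm_le
  have tS : ∀ y, t (S y) - t (S 0) = 0 := fun y => by
    refine bdd0 (fun n => t (S (ai^[n] y)) - t (S 0)) (-ph) (2 * C)
      (by rw [abs_neg, abs_of_pos] <;> linarith) (fun n => ?_) (fun n => ?_)
    · have := hk' (ai^[n + 1] y)
      rw [Function.iterate_succ_apply', a_ai] at this
      rw [Function.iterate_succ_apply', this]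
      linear_combination (-(t (S (ai (ai^[n] y))) - t (S 0))) * ph2
    · have h1 := abs_le.1 ((nt (S (ai^[n] y))).trans (hC _ ⟨_, rfl⟩))
      have h2 := abs_le.1 ((nt (S 0)).trans (hC _ ⟨_, rfl⟩))
      rw [abs_le]; constructor <;> linarith
  refine ⟨pr (S 0), fun y => ?_⟩
  have : S y = S 0 := sub_eq_zero.1 (tu0 _ (by rw [map_sub]; exact tS y)
    (by rw [map_sub, uS, uS, sub_zero]))
  rw [← this, pS]; abel

end Pool.Agent.H22.Smale
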