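import Pool.Agent.H22.Smale2

/-! A wandering orbit with two fixed end points, times the Fibonacci automorphism. -/

namespace Pool.Agent.H22.Smale

open Set Filter Topology

inductive Z
  | orb (n : ℤ)
  | fix (b : Bool)
  deriving DecidableEq

noncomputable def e : Z → ℝ
  | .orb n => 2 ^ n / (1 + 2 ^ n)
  | .fix false => 0
  | .fix true => 1

def s : Z → Z
  | .orb n => .orb (n + 1)
  | .fix b => .fix b

def si : Z → Z
  | .orb n => .orb (n - 1)
  | .fix b => .fix b

lemma s_si (z : Z) : s (si z) = z := by cases z <;> simp [s, si]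
lemma si_s (z : Z) : si (s z) = z := by cases z <;> simp [s, si]

lemma e_orb (n : ℤ) : 0 < e (.orb n) ∧ e (.orb n) < 1 := by
  have : (0 : ℝ) < 2 ^ n := by positivity
  exact ⟨by simp only [e]; positivity, by simp only [e]; rw [div_lt_one] <;> linarith⟩

lemma e_inj : Function.Injective e := by
  rintro (n | _ | _) (m | _ | _) h
  · have h1 : (0 : ℝ) < 2 ^ n := by positivity
    have h2 : (0 : ℝ) < 2 ^ m := by positivity
    simp only [e] at h
    rw [div_eq_div_iff (by positivity) (by positivity)] at h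
    have : (2 : ℝ) ^ n = 2 ^ m := by linarith
    rw [zpow_right_injective₀ (by norm_num) (by norm_num) this]
  all_goals first
    | rfl
    | (have := e_orb n; rw [h] at this; simp [e] at this)
    | (have := e_orb m; rw [← h] at this; simp [e] at this)
    | simp [e] at h

noncomputable instance : MetricSpace Z := MetricSpace.induced e e_inj inferInstance

lemma dZ (x y : Z) : dist x y = |e x - e y| := rfl
lemma e_iso : Isometry e := fun _ _ => rfl

lemma e01 (z : Z) : 0 ≤ e z ∧ e z ≤ 1 := by
  rcases z with n | _ | _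
  · exact ⟨(e_orb n).1.le, (e_orb n).2.le⟩
  all_goals simp [e]

lemma e_s (z : Z) : e (s z) = 2 * e z / (1 + e z) := by
  rcases z with n | _ | _
  · have h1 : (0 : ℝ) < 2 ^ n := by positivity
    simp only [e, s, zpow_add_one₀ (two_ne_zero (α := ℝ))]
    field_simp; ring
  all_goals norm_num [e, s]

lemma e_si (z : Z) : e (si z) = e z / (2 - e z) := by
  have h := e_s (si z)
  have h1 := e01 (si z)
  rw [s_si] at h
  rw [h, eq_div_iff]
  · have : 1 + e (si z) ≠ 0 := by linarith
    field_simp; ring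
  · have : 2 * e (si z) / (1 + e (si z)) < 2 := by rw [div_lt_iff₀] <;> linarith
    linarith

lemma gap (z : Z) : e z ≤ 1 / 3 ∨ z = .orb 0 ∨ 2 / 3 ≤ e z := by
  rcases z with n | _ | _
  · have h1 : (0 : ℝ) < 2 ^ n := by positivity
    rcases lt_trichotomy n 0 with h | rfl | h
    · left
      have : (2 : ℝ) ^ n ≤ 2 ^ (-1 : ℤ) := zpow_le_zpow_right₀ (by norm_num) (by omega)
      simp only [e]; rw [div_le_iff₀ (by positivity)]; norm_num at this; linarith
    · right; left; rfl
    · right; right
      have : (2 : ℝ) ^ (1 : ℤ) ≤ 2 ^ n := zpow_le_zpow_right₀ (by norm_num) (by omega)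
      simp only [e]; rw [le_div_iff₀ (by positivity)]; norm_num at this; linarith
  · left; norm_num [e]
  · right; right; norm_num [e]

lemma e0 : e (.orb 0) = 1 / 2 := by norm_num [e]

lemma gap' (z : Z) : e z ≤ 1 / 3 ∨ 1 / 2 ≤ e z := by
  rcases gap z with h | rfl | h
  · exact Or.inl h
  · exact Or.inr e0.ge
  · right; linarith

lemma s_cont : Continuous s := by
  rw [e_iso.isEmbedding.continuous_iff]
  have : e ∘ s = fun z => 2 * e z / (1 + e z) := funext e_s
  rw [this]
  have := e_iso.continuous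
  exact Continuous.div (by fun_prop) (by fun_prop) fun z => by linarith [e01 z]

lemma si_cont : Continuous si := by
  rw [e_iso.isEmbedding.continuous_iff]
  have : e ∘ si = fun z => e z / (2 - e z) := funext e_si
  rw [this]
  have := e_iso.continuous
  exact Continuous.div (by fun_prop) (by fun_prop) fun z => by linarith [e01 z]

lemma lim0 : Tendsto (fun n : ℕ => Z.orb (-n)) atTop (𝓝 (.fix false)) := by
  rw [e_iso.isEmbedding.tendsto_nhds_iff]
  have h : Tendsto (fun n : ℕ => ((2 : ℝ)⁻¹) ^ n) atTop (𝓝 0) :=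
    tendsto_pow_atTop_nhds_zero_of_lt_one (by norm_num) (by norm_num)
  have := h.div (h.const_add 1) (by norm_num)
  simp only [zero_div] at this
  refine this.congr fun n => ?_
  simp [e]

lemma lim1 : Tendsto (fun n : ℕ => Z.orb n) atTop (𝓝 (.fix true)) := by
  rw [e_iso.isEmbedding.tendsto_nhds_iff]
  have h : Tendsto (fun n : ℕ => ((2 : ℝ)⁻¹) ^ n) atTop (𝓝 0) :=
    tendsto_pow_atTop_nhds_zero_of_lt_one (by norm_num) (by norm_num)
  have := (h.const_add 1).inv₀ (by norm_num)
  simp only [add_zero, inv_one] at this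
  refine this.congr fun n => ?_
  simp only [e, Function.comp, zpow_natCast, inv_pow]
  field_simp; ring

instance : CompactSpace Z := by
  refine ⟨(lim0.isCompact_insert_range.union lim1.isCompact_insert_range).of_isClosed_subset
    isClosed_univ ?_⟩
  rintro (n | _ | _) -
  · obtain ⟨k, rfl | rfl⟩ := n.eq_nat_or_neg
    · exact Or.inr (Or.inr ⟨k, rfl⟩)
    · exact Or.inl (Or.inr ⟨k, rfl⟩)
  · exact Or.inl (Or.inl rfl)
  · exact Or.inr (Or.inl rfl)

instance : Countable Z := by
  have : Function.Surjective (Sum.elim Z.orb Z.fix) := by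
    rintro (n | b)
    exacts [⟨.inl n, rfl⟩, ⟨.inr b, rfl⟩]
  exact this.countable

instance : TotallyDisconnectedSpace Z := ⟨countable_univ.isTotallyDisconnected⟩

open Classical in
noncomputable def bz (x y : Z) : Z := if e x ≤ 1 / 3 then x else y

lemma side (x y : Z) (h : dist x y ≤ 1 / 16) : e x ≤ 1 / 3 ↔ e y ≤ 1 / 3 := by
  rw [dZ, abs_le] at h
  rcases gap' x with h1 | h1 <;> rcases gap' y with h2 | h2 <;> constructor <;> intro <;> linarith

lemma bz_cont : Continuous (fun p : Z × Z => bz p.1 p.2) := by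
  have hc := e_iso.continuous
  have h : IsClopen {p : Z × Z | e p.1 ≤ 1 / 3} := by
    refine ⟨isClosed_le (by fun_prop) (by fun_prop), ?_⟩
    have : {p : Z × Z | e p.1 ≤ 1 / 3} = {p : Z × Z | e p.1 < 1 / 2} := by
      ext p; constructor <;> intro h
      · show e p.1 < 1 / 2
        have : e p.1 ≤ 1 / 3 := h
        linarith
      · exact (gap' p.1).resolve_right (not_le.2 h)
    rw [this]; exact isOpen_lt (by fun_prop) (by fun_prop)
  refine Continuous.if ?_ continuous_fst continuous_snd
  intro p hp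
  rw [h.frontier_eq] at hp
  exact hp.elim

lemma bz_self (x : Z) : bz x x = x := by simp [bz]

lemma bz_r (x y z : Z) (h1 : dist y z ≤ 1 / 16) (h3 : dist x z ≤ 1 / 16) :
    bz x (bz y z) = bz x z := by
  have := side y z h1; have := side x z h3
  unfold bz; split_ifs <;> tauto

lemma bz_l (x y z : Z) (h1 : dist x y ≤ 1 / 16) : bz (bz x y) z = bz x z := by
  have := side x y h1
  by_cases h : e x ≤ 1 / 3
  · simp only [bz, if_pos h]
  · simp only [bz, if_neg h, if_neg (mt this.2 h)]

lemma s_up (z : Z) (h : ¬ e z ≤ 1 / 3) : ¬ e (s z) ≤ 1 / 3 := by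
  have := e01 z
  rw [e_s, div_le_iff₀ (by linarith)]; linarith

lemma s_mid (z : Z) (h : e z ≤ 1 / 3) (h' : ¬ e (s z) ≤ 1 / 3) : s z = .orb 0 := by
  have := e01 z
  have h2 : e (s z) ≤ 1 / 2 := by rw [e_s, div_le_iff₀ (by linarith)]; linarith
  rcases gap (s z) with h | h | h
  · exact absurd h h'
  · exact h
  · linarith

lemma bz_s (x y : Z) (h1 : dist x y ≤ 1 / 16) (h2 : dist (s x) (s y) ≤ 1 / 16) :
    s (bz x y) = bz (s x) (s y) := by
  have a1 := side x y h1; have a2 := side _ _ h2
  by_cases h : e x ≤ 1 / 3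
  · by_cases h' : e (s x) ≤ 1 / 3
    · simp only [bz, if_pos h, if_pos h']
    · simp only [bz, if_pos h, if_neg h']
      rw [s_mid x h h', s_mid y (a1.1 h) (mt a2.2 h')]
  · simp only [bz, if_neg h, if_neg (s_up x h)]

lemma bz_st (x y z : Z) (h1 : dist x y ≤ 1 / 16) (e1 : bz y x = x) (h2 : dist x z ≤ 1 / 16)
    (e2 : bz z x = x) : dist (s y) (s z) ≤ 8 / 9 * dist y z := by
  have a1 := side x y h1; have a2 := side x z h2
  by_cases h : e x ≤ 1 / 3
  · simp only [bz, if_pos (a1.1 h), if_pos (a2.1 h)] at e1 e2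
    rw [e1, e2]; simp
  · have hy := (gap' y).resolve_left (mt a1.2 h)
    have hz := (gap' z).resolve_left (mt a2.2 h)
    have : e (s y) - e (s z) = 2 / ((1 + e y) * (1 + e z)) * (e y - e z) := by
      have : 1 + e y ≠ 0 := by linarith
      have : 1 + e z ≠ 0 := by linarith
      rw [e_s, e_s]; field_simp; ring
    rw [dZ, dZ, this, abs_mul, abs_of_pos (by positivity)]
    refine mul_le_mul_of_nonneg_right ?_ (abs_nonneg _)
    rw [div_le_iff₀ (by positivity)]; nlinarith

lemma bz_un (x y z : Z) (h1 : dist x y ≤ 1 / 16) (e1 : bz x y = x) (h2 : dist x z ≤ 1 / 16)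
    (e2 : bz x z = x) : dist (si y) (si z) ≤ 8 / 9 * dist y z := by
  have a1 := side x y h1; have a2 := side x z h2
  by_cases h : e x ≤ 1 / 3
  · have hy := a1.1 h
    have hz := a2.1 h
    have p1 : 0 < 2 - e y := by linarith
    have p2 : 0 < 2 - e z := by linarith
    have : e (si y) - e (si z) = 2 / ((2 - e y) * (2 - e z)) * (e y - e z) := by
      rw [e_si, e_si]; field_simp; ring
    rw [dZ, dZ, this, abs_mul, abs_of_pos (by positivity)]
    refine mul_le_mul_of_nonneg_right ?_ (abs_nonneg _)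
    rw [div_le_iff₀ (by positivity)]; nlinarith
  · simp only [bz, if_neg h] at e1 e2
    rw [e1, e2]; simp

noncomputable def f : Z × T ≃ₜ Z × T where
  toFun p := (s p.1, a p.2)
  invFun p := (si p.1, ai p.2)
  left_inv p := by simp [si_s, ai_a]
  right_inv p := by simp [s_si, a_ai]
  continuous_toFun := (s_cont.comp continuous_fst).prodMk (a_cont.comp continuous_snd)
  continuous_invFun := (si_cont.comp continuous_fst).prodMk (ai_cont.comp continuous_snd)

lemma f_iter (n : ℕ) (k : ℤ) (y : T) : f^[n] (.orb k, y) = (.orb (k + n), a^[n] y) := by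
  induction n with
  | zero => simp
  | succ n ih =>
    rw [Function.iterate_succ_apply', ih, Function.iterate_succ_apply']
    show (Z.orb (k + n + 1), _) = _
    push_cast; rw [add_assoc]

lemma fi_iter (n : ℕ) (k : ℤ) (y : T) : f.symm^[n] (.orb k, y) = (.orb (k - n), ai^[n] y) := by
  induction n with
  | zero => simp
  | succ n ih =>
    rw [Function.iterate_succ_apply', ih, Function.iterate_succ_apply']
    show (Z.orb (k - n - 1), _) = _
    push_cast; rw [sub_sub]

lemma f_iter2 (n : ℕ) (p : Z × T) : (f^[n] p).2 = a^[n] p.2 :=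
  Function.Semiconj.iterate_right (f := Prod.snd) (fun _ => rfl) n p
lemma fi_iter2 (n : ℕ) (p : Z × T) : (f.symm^[n] p).2 = ai^[n] p.2 :=
  Function.Semiconj.iterate_right (f := Prod.snd) (fun _ => rfl) n p

theorem surjunctive (τ : Z × T → Z × T) (hc : Continuous τ) (hf : ∀ x, τ (f x) = f (τ x))
    (hi : Function.Injective τ) : Function.Surjective τ := by
  have hs : Function.Semiconj τ f f := hf
  have hsi : Function.Semiconj τ f.symm f.symm := fun x => by
    apply f.injective; rw [← hf]; simp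
  have hβ : ∀ z y, (τ (z, y)).1 = (τ (z, 0)).1 := fun z y =>
    TotallyDisconnectedSpace.eq_of_continuous (fun y => (τ (z, y)).1) (by fun_prop) y 0
  have hfix : ∀ b, ∃ b', (τ (.fix b, 0)).1 = .fix b' := fun b => by
    have h := congrArg Prod.fst (hf (.fix b, 0))
    have e : f (.fix b, 0) = (.fix b, 0) := Prod.ext rfl (map_zero a)
    rw [e] at h
    rcases h' : (τ (.fix b, 0)).1 with n | b'
    · change _ = s _ at h
      rw [h'] at h; simp [s] at h
    · exact ⟨b', rfl⟩
  choose γ hγ using hfix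
  have hcm : ∀ b y, (τ (.fix b, a y)).2 = a (τ (.fix b, y)).2 := fun b y =>
    congrArg Prod.snd (hf (.fix b, y))
  have hsur : ∀ b, Function.Surjective fun y => (τ (.fix b, y)).2 := fun b =>
    surj_comm _ (by fun_prop) (fun y y' h => congrArg Prod.snd
      (hi (Prod.ext ((hβ _ y).trans (hβ _ y').symm) h : τ (.fix b, y) = τ (.fix b, y')))) (hcm b)
  have hsur' : ∀ b w, ∃ y, τ (.fix b, y) = (.fix (γ b), w) := fun b w => by
    obtain ⟨y, hy⟩ := hsur b w
    exact ⟨y, Prod.ext ((hβ _ y).trans (hγ b)) hy⟩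
  have hγi : Function.Injective γ := fun b b' h => by
    obtain ⟨y, hy⟩ := hsur' b 0
    obtain ⟨y', hy'⟩ := hsur' b' 0
    have := congrArg Prod.fst (hi (hy.trans (h ▸ hy'.symm)))
    simpa using this
  have hγs := Finite.injective_iff_surjective.1 hγi
  have hF : ∀ b w, ∃ b' y, τ (.fix b', y) = (.fix b, w) := fun b w => by
    obtain ⟨b', rfl⟩ := hγs b
    exact ⟨b', hsur' b' w⟩
  obtain ⟨k, hk⟩ : ∃ k, (τ (.orb 0, 0)).1 = .orb k := by
    rcases h' : (τ (.orb 0, 0)).1 with n | b
    · exact ⟨n, rfl⟩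
    · obtain ⟨b', y, hy⟩ := hF b (τ (.orb 0, 0)).2
      have := congrArg Prod.fst (hi (hy.trans (Prod.ext h'.symm rfl)))
      simp at this
  obtain ⟨δ, hδ, hu⟩ := Metric.uniformContinuous_iff.1 (CompactSpace.uniformContinuous_of_continuous
    (continuous_snd.comp hc)) (1 / 8) (by norm_num)
  obtain ⟨N1, hN1⟩ := Metric.tendsto_atTop.1 lim1 δ hδ
  obtain ⟨N0, hN0⟩ := Metric.tendsto_atTop.1 lim0 δ hδ
  obtain ⟨c, hcc⟩ := rigid (fun y => (τ (.orb 0, y)).2) (fun y => (τ (.fix false, y)).2)
    (fun y => (τ (.fix true, y)).2) (by fun_prop) (by fun_prop) (by fun_prop) (hcm _) (hcm _)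
    (N1 + N0) (fun y n => by
      rw [← Function.iterate_add_apply, iterate_map_sub, ← f_iter2, ← f_iter2,
        ← hs.iterate_right, ← hs.iterate_right, ← dist_eq_norm, f_iter]
      refine (hu (a := (_, _)) ?_).le
      rw [Prod.dist_eq, f_iter2, dist_self, max_lt_iff,
        show (f^[n + (N1 + N0)] (.fix true, y)).1 = .fix true from
          (Function.Semiconj.iterate_right (f := Prod.fst) (ga := f) (gb := s)
            (fun _ => rfl) _ _).trans (Function.iterate_fixed rfl _), zero_add]
      exact ⟨hN1 _ (by omega), hδ⟩) (fun y n => by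
      rw [← Function.iterate_add_apply, iterate_map_sub, ← fi_iter2, ← fi_iter2,
        ← hsi.iterate_right, ← hsi.iterate_right, ← dist_eq_norm, fi_iter]
      refine (hu (a := (_, _)) ?_).le
      rw [Prod.dist_eq, fi_iter2, dist_self, max_lt_iff,
        show (f.symm^[n + (N1 + N0)] (.fix false, y)).1 = .fix false from
          (Function.Semiconj.iterate_right (f := Prod.fst) (ga := f.symm) (gb := si)
            (fun _ => rfl) _ _).trans (Function.iterate_fixed rfl _), zero_sub]
      exact ⟨hN0 _ (by omega), hδ⟩)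
  have hO : ∀ w, (Z.orb k, w) ∈ range τ := fun w => by
    obtain ⟨y, hy⟩ := hsur true (w - c)
    refine ⟨(.orb 0, y), Prod.ext ((hβ _ y).trans hk) ?_⟩
    have := hcc y
    simp only at hy this ⊢
    rw [this, hy, sub_add_cancel]
  rintro ⟨n | b, w⟩
  · obtain ⟨m, h | h⟩ := (n - k).eq_nat_or_neg
    · obtain ⟨x, hx⟩ := hO (ai^[m] w)
      refine ⟨f^[m] x, ?_⟩
      rw [hs.iterate_right, hx, f_iter, Function.LeftInverse.iterate a_ai m, ← h, add_sub_cancel]
    · obtain ⟨x, hx⟩ := hO (a^[m] w)
      refine ⟨f.symm^[m] x, ?_⟩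
      rw [hsi.iterate_right, hx, fi_iter, Function.LeftInverse.iterate ai_a m,
        show k - m = n by omega]
  · obtain ⟨b', y, hy⟩ := hF b w
    exact ⟨_, hy⟩

lemma open0 : IsOpen {p : Z × T | p.1 = .orb 0} := by
  have hc := e_iso.continuous
  have : {p : Z × T | p.1 = .orb 0} = {p | 1 / 3 < e p.1} ∩ {p | e p.1 < 2 / 3} := by
    ext p; constructor
    · intro h
      have h' : p.1 = .orb 0 := h
      constructor
      · show 1 / 3 < e p.1
        rw [h', e0]; norm_num
      · show e p.1 < 2 / 3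
        rw [h', e0]; norm_num
    · rintro ⟨h1, h2⟩
      exact ((gap p.1).resolve_left (not_le.2 h1)).resolve_right (not_le.2 h2)
  rw [this]
  exact (isOpen_lt (by fun_prop) (by fun_prop)).inter (isOpen_lt (by fun_prop) (by fun_prop))

lemma unc : ¬ Countable T := by
  intro h
  have : Function.Injective fun r : Ioo (0 : ℝ) (1 / 4) => pr (r, 0) := by
    intro r r' h
    have h1 := r.2; have h2 := r'.2
    have := small0 ((((r : ℝ), (0 : ℝ)) : V) - ((r' : ℝ), (0 : ℝ))) (by rw [map_sub]; exact sub_eq_zero.2 h)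
      (lt_of_le_of_lt (nle _ (1 / 2) (by
        simp only [Prod.fst_sub, abs_le]; constructor <;> linarith [h1.1, h1.2, h2.1, h2.2])
        (by simp)) (by norm_num))
    exact Subtype.ext (sub_eq_zero.1 (congrArg Prod.fst this))
  have h3 := this.countable
  have h4 := Cardinal.mk_Ioo_real (by norm_num : (0 : ℝ) < 1 / 4)
  have h5 := Cardinal.mk_le_aleph0_iff.2 h3
  rw [h4] at h5
  exact absurd h5 (not_le.2 Cardinal.aleph0_lt_continuum)

end Pool.Agent.H22.Smale
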