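import Mathlib

/-! Random permutations are asymptotically free; a counting bound; a diagonal lemma. -/

namespace Pool.Agent.H22.Sof

open Finset Filter Topology Equiv

section free

variable {ι M : Type} [DecidableEq ι] [DecidableEq M]

def pm (π : ι → Perm M) (x : ι × Bool) : Perm M := cond x.2 (π x.1) (π x.1)⁻¹

def pos (π : ι → Perm M) (k : M) : List (ι × Bool) → M
  | [] => k
  | x :: L => pm π x (pos π k L)

def vis (π : ι → Perm M) (k : M) : List (ι × Bool) → Finset M
  | [] => {k}
  | x :: L => insert (pos π k (x :: L)) (vis π k L)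

def Sim (π : ι → Perm M) (k : M) : List (ι × Bool) → Prop
  | [] => True
  | x :: L => Sim π k L ∧ pos π k (x :: L) ∉ vis π k L

def md (π : ι → Perm M) (x : ι × Bool) (s : Perm M) : ι → Perm M :=
  Function.update π x.1 (cond x.2 (s * π x.1) (π x.1 * s⁻¹))

omit [DecidableEq M] in
lemma md_same (π : ι → Perm M) (x : ι × Bool) (s : Perm M) : pm (md π x s) x = s * pm π x := by
  rcases x with ⟨i, _ | _⟩ <;> simp [pm, md]

omit [DecidableEq M] in
lemma md_inv (π : ι → Perm M) (x : ι × Bool) (s : Perm M) :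
    pm (md π x s) (x.1, !x.2) = (pm π x)⁻¹ * s⁻¹ := by
  rcases x with ⟨i, _ | _⟩ <;> simp [pm, md]

omit [DecidableEq ι] [DecidableEq M] in
lemma pm_inv (π : ι → Perm M) (x : ι × Bool) : pm π (x.1, !x.2) = (pm π x)⁻¹ := by
  rcases x with ⟨i, _ | _⟩ <;> simp [pm]

omit [DecidableEq M] in
lemma md_ne (π : ι → Perm M) (x y : ι × Bool) (s : Perm M) (h : y.1 ≠ x.1) :
    pm (md π x s) y = pm π y := by
  simp [pm, md, Function.update_of_ne h]

lemma md_md (π : ι → Perm M) (x : ι × Bool) (a b : M) :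
    md (md π x (swap a b)) x (swap a b) = π := by
  rcases x with ⟨i, _ | _⟩
  · simp [md, mul_assoc]
  · simp [md, ← mul_assoc]

omit [DecidableEq ι] in
lemma pos_mem (π : ι → Perm M) (k : M) (L : List (ι × Bool)) : pos π k L ∈ vis π k L := by
  cases L <;> simp [vis, pos]

omit [DecidableEq ι] in
lemma k_mem (π : ι → Perm M) (k : M) (L : List (ι × Bool)) : k ∈ vis π k L := by
  induction L <;> simp [vis, *]

omit [DecidableEq ι] in
lemma vis_card (π : ι → Perm M) (k : M) (L : List (ι × Bool)) : #(vis π k L) ≤ L.length + 1 := by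
  induction L with
  | nil => simp [vis]
  | cons x L ih => exact (card_insert_le _ _).trans (by simp; omega)

lemma step (π : ι → Perm M) (x y : ι × Bool) (p j z : M) (h1 : z ≠ p) (h2 : z ≠ j)
    (h3 : pm π y z ≠ j) (h4 : y = (x.1, !x.2) → pm π y z ≠ p) :
    pm (md π x (swap (pm π x p) j)) y z = pm π y z := by
  by_cases h : y.1 = x.1
  · by_cases h' : y.2 = x.2
    · have e : y = x := Prod.ext h h'
      subst e
      rw [md_same, Perm.mul_apply, swap_apply_of_ne_of_ne (fun e => h1 ((pm π y).injective e)) h3]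
    · have e : y = (x.1, !x.2) := Prod.ext h (Bool.eq_not.2 h')
      have h5 := h4 e
      subst e
      rw [md_inv, pm_inv, Perm.mul_apply, swap_inv, swap_apply_of_ne_of_ne ?_ h2]
      rintro rfl
      rw [pm_inv] at h5
      simp at h5
  · rw [md_ne _ _ _ _ h]

lemma agree (π : ι → Perm M) (k : M) (x : ι × Bool) (p j : M) (L : List (ι × Bool))
    (hp : p ∉ vis π k L) (hj : j ∉ vis π k L) :
    pos (md π x (swap (pm π x p) j)) k L = pos π k L ∧
      vis (md π x (swap (pm π x p) j)) k L = vis π k L := by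
  induction L with
  | nil => exact ⟨rfl, rfl⟩
  | cons y L ih =>
    simp only [vis, mem_insert, not_or] at hp hj
    obtain ⟨e1, e2⟩ := ih hp.2 hj.2
    have : pos (md π x (swap (pm π x p) j)) k (y :: L) = pos π k (y :: L) := by
      simp only [pos, e1]
      exact step π x y p j _ (fun e => hp.2 (e ▸ pos_mem π k L)) (fun e => hj.2 (e ▸ pos_mem π k L))
        (Ne.symm hj.1) (fun _ => Ne.symm hp.1)
    exact ⟨this, by simp only [vis, this, e2]⟩

lemma agree' (π : ι → Perm M) (k : M) (x : ι × Bool) (j : M) (L : List (ι × Bool))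
    (hr : FreeGroup.IsReduced (x :: L)) (hs : Sim π k L) (hj : j ∉ vis π k L) :
    pos (md π x (swap (pm π x (pos π k L)) j)) k L = pos π k L ∧
      vis (md π x (swap (pm π x (pos π k L)) j)) k L = vis π k L := by
  cases L with
  | nil => exact ⟨rfl, rfl⟩
  | cons y L =>
    simp only [vis, mem_insert, not_or] at hj
    obtain ⟨e1, e2⟩ := agree π k x (pos π k (y :: L)) j L hs.2 hj.2
    have : pos (md π x (swap (pm π x (pos π k (y :: L))) j)) k (y :: L) = pos π k (y :: L) := by
      rw [pos, e1]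
      refine step π x y _ j _ (fun e => hs.2 (e ▸ pos_mem π k L))
        (fun e => hj.2 (e ▸ pos_mem π k L)) (Ne.symm hj.1) (fun e => ?_)
      have := (FreeGroup.isReduced_cons_cons.1 hr).1 (by rw [e])
      rw [e] at this
      simp at this
    exact ⟨this, by rw [vis, this, e2, vis]⟩

variable [Fintype ι] [Fintype M]

open Classical in
lemma one_step (k : M) (x : ι × Bool) (L : List (ι × Bool)) (hr : FreeGroup.IsReduced (x :: L)) :
    #{π : ι → Perm M | Sim π k L ∧ pos π k (x :: L) ∈ vis π k L} *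
      (Fintype.card M - (L.length + 1)) ≤ Fintype.card (ι → Perm M) * (L.length + 1) := by
  rw [← card_univ (α := ι → Perm M)]
  refine card_mul_le_card_mul (fun π π' => ∃ j ∉ vis π k L,
    π' = md π x (swap (pm π x (pos π k L)) j)) (fun π hπ => ?_) (fun π' _ => ?_)
  · have h1 : Fintype.card M - (L.length + 1) ≤ #(vis π k L)ᶜ := by
      rw [card_compl]; have := vis_card π k L; omega
    refine h1.trans (card_le_card_of_injOn (fun j => md π x (swap (pm π x (pos π k L)) j))
      (fun j hj => ?_) (fun j _ j' _ e => ?_))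
    · simp only [coe_bipartiteAbove, Set.mem_ofPred_eq]
      exact ⟨mem_univ _, j, by simpa using hj, rfl⟩
    · have := congrArg (fun π' => pm π' x (pos π k L)) e
      simpa [md_same] using this
  · refine le_trans (card_le_card_of_surjOn (s := vis π' k L)
      (fun y => md π' x (swap y (pm π' x (pos π' k L)))) ?_) (vis_card π' k L)
    intro π hπ
    simp only [coe_bipartiteBelow, mem_filter, mem_univ, true_and, Set.mem_ofPred_eq] at hπ
    obtain ⟨⟨h1, h2⟩, j, hj, rfl⟩ := hπ
    obtain ⟨e1, e2⟩ := agree' π k x j L hr h1 hj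
    refine ⟨pm π x (pos π k L), by rw [e2]; exact h2, ?_⟩
    simp only [e1, md_same, Perm.mul_apply, swap_apply_left, md_md]

open Classical in
lemma not_sim (k : M) (L : List (ι × Bool)) (hr : FreeGroup.IsReduced L) (l : ℕ)
    (hl : L.length ≤ l) :
    #{π : ι → Perm M | ¬ Sim π k L} * (Fintype.card M - l) ≤
      Fintype.card (ι → Perm M) * (L.length * l) := by
  induction L with
  | nil => simp [Sim]
  | cons x L ih =>
    simp only [List.length_cons] at hl ⊢
    have h1 := ih (List.IsChain.tail hr) (by omega)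
    have h2 := one_step (M := M) k x L hr
    have h3 : #{π : ι → Perm M | ¬ Sim π k (x :: L)} ≤ #{π : ι → Perm M | ¬ Sim π k L} +
        #{π : ι → Perm M | Sim π k L ∧ pos π k (x :: L) ∈ vis π k L} := by
      refine le_trans (card_le_card fun π hπ => ?_) (card_union_le _ _)
      simp only [mem_filter, mem_univ, true_and, mem_union, Sim] at hπ ⊢
      tauto
    have h4 : #{π : ι → Perm M | Sim π k L ∧ pos π k (x :: L) ∈ vis π k L} *
        (Fintype.card M - l) ≤ Fintype.card (ι → Perm M) * l :=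
      le_trans (Nat.mul_le_mul_left _ (by omega)) (h2.trans (Nat.mul_le_mul_left _ hl))
    calc _ ≤ (_ + _) * (Fintype.card M - l) := Nat.mul_le_mul_right _ h3
      _ ≤ Fintype.card (ι → Perm M) * (L.length * l) + Fintype.card (ι → Perm M) * l := by
        rw [add_mul]; exact Nat.add_le_add h1 h4
      _ = _ := by ring

omit [DecidableEq ι] [DecidableEq M] [Fintype ι] [Fintype M] in
lemma lift_pos (π : ι → Perm M) (k : M) (L : List (ι × Bool)) :
    FreeGroup.lift π (FreeGroup.mk L) k = pos π k L := by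
  rw [FreeGroup.lift_mk]
  induction L with
  | nil => rfl
  | cons x L ih => rw [List.map_cons, List.prod_cons, Perm.mul_apply, ih]; rfl

lemma fix_le (g : FreeGroup ι) (hg : g ≠ 1) : ∃ l : ℕ, ∀ (M : Type) [Fintype M] [DecidableEq M]
    (k : M), #{π : ι → Perm M | FreeGroup.lift π g k = k} * (Fintype.card M - l) ≤
      Fintype.card (ι → Perm M) * (l * l) := by
  refine ⟨g.toWord.length, fun M _ _ k => le_trans (Nat.mul_le_mul_right _ (card_le_card ?_))
    (not_sim k g.toWord FreeGroup.isReduced_toWord _ le_rfl)⟩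
  intro π hπ
  simp only [mem_filter, mem_univ, true_and] at hπ ⊢
  rw [← FreeGroup.mk_toWord (x := g), lift_pos] at hπ
  rcases h : g.toWord with _ | ⟨x, L⟩
  · exact absurd (FreeGroup.toWord_eq_nil_iff.1 h) hg
  · rw [h] at hπ
    exact fun hs => hs.2 (by rw [hπ]; exact k_mem π k L)

open Classical in
lemma free_lim (g : FreeGroup ι) (hg : g ≠ 1) (θ : ℝ) (hθ : 0 < θ) :
    Tendsto (fun m : ℕ => (#{π : ι → Perm (Fin m) |
      ¬ ((#{k | FreeGroup.lift π g k = k} : ℝ) ≤ θ * m)} : ℝ) / Fintype.card (ι → Perm (Fin m)))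
      atTop (𝓝 0) := by
  obtain ⟨l, hl⟩ := fix_le g hg
  have h0 : Tendsto (fun m : ℕ => ((l : ℝ) * l / θ) / ((m : ℝ) - l)) atTop (𝓝 0) :=
    tendsto_const_nhds.div_atTop (tendsto_atTop_add_const_right _ (-(l : ℝ))
      tendsto_natCast_atTop_atTop)
  refine squeeze_zero' (Eventually.of_forall fun m => by positivity) ?_ h0
  filter_upwards [eventually_gt_atTop l] with m hm
  have hm' : (l : ℝ) < m := by exact_mod_cast hm
  have hm0 : (0 : ℝ) < m := lt_of_le_of_lt (by positivity) hm'
  have hN : (0 : ℝ) < Fintype.card (ι → Perm (Fin m)) := by exact_mod_cast Fintype.card_pos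
  set E := ({π : ι → Perm (Fin m) | ¬ ((#{k | FreeGroup.lift π g k = k} : ℝ) ≤ θ * m)} : Finset _)
  have h1 : (#E : ℝ) * (θ * m) ≤ ∑ π : ι → Perm (Fin m), (#{k | FreeGroup.lift π g k = k} : ℝ) := by
    rw [← nsmul_eq_mul, ← sum_const]
    refine (sum_le_sum fun π hπ => ?_).trans (sum_le_sum_of_subset_of_nonneg (subset_univ E)
      fun _ _ _ => by positivity)
    exact (not_le.1 (mem_filter.1 hπ).2).le
  have h2 : ∑ π : ι → Perm (Fin m), (#{k | FreeGroup.lift π g k = k} : ℝ) =
      ∑ k : Fin m, (#{π : ι → Perm (Fin m) | FreeGroup.lift π g k = k} : ℝ) := by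
    simp only [card_filter, Nat.cast_sum]
    exact sum_comm
  have h3 : ∀ k : Fin m, (#{π : ι → Perm (Fin m) | FreeGroup.lift π g k = k} : ℝ) ≤
      Fintype.card (ι → Perm (Fin m)) * (l * l) / ((m : ℝ) - l) := fun k => by
    rw [le_div_iff₀ (by linarith)]
    have := hl (Fin m) k
    rw [Fintype.card_fin] at this
    have h := (Nat.cast_le (α := ℝ)).2 this
    rw [Nat.cast_mul, Nat.cast_sub hm.le] at h
    exact_mod_cast h
  have h4 := h1.trans (h2.le.trans (sum_le_sum fun k _ => h3 k))
  rw [sum_const, card_univ, Fintype.card_fin, nsmul_eq_mul] at h4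
  have hd : 0 < (m : ℝ) - l := by linarith
  rw [div_le_iff₀ hN]
  have : (#E : ℝ) * θ ≤ Fintype.card (ι → Perm (Fin m)) * (l * l) / ((m : ℝ) - l) :=
    le_of_mul_le_mul_right (by linarith) hm0
  rw [← le_div_iff₀ hθ] at this
  refine this.trans (le_of_eq ?_)
  field_simp

end free

lemma count (N : ℕ) (η : ℝ) (hη : 0 < η) : ∃ δ : ℝ, 0 < δ ∧ ∀ (K A : Type) [Fintype K] [Fintype A]
    [DecidableEq K] [DecidableEq A] (S : K → Finset A) (w : K → ℝ), Fintype.card A ≤ N →
    (∀ k, 1 ≤ w k ∧ (#(S k) : ℝ) ≤ w k) →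
    (#{ω : K → A | (#{k | ω k ∉ S k} : ℝ) ≤ δ * Fintype.card K} : ℝ) ≤
      Real.exp (η * Fintype.card K) * ∏ k, w k := by
  set t : ℝ := min 1 (η / 2 / (N + 1)) with ht
  have t0 : 0 < t := lt_min one_pos (by positivity)
  have t1 : t ≤ 1 := min_le_left _ _
  have t2 : t * N ≤ η / 2 := by
    have : t * (N + 1) ≤ η / 2 := by rw [← le_div_iff₀ (by positivity)]; exact min_le_right _ _
    nlinarith
  have hl : Real.log t ≤ 0 := Real.log_nonpos t0.le t1
  refine ⟨η / 2 / (1 - Real.log t), div_pos (by positivity) (by linarith), ?_⟩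
  intro K A _ _ _ _ S w hA hw
  set δ := η / 2 / (1 - Real.log t) with hδ
  have hδ' : -(η / 2) ≤ δ * Real.log t := by
    have h1 : δ * (1 - Real.log t) = η / 2 := div_mul_cancel₀ _ (by linarith)
    have h2 : 0 < δ := div_pos (by positivity) (by linarith)
    nlinarith
  set n : ℝ := (Fintype.card K : ℝ) with hn
  have n0 : 0 ≤ n := by positivity
  set E := ({ω : K → A | (#{k | ω k ∉ S k} : ℝ) ≤ δ * n} : Finset _)
  have h1 : (#E : ℝ) * Real.exp (-(η / 2) * n) ≤
      ∑ ω : K → A, ∏ k, (if ω k ∈ S k then 1 else t) := by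
    rw [← nsmul_eq_mul, ← sum_const]
    refine (sum_le_sum fun ω hω => ?_).trans (sum_le_sum_of_subset_of_nonneg (subset_univ E)
      fun _ _ _ => prod_nonneg fun _ _ => by split_ifs <;> positivity)
    rw [prod_ite, prod_const_one, one_mul, prod_const, ← Real.exp_log t0, ← Real.exp_nat_mul,
      Real.exp_le_exp]
    have := (mem_filter.1 hω).2
    nlinarith
  have h2 : ∑ ω : K → A, ∏ k, (if ω k ∈ S k then 1 else t) =
      ∏ k, ∑ y : A, (if y ∈ S k then 1 else t) := by
    rw [prod_univ_sum, Fintype.piFinset_univ]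
  have h3 : ∀ k, ∑ y : A, (if y ∈ S k then 1 else t) ≤ Real.exp (η / 2) * w k := fun k => by
    have a1 : ∑ y : A, (if y ∈ S k then 1 else t) ≤ ∑ y : A, ((if y ∈ S k then 1 else 0) + t) :=
      sum_le_sum fun y _ => by split_ifs <;> linarith
    rw [sum_add_distrib, sum_boole, sum_const, card_univ, nsmul_eq_mul, filter_mem_eq_inter,
      univ_inter] at a1
    have a2 : (Fintype.card A : ℝ) ≤ N := by exact_mod_cast hA
    have a3 := Real.add_one_le_exp (η / 2)
    have := hw k
    nlinarith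
  have h4 := h1.trans (h2.le.trans (prod_le_prod (fun k _ => sum_nonneg fun _ _ => by
    split_ifs <;> positivity) fun k _ => h3 k))
  rw [prod_mul_distrib, prod_const, card_univ, ← Real.exp_nat_mul, ← hn,
    ← le_div_iff₀ (Real.exp_pos _)] at h4
  refine h4.trans (le_of_eq ?_)
  rw [div_eq_iff (Real.exp_pos _).ne', mul_right_comm, ← Real.exp_add]
  congr 2; ring

open Classical in
lemma diag {I : Type} [Countable I] [Nonempty I] (Q : ℕ → Type) [∀ m, Fintype (Q m)]
    [∀ m, Nonempty (Q m)] (P : I → ∀ m, Q m → Prop)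
    (h : ∀ i, Tendsto (fun m => (#{π : Q m | ¬ P i m π} : ℝ) / Fintype.card (Q m)) atTop (𝓝 0)) :
    ∃ s : ∀ m, Q m, ∀ i, ∀ᶠ m in atTop, P i m (s m) := by
  obtain ⟨e, he⟩ := exists_surjective_nat I
  have h1 : ∀ J : ℕ, ∀ᶠ m in atTop, ∃ π : Q m, ∀ j < J, P (e j) m π := fun J => by
    have := tendsto_finsetSum (range J) fun j _ => h (e j)
    rw [sum_const_zero] at this
    filter_upwards [this.eventually (gt_mem_nhds one_pos)] with m hm
    by_contra hn
    push Not at hn
    rw [← sum_div, div_lt_one (by exact_mod_cast Fintype.card_pos)] at hm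
    have h2 : (univ : Finset (Q m)) ⊆ (range J).biUnion fun j => {π : Q m | ¬ P (e j) m π} :=
      fun π _ => by
        obtain ⟨j, hj, hp⟩ := hn π
        exact mem_biUnion.2 ⟨j, mem_range.2 hj, mem_filter.2 ⟨mem_univ _, hp⟩⟩
    have h3 := (card_le_card h2).trans card_biUnion_le
    rw [card_univ] at h3
    have h4 := (Nat.cast_le (α := ℝ)).2 h3
    rw [Nat.cast_sum] at h4
    linarith
  have h2 : ∀ m, ∃ π : Q m, ∀ j < Nat.findGreatest (fun J => ∃ π : Q m, ∀ j < J, P (e j) m π) m,
      P (e j) m π := fun m =>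
    Nat.findGreatest_spec (P := fun J => ∃ π : Q m, ∀ j < J, P (e j) m π) (Nat.zero_le m)
      ⟨Classical.arbitrary _, fun _ h => absurd h (Nat.not_lt_zero _)⟩
  choose s hs using h2
  refine ⟨s, fun i => ?_⟩
  obtain ⟨j, rfl⟩ := he i
  filter_upwards [h1 (j + 1), eventually_ge_atTop (j + 1)] with m hm hm'
  exact hs m j (Nat.le_findGreatest (P := fun J => ∃ π : Q m, ∀ j < J, P (e j) m π) hm' hm)

end Pool.Agent.H22.Sof
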