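import Pool.Agent.H22.Sof1

/-! Random permutations admit no almost equivariant labelling that is far from constant. -/

namespace Pool.Agent.H22.Sof

open Finset Filter Topology Equiv

section
variable {M D : Type} [Fintype M] [Fintype D] [DecidableEq M] [DecidableEq D]

def ty (d : M → D) : D → ℕ := fun x => #{k | d k = x}
def cl (d : M → D) : Finset (M → D) := {e | ty e = ty d}
def nb (d e : M → D) : ℕ := #{σ : Perm M | (fun k => d (σ⁻¹ k)) = e}

omit [Fintype D] [DecidableEq M] in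
lemma orbit (d e : M → D) (h : ty e = ty d) : ∃ σ : Perm M, (fun k => d (σ⁻¹ k)) = e := by
  have h1 : ∀ c, Fintype.card {a // d a = c} = Fintype.card {a // e a = c} := fun c => by
    rw [Fintype.card_subtype, Fintype.card_subtype]; exact (congrFun h c).symm
  refine ⟨ofFiberEquiv fun c => Fintype.equivOfCardEq (h1 c), funext fun k => ?_⟩
  rw [← ofFiberEquiv_map fun c => Fintype.equivOfCardEq (h1 c)]
  exact congrArg e (Equiv.apply_symm_apply _ k)

omit [Fintype D] [DecidableEq M] in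
lemma ty_perm (d : M → D) (σ : Perm M) : ty (fun k => d (σ⁻¹ k)) = ty d :=
  funext fun _ => card_equiv σ⁻¹ fun k => by simp

lemma nb_le (d e : M → D) : nb d e * #(cl d) ≤ Fintype.card (Perm M) := by
  have h1 : Fintype.card (Perm M) = ∑ e' ∈ cl d, nb d e' :=
    card_eq_sum_card_fiberwise (f := fun σ : Perm M => fun k => d (σ⁻¹ k))
      fun σ _ => mem_filter.2 ⟨mem_univ _, ty_perm d σ⟩
  rw [h1, mul_comm, ← smul_eq_mul, ← sum_const]
  refine sum_le_sum fun e' he' => ?_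
  obtain ⟨τ, hτ⟩ := orbit d e' (mem_filter.1 he').2
  by_cases h : ∃ σ0 : Perm M, (fun k => d (σ0⁻¹ k)) = e
  · obtain ⟨σ0, h0⟩ := h
    refine card_le_card_of_injOn (fun σ => τ * σ0⁻¹ * σ) (fun σ hσ => ?_)
      (fun σ _ σ' _ h => mul_left_cancel h)
    simp only [coe_filter, mem_univ, true_and, Set.mem_ofPred_eq] at hσ ⊢
    funext k
    have := congrFun (hσ.trans h0.symm) (σ0 (τ⁻¹ k))
    rw [← hτ]
    simpa using this
  · have : nb d e = 0 := card_eq_zero.2 (filter_eq_empty_iff.2 fun σ _ hσ => h ⟨σ, hσ⟩)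
    omega

lemma cl_pos (d : M → D) : 0 < #(cl d) := card_pos.2 ⟨d, mem_filter.2 ⟨mem_univ _, rfl⟩⟩

lemma sum_cl : ∑ d : M → D, (1 / (#(cl d) : ℝ)) ≤ (Fintype.card M + 1 : ℝ) ^ Fintype.card D := by
  rw [← sum_fiberwise_of_maps_to (s := univ) (g := ty)
    (t := Fintype.piFinset fun _ : D => range (Fintype.card M + 1)) fun d _ =>
      Fintype.mem_piFinset.2 fun x => mem_range.2 (Nat.lt_succ_of_le (card_le_univ _))]
  refine (sum_le_card_nsmul _ _ 1 fun τ _ => ?_).trans (by simp)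
  rw [sum_congr rfl (g := fun _ => 1 / (#{d : M → D | ty d = τ} : ℝ)) fun d hd => by
    rw [cl, (mem_filter.1 hd).2], sum_const, nsmul_eq_mul, mul_one_div]
  exact div_self_le_one _

lemma choose_ge (j : ℕ) : ∀ a b : ℕ, j ≤ a → j ≤ b → 2 ^ j ≤ (a + b).choose a := by
  induction j with
  | zero => intro a b _ _; exact Nat.choose_pos (by omega)
  | succ j ih =>
    intro a b ha hb
    obtain ⟨a, rfl⟩ : ∃ a', a = a' + 1 := ⟨a - 1, by omega⟩
    obtain ⟨b, rfl⟩ : ∃ b', b = b' + 1 := ⟨b - 1, by omega⟩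
    have h1 := ih a (b + 1) (by omega) (by omega)
    have h2 := ih (a + 1) b (by omega) (by omega)
    rw [show a + 1 + (b + 1) = (a + (b + 1)) + 1 by ring, Nat.choose_succ_succ']
    rw [show a + 1 + b = a + (b + 1) by ring] at h2
    omega

lemma cl_ge (d : M → D) (x : D) (j : ℕ) (h1 : j ≤ #{k | d k = x}) (h2 : j ≤ #{k | d k ≠ x}) :
    2 ^ j ≤ #(cl d) := by
  refine (choose_ge j _ _ h1 h2).trans ?_
  rw [card_filter_add_card_filter_not, ← card_powersetCard]
  refine card_le_card_of_surjOn (fun e => univ.filter fun k => e k = x) fun T hT => ?_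
  obtain ⟨σ, hσ⟩ := Perm.exists_map_finset_eq _ _ (mem_powersetCard.1 hT).2.symm
  refine ⟨fun k => d (σ⁻¹ k), mem_filter.2 ⟨mem_univ _, ty_perm d σ⟩, ?_⟩
  rw [← hσ]
  ext k
  simp [mem_map_equiv, Perm.inv_def]

end

/-- every almost equivariant labelling is almost constant -/
def Exp {ι D : Type} [DecidableEq D] (f : D → D) (ε δ : ℝ) (m : ℕ) (π : ι → Perm (Fin m)) : Prop :=
  ∀ d : Fin m → D, (∀ i, (#{k | d ((π i)⁻¹ k) ≠ f (d k)} : ℝ) ≤ δ * m) →
    ∃ x, (#{k | d k ≠ x} : ℝ) ≤ ε * m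

open Classical in
lemma exp_lim {ι D : Type} [Fintype ι] [DecidableEq ι] [Fintype D] [DecidableEq D] [Nonempty D]
    (hι : 2 ≤ Fintype.card ι) (f : D → D) (ε : ℝ) (hε : 0 < ε) : ∃ δ : ℝ, 0 < δ ∧
    Tendsto (fun m : ℕ => (#{π : ι → Perm (Fin m) | ¬ Exp f ε δ m π} : ℝ) /
      Fintype.card (ι → Perm (Fin m))) atTop (𝓝 0) := by
  set q := Fintype.card D with hq
  have q0 : 0 < q := Fintype.card_pos
  set c : ℝ := min ε (1 / q) with hc
  have c0 : 0 < c := lt_min hε (by positivity)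
  have l2 : 0 < Real.log 2 := Real.log_pos (by norm_num)
  obtain ⟨δ, hδ, hcount⟩ := count q (c * Real.log 2 / 4) (by positivity)
  refine ⟨δ, hδ, ?_⟩
  set ρ : ℝ := Real.exp (-(c * Real.log 2 / 2)) with hρ
  have ρ0 : 0 < ρ := Real.exp_pos _
  have ρ1 : |ρ| < 1 := by
    rw [abs_of_pos ρ0, hρ, Real.exp_lt_one_iff]; have : 0 < c * Real.log 2 := by positivity
    linarith
  have h0 : Tendsto (fun m : ℕ => 2 / ρ * (((m + 1 : ℕ) : ℝ) ^ q * ρ ^ (m + 1))) atTop (𝓝 0) := by
    have := ((tendsto_pow_const_mul_const_pow_of_abs_lt_one q ρ1).comp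
      (tendsto_add_atTop_nat 1)).const_mul (2 / ρ)
    rwa [mul_zero] at this
  refine squeeze_zero (fun m => by positivity) (fun m => ?_) h0
  set NC : Finset (Fin m → D) := {d | ∀ x, ε * m < (#{k | d k ≠ x} : ℝ)}
  set G : (Fin m → D) → Finset (Perm (Fin m)) :=
    fun d => {σ | (#{k | d (σ⁻¹ k) ≠ f (d k)} : ℝ) ≤ δ * m} with hG
  set F : ℝ := (Fintype.card (Perm (Fin m)) : ℝ) with hF
  have F0 : 0 < F := by rw [hF]; exact_mod_cast Fintype.card_pos
  set β : ℝ := Real.exp (c * Real.log 2 / 4 * m) with hβ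
  have h1 : ({π : ι → Perm (Fin m) | ¬ Exp f ε δ m π} : Finset _) ⊆
      NC.biUnion fun d => Fintype.piFinset fun _ => G d := fun π hπ => by
    have := (mem_filter.1 hπ).2
    simp only [Exp, not_forall, not_exists, not_le] at this
    obtain ⟨d, h, h'⟩ := this
    exact mem_biUnion.2 ⟨d, mem_filter.2 ⟨mem_univ _, h'⟩,
      Fintype.mem_piFinset.2 fun i => mem_filter.2 ⟨mem_univ _, h i⟩⟩
  have h2 : ∀ d, (#(G d) : ℝ) / F ≤ β / #(cl d) := fun d => by
    have a1 := hcount (Fin m) D (fun k => {f (d k)}) (fun _ => 1) le_rfl (fun _ => by simp)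
    simp only [mem_singleton, Fintype.card_fin, prod_const_one, mul_one] at a1
    have a2 : #(G d) = ∑ e ∈ ({ω : Fin m → D | (#{k | ¬ ω k = f (d k)} : ℝ) ≤ δ * m} : Finset _),
        #{σ ∈ G d | (fun k => d (σ⁻¹ k)) = e} :=
      card_eq_sum_card_fiberwise (f := fun σ : Perm (Fin m) => fun k => d (σ⁻¹ k))
        fun σ hσ => mem_filter.2 ⟨mem_univ _, (mem_filter.1 hσ).2⟩
    have p0 : (0 : ℝ) < #(cl d) := by exact_mod_cast cl_pos d
    rw [div_le_iff₀ F0, a2, Nat.cast_sum]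
    refine (sum_le_card_nsmul _ _ (F / #(cl d)) fun e _ => ?_).trans ?_
    · rw [le_div_iff₀ p0, hF]
      exact_mod_cast le_trans (Nat.mul_le_mul_right _ (card_le_card
        (filter_subset_filter _ (subset_univ _)))) (nb_le d e)
    · rw [nsmul_eq_mul, div_mul_eq_mul_div, mul_div_assoc]
      exact mul_le_mul_of_nonneg_right a1 (by positivity)
  have h3 : ∀ d ∈ NC, Real.exp (c * Real.log 2 * m) / 2 ≤ #(cl d) := fun d hd => by
    obtain ⟨x, hx⟩ := Fintype.exists_le_card_fiber_of_mul_le_card (f := d) (n := ⌊c * m⌋₊) (by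
      rw [Fintype.card_fin, ← hq]
      have a1 : (⌊c * m⌋₊ : ℝ) ≤ c * m := Nat.floor_le (by positivity)
      have a2 : c * q ≤ 1 := by
        rw [← le_div_iff₀ (by exact_mod_cast q0)]; exact min_le_right _ _
      have : (q : ℝ) * ⌊c * m⌋₊ ≤ m := by
        have : (0 : ℝ) ≤ m := by positivity
        have : (0 : ℝ) ≤ q := by positivity
        nlinarith
      exact_mod_cast this)
    have a3 : ⌊c * m⌋₊ ≤ #{k | d k ≠ x} := by
      refine Nat.floor_le_of_le (le_trans ?_ ((mem_filter.1 hd).2 x).le)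
      exact mul_le_mul_of_nonneg_right (min_le_left _ _) (by positivity)
    have a4 := (Nat.cast_le (α := ℝ)).2 (cl_ge d x _ hx a3)
    refine le_trans ?_ a4
    push_cast
    rw [div_le_iff₀ two_pos, ← pow_succ, ← Real.exp_log two_pos, ← Real.exp_nat_mul, Real.log_exp,
      Real.exp_le_exp]
    have := Nat.lt_floor_add_one (c * m)
    push_cast
    nlinarith
  have h4 : (Fintype.card (ι → Perm (Fin m)) : ℝ) = F ^ Fintype.card ι := by
    rw [hF, Fintype.card_fun]; push_cast; rfl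
  have h5 := (Nat.cast_le (α := ℝ)).2 ((card_le_card h1).trans card_biUnion_le)
  rw [Nat.cast_sum] at h5
  rw [h4]
  refine (div_le_div_of_nonneg_right h5 (by positivity)).trans ?_
  rw [sum_div]
  have h6 : ∀ d ∈ NC, (#(Fintype.piFinset fun _ : ι => G d) : ℝ) / F ^ Fintype.card ι ≤
      2 * ρ ^ m * (1 / #(cl d)) := fun d hd => by
    have p0 : (0 : ℝ) < #(cl d) := by exact_mod_cast cl_pos d
    rw [Fintype.card_piFinset, prod_const, card_univ, Nat.cast_pow, ← div_pow]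
    refine (pow_le_pow_of_le_one (by positivity) ?_ hι).trans
      ((pow_le_pow_left₀ (by positivity) (h2 d) 2).trans ?_)
    · rw [div_le_one F0, hF]; exact_mod_cast card_le_univ _
    · have e : β ^ 2 = ρ ^ m * Real.exp (c * Real.log 2 * m) := by
        rw [hβ, hρ, ← Real.exp_nat_mul, ← Real.exp_nat_mul, ← Real.exp_add]; congr 1; push_cast; ring
      rw [div_pow, e, div_le_iff₀ (by positivity)]
      have := h3 d hd
      have e2 : 2 * ρ ^ m * (1 / (#(cl d) : ℝ)) * #(cl d) ^ 2 = ρ ^ m * (2 * #(cl d)) := by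
        field_simp
      rw [e2]
      exact mul_le_mul_of_nonneg_left (by linarith) (by positivity)
  refine (sum_le_sum h6).trans ?_
  rw [← mul_sum]
  have h7 := (sum_le_sum_of_subset_of_nonneg (subset_univ NC) (f := fun d => 1 / (#(cl d) : ℝ))
    fun _ _ _ => by positivity).trans sum_cl
  refine (mul_le_mul_of_nonneg_left h7 (by positivity)).trans (le_of_eq ?_)
  rw [Fintype.card_fin, ← hq]; push_cast; field_simp; ring

theorem good {ι D : Type} [Fintype ι] [DecidableEq ι] [Fintype D] [DecidableEq D] [Nonempty D]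
    (hι : 2 ≤ Fintype.card ι) (f : D → D) : ∃ s : ∀ m : ℕ, ι → Perm (Fin m),
    (∀ g : FreeGroup ι, g ≠ 1 → ∀ θ : ℝ, 0 < θ → ∀ᶠ m in atTop,
      (#{k | FreeGroup.lift (s m) g k = k} : ℝ) ≤ θ * m) ∧
    ∀ ε : ℝ, 0 < ε → ∃ δ : ℝ, 0 < δ ∧ ∀ᶠ m in atTop, Exp f ε δ m (s m) := by
  classical
  have p : ∀ j : ℕ, (0 : ℝ) < 1 / (j + 1) := fun j => by positivity
  choose δ hδ hE using fun j : ℕ => exp_lim hι f (1 / (j + 1)) (p j)
  obtain ⟨s, hs⟩ := diag (I := ({g : FreeGroup ι // g ≠ 1} × ℕ) ⊕ ℕ) (fun m => ι → Perm (Fin m))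
    (fun i m π => match i with
      | .inl (g, j) => (#{k | FreeGroup.lift π g k = k} : ℝ) ≤ 1 / (j + 1) * m
      | .inr j => Exp f (1 / (j + 1)) (δ j) m π) (by
      rintro (⟨g, j⟩ | j)
      · convert free_lim g.1 g.2 _ (p j)
      · convert hE j)
  refine ⟨s, fun g hg θ hθ => ?_, fun ε hε => ?_⟩
  · obtain ⟨j, hj⟩ := exists_nat_one_div_lt hθ
    filter_upwards [hs (.inl (⟨g, hg⟩, j))] with m hm
    refine le_trans ?_ (mul_le_mul_of_nonneg_right hj.le (by positivity))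
    convert hm
  · obtain ⟨j, hj⟩ := exists_nat_one_div_lt hε
    refine ⟨δ j, hδ j, ?_⟩
    filter_upwards [hs (.inr j)] with m hm d hd
    obtain ⟨x, hx⟩ := hm d hd
    exact ⟨x, hx.trans (mul_le_mul_of_nonneg_right hj.le (by positivity))⟩

end Pool.Agent.H22.Sof
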