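import Pool.Agent.H22.Sym1

set_option autoImplicit false

namespace Pool.Agent.H22.Sym

open MeasureTheory Set

variable {E : Type} [NormedAddCommGroup E] [InnerProductSpace ℝ E] [FiniteDimensional ℝ E]
  [MeasurableSpace E] [BorelSpace E]

set_option linter.unusedSectionVars false

theorem h_smul {K : Set E} (hK : IsCompact K) (hn : K.Nonempty) {c : ℝ} (hc : 0 < c) (v : E) :
    h K (c • v) = c * h K v := by
  apply le_antisymm
  · obtain ⟨x, hx, hxv, -⟩ := exists_h hK hn (c • v)
    rw [hxv, real_inner_smul_right]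
    exact mul_le_mul_of_nonneg_left (le_h hK v hx) hc.le
  · obtain ⟨x, hx, hxv, -⟩ := exists_h hK hn v
    rw [hxv, ← real_inner_smul_right]
    exact le_h hK _ hx

theorem polar [Nontrivial E] (f : E → ℝ) (hf : ∀ c : ℝ, 0 < c → ∀ v, f (c • v) = c * f v) :
    ∫ v, f v * wt v = (∫ u : Metric.sphere (0 : E) 1, f u ∂(volume : Measure E).toSphere) *
      ∫ r : Ioi (0 : ℝ), r.1 * Real.exp (-r.1 ^ 2)
        ∂(Measure.volumeIoiPow (Module.finrank ℝ E - 1)) := by
  rw [← integral_prod_mul]
  have h1 : ∫ v, f v * wt v =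
      ∫ x : ({(0)}ᶜ : Set E), f x.1 * wt x.1 ∂((volume : Measure E).comap (↑)) := by
    rw [integral_subtype_comap (measurableSet_singleton _).compl fun x ↦ f x * wt x,
      restrict_compl_singleton]
  rw [h1, ← (volume : Measure E).measurePreserving_homeomorphUnitSphereProd.integral_comp
    (Homeomorph.measurableEmbedding _)]
  refine integral_congr_ae (Filter.Eventually.of_forall fun x => ?_)
  have hx : 0 < ‖x.1‖ := norm_pos_iff.2 x.2
  simp only [homeomorphUnitSphereProd_apply_snd_coe, homeomorphUnitSphereProd_apply_fst_coe]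
  rw [hf _ (inv_pos.2 hx)]
  unfold wt
  field_simp

theorem polar_ne [Nontrivial E] : (∫ r : Ioi (0 : ℝ), r.1 * Real.exp (-r.1 ^ 2)
        ∂(Measure.volumeIoiPow (Module.finrank ℝ E - 1))) ≠ 0 := by
  intro h0
  have h1 := polar (E := E) (fun v => ‖v‖) (fun c hc v => by
    rw [norm_smul, Real.norm_eq_abs, abs_of_pos hc])
  rw [h0, mul_zero] at h1
  obtain ⟨x, hx⟩ := exists_ne (0 : E)
  have hpos : 0 < ∫ v : E, ‖v‖ * wt v :=
    integral_pos_of_integrable_nonneg_nonzero (x := x) (continuous_norm.mul wt_cont)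
      (int_of_bound continuous_norm zero_le_one (fun v => by simp))
      (fun v => mul_nonneg (norm_nonneg v) (wt_pos v).le)
      (mul_pos (norm_pos_iff.2 hx) (wt_pos _)).ne'
  exact hpos.ne' h1

theorem sphere_eq_iff [Nontrivial E] {K L : Set E} (hK : IsCompact K) (hn : K.Nonempty)
    (hL : IsCompact L) (hm : L.Nonempty) :
    (∫ u : Metric.sphere (0 : E) 1, h K u ∂(volume : Measure E).toSphere) =
      (∫ u : Metric.sphere (0 : E) 1, h L u ∂(volume : Measure E).toSphere) ↔
    ∫ v, h K v * wt v = ∫ v, h L v * wt v := by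
  rw [polar (h K) (fun c hc v => h_smul hK hn hc v), polar (h L) (fun c hc v => h_smul hL hm hc v)]
  exact (mul_left_inj' polar_ne).symm

theorem D_nonempty {K : Set E} (hK : IsCompact K) (hn : K.Nonempty) : (D K).Nonempty := by
  obtain ⟨y, hy, -⟩ := exists_D hK hn 0
  exact ⟨y, hy⟩

theorem D_mono {K L : Set E} (hK : IsCompact K) (hn : K.Nonempty) (hL : IsCompact L)
    (hKL : K ⊆ L) : D K ⊆ D L := fun _ hy u => (hy u).trans (g_mono hK hn hL hKL u)

theorem fails {a u : E} (ha : ‖a‖ = 1) (hu1 : ‖u‖ = 1) (hau : inner ℝ a u = (0 : ℝ)) :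
    D ((fun y : E => y + (2 : ℝ) • a) '' Metric.closedBall 0 1) ≠ Metric.closedBall 0 1 := by
  intro hD
  set K : Set E := (fun y : E => y + (2 : ℝ) • a) '' Metric.closedBall 0 1 with hKdef
  have hK : IsCompact K := (isCompact_closedBall 0 1).image (by fun_prop)
  have hn : K.Nonempty := (Metric.nonempty_closedBall.2 zero_le_one).image _
  have hup : ∀ v : E, h K v ≤ ‖v‖ + 2 * inner ℝ a v := fun v => by
    obtain ⟨_, ⟨x, hx, rfl⟩, hxv, -⟩ := exists_h hK hn v
    rw [hxv, inner_add_left, real_inner_smul_left]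
    have h1 : ‖x‖ ≤ 1 := by simpa using hx
    have h2 := real_inner_le_norm x v
    have h3 := mul_le_mul_of_nonneg_right h1 (norm_nonneg v)
    linarith
  have hΔ : 0 < Δ K := by
    refine integral_pos_of_integrable_nonneg_nonzero (x := a)
      ((dd_cont hK).mul wt_cont) (int_dd hK hn)
      (fun v => mul_nonneg (dd_nonneg K v) (wt_pos v).le) ?_
    refine (mul_pos ?_ (wt_pos _)).ne'
    have h1 := hup (-a)
    have m2 : -h K (-a) ≤ dd K a := (le_max_right _ _).trans (le_max_right _ _)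
    rw [norm_neg, inner_neg_right, real_inner_self_eq_norm_sq, ha] at h1
    linarith
  have hlam : 0 < lam K := by
    have := W_nonneg hK hn
    unfold lam; positivity
  obtain ⟨p1, p2, p3, p4, -⟩ := par hK hn
  have hmem : u ∈ D K := by rw [hD]; simp [hu1]
  have h1 := hmem u
  rw [real_inner_self_eq_norm_sq, hu1] at h1
  have hc : (2 : ℝ) • a ∈ K := ⟨0, by simp, by simp⟩
  have a1 := le_h hK u hc
  have a2 := le_h hK (-u) hc
  rw [real_inner_smul_left, hau] at a1
  rw [real_inner_smul_left, inner_neg_right, hau] at a2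
  have hd : dd K u = 0 := by
    unfold dd
    exact max_eq_left (max_le (by linarith) (by linarith))
  have b1 := hup u
  have b2 := hup (-u)
  rw [hu1, hau] at b1
  rw [norm_neg, hu1, inner_neg_right, hau] at b2
  have he : e K u ≤ 1 := by unfold e; linarith
  unfold g at h1
  rw [hd] at h1
  nlinarith

theorem not_segment {a u : E} (ha : ‖a‖ = 1) (hu1 : ‖u‖ = 1) (hau : inner ℝ a u = (0 : ℝ))
    (p q : E) : D (segment ℝ a (a + u)) ≠ segment ℝ p q := by
  intro hD
  set K : Set E := segment ℝ a (a + u) with hKdef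
  have hK : IsCompact K := by
    rw [hKdef, segment_eq_image]
    exact isCompact_Icc.image (by fun_prop)
  have m1 : a ∈ K := left_mem_segment ℝ _ _
  have m2 : a + u ∈ K := right_mem_segment ℝ _ _
  have hn : K.Nonempty := ⟨a, m1⟩
  have huu : inner ℝ u u = (1 : ℝ) := by rw [real_inner_self_eq_norm_sq, hu1]; norm_num
  have haa : inner ℝ a a = (1 : ℝ) := by rw [real_inner_self_eq_norm_sq, ha]; norm_num
  have hua : inner ℝ u a = (0 : ℝ) := by rw [real_inner_comm, hau]
  have hW : 0 < W K := by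
    refine integral_pos_of_integrable_nonneg_nonzero (x := u)
      ((e_cont hK).mul wt_cont) (int_e hK hn)
      (fun v => mul_nonneg (e_nonneg hK hn v) (wt_pos v).le) ?_
    refine (mul_pos ?_ (wt_pos _)).ne'
    have h1 := le_h hK u m2
    have h2 := le_h hK (-u) m1
    rw [inner_add_left, hau, huu] at h1
    rw [inner_neg_right, hau] at h2
    unfold e; linarith
  have hbet : 0 < bet K := by
    have := Δ_nonneg K
    unfold bet; positivity
  obtain ⟨p1, p2, p3, p4, -⟩ := par hK hn
  have q1 := mem_D hK hn m1 m1 (Or.inl ⟨rfl, rfl⟩)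
  have q2 := mem_D hK hn m2 m1 (Or.inl ⟨rfl, rfl⟩)
  have q3 := mem_D hK hn m1 m1 (Or.inr (Or.inl ⟨rfl, rfl⟩))
  rw [hD, segment_eq_image'] at q1 q2 q3
  obtain ⟨t1, -, e1⟩ := q1
  obtain ⟨t2, -, e2⟩ := q2
  obtain ⟨t3, -, e3⟩ := q3
  have f1 := congrArg (fun z => (inner ℝ z a : ℝ)) e1
  have f2 := congrArg (fun z => (inner ℝ z a : ℝ)) e2
  have f3 := congrArg (fun z => (inner ℝ z a : ℝ)) e3
  have g1 := congrArg (fun z => (inner ℝ z u : ℝ)) e1
  have g2 := congrArg (fun z => (inner ℝ z u : ℝ)) e2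
  simp only [inner_add_left, inner_sub_left, real_inner_smul_left, haa, hua, hau, huu]
    at f1 f2 f3 g1 g2
  have k1 : (t2 - t1) * (inner ℝ q a - inner ℝ p a : ℝ) = 0 := by linarith
  have k2 : (t2 - t1) * (inner ℝ q u - inner ℝ p u : ℝ) = (1 - lam K) / 2 := by linarith
  have k3 : t2 - t1 ≠ 0 := by
    intro h0; rw [h0, zero_mul] at k2; linarith
  have k4 : (inner ℝ q a - inner ℝ p a : ℝ) = 0 := (mul_eq_zero.1 k1).resolve_left k3
  rw [k4] at f1 f3
  linarith

end Pool.Agent.H22.Sym
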