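import Pool.Agent.H22.Sym2

set_option autoImplicit false

namespace Pool.Agent.H22.Sym

open MeasureTheory Set

/-- Euclidean n-space. -/
abbrev En (n : ℕ) : Type := EuclideanSpace ℝ (Fin n)

/-- Nonempty compact convex sets. -/
def IsCC {n : ℕ} (K : Set (En n)) : Prop := IsCompact K ∧ Convex ℝ K ∧ K.Nonempty

/-- Support function. -/
noncomputable def supp {n : ℕ} (K : Set (En n)) (v : En n) : ℝ :=
  sSup ((fun y : En n => (inner ℝ y v : ℝ)) '' K)

/-- Surface measure on the unit sphere. -/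
noncomputable def sph (n : ℕ) : Measure (Metric.sphere (0 : En n) 1) :=
  (volume : Measure (En n)).toSphere

/-- Mean width: twice the average of the support function over the unit sphere. -/
noncomputable def meanWidth {n : ℕ} (K : Set (En n)) : ℝ :=
  2 / (sph n).real univ * ∫ u, supp K u ∂(sph n)

theorem D_cc {n : ℕ} {K : Set (En n)} (hK : IsCC K) : IsCC (D K) :=
  ⟨D_compact hK.1 hK.2.2, D_convex K, D_nonempty hK.1 hK.2.2⟩

theorem D_mw {n : ℕ} [Nontrivial (En n)] {K : Set (En n)} (hK : IsCC K) :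
    meanWidth (D K) = meanWidth K := by
  unfold meanWidth
  congr 1
  exact (sphere_eq_iff (D_cc hK).1 (D_cc hK).2.2 hK.1 hK.2.2).2 (int_D hK.1 hK.2.2)

theorem D_neg_eq {n : ℕ} (K : Set (En n)) : -D K = D K := by
  ext y
  exact ⟨fun hy => by simpa using D_neg K (Set.mem_neg.1 hy), fun hy => Set.mem_neg.2 (D_neg K hy)⟩

theorem D_fix {n : ℕ} {K : Set (En n)} (hK : IsCC K) (hs : -K = K) : D K = K :=
  D_symm hK.1 hK.2.1 hK.2.2 fun x hx => by rw [← hs]; simpa using hx

end Pool.Agent.H22.Sym
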