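import Pool.Agent.H22.Sym3

set_option autoImplicit false

namespace Pool.Agent.H22.Sym

open Set

set_option linter.unusedSectionVars false

/-- The class: nonempty compact convex sets, with nonempty interior when `b` is true. -/
def InB {n : ℕ} (b : Bool) (K : Set (En n)) : Prop :=
  IsCC K ∧ (b = true → (interior K).Nonempty)

/-- Invariance under the reflection x ↦ 2 (x|H) - x. -/
def HSym {n : ℕ} (H : Submodule ℝ (En n)) (K : Set (En n)) : Prop :=
  (fun x => (2 : ℝ) • H.starProjection x - x) '' K = K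

/-- The spherical cylinder D_r(x) + s (B ∩ Hᗮ). -/
def cyl {n : ℕ} (H : Submodule ℝ (En n)) (x : En n) (r s : ℝ) : Set (En n) :=
  {p | ∃ y ∈ H, ∃ z ∈ Hᗮ, ‖y - x‖ ≤ r ∧ ‖z‖ ≤ s ∧ p = y + z}

variable {n : ℕ} {H : Submodule ℝ (En n)}

theorem mem_cyl {x p : En n} {r s : ℝ} : p ∈ cyl H x r s ↔
    ‖H.starProjection p - x‖ ≤ r ∧ ‖p - H.starProjection p‖ ≤ s := by
  constructor
  · rintro ⟨y, hy, z, hz, h1, h2, rfl⟩
    have : H.starProjection (y + z) = y := by
      rw [map_add, Submodule.starProjection_eq_self_iff.2 hy,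
        (Submodule.starProjection_apply_eq_zero_iff H).2 hz, add_zero]
    rw [this]; exact ⟨h1, by simpa using h2⟩
  · rintro ⟨h1, h2⟩
    exact ⟨_, H.starProjection_apply_mem p, _, H.sub_starProjection_mem_orthogonal p, h1, h2,
      by abel⟩

theorem cyl_inB (b : Bool) {x : En n} (hx : x ∈ H) {r s : ℝ} (hr : 0 < r) (hs : 0 < s) :
    InB b (cyl H x r s) := by
  have hPx : H.starProjection x = x := Submodule.starProjection_eq_self_iff.2 hx
  have hint : x ∈ interior (cyl H x r s) := by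
    have ho1 : IsOpen {p : En n | ‖H.starProjection p - x‖ < r} :=
      isOpen_lt (by fun_prop) continuous_const
    have ho2 : IsOpen {p : En n | ‖p - H.starProjection p‖ < s} :=
      isOpen_lt (by fun_prop) continuous_const
    have ho := ho1.inter ho2
    refine interior_maximal (fun p hp => mem_cyl.2 ⟨hp.1.le, hp.2.le⟩) ho ?_
    simp [hPx, hr, hs]
  refine ⟨⟨?_, ?_, ⟨x, interior_subset hint⟩⟩, fun _ => ⟨x, hint⟩⟩
  · refine Metric.isCompact_of_isClosed_isBounded ?_ ?_
    · have : cyl H x r s = {p : En n | ‖H.starProjection p - x‖ ≤ r} ∩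
          {p : En n | ‖p - H.starProjection p‖ ≤ s} := by ext p; exact mem_cyl
      rw [this]
      exact (isClosed_le (by fun_prop) continuous_const).inter
        (isClosed_le (by fun_prop) continuous_const)
    · rw [isBounded_iff_forall_norm_le]
      refine ⟨‖x‖ + r + s, fun p hp => ?_⟩
      obtain ⟨h1, h2⟩ := mem_cyl.1 hp
      have : p = x + (H.starProjection p - x) + (p - H.starProjection p) := by abel
      calc ‖p‖ = ‖x + (H.starProjection p - x) + (p - H.starProjection p)‖ := by rw [← this]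
        _ ≤ _ := norm_add₃_le.trans (by linarith)
  · rintro _ ⟨y, hy, z, hz, h1, h2, rfl⟩ _ ⟨y', hy', z', hz', h1', h2', rfl⟩ a c ha hc hac
    refine ⟨a • y + c • y', H.add_mem (H.smul_mem _ hy) (H.smul_mem _ hy'), a • z + c • z',
      Hᗮ.add_mem (Hᗮ.smul_mem _ hz) (Hᗮ.smul_mem _ hz'), ?_, ?_, by module⟩
    · have := convex_closedBall x r (mem_closedBall_iff_norm.2 h1) (mem_closedBall_iff_norm.2 h1')
        ha hc hac
      exact mem_closedBall_iff_norm.1 this
    · have := convex_closedBall (0 : En n) s (mem_closedBall_zero_iff.2 h2)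
        (mem_closedBall_zero_iff.2 h2') ha hc hac
      exact mem_closedBall_zero_iff.1 this

theorem proj_mem {K : Set (En n)} (hc : Convex ℝ K) (hs : HSym H K) {y : En n} (hy : y ∈ K) :
    H.starProjection y ∈ K := by
  have h1 : (2 : ℝ) • H.starProjection y - y ∈ K := by rw [← hs]; exact ⟨y, hy, rfl⟩
  have := hc hy h1 (a := 1 / 2) (b := 1 / 2) (by norm_num) (by norm_num) (by norm_num)
  convert this using 1
  module

section
variable {b : Bool} {S : Set (En n) → Set (En n)}
  (h1 : ∀ K, InB b K → InB b (S K) ∧ HSym H (S K))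
  (h2 : ∀ K L, InB b K → InB b L → K ⊆ L → S K ⊆ S L)
  (h3 : ∀ x ∈ H, ∀ r s : ℝ, 0 < r → 0 < s → S (cyl H x r s) = cyl H x r s)
include h1 h2 h3

theorem proj_sub {K : Set (En n)} (hK : InB b K) :
    H.starProjection '' S K ⊆ H.starProjection '' K := by
  rintro _ ⟨y, hy, rfl⟩
  set p := H.starProjection y with hp
  have hA : IsCompact (H.starProjection '' K) := hK.1.1.image H.starProjection.continuous
  have hAc : Convex ℝ (H.starProjection '' K) := hK.1.2.1.linear_image H.starProjection.toLinearMap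
  obtain ⟨q, hq, hqm⟩ := exists_norm_eq_iInf_of_complete_convex (hK.1.2.2.image _)
    hA.isComplete hAc p
  have hq2 := (norm_eq_iInf_iff_real_inner_le_zero hAc hq).1 hqm
  by_contra hne
  have hpq : p - q ≠ 0 := fun h => hne (by rw [sub_eq_zero.1 h]; exact hq)
  have hδ : 0 < ‖p - q‖ := norm_pos_iff.2 hpq
  obtain ⟨R, hR⟩ := (Metric.isBounded_iff_subset_closedBall q).1 hA.isBounded
  obtain ⟨s, hs⟩ := (hK.1.1.image (f := fun x => x - H.starProjection x)
    (by fun_prop)).isBounded.exists_norm_le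
  have hqH : q ∈ H := by obtain ⟨w, -, rfl⟩ := hq; exact H.starProjection_apply_mem w
  have hpH : p ∈ H := H.starProjection_apply_mem y
  set T : ℝ := R ^ 2 / ‖p - q‖ ^ 2 + 1 with hT
  have hT0 : 0 < T := by positivity
  have hTd : T * ‖p - q‖ ^ 2 = R ^ 2 + ‖p - q‖ ^ 2 := by rw [hT]; field_simp
  set x := q - T • (p - q) with hx
  have hxH : x ∈ H := H.sub_mem hqH (H.smul_mem _ (H.sub_mem hpH hqH))
  set r := Real.sqrt (R ^ 2 + T ^ 2 * ‖p - q‖ ^ 2) with hr
  have hr0 : 0 < r := Real.sqrt_pos.2 (by positivity)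
  have hsub : K ⊆ cyl H x r (|s| + 1) := by
    intro w hw
    refine mem_cyl.2 ⟨?_, (hs _ ⟨w, hw, rfl⟩).trans (by linarith [le_abs_self s])⟩
    apply Real.le_sqrt_of_sq_le
    have e1 : H.starProjection w - x = (H.starProjection w - q) + T • (p - q) := by
      rw [hx]; abel
    have e2 := hq2 _ ⟨w, hw, rfl⟩
    have e3 : ‖H.starProjection w - q‖ ≤ R := mem_closedBall_iff_norm.1 (hR ⟨w, hw, rfl⟩)
    rw [e1, norm_add_sq_real, real_inner_smul_right, norm_smul, Real.norm_eq_abs, abs_of_pos hT0,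
      real_inner_comm]
    have e4 : ‖H.starProjection w - q‖ ^ 2 ≤ R ^ 2 := by
      have := norm_nonneg (H.starProjection w - q); nlinarith
    nlinarith [mul_nonneg hT0.le (neg_nonneg.2 e2)]
  have hy2 := h2 _ _ hK (cyl_inB b hxH hr0 (by positivity)) hsub hy
  rw [h3 x hxH _ _ hr0 (by positivity)] at hy2
  have e5 := (mem_cyl.1 hy2).1
  have e6 : p - x = (1 + T) • (p - q) := by rw [hx]; module
  rw [← hp, e6, norm_smul, Real.norm_eq_abs, abs_of_pos (by positivity)] at e5
  have e7 : ((1 + T) * ‖p - q‖) ^ 2 ≤ r ^ 2 := by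
    have : 0 ≤ (1 + T) * ‖p - q‖ := by positivity
    nlinarith
  rw [hr, Real.sq_sqrt (by positivity)] at e7
  nlinarith [sq_nonneg R, pow_pos hδ 2]

theorem near {K A : Set (En n)} (hK : InB b K) (hA : InB b A) (hAK : A ⊆ K) {x : En n} {ε : ℝ}
    (hε : 0 < ε) (hx : A ⊆ Metric.closedBall x ε) :
    ∃ y ∈ S K, ‖y - H.starProjection x‖ ≤ ε := by
  obtain ⟨s, hs⟩ := (hA.1.1.image (f := fun x => x - H.starProjection x)
    (by fun_prop)).isBounded.exists_norm_le
  have hxH := H.starProjection_apply_mem x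
  have hsub : A ⊆ cyl H (H.starProjection x) ε (|s| + 1) := by
    intro w hw
    refine mem_cyl.2 ⟨?_, (hs _ ⟨w, hw, rfl⟩).trans (by linarith [le_abs_self s])⟩
    rw [← map_sub]
    exact (H.norm_starProjection_apply_le _).trans (mem_closedBall_iff_norm.1 (hx hw))
  obtain ⟨y, hy⟩ := (h1 A hA).1.1.2.2
  have hy2 := h2 _ _ hA (cyl_inB b hxH hε (by positivity)) hsub hy
  rw [h3 _ hxH _ _ hε (by positivity)] at hy2
  exact ⟨_, h2 _ _ hA hK hAK (proj_mem (h1 A hA).1.1.2.1 (h1 A hA).2 hy), (mem_cyl.1 hy2).1⟩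

theorem proj_in {K : Set (En n)} (hK : InB b K) {x : En n} (hx : x ∈ K) :
    H.starProjection x ∈ S K := by
  have hcl : IsClosed (S K) := (h1 K hK).1.1.1.isClosed
  refine hcl.closure_subset (Metric.mem_closure_iff.2 fun ε hε => ?_)
  suffices h : ∃ A, InB b A ∧ A ⊆ K ∧ A ⊆ Metric.closedBall x (ε / 2) by
    obtain ⟨A, hA, hAK, hAx⟩ := h
    obtain ⟨y, hy, hy2⟩ := near h1 h2 h3 hK hA hAK (half_pos hε) hAx
    exact ⟨y, hy, by rw [dist_comm, dist_eq_norm]; linarith⟩
  refine ⟨K ∩ Metric.closedBall x (ε / 2), ⟨⟨hK.1.1.inter_right Metric.isClosed_closedBall,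
    hK.1.2.1.inter (convex_closedBall _ _), ⟨x, hx, Metric.mem_closedBall_self (by positivity)⟩⟩,
    fun hb => ?_⟩, inter_subset_left, inter_subset_right⟩
  have hxc : x ∈ closure (interior K) := by
    rw [hK.1.2.1.closure_interior_eq_closure_of_nonempty_interior (hK.2 hb)]
    exact subset_closure hx
  obtain ⟨w, hw, hwd⟩ := Metric.mem_closure_iff.1 hxc (ε / 2) (half_pos hε)
  refine ⟨w, ?_⟩
  rw [interior_inter]
  exact ⟨hw, Metric.ball_subset_interior_closedBall (by rw [Metric.mem_ball, dist_comm]; exact hwd)⟩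

theorem proj_eq {K : Set (En n)} (hK : InB b K) :
    H.starProjection '' S K = H.starProjection '' K := by
  refine (proj_sub h1 h2 h3 hK).antisymm ?_
  rintro _ ⟨x, hx, rfl⟩
  exact ⟨_, proj_in h1 h2 h3 hK hx,
    Submodule.starProjection_eq_self_iff.2 (H.starProjection_apply_mem x)⟩

end

end Pool.Agent.H22.Sym
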