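import Pool.Agent.H22.Sym4

set_option autoImplicit false

namespace Pool.Agent.H22.Sym

open MeasureTheory Set Filter Topology

variable {E : Type} [NormedAddCommGroup E] [InnerProductSpace ℝ E] [FiniteDimensional ℝ E]
  [MeasurableSpace E] [BorelSpace E]

set_option linter.unusedSectionVars false

theorem int_norm_wt (R : ℝ) : Integrable (fun v : E => R * ‖v‖ * wt v) := by
  have := (int_of_bound (E := E) continuous_norm zero_le_one (fun v => by simp)).const_mul R
  simpa [mul_assoc] using this

theorem int_of_bound' {f : E → ℝ} (hf : Measurable f) {R : ℝ}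
    (hb : ∀ v, |f v| ≤ R * ‖v‖) : Integrable (fun v => f v * wt v) := by
  refine Integrable.mono' (int_norm_wt R) (hf.mul wt_cont.measurable).aestronglyMeasurable
    (Eventually.of_forall fun v => ?_)
  rw [Real.norm_eq_abs, abs_mul, abs_of_pos (wt_pos v)]
  exact mul_le_mul_of_nonneg_right (hb v) (wt_pos v).le

theorem tlimit {a a' c : E → ℝ} (ha : Continuous a) (ha' : Continuous a') (hc : Continuous c)
    {R : ℝ} (hR : 0 ≤ R) (b1 : ∀ v, |a v| ≤ R * ‖v‖) (b2 : ∀ v, |a' v| ≤ R * ‖v‖)
    (b3 : ∀ v, |c v| ≤ R * ‖v‖) (h0 : volume {v | c v = 0} = 0)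
    (hle : ∀ t : ℝ, 0 < t → ∫ v, max (a' v) (t * c v) * wt v ≤ ∫ v, max (a v) (t * c v) * wt v) :
    0 ≤ ∫ v, (if c v < 0 then a v - a' v else 0) * wt v := by
  have hm : MeasurableSet {v | c v < 0} := (isOpen_lt hc continuous_const).measurableSet
  have hn : ∀ v : E, 0 ≤ R * ‖v‖ := fun v => mul_nonneg hR (norm_nonneg v)
  set G : ℕ → E → ℝ := fun k v => max (a v) (((k : ℝ) + 1) * c v) -
    (if c v < 0 then a' v else ((k : ℝ) + 1) * c v) with hG
  have hGm : ∀ k, Measurable (G k) := fun k =>
    (ha.max (continuous_const.mul hc)).measurable.sub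
      (Measurable.ite hm ha'.measurable (continuous_const.mul hc).measurable)
  have hGb : ∀ k v, |G k v| ≤ (2 * R) * ‖v‖ := by
    intro k v
    have t0 : (0 : ℝ) < (k : ℝ) + 1 := by positivity
    have e1 := abs_le.1 (b1 v)
    have e2 := abs_le.1 (b2 v)
    have e3 := hn v
    simp only [hG]
    rw [abs_le]
    split_ifs with hv
    · have : ((k : ℝ) + 1) * c v < 0 := mul_neg_of_pos_of_neg t0 hv
      constructor
      · linarith [le_max_left (a v) (((k : ℝ) + 1) * c v)]
      · have : max (a v) (((k : ℝ) + 1) * c v) ≤ R * ‖v‖ := max_le e1.2 (by linarith)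
        linarith
    · have : 0 ≤ ((k : ℝ) + 1) * c v := mul_nonneg t0.le (not_lt.1 hv)
      constructor
      · linarith [le_max_right (a v) (((k : ℝ) + 1) * c v)]
      · have : max (a v) (((k : ℝ) + 1) * c v) ≤ R * ‖v‖ + ((k : ℝ) + 1) * c v :=
          max_le (by linarith) (by linarith)
        linarith
  have hpos : ∀ k, 0 ≤ ∫ v, G k v * wt v := by
    intro k
    have t0 : (0 : ℝ) < (k : ℝ) + 1 := by positivity
    set t : ℝ := (k : ℝ) + 1 with ht
    have bt : ∀ v, |t * c v| ≤ (t * R) * ‖v‖ := fun v => by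
      rw [abs_mul, abs_of_pos t0, mul_assoc]; exact mul_le_mul_of_nonneg_left (b3 v) t0.le
    have hn2 : ∀ v : E, 0 ≤ (t * R) * ‖v‖ := fun v => by positivity
    have bm : ∀ f : E → ℝ, (∀ v, |f v| ≤ R * ‖v‖) →
        ∀ v, |max (f v) (t * c v)| ≤ (R + t * R) * ‖v‖ := fun f hf v => by
      refine (abs_max_le_max_abs_abs).trans (max_le ?_ ?_)
      · linarith [hf v, hn2 v]
      · linarith [bt v, hn v]
    have i1 : Integrable (fun v => max (a v) (t * c v) * wt v) := int_of_bound' (ha.max (continuous_const.mul hc)).measurable (bm a b1)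
    have i2 : Integrable (fun v => max (a' v) (t * c v) * wt v) := int_of_bound' (ha'.max (continuous_const.mul hc)).measurable (bm a' b2)
    have i3 : Integrable (fun v => (if c v < 0 then a' v else t * c v) * wt v) := by
      refine int_of_bound' (R := R + t * R)
        (Measurable.ite hm ha'.measurable (continuous_const.mul hc).measurable) fun v => ?_
      split_ifs
      · linarith [b2 v, hn2 v]
      · linarith [bt v, hn v]
    have e1 : ∫ v, G k v * wt v = (∫ v, max (a v) (t * c v) * wt v) -
        ∫ v, (if c v < 0 then a' v else t * c v) * wt v := by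
      rw [← integral_sub i1 i3]; congr 1; funext v; simp only [hG]; ring
    have e2 : ∫ v, (if c v < 0 then a' v else t * c v) * wt v ≤
        ∫ v, max (a' v) (t * c v) * wt v := by
      refine integral_mono i3 i2 fun v => mul_le_mul_of_nonneg_right ?_ (wt_pos v).le
      split_ifs
      · exact le_max_left _ _
      · exact le_max_right _ _
    linarith [hle t t0]
  have hlim : Tendsto (fun k => ∫ v, G k v * wt v) atTop
      (𝓝 (∫ v, (if c v < 0 then a v - a' v else 0) * wt v)) := by
    refine tendsto_integral_of_dominated_convergence (fun v => (2 * R) * ‖v‖ * wt v)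
      (fun k => ((hGm k).mul wt_cont.measurable).aestronglyMeasurable) (int_norm_wt _)
      (fun k => Eventually.of_forall fun v => ?_) ?_
    · rw [Real.norm_eq_abs, abs_mul, abs_of_pos (wt_pos v)]
      exact mul_le_mul_of_nonneg_right (hGb k v) (wt_pos v).le
    · have : ∀ᵐ v ∂(volume : Measure E), c v ≠ 0 := by
        rw [ae_iff]; simpa using h0
      filter_upwards [this] with v hv
      refine Tendsto.mul_const _ (tendsto_const_nhds.congr' ?_)
      obtain ⟨N, hN⟩ := exists_nat_gt (|a v| / |c v|)
      have hcv : 0 < |c v| := abs_pos.2 hv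
      filter_upwards [eventually_ge_atTop N] with k hk
      have hk' : (N : ℝ) ≤ k := by exact_mod_cast hk
      have h1 : |a v| < ((k : ℝ) + 1) * |c v| := by
        rw [div_lt_iff₀ hcv] at hN; nlinarith
      simp only [hG]
      split_ifs with hv0
      · rw [abs_of_neg hv0] at h1
        rw [max_eq_left (by linarith [neg_abs_le (a v)])]
      · have hv1 : 0 < c v := lt_of_le_of_ne (not_lt.1 hv0) (Ne.symm hv)
        rw [abs_of_pos hv1] at h1
        rw [max_eq_right (by linarith [le_abs_self (a v)]), sub_self]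
  exact ge_of_tendsto' hlim hpos

/-- Support function of the ball of radius one half around e. -/
noncomputable def gam (e v : E) : ℝ := inner ℝ e v + ‖v‖ / 2

theorem gam_cont (e : E) : Continuous (gam e) := by unfold gam; fun_prop

theorem gam_null {e : E} (he : ‖e‖ = 1) (M : E →L[ℝ] E) (hM : M e = e) :
    volume {w | gam e (M w) = 0} = 0 := by
  have hconv : Convex ℝ {w | gam e (M w) ≤ 0} := by
    intro x hx y hy a b ha hb _
    simp only [mem_ofPred_eq, gam, map_add, map_smul, inner_add_right, real_inner_smul_right] at *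
    have h1 : ‖a • M x + b • M y‖ ≤ a * ‖M x‖ + b * ‖M y‖ := by
      refine (norm_add_le _ _).trans ?_
      rw [norm_smul, norm_smul, Real.norm_eq_abs, Real.norm_eq_abs, abs_of_nonneg ha,
        abs_of_nonneg hb]
    nlinarith [mul_nonneg ha (neg_nonneg.2 hx), mul_nonneg hb (neg_nonneg.2 hy)]
  refine measure_mono_null ?_ (hconv.addHaar_frontier volume)
  intro w hw
  refine ⟨subset_closure (le_of_eq hw), fun hi => ?_⟩
  rw [mem_interior_iff_mem_nhds, Metric.mem_nhds_iff] at hi
  obtain ⟨r, hr, hb⟩ := hi
  have h1 : w + (r / 2) • e ∈ Metric.ball w r := by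
    rw [mem_ball_iff_norm, add_sub_cancel_left, norm_smul, he, Real.norm_eq_abs,
      abs_of_pos (half_pos hr)]
    linarith
  have h2 := hb h1
  simp only [mem_ofPred_eq, gam, map_add, map_smul, hM, inner_add_right, real_inner_smul_right,
    real_inner_self_eq_norm_sq, he] at h2 hw
  have h3 : ‖M w‖ ≤ ‖M w + (r / 2) • e‖ + r / 2 := by
    have := norm_sub_le (M w + (r / 2) • e) ((r / 2) • e)
    rw [add_sub_cancel_right, norm_smul, he, Real.norm_eq_abs, abs_of_pos (half_pos hr)] at this
    linarith
  linarith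

theorem cov (L M : E →L[ℝ] E) (hML : ∀ v, M (L v) = v) {f : E → ℝ} (hf : Measurable f)
    (h0 : 0 ≤ ∫ v, f v) : 0 ≤ ∫ v, f (L v) := by
  have hdet : LinearMap.det (L : E →ₗ[ℝ] E) ≠ 0 := by
    have : (M : E →ₗ[ℝ] E).comp (L : E →ₗ[ℝ] E) = LinearMap.id := by ext v; simp [hML]
    have h2 := congrArg LinearMap.det this
    rw [LinearMap.det_comp, LinearMap.det_id] at h2
    intro h; rw [h, mul_zero] at h2; exact zero_ne_one h2
  have h1 := Measure.map_linearMap_addHaar_eq_smul_addHaar (volume : Measure E) hdet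
  have h2 : ∫ v, f (L v) = ∫ v, f v ∂(Measure.map (L : E →ₗ[ℝ] E) volume) := by
    exact (integral_map (L.continuous.measurable.aemeasurable) hf.aestronglyMeasurable).symm
  rw [h2, h1, integral_smul_measure]
  exact smul_nonneg ENNReal.toReal_nonneg h0

theorem strict {Z : Set E} (hZ : IsCompact Z) (hc : Convex ℝ Z) (hn : Z.Nonempty) {j : E → ℝ}
    (hj : Continuous j) (hi : Integrable (fun v => j v * wt v)) (hle : ∀ v, h Z v ≤ j v)
    (hint : ∫ v, j v * wt v ≤ ∫ v, h Z v * wt v) {y : E} (hy : ∀ v, inner ℝ y v ≤ j v) :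
    y ∈ Z := by
  have heq : ∀ v, j v ≤ h Z v := by
    intro v
    by_contra hv
    have hpos : 0 < ∫ v, (j v * wt v - h Z v * wt v) := by
      refine integral_pos_of_integrable_nonneg_nonzero (x := v)
        ((hj.mul wt_cont).sub ((h_cont hZ).mul wt_cont)) (hi.sub (int_h hZ hn))
        (fun w => ?_) ?_
      · have := mul_le_mul_of_nonneg_right (hle w) (wt_pos w).le
        simpa using this
      · have := mul_pos (sub_pos.2 (not_le.1 hv)) (wt_pos v)
        rw [sub_mul] at this; exact this.ne'
    rw [integral_sub hi (int_h hZ hn)] at hpos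
    linarith
  by_contra hyK
  obtain ⟨f, c, hf, hfy⟩ := geometric_hahn_banach_closed_point hc hZ.isClosed hyK
  set u := (InnerProductSpace.toDual ℝ E).symm f with hu
  have hfu : ∀ z, inner ℝ z u = f z := fun z => by
    rw [real_inner_comm, hu, InnerProductSpace.toDual_symm_apply]
  have h1 := (hy u).trans (heq u)
  obtain ⟨x, hx, hxu, -⟩ := exists_h hZ hn u
  rw [hxu, hfu, hfu] at h1
  linarith [hf x hx]

theorem int_inner (y : E) : Integrable (fun v : E => inner ℝ y v * wt v) :=
  int_of_bound (by fun_prop) (norm_nonneg y) (fun v => abs_real_inner_le_norm y v)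

theorem int_inner_zero (y : E) : ∫ v : E, inner ℝ y v * wt v = 0 := by
  have := integral_neg_eq_self (fun v : E => inner ℝ y v * wt v) volume
  simp only [inner_neg_right, wt_neg, neg_mul, integral_neg] at this
  linarith

end Pool.Agent.H22.Sym
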