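import Pool.Agent.H22.Sym5

set_option autoImplicit false

namespace Pool.Agent.H22.Sym

open MeasureTheory Set Filter Topology

variable {E : Type} [NormedAddCommGroup E] [InnerProductSpace ℝ E] [FiniteDimensional ℝ E]
  [MeasurableSpace E] [BorelSpace E]

set_option linter.unusedSectionVars false

/-- Projection on the plane of e and c. -/
noncomputable def Pj (e c : E) : E →L[ℝ] E :=
  (innerSL ℝ e).smulRight e + (innerSL ℝ c).smulRight c

/-- Identity on the plane, scaling on its complement. -/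
noncomputable def Lm (e c : E) (s : ℝ) : E →L[ℝ] E :=
  s • ContinuousLinearMap.id ℝ E + (1 - s) • Pj e c

theorem Pj_apply (e c v : E) : Pj e c v = (inner ℝ e v : ℝ) • e + (inner ℝ c v : ℝ) • c := by
  simp [Pj]

theorem Lm_apply (e c : E) (s : ℝ) (v : E) : Lm e c s v = s • v + (1 - s) • Pj e c v := by
  simp [Lm]

theorem Pj_symm (e c v w : E) : inner ℝ (Pj e c v) w = (inner ℝ v (Pj e c w) : ℝ) := by
  simp only [Pj_apply, inner_add_left, inner_add_right, real_inner_smul_left,
    real_inner_smul_right, real_inner_comm e v, real_inner_comm c v]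
  ring

theorem Lm_symm (e c : E) (s : ℝ) (v w : E) :
    inner ℝ (Lm e c s v) w = (inner ℝ v (Lm e c s w) : ℝ) := by
  simp only [Lm_apply, inner_add_left, inner_add_right, real_inner_smul_left,
    real_inner_smul_right, Pj_symm]

theorem int_dom (R : ℝ) : Integrable (fun v : E => R * (‖v‖ * Real.exp (-‖v‖ ^ 2 / 4))) := by
  refine Integrable.const_mul ?_ R
  have hg : Integrable (fun v : E => Real.exp (-(1 / 8) * ‖v‖ ^ 2)) := by
    have := (GaussianFourier.integrable_cexp_neg_mul_sq_norm_add (V := E) (b := (1 / 8 : ℂ))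
      (by norm_num) 0 0).norm
    refine this.congr (Filter.Eventually.of_forall fun v => ?_)
    simp only [zero_mul, add_zero, Complex.norm_exp]
    congr 1
    have : (-(1 / 8 : ℂ) * (‖v‖ : ℂ) ^ 2) = ((-(1 / 8) * ‖v‖ ^ 2 : ℝ) : ℂ) := by push_cast; ring
    rw [this, Complex.ofReal_re]
  refine Integrable.mono' (hg.const_mul 2) (by fun_prop) (Eventually.of_forall fun v => ?_)
  rw [Real.norm_eq_abs, abs_of_nonneg (by positivity)]
  have h1 : ‖v‖ ≤ 2 * Real.exp ((1 / 8) * ‖v‖ ^ 2) := by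
    have := Real.add_one_le_exp ((1 / 8) * ‖v‖ ^ 2)
    nlinarith [sq_nonneg (‖v‖ - 2)]
  have h2 : Real.exp (-(1 / 8) * ‖v‖ ^ 2) =
      Real.exp ((1 / 8) * ‖v‖ ^ 2) * Real.exp (-‖v‖ ^ 2 / 4) := by
    rw [← Real.exp_add]; congr 1; ring
  rw [h2, ← mul_assoc]
  exact mul_le_mul_of_nonneg_right h1 (Real.exp_pos _).le

section
variable {e c : E} (he : ‖e‖ = 1) (hc : ‖c‖ = 1) (hec : inner ℝ e c = (0 : ℝ))
include he hc hec

theorem e_Pj (v : E) : inner ℝ e (Pj e c v) = (inner ℝ e v : ℝ) := by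
  simp [Pj_apply, inner_add_right, real_inner_smul_right, hec, he]

theorem c_Pj (v : E) : inner ℝ c (Pj e c v) = (inner ℝ c v : ℝ) := by
  have : inner ℝ c e = (0 : ℝ) := by rw [real_inner_comm, hec]
  simp [Pj_apply, inner_add_right, real_inner_smul_right, this, hc]

theorem Pj_Pj (v : E) : Pj e c (Pj e c v) = Pj e c v := by
  rw [Pj_apply e c (Pj e c v), e_Pj he hc hec, c_Pj he hc hec, ← Pj_apply]

theorem Pj_norm (v : E) : ‖Pj e c v‖ ≤ ‖v‖ := by
  have h1 : ‖Pj e c v‖ ^ 2 = inner ℝ v (Pj e c v) := by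
    rw [← real_inner_self_eq_norm_sq, Pj_symm, Pj_Pj he hc hec]
  have h2 := real_inner_le_norm v (Pj e c v)
  by_contra hlt
  push Not at hlt
  nlinarith [norm_nonneg v]

theorem Lm_inv {s : ℝ} (hs : s ≠ 0) (v : E) : Lm e c s⁻¹ (Lm e c s v) = v := by
  rw [Lm_apply, Lm_apply, map_add, map_smul, map_smul, Pj_Pj he hc hec]
  match_scalars <;> field_simp <;> ring

theorem Lm_e (s : ℝ) : Lm e c s e = e := by
  have : inner ℝ c e = (0 : ℝ) := by rw [real_inner_comm, hec]
  rw [Lm_apply, Pj_apply, this, real_inner_self_eq_norm_sq, he]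
  module

theorem Lm_norm {s : ℝ} (h0 : 0 ≤ s) (h1 : s ≤ 1) (v : E) : ‖Lm e c s v‖ ≤ ‖v‖ := by
  rw [Lm_apply]
  refine (norm_add_le _ _).trans ?_
  rw [norm_smul, norm_smul, Real.norm_eq_abs, Real.norm_eq_abs, abs_of_nonneg h0,
    abs_of_nonneg (sub_nonneg.2 h1)]
  nlinarith [mul_le_mul_of_nonneg_left (Pj_norm he hc hec v) (sub_nonneg.2 h1)]

theorem wt_le {s : ℝ} {v : E} (hv : gam e v < 0) :
    wt (Lm e c s v) ≤ Real.exp (-‖v‖ ^ 2 / 4) := by
  unfold wt
  apply Real.exp_le_exp.2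
  have h1 : inner ℝ e (Lm e c s v) = (inner ℝ e v : ℝ) := by
    rw [← Lm_symm, Lm_e he hc hec]
  have h2 := abs_real_inner_le_norm e (Lm e c s v)
  rw [h1, he, one_mul] at h2
  unfold gam at hv
  have h3 : ‖v‖ / 2 ≤ ‖Lm e c s v‖ := by linarith [neg_abs_le (inner ℝ e v : ℝ)]
  nlinarith [norm_nonneg v]

theorem bound_aux {f : E → ℝ} {R : ℝ} (hb : ∀ v, |f v| ≤ R * ‖v‖) (s : ℝ) (v : E) :
    ‖(if gam e v < 0 then f v else 0) * wt (Lm e c s v)‖ ≤
      R * (‖v‖ * Real.exp (-‖v‖ ^ 2 / 4)) := by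
  rw [Real.norm_eq_abs, abs_mul, abs_of_pos (wt_pos _), ← mul_assoc]
  have h0 : 0 ≤ R * ‖v‖ := (abs_nonneg _).trans (hb v)
  split_ifs with hv
  · exact mul_le_mul (hb v) (wt_le he hc hec hv) (wt_pos _).le h0
  · rw [abs_zero, zero_mul]; positivity

theorem meas_aux {f : E → ℝ} (hf : Continuous f) (s : ℝ) :
    Measurable (fun v => (if gam e v < 0 then f v else 0) * wt (Lm e c s v)) :=
  (Measurable.ite (isOpen_lt (gam_cont e) continuous_const).measurableSet hf.measurable
    measurable_const).mul (wt_cont.comp (Lm e c s).continuous).measurable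

theorem int_aux {f : E → ℝ} (hf : Continuous f) {R : ℝ} (hb : ∀ v, |f v| ≤ R * ‖v‖) (s : ℝ) :
    Integrable (fun v => (if gam e v < 0 then f v else 0) * wt (Lm e c s v)) :=
  Integrable.mono' (int_dom R) (meas_aux he hc hec hf s).aestronglyMeasurable
    (Eventually.of_forall (bound_aux he hc hec hb s))

theorem core {a a' : E → ℝ} (ha : Continuous a) (ha' : Continuous a') {R : ℝ} (hR : 0 ≤ R)
    (b1 : ∀ v, |a v| ≤ R * ‖v‖) (b2 : ∀ v, |a' v| ≤ R * ‖v‖)
    (hle : ∀ s : ℝ, 0 < s → ∀ t : ℝ, 0 < t →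
      ∫ v, max (a' v) (t * gam e (Lm e c s⁻¹ v)) * wt v ≤
        ∫ v, max (a v) (t * gam e (Lm e c s⁻¹ v)) * wt v) :
    0 ≤ ∫ v, (if gam e v < 0 then a (Lm e c 0 v) - a' (Lm e c 0 v) else 0) * wt (Lm e c 0 v) := by
  have step : ∀ s : ℝ, 0 < s →
      0 ≤ ∫ v, (if gam e v < 0 then a (Lm e c s v) - a' (Lm e c s v) else 0) * wt (Lm e c s v) := by
    intro s hs
    set M := Lm e c s⁻¹ with hM
    have hgc : Continuous (fun v => gam e (M v)) := (gam_cont e).comp M.continuous
    have hn : ∀ v : E, 0 ≤ 2 * ‖M‖ * ‖v‖ := fun v => by positivity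
    have hn' : ∀ v : E, 0 ≤ R * ‖v‖ := fun v => by positivity
    have h1 := tlimit ha ha' hgc (R := R + 2 * ‖M‖) (by positivity)
      (fun v => by linarith [b1 v, hn v]) (fun v => by linarith [b2 v, hn v])
      (fun v => by
        have e1 := abs_le.1 (abs_real_inner_le_norm e (M v))
        rw [he, one_mul] at e1
        have e2 := M.le_opNorm v
        have e3 := norm_nonneg (M v)
        unfold gam
        rw [abs_le]; constructor <;> nlinarith [hn' v])
      (gam_null he M (Lm_e he hc hec _)) (hle s hs)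
    have h2 := cov (Lm e c s) M (Lm_inv he hc hec hs.ne')
      ((Measurable.ite (isOpen_lt hgc continuous_const).measurableSet (ha.sub ha').measurable
        measurable_const).mul wt_cont.measurable) h1
    simpa only [hM, Lm_inv he hc hec hs.ne', Pi.sub_apply, Pi.mul_apply] using h2
  have hs0 : Tendsto (fun k : ℕ => (1 : ℝ) / ((k : ℝ) + 1)) atTop (𝓝 0) :=
    tendsto_one_div_add_atTop_nhds_zero_nat
  refine ge_of_tendsto' (x := atTop) ?_ (fun k : ℕ => step (1 / ((k : ℝ) + 1)) (by positivity))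
  refine tendsto_integral_of_dominated_convergence
    (fun v => (2 * R) * (‖v‖ * Real.exp (-‖v‖ ^ 2 / 4)))
    (fun k => (meas_aux he hc hec ((ha.comp (Lm e c _).continuous).sub
      (ha'.comp (Lm e c _).continuous)) _).aestronglyMeasurable) (int_dom _)
    (fun k => Eventually.of_forall fun v => ?_) (Eventually.of_forall fun v => ?_)
  · refine bound_aux he hc hec (f := fun v => a (Lm e c (1 / ((k : ℝ) + 1)) v) -
      a' (Lm e c (1 / ((k : ℝ) + 1)) v)) (fun w => ?_) _ v
    have k1 : (1 : ℝ) / ((k : ℝ) + 1) ≤ 1 := by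
      rw [div_le_one (by positivity)]; linarith [Nat.cast_nonneg (α := ℝ) k]
    have k2 := mul_le_mul_of_nonneg_left (Lm_norm he hc hec (by positivity) k1 w) hR
    refine (abs_sub _ _).trans ?_
    linarith [b1 (Lm e c (1 / ((k : ℝ) + 1)) w), b2 (Lm e c (1 / ((k : ℝ) + 1)) w)]
  · have hL : Continuous (fun s : ℝ => Lm e c s v) := by
      simp only [Lm_apply]; fun_prop
    have hL2 := (hL.tendsto 0).comp hs0
    refine Tendsto.mul ?_ ((wt_cont.tendsto _).comp hL2)
    split_ifs
    · exact ((ha.tendsto _).comp hL2).sub ((ha'.tendsto _).comp hL2)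
    · exact tendsto_const_nhds

theorem odd_zero : ∫ v, (if gam e v < 0 then (inner ℝ c v : ℝ) else 0) * wt (Lm e c 0 v) = 0 := by
  set σ := (ℝ ∙ c)ᗮ.reflection with hσ
  have hσc : σ c = -c := Submodule.reflection_orthogonalComplement_singleton_eq_neg c
  have hσe : σ e = e := Submodule.reflection_mem_subspace_eq_self
    (Submodule.mem_orthogonal_singleton_iff_inner_left.2 hec)
  have hσσ : ∀ v, σ (σ v) = v := Submodule.reflection_reflection _
  have h1 : ∀ v, inner ℝ c (σ v) = -(inner ℝ c v : ℝ) := fun v => by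
    rw [← σ.inner_map_map, hσσ, hσc, inner_neg_left]
  have h2 : ∀ v, inner ℝ e (σ v) = (inner ℝ e v : ℝ) := fun v => by
    rw [← σ.inner_map_map, hσσ, hσe]
  have h3 : ∀ v, Lm e c 0 (σ v) = σ (Lm e c 0 v) := fun v => by
    simp only [Lm_apply, Pj_apply, h1, h2, map_add, map_smul, hσc, hσe]
    module
  have h4 := (σ.measurePreserving).integral_comp σ.toHomeomorph.measurableEmbedding
    (fun v => (if gam e v < 0 then (inner ℝ c v : ℝ) else 0) * wt (Lm e c 0 v))
  have h5 : ∀ v, (if gam e (σ v) < 0 then (inner ℝ c (σ v) : ℝ) else 0) * wt (Lm e c 0 (σ v)) =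
      -((if gam e v < 0 then (inner ℝ c v : ℝ) else 0) * wt (Lm e c 0 v)) := fun v => by
    have g1 : gam e (σ v) = gam e v := by unfold gam; rw [h2, σ.norm_map]
    have g2 : wt (Lm e c 0 (σ v)) = wt (Lm e c 0 v) := by unfold wt; rw [h3, σ.norm_map]
    rw [g1, g2, h1]
    split_ifs <;> ring
  simp only [h5, integral_neg] at h4
  linarith

theorem core2 : ∃ κ : ℝ, ∀ (f : E → ℝ) (R α β δ : ℝ), Continuous f → (∀ v, |f v| ≤ R * ‖v‖) →
    0 ≤ ∫ v, (if gam e v < 0 then f v else 0) * wt (Lm e c 0 v) →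
    (∀ v, f v ≤ α * |(inner ℝ c v : ℝ)| + β * inner ℝ c v + δ * ‖v‖) → 0 ≤ α + κ * δ := by
  have bc : ∀ v, |(inner ℝ c v : ℝ)| ≤ 1 * ‖v‖ := fun v => by
    have := abs_real_inner_le_norm c v
    rwa [hc] at this
  have i1 := int_aux he hc hec (f := fun v => |(inner ℝ c v : ℝ)|) (by fun_prop) (R := 1)
    (fun v => by rw [abs_abs]; exact bc v) 0
  have i2 := int_aux he hc hec (f := fun v => (inner ℝ c v : ℝ)) (by fun_prop) bc 0
  have i3 := int_aux he hc hec (f := fun v : E => ‖v‖) (by fun_prop) (R := 1)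
    (fun v => by simp) 0
  set I := ∫ v, (if gam e v < 0 then |(inner ℝ c v : ℝ)| else 0) * wt (Lm e c 0 v) with hI
  set J := ∫ v, (if gam e v < 0 then ‖v‖ else 0) * wt (Lm e c 0 v) with hJ
  have hIpos : 0 < I := by
    rw [hI, integral_pos_iff_support_of_nonneg (fun v => mul_nonneg (by
      split_ifs; exacts [abs_nonneg _, le_rfl]) (wt_pos _).le) i1]
    have ho1 : IsOpen {v | gam e v < 0} := isOpen_lt (gam_cont e) continuous_const
    have ho2 : IsOpen {v : E | (0 : ℝ) < inner ℝ c v} := isOpen_lt continuous_const (by fun_prop)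
    have hce : inner ℝ c e = (0 : ℝ) := by rw [real_inner_comm, hec]
    refine lt_of_lt_of_le ((ho1.inter ho2).measure_pos volume ⟨c - (2 : ℝ) • e, ?_, ?_⟩)
      (measure_mono fun v hv => ?_)
    · have := norm_sub_le c ((2 : ℝ) • e)
      rw [norm_smul, he, hc] at this
      simp only [mem_ofPred_eq, gam, inner_sub_right, real_inner_smul_right, hec,
        real_inner_self_eq_norm_sq, he]
      norm_num at this ⊢
      linarith
    · simp [inner_sub_right, real_inner_smul_right, hce, hc]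
    · have h1 : gam e v < 0 := hv.1
      have h2 : (0 : ℝ) < inner ℝ c v := hv.2
      rw [Function.mem_support, if_pos h1]
      exact (mul_pos (abs_pos.2 h2.ne') (wt_pos _)).ne'
  refine ⟨J / I, fun f R α β δ hf hb h0 hle => ?_⟩
  have j1 : Integrable (fun v => α * ((if gam e v < 0 then |(inner ℝ c v : ℝ)| else 0) *
      wt (Lm e c 0 v)) + β * ((if gam e v < 0 then (inner ℝ c v : ℝ) else 0) * wt (Lm e c 0 v))) :=
    (i1.const_mul _).add (i2.const_mul _)
  have j2 : ∫ v, (α * ((if gam e v < 0 then |(inner ℝ c v : ℝ)| else 0) *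
      wt (Lm e c 0 v)) + β * ((if gam e v < 0 then (inner ℝ c v : ℝ) else 0) * wt (Lm e c 0 v)) +
      δ * ((if gam e v < 0 then ‖v‖ else 0) * wt (Lm e c 0 v))) = α * I + δ * J := by
    rw [integral_add j1 (i3.const_mul _), integral_add (i1.const_mul _) (i2.const_mul _),
      integral_const_mul, integral_const_mul, integral_const_mul, odd_zero he hc hec]
    ring
  have h1 : ∫ v, (if gam e v < 0 then f v else 0) * wt (Lm e c 0 v) ≤ α * I + δ * J := by
    rw [← j2]
    refine integral_mono (int_aux he hc hec hf hb 0) (j1.add (i3.const_mul _)) fun v => ?_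
    simp only
    split_ifs
    · nlinarith [mul_le_mul_of_nonneg_right (hle v) (wt_pos (Lm e c 0 v)).le]
    · simp
  have h2 : 0 ≤ (α + J / I * δ) * I := by
    have : (α + J / I * δ) * I = α * I + δ * J := by field_simp
    linarith
  exact nonneg_of_mul_nonneg_left h2 hIpos

end

end Pool.Agent.H22.Sym
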