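import Pool.Agent.H22.Sym6

set_option autoImplicit false

namespace Pool.Agent.H22.Sym

open MeasureTheory Set Filter Topology

set_option linter.unusedSectionVars false

variable {n : ℕ} {H : Submodule ℝ (En n)}

theorem P_Rf (p : En n) : H.starProjection ((2 : ℝ) • H.starProjection p - p) = H.starProjection p := by
  rw [map_sub, map_smul, Submodule.starProjection_eq_self_iff.2 (H.starProjection_apply_mem p)]
  module

theorem hsym_iff {K : Set (En n)} :
    HSym H K ↔ ∀ p ∈ K, (2 : ℝ) • H.starProjection p - p ∈ K := by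
  constructor
  · intro hs p hp; rw [← hs]; exact ⟨p, hp, rfl⟩
  · intro hs
    apply Subset.antisymm
    · rintro _ ⟨p, hp, rfl⟩; exact hs p hp
    · intro p hp
      exact ⟨_, hs p hp, by simp only [P_Rf]; module⟩

theorem inner_P {v : En n} (hv : v ∈ H) (p : En n) :
    inner ℝ v (H.starProjection p) = (inner ℝ v p : ℝ) := by
  have := (Submodule.mem_orthogonal _ _).1 (H.sub_starProjection_mem_orthogonal p) v hv
  rw [inner_sub_right] at this; linarith

theorem inner_P0 {v : En n} (hv : v ∈ Hᗮ) (p : En n) :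
    inner ℝ v (H.starProjection p) = (0 : ℝ) := by
  rw [real_inner_comm]
  exact (Submodule.mem_orthogonal _ _).1 hv _ (H.starProjection_apply_mem p)

theorem norm_Rf (p : En n) : ‖(2 : ℝ) • H.starProjection p - p‖ = ‖p‖ := by
  have := H.reflection.norm_map p
  rwa [Submodule.reflection_apply, two_smul, ← two_smul ℝ] at this

theorem cyl_sym (x : En n) (r s : ℝ) : HSym H (cyl H x r s) := by
  refine hsym_iff.2 fun p hp => ?_
  obtain ⟨h1, h2⟩ := mem_cyl.1 hp
  refine mem_cyl.2 ⟨by rwa [P_Rf], ?_⟩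
  rw [P_Rf]
  have : (2 : ℝ) • H.starProjection p - p - H.starProjection p = -(p - H.starProjection p) := by
    module
  rwa [this, norm_neg]

theorem h_iInter {Z : ℕ → Set (En n)} (hZ : ∀ m, IsCompact (Z m)) (hn : ∀ m, (Z m).Nonempty)
    (ha : ∀ m, Z (m + 1) ⊆ Z m) (v : En n) :
    Tendsto (fun m => h (Z m) v) atTop (𝓝 (h (⋂ m, Z m) v)) := by
  have hI : IsCompact (⋂ m, Z m) :=
    (hZ 0).of_isClosed_subset (isClosed_iInter fun m => (hZ m).isClosed) (iInter_subset _ 0)
  have hIn : (⋂ m, Z m).Nonempty := IsCompact.nonempty_iInter_of_sequence_nonempty_isCompact_isClosed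
    Z ha hn (hZ 0) fun m => (hZ m).isClosed
  have hlow : ∀ m, h (⋂ m, Z m) v ≤ h (Z m) v := fun m =>
    h_mono hI hIn (hZ m) (iInter_subset _ m) v
  have hanti : Antitone fun m => h (Z m) v :=
    antitone_nat_of_succ_le fun m => h_mono (hZ _) (hn _) (hZ _) (ha m) v
  have hbd : BddBelow (range fun m => h (Z m) v) := ⟨_, by rintro _ ⟨m, rfl⟩; exact hlow m⟩
  have ht := tendsto_atTop_ciInf hanti hbd
  have hcl : IsClosed {p : En n | ⨅ m, h (Z m) v ≤ inner ℝ p v} :=
    isClosed_le continuous_const (by fun_prop)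
  obtain ⟨p, hp⟩ := IsCompact.nonempty_iInter_of_sequence_nonempty_isCompact_isClosed
    (fun m => Z m ∩ {p : En n | ⨅ m, h (Z m) v ≤ inner ℝ p v})
    (fun m => inter_subset_inter_left _ (ha m))
    (fun m => by
      obtain ⟨x, hx, hxv, -⟩ := exists_h (hZ m) (hn m) v
      exact ⟨x, hx, by rw [mem_ofPred_eq, ← hxv]; exact ciInf_le hbd m⟩)
    ((hZ 0).inter_right hcl) fun m => (hZ m).isClosed.inter hcl
  have h1 : ⨅ m, h (Z m) v ≤ h (⋂ m, Z m) v :=
    le_trans (mem_iInter.1 hp 0).2 (le_h hI v (mem_iInter.2 fun m => (mem_iInter.1 hp m).1))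
  rwa [le_antisymm h1 (le_ciInf hlow)] at ht

theorem ell {b : Bool} {e c : En n} (heH : e ∈ H) (hcH : c ∈ Hᗮ) (he : ‖e‖ = 1) (hc : ‖c‖ = 1)
    {s t : ℝ} (hs : 0 < s) (ht : 0 < t) : ∃ C, InB b C ∧ HSym H C ∧
      ∀ w, h C w = t * gam e (Lm e c s⁻¹ w) := by
  have hec : inner ℝ e c = (0 : ℝ) := (Submodule.mem_orthogonal _ _).1 hcH e heH
  have i1 := Lm_inv he hc hec hs.ne'
  have i2 : ∀ v, Lm e c s (Lm e c s⁻¹ v) = v := fun v => by
    have := Lm_inv he hc hec (inv_ne_zero hs.ne') v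
    rwa [inv_inv] at this
  have hte : Lm e c s (t • e) = t • e := by rw [map_smul, Lm_e he hc hec]
  have hcpt : IsCompact (Lm e c s ⁻¹' Metric.closedBall (t • e) (t / 2)) := by
    have : Lm e c s ⁻¹' Metric.closedBall (t • e) (t / 2) =
        Lm e c s⁻¹ '' Metric.closedBall (t • e) (t / 2) := by
      ext p
      exact ⟨fun hp => ⟨_, hp, i1 p⟩, by rintro ⟨q, hq, rfl⟩; rwa [mem_preimage, i2]⟩
    rw [this]
    exact (isCompact_closedBall _ _).image (Lm e c s⁻¹).continuous
  have hint : t • e ∈ interior (Lm e c s ⁻¹' Metric.closedBall (t • e) (t / 2)) := by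
    refine interior_maximal (preimage_mono Metric.ball_subset_closedBall)
      (Metric.isOpen_ball.preimage (Lm e c s).continuous) ?_
    rw [mem_preimage, hte]; exact Metric.mem_ball_self (half_pos ht)
  refine ⟨Lm e c s ⁻¹' Metric.closedBall (t • e) (t / 2), ⟨⟨hcpt,
    (convex_closedBall _ _).linear_preimage (Lm e c s).toLinearMap, ⟨_, interior_subset hint⟩⟩,
    fun _ => ⟨_, hint⟩⟩, hsym_iff.2 fun p hp => ?_, fun w => ?_⟩
  · rw [mem_preimage, mem_closedBall_iff_norm] at hp ⊢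
    have hPe : H.starProjection e = e := Submodule.starProjection_eq_self_iff.2 heH
    have hPc : H.starProjection c = 0 := (Submodule.starProjection_apply_eq_zero_iff H).2 hcH
    have : Lm e c s ((2 : ℝ) • H.starProjection p - p) - t • e =
        (2 : ℝ) • H.starProjection (Lm e c s p - t • e) - (Lm e c s p - t • e) := by
      simp only [Lm_apply, Pj_apply, map_sub, map_add, map_smul, hPe, hPc, inner_sub_right,
        real_inner_smul_right, inner_P heH, inner_P0 hcH]
      module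
    rwa [this, norm_Rf]
  · set z := Lm e c s⁻¹ w with hz
    have key : ∀ p, inner ℝ p w = (inner ℝ (Lm e c s p) z : ℝ) := fun p => by
      rw [Lm_symm, hz, i2]
    apply le_antisymm
    · obtain ⟨p, hp, hpw, -⟩ := exists_h hcpt ⟨_, interior_subset hint⟩ w
      rw [mem_preimage, mem_closedBall_iff_norm] at hp
      have e1 := real_inner_le_norm (Lm e c s p - t • e) z
      rw [inner_sub_left, real_inner_smul_left] at e1
      rw [hpw, key]
      unfold gam
      nlinarith [mul_le_mul_of_nonneg_right hp (norm_nonneg z)]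
    · have hm : Lm e c s⁻¹ (t • e + (t / 2) • ‖z‖⁻¹ • z) ∈
          Lm e c s ⁻¹' Metric.closedBall (t • e) (t / 2) := by
        rw [mem_preimage, i2, mem_closedBall_iff_norm, add_sub_cancel_left, norm_smul, norm_smul,
          Real.norm_eq_abs, abs_of_pos (half_pos ht), norm_inv, norm_norm]
        have := inv_mul_le_one (a := ‖z‖)
        nlinarith
      have e1 := le_h hcpt w hm
      rw [key, i2, inner_add_left, real_inner_smul_left, real_inner_smul_left,
        real_inner_smul_left, real_inner_self_eq_norm_sq] at e1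
      have e2 : ‖z‖⁻¹ * ‖z‖ ^ 2 = ‖z‖ := by
        by_cases h0 : ‖z‖ = 0
        · simp [h0]
        · field_simp
      rw [e2] at e1
      unfold gam
      linarith

section
variable {b : Bool} {S : Set (En n) → Set (En n)}
  (h1 : ∀ K, InB b K → InB b (S K) ∧ HSym H (S K))
  (h2 : ∀ K L, InB b K → InB b L → K ⊆ L → S K ⊆ S L)
  (h3 : ∀ K, InB b K → ∫ v, h (S K) v * wt v = ∫ v, h K v * wt v)
  (h4 : ∀ K, InB b K → HSym H K → S K = K)
include h1 h2 h3 h4

theorem hull {A C : Set (En n)} (hA : InB b A) (hC : InB b C) (hs : HSym H C) :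
    ∫ v, max (h (S A) v) (h C v) * wt v ≤ ∫ v, max (h A v) (h C v) * wt v := by
  have im : ∀ K, InB b K → ∃ R, 0 ≤ R ∧ (∀ v, |max (h K v) (h C v)| ≤ R * ‖v‖) ∧
      Integrable (fun v => max (h K v) (h C v) * wt v) := by
    intro K hK
    obtain ⟨R1, p1, q1⟩ := h_bound hK.1.1 hK.1.2.2
    obtain ⟨R2, p2, q2⟩ := h_bound hC.1.1 hC.1.2.2
    have : ∀ v, |max (h K v) (h C v)| ≤ (R1 + R2) * ‖v‖ := fun v => by
      refine (abs_max_le_max_abs_abs).trans (max_le ?_ ?_)
      · nlinarith [q1 v, norm_nonneg v]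
      · nlinarith [q2 v, norm_nonneg v]
    exact ⟨_, by positivity, this,
      int_of_bound ((h_cont hK.1.1).max (h_cont hC.1.1)) (by positivity) this⟩
  set U : Set (En n) := {p | ∀ v, inner ℝ p v ≤ max (h A v) (h C v)} with hU
  have hAU : A ⊆ U := fun p hp v => (le_h hA.1.1 v hp).trans (le_max_left _ _)
  have hCU : C ⊆ U := fun p hp v => (le_h hC.1.1 v hp).trans (le_max_right _ _)
  obtain ⟨R, hR, hb, iA⟩ := im A hA
  have hUc : IsCompact U := by
    refine Metric.isCompact_of_isClosed_isBounded ?_ ?_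
    · have : U = ⋂ v, {p : En n | inner ℝ p v ≤ max (h A v) (h C v)} := by ext p; simp [hU]
      rw [this]
      exact isClosed_iInter fun v => isClosed_le (by fun_prop) continuous_const
    · rw [isBounded_iff_forall_norm_le]
      refine ⟨R, fun p hp => ?_⟩
      have e1 := (hp p).trans (abs_le.1 (hb p)).2
      rw [real_inner_self_eq_norm_sq] at e1
      by_contra hlt
      push Not at hlt
      nlinarith
  have hUB : InB b U := by
    refine ⟨⟨hUc, ?_, hA.1.2.2.mono hAU⟩, fun hb => (hA.2 hb).mono (interior_mono hAU)⟩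
    intro x hx y hy a c ha hc hac v
    rw [inner_add_left, real_inner_smul_left, real_inner_smul_left]
    have e1 := mul_le_mul_of_nonneg_left (hx v) ha
    have e2 := mul_le_mul_of_nonneg_left (hy v) hc
    have : a * max (h A v) (h C v) + c * max (h A v) (h C v) = max (h A v) (h C v) := by
      rw [← add_mul, hac, one_mul]
    linarith
  have hSU := (h1 U hUB).1
  have hSA := (h1 A hA).1
  obtain ⟨-, -, -, iSA⟩ := im (S A) hSA
  calc _ ≤ ∫ v, h (S U) v * wt v := by
        refine integral_mono iSA (int_h hSU.1.1 hSU.1.2.2) fun v =>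
          mul_le_mul_of_nonneg_right (max_le ?_ ?_) (wt_pos v).le
        · exact h_mono hSA.1.1 hSA.1.2.2 hSU.1.1 (h2 _ _ hA hUB hAU) v
        · refine h_mono hC.1.1 hC.1.2.2 hSU.1.1 ?_ v
          have := h2 _ _ hC hUB hCU
          rwa [h4 C hC hs] at this
    _ = ∫ v, h U v * wt v := h3 U hUB
    _ ≤ _ := by
        refine integral_mono (int_h hUc hUB.1.2.2) iA fun v =>
          mul_le_mul_of_nonneg_right ?_ (wt_pos v).le
        obtain ⟨p, hp, hpv, -⟩ := exists_h hUc hUB.1.2.2 v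
        rw [hpv]; exact hp v

theorem projb {A : Set (En n)} (hA : InB b A) {x : En n} (hx : x ∈ H) {ε : ℝ} (hε : 0 < ε)
    (hAx : ∀ p ∈ A, ‖H.starProjection p - x‖ ≤ ε) {p : En n} (hp : p ∈ S A) :
    ‖H.starProjection p - x‖ ≤ ε := by
  obtain ⟨s, hs⟩ := (hA.1.1.image (f := fun x => x - H.starProjection x)
    (by fun_prop)).isBounded.exists_norm_le
  have hsub : A ⊆ cyl H x ε (|s| + 1) := fun w hw =>
    mem_cyl.2 ⟨hAx w hw, (hs _ ⟨w, hw, rfl⟩).trans (by linarith [le_abs_self s])⟩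
  have hB := cyl_inB b hx hε (show 0 < |s| + 1 by positivity)
  have := h2 _ _ hA hB hsub hp
  rw [h4 _ hB (cyl_sym _ _ _)] at this
  exact (mem_cyl.1 this).1

theorem upper {e c : En n} (heH : e ∈ H) (hcH : c ∈ Hᗮ) (he : ‖e‖ = 1) (hc : ‖c‖ = 1) :
    ∃ κ : ℝ, ∀ A, InB b A → ∀ x ∈ H, ∀ z ∈ Hᗮ, ∀ y ∈ Hᗮ, ∀ ε : ℝ, 0 < ε →
      (∀ p ∈ A, ∃ θ : ℝ, |θ| ≤ 1 ∧ ‖p - (x + θ • z + y)‖ ≤ ε) →
      ∀ p ∈ S A, ‖H.starProjection p - x‖ ≤ ε ∧
        |(inner ℝ c p : ℝ)| ≤ |(inner ℝ c z : ℝ)| + κ * ε := by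
  have hec : inner ℝ e c = (0 : ℝ) := (Submodule.mem_orthogonal _ _).1 hcH e heH
  obtain ⟨κ, hκ⟩ := core2 he hc hec
  refine ⟨κ * 2, fun A hA x hx z hz y hy ε hε hAx p hp => ?_⟩
  have hSA := h1 A hA
  have hP : ‖H.starProjection p - x‖ ≤ ε := by
    refine projb h1 h2 h3 h4 hA hx hε (fun q hq => ?_) hp
    obtain ⟨θ, -, hθ⟩ := hAx q hq
    have : H.starProjection q - x = H.starProjection (q - (x + θ • z + y)) := by
      rw [map_sub, map_add, map_add, map_smul, Submodule.starProjection_eq_self_iff.2 hx,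
        (Submodule.starProjection_apply_eq_zero_iff H).2 hz,
        (Submodule.starProjection_apply_eq_zero_iff H).2 hy]
      simp
    rw [this]
    exact (H.norm_starProjection_apply_le _).trans hθ
  refine ⟨hP, ?_⟩
  obtain ⟨R1, p1, q1⟩ := h_bound hA.1.1 hA.1.2.2
  obtain ⟨R2, p2, q2⟩ := h_bound hSA.1.1.1 hSA.1.1.2.2
  have b1 : ∀ v, |h A v| ≤ (R1 + R2) * ‖v‖ := fun v => by nlinarith [q1 v, norm_nonneg v]
  have b2 : ∀ v, |h (S A) v| ≤ (R1 + R2) * ‖v‖ := fun v => by nlinarith [q2 v, norm_nonneg v]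
  have c0 := core he hc hec (h_cont hA.1.1) (h_cont hSA.1.1.1) (by positivity) b1 b2
    (fun s hs t ht => by
      obtain ⟨C, hC, hCs, hCh⟩ := ell (b := b) heH hcH he hc hs ht
      have := hull h1 h2 h3 h4 hA hC hCs
      simpa only [hCh] using this)
  have hL : ∀ v, ‖Lm e c 0 v‖ ≤ ‖v‖ := Lm_norm he hc hec le_rfl zero_le_one
  have := hκ (fun v => h A (Lm e c 0 v) - h (S A) (Lm e c 0 v)) (2 * (R1 + R2))
    (|(inner ℝ c z : ℝ)| - |(inner ℝ c p : ℝ)|) (inner ℝ c y) (2 * ε)
    (((h_cont hA.1.1).comp (Lm e c 0).continuous).sub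
      ((h_cont hSA.1.1.1).comp (Lm e c 0).continuous))
    (fun v => by
      refine (abs_sub _ _).trans ?_
      have := mul_le_mul_of_nonneg_left (hL v) (show 0 ≤ R1 + R2 by positivity)
      linarith [b1 (Lm e c 0 v), b2 (Lm e c 0 v)]) c0
    (fun v => by
      set σ : ℝ := inner ℝ e v with hσ
      set ρ : ℝ := inner ℝ c v with hρ
      have hw : ∀ q, inner ℝ q (Lm e c 0 v) = σ * inner ℝ e q + ρ * inner ℝ c q := fun q => by
        rw [Lm_apply, Pj_apply, zero_smul, zero_add, sub_zero, one_smul, inner_add_right,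
          real_inner_smul_right, real_inner_smul_right, real_inner_comm q e, real_inner_comm q c]
      obtain ⟨q, hq, hqv, -⟩ := exists_h hA.1.1 hA.1.2.2 (Lm e c 0 v)
      obtain ⟨θ, hθ1, hθ⟩ := hAx q hq
      have e1 := real_inner_le_norm (q - (x + θ • z + y)) (Lm e c 0 v)
      have e2 : ‖q - (x + θ • z + y)‖ * ‖Lm e c 0 v‖ ≤ ε * ‖v‖ :=
        mul_le_mul hθ (hL v) (norm_nonneg _) hε.le
      have z1 : inner ℝ e z = (0 : ℝ) := (Submodule.mem_orthogonal _ _).1 hz e heH
      have z2 : inner ℝ e y = (0 : ℝ) := (Submodule.mem_orthogonal _ _).1 hy e heH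
      have z3 : inner ℝ c x = (0 : ℝ) := by
        rw [real_inner_comm]; exact (Submodule.mem_orthogonal _ _).1 hcH x hx
      rw [inner_sub_left, ← hqv, hw] at e1
      simp only [inner_add_right, real_inner_smul_right, z1, z2, z3] at e1
      have e3 : ρ * (θ * inner ℝ c z) ≤ |(inner ℝ c z : ℝ)| * |ρ| := by
        refine (le_abs_self _).trans ?_
        rw [abs_mul, abs_mul]
        nlinarith [mul_nonneg (abs_nonneg ρ) (abs_nonneg (inner ℝ c z : ℝ))]
      have f1 := le_h hSA.1.1.1 (Lm e c 0 v) hp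
      have f2 := le_h hSA.1.1.1 (Lm e c 0 v) (hsym_iff.1 hSA.2 p hp)
      rw [hw] at f1 f2
      simp only [inner_sub_right, real_inner_smul_right, inner_P heH, inner_P0 hcH] at f2
      have f3 : σ * inner ℝ e p + |(inner ℝ c p : ℝ)| * |ρ| ≤ h (S A) (Lm e c 0 v) := by
        rw [← abs_mul]
        rcases abs_choice (inner ℝ c p * ρ : ℝ) with h' | h' <;> rw [h'] <;> nlinarith
      have g1 := abs_real_inner_le_norm e (H.starProjection p - x)
      rw [he, one_mul, inner_sub_right, inner_P heH] at g1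
      have g2 : |σ| ≤ ‖v‖ := by
        have := abs_real_inner_le_norm e v
        rwa [he, one_mul] at this
      have g3 : σ * (inner ℝ e x - inner ℝ e p) ≤ ε * ‖v‖ := by
        refine (le_abs_self _).trans ?_
        rw [abs_mul, abs_sub_comm, mul_comm]
        exact mul_le_mul (g1.trans hP) g2 (abs_nonneg _) hε.le
      nlinarith)
  linarith

end

end Pool.Agent.H22.Sym
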