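import Pool.Agent.H22.Sym7

set_option autoImplicit false

namespace Pool.Agent.H22.Sym

open MeasureTheory Set Filter Topology

set_option linter.unusedSectionVars false

variable {n : ℕ} {H : Submodule ℝ (En n)}

theorem inB_tr {b : Bool} {K : Set (En n)} (hK : InB b K) (y : En n) :
    InB b ((fun p => p + y) '' K) := by
  refine ⟨⟨hK.1.1.image (by fun_prop), ?_, hK.1.2.2.image _⟩, fun hb => ?_⟩
  · rintro _ ⟨p, hp, rfl⟩ _ ⟨q, hq, rfl⟩ a c ha hc hac
    refine ⟨a • p + c • q, hK.1.2.1 hp hq ha hc hac, ?_⟩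
    have : y = a • y + c • y := by rw [← add_smul, hac, one_smul]
    simp only
    conv_lhs => rw [this]
    module
  · obtain ⟨w, hw⟩ := hK.2 hb
    refine ⟨w + y, ?_⟩
    have := (Homeomorph.addRight y).image_interior K
    exact (by simpa using this : (fun p => p + y) '' interior K =
      interior ((fun p => p + y) '' K)) ▸ ⟨w, hw, rfl⟩

/-- Closed neighbourhood of the segment with centre x and half-direction z. -/
def nb (x z : En n) (ε : ℝ) : Set (En n) :=
  (fun q : ℝ × En n => x + q.1 • z + q.2) '' (Icc (-1) 1 ×ˢ Metric.closedBall 0 ε)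

theorem mem_nb {x z p : En n} {ε : ℝ} :
    p ∈ nb x z ε ↔ ∃ θ : ℝ, |θ| ≤ 1 ∧ ‖p - (x + θ • z)‖ ≤ ε := by
  constructor
  · rintro ⟨⟨θ, u⟩, ⟨h1, h2⟩, rfl⟩
    exact ⟨θ, abs_le.2 h1, by simpa using h2⟩
  · rintro ⟨θ, h1, h2⟩
    exact ⟨⟨θ, p - (x + θ • z)⟩, ⟨abs_le.1 h1, by simpa using h2⟩, by simp⟩

theorem nb_inB {b : Bool} {K : Set (En n)} (hK : InB b K) {x z : En n} (hk : x + z ∈ K) {ε : ℝ}
    (hε : 0 < ε) : InB b (K ∩ nb x z ε) := by
  have hc : IsCompact (nb x z ε) :=
    (isCompact_Icc.prod (isCompact_closedBall _ _)).image (by fun_prop)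
  have hball : Metric.closedBall (x + z) ε ⊆ nb x z ε := fun p hp =>
    mem_nb.2 ⟨1, by simp, by rw [one_smul]; exact mem_closedBall_iff_norm.1 hp⟩
  refine ⟨⟨hK.1.1.inter_right hc.isClosed, hK.1.2.1.inter ?_,
    ⟨_, hk, hball (Metric.mem_closedBall_self hε.le)⟩⟩, fun hb => ?_⟩
  · rintro _ ⟨p, hp, rfl⟩ _ ⟨q, hq, rfl⟩ a c ha hc hac
    refine ⟨a • p + c • q, ((convex_Icc _ _).prod (convex_closedBall _ _)) hp hq ha hc hac, ?_⟩
    have : x = a • x + c • x := by rw [← add_smul, hac, one_smul]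
    simp only [Prod.fst_add, Prod.snd_add, Prod.smul_fst, Prod.smul_snd, smul_eq_mul]
    conv_lhs => rw [this]
    module
  · have hxc : x + z ∈ closure (interior K) := by
      rw [hK.1.2.1.closure_interior_eq_closure_of_nonempty_interior (hK.2 hb)]
      exact subset_closure hk
    obtain ⟨w, hw, hwd⟩ := Metric.mem_closure_iff.1 hxc ε hε
    refine ⟨w, ?_⟩
    rw [interior_inter]
    exact ⟨hw, interior_mono hball (Metric.ball_subset_interior_closedBall
      (by rw [Metric.mem_ball, dist_comm]; exact hwd))⟩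

theorem le_of_seq {a c κ : ℝ} (hm : ∀ m : ℕ, a ≤ c + κ * (1 / ((m : ℝ) + 1))) : a ≤ c := by
  have := (tendsto_one_div_add_atTop_nhds_zero_nat (𝕜 := ℝ)).const_mul κ
  have h2 := this.const_add c
  rw [mul_zero, add_zero] at h2
  exact ge_of_tendsto' h2 hm

section
variable {b : Bool} {S : Set (En n) → Set (En n)}
  (h1 : ∀ K, InB b K → InB b (S K) ∧ HSym H (S K))
  (h2 : ∀ K L, InB b K → InB b L → K ⊆ L → S K ⊆ S L)
  (h3 : ∀ K, InB b K → ∫ v, h (S K) v * wt v = ∫ v, h K v * wt v)
  (h4 : ∀ K, InB b K → HSym H K → S K = K)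
include h1 h2 h3 h4

theorem lower {e : En n} (heH : e ∈ H) (he : ‖e‖ = 1) {K : Set (En n)} (hK : InB b K)
    (hs : HSym H K) {y : En n} (hy : y ∈ Hᗮ) : K ⊆ S ((fun p => p + y) '' K) := by
  intro k hk
  set x := H.starProjection k with hxd
  set z := k - x with hzd
  have hx : x ∈ H := H.starProjection_apply_mem k
  have hz : z ∈ Hᗮ := H.sub_starProjection_mem_orthogonal k
  have hk1 : x + z = k := by rw [hzd]; abel
  have hk2 : x - z ∈ K := by
    have := hsym_iff.1 hs k hk
    convert this using 1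
    rw [hzd, hxd]; module
  set A : ℕ → Set (En n) := fun m => (fun p => p + y) '' (K ∩ nb x z (1 / ((m : ℝ) + 1))) with hA
  have hε : ∀ m : ℕ, (0 : ℝ) < 1 / ((m : ℝ) + 1) := fun m => by positivity
  have hAB : ∀ m, InB b (A m) := fun m => inB_tr (nb_inB hK (hk1 ▸ hk) (hε m)) y
  have hAx : ∀ m, ∀ p ∈ A m, ∃ θ : ℝ, |θ| ≤ 1 ∧ ‖p - (x + θ • z + y)‖ ≤ 1 / ((m : ℝ) + 1) := by
    rintro m _ ⟨p, hp, rfl⟩
    obtain ⟨θ, t1, t2⟩ := mem_nb.1 hp.2
    exact ⟨θ, t1, by simpa using t2⟩
  have hAa : ∀ m, A (m + 1) ⊆ A m := fun m => by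
    refine image_mono (inter_subset_inter_right _ fun p hp => ?_)
    obtain ⟨θ, t1, t2⟩ := mem_nb.1 hp
    refine mem_nb.2 ⟨θ, t1, t2.trans ?_⟩
    push_cast
    exact one_div_le_one_div_of_le (by positivity) (by linarith)
  have hZc : ∀ m, IsCompact (S (A m)) := fun m => (h1 _ (hAB m)).1.1.1
  have hZn : ∀ m, (S (A m)).Nonempty := fun m => (h1 _ (hAB m)).1.1.2.2
  have hZa : ∀ m, S (A (m + 1)) ⊆ S (A m) := fun m => h2 _ _ (hAB _) (hAB _) (hAa m)
  have hZ0 : ∀ m, S (A m) ⊆ S (A 0) := fun m =>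
    antitone_nat_of_succ_le (f := fun m => S (A m)) hZa (Nat.zero_le m)
  have hI : IsCompact (⋂ m, S (A m)) :=
    (hZc 0).of_isClosed_subset (isClosed_iInter fun m => (hZc m).isClosed) (iInter_subset _ 0)
  have hIn : (⋂ m, S (A m)).Nonempty :=
    IsCompact.nonempty_iInter_of_sequence_nonempty_isCompact_isClosed
      _ hZa hZn (hZc 0) fun m => (hZc m).isClosed
  have hIc : Convex ℝ (⋂ m, S (A m)) := convex_iInter fun m => (h1 _ (hAB m)).1.1.2.1
  have ij : Integrable (fun v : En n => (inner ℝ x v + |(inner ℝ z v : ℝ)|) * wt v) := by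
    refine int_of_bound (R := ‖x‖ + ‖z‖) (by fun_prop) (by positivity) fun v => ?_
    refine (abs_add_le _ _).trans ?_
    rw [abs_abs]
    linarith [abs_real_inner_le_norm x v, abs_real_inner_le_norm z v]
  have hmem : k ∈ ⋂ m, S (A m) := by
    refine strict hI hIc hIn (j := fun v => inner ℝ x v + |(inner ℝ z v : ℝ)|) (by fun_prop) ij
      (fun v => ?_) ?_ (fun v => ?_)
    · obtain ⟨p, hp, hpv, -⟩ := exists_h hI hIn v
      rw [hpv]
      set u := v - H.starProjection v with hud
      have hu : u ∈ Hᗮ := H.sub_starProjection_mem_orthogonal v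
      have hPp : H.starProjection p = x := by
        have : ‖H.starProjection p - x‖ ≤ 0 := by
          refine le_of_seq (κ := 1) fun m => ?_
          rw [zero_add, one_mul]
          refine projb h1 h2 h3 h4 (hAB m) hx (hε m) (fun q hq => ?_) (mem_iInter.1 hp m)
          obtain ⟨θ, -, hθ⟩ := hAx m q hq
          have : H.starProjection q - x = H.starProjection (q - (x + θ • z + y)) := by
            rw [map_sub, map_add, map_add, map_smul, Submodule.starProjection_eq_self_iff.2 hx,
              (Submodule.starProjection_apply_eq_zero_iff H).2 hz,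
              (Submodule.starProjection_apply_eq_zero_iff H).2 hy]
            simp
          rw [this]
          exact (H.norm_starProjection_apply_le _).trans hθ
        exact sub_eq_zero.1 (norm_le_zero_iff.1 this)
      have hup : |(inner ℝ u p : ℝ)| ≤ |(inner ℝ u z : ℝ)| := by
        by_cases hu0 : u = 0
        · simp [hu0]
        have hun : 0 < ‖u‖ := norm_pos_iff.2 hu0
        obtain ⟨κ, hκ⟩ := upper h1 h2 h3 h4 heH (Hᗮ.smul_mem ‖u‖⁻¹ hu) he
          (by rw [norm_smul, norm_inv, norm_norm, inv_mul_cancel₀ hun.ne'])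
        have := le_of_seq fun m =>
          (hκ (A m) (hAB m) x hx z hz y hy _ (hε m) (hAx m) p (mem_iInter.1 hp m)).2
        rw [real_inner_smul_left, real_inner_smul_left, abs_mul, abs_mul] at this
        exact le_of_mul_le_mul_left this (abs_pos.2 (inv_pos.2 hun).ne')
      have e1 : inner ℝ p v = (inner ℝ x v : ℝ) + inner ℝ u p := by
        have a1 := inner_P (H.starProjection_apply_mem v) p
        have a2 := inner_P hx v
        rw [hPp] at a1
        rw [hud, inner_sub_left, ← a1, ← a2, real_inner_comm v p,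
          real_inner_comm x (H.starProjection v)]
        ring
      have e2 : inner ℝ u z = (inner ℝ z v : ℝ) := by
        rw [hud, inner_sub_left, real_inner_comm z (H.starProjection v), inner_P0 hz,
          real_inner_comm, sub_zero]
      rw [e1, ← e2]
      linarith [le_abs_self (inner ℝ u p : ℝ)]
    · obtain ⟨R, hR⟩ := (hZc 0).isBounded.exists_norm_le
      have hlim : Tendsto (fun m => ∫ v, h (S (A m)) v * wt v) atTop
          (𝓝 (∫ v, h (⋂ m, S (A m)) v * wt v)) := by
        refine tendsto_integral_of_dominated_convergence (fun v => R * ‖v‖ * wt v)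
          (fun m => ((h_cont (hZc m)).mul wt_cont).aestronglyMeasurable) (int_norm_wt R)
          (fun m => Eventually.of_forall fun v => ?_)
          (Eventually.of_forall fun v => (h_iInter hZc hZn hZa v).mul_const _)
        rw [Real.norm_eq_abs, abs_mul, abs_of_pos (wt_pos v)]
        refine mul_le_mul_of_nonneg_right ?_ (wt_pos v).le
        obtain ⟨p, hp, hpv, -⟩ := exists_h (hZc m) (hZn m) v
        rw [hpv]
        exact (abs_real_inner_le_norm p v).trans
          (mul_le_mul_of_nonneg_right (hR p (hZ0 m hp)) (norm_nonneg v))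
      refine ge_of_tendsto' hlim fun m => ?_
      rw [h3 _ (hAB m)]
      have m1 : x + z + y ∈ A m :=
        ⟨x + z, ⟨hk1 ▸ hk, mem_nb.2 ⟨1, by simp, by simp; positivity⟩⟩, rfl⟩
      have m2 : x - z + y ∈ A m :=
        ⟨x - z, ⟨hk2, mem_nb.2 ⟨-1, by simp, by simp [← sub_eq_add_neg]; positivity⟩⟩, rfl⟩
      calc _ = ∫ v, ((inner ℝ x v + |(inner ℝ z v : ℝ)|) * wt v + inner ℝ y v * wt v) := by
            rw [integral_add ij (int_inner y), int_inner_zero, add_zero]
        _ ≤ _ := by
            refine integral_mono (ij.add (int_inner y)) (int_h (hAB m).1.1 (hAB m).1.2.2)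
              fun v => ?_
            simp only
            rw [← add_mul]
            refine mul_le_mul_of_nonneg_right ?_ (wt_pos v).le
            have a1 := le_h (hAB m).1.1 v m1
            have a2 := le_h (hAB m).1.1 v m2
            simp only [inner_add_left, inner_sub_left] at a1 a2
            rcases abs_choice (inner ℝ z v : ℝ) with h' | h' <;> rw [h'] <;> linarith
    · rw [← hk1, inner_add_left]
      linarith [le_abs_self (inner ℝ z v : ℝ)]
  exact h2 _ _ (hAB 0) (inB_tr hK y) (image_mono inter_subset_left) (mem_iInter.1 hmem 0)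

theorem rigid (hH : H ≠ ⊥) {K : Set (En n)} (hK : InB b K) (hs : HSym H K) {y : En n}
    (hy : y ∈ Hᗮ) : S ((fun p => p + y) '' K) = K := by
  obtain ⟨e0, he0, hne⟩ := (Submodule.ne_bot_iff H).1 hH
  have hun : 0 < ‖e0‖ := norm_pos_iff.2 hne
  have hlow := lower h1 h2 h3 h4 (H.smul_mem ‖e0‖⁻¹ he0)
    (by rw [norm_smul, norm_inv, norm_norm, inv_mul_cancel₀ hun.ne']) hK hs hy
  have hT := inB_tr hK y
  have hS := (h1 _ hT).1
  refine Subset.antisymm (fun p hp => ?_) hlow
  refine strict hK.1.1 hK.1.2.1 hK.1.2.2 (h_cont hS.1.1) (int_h hS.1.1 hS.1.2.2)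
    (h_mono hK.1.1 hK.1.2.2 hS.1.1 hlow) ?_ (fun v => le_h hS.1.1 v hp)
  rw [h3 _ hT]
  calc _ ≤ ∫ v, (h K v * wt v + inner ℝ y v * wt v) := by
        refine integral_mono (int_h hT.1.1 hT.1.2.2) ((int_h hK.1.1 hK.1.2.2).add (int_inner y))
          fun v => ?_
        simp only
        rw [← add_mul]
        refine mul_le_mul_of_nonneg_right ?_ (wt_pos v).le
        obtain ⟨_, ⟨q, hq, rfl⟩, hqv, -⟩ := exists_h hT.1.1 hT.1.2.2 v
        rw [hqv, inner_add_left]
        linarith [le_h hK.1.1 v hq]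
    _ = _ := by rw [integral_add (int_h hK.1.1 hK.1.2.2) (int_inner y), int_inner_zero, add_zero]

end

end Pool.Agent.H22.Sym
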