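import Mathlib

set_option autoImplicit false
open Set

namespace Pool.Agent.H22.T3

abbrev V := {l : List (Fin 3) // l.IsChain (· ≠ ·)}

def act (a : Fin 3) (v : V) : V :=
  if h : v.1.head? = some a then ⟨v.1.tail, v.2.tail⟩ else
    ⟨a :: v.1, List.isChain_cons.2 ⟨fun _ hb hab => h (hab ▸ hb), v.2⟩⟩

def o : V := ⟨[], .nil⟩

lemma act_cases (a : Fin 3) (v : V) : v.1 = a :: (act a v).1 ∨
    (v.1.head? ≠ some a ∧ (act a v).1 = a :: v.1) := by
  unfold act
  split_ifs with h
  · exact .inl (List.cons_head?_tail h).symm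
  · exact .inr ⟨h, rfl⟩

lemma act_cons (a : Fin 3) (v w : V) (h : w.1 = a :: v.1) : act a v = w := by
  rcases act_cases a v with h1 | h1
  · have := w.2
    rw [h, h1] at this
    simp at this
  · exact Subtype.ext (h1.2.trans h.symm)

lemma act_act (a : Fin 3) (v : V) : act a (act a v) = v := by
  rcases act_cases a v with h | h
  · exact act_cons _ _ _ h
  · rcases act_cases a (act a v) with h1 | h1
    · exact Subtype.ext (List.cons_injective (h1.symm.trans h.2))
    · simp [h.2] at h1

lemma act_len (a : Fin 3) (v : V) : (act a v).1.length + 1 = v.1.length ∨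
    (act a v).1.length = v.1.length + 1 := by
  rcases act_cases a v with h | h
  · left; conv_rhs => rw [h]; simp
  · right; simp [h.2]

lemma act_inj (v : V) : Function.Injective (act · v) := by
  intro a b h
  simp only at h
  rcases act_cases a v with h1 | h1 <;> rcases act_cases b v with h2 | h2
  · exact List.head_eq_of_cons_eq (h1.symm.trans h2)
  · have := congrArg List.length h1; simp [h, h2.2] at this; omega
  · have := congrArg List.length h2; simp [← h, h1.2] at this; omega
  · exact List.head_eq_of_cons_eq (h1.2.symm.trans (h ▸ h2.2))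

lemma up {a b : Fin 3} (h : a ≠ b) (v : V) : (act a v).1.length = v.1.length + 1 ∨
    (act b v).1.length = v.1.length + 1 := by
  rcases act_cases a v with h1 | h1
  · rcases act_cases b v with h2 | h2
    · exact (h (List.head_eq_of_cons_eq (h1.symm.trans h2))).elim
    · simp [h2.2]
  · simp [h1.2]

def G : SimpleGraph V where
  Adj v w := ∃ a, act a v = w
  symm := ⟨fun v w ⟨a, h⟩ => ⟨a, h ▸ act_act a v⟩⟩
  loopless := ⟨fun v ⟨a, h⟩ => by have := act_len a v; rw [h] at this; omega⟩

lemma ind {p : V → Prop} (h0 : p o) (h1 : ∀ a v, p v → p (act a v)) (v : V) : p v := by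
  obtain ⟨l, hl⟩ := v
  induction l with
  | nil => exact h0
  | cons a l ih => exact act_cons a ⟨l, hl.tail⟩ ⟨_, hl⟩ rfl ▸ h1 a _ (ih hl.tail)

lemma conn : G.Connected := by
  have h : ∀ v, G.Reachable o v :=
    ind .rfl fun a v h => h.trans (SimpleGraph.Adj.reachable ⟨a, rfl⟩)
  have : Nonempty V := ⟨o⟩
  exact ⟨fun u v => (h u).symm.trans (h v)⟩

lemma tree : G.IsTree := by
  refine ⟨conn, SimpleGraph.isAcyclic_iff_forall_adj_isBridge.2 ?_⟩
  have key : ∀ (v w : V) (a : Fin 3), w.1 = a :: v.1 → G.IsBridge s(w, v) := by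
    intro v w a h
    rw [SimpleGraph.isBridge_iff, SimpleGraph.reachable_iff_reflTransGen]
    intro h1
    have h2 : ∀ u, Relation.ReflTransGen (G.deleteEdges {s(w, v)}).Adj w u → w.1 <:+ u.1 := by
      intro u hu
      induction hu with
      | refl => exact List.suffix_rfl
      | @tail u u' _ h3 ih =>
        obtain ⟨⟨b, rfl⟩, h4⟩ := SimpleGraph.deleteEdges_adj.1 h3
        rcases act_cases b u with h5 | h5
        · rw [h5, List.suffix_cons_iff, ← h5] at ih
          refine ih.resolve_left fun h6 => h4 ?_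
          rw [← Subtype.ext h6, show act b w = v from
            Subtype.ext (List.tail_eq_of_cons_eq (h5.symm.trans (h6.symm.trans h)) ▸ by
              rw [Subtype.ext h6])]
          rfl
        · exact h5.2 ▸ ih.trans (List.suffix_cons _ _)
    have := (h2 v h1).length_le
    simp [h] at this
  rintro v _ ⟨a, rfl⟩
  rcases act_cases a v with h | h
  · exact key _ _ a h
  · exact Sym2.eq_swap ▸ key _ _ a h.2

lemma deg (v : V) : (G.neighborSet v).ncard = 3 := by
  rw [show G.neighborSet v = range (act · v) from rfl, ncard_range_of_injective (act_inj v)]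
  simp

lemma len_le (v : V) : v.1.length ≤ G.dist o v := by
  have h : ∀ {u v : V} (p : G.Walk u v), v.1.length ≤ u.1.length + p.length := by
    intro u v p
    induction p with
    | nil => simp
    | @cons u _ _ h p ih =>
      obtain ⟨a, rfl⟩ := h
      rcases act_len a u with h | h <;> simp <;> omega
  obtain ⟨p, hp⟩ := conn.exists_walk_length_eq_dist o v
  rw [← hp]
  simpa [o] using h p

def sw (s : Fin 3) (v : V) : V := v.1.foldr act (act s o)

lemma sw_act (s a : Fin 3) (v : V) : sw s (act a v) = act a (sw s v) := by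
  unfold sw
  rcases act_cases a v with h | h
  · conv_rhs => rw [h, List.foldr_cons, act_act]
  · rw [h.2, List.foldr_cons]

lemma sw_o (s : Fin 3) : sw s o = act s o := rfl

lemma sw_sw (s : Fin 3) : Function.Involutive (sw s) :=
  ind (by rw [sw_o, sw_act, sw_o, act_act]) fun a v h => by rw [sw_act, sw_act, h]

def τ (s : Fin 3) : G ≃g G where
  toEquiv := (sw_sw s).toPerm
  map_rel_iff' := ⟨fun ⟨a, h⟩ => ⟨a, (sw_sw s).injective ((sw_act ..).trans h)⟩,
    fun ⟨a, h⟩ => ⟨a, h ▸ (sw_act ..).symm⟩⟩

lemma iso_dist (φ : G ≃g G) (u v : V) : G.dist (φ u) (φ v) = G.dist u v := by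
  have h : ∀ (φ : G ≃g G) (u v : V), G.dist (φ u) (φ v) ≤ G.dist u v := fun φ u v => by
    obtain ⟨p, hp⟩ := conn.exists_walk_length_eq_dist u v
    simpa [hp] using SimpleGraph.dist_le (p.map φ.toHom)
  exact (h φ u v).antisymm (by simpa using h φ.symm (φ u) (φ v))

end Pool.Agent.H22.T3
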