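import Mathlib
import Pool.Agent.H22.T3
import Pool.Agent.H22.Glue
import Pool.Agent.H22.Perc3

set_option autoImplicit false
open MeasureTheory ProbabilityTheory Set Filter
open scoped Classical
open Pool.Agent.H22.Glue Pool.Agent.H22.T3

namespace Pool.Agent.H22.TG
noncomputable section

abbrev Z := ZMod 100
abbrev C0 := List Z × ℕ × ℕ
abbrev C := Option (C0 × ℕ)
abbrev J := V × C
abbrev PP : Measure (J → Z) := Measure.infinitePi fun _ => un 100

def TF (lab : V → Z) (v : V) : Prop := ∀ a b, lab (act a v) = lab (act b v) → a = b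

def Nice (lab : V → Z) (i : C0) (γ : ℕ → V) : Prop := ∀ k ≤ i.2.1 + 2,
  lab (γ k) = i.1.getD k 0 ∧ TF lab (γ k) ∧ (k < i.2.1 + 2 → G.Adj (γ k) (γ (k + 1)))

lemma uniq {lab : V → Z} {i : C0} {γ γ' : ℕ → V} (h : Nice lab i γ) (h' : Nice lab i γ') {s : ℕ}
    (hs : s ≤ i.2.1 + 2) (e : γ s = γ' s) : ∀ k ≤ i.2.1 + 2, γ k = γ' k := by
  have st : ∀ k l, k ≤ i.2.1 + 2 → l ≤ i.2.1 + 2 → γ k = γ' k → G.Adj (γ k) (γ l) →
      G.Adj (γ' k) (γ' l) → γ l = γ' l := by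
    rintro k l hk hl e ⟨a, ha⟩ ⟨b, hb⟩
    rw [← e] at hb
    rw [← ha, ← hb, (h k hk).2.1 a b (by rw [ha, hb, (h l hl).1, (h' l hl).1])]
  have h0 : γ 0 = γ' 0 := by
    induction s with
    | zero => exact e
    | succ s ih => exact ih (by omega) (st (s + 1) s hs (by omega) e
        ((h s (by omega)).2.2 hs).symm ((h' s (by omega)).2.2 hs).symm)
  intro k hk
  induction k with
  | zero => exact h0
  | succ k ih =>
    exact st k (k + 1) (by omega) hk (ih (by omega)) ((h k (by omega)).2.2 hk)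
      ((h' k (by omega)).2.2 hk)

def gad (ω : J → Z) (i : C0) (γ : ℕ → V) : Z :=
  ω (γ 0, some (i, 0)) * ω (γ (i.2.1 + 2), some (i, i.2.1 + 2)) -
    ∑ u ∈ Finset.Ico 2 (i.2.1 + 2), ω (γ u, some (i, u))

lemma gad_congr {ω ω' : J → Z} {i : C0} {γ γ' : ℕ → V} (h : ∀ k ≤ i.2.1 + 2, k ≠ 1 →
    ω (γ k, some (i, k)) = ω' (γ' k, some (i, k))) : gad ω i γ = gad ω' i γ' := by
  unfold gad
  rw [h 0 (by omega) (by omega), h _ le_rfl (by omega), Finset.sum_congr rfl fun u hu =>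
    h u (Finset.mem_Ico.1 hu).2.le (by have := (Finset.mem_Ico.1 hu).1; omega)]

def Ok (lab : V → Z) (S : Set V) (i : C0) (v : V) (γ : ℕ → V) : Prop :=
  Nice lab i γ ∧ γ 1 = v ∧ ∀ s ∈ Ico 1 (i.2.1 + 2), γ s ∈ S

def X2 (lab : V → Z) (S : Set V) (ω : J → Z) (v : V) : C → Z
  | none => lab v
  | some (i, s) => if h : s = 1 ∧ ∃ γ, Ok lab S i v γ then gad ω i h.2.choose else ω (v, some (i, s))

def X (S : Set V) (ω : J → Z) : V → C → Z := X2 (fun v => ω (v, none)) S ω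

lemma X2_ok {lab : V → Z} {S : Set V} (ω : J → Z) {v : V} {i : C0} {γ : ℕ → V}
    (h : Ok lab S i v γ) : X2 lab S ω v (some (i, 1)) = gad ω i γ := by
  have h1 : (1 : ℕ) = 1 ∧ ∃ γ, Ok lab S i v γ := ⟨rfl, γ, h⟩
  rw [X2, dif_pos h1]
  refine gad_congr fun k hk _ => ?_
  rw [uniq h1.2.choose_spec.1 h.1 (s := 1) (by omega) (h1.2.choose_spec.2.1.trans h.2.1.symm) k hk]

lemma X2_no {lab : V → Z} {S : Set V} (ω : J → Z) {v : V} {i : C0} {s : ℕ}
    (h : ¬ (s = 1 ∧ ∃ γ, Ok lab S i v γ)) : X2 lab S ω v (some (i, s)) = ω (v, some (i, s)) :=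
  dif_neg h

lemma ex_eq {Ω : Type} (L : ℕ) (p : (ℕ → V) → Ω → Prop)
    (hc : ∀ γ γ' ω, (∀ k ≤ L, γ k = γ' k) → p γ ω → p γ' ω) : {ω | ∃ γ, p γ ω} =
    ⋃ f : Fin (L + 1) → V, {ω | p (fun k => f ⟨min k L, by omega⟩) ω} := by
  ext ω
  simp only [mem_iUnion, mem_ofPred_eq]
  exact ⟨fun ⟨γ, h⟩ => ⟨fun k => γ k, hc _ _ _ (fun k hk => by simp [hk]) h⟩, fun ⟨f, h⟩ => ⟨_, h⟩⟩

lemma ok_congr {lab : V → Z} {S : Set V} {i : C0} {v : V} {γ γ' : ℕ → V}
    (e : ∀ k ≤ i.2.1 + 2, γ k = γ' k) (h : Ok lab S i v γ) : Ok lab S i v γ' :=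
  ⟨fun k hk => e k hk ▸ ⟨(h.1 k hk).1, (h.1 k hk).2.1, fun h' => e (k + 1) h' ▸ (h.1 k hk).2.2 h'⟩,
    e 1 (by omega) ▸ h.2.1, fun s hs => e s hs.2.le ▸ h.2.2 s hs⟩

lemma X_meas' (S T : Set V) (v : V) (hv : v ∈ T) (hT : ∀ n, ∀ γ : ℕ → V, γ 1 = v →
    (∀ k < n + 2, G.Adj (γ k) (γ (k + 1))) → (∀ s ∈ Ico 1 (n + 2), γ s ∈ S) →
    ∀ k ≤ n + 2, γ k ∈ T ∧ ∀ a, act a (γ k) ∈ T) :
    Measurable[cylinderEvents {j : J | j.1 ∈ T}] fun ω => X S ω v := by
  have h0 : ∀ j : J, j.1 ∈ T → Measurable[cylinderEvents {j : J | j.1 ∈ T}]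
    fun ω : J → Z => ω j := fun j hj => measurable_cylinderEvent_apply (X := fun _ => Z) hj
  let := cylinderEvents (X := fun _ : J => Z) {j : J | j.1 ∈ T}
  refine measurable_pi_lambda _ fun c => ?_
  rcases c with _ | ⟨i, s⟩
  · exact h0 _ hv
  by_cases hs : s = 1
  swap
  · simp only [X, X2_no _ fun h => hs h.1]
    exact h0 _ hv
  subst hs
  have h1 : ∀ (q : Z → Prop), MeasurableSet {ω : J → Z |
      ∃ γ, Ok (fun v => ω (v, none)) S i v γ ∧ q (gad ω i γ)} := by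
    intro q
    rw [ex_eq (i.2.1 + 2) _ fun γ γ' ω e h => ⟨ok_congr e h.1,
      gad_congr (ω := ω) (ω' := ω) (γ := γ) (γ' := γ') (fun k hk _ => by rw [e k hk]) ▸ h.2⟩]
    refine MeasurableSet.iUnion fun f => ?_
    generalize (fun k => f ⟨min k (i.2.1 + 2), by omega⟩) = γ
    by_cases h : γ 1 = v ∧ (∀ k < i.2.1 + 2, G.Adj (γ k) (γ (k + 1))) ∧
      ∀ s ∈ Ico 1 (i.2.1 + 2), γ s ∈ S
    · have h2 := hT _ γ h.1 h.2.1 h.2.2
      refine measurableSet_setOfPred.2 (Measurable.and (Measurable.and (Measurable.forall fun k => ?_)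
        measurable_const) ((measurable_of_countable q).comp (((h0 _ (h2 _ (by omega)).1).mul
          (h0 _ (h2 _ le_rfl).1)).sub (Finset.measurable_sum _ fun u hu =>
            h0 _ (h2 _ (Finset.mem_Ico.1 hu).2.le).1))))
      by_cases hk : k ≤ i.2.1 + 2
      · refine measurable_const.imp (((h0 _ (h2 k hk).1).eq measurable_const).and
          (Measurable.and (.forall fun a => .forall fun b => Measurable.imp ?_ measurable_const)
            measurable_const))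
        exact (h0 _ ((h2 k hk).2 a)).eq (h0 _ ((h2 k hk).2 b))
      · simp [hk]
    · rw [eq_empty_of_forall_notMem (s := ofPred _) fun ω h' =>
        h ⟨h'.1.2.1, fun k hk => (h'.1.1 k hk.le).2.2 hk, h'.1.2.2⟩]
      exact .empty
  refine measurable_to_countable' fun t => ?_
  convert (h1 (· = t)).union ((h1 fun _ => True).compl.inter
    (h0 (v, some (i, 1)) hv (measurableSet_singleton t))) using 1
  ext ω
  by_cases h : ∃ γ, Ok (fun v => ω (v, none)) S i v γ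
  · obtain ⟨γ, h⟩ := h
    simp only [mem_preimage, mem_singleton_iff, mem_union, mem_ofPred_eq, mem_inter_iff,
      mem_compl_iff, and_true, X]
    exact ⟨fun e => .inl ⟨γ, h, X2_ok ω h ▸ e⟩, fun e => e.elim
      (fun ⟨γ, h, e⟩ => (X2_ok ω h).trans e) fun e => (e.1 ⟨γ, h⟩).elim⟩
  · have h' := not_exists.1 h
    simp [X, X2_no ω fun h' => h h'.2, h']

lemma X_meas (S : Set V) : Measurable (X S) := measurable_pi_lambda _ fun v =>
  (X_meas' S univ v trivial fun _ _ _ _ _ _ _ => ⟨trivial, fun _ => trivial⟩).mono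
    cylinderEvents_le_pi le_rfl

lemma tf_iso (φ : G ≃g G) (lab : V → Z) (v : V) (h : TF lab (φ v)) : TF (fun u => lab (φ u)) v := by
  intro a b e
  obtain ⟨a', ha⟩ : G.Adj (φ v) (φ (act a v)) := φ.map_rel_iff.2 ⟨a, rfl⟩
  obtain ⟨b', hb⟩ : G.Adj (φ v) (φ (act b v)) := φ.map_rel_iff.2 ⟨b, rfl⟩
  have := h a' b' (by rw [ha, hb]; exact e)
  exact act_inj v (φ.injective (by rw [← ha, ← hb, this]))

lemma ok_iso (φ : G ≃g G) {lab : V → Z} {i : C0} {v : V} {γ : ℕ → V} (h : Ok lab univ i (φ v) γ) :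
    Ok (fun u => lab (φ u)) univ i v fun k => φ.symm (γ k) :=
  ⟨fun k hk => ⟨by simpa using (h.1 k hk).1, tf_iso _ _ _ (by simpa using (h.1 k hk).2.1),
    fun h' => φ.symm.map_rel_iff.2 ((h.1 k hk).2.2 h')⟩, by simp [h.2.1], fun _ _ => trivial⟩

lemma X_iso (φ : G ≃g G) (ω : J → Z) (v : V) :
    X univ (fun j => ω (φ j.1, j.2)) v = X univ ω (φ v) := by
  ext (_ | ⟨i, s⟩)
  · rfl
  by_cases h : s = 1 ∧ ∃ γ, Ok (fun v => ω (v, none)) univ i (φ v) γ
  · obtain ⟨rfl, γ, h⟩ := h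
    exact (X2_ok _ (ok_iso φ h)).trans ((gad_congr (by simp)).trans (X2_ok _ h).symm)
  · refine (X2_no _ fun ⟨h1, γ, h2⟩ => h ⟨h1, fun k => φ.symm.symm (γ k), ?_⟩).trans (X2_no _ h).symm
    simpa using ok_iso φ.symm (v := φ v) (lab := fun u => ω (φ u, none)) (by simpa using h2)

lemma fiber {ι Y T : Type} [MeasurableSpace Y] [MeasurableSpace T] (ν : ι → Measure Y)
    [∀ i, IsProbabilityMeasure (ν i)] (D : Set ι) {f g : (ι → Y) → T} (hf : Measurable f)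
    (hg : Measurable g) (h : ∀ y, ∃ Φ, MeasurePreserving Φ (Measure.infinitePi ν)
      (Measure.infinitePi ν) ∧ ∀ y', f (gl D y y') = g (gl D y (Φ y'))) :
    (Measure.infinitePi ν).map f = (Measure.infinitePi ν).map g := by
  ext E hE
  rw [Measure.map_apply hf hE, Measure.map_apply hg hE,
    ← (glue ν D).measure_preimage (hf hE).nullMeasurableSet,
    ← (glue ν D).measure_preimage (hg hE).nullMeasurableSet,
    Measure.prod_apply (glue_meas D (hf hE)), Measure.prod_apply (glue_meas D (hg hE))]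
  refine lintegral_congr fun y => ?_
  obtain ⟨Φ, h1, h2⟩ := h y
  rw [← h1.measure_preimage (measurable_prodMk_left (glue_meas D (hg hE))).nullMeasurableSet]
  congr 1
  ext y'
  simp [h2]

def Brk (lab : V → Z) (S : Set V) (i : C0) (γ : ℕ → V) (s : ℕ) : Prop :=
  Nice lab i γ ∧ 2 ≤ s ∧ s < i.2.1 + 2 ∧ γ s ∉ S ∧ ∀ u ∈ Ico 1 s, γ u ∈ S

lemma brk_uniq {lab : V → Z} {S : Set V} {i : C0} {γ γ' : ℕ → V} {s s' k : ℕ}
    (h : Brk lab S i γ s) (h' : Brk lab S i γ' s') (hk : k ≤ i.2.1 + 2) (e : γ k = γ' k) : s = s' := by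
  have h1 := uniq h.1 h'.1 hk e
  by_contra h2
  rcases lt_or_gt_of_ne h2 with h2 | h2
  · exact h.2.2.2.1 (h1 s h.2.2.1.le ▸ h'.2.2.2.2 s ⟨by have := h.2.1; omega, h2⟩)
  · exact h'.2.2.2.1 (h1 s' h'.2.2.1.le ▸ h.2.2.2.2 s' ⟨by have := h'.2.1; omega, h2⟩)

lemma phi (lab : V → Z) (S : Set V) : ∃ Φ, MeasurePreserving Φ PP PP ∧
    ∀ ω, ∀ v ∈ S, X2 lab univ ω v = X2 lab S (Φ ω) v := by
  let D : Set J := {j | ∃ i γ s, Brk lab S i γ s ∧ j = (γ s, some (i, s))}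
  let D' : Set J := {j | ∃ i γ s, Brk lab S i γ s ∧ j = (γ 1, some (i, 1))}
  let H : (J → Z) → J → Z := fun ω j => if h : j ∈ D then
    ω (h.choose_spec.choose 1, some (h.choose, 1)) - gad ω h.choose h.choose_spec.choose - ω j else 0
  let H' : (J → Z) → J → Z := fun ω j => if h : j ∈ D' then
    -ω (h.choose_spec.choose h.choose_spec.choose_spec.choose,
      some (h.choose, h.choose_spec.choose_spec.choose)) else 0
  have hD : ∀ {i γ s}, Brk lab S i γ s → ∀ ω, H ω (γ s, some (i, s)) =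
      ω (γ 1, some (i, 1)) - gad ω i γ - ω (γ s, some (i, s)) := by
    intro i γ s h ω
    have h1 : (γ s, some (i, s)) ∈ D := ⟨i, γ, s, h, rfl⟩
    rw [show H ω _ = _ from dif_pos h1]
    have h2 := h1.choose_spec.choose_spec
    generalize h1.choose_spec.choose = γ' at h2
    generalize h1.choose = i' at h2
    obtain ⟨s', h2, h3⟩ := h2
    obtain ⟨h5, rfl, rfl⟩ : γ s = γ' s' ∧ i = i' ∧ s = s' := by simpa using h3
    have h4 := uniq h.1 h2.1 h.2.2.1.le h5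
    rw [h4 1 (by omega), gad_congr (γ := γ) (γ' := γ') fun k hk _ => by rw [h4 k hk]]
  have hD' : ∀ {i γ s}, Brk lab S i γ s → ∀ ω, H' ω (γ 1, some (i, 1)) = -ω (γ s, some (i, s)) := by
    intro i γ s h ω
    have h1 : (γ 1, some (i, 1)) ∈ D' := ⟨i, γ, s, h, rfl⟩
    rw [show H' ω _ = _ from dif_pos h1]
    have h2 := h1.choose_spec.choose_spec.choose_spec
    generalize h1.choose_spec.choose_spec.choose = s' at h2
    generalize h1.choose_spec.choose = γ' at h2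
    generalize h1.choose = i' at h2
    obtain ⟨h3, rfl⟩ : γ 1 = γ' 1 ∧ i = i' := by simpa using h2.2
    obtain rfl := brk_uniq h h2.1 (by omega) h3
    rw [uniq h.1 h2.1.1 (by omega) h3 s h.2.2.1.le]
  have nD : ∀ {i γ s}, Brk lab S i γ s → ∀ k ≤ i.2.1 + 2, k ≠ s → (γ k, some (i, k)) ∉ D := by
    rintro i γ s h k hk hs ⟨i', γ', s', h', e⟩
    obtain ⟨e', rfl, rfl⟩ : γ k = γ' s' ∧ i = i' ∧ k = s' := by simpa using e
    exact hs (brk_uniq h h' hk e').symm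
  have nD' : ∀ v i k, k ≠ 1 → (v, some (i, k)) ∉ D' := by
    rintro v i k hk ⟨i', γ', s', -, e⟩
    simp [hk] at e
  have h1 := shear (un 100) D H (measurable_pi_lambda _ fun j => by
      simp only [H, gad]; split_ifs <;> fun_prop) (fun _ _ h => dif_neg h) fun y y' => by
    ext j
    by_cases h : j ∈ D
    · obtain ⟨i, γ, s, h, rfl⟩ := h
      have h2 := Finset.mem_Ico.2 ⟨h.2.1, h.2.2.1⟩
      have h3 := fun k hk hs => gl_out y y' (nD h k hk hs)
      have := h.2.1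
      simp only [hD h, gad, ← Finset.sum_erase_add _ _ h2]
      rw [h3 0 (by omega) (by omega), h3 1 (by omega) (by omega), h3 _ le_rfl h.2.2.1.ne',
        Finset.sum_congr rfl fun u hu => h3 u (Finset.mem_Ico.1 (Finset.mem_of_mem_erase hu)).2.le
          (Finset.ne_of_mem_erase hu)]
      ring
    · simp only [H, H', dif_neg h]
  have h2 := shear (un 100) D' H' (measurable_pi_lambda _ fun j => by
      simp only [H']; split_ifs <;> fun_prop) (fun _ _ h => dif_neg h) fun y y' => by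
    ext j
    by_cases h : j ∈ D'
    · obtain ⟨i, γ, s, h, rfl⟩ := h
      rw [hD' h, hD' h, gl_out _ _ (nD' _ _ _ (by have := h.2.1; omega))]
    · simp only [H, H', dif_neg h]
  refine ⟨_, h2.comp h1, fun ω v hv => ?_⟩
  have h3 : ∀ j ∉ D, j ∉ D' → (H' (H ω + ω) + (H ω + ω)) j = ω j := fun j h h' => by
    simp [H, H', h, h']
  have h4 : ∀ c, (v, c) ∉ D := by
    rintro c ⟨i, γ, s, h, e⟩
    exact h.2.2.2.1 ((congrArg Prod.fst e).subst hv)
  ext (_ | ⟨i, s⟩)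
  · rfl
  by_cases hs : s = 1
  swap
  · rw [X2_no _ fun h => hs h.1, X2_no _ fun h => hs h.1]
    exact (h3 _ (h4 _) (nD' _ _ _ hs)).symm
  subst hs
  by_cases h : ∃ γ, Ok lab univ i v γ
  · obtain ⟨γ, h⟩ := h
    rw [X2_ok _ h]
    by_cases h5 : ∃ s, s ∈ Ico 1 (i.2.1 + 2) ∧ γ s ∉ S
    · have h6 := Nat.find_spec h5
      have h7 : Brk lab S i γ (Nat.find h5) := ⟨h.1, by
        by_contra h8
        exact h6.2 (by rw [show Nat.find h5 = 1 by have := h6.1.1; omega, h.2.1]; exact hv),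
        h6.1.2, h6.2, fun u hu => by
          by_contra h8
          exact Nat.find_min h5 hu.2 ⟨⟨hu.1, hu.2.trans h6.1.2⟩, h8⟩⟩
      rw [X2_no _ fun ⟨_, γ', h8⟩ => h6.2 (uniq h.1 h8.1 (s := 1) (by omega)
        (h.2.1.trans h8.2.1.symm) _ h6.1.2.le ▸ h8.2.2 _ h6.1)]
      have h8 := h4 (some (i, 1))
      rw [← h.2.1] at h8 ⊢
      simp only [Function.comp, Pi.add_apply, hD' h7, hD h7, show H ω _ = 0 from dif_neg h8]
      ring
    · push Not at h5
      rw [X2_ok _ ⟨h.1, h.2.1, h5⟩]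
      refine gad_congr fun k hk h6 => (h3 _ ?_ (nD' _ _ _ h6)).symm
      rintro ⟨i', γ', s', h', e⟩
      obtain ⟨e', rfl, rfl⟩ : γ k = γ' s' ∧ i = i' ∧ k = s' := by simpa using e
      exact h'.2.2.2.1 (e' ▸ h5 k ⟨by have := h'.2.1; omega, h'.2.2.1⟩)
  · rw [X2_no _ fun h' => h h'.2, X2_no _ fun ⟨_, γ, h'⟩ => h ⟨γ, h'.1, h'.2.1, fun _ _ => trivial⟩]
    refine (h3 _ (h4 _) ?_).symm
    rintro ⟨i', γ', s', h', e⟩
    obtain ⟨e', rfl⟩ : v = γ' 1 ∧ i = i' := by simpa using e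
    exact h ⟨γ', h'.1, e'.symm, fun _ _ => trivial⟩

end
end Pool.Agent.H22.TG
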