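import Mathlib
import Pool.Agent.H22.TG1

set_option autoImplicit false
open MeasureTheory ProbabilityTheory Set Filter
open scoped Classical
open Pool.Agent.H22.Glue Pool.Agent.H22.T3

namespace Pool.Agent.H22.TG
noncomputable section

lemma adj_dist {u v : V} (h : G.Adj u v) (w : V) : G.dist w v ≤ G.dist w u + 1 :=
  conn.dist_triangle.trans (by rw [SimpleGraph.dist_eq_one_iff_adj.2 h])

lemma X2_gl (lab : V → Z) (S : Set V) (y y' : J → Z) :
    X2 lab S (gl {j | j.2 ≠ none} y y') = X2 lab S y' := by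
  ext v (_ | ⟨i, s⟩)
  · rfl
  simp only [X2]
  split_ifs
  · exact gad_congr fun k _ _ => gl_in _ _ (by simp)
  · exact gl_in _ _ (by simp)

lemma dep (A B : Set V) (h : ∀ a ∈ A, ∀ b ∈ B, 4 < G.dist a b) :
    IndepFun (fun ω (a : A) => X univ ω a) (fun ω (b : B) => X univ ω b) PP := by
  have hm : ∀ S A : Set V, Measurable fun ω (a : A) => X S ω a := fun S A =>
    measurable_pi_lambda _ fun a => (measurable_pi_apply _).comp (X_meas S)
  have h1 : ∀ {T : Type} [MeasurableSpace T] (k : (↥(A ∪ B) → C → Z) → T), Measurable k →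
      PP.map (fun ω => k fun a => X univ ω a) = PP.map (fun ω => k fun a => X (A ∪ B) ω a) := by
    intro T _ k hk
    refine fiber _ {j | j.2 ≠ none} (hk.comp (hm _ _)) (hk.comp (hm _ _)) fun y => ?_
    obtain ⟨Φ, h1, h2⟩ := phi (fun v => y (v, none)) (A ∪ B)
    refine ⟨Φ, h1, fun y' => congrArg k (funext fun a => ?_)⟩
    have h3 : ∀ y', (fun v => gl {j : J | j.2 ≠ none} y y' (v, none)) = fun v => y (v, none) :=
      fun y' => funext fun v => gl_out _ _ (by simp)
    simp only [X, h3, X2_gl]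
    exact h2 _ _ a.2
  have h2 : ∀ A' B' : Set V, (∀ a ∈ A', ∀ b ∈ B', 4 < G.dist a b) →
      Measurable[cylinderEvents {j : J | j.1 ∈ {u | ∃ a ∈ A', G.dist a u ≤ 2}}]
        fun ω (a : A') => X (A' ∪ B') ω a := by
    intro A' B' h
    let := cylinderEvents (X := fun _ : J => Z) {j : J | j.1 ∈ {u | ∃ a ∈ A', G.dist a u ≤ 2}}
    refine measurable_pi_lambda _ fun a => X_meas' _ _ _ ⟨a, a.2, by simp⟩ fun n γ h1 h2 h3 => ?_
    have h4 : ∀ s, s + 1 < n + 2 → γ (s + 1) ∈ A' := by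
      intro s hs
      induction s with
      | zero => exact h1 ▸ a.2
      | succ s ih =>
        refine (h3 _ ⟨by omega, hs⟩).resolve_right fun hb => ?_
        have := h _ (ih (by omega)) _ hb
        rw [SimpleGraph.dist_eq_one_iff_adj.2 (h2 _ (by omega))] at this
        omega
    have h5 : ∀ k ≤ n + 2, ∃ a ∈ A', G.dist a (γ k) ≤ 1 := by
      rintro (_ | _ | k) hk
      · exact ⟨_, h4 0 (by omega), by simpa using adj_dist (h2 0 (by omega)).symm (γ 1)⟩
      · exact ⟨_, h4 0 (by omega), by simp⟩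
      · exact ⟨_, h4 k (by omega), by simpa using adj_dist (h2 (k + 1) (by omega)) (γ (k + 1))⟩
    intro k hk
    obtain ⟨a, ha, h6⟩ := h5 k hk
    exact ⟨⟨a, ha, by omega⟩, fun b => ⟨a, ha, (adj_dist ⟨b, rfl⟩ a).trans (by omega)⟩⟩
  have h3 := h2 A B h
  have h4 := h2 B A fun a ha b hb => SimpleGraph.dist_comm ▸ h b hb a ha
  rw [union_comm B] at h4
  have h5 : IndepFun (fun ω (a : A) => X (A ∪ B) ω a) (fun ω (b : B) => X (A ∪ B) ω b) PP := by
    rw [indepFun_iff_measure_inter_preimage_eq_mul]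
    refine fun E E' hE hE' => Pool.Agent.H22.Perc3.ind _ (disjoint_left.2 ?_) (h3 hE) (h4 hE')
    rintro j ⟨a, ha, h5⟩ ⟨b, hb, h6⟩
    have := h a ha b hb
    have := conn.dist_triangle (u := a) (v := j.1) (w := b)
    rw [SimpleGraph.dist_comm] at h6
    omega
  rw [indepFun_iff_map_prod_eq_prod_map_map (hm _ _).aemeasurable (hm _ _).aemeasurable] at h5 ⊢
  rw [h1 (fun z => (fun a : A => z ⟨a, .inl a.2⟩, fun b : B => z ⟨b, .inr b.2⟩)) (by fun_prop),
    h1 (fun z (a : A) => z ⟨a, .inl a.2⟩) (by fun_prop),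
    h1 (fun z (a : B) => z ⟨a, .inr a.2⟩) (by fun_prop)]
  exact h5

def Gn {Ω : Type} (g : V → Set Ω) : ℕ → V → Set Ω
  | 0 => g
  | n + 1 => fun v => Gn g n v ∩ (Gn g n (act 0 v) ∩ Gn g n (act 1 v) ∪
      Gn g n (act 0 v) ∩ Gn g n (act 2 v) ∪ Gn g n (act 1 v) ∩ Gn g n (act 2 v))

lemma path {Ω : Type} (g : V → Set Ω) (y : Ω) (n : ℕ) : ∀ v, y ∈ Gn g n v → ∃ γ : ℕ → V, γ 0 = v ∧
    (∀ k < n, G.Adj (γ k) (γ (k + 1))) ∧ (∀ k ≤ n, y ∈ g (γ k)) ∧
    (γ n).1.length = v.1.length + n := by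
  have h0 : ∀ n v, y ∈ Gn g n v → y ∈ g v := fun n v h => by
    induction n with
    | zero => exact h
    | succ n ih => exact ih h.1
  induction n with
  | zero => exact fun v h => ⟨fun _ => v, rfl, by simp, fun _ _ => h, rfl⟩
  | succ n ih =>
    intro v h
    obtain ⟨a, h1, h2⟩ : ∃ a, y ∈ Gn g n (act a v) ∧ (act a v).1.length = v.1.length + 1 := by
      rcases h.2 with (h | h) | h
      · exact (up (a := 0) (b := 1) (by decide) v).elim (⟨_, h.1, ·⟩) (⟨_, h.2, ·⟩)
      · exact (up (a := 0) (b := 2) (by decide) v).elim (⟨_, h.1, ·⟩) (⟨_, h.2, ·⟩)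
      · exact (up (a := 1) (b := 2) (by decide) v).elim (⟨_, h.1, ·⟩) (⟨_, h.2, ·⟩)
    obtain ⟨γ, h3, h4, h5, h6⟩ := ih _ h1
    refine ⟨fun k => Nat.casesOn k v γ, rfl, ?_, ?_, by simp only [h6]; omega⟩
    · rintro (_ | k) hk
      · exact ⟨a, h3.symm⟩
      · exact h4 k (by omega)
    · rintro (_ | k) hk
      · exact h0 _ _ h
      · exact h5 k (by omega)

lemma prune {Ω : Type} [MeasurableSpace Ω] (P : Measure Ω) [IsProbabilityMeasure P] (g : V → Set Ω)
    (hg : ∀ v, MeasurableSet (g v)) (σ : Fin 3 → Ω → Ω) (hσ : ∀ s, MeasurePreserving (σ s) P P)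
    (he : ∀ s, ∀ᵐ y ∂P, ∀ v, σ s y ∈ g v ↔ y ∈ g (sw s v)) (n : ℕ) :
    P.real (Gn g n o)ᶜ ≤ 4 * P.real (g o)ᶜ := by
  have hm : ∀ n v, MeasurableSet (Gn g n v) := fun n => by
    induction n with
    | zero => exact hg
    | succ n ih => exact fun v => by simp only [Gn]; measurability
  have h1 : ∀ s, ∀ᵐ y ∂P, ∀ n v, σ s y ∈ Gn g n v ↔ y ∈ Gn g n (sw s v) := fun s => by
    filter_upwards [he s] with y hy n
    induction n with
    | zero => exact hy
    | succ n ih => intro v; simp only [Gn, mem_inter_iff, mem_union, ih, sw_act]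
  have h2 : ∀ s n m, P.real (Gn g n o ∩ (Gn g m (act s o))ᶜ) =
      P.real (Gn g n (act s o) ∩ (Gn g m o)ᶜ) := fun s n m => by
    rw [← (hσ s).measureReal_preimage ((hm _ _).inter (hm _ _).compl).nullMeasurableSet]
    refine measureReal_congr ((h1 s).mono fun y hy => propext ?_)
    change _ ∧ ¬ _ ↔ _ ∧ ¬ _
    rw [hy, hy, sw_act, sw_o, act_act]
  let I : Set Ω → Ω → ℝ := fun S => S.indicator 1
  have hI : ∀ n m u v, Integrable (I (Gn g n u ∩ (Gn g m v)ᶜ)) P := fun n m u v =>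
    (integrable_const 1).indicator ((hm _ _).inter (hm _ _).compl)
  have hI' : ∀ n m u v, ∫ y, I (Gn g n u ∩ (Gn g m v)ᶜ) y ∂P = P.real (Gn g n u ∩ (Gn g m v)ᶜ) :=
    fun n m u v => integral_indicator_one ((hm _ _).inter (hm _ _).compl)
  have h3 : ∀ n, ∑ s, P.real (Gn g n (act s o) ∩ (Gn g n o)ᶜ) + P.real (Gn g n o)ᶜ ≤
      4 * P.real (g o)ᶜ := by
    intro n
    induction n with
    | zero =>
      have := fun s => measureReal_mono (μ := P) (inter_subset_right (s := g (act s o)) (t := (g o)ᶜ))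
      simp only [Fin.sum_univ_three, Gn]
      linarith [this 0, this 1, this 2]
    | succ n ih =>
      refine le_trans ?_ ih
      have h4 : ∀ s, P.real (Gn g (n + 1) (act s o) ∩ (Gn g (n + 1) o)ᶜ) ≤
          P.real (Gn g (n + 1) o ∩ (Gn g n (act s o))ᶜ) + (P.real (Gn g n (act s o) ∩
            (Gn g (n + 1) o)ᶜ) - P.real (Gn g n (act s o) ∩ (Gn g n o)ᶜ)) := by
        intro s
        have h5 := measureReal_inter_add_sdiff (μ := P) (s := Gn g (n + 1) (act s o) ∩
          (Gn g (n + 1) o)ᶜ) (hm n o)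
        have h6 := measureReal_inter_add_sdiff (μ := P) (s := Gn g n (act s o) ∩
          (Gn g (n + 1) o)ᶜ) (hm n o)
        have h7 := measureReal_mono (μ := P) (show Gn g (n + 1) (act s o) ∩ (Gn g (n + 1) o)ᶜ ∩
          Gn g n o ⊆ Gn g n (act s o) ∩ (Gn g (n + 1) o)ᶜ ∩ Gn g n o from
          fun y h => ⟨⟨h.1.1.1, h.1.2⟩, h.2⟩)
        have h8 := measureReal_mono (μ := P) (show (Gn g (n + 1) (act s o) ∩ (Gn g (n + 1) o)ᶜ) \
          Gn g n o ⊆ Gn g (n + 1) (act s o) ∩ (Gn g n o)ᶜ from fun y h => ⟨h.1.1, h.2⟩)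
        have h9 := measureReal_mono (μ := P) (show Gn g n (act s o) ∩ (Gn g n o)ᶜ ⊆
          (Gn g n (act s o) ∩ (Gn g (n + 1) o)ᶜ) \ Gn g n o from
          fun y h => ⟨⟨h.1, fun h' => h.2 h'.1⟩, h.2⟩)
        rw [h2]
        linarith
      have h5 : ∫ y, (∑ s, (I (Gn g (n + 1) o ∩ (Gn g n (act s o))ᶜ) y +
          I (Gn g n (act s o) ∩ (Gn g (n + 1) o)ᶜ) y) + I (Gn g n o ∩ (Gn g (n + 1) o)ᶜ) y) ∂P ≤
          ∫ y, ∑ s, (I (Gn g n o ∩ (Gn g n (act s o))ᶜ) y +
            I (Gn g n (act s o) ∩ (Gn g n o)ᶜ) y) ∂P := by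
        refine integral_mono ((integrable_finsetSum _ fun s _ => (hI ..).add (hI ..)).add (hI ..))
          (integrable_finsetSum _ fun s _ => (hI ..).add (hI ..)) fun y => ?_
        simp only [Fin.sum_univ_three]
        by_cases a : y ∈ Gn g n o <;> by_cases a0 : y ∈ Gn g n (act 0 o) <;>
          by_cases a1 : y ∈ Gn g n (act 1 o) <;> by_cases a2 : y ∈ Gn g n (act 2 o) <;>
          simp [I, Gn, *]
      rw [integral_add (integrable_finsetSum _ fun s _ => (hI ..).fun_add (hI ..)) (hI ..),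
        integral_finsetSum _ fun s _ => (hI ..).fun_add (hI ..),
        integral_finsetSum _ fun s _ => (hI ..).fun_add (hI ..)] at h5
      simp only [integral_add (hI ..) (hI ..), hI', h2 _ n n, Fin.sum_univ_three] at h5 ⊢
      have h6 := measureReal_inter_add_sdiff (μ := P) (s := (Gn g (n + 1) o)ᶜ) (hm n o)
      have h7 := measureReal_mono (μ := P) (show (Gn g (n + 1) o)ᶜ \ Gn g n o ⊆ (Gn g n o)ᶜ from
        fun y h => h.2)
      rw [inter_comm] at h6
      linarith [h4 0, h4 1, h4 2]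
  exact le_trans (le_add_of_nonneg_left (Finset.sum_nonneg fun _ _ => measureReal_nonneg)) (h3 n)

lemma null {ι Y : Type} [MeasurableSpace Y] (ν : ι → Measure Y) [∀ i, IsProbabilityMeasure (ν i)]
    (D : Set ι) {A : Set (ι → Y)} (hA : MeasurableSet A)
    (h : ∀ y', Measure.infinitePi ν {y | y ∈ A ∧ gl D y y' ∈ A} = 0) : Measure.infinitePi ν A = 0 := by
  set P := Measure.infinitePi ν
  have hm := glue_meas D hA
  have h1 : (P.prod P) {p | p.1 ∈ A ∧ gl D p.1 p.2 ∈ A} = 0 := by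
    refine (Measure.prod_apply_symm ((measurable_fst hA).inter hm)).trans ?_
    exact lintegral_congr h |>.trans lintegral_zero
  let N := {y | P {y' | gl D y y' ∈ A} = 0}
  have hN : MeasurableSet N := measurable_measure_prodMk_left hm (measurableSet_singleton 0)
  have h2 : P (A ∩ N) = 0 := by
    rw [← (glue ν D).measure_preimage (hA.inter hN).nullMeasurableSet,
      Measure.measure_prod_null (glue_meas D (hA.inter hN))]
    refine ae_of_all _ fun y => ?_
    by_cases hy : y ∈ N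
    · exact measure_mono_null (fun y' h => h.1) hy
    · refine measure_mono_null (fun y' h => hy ?_) measure_empty
      have : ∀ y'', gl D (gl D y y') y'' = gl D y y'' := fun y'' => by ext i; simp +contextual [gl]
      simpa only [N, mem_ofPred_eq, this] using h.2
  refine measure_mono_null (fun y hy => ?_) (measure_union_null h2
    (ae_iff.1 ((Measure.measure_prod_null ((measurable_fst hA).inter hm)).1 h1)))
  by_cases h3 : y ∈ N
  · exact .inl ⟨hy, h3⟩
  · exact .inr fun h => h3 (measure_mono_null (fun y' h' => And.intro hy h') h)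

lemma two {j j' : J} (h : j ≠ j') (a b : Z) : PP {ω | ω j = a ∧ ω j' = b} = 100⁻¹ * 100⁻¹ := by
  have h1 := Measure.infinitePi_pi (fun _ : J => un 100) (s := {j, j'})
    (t := fun k => {if k = j then a else b}) fun _ _ => measurableSet_singleton _
  rw [Finset.prod_pair h, un_single, un_single] at h1
  refine Eq.trans (congrArg _ ?_) h1
  ext ω
  simp [h.symm]

lemma tie : PP.real {ω | ¬ TF (fun v => ω (v, none)) o} ≤ 1 / 10 := by
  refine (measureReal_mono (s₂ := ⋃ p ∈ (Finset.univ : Finset (Fin 3)).offDiag ×ˢ (Finset.univ : Finset Z),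
    {ω | ω (act p.1.1 o, none) = p.2 ∧ ω (act p.1.2 o, none) = p.2}) (fun ω h => ?_)
    (measure_ne_top _ _)).trans
    ((measureReal_biUnion_finset_le _ _).trans ((Finset.sum_le_card_nsmul _ _ (1 / 10000)
      fun p hp => ?_).trans ?_))
  · simp only [TF, not_forall, mem_ofPred_eq] at h
    obtain ⟨a, b, h, h'⟩ := h
    exact mem_biUnion (x := ((a, b), _)) (by simpa) ⟨h, rfl⟩
  · rw [Measure.real, two fun h => (Finset.mem_offDiag.1 (Finset.mem_product.1 hp).1).2.2
      (act_inj o (congrArg Prod.fst h))]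
    norm_num
  · simp; norm_num

lemma many (u v : V) (c : List Z) (n : ℕ) (α β : ℕ → Z) : PP {ω | ∀ j,
    (ω (u, some ((c, n, j), 0)) - α j) * (ω (v, some ((c, n, j), n + 2)) - β j) = 0} = 0 := by
  let B : ℕ → Set (J → Z) := fun j => {ω | ω (u, some ((c, n, j), 0)) = α j + 1 ∧
    ω (v, some ((c, n, j), n + 2)) = β j + 1}ᶜ
  let T : ℕ → Set J := fun j => {(u, some ((c, n, j), 0)), (v, some ((c, n, j), n + 2))}
  have h0 : ∀ j, MeasurableSet[cylinderEvents (T j)] (B j)ᶜ := fun j => by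
    simp only [B, compl_compl]
    exact (Pool.Agent.H22.Perc3.ev_meas (T j) _ (.inl rfl) _ (measurableSet_singleton _)).inter
      (Pool.Agent.H22.Perc3.ev_meas (T j) _ (.inr rfl) _ (measurableSet_singleton _))
  have h1 := fun m => Pool.Agent.H22.Perc3.ind_prod (fun _ : J => un 100) ∅ T univ B
    (1 - 100⁻¹ * 100⁻¹) (Finset.range m) .univ (fun j _ => .of_compl (h0 j)) (by simp)
    (fun j _ k _ h => by simp [T, h.symm]) fun j _ => by
      rw [← compl_compl (B j), prob_compl_eq_one_sub (cylinderEvents_le_pi _ (h0 j))]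
      simp only [B, compl_compl]
      rw [two (by simp)]
  refine le_zero_iff.1 (ge_of_tendsto' (ENNReal.tendsto_pow_atTop_nhds_zero_of_lt_one
    (ENNReal.sub_lt_self (b := 100⁻¹ * 100⁻¹) ENNReal.one_ne_top one_ne_zero (by simp))) fun m => ?_)
  refine (measure_mono fun ω h => ?_).trans ((h1 m).trans_eq (by simp))
  refine ⟨trivial, mem_iInter₂.2 fun j _ h' => ?_⟩
  have := h j
  rw [h'.1, h'.2] at this
  simp at this
  exact absurd this (by decide)

end
end Pool.Agent.H22.TG
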