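import Mathlib

namespace Pool.Agent.H22.ThueFib

/-- The Prouhet-Thue-Morse sequence `(-1) ^ s_2(n)`, `s_2` the binary digit sum. -/
def t (n : ℕ) : ℤ := (-1) ^ (Nat.digits 2 n).sum

/-- The twisted Fibonacci sequence. -/
def h : ℕ → ℤ
  | 0 => 0
  | 1 => 1
  | n + 2 => t (n + 2) * h (n + 1) + h n

theorem t_zero : t 0 = 1 := by simp [t]

theorem t_even (n : ℕ) : t (2 * n) = t n := by
  rcases Nat.eq_zero_or_pos n with rfl | hn
  · rfl
  · rw [t, t, Nat.digits_base_mul (by norm_num) hn]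
    simp

theorem t_odd (n : ℕ) : t (2 * n + 1) = - t n := by
  rw [t, t, add_comm, Nat.digits_add 2 (by norm_num) 1 n (by norm_num) (Or.inl (by norm_num))]
  simp [pow_add]

theorem t_sq (n : ℕ) : t n * t n = 1 := by
  rw [t, ← mul_pow]
  simp

def G : ℕ → ℤ
  | 0 => -1
  | 1 => 1
  | n + 2 => t n * G (n + 1) + G n

theorem G_eq (n : ℕ) : G (n + 2) = h n ∧ G (n + 3) = h (n + 1) := by
  induction n with
  | zero =>
    have h1 : t 1 = -1 := by simpa [t_zero] using t_odd 0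
    simp [G, h, t_zero, h1]
  | succ n ih =>
    refine ⟨ih.2, ?_⟩
    rw [show n + 1 + 3 = (n + 2) + 2 from rfl, G, h, ih.1, ← ih.2]

theorem block (k : ℕ) : ∃ a b d : ℤ, a * d - (-1) ^ (k + 1) * b ^ 2 = 1 ∧ ∀ m,
    G (2 ^ (k + 1) * (m + 1) + 1) =
      a * G (2 ^ (k + 1) * m + 1) + t m * b * G (2 ^ (k + 1) * m) ∧
    G (2 ^ (k + 1) * (m + 1)) =
      t m * (-1) ^ (k + 1) * b * G (2 ^ (k + 1) * m + 1) + d * G (2 ^ (k + 1) * m) := by
  induction k with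
  | zero =>
    refine ⟨0, -1, 1, by norm_num, fun m => ?_⟩
    have e1 : G (2 * m + 2) = t m * G (2 * m + 1) + G (2 * m) := by rw [G, t_even]
    have e2 : G (2 * m + 1 + 2) = - t m * G (2 * m + 2) + G (2 * m + 1) := by rw [G, t_odd]
    have e3 := t_sq m
    simp only [zero_add, pow_one, mul_add, mul_one]
    constructor
    · rw [show 2 * m + 2 + 1 = 2 * m + 1 + 2 from rfl, e2, e1]
      linear_combination (-G (2 * m + 1)) * e3
    · rw [e1]
      ring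
  | succ k ih =>
    obtain ⟨a, b, d, hd, hm⟩ := ih
    have he : ((-1 : ℤ) ^ (k + 1)) * (-1) ^ (k + 1) = 1 := by
      rw [← mul_pow]
      simp
    refine ⟨a ^ 2 - (-1) ^ (k + 1) * b ^ 2, b * (a - d), d ^ 2 - (-1) ^ (k + 1) * b ^ 2, ?_,
      fun m => ?_⟩
    · rw [pow_succ (-1 : ℤ) (k + 1)]
      linear_combination (a * d - (-1) ^ (k + 1) * b ^ 2 + 1) * hd
    · obtain ⟨h1, h2⟩ := hm (2 * m)
      obtain ⟨h3, h4⟩ := hm (2 * m + 1)
      rw [t_even] at h1 h2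
      rw [t_odd, h1, h2] at h3 h4
      have e3 := t_sq m
      rw [show 2 ^ (k + 1 + 1) * (m + 1) = 2 ^ (k + 1) * (2 * m + 1 + 1) by ring,
        show 2 ^ (k + 1 + 1) * m = 2 ^ (k + 1) * (2 * m) by ring, h3, h4,
        pow_succ (-1 : ℤ) (k + 1)]
      constructor
      · linear_combination (-(-1) ^ (k + 1) * b ^ 2 * G (2 ^ (k + 1) * (2 * m) + 1)) * e3
      · linear_combination (-(-1) ^ (k + 1) * b ^ 2 * G (2 ^ (k + 1) * (2 * m))) * e3

theorem t_mersenne (j : ℕ) : ∃ u, 2 ^ j = u + 1 ∧ t u = (-1) ^ j := by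
  induction j with
  | zero => exact ⟨0, rfl, t_zero⟩
  | succ j ih =>
    obtain ⟨u, hu, ht⟩ := ih
    exact ⟨2 * u + 1, by rw [pow_succ, hu]; ring, by rw [t_odd, ht, pow_succ]; ring⟩

theorem main (j : ℕ) :
    h (2 ^ (j + 2) - 3) ∣ h (2 * (2 ^ (j + 2) - 3)) + 1 - (-1) ^ j := by
  obtain ⟨u, hu, ht⟩ := t_mersenne j
  obtain ⟨a, b, d, hd, hm⟩ := block (j + 1)
  have hp : 2 ^ (j + 1 + 1) = 4 * u + 4 := by rw [pow_succ, pow_succ, hu]; ring
  have hs : (-1 : ℤ) ^ (j + 1 + 1) = t u := by rw [ht]; ring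
  rw [hp, hs] at hm
  rw [hs] at hd
  obtain ⟨h1, h2⟩ := hm 0
  obtain ⟨h3, h4⟩ := hm 1
  have t1 : t 1 = -1 := by simpa [t_zero] using t_odd 0
  have z0 : G 0 = -1 := rfl
  have z1 : G 1 = 1 := rfl
  simp only [zero_add, mul_zero, mul_one, t_zero, t1, z0, z1] at h1 h2 h3 h4
  have s1 : t (4 * u + 3) = t u := by
    rw [show 4 * u + 3 = 2 * (2 * u + 1) + 1 by ring, t_odd, t_odd, neg_neg]
  have s2 : t (4 * u + 2) = - t u := by
    rw [show 4 * u + 2 = 2 * (2 * u + 1) by ring, t_even, t_odd]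
  have s7 : t (8 * u + 7) = - t u := by
    rw [show 8 * u + 7 = 2 * (4 * u + 3) + 1 by ring, t_odd, s1]
  have s6 : t (8 * u + 6) = t u := by
    rw [show 8 * u + 6 = 2 * (4 * u + 3) by ring, t_even, s1]
  have s5 : t (8 * u + 5) = t u := by
    rw [show 8 * u + 5 = 2 * (4 * u + 2) + 1 by ring, t_odd, s2, neg_neg]
  have s4 : t (8 * u + 4) = - t u := by
    rw [show 8 * u + 4 = 2 * (4 * u + 2) by ring, t_even, s2]
  have g1 : G (4 * u + 4 + 1) = t (4 * u + 3) * G (4 * u + 4) + G (4 * u + 3) := rfl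
  have g9 : G (8 * u + 9) = t (8 * u + 7) * G (8 * u + 8) + G (8 * u + 7) := rfl
  have g8 : G (8 * u + 8) = t (8 * u + 6) * G (8 * u + 7) + G (8 * u + 6) := rfl
  have g7 : G (8 * u + 7) = t (8 * u + 5) * G (8 * u + 6) + G (8 * u + 5) := rfl
  have g6 : G (8 * u + 6) = t (8 * u + 4) * G (8 * u + 5) + G (8 * u + 4) := rfl
  rw [show (4 * u + 4) * (1 + 1) = 8 * u + 8 by ring] at h3 h4
  rw [show 8 * u + 8 + 1 = 8 * u + 9 from rfl] at h3
  rw [show 2 ^ (j + 2) - 3 = 4 * u + 1 by rw [show j + 2 = j + 1 + 1 from rfl, hp]; rfl,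
    show 2 * (4 * u + 1) = 8 * u + 2 by ring, ← (G_eq (4 * u + 1)).1, ← (G_eq (8 * u + 2)).1,
    ← ht]
  rw [show 4 * u + 1 + 2 = 4 * u + 3 from rfl, show 8 * u + 2 + 2 = 8 * u + 4 from rfl]
  rw [s1, h1, h2] at g1
  rw [h1, h2] at h3 h4
  rw [s7, h3, h4] at g9
  rw [s6, h4] at g8
  rw [s5] at g7
  rw [s4] at g6
  have e := t_sq u
  rcases mul_self_eq_one_iff.1 e with e1 | e1 <;> rw [e1] at hd g1 g9 g8 g7 g6 ⊢
  · refine ⟨a - d, ?_⟩
    have x1 : G (4 * u + 3) = a - 2 * b + d := by linarith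
    rw [x1]
    linarith
  · refine ⟨d - a, ?_⟩
    have x1 : G (4 * u + 3) = a - 2 * b - d := by linarith
    rw [x1]
    linarith

end Pool.Agent.H22.ThueFib
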