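import Mathlib

set_option autoImplicit false

open MeasureTheory AddCircle

namespace Pool.Agent.H22.Tilf

abbrev CT := C(UnitAddCircle, ℂ)

lemma intg (f : CT) : Integrable (⇑f) haarAddCircle :=
  f.continuous.integrable_of_hasCompactSupport (HasCompactSupport.of_compactSpace _)

lemma norm_fourier (n : ℤ) (x : UnitAddCircle) : ‖fourier n x‖ = 1 := by
  rw [fourier_apply]; exact Circle.norm_coe _

/-- Fourier coefficient as a continuous linear functional -/
noncomputable def F (k : ℤ) : CT →L[ℂ] ℂ :=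
  LinearMap.mkContinuous
    { toFun := fun f => fourierCoeff (⇑f) k
      map_add' := fun f g => by
        have := fourierCoeff.add (intg f) (intg g)
        exact congrFun this k
      map_smul' := fun c f => fourierCoeff.const_smul (⇑f) c k } 1 (fun f => by
    have h : ‖∫ t : UnitAddCircle, fourier (-k) t • f t ∂haarAddCircle‖ ≤
        ‖f‖ * (haarAddCircle (T := 1)).real Set.univ :=
      norm_integral_le_of_norm_le_const (Filter.Eventually.of_forall fun t => by
        rw [norm_smul, norm_fourier, one_mul]; exact f.norm_coe_le_norm t)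
    simpa [fourierCoeff] using h)

lemma F_apply (k : ℤ) (f : CT) : F k f = fourierCoeff (⇑f) k := rfl

/-- translation t ↦ f (t + a) -/
noncomputable def T (a : UnitAddCircle) : CT →L[ℂ] CT :=
  LinearMap.mkContinuous
    { toFun := fun f => f.comp (ContinuousMap.mk (fun x : UnitAddCircle => x + a)
        (continuous_add_right a))
      map_add' := fun f g => by ext; simp
      map_smul' := fun c f => by ext; simp } 1 (fun f => by
    rw [one_mul]
    exact (ContinuousMap.norm_le _ (norm_nonneg _)).2 fun x => f.norm_coe_le_norm _)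

lemma T_apply (a : UnitAddCircle) (f : CT) (t : UnitAddCircle) : T a f t = f (t + a) := rfl

lemma norm_T_le (a : UnitAddCircle) (f : CT) : ‖T a f‖ ≤ ‖f‖ :=
  (ContinuousMap.norm_le _ (norm_nonneg _)).2 fun x => f.norm_coe_le_norm _

lemma T_T (a b : UnitAddCircle) (f : CT) : T a (T b f) = T (a + b) f := by
  ext t; simp [T_apply, add_assoc]

lemma T_zero (f : CT) : T 0 f = f := by ext t; simp [T_apply]

lemma fourier_add_pt (n : ℤ) (x y : UnitAddCircle) :
    fourier n (x + y) = fourier n x * fourier n y := by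
  simp only [fourier_apply, smul_add, toCircle_add, Circle.coe_mul]

lemma F_T (k : ℤ) (a : UnitAddCircle) (f : CT) : F k (T a f) = fourier k a * F k f := by
  have h := integral_add_right_eq_self (μ := haarAddCircle (T := 1))
    (fun t : UnitAddCircle => fourier (-k) t • f t) a
  simp only [F_apply, fourierCoeff, T_apply]
  rw [← h, ← integral_const_mul]
  congr 1; ext t
  rw [fourier_add_pt, smul_eq_mul, smul_eq_mul]
  have : fourier k a * fourier (-k) a = 1 := by rw [← fourier_add]; simp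
  linear_combination (-(fourier (-k) t * f (t + a))) * this

lemma eq_zero_of_F (f : CT) (h : ∀ k, F k f = 0) : f = 0 := by
  have h0 : fourierCoeff (⇑f) = 0 := funext h
  have := hasSum_fourier_series_of_summable (f := f) (by rw [h0]; exact summable_zero)
  refine this.unique ?_
  have e : (fun i => fourierCoeff (⇑f) i • (fourier i : CT)) = fun _ => 0 := by
    funext i; rw [h0]; exact zero_smul ℂ (fourier i : CT)
  rw [e]; exact hasSum_zero

lemma F_fourier (k n : ℤ) : F k (fourier n) = if k = n then 1 else 0 := by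
  rw [F_apply, fourierCoeff_fourier, Pi.single_apply]

/-- Rudin–Shapiro polynomials -/
lemma rs (n : ℕ) : ∃ c d : ℕ → ℂ, (∀ k, ‖c k‖ = 1 ∧ ‖d k‖ = 1) ∧ ∀ z : ℂ, ‖z‖ = 1 →
    ‖∑ k ∈ Finset.range (2 ^ n), c k * z ^ k‖ ^ 2 +
      ‖∑ k ∈ Finset.range (2 ^ n), d k * z ^ k‖ ^ 2 = 2 ^ (n + 1) := by
  induction n with
  | zero => exact ⟨fun _ => 1, fun _ => 1, fun _ => by simp, fun z _ => by norm_num⟩
  | succ n ih =>
    obtain ⟨c, d, h1, h2⟩ := ih
    refine ⟨fun k => if k < 2 ^ n then c k else d (k - 2 ^ n),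
      fun k => if k < 2 ^ n then c k else - d (k - 2 ^ n), fun k => ?_, fun z hz => ?_⟩
    · by_cases hk : k < 2 ^ n <;> simp [hk, h1]
    · have e : 2 ^ (n + 1) = 2 ^ n + 2 ^ n := by ring
      rw [e, Finset.sum_range_add, Finset.sum_range_add]
      have a1 : ∀ u : ℕ → ℂ, ∑ k ∈ Finset.range (2 ^ n),
          (if k < 2 ^ n then c k else u k) * z ^ k = ∑ k ∈ Finset.range (2 ^ n), c k * z ^ k :=
        fun u => Finset.sum_congr rfl fun k hk => by rw [if_pos (Finset.mem_range.1 hk)]
      rw [a1, a1]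
      have a2 : ∑ k ∈ Finset.range (2 ^ n),
          (if 2 ^ n + k < 2 ^ n then c (2 ^ n + k) else d (2 ^ n + k - 2 ^ n)) * z ^ (2 ^ n + k)
          = z ^ (2 ^ n) * ∑ k ∈ Finset.range (2 ^ n), d k * z ^ k := by
        rw [Finset.mul_sum]
        exact Finset.sum_congr rfl fun k _ => by
          rw [if_neg (by omega), Nat.add_sub_cancel_left, pow_add]; ring
      have a3 : ∑ k ∈ Finset.range (2 ^ n),
          (if 2 ^ n + k < 2 ^ n then c (2 ^ n + k) else - d (2 ^ n + k - 2 ^ n)) * z ^ (2 ^ n + k)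
          = - (z ^ (2 ^ n) * ∑ k ∈ Finset.range (2 ^ n), d k * z ^ k) := by
        rw [Finset.mul_sum, ← Finset.sum_neg_distrib]
        exact Finset.sum_congr rfl fun k _ => by
          rw [if_neg (by omega), Nat.add_sub_cancel_left, pow_add]; ring
      rw [a2, a3, ← sub_eq_add_neg]
      have := parallelogram_law_with_norm ℝ (∑ k ∈ Finset.range (2 ^ n), c k * z ^ k)
        (z ^ (2 ^ n) * ∑ k ∈ Finset.range (2 ^ n), d k * z ^ k)
      rw [norm_mul, norm_pow, hz, one_pow, one_mul] at this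
      have h3 := h2 z hz
      rw [pow_succ 2 (n + 1)]
      nlinarith

lemma fourier_ap (b d : ℤ) (j : ℕ) (x : UnitAddCircle) :
    fourier (b + d * j) x = fourier b x * fourier d x ^ j := by
  induction j with
  | zero => simp
  | succ j ih =>
    rw [show b + d * ((j + 1 : ℕ) : ℤ) = (b + d * j) + d by push_cast; ring, fourier_add, ih]; ring

/-- flat polynomials on arithmetic progressions -/
lemma flat (n : ℕ) (b d : ℤ) : ∃ c : ℕ → ℂ, (∀ k, ‖c k‖ = 1) ∧
    ‖∑ k ∈ Finset.range (2 ^ n), c k • (fourier (b + d * k) : CT)‖ ^ 2 ≤ 2 ^ (n + 1) := by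
  obtain ⟨c, e, h1, h2⟩ := rs n
  refine ⟨c, fun k => (h1 k).1, ?_⟩
  rw [← Real.le_sqrt (norm_nonneg _) (by positivity)]
  refine (ContinuousMap.norm_le _ (Real.sqrt_nonneg _)).2 fun x => ?_
  rw [Real.le_sqrt (norm_nonneg _) (by positivity)]
  have h3 := h2 (fourier d x) (norm_fourier d x)
  have : (∑ k ∈ Finset.range (2 ^ n), c k • (fourier (b + d * k) : CT)) x =
      fourier b x * ∑ k ∈ Finset.range (2 ^ n), c k * fourier d x ^ k := by
    rw [ContinuousMap.sum_apply, Finset.mul_sum]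
    exact Finset.sum_congr rfl fun k _ => by
      rw [ContinuousMap.smul_apply, fourier_ap, smul_eq_mul]; ring
  rw [this, norm_mul, norm_fourier, one_mul]
  nlinarith [sq_nonneg ‖∑ k ∈ Finset.range (2 ^ n), e k * fourier d x ^ k‖]

lemma no_const (C : ℝ) : ∃ n : ℕ, ∀ r : ℝ, 0 ≤ r → r ^ 2 ≤ 2 ^ (n + 1) → ¬ (2 : ℝ) ^ n ≤ C * r := by
  obtain ⟨n, hn⟩ := pow_unbounded_of_one_lt (2 * C ^ 2) (one_lt_two (α := ℝ))
  refine ⟨n, fun r h0 h1 h2 => ?_⟩
  have hp : (0 : ℝ) < 2 ^ n := by positivity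
  have h3 : ((2 : ℝ) ^ n) ^ 2 ≤ (C * r) ^ 2 := pow_le_pow_left₀ hp.le h2 2
  rw [pow_succ] at h1
  have h4 : (C * r) ^ 2 ≤ C ^ 2 * (2 ^ n * 2) := by
    rw [mul_pow]; exact mul_le_mul_of_nonneg_left h1 (sq_nonneg C)
  nlinarith

end Pool.Agent.H22.Tilf
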