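import Pool.Agent.H22.Tilf1

set_option autoImplicit false

open MeasureTheory AddCircle

namespace Pool.Agent.H22.Tilf

/-- the E-spectral continuous functions on the circle ℝ/ℤ -/
def CE (E : Set ℤ) : Submodule ℂ C(UnitAddCircle, ℂ) where
  carrier := {f | ∀ k ∉ E, fourierCoeff (⇑f) k = 0}
  add_mem' := fun {f g} hf hg k hk => by
    rw [← F_apply, map_add, F_apply, F_apply, hf k hk, hg k hk, add_zero]
  zero_mem' := fun k _ => by rw [← F_apply, map_zero]
  smul_mem' := fun c f hf k hk => by rw [← F_apply, map_smul, F_apply, hf k hk, smul_zero]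

/-- every translation-invariant linear form on CE E is continuous for the sup norm -/
def AutoCont (E : Set ℤ) : Prop :=
  ∀ Φ : CE E →ₗ[ℂ] ℂ,
    (∀ (a : UnitAddCircle) (f g : CE E), (∀ t, g.1 t = f.1 (t - a)) → Φ g = Φ f) → Continuous Φ

/-- Sidon sets -/
def Sidon (E : Set ℤ) : Prop :=
  ∀ f ∈ CE E, Summable fun k => ‖fourierCoeff (⇑f) k‖

lemma mem_CE {E : Set ℤ} {f : CT} : f ∈ CE E ↔ ∀ k ∉ E, F k f = 0 := Iff.rfl

lemma T_mem {E : Set ℤ} {f : CT} (a : UnitAddCircle) (hf : f ∈ CE E) : T a f ∈ CE E :=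
  mem_CE.2 fun k hk => by rw [F_T, mem_CE.1 hf k hk, mul_zero]

lemma isClosed_CE (E : Set ℤ) : IsClosed (CE E : Set CT) := by
  have : (CE E : Set CT) = ⋂ k ∈ Eᶜ, {f | F k f = 0} := by
    ext f; simp only [SetLike.mem_coe, mem_CE, Set.mem_iInter, Set.mem_compl_iff, Set.mem_setOf_eq]
  rw [this]
  exact isClosed_biInter fun k _ => isClosed_eq (F k).continuous continuous_const

lemma bump {δ : ℝ} (hδ : 0 < δ) : ∃ c : ℤ → ℂ, Summable (fun n => ‖c n‖) ∧
    Summable (fun n : ℤ => |(n : ℝ)| * ‖c n‖) ∧ ∑' n, c n = 1 ∧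
    ∀ x : UnitAddCircle, δ ≤ ‖x‖ → ∑' n, c n * fourier n x = 0 := by
  have hm : 0 < min δ 1 := lt_min hδ one_pos
  let b : ContDiffBump (0 : ℝ) := ⟨min δ 1 / 2, min δ 1, by positivity, by linarith⟩
  have h1 : HasCompactSupport fun x : ℝ => (b x : ℂ) :=
    b.hasCompactSupport.comp_left (g := fun r : ℝ => (r : ℂ)) (by simp)
  let ψ : SchwartzMap ℝ ℂ := h1.toSchwartzMap (Complex.ofRealCLM.contDiff.comp b.contDiff)
  have hψ : ∀ x, ψ x = (b x : ℂ) := fun x => rfl
  have hz : ∀ x : ℝ, min δ 1 ≤ |x| → ψ x = 0 := fun x hx => by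
    rw [hψ, b.zero_of_le_dist (by rw [Real.dist_eq, sub_zero]; exact hx)]; simp
  obtain ⟨C, hC0, hC⟩ := (FourierTransform.fourier ψ : SchwartzMap ℝ ℂ).decay 3 0
  set c : ℤ → ℂ := fun n => (FourierTransform.fourier ψ : SchwartzMap ℝ ℂ) n with hc
  have hP : ∀ x : ℝ, ∑' n : ℤ, ψ (x + n) = ∑' n : ℤ, c n * fourier n (x : UnitAddCircle) :=
    fun x => ψ.tsum_eq_tsum_fourier x
  have s2 : Summable (fun n : ℤ => |(n : ℝ)| * ‖c n‖) := by
    refine Summable.of_nonneg_of_le (fun n => by positivity) (fun n => ?_)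
      ((Real.summable_one_div_int_pow.2 (one_lt_two)).mul_left C)
    have := hC n
    rw [norm_iteratedFDeriv_zero, Real.norm_eq_abs] at this
    rcases eq_or_ne n 0 with rfl | hn
    · simp
    · have hn' : (0 : ℝ) < (n : ℝ) ^ 2 := by positivity
      rw [mul_one_div, le_div_iff₀ hn', ← sq_abs]
      calc _ = |(n : ℝ)| ^ 3 * ‖c n‖ := by ring
        _ ≤ C := this
  have s1 : Summable (fun n => ‖c n‖) := by
    refine Summable.of_norm_bounded_eventually s2 ?_
    refine (Set.finite_singleton (0 : ℤ)).subset fun n hn => ?_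
    by_contra h0
    apply hn
    have : (1 : ℝ) ≤ |(n : ℝ)| := by exact_mod_cast Int.one_le_abs h0
    simp only [Set.mem_setOf_eq, norm_norm]
    nlinarith [norm_nonneg (c n)]
  refine ⟨c, s1, s2, ?_, fun x hx => ?_⟩
  · have := hP 0
    simp only [zero_add, QuotientAddGroup.mk_zero, fourier_eval_zero, mul_one] at this
    rw [← this, tsum_eq_single 0]
    · rw [hψ, b.one_of_mem_closedBall (by simpa using b.rIn_pos.le)]; simp
    · intro n hn
      have : (1 : ℝ) ≤ |(n : ℝ)| := by exact_mod_cast Int.one_le_abs hn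
      exact hz _ ((min_le_right _ _).trans this)
  · induction x using QuotientAddGroup.induction_on with
    | H x =>
      rw [← hP]
      have : ∀ n : ℤ, ψ (x + n) = 0 := fun n => by
        refine hz _ ((min_le_left _ _).trans (hx.trans ?_))
        have e : ((x + n : ℝ) : UnitAddCircle) = (x : UnitAddCircle) := by
          rw [AddCircle.coe_add, add_eq_left, AddCircle.coe_eq_zero_iff]
          exact ⟨n, by simp⟩
        rw [← e, ← Real.norm_eq_abs]
        exact QuotientAddGroup.norm_mk_le_norm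
      simp [this]

lemma tele {E : Set ℤ} (a : UnitAddCircle) {f : CT} (hf : f ∈ CE E) (n : ℤ) :
    ∃ g ∈ CE E, ‖g‖ ≤ |(n : ℝ)| * ‖f‖ ∧ f - T (n • a) f = g - T a g := by
  induction n using Int.induction_on with
  | zero => exact ⟨0, zero_mem _, by simp, by simp [T_zero]⟩
  | succ n ih =>
    obtain ⟨g, h1, h2, h3⟩ := ih
    refine ⟨g + T ((n : ℤ) • a) f, add_mem h1 (T_mem _ hf), ?_, ?_⟩
    · refine (norm_add_le _ _).trans ?_
      have := norm_T_le ((n : ℤ) • a) f
      push_cast at h2 ⊢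
      rw [abs_of_nonneg (by positivity)] at h2 ⊢
      linarith
    · rw [map_add, T_T, add_smul, one_smul, add_comm a]
      linear_combination (exp := 1) h3
  | pred n ih =>
    obtain ⟨g, h1, h2, h3⟩ := ih
    refine ⟨g - T ((-(n : ℤ) - 1) • a) f, sub_mem h1 (T_mem _ hf), ?_, ?_⟩
    · refine (norm_sub_le _ _).trans ?_
      have := norm_T_le ((-(n : ℤ) - 1) • a) f
      push_cast at h2 ⊢
      have hn : (0 : ℝ) ≤ n := by positivity
      rw [abs_of_nonpos (by linarith)] at h2 ⊢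
      linarith
    · have e : a + (-(n : ℤ) - 1) • a = (-(n : ℤ)) • a := by rw [sub_smul, one_smul]; abel
      rw [map_sub, T_T, e]
      linear_combination (exp := 1) h3

lemma exL (a : UnitAddCircle) {δ : ℝ} (hδ : 0 < δ) : ∃ L : CT →L[ℂ] CT,
    (∀ k, ∃ w : ℂ, ∀ f, F k (L f) = w * F k f) ∧
    (∀ k : ℤ, δ ≤ ‖k • a‖ → ∀ f, F k (L f) = 0) ∧
    (∀ b f, T b (L f) = L (T b f)) ∧
    (∀ E, ∀ f ∈ CE E, ∃ g ∈ CE E, f - L f = g - T a g) := by
  obtain ⟨c, s1, s2, h1, h0⟩ := bump hδ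
  have sm : Summable fun n : ℤ => c n • T (n • a) := by
    refine Summable.of_norm_bounded (E := CT →L[ℂ] CT) (f := fun n : ℤ => c n • T (n • a)) s1
      fun n => ?_
    refine ContinuousLinearMap.opNorm_le_bound _ (norm_nonneg _) fun f => ?_
    change ‖c n • T (n • a) f‖ ≤ _
    rw [norm_smul]
    exact mul_le_mul_of_nonneg_left (norm_T_le _ f) (norm_nonneg _)
  have hL : ∀ f, HasSum (fun n : ℤ => c n • T (n • a) f) ((∑' n : ℤ, c n • T (n • a)) f) :=
    fun f => (ContinuousLinearMap.apply ℂ CT f).hasSum sm.hasSum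
  set L := ∑' n : ℤ, c n • T (n • a)
  have hF : ∀ k f, F k (L f) = (∑' n, c n * fourier n (k • a)) * F k f := fun k f => by
    have := (F k).hasSum (hL f)
    rw [← this.tsum_eq, ← tsum_mul_right]
    refine tsum_congr fun n => ?_
    rw [map_smul, F_T, fourier_apply, fourier_apply, smul_comm k n a, smul_eq_mul, mul_assoc]
  refine ⟨L, fun k => ⟨_, hF k⟩, fun k hk f => by rw [hF, h0 _ hk, zero_mul], fun b f => ?_,
    fun E f hf => ?_⟩
  · refine ((T b).hasSum (hL f)).unique ?_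
    convert hL (T b f) using 2 with n
    rw [map_smul, T_T, T_T, add_comm]
  · choose g g1 g2 g3 using tele a hf
    have sg : Summable fun n => c n • g n := by
      refine Summable.of_norm_bounded (s2.mul_right ‖f‖) fun n => ?_
      rw [norm_smul]
      nlinarith [norm_nonneg (c n), g2 n]
    refine ⟨∑' n, c n • g n, mem_CE.2 fun k hk => ?_, ?_⟩
    · rw [← ((F k).hasSum sg.hasSum).tsum_eq]
      simp [mem_CE.1 (g1 _) k hk]
    · have e1 := sg.hasSum.sub ((T a).hasSum sg.hasSum)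
      have e2 := (s1.of_norm.hasSum.smul_const f).sub (hL f)
      rw [h1, one_smul] at e2
      refine e2.unique ?_
      convert e1 using 2 with n
      exact (smul_sub (c n) f _).symm.trans (by rw [g3, smul_sub, map_smul])

lemma loc1 (E : Set ℤ) (a : UnitAddCircle) {δ : ℝ} (hδ : 0 < δ) :
    AutoCont E ↔ AutoCont (E ∩ {k | ‖k • a‖ < δ}) := by
  obtain ⟨L, l1, l2, l3, l4⟩ := exL a hδ
  set E' := E ∩ {k | ‖k • a‖ < δ}
  have hLm : ∀ f ∈ CE E, L f ∈ CE E' := fun f hf => mem_CE.2 fun k hk => by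
    by_cases h : k ∈ E
    · exact l2 k (not_lt.1 fun h' => hk ⟨h, h'⟩) f
    · obtain ⟨w, hw⟩ := l1 k
      rw [hw, mem_CE.1 hf k h, mul_zero]
  have hle : CE E' ≤ CE E := fun f hf => mem_CE.2 fun k hk => mem_CE.1 hf k fun h => hk h.1
  have K : ∀ (G : Set ℤ) (Φ : CE G →ₗ[ℂ] ℂ),
      (∀ (a : UnitAddCircle) (f g : CE G), (∀ t, g.1 t = f.1 (t - a)) → Φ g = Φ f) →
      ∀ (f u : CE G), u.1 = L f.1 → Φ u = Φ f := fun G Φ hΦ f u hu => by
    obtain ⟨g, hg, e⟩ := l4 G f.1 f.2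
    have h1 := hΦ (-a) ⟨g, hg⟩ ⟨T a g, T_mem a hg⟩ fun t => by simp [T_apply]
    have h2 : f + ⟨T a g, T_mem a hg⟩ = u + ⟨g, hg⟩ := Subtype.ext (by
      change f.1 + T a g = u.1 + g
      rw [hu]; linear_combination (exp := 1) e)
    have h3 := congrArg Φ h2
    rw [Φ.map_add, Φ.map_add, h1] at h3
    linear_combination -h3
  let L' : CE E →L[ℂ] CE E' := (L.comp (CE E).subtypeL).codRestrict _ fun f => hLm f.1 f.2
  have hL' : ∀ f, (L' f).1 = L f.1 := fun f => rfl
  constructor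
  · intro h Ψ hΨ
    have hc := h (Ψ.comp L'.toLinearMap) fun b f g hfg => by
      refine hΨ b _ _ fun t => ?_
      have : g.1 = T (-b) f.1 := by ext t; rw [hfg, T_apply, sub_eq_add_neg]
      change L g.1 t = L f.1 (t - b)
      rw [this, ← l3, T_apply, sub_eq_add_neg]
    have e : (Ψ : CE E' → ℂ) = (Ψ.comp L'.toLinearMap) ∘ Submodule.inclusion hle := by
      funext f
      exact (K E' Ψ hΨ f _ rfl).symm
    rw [e]
    exact hc.comp (Continuous.subtype_mk continuous_subtype_val _)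
  · intro h Φ hΦ
    have hc := h (Φ.comp (Submodule.inclusion hle)) fun b f g hfg => hΦ b _ _ hfg
    have e : (Φ : CE E → ℂ) = (Φ.comp (Submodule.inclusion hle)) ∘ L' := by
      funext f
      exact (K E Φ hΦ f _ rfl).symm
    rw [e]
    exact hc.comp L'.continuous

lemma loc (m : ℕ) : ∀ (E : Set ℤ) (a : Fin m → UnitAddCircle) {δ : ℝ}, 0 < δ →
    (AutoCont E ↔ AutoCont (E ∩ {k | ∀ i, ‖k • a i‖ < δ})) := by
  induction m with
  | zero => intro E a δ _; simp
  | succ m ih =>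
    intro E a δ hδ
    rw [loc1 E (a 0) hδ, ih _ (fun i => a i.succ) hδ]
    have : E ∩ {k | ‖k • a 0‖ < δ} ∩ {k | ∀ i : Fin m, ‖k • a i.succ‖ < δ} =
        E ∩ {k | ∀ i, ‖k • a i‖ < δ} := by
      ext k; simp [Fin.forall_fin_succ, and_assoc]
    rw [this]

lemma fin_auto {E : Set ℤ} (hE : E.Finite) : AutoCont E := by
  intro Φ _
  haveI := hE.to_subtype
  let R : CE E →ₗ[ℂ] (E → ℂ) := LinearMap.pi fun k => (F k.1).toLinearMap.comp (CE E).subtype
  haveI : FiniteDimensional ℂ (CE E) := FiniteDimensional.of_injective R (by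
    rw [injective_iff_map_eq_zero]
    intro f hf
    refine Subtype.ext (eq_zero_of_F _ fun k => ?_)
    by_cases hk : k ∈ E
    · exact congrFun hf ⟨k, hk⟩
    · exact mem_CE.1 f.2 k hk)
  exact LinearMap.continuous_of_finiteDimensional (𝕜 := ℂ) (E := CE E) (F' := ℂ) Φ

end Pool.Agent.H22.Tilf
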