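import Pool.Agent.H22.Tilf2

set_option autoImplicit false

open MeasureTheory AddCircle

namespace Pool.Agent.H22.Tilf

lemma bs {X : Type*} [NormedAddCommGroup X] [NormedSpace ℂ X] [CompleteSpace X]
    (S : Submodule ℂ X) (hS : IsClosed (S : Set X)) {ι : Type*} (g : ι → X →L[ℂ] ℂ)
    (h : ∀ x ∈ S, ∃ C, ∀ i, ‖g i x‖ ≤ C) : ∃ C, ∀ i, ∀ x ∈ S, ‖g i x‖ ≤ C * ‖x‖ := by
  haveI : CompleteSpace S := hS.completeSpace_coe
  obtain ⟨C, hC⟩ := banach_steinhaus (g := fun i => (g i).comp S.subtypeL) fun x => h x.1 x.2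
  exact ⟨C, fun i x hx => ((g i).comp S.subtypeL).le_of_opNorm_le (hC i) ⟨x, hx⟩⟩

lemma not_sidon {E : Set ℤ} (h : ∀ N : ℕ, ∃ b d : ℤ, d ≠ 0 ∧ ∀ j : ℕ, j < N → b + d * j ∈ E) :
    ¬ Sidon E := by
  intro hS
  let ι := ℕ × ℤ × {d : ℤ // d ≠ 0} × {e : ℕ → ℂ // ∀ k, ‖e k‖ = 1}
  let g : ι → CT →L[ℂ] ℂ := fun i =>
    ∑ j ∈ Finset.range i.1, i.2.2.2.1 j • F (i.2.1 + i.2.2.1.1 * j)
  have inj : ∀ (b d : ℤ), d ≠ 0 → Function.Injective fun j : ℕ => b + d * j := fun b d hd x y hxy => by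
    have : d * x = d * y := by simpa using hxy
    exact_mod_cast mul_left_cancel₀ hd this
  obtain ⟨C, hC⟩ := @bs CT _ ContinuousMap.normedSpace _ (CE E) (isClosed_CE E) ι g
      fun f hf => ⟨∑' k, ‖fourierCoeff (⇑f) k‖, fun i => by
    obtain ⟨N, b, ⟨d, hd⟩, ⟨e, he⟩⟩ := i
    simp only [g, ContinuousLinearMap.sum_apply, ContinuousLinearMap.smul_apply]
    refine (norm_sum_le _ _).trans ?_
    have := (hS f hf).sum_le_tsum ((Finset.range N).image fun j : ℕ => b + d * j)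
      fun _ _ => norm_nonneg _
    rw [Finset.sum_image (inj b d hd).injOn] at this
    refine le_trans (le_of_eq (Finset.sum_congr rfl fun j _ => ?_)) this
    rw [norm_smul, he, one_mul]; rfl⟩
  obtain ⟨n, hn⟩ := no_const C
  obtain ⟨b, d, hd, hE⟩ := h (2 ^ n)
  obtain ⟨c, c1, c2⟩ := flat n b d
  set P : CT := ∑ k ∈ Finset.range (2 ^ n), c k • (fourier (b + d * k) : CT) with hP
  have hPm : P ∈ CE E := mem_CE.2 fun k hk => by
    rw [hP, map_sum]
    refine Finset.sum_eq_zero fun j hj => ?_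
    rw [map_smul, F_fourier, if_neg, smul_zero]
    rintro rfl
    exact hk (hE j (Finset.mem_range.1 hj))
  have hv : ∀ j ∈ Finset.range (2 ^ n), F (b + d * j) P = c j := fun j hj => by
    rw [hP, map_sum, Finset.sum_eq_single j]
    · rw [map_smul, F_fourier, if_pos rfl, smul_eq_mul, mul_one]
    · intro i _ hij
      rw [map_smul, F_fourier, if_neg fun h => hij (inj b d hd h).symm, smul_zero]
    · exact fun h => (h hj).elim
  let i : ι := (2 ^ n, b, ⟨d, hd⟩, ⟨fun k => (starRingEnd ℂ) (c k), fun k => by simp [c1]⟩)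
  have e : g i P = ((2 ^ n : ℝ) : ℂ) := by
    simp only [g, i, ContinuousLinearMap.sum_apply, ContinuousLinearMap.smul_apply]
    rw [Finset.sum_congr rfl (g := fun _ => (1 : ℂ)) fun j hj => ?_]
    · simp
    · rw [hv j hj, smul_eq_mul, mul_comm, Complex.mul_conj, Complex.normSq_eq_norm_sq, c1]; simp
  have := hC i P hPm
  rw [e, Complex.norm_real, Real.norm_of_nonneg (by positivity)] at this
  exact hn _ (norm_nonneg _) c2 this

end Pool.Agent.H22.Tilf
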