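import Pool.Agent.H22.Tilf2

set_option autoImplicit false

open MeasureTheory AddCircle

namespace Pool.Agent.H22.Tilf

lemma avg1 {N : ℕ} (hN : 0 < N) (a : UnitAddCircle) : ∃ S : CT →L[ℂ] CT,
    (∀ f, ‖S f‖ ≤ ‖f‖) ∧ (∀ b f, S (T b f) = T b (S f)) ∧
    (∀ g, ‖S (g - T a g)‖ ≤ 2 * ‖g‖ / N) ∧
    ∀ (f : CT) x c, (∀ j : Fin N, f (x + (j : ℕ) • a) = c) → S f x = c := by
  have hN' : (0 : ℝ) < N := by exact_mod_cast hN
  have hN2 : (N : ℂ) ≠ 0 := by exact_mod_cast hN.ne'
  let S : CT →L[ℂ] CT := (N : ℂ)⁻¹ • ∑ j ∈ Finset.range N, T (j • a)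
  have hS : ∀ f, S f = (N : ℂ)⁻¹ • ∑ j ∈ Finset.range N, T (j • a) f := fun f => by
    simp only [S, ContinuousLinearMap.smul_apply, ContinuousLinearMap.sum_apply]
  refine ⟨S, fun f => ?_, fun b f => ?_, fun g => ?_, fun f x c h => ?_⟩
  · rw [hS, norm_smul, norm_inv, Complex.norm_natCast, inv_mul_le_iff₀ hN']
    refine (norm_sum_le _ _).trans ?_
    refine (Finset.sum_le_sum fun j _ => norm_T_le (j • a) f).trans ?_
    simp
  · rw [hS, hS, map_smul, map_sum]
    simp only [T_T, add_comm b]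
  · rw [hS, norm_smul, norm_inv, Complex.norm_natCast, inv_mul_eq_div]
    have : ∑ j ∈ Finset.range N, T (j • a) (g - T a g) = T (0 • a) g - T (N • a) g := by
      rw [← Finset.sum_range_sub' (fun j => T (j • a) g)]
      exact Finset.sum_congr rfl fun j _ => by rw [map_sub, T_T, succ_nsmul]
    rw [this]
    refine div_le_div_of_nonneg_right ((norm_sub_le _ _).trans ?_) hN'.le
    linarith [norm_T_le (0 • a) g, norm_T_le (N • a) g]
  · rw [hS, ContinuousMap.smul_apply, ContinuousMap.sum_apply,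
      Finset.sum_congr rfl (g := fun _ => c) fun j hj => h ⟨j, Finset.mem_range.1 hj⟩]
    simp only [Finset.sum_const, Finset.card_range, nsmul_eq_mul, smul_eq_mul]
    field_simp

lemma avg {N : ℕ} (hN : 0 < N) (m : ℕ) : ∀ a : Fin m → UnitAddCircle, ∃ S : CT →L[ℂ] CT,
    (∀ f, ‖S f‖ ≤ ‖f‖) ∧ (∀ b f, S (T b f) = T b (S f)) ∧
    (∀ i g, ‖S (g - T (a i) g)‖ ≤ 2 * ‖g‖ / N) ∧
    ∀ (f : CT) x c, (∀ n : Fin m → Fin N, f (x + ∑ i, (n i : ℕ) • a i) = c) → S f x = c := by
  induction m with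
  | zero =>
    exact fun a => ⟨ContinuousLinearMap.id ℂ CT, fun f => le_rfl, fun b f => rfl,
      fun i => i.elim0, fun f x c h => by simpa using h fun i => i.elim0⟩
  | succ m ih =>
    intro a
    obtain ⟨S, s1, s2, s3, s4⟩ := avg1 hN (a 0)
    obtain ⟨R, r1, r2, r3, r4⟩ := ih fun i => a i.succ
    refine ⟨S.comp R, fun f => (s1 _).trans (r1 f), fun b f => ?_, fun i g => ?_,
      fun f x c h => ?_⟩
    · change S (R _) = T b (S (R f))
      rw [r2, s2]
    · change ‖S (R _)‖ ≤ _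
      refine Fin.cases ?_ (fun i => (s1 _).trans (r3 i g)) i
      rw [map_sub, r2]
      refine (s3 _).trans (div_le_div_of_nonneg_right ?_ (Nat.cast_nonneg N))
      linarith [r1 g]
    · refine s4 (R f) x c fun j => r4 f _ c fun n => ?_
      have := h (Fin.cons j n)
      rw [Fin.sum_univ_succ, ← add_assoc] at this
      simpa using this

lemma universal (ι : Type) [Fintype ι] : ∃ φ : CT, ‖φ‖ ≤ 1 ∧ ‖F 0 φ‖ ≤ 1 / 4 ∧
    ∀ Y : ι → UnitAddCircle, ∃ x, ∀ j, φ (x + Y j) = 1 := by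
  obtain ⟨s, hs, hd⟩ := TopologicalSpace.exists_countable_dense UnitAddCircle
  haveI : Nontrivial UnitAddCircle := ⟨⟨0 + (((1 : ℝ) / 2 / (1 : ℤ) : ℝ) : UnitAddCircle), 0, fun h => by
    have := fourier_add_half_inv_index (n := 1) one_ne_zero one_pos (0 : UnitAddCircle)
    rw [h, fourier_eval_zero] at this
    norm_num at this⟩⟩
  have h0 : (haarAddCircle (T := 1)) s = 0 := hs.measure_zero _
  obtain ⟨U, hsU, hU, hμ⟩ := s.exists_isOpen_lt_of_lt (μ := haarAddCircle (T := 1))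
    (ENNReal.ofReal (1 / 4)) (by rw [h0]; simp)
  have hUd : Dense U := hd.mono hsU
  have hne : (Uᶜ).Nonempty := by
    rw [Set.nonempty_compl]
    rintro rfl
    rw [measure_univ] at hμ
    exact absurd hμ (not_lt.2 (ENNReal.ofReal_le_one.2 (by norm_num)))
  let W : ℕ → Set (ι → UnitAddCircle) := fun n =>
    ⋃ x, ⋂ j, {Y | 1 < (n : ℝ) * Metric.infDist (x + Y j) Uᶜ}
  have hc : Continuous fun x : UnitAddCircle => Metric.infDist x Uᶜ := Metric.continuous_infDist_pt _
  have hWo : ∀ n, IsOpen (W n) := fun n => isOpen_iUnion fun x => isOpen_iInter_of_finite fun j =>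
    isOpen_lt continuous_const (continuous_const.mul (hc.comp (by fun_prop)))
  have hWm : Monotone W := fun n k hnk => Set.iUnion_mono fun x => Set.iInter_mono fun j Y hY =>
    lt_of_lt_of_le hY (mul_le_mul_of_nonneg_right (by exact_mod_cast hnk) Metric.infDist_nonneg)
  have hcov : Set.univ ⊆ ⋃ n, W n := fun Y _ => by
    have hD : Dense (⋂ j, {x | x + Y j ∈ U}) := dense_iInter_of_isOpen
      (fun j => hU.preimage (by fun_prop))
      (fun j => hUd.preimage (Homeomorph.addRight (Y j)).isOpenMap)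
    obtain ⟨x, hx⟩ := hD.nonempty
    have hp : ∀ j, ∃ n : ℕ, 1 < (n : ℝ) * Metric.infDist (x + Y j) Uᶜ := fun j => by
      have : 0 < Metric.infDist (x + Y j) Uᶜ :=
        (hU.isClosed_compl.notMem_iff_infDist_pos hne).1 (fun h => h (Set.mem_iInter.1 hx j))
      obtain ⟨n, hn⟩ := exists_nat_gt (1 / Metric.infDist (x + Y j) Uᶜ)
      exact ⟨n, by rwa [div_lt_iff₀ this] at hn⟩
    choose n hn using hp
    refine Set.mem_iUnion.2 ⟨Finset.univ.sup n, Set.mem_iUnion.2 ⟨x, Set.mem_iInter.2 fun j => ?_⟩⟩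
    exact lt_of_lt_of_le (hn j) (mul_le_mul_of_nonneg_right
      (by exact_mod_cast Finset.le_sup (f := n) (Finset.mem_univ j)) Metric.infDist_nonneg)
  obtain ⟨n, hn⟩ := isCompact_univ.elim_directed_cover W hWo hcov hWm.directed_le
  let p : UnitAddCircle → ℝ := fun x => min 1 (n * Metric.infDist x Uᶜ)
  have hp0 : ∀ x, 0 ≤ p x := fun x =>
    le_min zero_le_one (mul_nonneg (Nat.cast_nonneg n) Metric.infDist_nonneg)
  have hpc : Continuous p := continuous_const.min (continuous_const.mul hc)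
  let φ : CT := ⟨fun x => (p x : ℂ), Complex.continuous_ofReal.comp hpc⟩
  have hφ : ∀ x, ‖φ x‖ = p x := fun x => by
    change ‖(p x : ℂ)‖ = _
    rw [Complex.norm_real, Real.norm_of_nonneg (hp0 x)]
  refine ⟨φ, (ContinuousMap.norm_le _ zero_le_one).2 fun x => (hφ x).trans_le (min_le_left _ _),
    ?_, fun Y => ?_⟩
  · have h1 : ‖F 0 φ‖ ≤ ∫ x, U.indicator (fun _ => (1 : ℝ)) x ∂haarAddCircle := by
      refine norm_integral_le_of_norm_le ((integrable_const _).indicator hU.measurableSet)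
        (Filter.Eventually.of_forall fun x => ?_)
      rw [norm_smul, norm_fourier, one_mul, hφ]
      by_cases hx : x ∈ U
      · rw [Set.indicator_of_mem hx]; exact min_le_left _ _
      · rw [Set.indicator_of_notMem hx]
        refine (min_le_right _ _).trans ?_
        rw [Metric.infDist_zero_of_mem (show x ∈ Uᶜ from hx), mul_zero]
    rw [integral_indicator_const _ hU.measurableSet, smul_eq_mul, mul_one] at h1
    exact h1.trans (ENNReal.toReal_le_of_le_ofReal (by norm_num) hμ.le)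
  · obtain ⟨x, hx⟩ := Set.mem_iUnion.1 (hn (Set.mem_univ Y))
    refine ⟨x, fun j => ?_⟩
    have : p (x + Y j) = 1 := min_eq_left (le_of_lt (Set.mem_iInter.1 hx j))
    change (p (x + Y j) : ℂ) = 1
    rw [this]; simp

lemma repr_of_auto (h : AutoCont Set.univ) (f : CT) : ∃ (m : ℕ) (a : Fin m → UnitAddCircle)
    (g : Fin m → CT), f - F 0 f • (fourier 0 : CT) = ∑ i, (g i - T (a i) (g i)) := by
  let D : Submodule ℂ CT := Submodule.span ℂ {u | ∃ a g, u = g - T a g}
  have hD : f - F 0 f • (fourier 0 : CT) ∈ D := by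
    by_contra hn
    obtain ⟨Φ, h1, h2⟩ := Submodule.exists_le_ker_of_notMem hn
    have hT : ∀ a g, Φ (T a g) = Φ g := fun a g => by
      have := h2 (Submodule.subset_span ⟨a, g, rfl⟩ : g - T a g ∈ D)
      rw [LinearMap.mem_ker, map_sub] at this
      linear_combination -this
    have hc := h (Φ.comp (CE Set.univ).subtype) fun b u v huv => by
      have : v.1 = T (-b) u.1 := by ext t; rw [huv, T_apply, sub_eq_add_neg]
      change Φ v.1 = Φ u.1
      rw [this, hT]
    have hc' : Continuous Φ :=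
      hc.comp (f := fun u : CT => (⟨u, fun k hk => (hk trivial).elim⟩ : CE Set.univ))
        (Continuous.subtype_mk continuous_id _)
    let Ψ : CT →L[ℂ] ℂ := ⟨Φ, hc'⟩ - Φ (fourier 0) • F 0
    have hΨ : ∀ u, Ψ u = Φ u - Φ (fourier 0) * F 0 u := fun u => rfl
    have hk : Submodule.span ℂ (Set.range (fourier (T := 1))) ≤ LinearMap.ker Ψ.toLinearMap := by
      rw [Submodule.span_le]
      rintro _ ⟨k, rfl⟩
      change Ψ (fourier k) = 0
      rw [hΨ, F_fourier]
      rcases eq_or_ne 0 k with rfl | hk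
      · simp
      · rw [if_neg hk, mul_zero, sub_zero]
        have e : T ((((1 : ℝ) / 2 / k : ℝ)) : UnitAddCircle) (fourier k) = - fourier k := by
          ext t
          rw [T_apply, fourier_add_half_inv_index hk.symm one_pos]; rfl
        have := hT ((((1 : ℝ) / 2 / k : ℝ)) : UnitAddCircle) (fourier k)
        rw [e, map_neg] at this
        linear_combination (-1 / 2 : ℂ) * this
    have hk2 := Submodule.topologicalClosure_minimal _ hk Ψ.isClosed_ker
    rw [span_fourier_closure_eq_top] at hk2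
    have h3 : Ψ f = 0 := hk2 (Submodule.mem_top (x := f))
    apply h1
    rw [map_sub, map_smul, smul_eq_mul]
    rw [hΨ] at h3
    linear_combination h3
  obtain ⟨m, r, u, hu⟩ := Submodule.mem_span_set'.1 hD
  choose a g hg using fun i => (u i).2
  refine ⟨m, a, fun i => r i • g i, ?_⟩
  rw [← hu]
  exact Finset.sum_congr rfl fun i _ => by rw [hg, smul_sub, map_smul]

lemma norm_F_le (k : ℤ) (f : CT) : ‖F k f‖ ≤ ‖f‖ := by
  have h : ‖∫ t : UnitAddCircle, fourier (-k) t • f t ∂haarAddCircle‖ ≤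
      ‖f‖ * (haarAddCircle (T := 1)).real Set.univ :=
    norm_integral_le_of_norm_le_const (Filter.Eventually.of_forall fun t => by
      rw [norm_smul, norm_fourier, one_mul]; exact f.norm_coe_le_norm t)
  simpa [F_apply, fourierCoeff] using h

theorem not_auto_univ : ¬ AutoCont Set.univ := by
  intro h
  let P : CT →L[ℂ] CT := ContinuousLinearMap.id ℂ CT - (F 0).smulRight (fourier 0 : CT)
  have hP : ∀ f, P f = f - F 0 f • (fourier 0 : CT) := fun f => rfl
  have hPn : ∀ f, ‖P f‖ ≤ 2 * ‖f‖ := fun f => by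
    rw [hP]
    refine (norm_sub_le _ _).trans ?_
    rw [norm_smul, fourier_norm]
    linarith [norm_F_le 0 f]
  let A : ℕ × ℕ → Set CT := fun q => {f | ∃ (a : Fin q.1 → UnitAddCircle) (g : Fin q.1 → CT),
    (∀ i, ‖g i‖ ≤ q.2) ∧ P f = ∑ i, (g i - T (a i) (g i))}
  have hcov : ⋃ q, closure (A q) = Set.univ := by
    refine Set.eq_univ_of_forall fun f => ?_
    obtain ⟨m, a, g, hg⟩ := repr_of_auto h f
    obtain ⟨R, hR⟩ := exists_nat_ge (∑ i, ‖g i‖)
    refine Set.mem_iUnion.2 ⟨(m, R), subset_closure ⟨a, g, fun i => le_trans ?_ hR, hg⟩⟩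
    exact Finset.single_le_sum (f := fun i => ‖g i‖) (fun _ _ => norm_nonneg _) (Finset.mem_univ i)
  obtain ⟨⟨m, R⟩, f₀, hf₀⟩ := nonempty_interior_of_iUnion_of_closed (fun _ => isClosed_closure) hcov
  obtain ⟨r, hr, hb⟩ := Metric.mem_nhds_iff.1 (mem_interior_iff_mem_nhds.1 hf₀)
  obtain ⟨N, hN⟩ := exists_nat_gt (32 * m * R / r)
  have hN0 : (0 : ℝ) < N := lt_of_le_of_lt (by positivity) hN
  rw [div_lt_iff₀ hr] at hN
  obtain ⟨φ, p1, p2, p3⟩ := universal (Fin (m + m) → Fin N)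
  set w : CT := ((r / 2 : ℝ) : ℂ) • φ with hw
  have hwn : ‖w‖ < r := by
    rw [hw, norm_smul, Complex.norm_real, Real.norm_of_nonneg (by positivity)]
    nlinarith
  obtain ⟨u, ⟨a, g, g1, g2⟩, hu⟩ := Metric.mem_closure_iff.1
    (hb (show f₀ + w ∈ Metric.ball f₀ r by simpa using hwn)) (r / 32) (by positivity)
  obtain ⟨v, ⟨a', g', g1', g2'⟩, hv⟩ := Metric.mem_closure_iff.1
    (hb (Metric.mem_ball_self hr)) (r / 32) (by positivity)
  obtain ⟨S, s1, -, s3, s4⟩ := avg (N := N) (by exact_mod_cast hN0) (m + m) (Fin.append a a')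
  have key : ∀ (b : Fin m → UnitAddCircle) (k : Fin m → CT), (∀ i, ‖k i‖ ≤ R) →
      (∀ i, ∃ j, Fin.append a a' j = b i) → ‖S (∑ i, (k i - T (b i) (k i)))‖ ≤ r / 16 := by
    intro b k hk hbj
    rw [map_sum]
    refine (norm_sum_le _ _).trans ?_
    refine (Finset.sum_le_sum (g := fun _ => 2 * (R : ℝ) / N) fun i _ => ?_).trans ?_
    · obtain ⟨j, hj⟩ := hbj i
      rw [← hj]
      refine (s3 j _).trans (div_le_div_of_nonneg_right ?_ hN0.le)
      linarith [hk i]
    · simp only [Finset.sum_const, Finset.card_univ, Fintype.card_fin, nsmul_eq_mul]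
      rw [← mul_div_assoc, div_le_iff₀ hN0]
      nlinarith
  have k1 := key a g g1 fun i => ⟨Fin.castAdd m i, Fin.append_left _ _ _⟩
  have k2 := key a' g' g1' fun i => ⟨Fin.natAdd m i, Fin.append_right _ _ _⟩
  rw [← g2] at k1
  rw [← g2'] at k2
  rw [dist_eq_norm] at hu hv
  have e : w = u - v + ((f₀ + w - u) - (f₀ - v)) := by abel
  have k3 : ‖S (P ((f₀ + w - u) - (f₀ - v)))‖ ≤ r / 8 := by
    refine (s1 _).trans ((hPn _).trans ?_)
    linarith [norm_sub_le (f₀ + w - u) (f₀ - v)]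
  have k4 : ‖S (P w)‖ ≤ r / 4 := by
    rw [e, map_add, map_sub, map_add, map_sub]
    refine (norm_add_le _ _).trans ?_
    linarith [norm_sub_le (S (P u)) (S (P v))]
  obtain ⟨x, hx⟩ := p3 fun n => ∑ i, (n i : ℕ) • Fin.append a a' i
  have k5 := s4 (P w) x (((r / 2 : ℝ) : ℂ) * (1 - F 0 φ)) fun n => by
    rw [hP, hw, map_smul, ContinuousMap.sub_apply, ContinuousMap.smul_apply, hx n,
      ContinuousMap.smul_apply, fourier_zero]
    simp only [smul_eq_mul]; ring
  have k6 := ((S (P w)).norm_coe_le_norm x).trans k4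
  rw [k5, norm_mul, Complex.norm_real, Real.norm_of_nonneg (by positivity)] at k6
  have k7 := norm_sub_norm_le (1 : ℂ) (F 0 φ)
  rw [norm_one] at k7
  nlinarith

end Pool.Agent.H22.Tilf
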