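import Mathlib
import Pool.Agent.H22.Lat

set_option autoImplicit false

namespace Pool.Agent.H22.Lat
noncomputable section
open Classical

instance f3 : Fact (Nat.Prime 3) := ⟨by norm_num⟩

abbrev P := ℤ_[3]

def q (n : ℕ) : ℝ := 3⁻¹ ^ n

lemma q_pos (n : ℕ) : 0 < q n := by unfold q; positivity

lemma nD (t : P) (n : ℕ) : ‖t‖ ≤ q n ↔ (3 : P) ^ n ∣ t := by
  have := PadicInt.norm_le_pow_iff_mem_span_pow t n
  rw [Ideal.mem_span_singleton] at this
  simpa [q] using this

lemma iD (k : ℤ) (n : ℕ) : (3 : P) ^ n ∣ (k : P) ↔ (3 : ℤ) ^ n ∣ k := by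
  rw [← nD]
  simpa [q] using PadicInt.norm_int_le_pow_iff_dvd (p := 3) (k := k) (n := n)

lemma nD' (t : P) (n : ℕ) (h : ¬ (3 : P) ^ (n + 1) ∣ t) : q n ≤ ‖t‖ := by
  rw [← nD] at h
  by_contra h1
  apply h
  have := (PadicInt.norm_lt_pow_iff_norm_le_pow_sub_one t (-n)).1 (by simpa [q] using h1)
  convert this using 1
  rw [show (-n - 1 : ℤ) = -((n + 1 : ℕ) : ℤ) by push_cast; ring, zpow_neg, zpow_natCast]
  simp [q]

lemma odd3 (n : ℕ) : ∃ m : ℕ, (3 : ℤ) ^ n = 2 * m + 1 := by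
  obtain ⟨m, hm⟩ : Odd (3 ^ n) := Odd.pow (by decide)
  exact ⟨m, by exact_mod_cast hm⟩

lemma bal (t : P) (n : ℕ) : ∃ z : ℤ, 2 * |z| < 3 ^ n ∧ (3 : P) ^ n ∣ z - t := by
  have h1 := PadicInt.appr_spec n t
  have h2 : (t.appr n : ℤ) < 3 ^ n := by exact_mod_cast PadicInt.appr_lt t n
  rw [Ideal.mem_span_singleton, Nat.cast_ofNat, ← dvd_neg, neg_sub] at h1
  obtain ⟨m, hm⟩ := odd3 n
  by_cases h : t.appr n ≤ m
  · refine ⟨t.appr n, by rw [abs_of_nonneg (by positivity)]; omega, by simpa using h1⟩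
  · refine ⟨t.appr n - 3 ^ n, by rw [abs_of_nonpos (by omega)]; omega, ?_⟩
    push_cast
    rw [sub_right_comm]
    exact dvd_sub h1 dvd_rfl

variable {d : ℕ}

lemma centre (c : Fin d → P) (x : V d) (n : ℕ) :
    ∃ z : V d, ∀ j, 2 * |z j - x j| < 3 ^ n ∧ (3 : P) ^ n ∣ z j - c j := by
  choose f hf using fun j => bal (c j - x j) n
  refine ⟨fun j => x j + f j, fun j => ⟨by simpa using (hf j).1, ?_⟩⟩
  convert (hf j).2 using 1
  push_cast; ring

def w (c : Fin d → P) (x y : V d) (j : Fin d) : ℝ := ‖((x j + y j : ℤ) : P) - 2 * c j‖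

def Hh (c : Fin d → P) (x y : V d) : ℝ := ‖fun j => if x j = y j then w c x y j else 0‖

def Bb (c : Fin d → P) (x y : V d) : ℝ := ‖fun j => if x j = y j then 0 else w c x y j‖

lemma w_nn (c : Fin d → P) (x y : V d) (j : Fin d) : 0 ≤ w c x y j := norm_nonneg _

lemma H_le (c : Fin d → P) (x y : V d) {r : ℝ} (hr : 0 ≤ r) :
    Hh c x y ≤ r ↔ ∀ j, x j = y j → w c x y j ≤ r := by
  rw [Hh, pi_norm_le_iff_of_nonneg hr]
  refine forall_congr' fun j => ?_
  split_ifs with h <;> simp [h, hr, abs_of_nonneg (w_nn c x y j)]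

lemma B_le (c : Fin d → P) (x y : V d) {r : ℝ} (hr : 0 ≤ r) :
    Bb c x y ≤ r ↔ ∀ j, x j ≠ y j → w c x y j ≤ r := by
  rw [Bb, pi_norm_le_iff_of_nonneg hr]
  refine forall_congr' fun j => ?_
  split_ifs with h <;> simp [h, hr, abs_of_nonneg (w_nn c x y j)]

def g (c : Fin d → P) : Sym2 (V d) → ℝ × ℝ :=
  Sym2.lift ⟨fun x y => (Hh c x y, Bb c x y), fun x y => by
    simp only [Hh, Bb, w, add_comm (x _), eq_comm (a := x _)]⟩

lemma g_mk (c : Fin d → P) (x y : V d) : g c s(x, y) = (Hh c x y, Bb c x y) := rfl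

lemma g_cont (e : Sym2 (V d)) : Continuous fun c : Fin d → P => g c e := by
  induction e using Sym2.ind with
  | h x y =>
    simp only [g_mk, Hh, Bb, w]
    refine Continuous.prodMk (Continuous.norm (continuous_pi fun j => ?_))
      (Continuous.norm (continuous_pi fun j => ?_)) <;> split_ifs <;> fun_prop

def δ (c : Fin d → P) (e : Sym2 (V d)) : ℝ := min (g c e).1 (g c e).2 ^ (2 * d + 1) / 2

def Gen (c : Fin d → P) : Prop := ∀ j, ∀ k : ℤ, (k : P) - 2 * c j ≠ 0

lemma g_pos (hd : 2 ≤ d) {c : Fin d → P} (hc : Gen c) {e : Sym2 (V d)} (he : e ∈ (G d).edgeSet) :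
    0 < (g c e).1 ∧ 0 < (g c e).2 ∧ (g c e).2 ≤ 1 := by
  induction e using Sym2.ind with
  | h x y =>
    obtain ⟨i, s, hs, h⟩ := (adj_iff x y).1 he
    have hw : ∀ j, 0 < w c x y j := fun j => norm_pos_iff.2 (hc j _)
    have : Nontrivial (Fin d) := Fin.nontrivial_iff_two_le.2 hd
    obtain ⟨j, hj⟩ := exists_ne i
    have h1 := congrFun h i
    have h2 := congrFun h j
    simp only [Pi.sub_apply, Pi.single_eq_same, Pi.single_eq_of_ne hj] at h1 h2
    exact ⟨(hw j).trans_le ((H_le c x y (norm_nonneg _)).1 le_rfl j (by omega)),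
      (hw i).trans_le ((B_le c x y (norm_nonneg _)).1 le_rfl i (by omega)),
      (B_le c x y zero_le_one).2 fun j _ => PadicInt.norm_le_one _⟩

lemma δ_pos (hd : 2 ≤ d) {c : Fin d → P} (hc : Gen c) {e : Sym2 (V d)} (he : e ∈ (G d).edgeSet) :
    0 < δ c e ∧ δ c e ≤ 1 / 2 := by
  obtain ⟨h1, h2, h3⟩ := g_pos hd hc he
  have h4 := lt_min h1 h2
  refine ⟨by unfold δ; positivity, ?_⟩
  have := pow_le_one₀ (n := 2 * d + 1) h4.le ((min_le_right _ _).trans h3)
  unfold δ
  linarith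

lemma g_aut (φ : V d → V d) (σ : Equiv.Perm (Fin d)) (ε : Fin d → ℤ) (a : V d)
    (hε : ∀ i, ε i = 1 ∨ ε i = -1) (h : ∀ x i, φ x (σ i) = a (σ i) + ε i * x i) (c : Fin d → P)
    (e : Sym2 (V d)) : g c (e.map φ) = g (fun i => ε i * (c (σ i) - a (σ i))) e := by
  induction e using Sym2.ind with
  | h x y =>
    have h1 : ∀ i, w c (φ x) (φ y) (σ i) = w (fun i => ε i * (c (σ i) - a (σ i))) x y i := by
      intro i
      simp only [w, h]
      rcases hε i with h2 | h2 <;> rw [h2]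
      · congr 1; push_cast; ring
      · rw [← norm_neg]; congr 1; push_cast; ring
    have h2 : ∀ i, φ x (σ i) = φ y (σ i) ↔ x i = y i := by
      intro i
      rw [h, h]
      rcases hε i with h2 | h2 <;> rw [h2] <;> omega
    rw [Sym2.map_mk, g_mk, g_mk, Hh, Bb, ← σ.surjective.pi_norm_comp,
      ← σ.surjective.pi_norm_comp (fun j => if φ x j = φ y j then 0 else _)]
    simp only [Function.comp_def, h1, h2]
    rfl

abbrev E (d : ℕ) := (G d).edgeSet

def F (p : (Fin d → P) × (E d → ℝ)) (e : E d) : Bool :=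
  if ((g p.1 e).1 ≤ (g p.1 e).2 ↔ δ p.1 e ≤ p.2 e) then true else false

def Op (ω : E d → Bool) : SimpleGraph (V d) :=
  SimpleGraph.fromEdgeSet {e | ∃ h : e ∈ (G d).edgeSet, ω ⟨e, h⟩ = true}

lemma Op_adj (ω : E d → Bool) (x y : V d) :
    (Op ω).Adj x y ↔ ∃ h : (G d).Adj x y, ω ⟨s(x, y), h⟩ = true := by
  rw [Op, SimpleGraph.fromEdgeSet_adj]
  exact ⟨fun h => h.1, fun h => ⟨h, h.1.ne⟩⟩

def Good (p : (Fin d → P) × (E d → ℝ)) (n : ℕ) : Prop :=
  ∀ x y (h : (G d).Adj x y), (∀ j, |x j| ≤ 3 ^ (n + 1)) → (∀ j, |y j| ≤ 3 ^ (n + 1)) →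
    min (Hh p.1 x y) (Bb p.1 x y) ≤ q n → δ p.1 s(x, y) ≤ p.2 ⟨s(x, y), h⟩

lemma link (p : (Fin d → P) × (E d → ℝ)) (n : ℕ) (hG : Good p n) (z z' : V d)
    (hz : ∀ j, 2 * |z j| < 3 ^ n ∧ (3 : P) ^ n ∣ z j - p.1 j)
    (hz' : ∀ j, 2 * |z' j| < 3 ^ (n + 1) ∧ (3 : P) ^ (n + 1) ∣ z' j - p.1 j) :
    (Op (F p)).Reachable z z' := by
  refine box _ z z' fun x i t hx h1 h2 => ?_
  have h3 : (0 : ℤ) < 3 ^ n := by positivity
  have ha : (G d).Adj (Function.update x i t) (Function.update x i (t + 1)) := by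
    refine (adj_iff _ _).2 ⟨i, 1, Or.inl rfl, funext fun j => ?_⟩
    by_cases hj : j = i
    · subst hj; simp
    · simp [hj]
  have hb : ∀ s, t ≤ s → s ≤ t + 1 → ∀ j, |Function.update x i s j| ≤ 3 ^ (n + 1) := by
    intro s h4 h5 j
    have h6 := (hz j).1
    have h7 := (hz' j).1
    rw [pow_succ] at h7 ⊢
    simp only [Int.abs_eq_natAbs] at h6 h7 ⊢
    by_cases hj : j = i
    · subst hj; rw [Function.update_self]; omega
    · rw [Function.update_of_ne hj]; have := hx j; omega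
  have hH : Hh p.1 (Function.update x i t) (Function.update x i (t + 1)) ≤ q n := by
    refine (H_le _ _ _ (q_pos n).le).2 fun j hj => ?_
    have hj' : j ≠ i := by rintro rfl; simp at hj
    have : (3 : P) ^ n ∣ x j - p.1 j := by
      rcases hx j with h | h <;> rw [h]
      · exact (hz j).2
      · exact (pow_dvd_pow _ (by omega)).trans (hz' j).2
    rw [w, nD, Function.update_of_ne hj', Function.update_of_ne hj']
    convert this.mul_left 2 using 1
    push_cast; ring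
  have hB : q n ≤ Bb p.1 (Function.update x i t) (Function.update x i (t + 1)) := by
    refine le_trans (nD' _ _ fun h => ?_) ((B_le _ _ _ (norm_nonneg _)).1 le_rfl i (by simp))
    simp only [Function.update_self] at h
    have h4 : (3 : ℤ) ^ (n + 1) ∣ 2 * (t - z' i) + 1 := by
      rw [← iD]
      convert dvd_sub h ((hz' i).2.mul_left 2) using 1
      push_cast; ring
    have h5 : (3 : ℤ) ^ n ∣ z' i - z i := by
      rw [← iD]
      convert dvd_sub ((pow_dvd_pow _ (Nat.le_succ n)).trans (hz' i).2) (hz i).2 using 1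
      push_cast; ring
    obtain ⟨k, hk⟩ := h5
    have h6 := (hz i).1
    have h7 := (hz' i).1
    have h8 := Int.le_abs_of_dvd (by omega) h4
    rw [pow_succ] at h7 h8
    have h9 : -2 < k ∧ k < 2 := by
      simp only [Int.abs_eq_natAbs] at h6 h7
      constructor <;> by_contra h0 <;> nlinarith [show -(3 ^ n * 2) < z' i - z i by omega,
        show z' i - z i < 3 ^ n * 2 by omega]
    simp only [Int.abs_eq_natAbs] at h8
    obtain ⟨h9, h10⟩ := h9
    interval_cases k <;> omega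
  rw [Op_adj]
  refine ⟨ha, if_pos (iff_of_true (hH.trans hB) ?_)⟩
  exact hG _ _ ha (hb _ le_rfl (by omega)) (hb _ (by omega) le_rfl) ((min_le_left _ _).trans hH)

lemma perc (hd : 2 ≤ d) (p : (Fin d → P) × (E d → ℝ)) (hc : Gen p.1) (N : ℕ)
    (hG : ∀ n, N ≤ n → Good p n) : ∃ x, {y | (Op (F p)).Reachable x y}.Infinite := by
  choose z hz using centre p.1 0
  simp only [Pi.zero_apply, sub_zero] at hz
  have h1 : ∀ n, N ≤ n → (Op (F p)).Reachable (z N) (z n) := by
    intro n hn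
    induction n, hn using Nat.le_induction with
    | base => rfl
    | succ n hn ih => exact ih.trans (link p n (hG n hn) _ _ (hz n) (hz (n + 1)))
  refine ⟨z N, fun hf => ?_⟩
  let i : Fin d := ⟨0, by omega⟩
  have h2 : ∀ᶠ n in Filter.atTop, ∀ y ∈ {y | (Op (F p)).Reachable (z N) y},
      q n < ‖(y i : P) - p.1 i‖ := by
    refine (Filter.eventually_all_finite hf).2 fun y _ => ?_
    refine (tendsto_pow_atTop_nhds_zero_of_lt_one (by norm_num) (by norm_num)).eventually
      (gt_mem_nhds (norm_pos_iff.2 fun h => hc i (2 * y i) ?_))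
    push_cast
    linear_combination 2 * h
  obtain ⟨n, h3, h4⟩ := (h2.and (Filter.eventually_ge_atTop N)).exists
  exact (h3 _ (h1 n h4)).not_ge ((nD _ _).2 (hz n i).2)

lemma ax_adj (z : V d) (m : ℤ) (i : Fin d) (b : Bool) :
    (G d).Adj (z + Pi.single i (cond b m (-m))) (z + Pi.single i (cond b (m + 1) (-(m + 1)))) := by
  refine (adj_iff _ _).2 ⟨i, cond b 1 (-1), by cases b <;> simp, ?_⟩
  rw [add_sub_add_left_eq_sub, ← Pi.single_sub]
  cases b <;> simp

lemma cell (c : Fin d → P) (x0 : V d) (n : ℕ) : ∃ (C : Set (V d)) (D : Finset (E d)),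
    C.Finite ∧ x0 ∈ C ∧ D.card ≤ d * 2 ∧ (∀ e ∈ D, (g c e).2 ≤ q n) ∧
    ∀ u : E d → ℝ, Good (c, u) n → (∀ j, |x0 j| ≤ 3 ^ n) → ∀ x ∈ C, ∀ y ∉ C,
      ∀ h : (G d).Adj x y, F (c, u) ⟨s(x, y), h⟩ = true → ⟨s(x, y), h⟩ ∈ D := by
  obtain ⟨z, hz⟩ := centre c x0 n
  obtain ⟨m, hm⟩ := odd3 n
  have hm' : (3 : P) ^ n = 2 * m + 1 := by exact_mod_cast congrArg (Int.cast : ℤ → P) hm
  have hB : ∀ i b, Bb c (z + Pi.single i (cond b (m : ℤ) (-(m : ℤ))))
      (z + Pi.single i (cond b ((m : ℤ) + 1) (-((m : ℤ) + 1)))) ≤ q n := by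
    intro i b
    refine (B_le _ _ _ (q_pos n).le).2 fun j hj => ?_
    obtain rfl : j = i := by
      by_contra h
      simp [h] at hj
    rw [w, nD]
    cases b
    · convert dvd_sub ((hz j).2.mul_left 2) dvd_rfl using 1
      simp [hm']; ring
    · convert dvd_add ((hz j).2.mul_left 2) dvd_rfl using 1
      simp [hm']; ring
  refine ⟨{x | ∀ j, 2 * |x j - z j| < 3 ^ n}, Finset.univ.image fun k : Fin d × Bool =>
    ⟨s(_, _), ax_adj z m k.1 k.2⟩, ?_, fun j => by rw [abs_sub_comm]; exact (hz j).1, ?_, ?_, ?_⟩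
  · refine (Set.Finite.pi' fun j => Set.finite_Icc (z j - m) (z j + m)).subset fun x hx j => ?_
    have := hx j
    simp only [Int.abs_eq_natAbs, Set.mem_Icc] at this ⊢
    omega
  · exact Finset.card_image_le.trans (by simp)
  · intro e he
    obtain ⟨k, -, rfl⟩ := Finset.mem_image.1 he
    exact hB _ _
  intro u hG h0 x hx y hy h hF
  obtain ⟨i, s, hs, h1⟩ := (adj_iff x y).1 h
  have h2 : ∀ j, j ≠ i → y j = x j := fun j hj => by
    have := congrFun h1 j
    simp only [Pi.sub_apply, Pi.single_eq_of_ne hj] at this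
    omega
  have h3 : y i = x i + s := by
    have := congrFun h1 i
    simp only [Pi.sub_apply, Pi.single_eq_same] at this
    omega
  have h4 : 3 ^ n ≤ 2 * |y i - z i| := by
    by_contra h5
    refine hy fun j => ?_
    by_cases hj : j = i
    · subst hj; omega
    · rw [h2 j hj]; exact hx j
  have h5 := hx i
  have h6 : ∃ b, x i = z i + cond b (m : ℤ) (-m) ∧ y i = z i + cond b ((m : ℤ) + 1) (-(m + 1)) := by
    simp only [Int.abs_eq_natAbs] at h4 h5
    rcases hs with rfl | rfl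
    · exact ⟨true, by simp only [cond_true]; omega⟩
    · exact ⟨false, by simp only [cond_false]; omega⟩
  obtain ⟨b, h6, h7⟩ := h6
  have h8 : Bb c x y ≤ q n := by
    refine le_trans ((B_le _ _ _ (norm_nonneg _)).2 fun j hj => ?_) (hB i b)
    obtain rfl : j = i := by
      by_contra h
      exact hj (h2 j h).symm
    refine le_trans (le_of_eq ?_) ((B_le _ _ _ (norm_nonneg _)).1 le_rfl j
      (by cases b <;> simp))
    simp [w, h6, h7]
  have h9 : ∀ j, |x j| ≤ 2 * 3 ^ n := fun j => by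
    have := hx j
    have := (hz j).1
    have := h0 j
    simp only [Int.abs_eq_natAbs] at *
    omega
  have h10 := hG x y h (fun j => by have := h9 j; rw [pow_succ]; omega) (fun j => by
    have := h9 j
    rw [pow_succ]
    simp only [Int.abs_eq_natAbs] at this ⊢
    by_cases hj : j = i
    · subst hj; omega
    · rw [h2 j hj]; omega) ((min_le_right _ _).trans h8)
  have h11 : Hh c x y ≤ q n := by
    refine le_trans ?_ h8
    by_contra h12
    rw [F, if_neg (fun h13 => h12 (h13.2 h10))] at hF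
    exact Bool.false_ne_true hF
  have h12 : ∀ j, j ≠ i → x j = z j := by
    intro j hj
    have h13 := (H_le _ _ _ (q_pos n).le).1 h11 j (h2 j hj).symm
    rw [w, nD, h2 j hj] at h13
    have h14 : (3 : ℤ) ^ n ∣ 2 * (x j - z j) := by
      rw [← iD]
      convert dvd_sub h13 ((hz j).2.mul_left 2) using 1
      push_cast; ring
    by_contra h15
    have := Int.le_abs_of_dvd (by omega) h14
    have := hx j
    simp only [Int.abs_eq_natAbs] at *
    omega
  refine Finset.mem_image.2 ⟨(i, b), Finset.mem_univ _, Subtype.ext ?_⟩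
  simp only
  congr 1 <;> ext j <;> by_cases hj : j = i
  · subst hj; simp [h6]
  · simp [hj, h12 j hj]
  · subst hj; simp [h7]
  · simp [hj, h12 j hj, h2 j hj]

end
end Pool.Agent.H22.Lat
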