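import Mathlib
import Pool.Agent.H22.Tri1
import Pool.Agent.H22.Perc3

set_option autoImplicit false
open MeasureTheory ProbabilityTheory Set

namespace Pool.Agent.H22.Lat
noncomputable section
open Pool.Agent.H22.Perc3

lemma blocks {ι : Type} (ν : Measure Bool) [IsProbabilityMeasure ν] (h : ν {false} ≠ 0) (K : ℕ)
    (D : ℕ → Finset ι) (hK : ∀ n, (D n).card ≤ K) (hf : ∀ e, ∀ᶠ n in Filter.atTop, e ∉ D n)
    (N : ℕ) : ∀ᵐ η ∂(Measure.infinitePi fun _ : ι => ν), ∃ n, N ≤ n ∧ ∀ e ∈ D n, η e = false := by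
  obtain ⟨f, hf1, hf2⟩ := exists_seq_of_forall_finset_exists' (fun n => N ≤ n)
    (fun a b => Disjoint (D a : Set ι) (D b)) (fun s _ => by
      have : ∀ᶠ n in Filter.atTop, ∀ a ∈ s, ∀ e ∈ D a, e ∉ D n := by
        simp only [Filter.eventually_all_finset]
        exact fun a _ e _ => hf e
      obtain ⟨n, h1, h2⟩ := (this.and (Filter.eventually_ge_atTop N)).exists
      exact ⟨n, h2, fun a ha => disjoint_left.2 fun e he => h1 a ha e he⟩)
  rw [ae_iff]
  have hq : 1 - ν {false} ^ K < 1 :=
    ENNReal.sub_lt_self ENNReal.one_ne_top one_ne_zero (pow_ne_zero _ h)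
  refine le_antisymm (ge_of_tendsto' (ENNReal.tendsto_pow_atTop_nhds_zero_of_lt_one hq)
    fun n => ?_) bot_le
  have hm : ∀ k, MeasurableSet[cylinderEvents (D k : Set ι)]
      ((D k : Set ι).pi fun _ => ({false} : Set Bool)) := by
    intro k
    have : ((D k : Set ι).pi fun _ => ({false} : Set Bool)) =
        ⋂ e ∈ D k, {ω : ι → Bool | ω e ∈ ({false} : Set Bool)} := by
      ext ω; simp [Set.mem_pi]
    rw [this]
    exact Finset.measurableSet_biInter _ fun e he =>
      ev_meas _ _ (Finset.mem_coe.2 he) _ (measurableSet_singleton _)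
  have := ind_prod (fun _ : ι => ν) ∅ (fun k : ℕ => (D (f k) : Set ι)) univ
    (fun k => ((D (f k) : Set ι).pi fun _ => ({false} : Set Bool))ᶜ) (1 - ν {false} ^ K)
    (Finset.range n) (@MeasurableSet.univ _ (cylinderEvents _)) (fun g _ => (hm _).compl)
    (fun _ _ => empty_disjoint _) (fun g _ g' _ hg => hf2 hg) (fun g _ => by
      rw [prob_compl_eq_one_sub (cylinderEvents_le_pi _ (hm _)),
        Measure.infinitePi_pi _ (fun _ _ => measurableSet_singleton _), Finset.prod_const]
      exact tsub_le_tsub_left (pow_le_pow_right_of_le_one' prob_le_one (hK _)) _)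
  simp only [measure_univ, one_mul, Finset.card_range, univ_inter] at this
  refine (measure_mono fun s hs => ?_).trans this
  simp only [mem_iInter]
  intro k _ h1
  exact hs ⟨f k, hf1 k, fun e he => h1 e he⟩

lemma reidx {ι X : Type} [MeasurableSpace X] (ν : Measure X) [IsProbabilityMeasure ν]
    (e : ι ≃ ι) : MeasurePreserving (fun (ω : ι → X) i => ω (e i))
      (Measure.infinitePi fun _ => ν) (Measure.infinitePi fun _ => ν) := by
  refine ⟨by fun_prop, ?_⟩
  have := Measure.infinitePi_map_piCongrLeft (fun _ : ι => ν) e.symm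
  convert this using 2
  ext ω i
  simp [MeasurableEquiv.piCongrLeft, Equiv.piCongrLeft_apply]

lemma energy {Ω : Type} (m : MeasurableSpace Ω) [m0 : MeasurableSpace Ω] (hm : m ≤ m0)
    (μ : Measure Ω) [IsProbabilityMeasure μ] (S : Set Ω) (hS : MeasurableSet S)
    (h1 : ∀ A, MeasurableSet[m] A → μ (A ∩ S) = 0 → μ A = 0)
    (h2 : ∀ A, MeasurableSet[m] A → μ (A ∩ Sᶜ) = 0 → μ A = 0) :
    ∀ᵐ ω ∂μ, 0 < (μ[S.indicator fun _ => (1 : ℝ) | m]) ω ∧
      (μ[S.indicator fun _ => (1 : ℝ) | m]) ω < 1 := by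
  set f := μ[S.indicator fun _ => (1 : ℝ) | m]
  have hf : Measurable[m] f := stronglyMeasurable_condExp.measurable
  have hi : ∀ A, MeasurableSet[m] A → ∫ ω in A, f ω ∂μ = μ.real (A ∩ S) := by
    intro A hA
    rw [setIntegral_condExp hm ((integrable_const _).indicator hS) hA,
      setIntegral_indicator hS]
    simp
  refine Filter.Eventually.and ?_ ?_ <;> rw [ae_iff] <;> simp only [not_lt]
  · have hA : MeasurableSet[m] {ω | f ω ≤ 0} := measurableSet_le hf measurable_const
    refine h1 _ hA ?_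
    have := setIntegral_nonpos (μ := μ) (hm _ hA) (f := f) fun ω h => h
    rw [hi _ hA] at this
    exact (measureReal_eq_zero_iff (measure_ne_top _ _)).1 (le_antisymm this measureReal_nonneg)
  · have hA : MeasurableSet[m] {ω | 1 ≤ f ω} := measurableSet_le measurable_const hf
    refine h2 _ hA ?_
    have := setIntegral_mono_on (μ := μ) (integrable_const (1 : ℝ)).integrableOn
      integrable_condExp.integrableOn (hm _ hA) fun ω h => h
    rw [hi _ hA] at this
    simp only [integral_const, MeasurableSet.univ, measureReal_restrict_apply, univ_inter,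
      smul_eq_mul, mul_one] at this
    have h3 := measureReal_inter_add_sdiff (μ := μ) (s := {ω | 1 ≤ f ω}) hS
    refine (measureReal_eq_zero_iff (measure_ne_top _ _)).1 (le_antisymm ?_ measureReal_nonneg)
    rw [← sdiff_eq]
    linarith

instance : MeasurableSpace P := borel _
instance : BorelSpace P := ⟨rfl⟩

def haar : Measure P := Measure.addHaarMeasure ⊤

instance : haar.IsAddHaarMeasure := by unfold haar; infer_instance
instance : haar.Regular := by unfold haar; infer_instance
instance : IsProbabilityMeasure haar := ⟨Measure.addHaarMeasure_self⟩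

lemma haar_pt (t : P) : haar {t} = 0 := by
  by_contra h
  have : Infinite P := Infinite.of_injective (Nat.cast : ℕ → P) Nat.cast_injective
  exact measure_ne_top haar univ (infinite_univ.meas_eq_top ⟨_, h, fun x _ => by
    rw [Measure.addHaar_singleton haar x, Measure.addHaar_singleton haar t]⟩)

def un : Measure ℝ := volume.restrict (Icc 0 1)

instance : IsProbabilityMeasure un := ⟨by simp [un]⟩

lemma un_le (a : ℝ) : un (Iio a) ≤ ENNReal.ofReal a := by
  rw [un, Measure.restrict_apply measurableSet_Iio]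
  exact (measure_mono (show _ ⊆ Ico 0 a from fun x h => ⟨h.2.1, h.1⟩)).trans (by simp)

lemma un_ne {a : ℝ} (h : 0 < a ∧ a ≤ 1 / 2) : un (Iio a) ≠ 0 ∧ un (Ici a) ≠ 0 := by
  rw [un, Measure.restrict_apply measurableSet_Iio, Measure.restrict_apply measurableSet_Ici]
  constructor
  · refine ne_of_gt (lt_of_lt_of_le ?_ (measure_mono (show Ico 0 a ⊆ _ from fun x hx =>
      ⟨hx.2, hx.1, by linarith [hx.2]⟩)))
    simpa using h.1
  · refine ne_of_gt (lt_of_lt_of_le ?_ (measure_mono (show Icc a 1 ⊆ _ from fun x hx =>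
      ⟨hx.1, by linarith [hx.1], hx.2⟩)))
    simp only [Real.volume_Icc, ENNReal.ofReal_pos]
    linarith

variable {d : ℕ}

abbrev PC (d : ℕ) : Measure (Fin d → P) := Measure.infinitePi fun _ => haar
abbrev PU (d : ℕ) : Measure (E d → ℝ) := Measure.infinitePi fun _ => un

lemma ae_gen : ∀ᵐ c ∂(PC d), Gen c := by
  unfold Gen
  simp only [ae_all_iff]
  intro j k
  rw [ae_iff]
  have hs : {t : P | (k : P) - 2 * t = 0}.Subsingleton := fun a ha b hb =>
    mul_left_cancel₀ (two_ne_zero (α := P)) (by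
      simp only [mem_ofPred_eq] at ha hb; linear_combination hb - ha)
  have := ev_eq (fun _ : Fin d => haar) j _ hs.measurableSet
  simp only [not_not]
  refine this.trans ?_
  rcases hs.eq_empty_or_singleton with h | ⟨t, h⟩ <;> rw [h]
  · simp
  · exact haar_pt t

lemma δ_cont (e : Sym2 (V d)) : Continuous fun c : Fin d → P => δ c e := by
  have := g_cont e
  unfold δ
  fun_prop

def Fe (e : E d) (p : (Fin d → P) × ℝ) : Bool := F (p.1, fun _ => p.2) e

lemma Fe_meas (e : E d) : Measurable (Fe e) := by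
  have h1 := (g_cont e.1).measurable
  have h2 := (δ_cont e.1).measurable
  exact Measurable.ite (MeasurableSet.iff (measurableSet_le (by fun_prop) (by fun_prop))
    (measurableSet_le (by fun_prop) (by fun_prop))) measurable_const measurable_const

lemma F_meas : Measurable (F (d := d)) :=
  measurable_pi_iff.2 fun e => (Fe_meas e).comp
    (f := fun p : (Fin d → P) × (E d → ℝ) => (p.1, p.2 e)) (by fun_prop)

def law (d : ℕ) : Measure (E d → Bool) := ((PC d).prod (PU d)).map F

instance : IsProbabilityMeasure (law d) := Measure.isProbabilityMeasure_map F_meas.aemeasurable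

lemma law_inv (φ : G d ≃g G d) :
    (law d).map (fun ω e => ω (φ.mapEdgeSet e)) = law d := by
  obtain ⟨σ, ε, a, hε, h⟩ := aut φ
  have h1 : MeasurePreserving (fun (c : Fin d → P) i => ε i * (c i - a (σ i))) (PC d) (PC d) := by
    refine ⟨by fun_prop, ?_⟩
    rw [Measure.infinitePi_map_pi _ (f := fun i (t : P) => ε i * (t - a (σ i))) (by fun_prop)]
    congr 1
    ext1 i
    rcases hε i with h2 | h2 <;> rw [h2]
    · simpa using (measurePreserving_sub_right haar _).map_eq
    · simpa using (Measure.measurePreserving_sub_left haar _).map_eq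
  have h2 := ((h1.comp (reidx haar σ)).prod (reidx un φ.mapEdgeSet)).map_eq
  rw [law, Measure.map_map (by fun_prop) F_meas]
  conv_rhs => rw [← h2]
  rw [Measure.map_map F_meas ((h1.comp (reidx haar σ)).prod (reidx un φ.mapEdgeSet)).measurable]
  congr 1
  ext p e
  have := g_aut φ σ ε a hε h p.1 e
  have h3 : (φ.mapEdgeSet e : Sym2 (V d)) = e.1.map φ := rfl
  simp only [Function.comp_def, F, δ, h3, this, Prod.map]
  congr

lemma law_tol (hd : 2 ≤ d) (e : E d) (b : Bool) (A : Set (E d → Bool))
    (hA : MeasurableSet[cylinderEvents {e}ᶜ] A) (h : law d (A ∩ {ω | ω e ∈ ({b} : Set Bool)}) = 0) :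
    law d A = 0 := by
  have hA' : MeasurableSet A := cylinderEvents_le_pi _ hA
  have hB : MeasurableSet (A ∩ {ω | ω e ∈ ({b} : Set Bool)}) :=
    hA'.inter (measurable_pi_apply e (measurableSet_singleton _))
  rw [law, Measure.map_apply F_meas hB, Measure.measure_prod_null (F_meas hB)] at h
  rw [law, Measure.map_apply F_meas hA', Measure.measure_prod_null (F_meas hA')]
  filter_upwards [h, ae_gen] with c h1 hc
  have hm : Measurable fun t : ℝ => Fe e (c, t) := (Fe_meas e).comp (by fun_prop)
  have h2 : Measurable[cylinderEvents {e}ᶜ, cylinderEvents {e}ᶜ] fun u : E d → ℝ => F (c, u) :=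
    measurable_cylinderEvents_iff.2 fun f hf => ((Fe_meas f).comp measurable_prodMk_left).comp
      (measurable_cylinderEvent_apply (X := fun _ => ℝ) hf)
  have h3 := ind (fun _ : E d => un) disjoint_compl_left (h2 hA)
    (ev_meas {e} e rfl _ (hm (measurableSet_singleton b)))
  rw [ev_eq _ _ _ (hm (measurableSet_singleton b))] at h3
  have h4 := h3.symm.trans h1
  refine (mul_eq_zero.1 h4).resolve_right ?_
  obtain ⟨h5, h6⟩ := un_ne (δ_pos hd hc e.2)
  by_cases h7 : ((g c e).1 ≤ (g c e).2 ↔ b = true)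
  · refine fun h8 => h6 (measure_mono_null (fun t ht => ?_) h8)
    have ht' : δ c e ≤ t := ht
    clear h h1 h3 h4 h8 hm h2 hB ht
    cases b <;> simp_all [Fe, F]
  · refine fun h8 => h5 (measure_mono_null (fun t ht => ?_) h8)
    have ht' : ¬ δ c e ≤ t := not_le.2 ht
    clear h h1 h3 h4 h8 hm h2 hB ht
    cases b <;> simp_all [Fe, F, -not_le]

lemma ae_good (c : Fin d → P) : ∀ᵐ u ∂(PU d), ∀ᶠ n in Filter.atTop, Good (c, u) n := by
  classical
  let Bx : ℕ → Finset (V d) := fun n => Fintype.piFinset fun _ => Finset.Icc (-3 ^ (n + 1)) (3 ^ (n + 1))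
  have hb : ∀ n, PU d {u | ¬ Good (c, u) n} ≤ ENNReal.ofReal (9 ^ (2 * d) * q n) := by
    intro n
    have h1 : {u | ¬ Good (c, u) n} ⊆ ⋃ k ∈ Bx n ×ˢ Bx n, ⋃ h : (G d).Adj k.1 k.2,
        {u | u ⟨s(k.1, k.2), h⟩ ∈ Iio (q n ^ (2 * d + 1))} := by
      intro u hu
      simp only [Good, not_forall, mem_ofPred_eq, not_le] at hu
      obtain ⟨x, y, h, hx, hy, h2, h3⟩ := hu
      simp only [mem_iUnion]
      refine ⟨(x, y), ?_, h, h3.trans_le ?_⟩
      · simp only [Bx, Finset.mem_product, Fintype.mem_piFinset, Finset.mem_Icc, ← abs_le]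
        exact ⟨hx, hy⟩
      · have := pow_le_pow_left₀ (le_min (norm_nonneg _) (norm_nonneg _)) h2 (2 * d + 1)
        have h4 := pow_pos (q_pos n) (2 * d + 1)
        rw [δ, g_mk]
        simp only [Hh, Bb] at this ⊢
        linarith
    refine (measure_mono h1).trans ((measure_biUnion_finset_le _ _).trans ?_)
    refine (Finset.sum_le_card_nsmul _ _ (ENNReal.ofReal (q n ^ (2 * d + 1))) fun k _ => ?_).trans ?_
    · by_cases h : (G d).Adj k.1 k.2
      · simp only [h, iUnion_true]
        rw [ev_eq _ _ _ measurableSet_Iio]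
        exact un_le _
      · simp [h]
    · rw [nsmul_eq_mul, ← ENNReal.ofReal_natCast, ← ENNReal.ofReal_mul (by positivity)]
      refine ENNReal.ofReal_le_ofReal ?_
      have h2 : (Bx n).card ≤ (9 * 3 ^ n) ^ d := by
        simp only [Bx, Fintype.card_piFinset, Int.card_Icc, Finset.prod_const, Finset.card_univ,
          Fintype.card_fin]
        refine Nat.pow_le_pow_left (Int.toNat_le.2 ?_) _
        have : (0 : ℤ) < 3 ^ n := by positivity
        push_cast
        rw [pow_succ]
        omega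
      have h3 : ((Bx n ×ˢ Bx n).card : ℝ) ≤ (9 * 3 ^ n) ^ (2 * d) := by
        rw [Finset.card_product, two_mul, pow_add]
        exact_mod_cast Nat.mul_le_mul h2 h2
      refine (mul_le_mul_of_nonneg_right h3 (pow_pos (q_pos n) _).le).trans (le_of_eq ?_)
      have h4 : 3 ^ n * q n = 1 := by simp [q]
      rw [pow_succ, ← mul_assoc, ← mul_pow, mul_assoc 9, h4, mul_one]
  have h2 : ∑' n, PU d {u | ¬ Good (c, u) n} ≠ ⊤ := by
    refine ne_top_of_le_ne_top ?_ (ENNReal.tsum_le_tsum hb)
    have hs : Summable q := summable_geometric_of_lt_one (by norm_num) (by norm_num)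
    rw [← ENNReal.ofReal_tsum_of_nonneg (fun n => by have := q_pos n; positivity) (hs.mul_left _)]
    exact ENNReal.ofReal_ne_top
  filter_upwards [ae_eventually_notMem h2] with u hu
  simpa using hu

def Perc (ω : E d → Bool) : Prop := ∃ c : (Op ω).ConnectedComponent, c.supp.Infinite

lemma perc_iff (ω : E d → Bool) : Perc ω ↔ ∃ x, {y | (Op ω).Reachable x y}.Infinite := by
  have : ∀ x, ((Op ω).connectedComponentMk x).supp = {y | (Op ω).Reachable x y} := fun x => by
    ext y
    simp only [SimpleGraph.ConnectedComponent.mem_supp_iff, SimpleGraph.ConnectedComponent.eq,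
      mem_ofPred_eq]
    exact ⟨fun h => h.symm, fun h => h.symm⟩
  constructor
  · rintro ⟨c, hc⟩
    induction c using SimpleGraph.ConnectedComponent.ind with
    | h x => exact ⟨x, this x ▸ hc⟩
  · rintro ⟨x, hx⟩
    exact ⟨_, (this x).symm ▸ hx⟩

lemma perc_meas : MeasurableSet {ω : E d → Bool | Perc ω} := by
  have : {ω : E d → Bool | Perc ω} = ⋃ x, ⋂ s : Finset (V d), ⋃ y, ⋃ (_ : y ∉ s),
      {ω | Relation.ReflTransGen (Op ω).Adj x y} := by
    ext ω
    simp only [mem_ofPred_eq, perc_iff, mem_iUnion, mem_iInter,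
      ← SimpleGraph.reachable_iff_reflTransGen]
    refine exists_congr fun x => ⟨fun h s => ?_, fun h hf => ?_⟩
    · obtain ⟨y, h1, h2⟩ := h.exists_notMem_finset s
      exact ⟨y, h2, h1⟩
    · obtain ⟨y, h1, h2⟩ := h hf.toFinset
      exact h1 (hf.mem_toFinset.2 h2)
  rw [this]
  refine MeasurableSet.iUnion fun x => MeasurableSet.iInter fun s => MeasurableSet.iUnion fun y =>
    MeasurableSet.iUnion fun _ => rtg_meas _ (fun ω => (Op ω).Adj) (fun a b => ?_) x y
  simp only [Op_adj, ofPred_exists]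
  exact MeasurableSet.iUnion fun h => measurable_pi_apply (X := fun _ : E d => Bool) _
    (measurableSet_singleton true)

lemma law_perc (hd : 2 ≤ d) : ∀ᵐ ω ∂(law d), Perc ω := by
  refine (ae_map_iff F_meas.aemeasurable perc_meas).2
    ((Measure.ae_prod_iff_ae_ae (F_meas perc_meas)).2 ?_)
  filter_upwards [ae_gen] with c hc
  filter_upwards [ae_good c] with u hu
  obtain ⟨N, hN⟩ := Filter.eventually_atTop.1 hu
  exact (perc_iff _).2 (perc hd (c, u) hc N hN)

lemma law_thin (hd : 2 ≤ d) (ν : Measure Bool) [IsProbabilityMeasure ν] (h : ν {false} ≠ 0) :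
    ∀ᵐ p ∂((law d).prod (Measure.infinitePi fun _ : E d => ν)),
      ¬ Perc fun e => p.1 e && p.2 e := by
  have hm : MeasurableSet {p : (E d → Bool) × (E d → Bool) | ¬ Perc fun e => p.1 e && p.2 e} :=
    (show Measurable fun (p : (E d → Bool) × (E d → Bool)) e => p.1 e && p.2 e from
      measurable_pi_iff.2 fun e => (measurable_of_countable fun b : Bool × Bool => b.1 && b.2).comp
        (f := fun p : (E d → Bool) × (E d → Bool) => (p.1 e, p.2 e)) (by fun_prop)) perc_meas.compl
  have hm2 := measurable_measure_prodMk_left (ν := Measure.infinitePi fun _ : E d => ν) hm.compl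
    (measurableSet_singleton 0)
  refine (Measure.ae_prod_iff_ae_ae hm).2 ((ae_map_iff F_meas.aemeasurable hm2).2
    ((Measure.ae_prod_iff_ae_ae (F_meas hm2)).2 ?_))
  filter_upwards [ae_gen] with c hc
  filter_upwards [ae_good c] with u hu
  choose C D h1 h2 h3 h4 h5 using cell c
  show ∀ᵐ η ∂(Measure.infinitePi fun _ : E d => ν), ¬ Perc fun e => F (c, u) e && η e
  have h6 : ∀ x : V d, ∃ N, ∀ n, N ≤ n → Good (c, u) n ∧ ∀ j, |x j| ≤ 3 ^ n := fun x : V d =>
    Filter.eventually_atTop.1 (hu.and (Filter.eventually_all.2 fun j =>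
      (tendsto_pow_atTop_atTop_of_one_lt (by norm_num)).eventually_ge_atTop _))
  choose N hN using h6
  have h7 : ∀ x e, ∀ᶠ n in Filter.atTop, e ∉ D x n := fun x e =>
    ((tendsto_pow_atTop_nhds_zero_of_lt_one (by norm_num) (by norm_num)).eventually
      (gt_mem_nhds (g_pos hd hc e.2).2.1)).mono fun n hn he => (h4 x n e he).not_gt hn
  filter_upwards [ae_all_iff.2 fun x => blocks ν h _ (D x) (h3 x) (h7 x) (N x)] with η hη hp
  obtain ⟨x, hx⟩ := (perc_iff _).1 hp
  obtain ⟨n, h8, h9⟩ := hη x
  refine hx ((h1 x n).subset fun y hy => ?_)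
  rw [mem_ofPred_eq, SimpleGraph.reachable_iff_reflTransGen] at hy
  induction hy with
  | refl => exact h2 x n
  | tail _ h ih =>
    obtain ⟨h10, h11⟩ := (Op_adj _ _ _).1 h
    by_contra h12
    rw [Bool.and_eq_true] at h11
    have := h9 _ (h5 x n u (hN x n h8).1 (hN x n h8).2 _ ih _ h12 h10 h11.1)
    rw [this] at h11
    exact Bool.false_ne_true h11.2

end
end Pool.Agent.H22.Lat
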