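import Mathlib

namespace Pool.Agent.H22.UShift
open scoped InnerProductSpace
open Submodule

variable {E : Type} [NormedAddCommGroup E] [InnerProductSpace ℂ E] [CompleteSpace E]

theorem polar (T S : E ≃ₗᵢ[ℂ] E) (X : E →L[ℂ] E) (hX : ∀ v, X v = 0 → v = 0)
    (h : ∀ v, X (T v) = S (X v)) : ∃ U : E →ₗᵢ[ℂ] E, ∀ v, U (T v) = S (U v) := by
  have h' : ∀ v, X (T.symm v) = S.symm (X v) := fun v => by
    rw [eq_comm, LinearIsometryEquiv.symm_apply_eq, ← h, T.apply_symm_apply]
  have ha : 0 ≤ star X * X := star_mul_self_nonneg X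
  have hc : Commute (star X * X) (T : E →L[ℂ] E) := by
    ext v
    refine ext_inner_left ℂ fun w => ?_
    change ⟪w, ContinuousLinearMap.adjoint X (X (T v))⟫_ℂ =
      ⟪w, T (ContinuousLinearMap.adjoint X (X v))⟫_ℂ
    rw [ContinuousLinearMap.adjoint_inner_right, h, ← T.symm.inner_map_map w, T.symm_apply_apply,
      ContinuousLinearMap.adjoint_inner_right, h', ← S.symm.inner_map_map (X w), S.symm_apply_apply]
  let Q : E →L[ℂ] E := CFC.sqrt (star X * X)
  have hQ : Q * Q = star X * X := CFC.sqrt_mul_sqrt_self _ ha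
  have hs : IsSelfAdjoint Q := (CFC.sqrt_nonneg _).isSelfAdjoint
  have hcQ : Commute Q (T : E →L[ℂ] E) := hc.cfcₙ_nnreal _
  have hn : ∀ v, ‖X v‖ = ‖Q v‖ := fun v => by
    have e1 : ⟪X v, X v⟫_ℂ = ⟪Q v, Q v⟫_ℂ := by
      rw [← ContinuousLinearMap.adjoint_inner_right X, ← ContinuousLinearMap.adjoint_inner_right Q,
        hs.adjoint_eq]
      exact congrArg (fun A : E →L[ℂ] E => ⟪v, A v⟫_ℂ) hQ.symm
    rw [@norm_eq_sqrt_re_inner ℂ, @norm_eq_sqrt_re_inner ℂ, e1]
  have hd : DenseRange (Q : E →ₗ[ℂ] E) := by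
    change Dense ((LinearMap.range (Q : E →ₗ[ℂ] E) : Submodule ℂ E) : Set E)
    rw [dense_iff_topologicalClosure_eq_top, topologicalClosure_eq_top_iff, eq_bot_iff]
    intro w hw
    have h1 := (mem_orthogonal _ _).1 hw (Q (Q w)) ⟨_, rfl⟩
    have h2 : Q w = 0 := by
      rw [← ContinuousLinearMap.adjoint_inner_right, hs.adjoint_eq] at h1
      exact inner_self_eq_zero.1 h1
    exact hX w (by rw [← norm_eq_zero, hn, h2, norm_zero])
  have hb : ∃ C, ∀ v, ‖(X : E →ₗ[ℂ] E) v‖ ≤ C * ‖(Q : E →ₗ[ℂ] E) v‖ :=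
    ⟨1, fun v => by simp [hn]⟩
  let U := (X : E →ₗ[ℂ] E).extendOfNorm (Q : E →ₗ[ℂ] E)
  have hU : ∀ v, U (Q v) = X v := LinearMap.extendOfNorm_eq hd hb
  refine ⟨⟨U, fun w => ?_⟩, fun w => ?_⟩
  · refine hd.induction_on (p := fun w => ‖U w‖ = ‖w‖) w (isClosed_eq (by fun_prop) (by fun_prop))
      fun v => ?_
    exact (congrArg _ (hU v)).trans (hn v)
  · refine hd.induction_on (p := fun w => U (T w) = S (U w)) w
      (isClosed_eq (by fun_prop) (by fun_prop)) fun v => ?_
    have : T (Q v) = Q (T v) := (congrArg (fun A : E →L[ℂ] E => A v) hcQ.eq).symm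
    change U (T (Q v)) = S (U (Q v))
    rw [this, hU, hU, h]

theorem sb (T S : E ≃ₗᵢ[ℂ] E) (U V : E →ₗᵢ[ℂ] E) (hU : ∀ v, U (T v) = S (U v))
    (hV : ∀ v, V (S v) = T (V v)) : ∃ W : E ≃ₗᵢ[ℂ] E, ∀ v, W (T v) = S (W v) := by
  have hV' : ∀ v, V (S.symm v) = T.symm (V v) := fun v => by
    rw [eq_comm, LinearIsometryEquiv.symm_apply_eq, ← hV, S.apply_symm_apply]
  have hU' : ∀ v, U (T.symm v) = S.symm (U v) := fun v => by
    rw [eq_comm, LinearIsometryEquiv.symm_apply_eq, ← hU, T.apply_symm_apply]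
  let R : Submodule ℂ E := LinearMap.range V.toLinearMap
  have hRc : IsClosed (R : Set E) := V.isometry.isClosedEmbedding.isClosed_range
  have : CompleteSpace R := hRc.completeSpace_coe
  let Y := V.comp U
  let F : Set (Submodule ℂ E) := {M | IsClosed (M : Set E) ∧ Rᗮ ≤ M ∧ ∀ v ∈ M, Y v ∈ M}
  let L : Submodule ℂ E := sInf F
  have hLc : IsClosed (L : Set E) := by
    rw [coe_sInf]; exact isClosed_biInter fun M hM => hM.1
  have : CompleteSpace L := hLc.completeSpace_coe
  have hL1 : Rᗮ ≤ L := le_sInf fun M hM => hM.2.1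
  have hL2 : ∀ v ∈ L, Y v ∈ L := fun v hv => mem_sInf.2 fun M hM => hM.2.2 v (mem_sInf.1 hv M hM)
  have inv : ∀ A : E ≃ₗᵢ[ℂ] E, (∀ v ∈ R, A.symm v ∈ R) → (∀ v, Y (A v) = A (Y v)) →
      ∀ v ∈ L, A v ∈ L := by
    intro A h1 h2
    have : L.comap (A.toLinearEquiv : E →ₗ[ℂ] E) ∈ F := by
      refine ⟨hLc.preimage A.continuous, fun v hv => hL1 ?_, fun v hv => ?_⟩
      · refine (mem_orthogonal _ _).2 fun u hu => ?_
        change ⟪u, A v⟫_ℂ = 0
        rw [← A.symm.inner_map_map, A.symm_apply_apply]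
        exact (mem_orthogonal _ _).1 hv _ (h1 u hu)
      · change A (Y v) ∈ L
        rw [← h2]; exact hL2 _ hv
    exact fun v hv => (sInf_le this : L ≤ _) hv
  have i1 : ∀ v ∈ L, T v ∈ L := inv T (by rintro _ ⟨u, rfl⟩; exact ⟨S.symm u, hV' u⟩)
    fun v => by change V (U (T v)) = T (V (U v)); rw [hU, hV]
  have i2 : ∀ v ∈ L, T.symm v ∈ L := inv T.symm (by rintro _ ⟨u, rfl⟩; exact ⟨S u, hV u⟩)
    fun v => by change V (U (T.symm v)) = T.symm (V (U v)); rw [hU', hV']
  have hP : ∀ v, L.starProjection (T v) = T (L.starProjection v) := fun v => by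
    refine eq_starProjection_of_mem_of_inner_eq_zero (i1 _ (by simp)) fun w hw => ?_
    rw [← map_sub, ← T.symm.inner_map_map, T.symm_apply_apply]
    exact starProjection_inner_eq_zero _ _ (i2 w hw)
  have hM : ∀ v ∈ L, v - Rᗮ.starProjection v ∈ L.map Y.toLinearMap := by
    have hc : IsClosed ((L.map Y.toLinearMap : Submodule ℂ E) : Set E) :=
      Y.isometry.isClosedEmbedding.isClosedMap _ hLc
    have : L ⊓ (L.map Y.toLinearMap).comap
        ((ContinuousLinearMap.id ℂ E - Rᗮ.starProjection : E →L[ℂ] E) : E →ₗ[ℂ] E) ∈ F := by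
      refine ⟨hLc.inter (hc.preimage (ContinuousLinearMap.continuous _)),
        fun v hv => ⟨hL1 hv, ?_⟩, fun v hv => ⟨hL2 v hv.1, ?_⟩⟩
      · change v - Rᗮ.starProjection v ∈ L.map Y.toLinearMap
        rw [starProjection_eq_self_iff.2 hv, sub_self]; exact zero_mem _
      · change Y v - Rᗮ.starProjection (Y v) ∈ L.map Y.toLinearMap
        rw [starProjection_orthogonal_val, starProjection_eq_self_iff.2 (show Y v ∈ R from ⟨_, rfl⟩),
          sub_self, sub_zero]
        exact ⟨v, hv.1, rfl⟩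
    exact fun v hv => ((sInf_le this : L ≤ _) hv).2
  let Z : E →ₗᵢ[ℂ] E :=
    { toLinearMap := Y.toLinearMap ∘ₗ (L.starProjection : E →ₗ[ℂ] E) +
        (Lᗮ.starProjection : E →ₗ[ℂ] E)
      norm_map' := fun v => by
        change ‖Y (L.starProjection v) + Lᗮ.starProjection v‖ = ‖v‖
        have e1 := norm_add_sq_eq_norm_sq_add_norm_sq_of_inner_eq_zero (𝕜 := ℂ) _ _
          (inner_right_of_mem_orthogonal (hL2 _ (L.starProjection_apply_mem v))
            (Lᗮ.starProjection_apply_mem v))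
        have e2 := norm_add_sq_eq_norm_sq_add_norm_sq_of_inner_eq_zero (𝕜 := ℂ) _ _
          (inner_right_of_mem_orthogonal (L.starProjection_apply_mem v)
            (Lᗮ.starProjection_apply_mem v))
        rw [starProjection_add_starProjection_orthogonal] at e2
        rw [Y.norm_map, ← e2] at e1
        exact (mul_self_inj_of_nonneg (norm_nonneg _) (norm_nonneg _)).1 e1 }
  have hZ : ∀ v, Z v = Y (L.starProjection v) + (v - L.starProjection v) := fun v => by
    rw [← starProjection_orthogonal_val]; rfl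
  have hLR : Lᗮ ≤ R := by
    have := orthogonal_le hL1
    rwa [orthogonal_orthogonal] at this
  have hr : LinearMap.range Z.toLinearMap = R := by
    apply le_antisymm
    · rintro _ ⟨v, rfl⟩
      change Z v ∈ R
      rw [hZ]
      exact add_mem ⟨_, rfl⟩ (hLR (sub_starProjection_mem_orthogonal v))
    · intro v hv
      have h1 : L.starProjection v ∈ R := by
        have := sub_mem hv (hLR (sub_starProjection_mem_orthogonal v))
        rwa [sub_sub_cancel] at this
      obtain ⟨u, hu, e⟩ := hM _ (L.starProjection_apply_mem v)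
      rw [starProjection_orthogonal_val, starProjection_eq_self_iff.2 h1, sub_self, sub_zero] at e
      refine ⟨u + (v - L.starProjection v), ?_⟩
      change Z _ = v
      have e2 : L.starProjection (u + (v - L.starProjection v)) = u :=
        eq_starProjection_of_mem_orthogonal' hu (sub_starProjection_mem_orthogonal v) rfl
      rw [hZ, e2, add_sub_cancel_left]
      exact (congrArg (· + (v - L.starProjection v)) e).trans (add_sub_cancel _ _)
  let W := (Z.equivRange.trans (LinearIsometryEquiv.ofEq _ _ hr)).trans V.equivRange.symm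
  have hW : ∀ v, V (W v) = Z v := fun v =>
    congrArg Subtype.val (V.equivRange.apply_symm_apply
      (LinearIsometryEquiv.ofEq _ _ hr (Z.equivRange v)))
  refine ⟨W, fun v => V.injective ?_⟩
  rw [hV, hW, hW, hZ, hZ, hP, map_add, map_sub]
  congr 1
  change V (U (T _)) = T (V (U _))
  rw [hU, hV]

end Pool.Agent.H22.UShift
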