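import Pool.Agent.H22.UShiftA

namespace Pool.Agent.H22.UShift
open scoped InnerProductSpace
open Finset

abbrev H : Type := lp (fun _ : ℕ => ℂ) 2
abbrev K : Type := lp (fun _ : ℤ => H) 2

theorem two_real : (2 : ENNReal).toReal = 2 := by norm_num

theorem hasSum_sq {ι : Type} {G : Type} [NormedAddCommGroup G] (f : lp (fun _ : ι => G) 2) :
    HasSum (fun i => ‖f i‖ ^ 2) (‖f‖ ^ 2) := by
  simpa using lp.hasSum_norm (by norm_num) f

theorem mem_of_le {ι : Type} {G : Type} [NormedAddCommGroup G] {f : ι → G} {C : ℝ}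
    (h : ∀ s : Finset ι, ∑ i ∈ s, ‖f i‖ ^ 2 ≤ C) : Memℓp f 2 :=
  memℓp_gen' (C := C) (by simpa using h)

theorem norm_le_of {ι : Type} {G : Type} [NormedAddCommGroup G] {f : lp (fun _ : ι => G) 2} {C : ℝ}
    (hC : 0 ≤ C) (h : ∀ s : Finset ι, ∑ i ∈ s, ‖f i‖ ^ 2 ≤ C ^ 2) : ‖f‖ ≤ C :=
  lp.norm_le_of_forall_sum_le (by norm_num) hC (by simpa using h)

theorem sum_le_sq {ι : Type} {G : Type} [NormedAddCommGroup G] (f : lp (fun _ : ι => G) 2)
    (s : Finset ι) : ∑ i ∈ s, ‖f i‖ ^ 2 ≤ ‖f‖ ^ 2 :=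
  sum_le_hasSum s (fun _ _ => by positivity) (hasSum_sq f)

theorem mem_shift (s : ℤ) (v : K) : Memℓp (fun t => v (t - s)) 2 :=
  memℓp_gen (by
    simpa [Function.comp_def] using (Equiv.subRight s).summable_iff.2 (hasSum_sq v).summable)

/-- shift by `s` -/
noncomputable def sh (s : ℤ) : K ≃ₗᵢ[ℂ] K where
  toFun v := ⟨fun t => v (t - s), mem_shift s v⟩
  invFun v := ⟨fun t => v (t - -s), mem_shift (-s) v⟩
  map_add' _ _ := rfl
  map_smul' _ _ := rfl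
  left_inv v := lp.ext (funext fun t => by simp)
  right_inv v := lp.ext (funext fun t => by simp)
  norm_map' v := by
    have h1 := hasSum_sq (⟨fun t => v (t - s), mem_shift s v⟩ : K)
    have h2 := (Equiv.subRight s).hasSum_iff.2 (hasSum_sq v)
    exact (pow_left_inj₀ (norm_nonneg _) (norm_nonneg _) two_ne_zero).1 (h1.unique h2)

theorem sh_apply (s : ℤ) (v : K) (t : ℤ) : sh s v t = v (t - s) := rfl

theorem geo {r : ℝ} (h0 : 0 ≤ r) (h1 : r < 1) (n : ℤ) :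
    HasSum (fun d : ℤ => r ^ (n - d).natAbs) ((1 + r) / (1 - r)) := by
  have a := hasSum_geometric_of_lt_one h0 h1
  have b : HasSum (fun k : ℕ => r ^ (-((k : ℤ) + 1)).natAbs) (r * (1 - r)⁻¹) := by
    have e : (fun k : ℕ => r ^ (-((k : ℤ) + 1)).natAbs) = fun k => r * r ^ k := by
      funext k
      rw [show (-((k : ℤ) + 1)).natAbs = k + 1 by omega, pow_succ']
    rw [e]; exact a.mul_left r
  have := HasSum.of_nat_of_neg_add_one (f := fun d : ℤ => r ^ d.natAbs) (by simpa using a) b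
  rw [show (1 + r) / (1 - r) = (1 - r)⁻¹ + r * (1 - r)⁻¹ by ring]
  exact (Equiv.subLeft n).hasSum_iff.2 this

theorem schur (F : Finset ℤ) (a : ℤ → ℝ) :
    ∑ n ∈ F, ∑ m ∈ F, (1 / 4 : ℝ) ^ (n - m).natAbs * (a n * a m) ≤ 5 / 3 * ∑ n ∈ F, a n ^ 2 := by
  have h1 : ∀ n, ∑ m ∈ F, (1 / 4 : ℝ) ^ (n - m).natAbs ≤ 5 / 3 := fun n =>
    (sum_le_hasSum F (fun _ _ => by positivity) (geo (by norm_num) (by norm_num) n)).trans
      (by norm_num)
  have h2 : ∑ n ∈ F, ∑ m ∈ F, (1 / 4 : ℝ) ^ (n - m).natAbs * a n ^ 2 ≤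
      5 / 3 * ∑ n ∈ F, a n ^ 2 := by
    rw [mul_sum]
    refine sum_le_sum fun n _ => ?_
    rw [← sum_mul]
    exact mul_le_mul_of_nonneg_right (h1 n) (by positivity)
  have h3 : ∑ n ∈ F, ∑ m ∈ F, (1 / 4 : ℝ) ^ (n - m).natAbs * a m ^ 2 =
      ∑ n ∈ F, ∑ m ∈ F, (1 / 4 : ℝ) ^ (n - m).natAbs * a n ^ 2 := by
    rw [sum_comm]
    refine sum_congr rfl fun n _ => sum_congr rfl fun m _ => ?_
    rw [show (m - n).natAbs = (n - m).natAbs by omega]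
  have h4 : 2 * ∑ n ∈ F, ∑ m ∈ F, (1 / 4 : ℝ) ^ (n - m).natAbs * (a n * a m) ≤
      ∑ n ∈ F, ∑ m ∈ F, (1 / 4 : ℝ) ^ (n - m).natAbs * a n ^ 2 +
      ∑ n ∈ F, ∑ m ∈ F, (1 / 4 : ℝ) ^ (n - m).natAbs * a m ^ 2 := by
    simp only [mul_sum, ← sum_add_distrib]
    refine sum_le_sum fun n _ => sum_le_sum fun m _ => ?_
    have : (0 : ℝ) ≤ (1 / 4 : ℝ) ^ (n - m).natAbs := by positivity
    nlinarith [mul_nonneg this (sq_nonneg (a n - a m))]
  linarith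

section gram
variable {T : K ≃ₗᵢ[ℂ] K} {A : H →L[ℂ] K} {C : ℝ}

def Dec (T : K ≃ₗᵢ[ℂ] K) (A : H →L[ℂ] K) (C : ℝ) : Prop :=
  ∀ (n : ℕ) u u', ‖⟪A u', (T ^ n) (A u)⟫_ℂ‖ ≤ C * ((1 / 4) ^ n * (‖u'‖ * ‖u‖))

theorem gram (hA : Dec T A C) (n m : ℤ) (u u' : H) :
    ‖⟪(T ^ n) (A u), (T ^ m) (A u')⟫_ℂ‖ ≤ C * ((1 / 4) ^ (n - m).natAbs * (‖u‖ * ‖u'‖)) := by
  have key : ∀ (n : ℤ) (k : ℕ) (u u' : H), ‖⟪(T ^ n) (A u), (T ^ (n + k)) (A u')⟫_ℂ‖ ≤
      C * ((1 / 4) ^ k * (‖u‖ * ‖u'‖)) := by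
    intro n k u u'
    rw [zpow_add, zpow_natCast]
    change ‖⟪(T ^ n) (A u), (T ^ n) ((T ^ k) (A u'))⟫_ℂ‖ ≤ _
    rw [LinearIsometryEquiv.inner_map_map]
    exact hA k u' u
  rcases le_total n m with h | h
  · obtain ⟨k, rfl⟩ := Int.le.dest h
    rw [show (n - (n + k)).natAbs = k by omega]
    exact key n k u u'
  · obtain ⟨k, rfl⟩ := Int.le.dest h
    rw [show (m + k - m).natAbs = k by omega, norm_inner_symm, mul_comm ‖u‖]
    exact key m k u' u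

theorem norm_sum_sq (F : Finset ℤ) (x : ℤ → K) :
    ‖∑ n ∈ F, x n‖ ^ 2 = ∑ n ∈ F, ∑ m ∈ F, (⟪x n, x m⟫_ℂ).re := by
  rw [@norm_sq_eq_re_inner ℂ, sum_inner]
  simp [inner_sum]

theorem upper (hC : 0 ≤ C) (hA : Dec T A C) (F : Finset ℤ) (u : ℤ → H) :
    ‖∑ n ∈ F, (T ^ n) (A (u n))‖ ^ 2 ≤ C * (5 / 3 * ∑ n ∈ F, ‖u n‖ ^ 2) := by
  rw [norm_sum_sq]
  refine le_trans ?_ (mul_le_mul_of_nonneg_left (schur F fun n => ‖u n‖) hC)
  simp only [mul_sum]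
  exact sum_le_sum fun n _ => sum_le_sum fun m _ =>
    (Complex.re_le_norm _).trans (gram hA n m _ _)

theorem lower (hA : Dec T A 1) (hn : ∀ u, ‖A u‖ = ‖u‖) (F : Finset ℤ) (u : ℤ → H) :
    1 / 3 * ∑ n ∈ F, ‖u n‖ ^ 2 ≤ ‖∑ n ∈ F, (T ^ n) (A (u n))‖ ^ 2 := by
  rw [norm_sum_sq]
  have h1 := schur F fun n => ‖u n‖
  have h2 : ∑ n ∈ F, ∑ m ∈ F, ((if n = m then 2 * ‖u n‖ ^ 2 else 0) -
      (1 / 4 : ℝ) ^ (n - m).natAbs * (‖u n‖ * ‖u m‖)) ≤
      ∑ n ∈ F, ∑ m ∈ F, (⟪(T ^ n) (A (u n)), (T ^ m) (A (u m))⟫_ℂ).re := by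
    refine sum_le_sum fun n _ => sum_le_sum fun m _ => ?_
    split_ifs with h
    · subst h
      have : (⟪(T ^ n) (A (u n)), (T ^ n) (A (u n))⟫_ℂ).re = ‖u n‖ ^ 2 := by
        rw [← hn, ← (T ^ n).norm_map, @norm_sq_eq_re_inner ℂ]; rfl
      rw [this]; simp; nlinarith
    · have := gram hA n m (u n) (u m)
      have h3 := Complex.abs_re_le_norm ⟪(T ^ n) (A (u n)), (T ^ m) (A (u m))⟫_ℂ
      have := (abs_le.1 h3).1
      linarith
  simp only [sum_sub_distrib, sum_ite_eq] at h2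
  rw [sum_congr rfl fun n hn => if_pos hn, ← mul_sum] at h2
  linarith

theorem exists_J (hC : 0 ≤ C) (hA : Dec T A C) : ∃ J : K →L[ℂ] K,
    (∀ ξ n u, ⟪u, J ξ n⟫_ℂ = ⟪(T ^ n) (A u), ξ⟫_ℂ) ∧ ∀ ξ, J (T ξ) = sh 1 (J ξ) := by
  let j : K → ℤ → H := fun ξ n => ContinuousLinearMap.adjoint A ((T ^ n).symm ξ)
  have hj : ∀ ξ n u, ⟪u, j ξ n⟫_ℂ = ⟪(T ^ n) (A u), ξ⟫_ℂ := fun ξ n u => by
    rw [ContinuousLinearMap.adjoint_inner_right, ← (T ^ n).inner_map_map,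
      LinearIsometryEquiv.apply_symm_apply]
  have hb : ∀ ξ (F : Finset ℤ), ∑ n ∈ F, ‖j ξ n‖ ^ 2 ≤ (√(C * (5 / 3)) * ‖ξ‖) ^ 2 := by
    intro ξ F
    have h1 : ∑ n ∈ F, ‖j ξ n‖ ^ 2 ≤ ‖∑ n ∈ F, (T ^ n) (A (j ξ n))‖ * ‖ξ‖ := by
      refine le_trans (le_of_eq ?_) ((Complex.re_le_norm _).trans (norm_inner_le_norm (𝕜 := ℂ) _ _))
      rw [sum_inner, Complex.re_sum]
      refine sum_congr rfl fun n _ => ?_
      rw [← hj, @norm_sq_eq_re_inner ℂ]; rfl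
    have h2 := upper hC hA F (j ξ)
    have h0 : 0 ≤ ∑ n ∈ F, ‖j ξ n‖ ^ 2 := sum_nonneg fun _ _ => by positivity
    rw [mul_pow, Real.sq_sqrt (by positivity)]
    generalize ∑ n ∈ F, ‖j ξ n‖ ^ 2 = σ at *
    rcases h0.eq_or_lt with rfl | h0
    · positivity
    · refine le_of_mul_le_mul_left ?_ h0
      calc σ * σ ≤ (‖∑ n ∈ F, (T ^ n) (A (j ξ n))‖ * ‖ξ‖) ^ 2 := by
            rw [← sq]; exact pow_le_pow_left₀ h0.le h1 2
        _ ≤ _ := by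
            rw [mul_pow]
            nlinarith [mul_le_mul_of_nonneg_right h2 (sq_nonneg ‖ξ‖)]
  let J₀ : K →ₗ[ℂ] K :=
    { toFun := fun ξ => ⟨j ξ, mem_of_le (hb ξ)⟩
      map_add' := fun a b => lp.ext (funext fun n => by simp [j])
      map_smul' := fun c b => lp.ext (funext fun n => by simp [j]) }
  refine ⟨J₀.mkContinuous (√(C * (5 / 3))) fun ξ => norm_le_of (by positivity) (hb ξ), hj,
    fun ξ => lp.ext (funext fun n => ?_)⟩
  refine ext_inner_left ℂ fun u => ?_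
  change ⟪u, j (T ξ) n⟫_ℂ = ⟪u, j ξ (n - 1)⟫_ℂ
  rw [hj, hj, ← T.inner_map_map _ ξ]
  congr 1
  rw [show n = 1 + (n - 1) by ring, zpow_add, zpow_one]
  simp

end gram

theorem decay {y : K ≃ₗᵢ[ℂ] K}
    (hy : ∀ t t' (v : H), ‖y (lp.single 2 t v) t'‖ ≤ 4 * (1 / 4) ^ (t' - t).natAbs * ‖v‖)
    (ξ : K) {c : ℝ} (hc : 0 ≤ c) (h : ∀ t, ‖ξ t‖ ≤ c * 2 ^ t) (n : ℕ) :
    ∀ t, ‖((y * sh 6) ^ n) ξ t‖ ≤ c * (1 / 4) ^ n * 2 ^ t := by
  induction n with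
  | zero => simpa using h
  | succ n ih =>
    intro t'
    rw [pow_succ']
    change ‖y (sh 6 (((y * sh 6) ^ n) ξ)) t'‖ ≤ _
    generalize ((y * sh 6) ^ n) ξ = ζ at ih
    have h1 := (lp.hasSum_single (by norm_num) (sh 6 ζ)).mapL
      ((lp.evalCLM ℂ (fun _ : ℤ => H) 2 t').comp (y : K →L[ℂ] K))
    have h2 := (geo (r := 1 / 2) (by norm_num) (by norm_num) t').mul_left
      (c * (1 / 4) ^ n * 2 ^ t' / 16)
    refine (h1.norm_le_of_bounded h2 fun t => ?_).trans (le_of_eq_of_le rfl ?_)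
    · refine (hy t t' _).trans ?_
      refine (mul_le_mul_of_nonneg_left (ih (t - 6)) (by positivity)).trans ?_
      have e : (2 : ℝ) ^ (t - 6) = 2 ^ t' * 2 ^ (t - t') / 64 := by
        rw [← zpow_add₀ two_ne_zero, zpow_sub₀ two_ne_zero]; norm_num
      have e2 : (2 : ℝ) ^ (t - t') ≤ 2 ^ (t' - t).natAbs := by
        rw [← zpow_natCast]; exact zpow_le_zpow_right₀ (by norm_num) (by omega)
      have e3 : (1 / 4 : ℝ) ^ (t' - t).natAbs * 2 ^ (t' - t).natAbs = (1 / 2) ^ (t' - t).natAbs := by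
        rw [← mul_pow]; norm_num
      rw [e, ← e3]
      have p1 : (0 : ℝ) ≤ c * (1 / 4) ^ n * 2 ^ t' * (1 / 4) ^ (t' - t).natAbs := by positivity
      nlinarith [mul_le_mul_of_nonneg_left e2 p1]
    · have p1 : (0 : ℝ) ≤ c * (1 / 4) ^ n * 2 ^ t' := by positivity
      rw [pow_succ]
      nlinarith

theorem equiv_shift (Φ : K ≃ₗᵢ[ℂ] H) {y : K ≃ₗᵢ[ℂ] K}
    (hy : ∀ t t' (v : H), ‖y (lp.single 2 t v) t'‖ ≤ 4 * (1 / 4) ^ (t' - t).natAbs * ‖v‖) :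
    ∃ W : K ≃ₗᵢ[ℂ] K, ∀ v, W ((y * sh 6) v) = sh 1 (W v) := by
  let w : ℤ → ℂ := fun t => ((1 / 4 : ℝ) ^ t.natAbs : ℝ)
  have hw : ∀ t, ‖w t‖ = (1 / 4) ^ t.natAbs := fun t => by simp [w]
  have hw1 : ∀ t, ‖w t‖ ≤ 1 := fun t => by
    rw [hw]; exact pow_le_one₀ (by norm_num) (by norm_num)
  have hle : ∀ (ξ : K) t, ‖w t • ξ t‖ ≤ ‖ξ t‖ := fun ξ t => by
    rw [norm_smul]; exact mul_le_of_le_one_left (norm_nonneg _) (hw1 t)
  let D₀ : K →ₗ[ℂ] K :=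
    { toFun := fun ξ => ⟨fun t => w t • ξ t, (lp.memℓp ξ).mono' (hle ξ)⟩
      map_add' := fun a b => lp.ext (funext fun n => by simp)
      map_smul' := fun c b => lp.ext (funext fun n => by simp [smul_comm c]) }
  let D : K →L[ℂ] K := D₀.mkContinuous 1 fun ξ => by
    rw [one_mul]; exact lp.norm_mono (by norm_num) (hle ξ)
  have hD : ∀ ξ t, D ξ t = w t • ξ t := fun _ _ => rfl
  have two : ∀ t : ℤ, (1 / 2 : ℝ) ^ t.natAbs ≤ 2 ^ t ∧ (1 / 2 : ℝ) ^ t.natAbs * 2 ^ t ≤ 1 := by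
    intro t
    rw [one_div, inv_pow, ← zpow_natCast, ← zpow_neg, ← zpow_add₀ two_ne_zero]
    exact ⟨zpow_le_zpow_right₀ (by norm_num) (by omega),
      zpow_le_one_of_nonpos₀ (by norm_num) (by omega)⟩
  have q4 : ∀ k : ℕ, (1 / 4 : ℝ) ^ k = (1 / 2) ^ k * (1 / 2) ^ k := fun k => by
    rw [← mul_pow]; norm_num
  have d1 : Dec (y * sh 6) (D.comp (Φ.symm : H →L[ℂ] K)) 3 := by
    intro n u u'
    have h1 := decay hy (D (Φ.symm u)) (norm_nonneg u) (fun t => by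
      rw [hD, norm_smul, hw, mul_comm, ← Φ.symm.norm_map u]
      refine mul_le_mul (lp.norm_apply_le_norm (by norm_num) _ _) ?_ (by positivity) (norm_nonneg _)
      exact (pow_le_pow_left₀ (by norm_num) (by norm_num) _).trans (two t).1) n
    have h2 := (geo (r := 1 / 2) (by norm_num) (by norm_num) 0).mul_left
      ((1 / 4) ^ n * (‖u'‖ * ‖u‖))
    refine ((lp.hasSum_inner (𝕜 := ℂ) (D (Φ.symm u')) (((y * sh 6) ^ n)
      (D (Φ.symm u)))).norm_le_of_bounded h2 fun t => ?_).trans (le_of_eq (by ring))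
    refine (norm_inner_le_norm _ _).trans ?_
    have h3 : ‖D (Φ.symm u') t‖ ≤ (1 / 4) ^ t.natAbs * ‖u'‖ := by
      rw [hD, norm_smul, hw, ← Φ.symm.norm_map u']
      exact mul_le_mul_of_nonneg_left (lp.norm_apply_le_norm (by norm_num) _ _) (by positivity)
    refine (mul_le_mul h3 (h1 t) (norm_nonneg _) (by positivity)).trans ?_
    rw [show (0 - t).natAbs = t.natAbs by omega, q4 t.natAbs]
    have p1 : (0 : ℝ) ≤ (1 / 4) ^ n * (‖u'‖ * ‖u‖) * (1 / 2) ^ t.natAbs := by positivity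
    nlinarith [mul_le_mul_of_nonneg_left (two t).2 p1]
  let A₂ : H →L[ℂ] K := lp.singleContinuousLinearMap ℂ (fun _ : ℤ => H) 2 0
  have n2 : ∀ u, ‖A₂ u‖ = ‖u‖ := fun u => lp.norm_single (by norm_num) _ _
  have d2 : Dec (y * sh 6) A₂ 1 := by
    intro n u u'
    have h1 := decay hy (A₂ u) (norm_nonneg u) (fun t => by
      change ‖lp.single (E := fun _ : ℤ => H) 2 0 u t‖ ≤ _
      by_cases h : t = 0
      · subst h; simp
      · rw [lp.single_apply_ne _ _ _ h, norm_zero]; positivity) n 0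
    change ‖⟪lp.single (E := fun _ : ℤ => H) 2 0 u', _⟫_ℂ‖ ≤ _
    rw [lp.inner_single_left]
    refine (norm_inner_le_norm _ _).trans ?_
    refine (mul_le_mul_of_nonneg_left h1 (norm_nonneg _)).trans (le_of_eq ?_)
    simp; ring
  obtain ⟨J₁, a1, b1⟩ := exists_J (by norm_num) d1
  obtain ⟨J₂, a2, b2⟩ := exists_J (by norm_num) d2
  obtain ⟨U, hU⟩ := polar (y * sh 6) (sh 1) J₁ (fun ξ h => lp.ext (funext fun t => by
    have := a1 ξ 0 (Φ (lp.single 2 t (ξ t)))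
    have e : D (lp.single 2 t (ξ t)) = lp.single 2 t (w t • ξ t) := lp.ext (funext fun s => by
      rw [hD]
      by_cases hs : s = t
      · subst hs; simp
      · rw [lp.single_apply_ne _ _ _ hs, lp.single_apply_ne _ _ _ hs, smul_zero])
    rw [h] at this
    simp only [lp.coeFn_zero, Pi.zero_apply, inner_zero_right, zpow_zero, ContinuousLinearMap.comp_apply,
      LinearIsometryEquiv.coe_coe'', LinearIsometryEquiv.symm_apply_apply, e,
      LinearIsometryEquiv.coe_one, id, lp.inner_single_left, inner_smul_left] at this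
    have hw0 : w t ≠ 0 := by rw [← norm_ne_zero_iff, hw]; positivity
    simpa [hw0] using this.symm)) b1
  have hs : ∀ n u, ContinuousLinearMap.adjoint J₂ (lp.single 2 n u) = ((y * sh 6) ^ n) (A₂ u) := by
    intro n u
    refine ext_inner_right ℂ fun ξ => ?_
    rw [ContinuousLinearMap.adjoint_inner_left, lp.inner_single_left, a2]
  obtain ⟨V, hV⟩ := polar (sh 1) (y * sh 6) (ContinuousLinearMap.adjoint J₂) (fun v h => by
    have h1 := (lp.hasSum_single (by norm_num) v).mapL (ContinuousLinearMap.adjoint J₂)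
    simp only [hs, h] at h1
    refine lp.ext (funext fun n => ?_)
    have h2 : 1 / 3 * ‖v n‖ ^ 2 ≤ ‖(0 : K)‖ ^ 2 := by
      refine ge_of_tendsto ((h1.norm).pow 2) ?_
      filter_upwards [Filter.eventually_ge_atTop {n}] with F hF
      refine le_trans ?_ (lower d2 n2 F v)
      exact mul_le_mul_of_nonneg_left (single_le_sum (f := fun n => ‖v n‖ ^ 2)
        (fun _ _ => by positivity) (singleton_subset_iff.1 hF)) (by norm_num)
    have h3 : ‖v n‖ ^ 2 = 0 := le_antisymm (by simp at h2; nlinarith) (by positivity)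
    simpa using h3) fun v => by
      refine ext_inner_right ℂ fun ξ => ?_
      obtain ⟨ξ, rfl⟩ := (y * sh 6).surjective ξ
      rw [ContinuousLinearMap.adjoint_inner_left, b2, LinearIsometryEquiv.inner_map_map,
        LinearIsometryEquiv.inner_map_map, ContinuousLinearMap.adjoint_inner_left]
  exact sb _ _ U V hU hV

end Pool.Agent.H22.UShift
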