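import Mathlib

/-! Fourier uniqueness, Plancherel on `L¹ ∩ L²`, positivity from test functions. -/

namespace Pool.Agent.H22.Voi

open MeasureTheory Set Filter Topology Complex
open scoped Real FourierTransform SchwartzMap ComplexConjugate ContDiff RealInnerProductSpace

variable {V : Type} [NormedAddCommGroup V] [InnerProductSpace ℝ V] [FiniteDimensional ℝ V]
  [MeasurableSpace V] [BorelSpace V]

noncomputable def ker (v p : V) : ℂ := cexp (((-2 * π * ⟪p, v⟫ : ℝ) : ℂ) * I)

omit [FiniteDimensional ℝ V] [MeasurableSpace V] [BorelSpace V] in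
lemma ker_add (v w p : V) : ker (v + w) p = ker v p * ker w p := by
  simp only [ker, ← Complex.exp_add, inner_add_right]; congr 1; push_cast; ring

omit [FiniteDimensional ℝ V] [MeasurableSpace V] [BorelSpace V] in
lemma conj_ker (v p : V) : conj (ker (-v) p) = ker v p := by
  simp only [ker, ← exp_conj, map_mul, conj_ofReal, conj_I, inner_neg_right]
  congr 1; push_cast; ring

lemma ft_eq (f : V → ℂ) (v : V) : 𝓕 f v = ∫ p, ker v p * f p := Real.fourier_eq' f v

lemma ker_int {f : V → ℂ} (hf : Integrable f) (v : V) : Integrable fun p => ker v p * f p :=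
  hf.bdd_mul (c := 1) (Continuous.aestronglyMeasurable (by unfold ker; fun_prop))
    (Eventually.of_forall fun p => (norm_exp_ofReal_mul_I _).le)

lemma flip {f k : V → ℂ} (hf : Integrable f) (hk : Integrable k) :
    ∫ v, 𝓕 f v * k v = ∫ p, f p * 𝓕 k p := by
  simpa using! VectorFourier.integral_bilin_fourierIntegral_eq_flip (ContinuousLinearMap.mul ℂ ℂ)
    (L := innerₗ V) (μ := volume) (ν := volume) Real.continuous_fourierChar continuous_inner hf hk

lemma test {ψ : V → ℝ} (h1 : ContDiff ℝ ∞ ψ) (h2 : HasCompactSupport ψ) :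
    ∃ k : 𝓢(V, ℂ), ∀ p, 𝓕 (k : V → ℂ) p = ψ p := by
  have hc : HasCompactSupport (fun u => (ψ u : ℂ)) :=
    h2.comp_left (g := fun x : ℝ => (x : ℂ)) (by simp)
  have hψ : ContDiff ℝ ∞ (fun u => (ψ u : ℂ)) := Complex.ofRealCLM.contDiff.comp h1
  refine ⟨𝓕⁻ (hc.toSchwartzMap hψ), fun p => ?_⟩
  rw [← SchwartzMap.fourier_coe, FourierTransform.fourier_fourierInv_eq]
  rfl

lemma uniq {f g : V → ℂ} (hf : Integrable f) (hg : Integrable g) (h : ∀ v, 𝓕 f v = 𝓕 g v) :
    f =ᵐ[volume] g := by
  refine ae_eq_of_integral_contDiff_smul_eq hf.locallyIntegrable hg.locallyIntegrable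
    fun ψ h1 h2 => ?_
  obtain ⟨k, hk⟩ := test h1 h2
  have a1 := flip hf k.integrable
  have a2 := flip hg k.integrable
  simp only [hk, h] at a1 a2
  simpa only [real_smul, mul_comm] using a1.symm.trans a2

lemma ft_cont {f : V → ℂ} (hf : Integrable f) : Continuous (𝓕 f) :=
  VectorFourier.fourierIntegral_continuous Real.continuous_fourierChar continuous_inner hf

lemma planch {f : V → ℂ} (hf : Integrable f) (h2 : MemLp f 2) :
    eLpNorm (𝓕 f) 2 volume = eLpNorm f 2 volume := by
  have h : 𝓕 f =ᵐ[volume] (𝓕 h2.toLp : Lp ℂ 2 (volume : Measure V)) := by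
    refine ae_eq_of_integral_contDiff_smul_eq (ft_cont hf).locallyIntegrable
      ((Lp.memLp _).locallyIntegrable one_le_two) fun ψ h1 h3 => ?_
    have hc : HasCompactSupport (fun u => (ψ u : ℂ)) :=
      h3.comp_left (g := fun x : ℝ => (x : ℂ)) (by simp)
    have hψ : ContDiff ℝ ∞ (fun u => (ψ u : ℂ)) := Complex.ofRealCLM.contDiff.comp h1
    set k := hc.toSchwartzMap hψ
    have hk : ∀ p, k p = ψ p := fun p => rfl
    have a1 := flip hf k.integrable
    have a2 := congrArg (fun T => T k) (Lp.fourier_toTemperedDistribution_eq h2.toLp)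
    simp only [TemperedDistribution.fourier_apply, Lp.toTemperedDistribution_apply, hk,
      smul_eq_mul, SchwartzMap.fourier_coe] at a2
    simp only [real_smul]
    rw [← a2]
    simp only [hk] at a1
    simp only [mul_comm (ψ _ : ℂ), a1]
    refine integral_congr_ae ?_
    filter_upwards [h2.coeFn_toLp] with p hp
    rw [hp, mul_comm]
  rw [eLpNorm_congr_ae h, ← Lp.enorm_def, ← ofReal_norm, Lp.norm_fourier_eq, ofReal_norm,
    Lp.enorm_toLp]

lemma pos_of_test {f : V → ℝ} (hf : Integrable f)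
    (h : ∀ ψ : V → ℝ, ContDiff ℝ ∞ ψ → HasCompactSupport ψ → 0 ≤ ∫ p, ψ p ^ 2 * f p) :
    0 ≤ᵐ[volume] f := by
  refine ae_nonneg_of_forall_setIntegral_nonneg hf fun s hs _ => ?_
  refine le_of_forall_pos_le_add fun ε hε => ?_
  set μ : Measure V := volume.withDensity fun p => ‖f p‖ₑ with hμ
  have : IsFiniteMeasure μ := isFiniteMeasure_withDensity hf.2.ne
  have hm : MemLp (s.indicator fun _ => (1 : ℝ)) 1 μ := (memLp_const 1).indicator hs
  obtain ⟨ψ, h1, h2, h3⟩ := hm.exist_eLpNorm_sub_le (by simp) le_rfl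
    (show 0 < ε / π by positivity)
  have h4 := h (fun p => Real.sin (π / 2 * ψ p)) (by fun_prop)
    (h1.comp_left (g := fun x : ℝ => Real.sin (π / 2 * x)) (by simp))
  have dm : Measurable (s.indicator (fun _ => (1 : ℝ)) - ψ) :=
    (measurable_const.indicator hs).sub h2.continuous.measurable
  rw [eLpNorm_one_eq_lintegral_enorm, hμ,
    lintegral_withDensity_eq_lintegral_mul₀ hf.1.enorm dm.enorm.aemeasurable] at h3
  have i1 : Integrable fun p => Real.sin (π / 2 * ψ p) ^ 2 * f p :=
    hf.bdd_mul (c := 1) (Continuous.aestronglyMeasurable (by have := h2.continuous; fun_prop))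
      (Eventually.of_forall fun p => by
        rw [Real.norm_eq_abs, abs_of_nonneg (sq_nonneg _)]; exact Real.sin_sq_le_one _)
  have h5 : ‖∫ p, (Real.sin (π / 2 * ψ p) ^ 2 * f p - s.indicator f p)‖ₑ ≤ ENNReal.ofReal ε := by
    refine (enorm_integral_le_lintegral_enorm _).trans ?_
    have : ENNReal.ofReal ε = ENNReal.ofReal π * ENNReal.ofReal (ε / π) := by
      rw [← ENNReal.ofReal_mul Real.pi_pos.le]; congr 1; field_simp
    rw [this]
    refine le_trans ?_ (mul_le_mul_right h3 _)
    rw [← lintegral_const_mul' _ _ ENNReal.ofReal_ne_top]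
    refine lintegral_mono fun p => ?_
    simp only [Pi.mul_apply, Pi.sub_apply, ← ofReal_norm]
    rw [← ENNReal.ofReal_mul (norm_nonneg _), ← ENNReal.ofReal_mul Real.pi_pos.le]
    refine ENNReal.ofReal_le_ofReal ?_
    have e : s.indicator f p = Real.sin (π / 2 * s.indicator (fun _ => (1 : ℝ)) p) ^ 2 * f p := by
      by_cases hp : p ∈ s <;> simp [hp]
    rw [e, ← sub_mul, norm_mul, mul_comm ‖f p‖, ← mul_assoc]
    refine mul_le_mul_of_nonneg_right ?_ (norm_nonneg _)
    generalize s.indicator (fun _ => (1 : ℝ)) p = b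
    have a1 := Real.abs_sin_sub_sin_le (π / 2 * ψ p) (π / 2 * b)
    have a2 : |Real.sin (π / 2 * ψ p) + Real.sin (π / 2 * b)| ≤ 2 :=
      (abs_add_le _ _).trans
        (by linarith [Real.abs_sin_le_one (π / 2 * ψ p), Real.abs_sin_le_one (π / 2 * b)])
    rw [← mul_sub, abs_mul, abs_of_pos (by positivity : 0 < π / 2), abs_sub_comm (ψ p)] at a1
    rw [sq_sub_sq, Real.norm_eq_abs, Real.norm_eq_abs, abs_mul]
    calc _ ≤ 2 * (π / 2 * |b - ψ p|) := mul_le_mul a2 a1 (abs_nonneg _) two_pos.le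
      _ = _ := by ring
  rw [← ofReal_norm, ENNReal.ofReal_le_ofReal_iff hε.le, integral_sub i1 (hf.indicator hs),
    integral_indicator hs, Real.norm_eq_abs] at h5
  linarith [(abs_le.mp h5).2]

lemma cs_pt {a c : ℝ} {b : ℂ} (ha : 0 ≤ a)
    (h : ∀ q r : ℚ, 0 ≤ a + 2 * (((q : ℂ) + r * I) * b).re + ((q : ℝ) ^ 2 + (r : ℝ) ^ 2) * c) :
    ‖b‖ ^ 2 ≤ a * c := by
  have h1 : ∀ q r : ℝ, 0 ≤ a + 2 * (((q : ℂ) + r * I) * b).re + (q ^ 2 + r ^ 2) * c := by
    intro q r
    refine (Rat.denseRange_cast.prodMap Rat.denseRange_cast).induction_on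
      (p := fun z : ℝ × ℝ => 0 ≤ a + 2 * (((z.1 : ℂ) + z.2 * I) * b).re + (z.1 ^ 2 + z.2 ^ 2) * c)
      (q, r) (isClosed_le continuous_const (by fun_prop)) fun z => ?_
    simpa using h z.1 z.2
  have h2 : ∀ t : ℝ, 0 ≤ (‖b‖ ^ 2 * c) * (t * t) + (2 * ‖b‖ ^ 2) * t + a := by
    intro t
    have := h1 (t * b.re) (-(t * b.im))
    rw [Complex.sq_norm, normSq_apply]
    simp only [ofReal_mul, ofReal_neg, mul_re, add_re, ofReal_re, ofReal_im, mul_im, neg_re,
      neg_im, I_re, I_im, add_im] at this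
    nlinarith
  have h3 := discrim_le_zero h2
  rw [discrim] at h3
  rcases eq_or_lt_of_le (sq_nonneg ‖b‖) with h4 | h4
  · have h5 : 0 ≤ c := by
      by_contra hc
      push Not at hc
      have hb : b = 0 := by simpa using h4.symm
      have := h1 (√(a / -c + 1)) 0
      rw [Real.sq_sqrt (by have := neg_pos.mpr hc; positivity)] at this
      simp only [hb, mul_zero, zero_re] at this
      have e : a / -c * c = -a := by field_simp [hc.ne]
      nlinarith
    rw [← h4]; positivity
  · nlinarith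

end Pool.Agent.H22.Voi
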