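import Pool.Agent.H22.Voi1

/-! A dense set of smooth vectors for an absolutely continuous unitary group. -/

namespace Pool.Agent.H22.Voi

open MeasureTheory Set Filter Topology Complex
open scoped Real FourierTransform SchwartzMap ComplexConjugate ContDiff InnerProductSpace

variable {V : Type} [NormedAddCommGroup V] [InnerProductSpace ℝ V] [FiniteDimensional ℝ V]
  [MeasurableSpace V] [BorelSpace V]
  {H : Type} [NormedAddCommGroup H] [InnerProductSpace ℂ H] [CompleteSpace H]

structure Grp (U : V → H →L[ℂ] H) : Prop where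
  zero : ∀ x, U 0 x = x
  add : ∀ v w x, U (v + w) x = U v (U w x)
  adj : ∀ v x y, ⟪U v x, y⟫_ℂ = ⟪x, U (-v) y⟫_ℂ
  cont : ∀ x, Continuous fun v => U v x
  ac : ∀ x, ∃ f : V → ℂ, Integrable f ∧ ∀ v, ⟪x, U v x⟫_ℂ = 𝓕 f v

namespace Grp

variable {U : V → H →L[ℂ] H} (h : Grp U)
include h

omit [CompleteSpace H] in
lemma norm_eq (v : V) (x : H) : ‖U v x‖ = ‖x‖ := by
  have : ⟪U v x, U v x⟫_ℂ = ⟪x, x⟫_ℂ := by rw [h.adj, ← h.add, neg_add_cancel, h.zero]
  rw [@norm_eq_sqrt_re_inner ℂ, this, ← @norm_eq_sqrt_re_inner ℂ]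

omit [CompleteSpace H] in
lemma ex_g (φ x : H) : ∃ g : V → ℂ, Integrable g ∧ ∀ v, ⟪φ, U v x⟫_ℂ = 𝓕 g v := by
  obtain ⟨a, ia, ha⟩ := h.ac (φ + x)
  obtain ⟨b, ib, hb⟩ := h.ac (φ - x)
  obtain ⟨c, ic, hc⟩ := h.ac (φ + I • x)
  obtain ⟨d, id, hd⟩ := h.ac (φ - I • x)
  refine ⟨fun p => 1 / 4 * (a p - b p - I * (c p - d p)),
    ((ia.sub ib).sub ((ic.sub id).const_mul I)).const_mul _, fun v => ?_⟩
  have e : 𝓕 (fun p => 1 / 4 * (a p - b p - I * (c p - d p))) v =
      1 / 4 * (𝓕 a v - 𝓕 b v - I * (𝓕 c v - 𝓕 d v)) := by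
    simp only [ft_eq]
    have j1 : Integrable fun p => ker v p * a p - ker v p * b p :=
      (ker_int ia v).sub (ker_int ib v)
    have j2 : Integrable fun p => I * (ker v p * c p - ker v p * d p) :=
      ((ker_int ic v).sub (ker_int id v)).const_mul I
    rw [← integral_sub (ker_int ia v) (ker_int ib v), ← integral_sub (ker_int ic v) (ker_int id v),
      ← integral_const_mul, ← integral_sub j1 j2, ← integral_const_mul]
    exact integral_congr_ae (Eventually.of_forall fun p => by ring)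
  rw [e, ← ha, ← hb, ← hc, ← hd]
  simp only [map_add, map_sub, map_smul, inner_add_left, inner_add_right, inner_sub_left,
    inner_sub_right, inner_smul_left, inner_smul_right, conj_I]
  linear_combination (1 / 2 * ⟪φ, U v x⟫_ℂ - 1 / 2 * ⟪x, U v φ⟫_ℂ) * I_mul_I

noncomputable def g (φ x : H) : V → ℂ := (h.ex_g φ x).choose

omit [CompleteSpace H] in
lemma g_int (φ x : H) : Integrable (h.g φ x) := (h.ex_g φ x).choose_spec.1

omit [CompleteSpace H] in
lemma g_eq (φ x : H) (v : V) : ⟪φ, U v x⟫_ℂ = ∫ p, ker v p * h.g φ x p :=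
  ((h.ex_g φ x).choose_spec.2 v).trans (ft_eq _ _)

omit [CompleteSpace H] in
lemma g_uniq {φ x : H} {G : V → ℂ} (hG : Integrable G)
    (e : ∀ v, ⟪φ, U v x⟫_ℂ = ∫ p, ker v p * G p) : h.g φ x =ᵐ[volume] G :=
  uniq (h.g_int φ x) hG fun v => by rw [ft_eq, ft_eq, ← e, h.g_eq]

omit [CompleteSpace H] in
lemma herm (φ x : H) : h.g x φ =ᵐ[volume] fun p => conj (h.g φ x p) := by
  refine h.g_uniq (conjCLE.toContinuousLinearMap.integrable_comp (h.g_int φ x)) fun v => ?_
  have e := h.adj (-v) x φ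
  rw [neg_neg] at e
  rw [← e, ← inner_conj_symm, h.g_eq, ← integral_conj]
  simp only [map_mul, conj_ker]

omit [CompleteSpace H] in
lemma g_shift (φ x : H) (w : V) : h.g φ (U w x) =ᵐ[volume] fun p => ker w p * h.g φ x p :=
  h.g_uniq (ker_int (h.g_int φ x) w) fun v => by
    simp only [← h.add, h.g_eq, ker_add, mul_assoc]

omit [CompleteSpace H] in
lemma g_add (φ x y : H) (c : ℂ) :
    h.g φ (x + c • y) =ᵐ[volume] fun p => h.g φ x p + c * h.g φ y p :=
  h.g_uniq ((h.g_int φ x).add ((h.g_int φ y).const_mul c)) fun v => by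
    rw [map_add, map_smul, inner_add_right, inner_smul_right, h.g_eq, h.g_eq,
      ← integral_const_mul, ← integral_add (ker_int (h.g_int φ x) v)
        ((ker_int (h.g_int φ y) v).const_mul c)]
    exact integral_congr_ae (Eventually.of_forall fun p => by ring)

omit [CompleteSpace H] in
lemma total (φ x : H) : ∫ p, h.g φ x p = ⟪φ, x⟫_ℂ := by
  have := h.g_eq φ x 0
  simp only [h.zero, ker, inner_zero_right, mul_zero, ofReal_zero, zero_mul, Complex.exp_zero,
    one_mul] at this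
  exact this.symm

omit [CompleteSpace H] in
lemma total_re (φ : H) : ∫ p, (h.g φ φ p).re = ‖φ‖ ^ 2 := by
  have := integral_re (h.g_int φ φ)
  simp only [RCLike.re_to_complex] at this
  rw [this, h.total, inner_self_eq_norm_sq_to_K]
  norm_cast

lemma smear {k : V → ℂ} (hk : Integrable k) (φ x : H) :
    ⟪φ, ∫ v, k v • U v x⟫_ℂ = ∫ p, h.g φ x p * 𝓕 k p := by
  have hi : Integrable fun v => k v • U v x :=
    hk.smul_bdd ‖x‖ (h.cont x).aestronglyMeasurable
      (Eventually.of_forall fun v => (h.norm_eq v x).le)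
  rw [← integral_inner hi, ← flip (h.g_int φ x) hk]
  simp only [inner_smul_right, h.g_eq, ft_eq, mul_comm]

lemma pos (x : H) : 0 ≤ᵐ[volume] fun p => (h.g x x p).re := by
  refine pos_of_test (h.g_int x x).re fun ψ h1 h2 => ?_
  obtain ⟨k, hk⟩ := test h1 h2
  obtain ⟨C, hC⟩ := h1.continuous.bounded_above_of_compact_support h2
  set y := ∫ v, k v • U v x with hy
  have i1 : Integrable fun p => h.g x x p * ψ p :=
    (h.g_int x x).mul_bdd (c := C) (Continuous.aestronglyMeasurable (by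
      have := h1.continuous; fun_prop)) (Eventually.of_forall fun p => by simpa using hC p)
  have e1 : h.g x y =ᵐ[volume] fun p => h.g x x p * ψ p := by
    refine h.g_uniq i1 fun v => ?_
    have e := h.adj (-v) x y
    rw [neg_neg] at e
    rw [← e, hy, h.smear k.integrable]
    refine integral_congr_ae ?_
    filter_upwards [h.herm x (U (-v) x), h.g_shift x x (-v), h.herm x x] with p a1 a2 a3
    rw [a1, a2, map_mul, conj_ker, ← a3, hk, mul_assoc]
  have e2 : ⟪y, y⟫_ℂ = ∫ p, (ψ p : ℂ) ^ 2 * h.g x x p := by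
    conv_lhs => rw [show ⟪y, y⟫_ℂ = ⟪y, ∫ v, k v • U v x⟫_ℂ from rfl, h.smear k.integrable]
    refine integral_congr_ae ?_
    filter_upwards [h.herm x y, e1, h.herm x x] with p a1 a2 a3
    rw [a1, a2, map_mul, ← a3, hk, conj_ofReal]; ring
  have i2 : Integrable fun p => (ψ p : ℂ) ^ 2 * h.g x x p := by
    refine (i1.mul_bdd (c := C) (g := fun p => (ψ p : ℂ)) (Continuous.aestronglyMeasurable (by
      have := h1.continuous; fun_prop)) (Eventually.of_forall fun p => by simpa using hC p)).congr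
      (Eventually.of_forall fun p => by ring)
  have e3 := integral_re i2
  rw [← e2] at e3
  simp only [RCLike.re_to_complex, ← ofReal_pow, re_ofReal_mul] at e3
  rw [e3]
  exact inner_self_nonneg (𝕜 := ℂ) (x := y)

lemma cs (x φ : H) : ∀ᵐ p, ‖h.g x φ p‖ ^ 2 ≤ (h.g x x p).re * (h.g φ φ p).re := by
  have key : ∀ c : ℂ, ∀ᵐ p,
      0 ≤ (h.g x x p).re + 2 * (c * h.g x φ p).re + normSq c * (h.g φ φ p).re := by
    intro c
    filter_upwards [h.pos (x + c • φ), h.g_add (x + c • φ) x φ c, h.herm x (x + c • φ),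
      h.herm φ (x + c • φ), h.g_add x x φ c, h.g_add φ x φ c, h.herm x φ, h.herm φ φ]
      with p a1 a2 a3 a4 a5 a6 a7 a8
    rw [a2, a3, a4, a5, a6, a7] at a1
    have a9 : (h.g φ φ p).im = 0 := conj_eq_iff_im.mp a8.symm
    simp only [Pi.zero_apply, map_add, map_mul, conj_conj, add_re, mul_re, mul_im, conj_re,
      conj_im, add_im, a9, normSq_apply] at a1 ⊢
    linarith
  filter_upwards [h.pos x, ae_all_iff.mpr fun q : ℚ => ae_all_iff.mpr fun r : ℚ =>
    key ((q : ℂ) + r * I)] with p a1 a2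
  refine cs_pt a1 fun q r => ?_
  have := a2 q r
  rwa [show ((q : ℂ) + r * I) = ((q : ℝ) : ℂ) + ((r : ℝ) : ℂ) * I by simp, normSq_add_mul_I,
    ofReal_ratCast, ofReal_ratCast] at this

lemma set_bound (x φ : H) (E : Set V) :
    ‖∫ p in E, h.g x φ p‖ ≤ (∫ p in E, (h.g x x p).re) / 2 + ‖φ‖ ^ 2 / 2 := by
  have i1 := (h.g_int x x).re
  have i2 := (h.g_int φ φ).re
  simp only [RCLike.re_to_complex] at i1 i2
  have h1 := setIntegral_le_integral (s := E) i2 (h.pos φ)
  rw [h.total_re] at h1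
  refine (norm_integral_le_of_norm_le ((i1.add i2).div_const 2).integrableOn
    (ae_restrict_of_ae ?_)).trans ?_
  · filter_upwards [h.cs x φ, h.pos x, h.pos φ] with p a1 a2 a3
    simp only [Pi.zero_apply, Pi.add_apply] at a2 a3 ⊢
    refine abs_le_of_sq_le_sq' ?_ (by positivity) |>.2
    nlinarith [sq_nonneg ((h.g x x p).re - (h.g φ φ p).re)]
  · simp only [Pi.add_apply]
    rw [integral_div, integral_add i1.integrableOn i2.integrableOn]
    linarith

lemma ex_y (x : H) (E : Set V) : ∃ y : H, ∀ φ, ⟪y, φ⟫_ℂ = ∫ p in E, h.g x φ p := by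
  have hl : ∀ φ ψ (c : ℂ), ∫ p in E, h.g x (φ + c • ψ) p =
      (∫ p in E, h.g x φ p) + c * ∫ p in E, h.g x ψ p := by
    intro φ ψ c
    rw [integral_congr_ae (ae_restrict_of_ae (h.g_add x φ ψ c)), integral_add
      (h.g_int x φ).integrableOn ((h.g_int x ψ).const_mul c).integrableOn, integral_const_mul]
  have h0 : ∫ p in E, h.g x 0 p = 0 := by
    have := hl 0 0 1
    simpa using this
  let L : H →ₗ[ℂ] ℂ :=
    { toFun := fun φ => ∫ p in E, h.g x φ p
      map_add' := fun φ ψ => by simpa using hl φ ψ 1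
      map_smul' := fun c φ => by simpa [h0] using hl 0 φ c }
  have hb := L.bound_of_sphere_bound one_pos ((∫ p in E, (h.g x x p).re) / 2 + 1 / 2)
    fun z hz => by
      have := h.set_bound x z E
      rwa [mem_sphere_zero_iff_norm.mp hz, one_pow] at this
  exact ⟨(InnerProductSpace.toDual ℂ H).symm (L.mkContinuous _ hb), fun φ => by
    rw [InnerProductSpace.toDual_symm_apply]; rfl⟩

theorem smooth (x : H) {ε : ℝ} (hε : 0 < ε) : ∃ (y : H) (C : ℝ), 0 ≤ C ∧ ‖x - y‖ ≤ ε ∧
    ∀ φ, MemLp (fun v => ⟪φ, U v y⟫_ℂ) 2 ∧ ∫ v, ‖⟪φ, U v y⟫_ℂ‖ ^ 2 ≤ C * ‖φ‖ ^ 2 := by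
  have i1 := (h.g_int x x).re
  simp only [RCLike.re_to_complex] at i1
  set f := i1.1.mk _ with hf
  have fm : Measurable f := i1.1.measurable_mk
  have fe : (fun p => (h.g x x p).re) =ᵐ[volume] f := i1.1.ae_eq_mk
  set E : ℕ → Set V := fun n => {p | (n : ℝ) < f p} with hE
  have Em : ∀ n, MeasurableSet (E n) := fun n => measurableSet_lt measurable_const fm
  have hl := tendsto_setIntegral_of_antitone Em
    (fun n m hnm p (hp : (m : ℝ) < f p) => lt_of_le_of_lt (Nat.cast_le.mpr hnm) hp)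
    ⟨0, i1.integrableOn⟩
  have he : ⋂ n, E n = ∅ := by
    refine eq_empty_of_forall_notMem fun p hp => ?_
    obtain ⟨n, hn⟩ := exists_nat_gt (f p)
    exact lt_asymm hn (mem_iInter.mp hp n)
  rw [he, setIntegral_empty] at hl
  obtain ⟨n, hn⟩ := (hl.eventually (gt_mem_nhds (show 0 < ε ^ 2 by positivity))).exists
  obtain ⟨y, hy⟩ := h.ex_y x (E n)ᶜ
  refine ⟨y, n, n.cast_nonneg, ?_, fun φ => ?_⟩
  · have a1 := h.set_bound x (x - y) (E n)
    have a2 : ∫ p in E n, h.g x (x - y) p = ⟪x - y, x - y⟫_ℂ := by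
      rw [inner_sub_left, hy, ← h.total, ← integral_add_compl (Em n) (h.g_int x (x - y))]; ring
    rw [a2, inner_self_eq_norm_sq_to_K] at a1
    simp only [coe_algebraMap, norm_pow, norm_real, norm_norm] at a1
    exact abs_le_of_sq_le_sq' (by linarith) hε.le |>.2
  · set G := (E n)ᶜ.indicator (h.g x φ) with hG
    have Gi : Integrable G := (h.g_int x φ).indicator (Em n).compl
    have i2 := (h.g_int φ φ).re
    simp only [RCLike.re_to_complex] at i2
    have Gb : ∀ᵐ p, ‖G p‖ ^ 2 ≤ n * (h.g φ φ p).re := by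
      filter_upwards [h.cs x φ, h.pos φ, fe] with p a1 a2 a3
      simp only [Pi.zero_apply] at a2
      by_cases hp : p ∈ (E n)ᶜ
      · rw [hG, indicator_of_mem hp]
        exact a1.trans (mul_le_mul_of_nonneg_right (a3 ▸ not_lt.mp hp) a2)
      · rw [hG, indicator_of_notMem hp]; simp; positivity
    have G2 : Integrable fun p => ‖G p‖ ^ 2 :=
      (i2.const_mul n).mono' (Gi.1.norm.pow 2) (by
        filter_upwards [Gb] with p hp
        rwa [Real.norm_eq_abs, abs_of_nonneg (by positivity)])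
    have Gm := (memLp_two_iff_integrable_sq_norm Gi.1).mpr G2
    have e1 : ∀ v, ‖⟪φ, U v y⟫_ℂ‖ = ‖𝓕 G (-v)‖ := by
      intro v
      rw [norm_inner_symm, h.adj, hy, ft_eq,
        integral_congr_ae (ae_restrict_of_ae (h.g_shift x φ (-v))),
        ← integral_indicator (Em n).compl]
      simp only [hG, indicator_mul_right]
    have FL : MemLp (𝓕 G) 2 volume :=
      ⟨(ft_cont Gi).aestronglyMeasurable, (planch Gi Gm).trans_lt Gm.2⟩
    have F2 := (memLp_two_iff_integrable_sq_norm FL.1).mp FL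
    refine ⟨?_, ?_⟩
    · rw [memLp_two_iff_integrable_sq_norm
        (Continuous.aestronglyMeasurable (continuous_const.inner (h.cont y)))]
      simp only [e1]
      exact F2.comp_neg
    · simp only [e1]
      rw [integral_neg_eq_self (fun v => ‖𝓕 G v‖ ^ 2), ← h.total_re, ← integral_const_mul]
      refine le_trans (le_of_eq ?_) (integral_mono_ae G2 (i2.const_mul n) Gb)
      have a1 := planch Gi Gm
      rw [FL.eLpNorm_eq_integral_rpow_norm two_ne_zero ENNReal.ofNat_ne_top,
        Gm.eLpNorm_eq_integral_rpow_norm two_ne_zero ENNReal.ofNat_ne_top,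
        ENNReal.ofReal_eq_ofReal_iff (by positivity) (by positivity)] at a1
      simp only [ENNReal.toReal_ofNat, Real.rpow_ofNat] at a1
      exact (Real.rpow_left_inj (by positivity) (by positivity) (by norm_num)).mp a1

end Grp

end Pool.Agent.H22.Voi
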