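import Pool.Agent.H22.Voi2

/-! Square integrability along orbits for the Lorentz ideal, and the square path argument. -/

namespace Pool.Agent.H22.Voi

open MeasureTheory Set Filter Topology
open scoped InnerProductSpace

variable {α : Type} [MeasurableSpace α] {μ : Measure α}
  {H : Type} [NormedAddCommGroup H] [InnerProductSpace ℂ H] [CompleteSpace H]

lemma rank_bd {u : α → H} (hu : AEStronglyMeasurable u μ) {C : ℝ} (hC : 0 ≤ C)
    (h : ∀ φ, MemLp (fun v => ⟪φ, u v⟫_ℂ) 2 μ ∧ ∫ v, ‖⟪φ, u v⟫_ℂ‖ ^ 2 ∂μ ≤ C * ‖φ‖ ^ 2)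
    (F : H →L[ℂ] H) (n : ℕ) (hF : Module.rank ℂ (LinearMap.range (F : H →ₗ[ℂ] H)) ≤ n) :
    eLpNorm (fun v => F (u v)) 2 μ ≤ ENNReal.ofReal (‖F‖ * √(n * C)) := by
  have : Module.Finite ℂ (LinearMap.range (F : H →ₗ[ℂ] H)) :=
    Module.rank_lt_aleph0_iff.mp (hF.trans_lt (Cardinal.natCast_lt_aleph0))
  have hn := Module.finrank_le_of_rank_le hF
  set b := stdOrthonormalBasis ℂ (LinearMap.range (F : H →ₗ[ℂ] H))
  have e : ∀ z, ‖F z‖ ^ 2 = ∑ i, ‖⟪F.adjoint (b i), z⟫_ℂ‖ ^ 2 := by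
    intro z
    have := b.sum_sq_norm_inner_right ⟨F z, z, rfl⟩
    simp only [ContinuousLinearMap.adjoint_inner_left]
    exact this.symm
  have hm : AEStronglyMeasurable (fun v => F (u v)) μ := F.continuous.comp_aestronglyMeasurable hu
  have i1 : ∀ φ, Integrable (fun v => ‖⟪φ, u v⟫_ℂ‖ ^ 2) μ := fun φ =>
    (memLp_two_iff_integrable_sq_norm (h φ).1.1).mp (h φ).1
  have hL : MemLp (fun v => F (u v)) 2 μ := by
    rw [memLp_two_iff_integrable_sq_norm hm]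
    simp only [e]
    exact integrable_finsetSum _ fun i _ => i1 _
  rw [hL.eLpNorm_eq_integral_rpow_norm two_ne_zero ENNReal.ofNat_ne_top]
  refine ENNReal.ofReal_le_ofReal ?_
  simp only [ENNReal.toReal_ofNat, Real.rpow_ofNat]
  rw [← one_div, ← Real.sqrt_eq_rpow, Real.sqrt_le_left (by positivity), mul_pow,
    Real.sq_sqrt (by positivity)]
  simp only [e]
  rw [integral_finsetSum _ fun i _ => i1 _]
  refine (Finset.sum_le_card_nsmul _ _ (C * ‖F‖ ^ 2) fun i _ => (h _).2.trans ?_).trans ?_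
  · refine mul_le_mul_of_nonneg_left (pow_le_pow_left₀ (norm_nonneg _) ?_ 2) hC
    refine (F.adjoint.le_opNorm _).trans ?_
    rw [LinearIsometryEquiv.norm_map, ← Submodule.coe_norm, b.norm_eq_one, mul_one]
  · rw [Finset.card_univ, Fintype.card_fin, nsmul_eq_mul]
    have : (Module.finrank ℂ (LinearMap.range (F : H →ₗ[ℂ] H)) : ℝ) ≤ n := by exact_mod_cast hn
    nlinarith [mul_nonneg hC (sq_nonneg ‖F‖)]

lemma ideal {u : α → H} (hu : AEStronglyMeasurable u μ) {C : ℝ} (hC : 0 ≤ C)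
    (h : ∀ φ, MemLp (fun v => ⟪φ, u v⟫_ℂ) 2 μ ∧ ∫ v, ‖⟪φ, u v⟫_ℂ‖ ^ 2 ∂μ ≤ C * ‖φ‖ ^ 2)
    (T : H →L[ℂ] H) (hT : Summable (fun n : ℕ => sInf {r : ℝ | ∃ F : H →L[ℂ] H,
      Module.rank ℂ (LinearMap.range (F : H →ₗ[ℂ] H)) ≤ (n : Cardinal) ∧ r = ‖T - F‖}
        / Real.sqrt ((n : ℝ) + 1))) : MemLp (fun v => T (u v)) 2 μ := by
  set S : ℕ → Set ℝ := fun n => {r : ℝ | ∃ F : H →L[ℂ] H,
      Module.rank ℂ (LinearMap.range (F : H →ₗ[ℂ] H)) ≤ (n : Cardinal) ∧ r = ‖T - F‖} with hS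
  have Sn : ∀ n, (S n).Nonempty := fun n => ⟨_, 0, by simp, rfl⟩
  have Sb : ∀ n, ∀ r ∈ S n, 0 ≤ r := by rintro n _ ⟨F, -, rfl⟩; exact norm_nonneg _
  have a0 : ∀ n, 0 ≤ sInf (S n) := fun n => le_csInf (Sn n) (Sb n)
  have am : ∀ m n, m ≤ n → sInf (S n) ≤ sInf (S m) := fun m n hmn =>
    csInf_le_csInf ⟨0, Sb n⟩ (Sn m) fun r ⟨F, h1, h2⟩ => ⟨F, h1.trans (by exact_mod_cast hmn), h2⟩
  have s1 := (summable_condensed_iff_of_nonneg (f := fun n : ℕ => sInf (S n) / √((n : ℝ) + 1))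
    (fun n => by have := a0 n; positivity) fun m n _ hmn => div_le_div₀ (a0 m) (am m n hmn)
      (by positivity) (Real.sqrt_le_sqrt (by exact_mod_cast Nat.succ_le_succ hmn))).mpr hT
  have hF : ∀ k : ℕ, ∃ r ∈ S (2 ^ k), r < sInf (S (2 ^ k)) + (1 / 4) ^ k := fun k =>
    exists_lt_of_csInf_lt (Sn _) (lt_add_of_pos_right _ (by positivity))
  choose r hr hr' using hF
  choose F hF1 hF2 using hr
  set b : ℕ → ℝ := fun k => sInf (S (2 ^ k)) + (1 / 4) ^ k with hb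
  have b0 : ∀ k, 0 ≤ b k := fun k => by have := a0 (2 ^ k); positivity
  have hFb : ∀ k, ‖T - F k‖ ≤ b k := fun k => (hF2 k ▸ hr' k).le
  have bm : ∀ k, b (k + 1) ≤ b k := fun k => add_le_add (am _ _ (Nat.pow_le_pow_right two_pos
    k.le_succ)) (pow_le_pow_of_le_one (by norm_num) (by norm_num) k.le_succ)
  have s2 : Summable fun k : ℕ => b k * √(3 * 2 ^ k) := by
    refine Summable.of_nonneg_of_le (fun k => by have := b0 k; positivity) (fun k => ?_)
      ((s1.mul_left 3).add ((summable_geometric_two).mul_left 3))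
    have h2 : (1 : ℝ) ≤ 2 ^ k := one_le_pow₀ one_le_two
    have h3 : √(3 * 2 ^ k) ≤ 3 * (2 ^ k / √(((2 ^ k : ℕ) : ℝ) + 1)) := by
      rw [← mul_div_assoc, le_div_iff₀ (by positivity), ← Real.sqrt_mul (by positivity),
        Real.sqrt_le_left (by positivity)]
      push_cast; nlinarith
    have h4 : √(3 * 2 ^ k) ≤ 3 * 2 ^ k := by
      rw [Real.sqrt_le_left (by positivity)]; nlinarith
    have h5 : (1 / 4 : ℝ) ^ k * (3 * 2 ^ k) = 3 * (1 / 2) ^ k := by
      rw [mul_left_comm, ← mul_pow]; norm_num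
    rw [hb, add_mul]
    refine add_le_add ?_ (h5 ▸ mul_le_mul_of_nonneg_left h4 (by positivity))
    refine (mul_le_mul_of_nonneg_left h3 (a0 _)).trans (le_of_eq ?_)
    ring
  have hm : ∀ G : H →L[ℂ] H, AEStronglyMeasurable (fun v => G (u v)) μ := fun G =>
    G.continuous.comp_aestronglyMeasurable hu
  have step : ∀ k, eLpNorm (fun v => F k (u v)) 2 μ ≤ ENNReal.ofReal (‖F 0‖ * √((2 ^ 0 : ℕ) * C) +
      ∑ j ∈ Finset.range k, 2 * √C * (b j * √(3 * 2 ^ j))) := by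
    intro k
    induction k with
    | zero => simpa using rank_bd hu hC h (F 0) _ (hF1 0)
    | succ k ih =>
      have h1 := rank_bd hu hC h (F (k + 1) - F k) (3 * 2 ^ k) (by
        have := LinearMap.rank_add_le (F (k + 1) : H →ₗ[ℂ] H) (-(F k : H →ₗ[ℂ] H))
        rw [← sub_eq_add_neg, LinearMap.rank, LinearMap.rank, LinearMap.rank,
          LinearMap.range_neg] at this
        refine this.trans ((add_le_add (hF1 (k + 1)) (hF1 k)).trans (le_of_eq ?_))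
        norm_cast; ring)
      have h2 : ‖F (k + 1) - F k‖ ≤ 2 * b k := by
        rw [show F (k + 1) - F k = (T - F k) - (T - F (k + 1)) by abel]
        linarith [norm_sub_le (T - F k) (T - F (k + 1)), hFb k, hFb (k + 1), bm k]
      have e : (fun v => F (k + 1) (u v)) =
          (fun v => F k (u v)) + fun v => (F (k + 1) - F k) (u v) := by ext v; simp
      rw [e, Finset.sum_range_succ, ← add_assoc, ENNReal.ofReal_add (add_nonneg (by positivity)
        (Finset.sum_nonneg fun j _ => by have := b0 j; positivity)) (by have := b0 k; positivity)]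
      refine (eLpNorm_add_le (hm _) (hm _) one_le_two).trans (add_le_add ih (h1.trans ?_))
      refine ENNReal.ofReal_le_ofReal ((mul_le_mul_of_nonneg_right h2 (by positivity)).trans
        (le_of_eq ?_))
      rw [Real.sqrt_mul (by positivity)]; push_cast; ring
  refine ⟨hm T, lt_of_le_of_lt (Lp.eLpNorm_le_of_ae_tendsto (u := atTop)
    (f := fun k v => F k (u v)) (C := ENNReal.ofReal (‖F 0‖ * √((2 ^ 0 : ℕ) * C) +
      ∑' j, 2 * √C * (b j * √(3 * 2 ^ j)))) (Eventually.of_forall fun k => (step k).trans ?_)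
    (fun k => hm _) (Eventually.of_forall fun v => ?_)) ENNReal.ofReal_lt_top⟩
  · refine ENNReal.ofReal_le_ofReal (add_le_add le_rfl ?_)
    exact (s2.mul_left _).sum_le_tsum _ fun j _ => by have := b0 j; positivity
  · have hl : Tendsto F atTop (𝓝 T) := by
      rw [tendsto_iff_norm_sub_tendsto_zero]
      refine squeeze_zero (fun _ => norm_nonneg _) (fun k => ?_) s2.tendsto_atTop_zero
      rw [norm_sub_rev]
      refine (hFb k).trans (le_mul_of_one_le_right (b0 k) (Real.one_le_sqrt.mpr ?_))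
      linarith [one_le_pow₀ (n := k) (one_le_two (α := ℝ))]
    exact ((ContinuousLinearMap.apply ℂ H (u v)).continuous.tendsto T).comp hl

omit [InnerProductSpace ℂ H] [CompleteSpace H] in
lemma side {φ : ℝ → H} {k : ℝ → ℝ} (hk : Integrable fun s => k s ^ 2) (kc : Continuous k)
    (hφ : ∀ s s', s ≤ s' → ‖φ s' - φ s‖ ≤ ∫ x in s..s', k x) {ρ δ : ℝ} (hρ : 0 < ρ) (hδ : 0 < δ)
    (hm : ρ * ∫ s, k s ^ 2 ≤ δ ^ 2) {s : ℝ} (hs : |s| ≤ ρ) : ‖φ ρ - φ s‖ ≤ 2 * δ := by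
  obtain ⟨h1, h2⟩ := abs_le.mp hs
  refine (hφ s ρ h2).trans ?_
  have i1 : IntervalIntegrable (fun x => ρ / δ * k x ^ 2) volume s ρ :=
    (hk.const_mul _).intervalIntegrable
  refine (intervalIntegral.integral_mono_on h2 (kc.intervalIntegrable _ _)
    (g := fun x => ρ / δ * k x ^ 2 + δ / (4 * ρ)) (i1.add intervalIntegrable_const)
    fun x _ => ?_).trans ?_
  · have : ρ / δ * k x ^ 2 + δ / (4 * ρ) - k x = (2 * ρ * k x - δ) ^ 2 / (4 * ρ * δ) := by
      field_simp; ring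
    have h3 : 0 ≤ (2 * ρ * k x - δ) ^ 2 / (4 * ρ * δ) := by positivity
    linarith
  · rw [intervalIntegral.integral_add i1 intervalIntegrable_const,
      intervalIntegral.integral_const_mul, intervalIntegral.integral_const, smul_eq_mul,
      intervalIntegral.integral_of_le h2]
    have h3 := setIntegral_le_integral (s := Ioc s ρ) hk (Eventually.of_forall fun _ => sq_nonneg _)
    have h4 : ρ / δ * ∫ x in Ioc s ρ, k x ^ 2 ≤ δ := by
      rw [div_mul_eq_mul_div, div_le_iff₀ hδ]; nlinarith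
    have h5 : (ρ - s) * (δ / (4 * ρ)) ≤ δ := by
      rw [← mul_div_assoc, div_le_iff₀ (by positivity)]; nlinarith
    linarith

lemma freq {m : ℝ → ℝ} (hm : Integrable m) {P : ℝ → Prop} (hP : ∀ᵐ ρ, P ρ) {c : ℝ} (hc : 0 < c) :
    ∃ᶠ ρ in atTop, P ρ ∧ ρ * m ρ ≤ c := by
  intro h
  obtain ⟨R, hR⟩ := eventually_atTop.mp (h.and (eventually_gt_atTop 0))
  refine not_integrableOn_Ioi_inv (a := R) ((hm.div_const c).integrableOn.mono'
    measurable_inv.aestronglyMeasurable ?_)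
  filter_upwards [ae_restrict_of_ae hP, ae_restrict_mem measurableSet_Ioi] with ρ h1 h2
  obtain ⟨h3, h4⟩ := hR ρ (le_of_lt h2)
  rw [Real.norm_eq_abs, abs_of_pos (inv_pos.mpr h4), le_div_iff₀ hc, inv_mul_le_iff₀ h4]
  exact (not_le.mp fun h5 => h3 ⟨h1, h5⟩).le

omit [InnerProductSpace ℂ H] [CompleteSpace H] in
theorem path {Φ : ℝ × ℝ → H} {k : ℝ × ℝ → ℝ} (hk : Integrable fun p => k p ^ 2)
    (kc : Continuous k)
    (h1 : ∀ t s s', s ≤ s' → ‖Φ (s', t) - Φ (s, t)‖ ≤ ∫ x in s..s', k (x, t))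
    (h2 : ∀ t s s', s ≤ s' → ‖Φ (t, s') - Φ (t, s)‖ ≤ ∫ x in s..s', k (t, x))
    {u w : ℝ × ℝ} (hu : u ≠ 0) (hw : w ≠ 0) {a b : H}
    (ha : Tendsto (fun r : ℝ => Φ (r • u)) atTop (𝓝 a))
    (hb : Tendsto (fun r : ℝ => Φ (r • w)) atTop (𝓝 b)) : a = b := by
  rw [Measure.volume_eq_prod] at hk
  have i1 := hk.integral_prod_left
  have i2 := hk.integral_prod_right
  have q := (Measure.measurePreserving_neg (volume : Measure ℝ)).quasiMeasurePreserving
  have key : ∀ δ > 0, ‖a - b‖ ≤ 8 * δ := by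
    intro δ hδ
    have hf := freq ((i1.add i1.comp_neg).add i2 |>.add i2.comp_neg)
      ((hk.prod_right_ae.and (q.ae hk.prod_right_ae)).and
        (hk.prod_left_ae.and (q.ae hk.prod_left_ae))) (show 0 < δ ^ 2 by positivity)
    have sc : ∀ {v : ℝ × ℝ}, v ≠ 0 → Tendsto (fun ρ : ℝ => ρ / ‖v‖) atTop atTop := fun hv =>
      tendsto_id.atTop_div_const (norm_pos_iff.mpr hv)
    refine (isClosed_Iic (a := 8 * δ)).mem_of_frequently_of_tendsto
      ((hf.and_eventually (eventually_gt_atTop 0)).mono ?_)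
      ((ha.comp (sc hu)).sub (hb.comp (sc hw))).norm
    rintro ρ ⟨⟨⟨⟨j1, j2⟩, j3, j4⟩, hm⟩, hρ⟩
    simp only [Pi.add_apply, mul_add] at hm
    have n1 : 0 ≤ ρ * ∫ y, k (ρ, y) ^ 2 := by positivity
    have n2 : 0 ≤ ρ * ∫ y, k (-ρ, y) ^ 2 := by positivity
    have n3 : 0 ≤ ρ * ∫ y, k (y, ρ) ^ 2 := by positivity
    have n4 : 0 ≤ ρ * ∫ y, k (y, -ρ) ^ 2 := by positivity
    have c1 := fun s => side j1 (by fun_prop) (h2 ρ) hρ hδ (by linarith) (s := s)
    have c2 := fun s => side j2 (by fun_prop) (h2 (-ρ)) hρ hδ (by linarith) (s := s)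
    have c3 := fun s => side j3 (by fun_prop) (h1 ρ) hρ hδ (by linarith) (s := s)
    have c4 := fun s => side j4 (by fun_prop) (h1 (-ρ)) hρ hδ (by linarith) (s := s)
    have hn : |-ρ| ≤ ρ := by rw [abs_neg, abs_of_pos hρ]
    have cor : ∀ p : ℝ × ℝ, ‖p‖ = ρ → ‖Φ (ρ, ρ) - Φ p‖ ≤ 4 * δ := by
      rintro ⟨s, t⟩ hp
      have p1 : |s| ≤ ρ := hp ▸ norm_fst_le (s, t)
      have p2 : |t| ≤ ρ := hp ▸ norm_snd_le (s, t)
      rw [Prod.norm_def, max_eq_iff] at hp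
      simp only [Real.norm_eq_abs, abs_eq hρ.le] at hp
      rcases hp with ⟨rfl | rfl, -⟩ | ⟨rfl | rfl, -⟩
      · linarith [c1 t p2]
      · linarith [c2 t p2, c3 _ hn, norm_sub_le_norm_sub_add_norm_sub (Φ (ρ, ρ)) (Φ (-ρ, ρ))
          (Φ (-ρ, t))]
      · linarith [c3 s p1]
      · linarith [c4 s p1, c1 _ hn, norm_sub_le_norm_sub_add_norm_sub (Φ (ρ, ρ)) (Φ (ρ, -ρ))
          (Φ (s, -ρ))]
    have nn : ∀ {v : ℝ × ℝ}, v ≠ 0 → ‖(ρ / ‖v‖) • v‖ = ρ := fun hv => by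
      rw [norm_smul, Real.norm_eq_abs, abs_of_pos (div_pos hρ (norm_pos_iff.mpr hv)),
        div_mul_cancel₀ _ (norm_ne_zero_iff.mpr hv)]
    have d1 := cor _ (nn hu)
    have d2 := cor _ (nn hw)
    rw [norm_sub_rev] at d1
    simp only [Function.comp_apply, mem_Iic]
    linarith [norm_sub_le_norm_sub_add_norm_sub (Φ ((ρ / ‖u‖) • u)) (Φ (ρ, ρ)) (Φ ((ρ / ‖w‖) • w))]
  rw [← sub_eq_zero, ← norm_le_zero_iff]
  exact le_of_forall_pos_le_add fun ε hε => by linarith [key (ε / 8) (by positivity)]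

end Pool.Agent.H22.Voi
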