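import Pool.Agent.H22.Voi3

/-! Exponential groups of commuting self-adjoint pairs and direction independence. -/

namespace Pool.Agent.H22.Voi

open MeasureTheory Set Filter Topology Complex NormedSpace
open scoped Real InnerProductSpace FourierTransform

variable {H : Type} [NormedAddCommGroup H] [InnerProductSpace ℂ H] [CompleteSpace H]

noncomputable def X (A B : H →L[ℂ] H) (p : ℝ × ℝ) : H →L[ℂ] H :=
  exp (((p.1 : ℂ) * I) • A + ((p.2 : ℂ) * I) • B)

variable {A B : H →L[ℂ] H}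

lemma X_add (h : Commute A B) (p q : ℝ × ℝ) : X A B (p + q) = X A B p * X A B q := by
  let +nondep : NormedAlgebra ℚ (H →L[ℂ] H) := .restrictScalars ℚ ℂ _
  rw [X, X, X, ← exp_add_of_commute]
  · congr 1
    simp only [Prod.fst_add, Prod.snd_add, ofReal_add, add_mul, add_smul]; abel
  · refine Commute.add_left (Commute.add_right ?_ ?_) (Commute.add_right ?_ ?_) <;>
      refine Commute.smul_left (Commute.smul_right ?_ _) _
    exacts [Commute.refl _, h, h.symm, Commute.refl _]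

lemma X_zero : X A B 0 = 1 := by simp [X]

lemma X_cont : Continuous (X A B) := by
  let +nondep : NormedAlgebra ℚ (H →L[ℂ] H) := .restrictScalars ℚ ℂ _
  exact exp_continuous.comp (by fun_prop)

lemma X_adj (hA : IsSelfAdjoint A) (hB : IsSelfAdjoint B) (p : ℝ × ℝ) (x y : H) :
    ⟪X A B p x, y⟫_ℂ = ⟪x, X A B (-p) y⟫_ℂ := by
  rw [← ContinuousLinearMap.adjoint_inner_right, ← ContinuousLinearMap.star_eq_adjoint, X,
    star_exp, X]
  simp [hA.star_eq, hB.star_eq]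

lemma X_norm (hA : IsSelfAdjoint A) (hB : IsSelfAdjoint B) (h : Commute A B) (p : ℝ × ℝ) (x : H) :
    ‖X A B p x‖ = ‖x‖ := by
  have : ⟪X A B p x, X A B p x⟫_ℂ = ⟪x, x⟫_ℂ := by
    rw [X_adj hA hB, ← mul_apply_eq_comp, ← X_add h, neg_add_cancel, X_zero]; rfl
  rw [@norm_eq_sqrt_re_inner ℂ, this, ← @norm_eq_sqrt_re_inner ℂ]

lemma X_swap (s t : ℝ) : X A B (s, t) = X B A (t, s) := by rw [X, X, add_comm]

lemma X_fst (s : ℝ) : X A B (s, 0) = exp (s • (I • A)) := by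
  simp only [X, ofReal_zero, zero_mul, zero_smul, add_zero, mul_smul]; rfl

lemma X_d1 (h : Commute A B) (s t : ℝ) :
    HasDerivAt (fun s => X A B (s, t)) (I • A * X A B (s, t)) s := by
  have e : ∀ s : ℝ, X A B (s, t) = exp (s • (I • A)) * X A B (0, t) := fun s => by
    rw [← X_fst (B := B), ← X_add h]; simp
  rw [funext e, e s, ← mul_assoc]
  exact (hasDerivAt_exp_smul_const' (I • A) s).mul_const _

lemma X_d2 (h : Commute A B) (s t : ℝ) :
    HasDerivAt (fun s => X A B (-(s, t))) (X A B (-(s, t)) * -(I • A)) s := by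
  have e : ∀ s : ℝ, X A B (-(s, t)) = X A B (0, -t) * exp (s • -(I • A)) := fun s => by
    rw [smul_neg, ← neg_smul, ← X_fst (B := B), ← X_add h]; simp
  simp only [e, mul_assoc]
  exact (hasDerivAt_exp_smul_const (-(I • A)) s).const_mul _

lemma line {A₁ A₂ B₁ B₂ : H →L[ℂ] H} (h1 : IsSelfAdjoint B₁) (h2 : IsSelfAdjoint B₂)
    (hA : Commute A₁ A₂) (hB : Commute B₁ B₂) (y : H) (t : ℝ) {k : ℝ → ℝ} (kc : Continuous k)
    (hk : ∀ s, ‖(A₁ - B₁) (X A₁ A₂ (s, t) y)‖ ≤ k s) (s s' : ℝ) (hs : s ≤ s') :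
    ‖(X B₁ B₂ (-(s', t)) * X A₁ A₂ (s', t)) y - (X B₁ B₂ (-(s, t)) * X A₁ A₂ (s, t)) y‖ ≤
      ∫ x in s..s', k x := by
  have hd : ∀ s, HasDerivAt (fun s => (X B₁ B₂ (-(s, t)) * X A₁ A₂ (s, t)) y)
      (X B₁ B₂ (-(s, t)) (I • (A₁ - B₁) (X A₁ A₂ (s, t) y))) s := by
    intro s
    have := (((ContinuousLinearMap.apply ℂ H y).restrictScalars ℝ).hasFDerivAt.comp_hasDerivAt s
      ((X_d2 hB s t).mul (X_d1 hA s t)))
    refine this.congr_deriv ?_
    simp [smul_sub]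
    abel
  have c1 := X_cont (A := A₁) (B := A₂)
  have c2 := X_cont (A := B₁) (B := B₂)
  rw [← intervalIntegral.integral_eq_sub_of_hasDerivAt (fun s _ => hd s)
    (Continuous.intervalIntegrable (by fun_prop) _ _)]
  refine intervalIntegral.norm_integral_le_of_norm_le hs (Eventually.of_forall fun x _ => ?_)
    (kc.intervalIntegrable _ _)
  rw [X_norm h1 h2 hB, norm_smul, norm_I, one_mul]
  exact hk x

noncomputable def phi : EuclideanSpace ℝ (Fin 2) ≃ᵐ ℝ × ℝ :=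
  (MeasurableEquiv.toLp 2 (Fin 2 → ℝ)).symm.trans MeasurableEquiv.finTwoArrow

lemma phi_mp : MeasurePreserving phi :=
  (EuclideanSpace.volume_preserving_symm_measurableEquiv_toLp (Fin 2)).trans
    (volume_preserving_finTwoArrow ℝ)

lemma phi_apply (x : EuclideanSpace ℝ (Fin 2)) : phi x = (x 0, x 1) := rfl

lemma grp (hA : IsSelfAdjoint A) (hB : IsSelfAdjoint B) (h : Commute A B)
    (hac : ∀ x : H, ∃ f : ℝ × ℝ → ℂ, Integrable f ∧ ∀ s t : ℝ, ⟪x, X A B (s, t) x⟫_ℂ =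
      ∫ p : ℝ × ℝ, f p * cexp (I * ((s : ℂ) * (p.1 : ℂ) + (t : ℂ) * (p.2 : ℂ)))) :
    Grp fun v : EuclideanSpace ℝ (Fin 2) => X A B ((-2 * π) • phi v) where
  zero x := by simp [phi_apply, ← Prod.zero_eq_mk, X_zero]
  add v w x := by
    rw [← mul_apply_eq_comp, ← X_add h, ← smul_add]; rfl
  adj v x y := by rw [X_adj hA hB, ← smul_neg]; rfl
  cont x := by
    have := X_cont (A := A) (B := B)
    simp only [phi_apply]; fun_prop
  ac x := by
    obtain ⟨f, hf, e⟩ := hac x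
    refine ⟨f ∘ phi, (phi_mp.integrable_comp_emb phi.measurableEmbedding).mpr hf, fun v => ?_⟩
    rw [phi_apply, Prod.smul_mk, e, ft_eq, ← phi_mp.integral_comp']
    refine integral_congr_ae (Eventually.of_forall fun p => ?_)
    simp only [ker, phi_apply, PiLp.inner_apply, Fin.sum_univ_two, Function.comp_apply,
      smul_eq_mul]
    rw [mul_comm]
    congr 2
    simp
    ring

theorem main {A₁ A₂ B₁ B₂ : H →L[ℂ] H} (a1 : IsSelfAdjoint A₁) (a2 : IsSelfAdjoint A₂)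
    (b1 : IsSelfAdjoint B₁) (b2 : IsSelfAdjoint B₂) (hA : Commute A₁ A₂) (hB : Commute B₁ B₂)
    (hT : ∀ T ∈ ({A₁ - B₁, A₂ - B₂} : Set (H →L[ℂ] H)),
      Summable (fun n : ℕ => sInf {r : ℝ | ∃ F : H →L[ℂ] H,
        Module.rank ℂ (LinearMap.range (F : H →ₗ[ℂ] H)) ≤ (n : Cardinal) ∧ r = ‖T - F‖}
          / Real.sqrt ((n : ℝ) + 1)))
    (hac : ∀ x : H, ∃ f : ℝ × ℝ → ℂ, Integrable f ∧ ∀ s t : ℝ, ⟪x, X A₁ A₂ (s, t) x⟫_ℂ =
      ∫ p : ℝ × ℝ, f p * cexp (I * ((s : ℂ) * (p.1 : ℂ) + (t : ℂ) * (p.2 : ℂ))))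
    {u w : ℝ × ℝ} (hu : u ≠ 0) (hw : w ≠ 0) {W₁ W₂ : H →L[ℂ] H}
    (h1 : ∀ x, Tendsto (fun r : ℝ => (X B₁ B₂ (-(r • u)) * X A₁ A₂ (r • u)) x) atTop (𝓝 (W₁ x)))
    (h2 : ∀ x, Tendsto (fun r : ℝ => (X B₁ B₂ (-(r • w)) * X A₁ A₂ (r • w)) x) atTop (𝓝 (W₂ x))) :
    W₁ = W₂ := by
  have G := grp a1 a2 hA hac
  ext x
  rw [← sub_eq_zero, ← norm_le_zero_iff]
  refine le_of_forall_pos_le_add fun ε hε => ?_
  obtain ⟨y, C, hC, hy, hb⟩ := G.smooth x (show 0 < ε / (‖W₁ - W₂‖ + 1) by positivity)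
  have m : ∀ T ∈ ({A₁ - B₁, A₂ - B₂} : Set (H →L[ℂ] H)),
      MemLp (fun p : ℝ × ℝ => ‖T (X A₁ A₂ ((-2 * π) • p) y)‖) 2 := fun T h => by
    have := ((ideal (G.cont y).aestronglyMeasurable hC hb T (hT T h)).comp_measurePreserving
      phi_mp.symm).norm
    simpa only [Function.comp_apply, MeasurableEquiv.apply_symm_apply] using this
  have m2 := (m _ (Or.inl rfl)).add (m _ (Or.inr rfl))
  have m3 := ((memLp_two_iff_integrable_sq m2.1).mp m2).comp_smul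
    (show (-2 * π)⁻¹ ≠ 0 from inv_ne_zero (by simp))
  simp only [Pi.add_apply, smul_inv_smul₀ (show -2 * π ≠ 0 by simp)] at m3
  have c1 := X_cont (A := A₁) (B := A₂)
  have e := path (Φ := fun p => (X B₁ B₂ (-p) * X A₁ A₂ p) y) m3 (by fun_prop)
    (fun t => line b1 b2 hA hB y t (by fun_prop) fun s => le_add_of_nonneg_right (norm_nonneg _))
    (fun t s s' hs => by
      have := line (k := fun x => ‖(A₁ - B₁) (X A₁ A₂ (t, x) y)‖ + ‖(A₂ - B₂) (X A₁ A₂ (t, x) y)‖)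
        b2 b1 hA.symm hB.symm y t (by fun_prop)
        (fun s => by rw [X_swap]; exact le_add_of_nonneg_left (norm_nonneg _)) s s' hs
      simp only [Prod.neg_mk] at this ⊢
      rwa [X_swap (A := B₂), X_swap (A := A₂), X_swap (A := B₂), X_swap (A := A₂)] at this)
    hu hw (h1 y) (h2 y)
  have e2 : W₁ x - W₂ x = (W₁ - W₂) (x - y) := by simp [e]
  rw [e2, zero_add]
  refine ((W₁ - W₂).le_opNorm _).trans ((mul_le_mul_of_nonneg_left hy (norm_nonneg _)).trans ?_)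
  rw [← mul_div_assoc, div_le_iff₀ (by positivity)]
  nlinarith

end Pool.Agent.H22.Voi
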