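import Pool.Agent.H22.Voi4

/-! Cone averages of bilinear expressions for the Lorentz ideal. -/

namespace Pool.Agent.H22.Voi

open MeasureTheory Set Filter Topology
open scoped InnerProductSpace ENNReal

variable {H : Type} [NormedAddCommGroup H] [InnerProductSpace ℂ H] [CompleteSpace H]

def Ideal (T : H →L[ℂ] H) : Prop :=
  Summable (fun n : ℕ => sInf {r : ℝ | ∃ F : H →L[ℂ] H,
    Module.rank ℂ (LinearMap.range (F : H →ₗ[ℂ] H)) ≤ (n : Cardinal) ∧ r = ‖T - F‖}
      / Real.sqrt ((n : ℝ) + 1))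

def Rk (F : H →L[ℂ] H) (n : ℕ) : Prop := Module.rank ℂ (LinearMap.range (F : H →ₗ[ℂ] H)) ≤ n

omit [CompleteSpace H] in
lemma decomp {T : H →L[ℂ] H} (hT : Ideal T) : ∃ (F : ℕ → H →L[ℂ] H) (b : ℕ → ℝ),
    (∀ k, Rk (F k) (2 ^ k)) ∧ (∀ k, Rk (F (k + 1) - F k) (3 * 2 ^ k)) ∧
    (∀ k, ‖F (k + 1) - F k‖ ≤ b k) ∧ Summable (fun k => b k * √(3 * 2 ^ k)) ∧
    Tendsto F atTop (𝓝 T) := by
  set S : ℕ → Set ℝ := fun n => {r : ℝ | ∃ F : H →L[ℂ] H,
      Module.rank ℂ (LinearMap.range (F : H →ₗ[ℂ] H)) ≤ (n : Cardinal) ∧ r = ‖T - F‖} with hS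
  have Sn : ∀ n, (S n).Nonempty := fun n => ⟨_, 0, by simp, rfl⟩
  have Sb : ∀ n, ∀ r ∈ S n, 0 ≤ r := by rintro n _ ⟨F, -, rfl⟩; exact norm_nonneg _
  have a0 : ∀ n, 0 ≤ sInf (S n) := fun n => le_csInf (Sn n) (Sb n)
  have am : ∀ m n, m ≤ n → sInf (S n) ≤ sInf (S m) := fun m n hmn =>
    csInf_le_csInf ⟨0, Sb n⟩ (Sn m) fun r ⟨F, h1, h2⟩ => ⟨F, h1.trans (by exact_mod_cast hmn), h2⟩
  have s1 := (summable_condensed_iff_of_nonneg (f := fun n : ℕ => sInf (S n) / √((n : ℝ) + 1))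
    (fun n => by have := a0 n; positivity) fun m n _ hmn => div_le_div₀ (a0 m) (am m n hmn)
      (by positivity) (Real.sqrt_le_sqrt (by exact_mod_cast Nat.succ_le_succ hmn))).mpr hT
  have hF : ∀ k : ℕ, ∃ r ∈ S (2 ^ k), r < sInf (S (2 ^ k)) + (1 / 4) ^ k := fun k =>
    exists_lt_of_csInf_lt (Sn _) (lt_add_of_pos_right _ (by positivity))
  choose r hr hr' using hF
  choose F hF1 hF2 using hr
  set b : ℕ → ℝ := fun k => sInf (S (2 ^ k)) + (1 / 4) ^ k with hb
  have b0 : ∀ k, 0 ≤ b k := fun k => by have := a0 (2 ^ k); positivity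
  have hFb : ∀ k, ‖T - F k‖ ≤ b k := fun k => (hF2 k ▸ hr' k).le
  have bm : ∀ k, b (k + 1) ≤ b k := fun k => add_le_add (am _ _ (Nat.pow_le_pow_right two_pos
    k.le_succ)) (pow_le_pow_of_le_one (by norm_num) (by norm_num) k.le_succ)
  have s2 : Summable fun k : ℕ => b k * √(3 * 2 ^ k) := by
    refine Summable.of_nonneg_of_le (fun k => by have := b0 k; positivity) (fun k => ?_)
      ((s1.mul_left 3).add ((summable_geometric_two).mul_left 3))
    have h2 : (1 : ℝ) ≤ 2 ^ k := one_le_pow₀ one_le_two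
    have h3 : √(3 * 2 ^ k) ≤ 3 * (2 ^ k / √(((2 ^ k : ℕ) : ℝ) + 1)) := by
      rw [← mul_div_assoc, le_div_iff₀ (by positivity), ← Real.sqrt_mul (by positivity),
        Real.sqrt_le_left (by positivity)]
      push_cast; nlinarith
    have h4 : √(3 * 2 ^ k) ≤ 3 * 2 ^ k := by
      rw [Real.sqrt_le_left (by positivity)]; nlinarith
    have h5 : (1 / 4 : ℝ) ^ k * (3 * 2 ^ k) = 3 * (1 / 2) ^ k := by
      rw [mul_left_comm, ← mul_pow]; norm_num
    rw [hb, add_mul]
    refine add_le_add ?_ (h5 ▸ mul_le_mul_of_nonneg_left h4 (by positivity))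
    refine (mul_le_mul_of_nonneg_left h3 (a0 _)).trans (le_of_eq ?_)
    ring
  refine ⟨F, fun k => 2 * b k, hF1, fun k => ?_, fun k => ?_,
    by simpa only [mul_assoc] using s2.mul_left 2, ?_⟩
  · have := LinearMap.rank_add_le (F (k + 1) : H →ₗ[ℂ] H) (-(F k : H →ₗ[ℂ] H))
    rw [← sub_eq_add_neg, LinearMap.rank, LinearMap.rank, LinearMap.rank,
      LinearMap.range_neg] at this
    refine this.trans ((add_le_add (hF1 (k + 1)) (hF1 k)).trans (le_of_eq ?_))
    norm_cast; ring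
  · rw [show F (k + 1) - F k = (T - F k) - (T - F (k + 1)) by abel]
    linarith [norm_sub_le (T - F k) (T - F (k + 1)), hFb k, hFb (k + 1), bm k]
  · rw [tendsto_iff_norm_sub_tendsto_zero]
    refine squeeze_zero (fun _ => norm_nonneg _) (fun k => ?_) s2.tendsto_atTop_zero
    rw [norm_sub_rev]
    refine (hFb k).trans (le_mul_of_one_le_right (b0 k) (Real.one_le_sqrt.mpr ?_))
    linarith [one_le_pow₀ (n := k) (one_le_two (α := ℝ))]

noncomputable def nu : Measure (ℝ × ℝ) :=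
  (volume.restrict (Ioc (0 : ℝ) 1)).prod (volume.restrict (Ioi (0 : ℝ)))

def cone (s : ℝ) (z : ℝ × ℝ) : ℝ × ℝ := (s + z.2, z.2 * z.1)

lemma cone_cont (s : ℝ) : Continuous (cone s) := by unfold cone; fun_prop

lemma Jb {f : ℝ × ℝ → ℂ} (hf : Continuous f) {s η L R : ℝ} (hη : 0 ≤ η) (hL : 0 ≤ L) (hR : 0 < R)
    (h1 : ∀ w : ℝ × ℝ, s ≤ w.1 → ‖f w‖ ≤ η) (h2 : eLpNorm f 1 volume ≤ ENNReal.ofReal L) :
    eLpNorm (fun z => f (cone s z)) 1 nu ≤ ENNReal.ofReal (R * η + L / R) := by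
  have fm : Measurable fun w => ‖f w‖ₑ := hf.measurable.enorm
  rw [eLpNorm_one_eq_lintegral_enorm] at h2 ⊢
  have fm' : Measurable fun z => ‖f (cone s z)‖ₑ := fm.comp (cone_cont s).measurable
  rw [nu, lintegral_prod_symm _ fm'.aemeasurable,
    ← Ioc_union_Ioi_eq_Ioi hR.le, ENNReal.ofReal_add (by positivity) (by positivity)]
  refine (lintegral_union_le _ _ _).trans (add_le_add ?_ ?_)
  · refine (setLIntegral_mono (g := fun _ => ENNReal.ofReal η) measurable_const
      fun r hr => ?_).trans ?_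
    · refine (lintegral_mono (g := fun _ => ENNReal.ofReal η) fun σ => ?_).trans (by simp)
      rw [← ofReal_norm]
      exact ENNReal.ofReal_le_ofReal (h1 _ (le_add_of_nonneg_right hr.1.le))
    · simp [mul_comm, ENNReal.ofReal_mul hη]
  · have m2 : Measurable fun r : ℝ => ∫⁻ u, ‖f (r, u)‖ₑ := fm.lintegral_prod_right'
    refine (setLIntegral_mono (g := fun r => ENNReal.ofReal R⁻¹ * ∫⁻ u, ‖f (s + r, u)‖ₑ)
      ((m2.comp (measurable_const_add s)).const_mul _) fun r hr => ?_).trans ?_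
    · have hr' : 0 < r := hR.trans hr
      refine (setLIntegral_le_lintegral _ _).trans ?_
      have := lintegral_map (μ := volume) (f := fun u => ‖f (s + r, u)‖ₑ) (g := (r * ·))
        (fm.comp (by fun_prop)) (by fun_prop)
      rw [Real.map_volume_mul_left hr'.ne', lintegral_smul_measure, smul_eq_mul] at this
      refine this.symm.le.trans (mul_le_mul_left (ENNReal.ofReal_le_ofReal ?_) _)
      rw [abs_of_pos (inv_pos.mpr hr')]
      exact inv_anti₀ hR (le_of_lt hr)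
    · refine (setLIntegral_le_lintegral _ _).trans ?_
      rw [lintegral_const_mul' _ _ ENNReal.ofReal_ne_top,
        lintegral_add_left_eq_self (fun r : ℝ => ∫⁻ u, ‖f (r, u)‖ₑ) s,
        ← lintegral_prod _ fm.aemeasurable, div_eq_inv_mul, ENNReal.ofReal_mul (by positivity)]
      exact mul_le_mul_right h2 _

structure Sm (C N : ℝ) (p : ℝ × ℝ → H) : Prop where
  cont : Continuous p
  bd : ∀ w, ‖p w‖ ≤ N
  l2 : ∀ φ, MemLp (fun v => ⟪φ, p v⟫_ℂ) 2 ∧ ∫ v, ‖⟪φ, p v⟫_ℂ‖ ^ 2 ≤ C * ‖φ‖ ^ 2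

lemma bil {C N : ℝ} (hC : 0 ≤ C) {p q : ℝ × ℝ → H} (hp : Sm C N p) (hq : Sm C N q)
    {G : H →L[ℂ] H} {n : ℕ} (hG : Rk G n) :
    eLpNorm (fun w => ⟪G (p w), q w⟫_ℂ) 1 volume ≤ ENNReal.ofReal (‖G‖ * (n * C)) := by
  have : Module.Finite ℂ (LinearMap.range (G : H →ₗ[ℂ] H)) :=
    Module.rank_lt_aleph0_iff.mp (lt_of_le_of_lt hG Cardinal.natCast_lt_aleph0)
  set K := LinearMap.range (G : H →ₗ[ℂ] H)
  have e : ∀ w, ⟪G (p w), q w⟫_ℂ = ⟪G (p w), K.starProjection (q w)⟫_ℂ := fun w => by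
    rw [← Submodule.inner_starProjection_left_eq_right,
      Submodule.starProjection_eq_self_iff.mpr (show G (p w) ∈ K from ⟨_, rfl⟩)]
  have h1 := rank_bd hp.cont.aestronglyMeasurable hC hp.l2 G n hG
  have h2 := rank_bd hq.cont.aestronglyMeasurable hC hq.l2 K.starProjection n
    (by rw [Submodule.range_starProjection]; exact hG)
  simp only [e]
  refine (eLpNorm_le_eLpNorm_mul_eLpNorm'_of_norm (p := 2) (q := 2)
    (G.continuous.comp hp.cont).aestronglyMeasurable
    (K.starProjection.continuous.comp hq.cont).aestronglyMeasurable (fun x y => ⟪x, y⟫_ℂ) 1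
    (Eventually.of_forall fun w => by simpa using norm_inner_le_norm _ _)).trans ?_
  rw [ENNReal.coe_one, one_mul]
  refine (mul_le_mul' h1 h2).trans ?_
  rw [← ENNReal.ofReal_mul (by positivity)]
  refine ENNReal.ofReal_le_ofReal ?_
  have h3 := Real.mul_self_sqrt (show 0 ≤ n * C by positivity)
  calc _ ≤ ‖G‖ * √(n * C) * (1 * √(n * C)) := by gcongr; exact K.starProjection_norm_le
    _ = _ := by rw [one_mul, mul_assoc, h3]

lemma key {T : H →L[ℂ] H} (hT : Ideal T) {C N : ℝ} (hC : 0 ≤ C) (hN : 0 ≤ N) {ε : ℝ}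
    (hε : 0 < ε) : ∃ (F : H →L[ℂ] H) (n : ℕ) (η : ℝ), Rk F n ∧ 0 < η ∧
      ∀ (s : ℝ) (p q : ℝ × ℝ → H), Sm C N p → Sm C N q → (∀ w : ℝ × ℝ, s ≤ w.1 → ‖F (p w)‖ ≤ η) →
        eLpNorm (fun z => ⟪T (p (cone s z)), q (cone s z)⟫_ℂ) 1 nu ≤ ENNReal.ofReal ε := by
  obtain ⟨F, b, r1, r2, hb, s2, hl⟩ := decomp hT
  have b0 : ∀ k, 0 ≤ b k := fun k => (norm_nonneg _).trans (hb k)
  have s3 := s2.mul_left (N * N + C)
  obtain ⟨K, hK⟩ := ((tendsto_sum_nat_add fun k => (N * N + C) * (b k * √(3 * 2 ^ k))).eventually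
    (gt_mem_nhds (show 0 < ε / 3 by positivity))).exists
  set L := ‖F K‖ * ((2 ^ K : ℕ) * C) with hL
  have L0 : 0 ≤ L := by positivity
  set R := (L + 1) * 3 / ε with hR
  have R0 : 0 < R := by positivity
  refine ⟨F K, _, ε / (3 * R * (N + 1)), r1 K, by positivity, fun s p q hp hq hs => ?_⟩
  have c1 := hp.cont
  have c2 := hq.cont
  have c3 := cone_cont s
  have hm : ∀ G : H →L[ℂ] H, AEStronglyMeasurable
      (fun z => ⟪G (p (cone s z)), q (cone s z)⟫_ℂ) nu := fun G =>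
    Continuous.aestronglyMeasurable (by fun_prop)
  have step : ∀ m, eLpNorm (fun z => ⟪F (m + K) (p (cone s z)), q (cone s z)⟫_ℂ) 1 nu ≤
      ENNReal.ofReal (2 * ε / 3 +
        ∑ j ∈ Finset.range m, (N * N + C) * (b (j + K) * √(3 * 2 ^ (j + K)))) := by
    intro m
    induction m with
    | zero =>
      rw [zero_add]
      refine (Jb (f := fun w => ⟪F K (p w), q w⟫_ℂ) (η := ε / (3 * R * (N + 1)) * N) (by fun_prop)
        (by positivity) L0 R0 (fun w hw => (norm_inner_le_norm _ _).trans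
          (mul_le_mul (hs w hw) (hq.bd w) (norm_nonneg _) (by positivity)))
        (bil hC hp hq (r1 K))).trans (ENNReal.ofReal_le_ofReal ?_)
      have a1 : R * (ε / (3 * R * (N + 1)) * N) ≤ ε / 3 := by
        rw [show R * (ε / (3 * R * (N + 1)) * N) = ε / 3 * (N / (N + 1)) by field_simp]
        exact mul_le_of_le_one_right (by positivity) ((div_le_one (by positivity)).mpr (by linarith))
      have a2 : L / R ≤ ε / 3 := by
        rw [show L / R = ε / 3 * (L / (L + 1)) by rw [hR]; field_simp]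
        exact mul_le_of_le_one_right (by positivity) ((div_le_one (by positivity)).mpr (by linarith))
      simp only [Finset.range_zero, Finset.sum_empty]; linarith
    | succ m ih =>
      set k := m + K with hk
      have e : (fun z => ⟪F (m + 1 + K) (p (cone s z)), q (cone s z)⟫_ℂ) =
          (fun z => ⟪F k (p (cone s z)), q (cone s z)⟫_ℂ) +
            fun z => ⟪(F (k + 1) - F k) (p (cone s z)), q (cone s z)⟫_ℂ := by
        ext v; simp [hk, add_right_comm]
      have := b0 k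
      rw [e, Finset.sum_range_succ, ← add_assoc, ENNReal.ofReal_add (add_nonneg (by positivity)
        (Finset.sum_nonneg fun j _ => by have := b0 (j + K); positivity)) (by positivity)]
      refine (eLpNorm_add_le (hm _) (hm _) le_rfl).trans (add_le_add ih ?_)
      refine (Jb (f := fun w => ⟪(F (k + 1) - F k) (p w), q w⟫_ℂ) (η := b k * N * N)
        (L := b k * ((3 * 2 ^ k : ℕ) * C)) (R := √(3 * 2 ^ k)) (by fun_prop)
        (by positivity) (by positivity) (by positivity)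
        (fun w _ => (norm_inner_le_norm _ _).trans (mul_le_mul
          ((ContinuousLinearMap.le_opNorm _ _).trans (mul_le_mul (hb k) (hp.bd w) (norm_nonneg _)
            this)) (hq.bd w) (norm_nonneg _) (by positivity)))
        ((bil hC hp hq (r2 k)).trans (ENNReal.ofReal_le_ofReal
          (mul_le_mul_of_nonneg_right (hb k) (by positivity))))).trans (le_of_eq ?_)
      congr 1
      have h3 := Real.mul_self_sqrt (show (0 : ℝ) ≤ 3 * 2 ^ k by positivity)
      push_cast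
      rw [← h3, Real.sqrt_mul_self (Real.sqrt_nonneg _), ← hk]
      field_simp
  refine Lp.eLpNorm_le_of_ae_tendsto (u := atTop)
    (f := fun m z => ⟪F (m + K) (p (cone s z)), q (cone s z)⟫_ℂ)
    (Eventually.of_forall fun m => (step m).trans (ENNReal.ofReal_le_ofReal ?_))
    (fun k => hm _) (Eventually.of_forall fun v => ?_)
  · have := ((summable_nat_add_iff K).mpr s3).sum_le_tsum (Finset.range m)
      fun j _ => by have := b0 (j + K); positivity
    linarith
  · exact (((ContinuousLinearMap.apply ℂ H _).continuous.tendsto T).comp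
      (hl.comp (tendsto_add_atTop_nat K))).inner tendsto_const_nhds

end Pool.Agent.H22.Voi
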