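import Pool.Agent.H22.Voi5

/-! Existence of the wave operator for commuting pairs (two-dimensional Pearson argument). -/

namespace Pool.Agent.H22.Voi

open MeasureTheory Set Filter Topology Complex NormedSpace
open scoped Real InnerProductSpace ENNReal FourierTransform

variable {H : Type} [NormedAddCommGroup H] [InnerProductSpace ℂ H] [CompleteSpace H]

structure Dat (A₁ A₂ B₁ B₂ : H →L[ℂ] H) : Prop where
  a1 : IsSelfAdjoint A₁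
  a2 : IsSelfAdjoint A₂
  b1 : IsSelfAdjoint B₁
  b2 : IsSelfAdjoint B₂
  hA : Commute A₁ A₂
  hB : Commute B₁ B₂
  k1 : Ideal (A₁ - B₁)
  k2 : Ideal (A₂ - B₂)
  ac : ∀ x : H, ∃ f : ℝ × ℝ → ℂ, Integrable f ∧ ∀ s t : ℝ, ⟪x, X A₁ A₂ (s, t) x⟫_ℂ =
      ∫ p : ℝ × ℝ, f p * cexp (I * ((s : ℂ) * (p.1 : ℂ) + (t : ℂ) * (p.2 : ℂ)))

omit [CompleteSpace H] in
lemma Sm.shift {C N : ℝ} {p : ℝ × ℝ → H} (h : Sm C N p) (a : ℝ × ℝ) : Sm C N fun w => p (w + a) :=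
  ⟨h.cont.comp (by fun_prop), fun _ => h.bd _, fun φ =>
    ⟨(h.l2 φ).1.comp_measurePreserving (measurePreserving_add_right volume a),
      (integral_add_right_eq_self (fun v => ‖⟪φ, p v⟫_ℂ‖ ^ 2) a).trans_le (h.l2 φ).2⟩⟩

lemma X_ray {A B : H →L[ℂ] H} (h : Commute A B) (c : ℝ × ℝ) (σ r : ℝ) (y : H) :
    HasDerivAt (fun r : ℝ => X A B (c + (r, r * σ)) y)
      (I • (A + (σ : ℂ) • B) (X A B (c + (r, r * σ)) y)) r := by
  have e : ∀ r : ℝ, X A B (c + (r, r * σ)) = exp (r • (I • (A + (σ : ℂ) • B))) * X A B c := by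
    intro r
    rw [add_comm, X_add h, X]
    congr 2
    simp only [smul_add, ← coe_smul, smul_smul, ofReal_mul]
    congr 2; ring
  have := ((ContinuousLinearMap.apply ℂ H y).restrictScalars ℝ).hasFDerivAt.comp_hasDerivAt r
    ((hasDerivAt_exp_smul_const' (I • (A + (σ : ℂ) • B)) r).mul_const (X A B c))
  simp only [e]
  exact this

namespace Dat

variable {A₁ A₂ B₁ B₂ : H →L[ℂ] H} (d : Dat A₁ A₂ B₁ B₂)
include d

lemma unit {C N : ℝ} {p : ℝ × ℝ → H} (h : Sm C N p) (a : ℝ × ℝ) :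
    Sm C N fun w => X B₁ B₂ a (p w) := by
  refine ⟨(X B₁ B₂ a).continuous.comp h.cont, fun w => (X_norm d.b1 d.b2 d.hB _ _).trans_le (h.bd w),
    fun φ => ?_⟩
  have := h.l2 (X B₁ B₂ (-a) φ)
  simpa only [X_adj d.b1 d.b2, neg_neg, X_norm d.b1 d.b2 d.hB] using this

lemma smooth (x : H) {ε : ℝ} (hε : 0 < ε) :
    ∃ (y : H) (C : ℝ), 0 ≤ C ∧ ‖x - y‖ ≤ ε ∧ Sm C ‖y‖ fun w => X A₁ A₂ w y := by
  obtain ⟨y, C, hC, hy, hb⟩ := (grp d.a1 d.a2 d.hA d.ac).smooth x hε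
  have c1 := X_cont (A := A₁) (B := A₂)
  have hp : -2 * π ≠ 0 := by simp
  refine ⟨y, |((-2 * π)⁻¹ ^ Module.finrank ℝ (ℝ × ℝ))⁻¹| * C, by positivity, hy, by fun_prop,
    fun w => (X_norm d.a1 d.a2 d.hA _ _).le, fun φ => ⟨?_, ?_⟩⟩
  · have m := (hb φ).1.comp_measurePreserving phi_mp.symm
    have m3 := ((memLp_two_iff_integrable_sq_norm m.1).mp m).comp_smul (inv_ne_zero hp)
    simp only [Function.comp_apply, MeasurableEquiv.apply_symm_apply, smul_inv_smul₀ hp] at m3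
    exact (memLp_two_iff_integrable_sq_norm
      (Continuous.aestronglyMeasurable (by fun_prop))).mpr m3
  · have m := Measure.integral_comp_smul volume
      (fun w : ℝ × ℝ => ‖⟪φ, X A₁ A₂ ((-2 * π) • w) y⟫_ℂ‖ ^ 2) (-2 * π)⁻¹
    simp only [smul_inv_smul₀ hp] at m
    rw [m, ← phi_mp.integral_comp', smul_eq_mul, mul_assoc]
    exact mul_le_mul_of_nonneg_left (hb φ).2 (abs_nonneg _)

lemma rl (φ x : H) :
    Tendsto (fun w => ⟪φ, X A₁ A₂ w x⟫_ℂ) (comap Prod.fst atTop) (𝓝 0) := by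
  obtain ⟨g, -, e⟩ := (grp d.a1 d.a2 d.hA d.ac).ex_g φ x
  have hp : -2 * π ≠ 0 := by simp
  have h1 : Tendsto (fun w : ℝ × ℝ => phi.symm ((-2 * π)⁻¹ • w)) (comap Prod.fst atTop)
      (cocompact (EuclideanSpace ℝ (Fin 2))) := by
    rw [← Metric.cobounded_eq_cocompact, ← tendsto_norm_atTop_iff_cobounded]
    refine tendsto_atTop_mono (fun w => ?_)
      (tendsto_comap.const_mul_atTop (show 0 < (2 * π)⁻¹ by positivity))
    refine le_trans ?_ (PiLp.norm_apply_le (phi.symm ((-2 * π)⁻¹ • w)) 0)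
    change _ ≤ ‖(-2 * π)⁻¹ * w.1‖
    rw [neg_mul, inv_neg, neg_mul, norm_neg]
    exact le_abs_self _
  refine ((tendsto_integral_exp_inner_smul_cocompact g).comp h1).congr fun w => ?_
  have := e (phi.symm ((-2 * π)⁻¹ • w))
  simp only [MeasurableEquiv.apply_symm_apply, smul_inv_smul₀ hp] at this
  rw [this]; rfl

lemma decayF {F : H →L[ℂ] H} {n : ℕ} (hF : Rk F n) (y : H) :
    Tendsto (fun w => F (X A₁ A₂ w y)) (comap Prod.fst atTop) (𝓝 0) := by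
  have : Module.Finite ℂ (LinearMap.range (F : H →ₗ[ℂ] H)) :=
    Module.rank_lt_aleph0_iff.mp (lt_of_le_of_lt hF Cardinal.natCast_lt_aleph0)
  set b := stdOrthonormalBasis ℂ (LinearMap.range (F : H →ₗ[ℂ] H))
  have e : ∀ z, F z = ∑ i, ⟪F.adjoint (b i), z⟫_ℂ • (b i : H) := by
    intro z
    have := congrArg Subtype.val (b.sum_repr' ⟨F z, z, rfl⟩)
    simp only [ContinuousLinearMap.adjoint_inner_left]
    simpa using this.symm
  rw [funext fun w => e (X A₁ A₂ w y)]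
  simpa using tendsto_finsetSum Finset.univ fun i _ => (d.rl (F.adjoint (b i)) y).smul_const (b i : H)

lemma small {F : H →L[ℂ] H} {n : ℕ} (hF : Rk F n) (y : H) {η : ℝ} (hη : 0 < η) :
    ∀ᶠ s in atTop, ∀ w : ℝ × ℝ, s ≤ w.1 → ‖F (X A₁ A₂ w y)‖ ≤ η := by
  have := (d.decayF hF y).norm.eventually (ge_mem_nhds (show ‖(0 : H)‖ < η by simpa))
  obtain ⟨s, hs⟩ := eventually_atTop.mp (eventually_comap.mp this)
  filter_upwards [eventually_ge_atTop s] with t ht w hw using hs _ (ht.trans hw) w rfl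

lemma smallT (y : H) {η : ℝ} (hη : 0 < η) :
    ∀ᶠ s in atTop, ∀ w : ℝ × ℝ, s ≤ w.1 → ‖(A₁ - B₁) (X A₁ A₂ w y)‖ ≤ η := by
  obtain ⟨F, -, r1, -, -, -, hl⟩ := decomp d.k1
  obtain ⟨k, hk⟩ := ((tendsto_iff_norm_sub_tendsto_zero.mp hl).eventually
    (gt_mem_nhds (show 0 < η / 2 / (‖y‖ + 1) by positivity))).exists
  filter_upwards [d.small (r1 k) y (half_pos hη)] with s hs w hw
  have h1 := (F k - (A₁ - B₁)).le_opNorm (X A₁ A₂ w y)
  rw [X_norm d.a1 d.a2 d.hA, _root_.sub_apply] at h1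
  rw [lt_div_iff₀ (by positivity)] at hk
  have h2 := norm_sub_le (F k (X A₁ A₂ w y)) (F k (X A₁ A₂ w y) - (A₁ - B₁) (X A₁ A₂ w y))
  rw [sub_sub_cancel] at h2
  nlinarith [hs w hw, norm_nonneg (F k - (A₁ - B₁))]

lemma lim (y : H) {τ : ℝ} (hτ : 0 ≤ τ) : Tendsto (fun w => ⟪X A₁ A₂ (w + (τ, 0)) y,
    X B₁ B₂ (τ, 0) (X A₁ A₂ w y)⟫_ℂ - ⟪y, y⟫_ℂ) (comap Prod.fst atTop) (𝓝 0) := by
  rw [NormedAddGroup.tendsto_nhds_zero]
  intro ε hε
  obtain ⟨s, hs⟩ := (d.smallT y (show 0 < ε / ((τ + 1) * (‖y‖ + 1)) by positivity)).exists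
  filter_upwards [tendsto_comap.eventually (eventually_ge_atTop s)] with w hw
  set z := X A₁ A₂ w y with hz
  have nz : ‖z‖ = ‖y‖ := X_norm d.a1 d.a2 d.hA _ _
  have c1 := X_cont (A := A₁) (B := A₂)
  have h1 := line d.b1 d.b2 d.hA d.hB z 0 (k := fun s => ‖(A₁ - B₁) (X A₁ A₂ (s, 0) z)‖)
    (by fun_prop) (fun _ => le_rfl) 0 τ hτ
  have h2 := intervalIntegral.integral_mono_on hτ (μ := volume)
    (f := fun s => ‖(A₁ - B₁) (X A₁ A₂ (s, 0) z)‖) (g := fun _ => ε / ((τ + 1) * (‖y‖ + 1)))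
    (Continuous.intervalIntegrable (by fun_prop) _ _) intervalIntegrable_const fun x hx => by
      rw [hz, ← mul_apply_eq_comp (X A₁ A₂ (x, 0)), ← X_add d.hA]
      exact hs _ (by simp only [Prod.fst_add]; linarith [hx.1])
  rw [intervalIntegral.integral_const, smul_eq_mul, sub_zero] at h2
  simp only [← Prod.zero_eq_mk, neg_zero, X_zero, mul_one, one_apply_eq_self] at h1
  have e : ⟪X A₁ A₂ (w + (τ, 0)) y, X B₁ B₂ (τ, 0) z⟫_ℂ - ⟪y, y⟫_ℂ =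
      ⟪(X B₁ B₂ (-(τ, 0)) * X A₁ A₂ (τ, 0)) z - z, z⟫_ℂ := by
    rw [inner_sub_left, mul_apply_eq_comp, X_adj d.b1 d.b2, neg_neg, add_comm w, X_add d.hA,
      inner_self_eq_norm_sq_to_K, inner_self_eq_norm_sq_to_K, nz]
    rfl
  rw [e]
  refine (norm_inner_le_norm _ _).trans_lt ((mul_le_mul_of_nonneg_right (h1.trans h2)
    (norm_nonneg _)).trans_lt ?_)
  rw [nz, ← mul_div_assoc, div_mul_eq_mul_div, div_lt_iff₀ (by positivity)]
  nlinarith [norm_nonneg y, mul_nonneg hτ (norm_nonneg y)]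

lemma ray (y : H) {τ : ℝ} (hτ : 0 ≤ τ) (s : ℝ) {σ : ℝ} (hσ : σ ∈ Ioc (0 : ℝ) 1) :
    ‖⟪X A₁ A₂ ((s, 0) + (τ, 0)) y, X B₁ B₂ (τ, 0) (X A₁ A₂ (s, 0) y)⟫_ℂ - ⟪y, y⟫_ℂ‖ₑ ≤
      ∫⁻ r in Ioi 0,
        (‖⟪(A₁ - B₁) (X A₁ A₂ (cone s (σ, r)) y),
            X B₁ B₂ (-(τ, 0)) (X A₁ A₂ (cone s (σ, r) + (τ, 0)) y)⟫_ℂ‖ₑ +
          ‖⟪(A₂ - B₂) (X A₁ A₂ (cone s (σ, r)) y),
            X B₁ B₂ (-(τ, 0)) (X A₁ A₂ (cone s (σ, r) + (τ, 0)) y)⟫_ℂ‖ₑ +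
          ‖⟪(A₁ - B₁) (X A₁ A₂ (cone s (σ, r) + (τ, 0)) y),
            X B₁ B₂ (τ, 0) (X A₁ A₂ (cone s (σ, r)) y)⟫_ℂ‖ₑ +
          ‖⟪(A₂ - B₂) (X A₁ A₂ (cone s (σ, r) + (τ, 0)) y),
            X B₁ B₂ (τ, 0) (X A₁ A₂ (cone s (σ, r)) y)⟫_ℂ‖ₑ) := by
  have ec : ∀ r, cone s (σ, r) = (s, 0) + (r, r * σ) := fun r => by simp [cone]
  set V := X B₁ B₂ (τ, 0) with hV
  set u : ℝ → H := fun r => X A₁ A₂ (cone s (σ, r)) y with hu
  set p : ℝ → H := fun r => X A₁ A₂ (cone s (σ, r) + (τ, 0)) y with hp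
  set K := (A₁ - B₁) + (σ : ℂ) • (A₂ - B₂) with hK
  have hd : ∀ r, HasDerivAt (fun r => ⟪p r, V (u r)⟫_ℂ - ⟪y, y⟫_ℂ)
      (I * (⟪p r, V (K (u r))⟫_ℂ - ⟪K (p r), V (u r)⟫_ℂ)) r := by
    intro r
    have h1 : HasDerivAt u (I • (A₁ + (σ : ℂ) • A₂) (u r)) r := by
      simpa only [hu, ec] using X_ray d.hA (s, 0) σ r y
    have h2 : HasDerivAt p (I • (A₁ + (σ : ℂ) • A₂) (p r)) r := by
      simpa only [hp, ec, add_right_comm] using X_ray d.hA ((s, 0) + (τ, 0)) σ r y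
    refine ((h2.inner ℂ ((V.restrictScalars ℝ).hasFDerivAt.comp_hasDerivAt r h1)).sub_const
      _).congr_deriv ?_
    have cm : ∀ B : H →L[ℂ] H, IsSelfAdjoint B → Commute B₁ B → Commute B₂ B →
        ⟪p r, V (B (u r))⟫_ℂ = ⟪B (p r), V (u r)⟫_ℂ := by
      intro B hB c1 c2
      have : Commute V B := Commute.exp_left ((c1.smul_left _).add_left (c2.smul_left _))
      rw [← mul_apply_eq_comp, this.eq, mul_apply_eq_comp, hB.isSymmetric.apply_clm]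
    have e1 := cm B₁ d.b1 (Commute.refl _) d.hB.symm
    have e2 := cm B₂ d.b2 d.hB (Commute.refl _)
    simp only [hK, ContinuousLinearMap.coe_restrictScalars', Function.comp_apply,
      _root_.add_apply, _root_.sub_apply, _root_.smul_apply, map_add, map_sub, map_smul,
      inner_add_left, inner_add_right, inner_sub_left, inner_sub_right, inner_smul_left,
      inner_smul_right, conj_I, conj_ofReal, e1, e2]
    ring
  have c1 := X_cont (A := A₁) (B := A₂)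
  have c3 := cone_cont s
  have hl : Tendsto (fun r => ⟪p r, V (u r)⟫_ℂ - ⟪y, y⟫_ℂ) atTop (𝓝 0) :=
    (d.lim y hτ).comp (tendsto_comap_iff.mpr (tendsto_atTop_add_const_left _ s tendsto_id))
  have h0 := ((tendsto_const_nhds (x := ⟪p 0, V (u 0)⟫_ℂ - ⟪y, y⟫_ℂ)).sub hl).enorm
  rw [sub_zero] at h0
  have e0 : cone s (σ, 0) = (s, 0) := by simp [cone]
  simp only [hp, hu, e0] at h0
  refine le_of_tendsto h0 ?_
  filter_upwards [eventually_ge_atTop 0] with R hR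
  have h3 := intervalIntegral.integral_eq_sub_of_hasDerivAt (a := 0) (b := R) (fun r _ => hd r)
    (Continuous.intervalIntegrable (by simp only [hp, hu]; fun_prop) _ _)
  simp only [hp, hu, e0] at h3
  rw [enorm_sub_rev, ← h3, intervalIntegral.integral_of_le hR]
  refine (enorm_integral_le_lintegral_enorm _).trans ((lintegral_mono fun r => ?_).trans
    (lintegral_mono_set Ioc_subset_Ioi_self))
  simp only [← ofReal_norm]
  rw [← ENNReal.ofReal_add (norm_nonneg _) (norm_nonneg _), ← ENNReal.ofReal_add (by positivity)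
    (norm_nonneg _), ← ENNReal.ofReal_add (by positivity) (norm_nonneg _)]
  refine ENNReal.ofReal_le_ofReal ?_
  have hs : ∀ z : ℂ, ‖(σ : ℂ) * z‖ ≤ ‖z‖ := fun z => by
    rw [norm_mul, norm_real, Real.norm_eq_abs, abs_of_pos hσ.1]
    exact mul_le_of_le_one_left (norm_nonneg _) hσ.2
  have ad : ∀ a b : H, ‖⟪a, V b⟫_ℂ‖ = ‖⟪b, X B₁ B₂ (-(τ, 0)) a⟫_ℂ‖ := fun a b => by
    rw [norm_inner_symm, hV, X_adj d.b1 d.b2]
  rw [norm_mul, norm_I, one_mul]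
  refine (norm_sub_le _ _).trans ?_
  rw [ad, add_assoc]
  refine add_le_add ?_ ?_ <;>
  · rw [hK, _root_.add_apply, _root_.smul_apply, inner_add_left, inner_smul_left, conj_ofReal]
    exact (norm_add_le _ _).trans (add_le_add le_rfl (hs _))

lemma cauchy {y : H} {C : ℝ} (hC : 0 ≤ C) (hy : Sm C ‖y‖ fun w => X A₁ A₂ w y) {ε : ℝ}
    (hε : 0 < ε) : ∀ᶠ s in atTop, ∀ τ, 0 ≤ τ →
      ‖⟪X A₁ A₂ ((s, 0) + (τ, 0)) y, X B₁ B₂ (τ, 0) (X A₁ A₂ (s, 0) y)⟫_ℂ - ⟪y, y⟫_ℂ‖ ≤ 4 * ε := by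
  obtain ⟨F, n, η, r1, h1, k1⟩ := key d.k1 hC (norm_nonneg y) hε
  obtain ⟨G, m, ζ, r2, h2, k2⟩ := key d.k2 hC (norm_nonneg y) hε
  filter_upwards [d.small r1 y h1, d.small r2 y h2] with s s1 s2 τ hτ
  have hp := hy.shift (τ, 0)
  have a1 := k1 s _ _ hy (d.unit hp (-(τ, 0))) s1
  have a2 := k2 s _ _ hy (d.unit hp (-(τ, 0))) s2
  have a3 := k1 s _ _ hp (d.unit hy (τ, 0)) fun w hw => s1 _ (by simp only [Prod.fst_add]; linarith)
  have a4 := k2 s _ _ hp (d.unit hy (τ, 0)) fun w hw => s2 _ (by simp only [Prod.fst_add]; linarith)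
  rw [eLpNorm_one_eq_lintegral_enorm] at a1 a2 a3 a4
  have c1 := X_cont (A := A₁) (B := A₂)
  have c3 := cone_cont s
  have a5 := setLIntegral_mono' (μ := volume) measurableSet_Ioc
    fun σ (hσ : σ ∈ Ioc (0 : ℝ) 1) => d.ray y hτ s hσ
  rw [← lintegral_prod (μ := volume.restrict (Ioc (0 : ℝ) 1)) (ν := volume.restrict (Ioi (0 : ℝ)))
    (fun z : ℝ × ℝ => ‖⟪(A₁ - B₁) (X A₁ A₂ (cone s z) y),
            X B₁ B₂ (-(τ, 0)) (X A₁ A₂ (cone s z + (τ, 0)) y)⟫_ℂ‖ₑ +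
          ‖⟪(A₂ - B₂) (X A₁ A₂ (cone s z) y),
            X B₁ B₂ (-(τ, 0)) (X A₁ A₂ (cone s z + (τ, 0)) y)⟫_ℂ‖ₑ +
          ‖⟪(A₁ - B₁) (X A₁ A₂ (cone s z + (τ, 0)) y),
            X B₁ B₂ (τ, 0) (X A₁ A₂ (cone s z) y)⟫_ℂ‖ₑ +
          ‖⟪(A₂ - B₂) (X A₁ A₂ (cone s z + (τ, 0)) y),
            X B₁ B₂ (τ, 0) (X A₁ A₂ (cone s z) y)⟫_ℂ‖ₑ)
    (Continuous.aemeasurable (by fun_prop)),
    lintegral_add_right _ (Continuous.measurable (by fun_prop)),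
    lintegral_add_right _ (Continuous.measurable (by fun_prop)),
    lintegral_add_right _ (Continuous.measurable (by fun_prop))] at a5
  have a6 := a5.trans (add_le_add (add_le_add (add_le_add a1 a2) a3) a4)
  rw [setLIntegral_const, Real.volume_Ioc, sub_zero, ENNReal.ofReal_one, mul_one, ← ofReal_norm,
    ← ENNReal.ofReal_add hε.le hε.le, ← ENNReal.ofReal_add (by positivity) hε.le,
    ← ENNReal.ofReal_add (by positivity) hε.le, ENNReal.ofReal_le_ofReal_iff (by positivity)] at a6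
  linarith

theorem wave (x : H) : ∃ z, Tendsto (fun t : ℝ => X B₁ B₂ (-(t, 0)) (X A₁ A₂ (t, 0) x))
    atTop (𝓝 z) := by
  refine cauchySeq_tendsto_of_complete (Metric.cauchySeq_iff'.mpr fun ε hε => ?_)
  obtain ⟨y, C, hC, hxy, hy⟩ := d.smooth x (show 0 < ε / 4 by positivity)
  obtain ⟨s, hs⟩ := (d.cauchy hC hy (show 0 < (ε / 4) ^ 2 / 8 by positivity)).exists
  refine ⟨s, fun t ht => ?_⟩
  have h1 := hs (t - s) (by linarith)
  have nW : ∀ (t : ℝ) z, ‖X B₁ B₂ (-(t, 0)) (X A₁ A₂ (t, 0) z)‖ = ‖z‖ := fun t z => by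
    rw [X_norm d.b1 d.b2 d.hB, X_norm d.a1 d.a2 d.hA]
  have e : ⟪X B₁ B₂ (-(t, 0)) (X A₁ A₂ (t, 0) y), X B₁ B₂ (-(s, 0)) (X A₁ A₂ (s, 0) y)⟫_ℂ =
      ⟪X A₁ A₂ ((s, 0) + (t - s, 0)) y, X B₁ B₂ (t - s, 0) (X A₁ A₂ (s, 0) y)⟫_ℂ := by
    rw [X_adj d.b1 d.b2, ← mul_apply_eq_comp (X B₁ B₂ _), ← X_add d.hB]
    simp [sub_eq_add_neg]
  have h2 : ‖X B₁ B₂ (-(t, 0)) (X A₁ A₂ (t, 0) y) - X B₁ B₂ (-(s, 0)) (X A₁ A₂ (s, 0) y)‖ ≤
      ε / 4 := by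
    refine abs_le_of_sq_le_sq' ?_ (by positivity) |>.2
    rw [@norm_sub_sq ℂ, nW, nW, e]
    have h3 := (abs_le.mp ((abs_re_le_norm _).trans h1)).1
    rw [sub_re, show (⟪y, y⟫_ℂ).re = ‖y‖ ^ 2 from inner_self_eq_norm_sq (𝕜 := ℂ) y] at h3
    simp only [RCLike.re_to_complex]
    linarith
  have h4 := nW t (x - y)
  have h5 := nW s (x - y)
  simp only [map_sub] at h4 h5
  rw [norm_sub_rev] at h5
  rw [dist_eq_norm]
  linarith [norm_sub_le_norm_sub_add_norm_sub (X B₁ B₂ (-(t, 0)) (X A₁ A₂ (t, 0) x))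
    (X B₁ B₂ (-(t, 0)) (X A₁ A₂ (t, 0) y)) (X B₁ B₂ (-(s, 0)) (X A₁ A₂ (s, 0) x)),
    norm_sub_le_norm_sub_add_norm_sub (X B₁ B₂ (-(t, 0)) (X A₁ A₂ (t, 0) y))
    (X B₁ B₂ (-(s, 0)) (X A₁ A₂ (s, 0) y)) (X B₁ B₂ (-(s, 0)) (X A₁ A₂ (s, 0) x))]

end Dat

end Pool.Agent.H22.Voi
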