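import Mathlib

/-! Weakly measurable vectors of a unitary representation of the discrete real line. -/

namespace Pool.Agent.H22.Wm

open MeasureTheory Set Filter Topology
open scoped InnerProductSpace

variable {H : Type} [NormedAddCommGroup H] [InnerProductSpace ℂ H] [CompleteSpace H]

lemma proj_comm {E : Type} [NormedAddCommGroup E] [InnerProductSpace ℂ E] (C : Submodule ℂ E)
    [C.HasOrthogonalProjection] (S T : E →L[ℂ] E) (h : ∀ u v, ⟪S u, v⟫_ℂ = ⟪u, T v⟫_ℂ)
    (hS : ∀ c ∈ C, S c ∈ C) (hT : ∀ c ∈ C, T c ∈ C) (u : E) :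
    C.starProjection (S u) = S (C.starProjection u) := by
  refine Submodule.eq_starProjection_of_mem_of_inner_eq_zero
    (hS _ (Submodule.starProjection_apply_mem C u)) fun w hw => ?_
  rw [← map_sub, h]
  exact Submodule.starProjection_inner_eq_zero u _ (hT w hw)

lemma meas_closed {E : Type} [NormedAddCommGroup E] [InnerProductSpace ℂ E] (x : ℝ → E) :
    IsClosed {v : E | AEMeasurable fun l => ⟪x l, v⟫_ℂ} := by
  refine isClosed_of_closure_subset fun v hv => ?_
  obtain ⟨u, hu, hl⟩ := mem_closure_iff_seq_limit.1 hv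
  exact aemeasurable_of_tendsto_metrizable_ae' hu (Eventually.of_forall fun l =>
    tendsto_const_nhds.inner hl)

/-- vectors `v` with `l ↦ ⟪x l, v⟫` measurable -/
def ms {E : Type} [NormedAddCommGroup E] [InnerProductSpace ℂ E] (x : ℝ → E) : Submodule ℂ E where
  carrier := {v : E | AEMeasurable fun l => ⟪x l, v⟫_ℂ}
  add_mem' := fun ha hb => by
    simp only [mem_ofPred_eq, inner_add_right]; exact AEMeasurable.add ha hb
  zero_mem' := by simp
  smul_mem' := fun c _ ha => by
    simp only [mem_ofPred_eq, inner_smul_right]; exact AEMeasurable.const_mul ha c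

noncomputable def e (ε : ℝ) (h : H) (s : ℝ) : Lp H 2 (volume : Measure ℝ) :=
  indicatorConstLp 2 (measurableSet_Icc (a := s) (b := s + ε)) (by simp) h

lemma inner_e (ε : ℝ) (h h' : H) (s s' : ℝ) :
    ⟪e ε h s, e ε h' s'⟫_ℂ = (max (ε - |s - s'|) 0 : ℝ) * ⟪h, h'⟫_ℂ := by
  rw [e, e, L2.inner_indicatorConstLp_indicatorConstLp _ _ (by simp) (by simp), Icc_inter_Icc,
    Real.volume_real_Icc,
    Complex.real_smul]
  congr 3
  rcases le_total s s' with h | h
  · rw [abs_of_nonpos (by linarith), sup_of_le_right h, inf_of_le_left (by linarith)]; ring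
  · rw [abs_of_nonneg (by linarith), sup_of_le_left h, inf_of_le_right (by linarith)]; ring

lemma e_cont (ε : ℝ) (h : H) : Continuous (e ε h) := by
  refine continuous_iff_continuousAt.2 fun s0 => tendsto_iff_norm_sub_tendsto_zero.2 ?_
  have h1 : ∀ s, ‖e ε h s - e ε h s0‖ =
      √(((2 * max ε 0 - 2 * max (ε - |s - s0|) 0 : ℝ) * ⟪h, h⟫_ℂ).re) := fun s => by
    rw [norm_eq_sqrt_re_inner (𝕜 := ℂ), inner_sub_left, inner_sub_right, inner_sub_right,
      inner_e, inner_e, inner_e, inner_e, abs_sub_comm s0 s]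
    rw [RCLike.re_to_complex]
    congr 2
    simp only [sub_self, abs_zero, sub_zero]
    push_cast; ring
  simp only [h1]
  have : Continuous fun s : ℝ =>
      √(((2 * max ε 0 - 2 * max (ε - |s - s0|) 0 : ℝ) * ⟪h, h⟫_ℂ).re) := by fun_prop
  simpa using this.tendsto s0

noncomputable def W (T : H →L[ℂ] H) (l : ℝ) :
    Lp H 2 (volume : Measure ℝ) →L[ℂ] Lp H 2 (volume : Measure ℝ) :=
  (T.compLpL 2 volume).comp (Lp.compMeasurePreservingₗᵢ ℂ (fun t => t - l)
    (measurePreserving_sub_right volume l)).toContinuousLinearMap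

omit [CompleteSpace H] in
lemma W_ae (T : H →L[ℂ] H) (l : ℝ) (u : Lp H 2 (volume : Measure ℝ)) :
    W T l u =ᵐ[volume] fun t => T (u (t - l)) := by
  filter_upwards [T.coeFn_compLpL (Lp.compMeasurePreserving (fun t => t - l)
    (measurePreserving_sub_right volume l) u), Lp.coeFn_compMeasurePreserving u
    (measurePreserving_sub_right volume l)] with t h1 h2
  exact h1.trans (congrArg T h2)

omit [CompleteSpace H] in
lemma W_adj (S T : H →L[ℂ] H) (h : ∀ u v, ⟪S u, v⟫_ℂ = ⟪u, T v⟫_ℂ) (l : ℝ)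
    (u v : Lp H 2 (volume : Measure ℝ)) : ⟪W S l u, v⟫_ℂ = ⟪u, W T (-l) v⟫_ℂ := by
  rw [L2.inner_def, L2.inner_def]
  have h1 : ∫ t, ⟪W S l u t, v t⟫_ℂ = ∫ t, ⟪u (t - l), T (v t)⟫_ℂ :=
    integral_congr_ae ((W_ae S l u).mono fun t ht => by simp only [ht, h])
  have h2 : ∫ t, ⟪u t, W T (-l) v t⟫_ℂ = ∫ t, ⟪u t, T (v (t + l))⟫_ℂ :=
    integral_congr_ae ((W_ae T (-l) v).mono fun t ht => by simp only [ht, sub_neg_eq_add])
  rw [h1, h2, ← integral_add_right_eq_self _ l]
  simp only [add_sub_cancel_right]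

omit [CompleteSpace H] in
lemma W_e (T : H →L[ℂ] H) (l ε : ℝ) (h : H) (s : ℝ) : W T l (e ε h s) = e ε (T h) (s + l) := by
  refine Lp.ext ((W_ae T l _).trans ?_)
  have h1 : e ε h s =ᵐ[volume] (Icc s (s + ε)).indicator fun _ => h := indicatorConstLp_coeFn
  have h2 : e ε (T h) (s + l) =ᵐ[volume] (Icc (s + l) (s + l + ε)).indicator fun _ => T h :=
    indicatorConstLp_coeFn
  filter_upwards [(measurePreserving_sub_right volume l).quasiMeasurePreserving.ae h1, h2]
    with t a1 a2
  rw [a1, a2]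
  by_cases ht : t - l ∈ Icc s (s + ε)
  · rw [indicator_of_mem ht, indicator_of_mem (s := Icc _ _) ⟨by linarith [ht.1], by linarith [ht.2]⟩]
  · rw [indicator_of_notMem ht, indicator_of_notMem (s := Icc _ _)
      fun h => ht ⟨by linarith [h.1], by linarith [h.2]⟩, map_zero]

lemma diag_meas (G : ℝ → ℝ → ℂ) (h1 : ∀ l, Continuous fun m => G m l)
    (h2 : ∀ m, AEMeasurable (G m)) : AEMeasurable fun l => G l l := by
  have h3 : Measurable (Function.uncurry fun (m : ℝ) (l : NullMeasurableSpace ℝ volume) => G m l) :=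
    measurable_uncurry_of_continuous_of_measurable h1 fun m => (h2 m).nullMeasurable
  have h5 : @Measurable (NullMeasurableSpace ℝ volume) ℝ _ _ id :=
    (measurable_id (α := ℝ)).nullMeasurable (μ := volume)
  have h4 := h5.prodMk (measurable_id (α := NullMeasurableSpace ℝ volume))
  exact NullMeasurable.aemeasurable (f := fun l => G l l) (h3.comp h4)

theorem key (U : ℝ → H →L[ℂ] H) (hadj : ∀ l u v, ⟪U l u, v⟫_ℂ = ⟪u, U (-l) v⟫_ℂ)
    (hmul : ∀ l k u, U l (U k u) = U (l + k) u) (ξ η : H)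
    (hξ : ∀ v : H, (∀ h, AEMeasurable fun l => ⟪h, U l v⟫_ℂ) → ⟪v, ξ⟫_ℂ = 0)
    (I : Set ℝ) (hI : IsOpen I) (hg : AEMeasurable (fun l => ⟪ξ, U l η⟫_ℂ) (volume.restrict I))
    (l0 : ℝ) (hl0 : l0 ∈ I) : ⟪ξ, U l0 η⟫_ℂ = 0 := by
  obtain ⟨ε, ε0, hε⟩ := Metric.isOpen_iff.1 hI l0 hl0
  have hg' : AEMeasurable fun l => (max (ε - |l0 - l|) 0 : ℝ) * ⟪ξ, U l η⟫_ℂ := by
    have h1 : AEMeasurable (fun l => (max (ε - |l0 - l|) 0 : ℝ) * ⟪ξ, U l η⟫_ℂ)
        (volume.restrict I) := AEMeasurable.mul (by fun_prop) hg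
    refine ((aemeasurable_indicator_iff hI.measurableSet).2 h1).congr (Eventually.of_forall ?_)
    intro l
    by_cases hl : l ∈ I
    · exact indicator_of_mem hl _
    · rw [indicator_of_notMem hl]
      simp only []
      rw [max_eq_right, Complex.ofReal_zero, zero_mul]
      by_contra h
      exact hl (hε (by rw [Metric.mem_ball, dist_comm, Real.dist_eq]; linarith))
  set C := (Submodule.span ℂ (range fun k => e ε (U k η) k)).topologicalClosure with hC
  have hW : ∀ l, ∀ c ∈ C, W (U l) l c ∈ C := fun l c hc => by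
    refine (Submodule.topologicalClosure_minimal (t := C.comap (W (U l) l).toLinearMap) _
      (Submodule.span_le.2 ?_) ((Submodule.isClosed_topologicalClosure _).preimage
        (W (U l) l).continuous)) hc
    rintro _ ⟨k, rfl⟩
    refine Submodule.le_topologicalClosure _ (Submodule.subset_span ⟨l + k, ?_⟩)
    show _ = W (U l) l (e ε (U k η) k)
    rw [W_e, hmul, add_comm k l]
  have hx : ∀ v ∈ C, AEMeasurable fun l => ⟪e ε (U l ξ) (l0 + l), v⟫_ℂ := fun v hv => by
    refine (Submodule.topologicalClosure_minimal (t := ms fun l => e ε (U l ξ) (l0 + l)) _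
      (Submodule.span_le.2 ?_) (meas_closed _)) hv
    rintro _ ⟨k, rfl⟩
    show AEMeasurable fun l => ⟪e ε (U l ξ) (l0 + l), e ε (U k η) k⟫_ℂ
    refine (hg'.comp_quasiMeasurePreserving
      (Measure.measurePreserving_sub_left volume k).quasiMeasurePreserving).congr
      (Eventually.of_forall fun l => ?_)
    simp only [Function.comp, inner_e, hadj, hmul]
    rw [show l0 + l - k = l0 - (k - l) by ring, show -l + k = k - l by ring]
  set ζ := C.starProjection (e ε ξ l0) with hζ
  set v := ∫ t in Icc l0 (l0 + ε), ζ t with hv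
  have hvL : ∀ h, ⟪h, v⟫_ℂ = ⟪e ε h l0, ζ⟫_ℂ := fun h =>
    (L2.inner_indicatorConstLp_eq_inner_setIntegral ℂ _ _ h ζ).symm
  have hvm : ∀ h, AEMeasurable fun l => ⟪h, U l v⟫_ℂ := fun h => by
    have h1 := diag_meas (fun m l => ⟪e ε (U l ξ) (l0 + l),
        C.starProjection (e ε h (l0 + m))⟫_ℂ)
      (fun l => continuous_const.inner (C.starProjection.continuous.comp
        ((e_cont ε h).comp (by fun_prop))))
      (fun m => hx _ (Submodule.starProjection_apply_mem C _))
    refine (Complex.continuous_conj.measurable.comp_aemeasurable h1).congr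
      (Eventually.of_forall fun l => ?_)
    simp only [Function.comp, inner_conj_symm]
    have a1 := hadj (-l) h v
    have a2 := W_adj _ _ (hadj (-l)) (-l) (e ε h (l0 + l)) ζ
    rw [neg_neg] at a1 a2
    rw [← a1, hvL, Submodule.inner_starProjection_left_eq_right, ← W_e,
      proj_comm C _ _ (W_adj _ _ (hadj l) l) (hW l) (hW (-l)), ← hζ, ← a2, W_e,
      add_neg_cancel_right]
  have h1 := inner_eq_zero_symm.1 (hξ v hvm)
  have h2 : ζ = 0 := by
    rw [hvL] at h1
    have := Submodule.starProjection_inner_eq_zero (K := C) (e ε ξ l0) ζ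
      (Submodule.starProjection_apply_mem C _)
    rw [inner_sub_left, h1, ← hζ, zero_sub, neg_eq_zero] at this
    exact inner_self_eq_zero.1 this
  have h3 := Submodule.starProjection_inner_eq_zero (K := C) (e ε ξ l0) (e ε (U l0 η) l0)
    (Submodule.le_topologicalClosure _ (Submodule.subset_span ⟨l0, rfl⟩))
  rw [← hζ, h2, sub_zero, inner_e, sub_self, abs_zero, sub_zero, max_eq_left ε0.le] at h3
  exact (mul_eq_zero.1 h3).resolve_left (by exact_mod_cast ε0.ne')

end Pool.Agent.H22.Wm
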