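import Pool.Agent.H22.Wm

/-! Norm-preserving measurable extension and continuous part of measurable characteristic
functions of bounded functionals on exponential sums. -/

namespace Pool.Agent.H22.Wm

open MeasureTheory Set Filter Complex BoundedContinuousFunction
open scoped ComplexOrder ComplexConjugate InnerProductSpace

abbrev Al := (ℝ × ℝ) →ᵇ ℂ

noncomputable def ex (l : ℝ) : Al :=
  ofNormedAddCommGroup (fun x => exp (I * l * x.2)) (by fun_prop) 1 fun x => by
    rw [mul_assoc, ← ofReal_mul, norm_exp_I_mul_ofReal]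

noncomputable def sg : Al :=
  ofNormedAddCommGroup (fun x => exp (I * x.1)) (by fun_prop) 1 fun x => by
    rw [norm_exp_I_mul_ofReal]

lemma ex_apply (l : ℝ) (x) : ex l x = exp (I * l * x.2) := rfl
lemma sg_apply (x) : sg x = exp (I * x.1) := rfl

lemma ex_mul (l k : ℝ) : ex l * ex k = ex (l + k) := by
  ext x; rw [mul_apply, ex_apply, ex_apply, ex_apply, ← exp_add]; push_cast; ring_nf

lemma ex_star (l : ℝ) : star (ex l) = ex (-l) := by
  ext x; rw [star_apply, ex_apply, ex_apply, star_def, ← exp_conj]; simp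

lemma bdd (p : Al) : BddAbove (range fun x => (p x).re) :=
  ⟨‖p‖, by rintro _ ⟨x, rfl⟩; exact (re_le_norm _).trans (p.norm_coe_le_norm x)⟩

/-- the functional with characteristic function `f` has norm at most `C` on frequencies in `J` -/
def Bd (J : Set ℝ) (f : ℝ → ℂ) (C : ℝ) : Prop :=
  ∀ s : Finset ℝ, (∀ x ∈ s, x ∈ J) → ∀ c : ℝ → ℂ, ∀ M : ℝ,
    (∀ t : ℝ, ‖∑ x ∈ s, c x * exp (I * (x : ℂ) * (t : ℂ))‖ ≤ M) → ‖∑ x ∈ s, c x * f x‖ ≤ C * M

lemma hb {J : Set ℝ} {f : ℝ → ℂ} {C : ℝ} (C0 : 0 ≤ C) (hC : Bd J f C) :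
    ∃ L : Al →ₗ[ℂ] ℂ, (∀ s, 0 ≤ L (star s * s)) ∧ (L 1).re ≤ C ∧
      ∀ l ∈ J, L (sg * ex l) = f l := by
  set R := Finsupp.supported ℂ ℂ J
  set T : R →ₗ[ℝ] Al := (((LinearMap.mulLeft ℂ sg).comp (Finsupp.linearCombination ℂ ex)).comp
    R.subtype).restrictScalars ℝ with hT
  set φ : R →ₗ[ℝ] ℝ := reLm.comp (((Finsupp.linearCombination ℂ f).comp R.subtype).restrictScalars ℝ)
  set N : Al → ℝ := fun p => C * ⨆ x, (p x).re with hN
  have hφ : ∀ c, φ c ≤ N (T c) := fun c => by
    refine (re_le_norm _).trans (hC c.1.support (fun x hx => c.2 hx) c.1 _ fun t => ?_)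
    set z := ∑ x ∈ c.1.support, c.1 x * exp (I * (x : ℂ) * (t : ℂ)) with hz
    refine le_trans (le_of_eq ?_) (le_ciSup (bdd (T c)) (-arg z, t))
    have e : T c (-arg z, t) = exp (I * (-arg z : ℝ)) * z := by
      show (sg * Finsupp.linearCombination ℂ ex c.1) (-arg z, t) = _
      rw [mul_apply, sg_apply]
      simp only [Finsupp.linearCombination_apply, Finsupp.sum, coe_sum, Finset.sum_apply]
      rfl
    rw [e]
    nth_rewrite 3 [← norm_mul_exp_arg_mul_I z]
    rw [mul_left_comm, ← exp_add]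
    simp [mul_comm]
  have N0 : N 0 = 0 := by simp [hN]
  have hk : ∀ c, T c = 0 → φ c = 0 := fun c h => by
    have h1 := hφ c
    have h2 := hφ (-c)
    rw [map_neg, map_neg, h, neg_zero, N0] at h2
    rw [h, N0] at h1
    linarith
  obtain ⟨σ, hσ⟩ := T.rangeRestrict.exists_rightInverse_of_surjective T.range_rangeRestrict
  have hσ' : ∀ y : T.range, T (σ y) = y := fun y =>
    congrArg Subtype.val (LinearMap.congr_fun hσ y)
  obtain ⟨g, hg1, hg2⟩ := exists_extension_of_le_sublinear ⟨T.range, φ.comp σ⟩ N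
    (fun c hc p => by
      simp only [hN, BoundedContinuousFunction.coe_smul, real_smul, re_ofReal_mul]
      rw [← Real.mul_iSup_of_nonneg hc.le]; ring)
    (fun p q => by
      simp only [hN]
      rw [← mul_add]
      refine mul_le_mul_of_nonneg_left (ciSup_le fun x => ?_) C0
      rw [BoundedContinuousFunction.add_apply, add_re]
      exact add_le_add (le_ciSup (bdd p) x) (le_ciSup (bdd q) x))
    (fun y => by have := hφ (σ y); rwa [hσ'] at this)
  have hgT : ∀ c, g (T c) = φ c := fun c => by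
    refine (hg1 ⟨T c, c, rfl⟩).trans ?_
    have := hk (σ ⟨T c, c, rfl⟩ - c) (by rw [map_sub, hσ', sub_self])
    rwa [map_sub, sub_eq_zero] at this
  have hneg : ∀ p : Al, (∀ x, (p x).re ≤ 0) → g p ≤ 0 := fun p hp =>
    (hg2 p).trans (mul_nonpos_of_nonneg_of_nonpos C0 (ciSup_le hp))
  refine ⟨Module.Dual.extendRCLike (𝕜 := ℂ) g, fun s => ?_, ?_, fun l hl => ?_⟩
  · have e : ∀ x, (star s * s) x = (normSq (s x) : ℂ) := fun x => by
      rw [mul_apply, star_apply, normSq_eq_conj_mul_self]; rfl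
    have h1 := hneg (-(star s * s)) fun x => by
      rw [BoundedContinuousFunction.neg_apply, e]; simpa using normSq_nonneg _
    have h2 := hneg (I • (star s * s)) fun x => by simp [e]
    have h3 := hneg (-(I • (star s * s))) fun x => by simp [e]
    rw [map_neg] at h1 h3
    have h4 : g (I • (star s * s)) = 0 := by linarith
    rw [Module.Dual.extendRCLike_apply, RCLike.I_to_complex, h4]
    simpa using h1
  · refine (Module.Dual.re_extendRCLike_apply (𝕜 := ℂ) g 1).le.trans ((hg2 1).trans ?_)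
    simp [hN]
  · have h1 := hgT ⟨Finsupp.single l 1, Finsupp.single_mem_supported _ _ hl⟩
    have h2 := hgT ⟨Finsupp.single l I, Finsupp.single_mem_supported _ _ hl⟩
    have e1 : T ⟨Finsupp.single l 1, Finsupp.single_mem_supported _ _ hl⟩ = sg * ex l := by
      simp [hT]
    have e2 : T ⟨Finsupp.single l I, Finsupp.single_mem_supported _ _ hl⟩ = I • (sg * ex l) := by
      simp [hT]
    rw [e1] at h1; rw [e2] at h2
    rw [Module.Dual.extendRCLike_apply, RCLike.I_to_complex, h1, h2]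
    apply Complex.ext <;> simp [φ]

theorem null_part {H : Type} [NormedAddCommGroup H] [InnerProductSpace ℂ H] [CompleteSpace H]
    (U : ℝ → H →L[ℂ] H) (hadj : ∀ l u v, ⟪U l u, v⟫_ℂ = ⟪u, U (-l) v⟫_ℂ)
    (hmul : ∀ l k u, U l (U k u) = U (l + k) u) (hn : ∀ l u, ‖U l u‖ ≤ ‖u‖) (v : H)
    (hm : ∀ h, AEMeasurable fun l => ⟪h, U l v⟫_ℂ)
    (ho : ∀ h, (Continuous fun l => U l h) → ⟪h, v⟫_ℂ = 0) (h : H) :
    ∀ᵐ l, ⟪h, U l v⟫_ℂ = 0 := by
  have hb : ∀ h l, ‖⟪h, U l v⟫_ℂ‖ ≤ ‖h‖ * ‖v‖ := fun h l =>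
    (norm_inner_le_norm _ _).trans (mul_le_mul_of_nonneg_left (hn _ _) (norm_nonneg _))
  have hl : ∀ h, LocallyIntegrable fun l => ⟪h, U l v⟫_ℂ := fun h =>
    (locallyIntegrable_const (‖h‖ * ‖v‖)).mono (hm h).aestronglyMeasurable
      (Eventually.of_forall fun l => (hb h l).trans (le_abs_self _))
  have hi : ∀ h a b, IntervalIntegrable (fun l => ⟪h, U l v⟫_ℂ) volume a b := fun h a b =>
    ((hl h).integrableOn_isCompact isCompact_uIcc).intervalIntegrable
  have hw : ∀ a b : ℝ, ∃ w : H, ∀ h, ⟪h, w⟫_ℂ = ∫ l in a..b, ⟪h, U l v⟫_ℂ := fun a b => by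
    have hc : ∀ h l, ⟪U l v, h⟫_ℂ = conj ⟪h, U l v⟫_ℂ := fun h l => (inner_conj_symm _ _).symm
    have hi' : ∀ h, IntervalIntegrable (fun l => ⟪U l v, h⟫_ℂ) volume a b := fun h => by
      simp only [hc]
      exact ⟨conjCLE.toContinuousLinearMap.integrable_comp (hi h a b).1,
        conjCLE.toContinuousLinearMap.integrable_comp (hi h a b).2⟩
    let L : H →ₗ[ℂ] ℂ :=
      { toFun := fun h => ∫ l in a..b, ⟪U l v, h⟫_ℂ
        map_add' := fun h h' => by
          simp only [inner_add_right]; exact intervalIntegral.integral_add (hi' h) (hi' h')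
        map_smul' := fun c h => by
          simp only [inner_smul_right, intervalIntegral.integral_const_mul]; rfl }
    refine ⟨(InnerProductSpace.toDual ℂ H).symm (L.mkContinuous (‖v‖ * |b - a|) fun h => ?_),
      fun h => ?_⟩
    · refine (intervalIntegral.norm_integral_le_of_norm_le_const (C := ‖h‖ * ‖v‖)
        fun l _ => ?_).trans (le_of_eq (by ring))
      rw [hc, norm_conj]; exact hb h l
    · rw [← inner_conj_symm, InnerProductSpace.toDual_symm_apply]
      show conj (∫ l in a..b, ⟪U l v, h⟫_ℂ) = _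
      simp only [hc, intervalIntegral, integral_conj, map_sub, conj_conj]
  choose w hw using hw
  have hwn : ∀ a b, ‖w a b‖ ≤ ‖v‖ * |b - a| := fun a b => by
    have h1 := intervalIntegral.norm_integral_le_of_norm_le_const (a := a) (b := b)
      fun l _ => hb (w a b) l
    rw [← hw, inner_self_eq_norm_sq_to_K] at h1
    simp only [norm_pow, coe_algebraMap, norm_real, norm_norm] at h1
    rcases (norm_nonneg (w a b)).eq_or_lt with h | h
    · rw [← h]; positivity
    · exact le_of_mul_le_mul_left (by linarith) h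
  have hwc : Continuous (w 0) := by
    refine (LipschitzWith.of_dist_le_mul (K := ‖v‖₊) fun a b => ?_).continuous
    have : w 0 a - w 0 b = w b a := ext_inner_left ℂ fun h => by
      rw [inner_sub_right, hw, hw, hw, intervalIntegral.integral_interval_sub_left (hi _ _ _)
        (hi _ _ _)]
    rw [dist_eq_norm, this]; exact hwn b a
  have hU : ∀ a m, U m (w 0 a) = w 0 (m + a) - w 0 m := fun a m => ext_inner_left ℂ fun h => by
    have a1 : ∀ u, ⟪h, U m u⟫_ℂ = ⟪U (-m) h, u⟫_ℂ := fun u => by rw [hadj, neg_neg]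
    rw [a1, inner_sub_right, hw, hw, hw, intervalIntegral.integral_interval_sub_left (hi _ _ _)
      (hi _ _ _)]
    simp only [← a1, hmul]
    rw [intervalIntegral.integral_comp_add_left (fun l => ⟪h, U l v⟫_ℂ), add_zero]
  have hw0 : ∀ a, w 0 a = 0 := fun a => by
    have hc : Continuous fun m => U m (w 0 a) := by simp only [hU]; fun_prop
    rw [← inner_self_eq_zero (𝕜 := ℂ), hw]
    refine (intervalIntegral.integral_congr (g := fun _ => 0) fun l _ => ?_).trans (by simp)
    have a1 := hadj (-l) (w 0 a) v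
    rw [neg_neg] at a1
    show ⟪w 0 a, U l v⟫_ℂ = 0
    rw [← a1]
    refine ho _ ?_
    simp only [hmul]
    exact hc.comp (f := fun m => m + -l) (by fun_prop)
  filter_upwards [_root_.LocallyIntegrable.ae_hasDerivAt_integral (hl h)] with l hd
  have h1 := hd 0
  simp only [← hw, hw0, inner_zero_right] at h1
  exact h1.unique (hasDerivAt_const _ _)

theorem main {J : Set ℝ} (hJ : IsOpen J) {f : ℝ → ℂ} {C : ℝ} (C0 : 0 ≤ C) (hC : Bd J f C)
    (hm : AEMeasurable f (volume.restrict J)) : ∃ g gc : ℝ → ℂ, (∀ l ∈ J, g l = f l) ∧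
    AEMeasurable g ∧ Bd univ g C ∧ Continuous gc ∧ Bd univ gc C ∧ ∀ᵐ l, g l = gc l := by
  obtain ⟨L, hL, hL1, hf⟩ := hb C0 hC
  let : PartialOrder Al := CStarAlgebra.spectralOrder Al
  have : StarOrderedRing Al := CStarAlgebra.spectralOrderedRing Al
  set ω : Al →ₚ[ℂ] ℂ := PositiveLinearMap.mk₀ L fun a ha => by
    obtain ⟨b, rfl⟩ := CStarAlgebra.nonneg_iff_eq_star_mul_self.1 ha
    exact hL b
  set π := ω.gnsStarAlgHom with hπ
  set ξ : ω.GNS := ((ω.toPreGNS 1 : ω.PreGNS) : ω.GNS) with hξ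
  have hω : ∀ a, ⟪ξ, π a ξ⟫_ℂ = L a := fun a => by
    have : π a ξ = ((ω.leftMulMapPreGNS a (ω.toPreGNS 1) : ω.PreGNS) : ω.GNS) :=
      ω.gnsNonUnitalStarAlgHom_apply_coe
    rw [this, hξ, UniformSpace.Completion.inner_coe, ω.preGNS_inner_def]
    simp
    rfl
  have nξ : ‖ξ‖ * ‖ξ‖ ≤ C := by
    rw [← hω, map_one, one_apply_eq_self] at hL1
    rw [← inner_self_eq_norm_mul_norm (𝕜 := ℂ)]; exact hL1
  have hadj : ∀ a u v, ⟪π a u, v⟫_ℂ = ⟪u, π (star a) v⟫_ℂ := fun a u v => by
    rw [map_star, ContinuousLinearMap.star_eq_adjoint, ContinuousLinearMap.adjoint_inner_right]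
  have hmul : ∀ a b u, π a (π b u) = π (a * b) u := fun a b u => by rw [map_mul]; rfl
  have hadj' : ∀ l u v, ⟪π (ex l) u, v⟫_ℂ = ⟪u, π (ex (-l)) v⟫_ℂ := fun l u v => by
    rw [hadj, ex_star]
  have hmul' : ∀ l k u, π (ex l) (π (ex k) u) = π (ex (l + k)) u := fun l k u => by
    rw [hmul, ex_mul]
  have nπ : ∀ a u, ‖π a u‖ ≤ ‖a‖ * ‖u‖ := fun a u => ((π a).le_opNorm _).trans
    (mul_le_mul_of_nonneg_right (NonUnitalStarAlgHom.norm_apply_le π _) (norm_nonneg _))
  have nU : ∀ l u, ‖π (ex l) u‖ ≤ ‖u‖ := fun l u => (nπ _ _).trans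
    (mul_le_of_le_one_left (norm_nonneg _) (norm_ofNormedAddCommGroup_le _ zero_le_one _))
  have split : ∀ (K : Submodule ℂ ω.GNS) [K.HasOrthogonalProjection], (∀ a, ∀ v ∈ K, π a v ∈ K) →
      ∀ a u, ⟪u, π a u⟫_ℂ = ⟪K.starProjection u, π a (K.starProjection u)⟫_ℂ +
        ⟪u - K.starProjection u, π a (u - K.starProjection u)⟫_ℂ := fun K _ inv a u => by
    have m0 := Submodule.starProjection_apply_mem K u
    have h1 := Submodule.starProjection_inner_eq_zero u _ (inv a _ m0)
    have h2 := inner_eq_zero_symm.1 (Submodule.starProjection_inner_eq_zero u _ (inv (star a) _ m0))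
    rw [hadj, star_star] at h2
    simp only [map_sub, inner_sub_left, inner_sub_right] at h1 h2 ⊢
    linear_combination h1 + h2
  have bd : ∀ u : ω.GNS, ‖u‖ ≤ ‖ξ‖ → Bd univ (fun l => ⟪u, π (sg * ex l) u⟫_ℂ) C :=
    fun u hu s _ c M hM => by
    have M0 : 0 ≤ M := (norm_nonneg _).trans (hM 0)
    have e : ∑ x ∈ s, c x * ⟪u, π (sg * ex x) u⟫_ℂ = ⟪u, π (sg * ∑ x ∈ s, c x • ex x) u⟫_ℂ := by
      simp only [Finset.mul_sum, map_sum, _root_.sum_apply, inner_sum, mul_smul_comm, map_smul,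
        _root_.smul_apply, inner_smul_right]
    have h1 : ‖sg * ∑ x ∈ s, c x • ex x‖ ≤ M := (BoundedContinuousFunction.norm_le M0).2 fun x => by
      rw [mul_apply, norm_mul, sg_apply, norm_exp_I_mul_ofReal, one_mul, coe_sum, Finset.sum_apply]
      exact hM _
    rw [e]
    refine (norm_inner_le_norm _ _).trans ((mul_le_mul_of_nonneg_left ((nπ _ _).trans
      (mul_le_mul_of_nonneg_right h1 (norm_nonneg _))) (norm_nonneg _)).trans ?_)
    have := mul_le_mul hu hu (norm_nonneg _) (norm_nonneg _)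
    nlinarith
  set K : Submodule ℂ ω.GNS := ⨅ h : ω.GNS, ms fun l => π (ex (-l)) h with hK
  have memK : ∀ v, v ∈ K ↔ ∀ h, AEMeasurable fun l => ⟪h, π (ex l) v⟫_ℂ := fun v => by
    rw [hK, Submodule.mem_iInf]
    refine forall_congr' fun h => ?_
    show AEMeasurable (fun l => ⟪π (ex (-l)) h, v⟫_ℂ) ↔ _
    simp only [hadj, ex_star, neg_neg]
  have Kc : IsClosed (K : Set ω.GNS) := by
    rw [hK, Submodule.coe_iInf]
    exact isClosed_iInter fun h => meas_closed _
  have := Kc.completeSpace_coe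
  have inv : ∀ a, ∀ v ∈ K, π a v ∈ K := fun a v hv => (memK _).2 fun h => by
    have := (memK v).1 hv (π (star a) h)
    simpa only [hadj, star_star, hmul, mul_comm a] using this
  let Kc : Submodule ℂ ω.GNS :=
    { carrier := {v | Continuous fun l => π (ex l) v}
      add_mem' := fun ha hb => by simp only [mem_ofPred_eq, map_add]; exact Continuous.add ha hb
      zero_mem' := by simp only [mem_ofPred_eq, map_zero]; exact continuous_const
      smul_mem' := fun c _ ha => by
        simp only [mem_ofPred_eq, map_smul]; exact Continuous.const_smul ha c }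
  have Kcc : IsClosed (Kc : Set ω.GNS) := by
    refine isClosed_of_closure_subset fun v hv => continuous_of_uniform_approx_of_continuous ?_
    intro s hs
    obtain ⟨ε, ε0, hε⟩ := Metric.mem_uniformity_dist.1 hs
    obtain ⟨u, hu, hd⟩ := Metric.mem_closure_iff.1 hv ε ε0
    refine ⟨fun l => π (ex l) u, hu, fun l => hε ?_⟩
    rw [dist_eq_norm, ← map_sub]
    exact (nU _ _).trans_lt (by rwa [← dist_eq_norm])
  have := Kcc.completeSpace_coe
  have invc : ∀ a, ∀ v ∈ Kc, π a v ∈ Kc := fun a v hv => by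
    have := (π a).continuous.comp (show Continuous fun l => π (ex l) v from hv)
    show Continuous fun l => π (ex l) (π a v)
    simpa only [Function.comp_def, hmul, mul_comm a] using this
  set ξ0 := K.starProjection ξ with hξ0
  have m0 : ξ0 ∈ K := Submodule.starProjection_apply_mem K ξ
  set ξc := Kc.starProjection ξ0 with hξc
  have mc : ξc ∈ Kc := Submodule.starProjection_apply_mem Kc ξ0
  have n0 : ‖ξ0‖ ≤ ‖ξ‖ := K.norm_starProjection_apply_le ξ
  have gm : AEMeasurable fun l => ⟪ξ0, π (sg * ex l) ξ0⟫_ℂ := by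
    have := (memK _).1 (inv sg _ m0) ξ0
    simpa only [hmul, mul_comm _ sg] using this
  refine ⟨fun l => ⟪ξ0, π (sg * ex l) ξ0⟫_ℂ, fun l => ⟪ξc, π (sg * ex l) ξc⟫_ℂ, fun l hl => ?_, gm,
    bd _ n0, ?_, bd _ ((Kc.norm_starProjection_apply_le ξ0).trans n0), ?_⟩
  · have hg : ∀ l ∈ J, ⟪ξ - ξ0, π (ex l) (π sg (ξ - ξ0))⟫_ℂ =
        f l - ⟪ξ0, π (sg * ex l) ξ0⟫_ℂ := fun l hl => by
      rw [← hf l hl, ← hω, split K inv, hmul, mul_comm (ex l)]; ring
    refine (sub_eq_zero.1 ((hg l hl).symm.trans ?_)).symm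
    refine key (fun l => π (ex l)) hadj' hmul' _ _ (fun v hv => inner_eq_zero_symm.1
      (Submodule.starProjection_inner_eq_zero ξ v ((memK v).2 hv))) J hJ ?_ l hl
    exact (AEMeasurable.sub hm gm.restrict).congr
      ((ae_restrict_iff' hJ.measurableSet).2 (Eventually.of_forall fun l hl => (hg l hl).symm))
  · have := (show Continuous fun l => π (ex l) (π sg ξc) from invc sg _ mc)
    simp only [hmul, mul_comm _ sg] at this
    exact continuous_const.inner this
  · have mk : ξ0 - ξc ∈ K := K.sub_mem m0 ((memK _).2 fun h =>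
      (continuous_const.inner (show Continuous fun l => π (ex l) ξc from mc)).aemeasurable)
    filter_upwards [null_part (fun l => π (ex l)) hadj' hmul' nU (ξ0 - ξc) ((memK _).1 mk)
      (fun h hh => inner_eq_zero_symm.1 (Submodule.starProjection_inner_eq_zero (K := Kc) ξ0 h hh))
      (π (star sg) (ξ0 - ξc))] with l hl
    rw [hadj, star_star, hmul] at hl
    rw [split Kc invc _ ξ0, ← hξc, hl, add_zero]

end Pool.Agent.H22.Wm
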