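import Mathlib
import Pool.Agent.H22.Perc3

set_option autoImplicit false
open MeasureTheory ProbabilityTheory Set

namespace Pool.Agent.H22.Zoo
open Pool.Agent.H22.Perc3
noncomputable section

abbrev Z2 := ℤ × ℤ

def near (x y : Z2) (r : ℤ) : Prop :=
  -r ≤ y.1 - x.1 ∧ y.1 - x.1 ≤ r ∧ -r ≤ y.2 - x.2 ∧ y.2 - x.2 ≤ r

def lat : SimpleGraph Z2 where
  Adj a b := |a.1 - b.1| + |a.2 - b.2| = 1
  symm := ⟨fun a b h => by rw [abs_sub_comm b.1, abs_sub_comm b.2]; exact h⟩
  loopless := ⟨fun a h => by simp at h⟩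

lemma adj_near {a b : Z2} (h : lat.Adj a b) : near a b 1 := by
  simp only [lat, Int.abs_eq_natAbs] at h
  unfold near; omega

def stp (S : Set Z2) (a b : Z2) : Prop := a ∈ S ∧ b ∈ S ∧ lat.Adj a b

lemma rtg_symm {S : Set Z2} {a b : Z2} (h : Relation.ReflTransGen (stp S) a b) :
    Relation.ReflTransGen (stp S) b a := by
  induction h with
  | refl => exact Relation.ReflTransGen.refl
  | tail _ h ih => exact Relation.ReflTransGen.head ⟨h.2.1, h.1, h.2.2.symm⟩ ih

lemma first_exit {S : Set Z2} {x u w : Z2} {r : ℤ} (h : Relation.ReflTransGen (stp S) u w)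
    (hw : ¬ near x w r) (hu : near x u r) : ∃ w', ¬ near x w' r ∧
      Relation.ReflTransGen (stp (S ∩ {a | near x a (r + 1)})) u w' := by
  induction h using Relation.ReflTransGen.head_induction_on with
  | refl => exact (hw hu).elim
  | @head a c h' _ ih =>
    have h1 := adj_near h'.2.2
    have ha : near x a (r + 1) := by unfold near at *; omega
    have hc : near x c (r + 1) := by unfold near at *; omega
    have h2 : stp (S ∩ {a | near x a (r + 1)}) a c := ⟨⟨h'.1, ha⟩, ⟨h'.2.1, hc⟩, h'.2.2⟩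
    by_cases h3 : near x c r
    · obtain ⟨w', h4, h5⟩ := ih h3
      exact ⟨w', h4, h5.head h2⟩
    · exact ⟨c, h3, Relation.ReflTransGen.single h2⟩

lemma rtg_mono {S T : Set Z2} (h : S ⊆ T) {a b : Z2} (h1 : Relation.ReflTransGen (stp S) a b) :
    Relation.ReflTransGen (stp T) a b := by
  induction h1 with
  | refl => exact Relation.ReflTransGen.refl
  | tail _ h2 ih => exact ih.tail ⟨h h2.1, h h2.2.1, h2.2.2⟩

lemma rtg_end {S : Set Z2} {a b : Z2} (h : Relation.ReflTransGen (stp S) a b) : a = b ∨ b ∈ S := by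
  induction h with
  | refl => exact Or.inl rfl
  | tail _ h _ => exact Or.inr h.2.1

def Perc (S : Set Z2) : Prop := ∃ c : (lat.induce S).ConnectedComponent, c.supp.Infinite

lemma box_fin (x : Z2) (r : ℤ) : {y | near x y r}.Finite := by
  refine ((finite_Icc (x.1 - r) (x.1 + r)).prod (finite_Icc (x.2 - r) (x.2 + r))).subset ?_
  intro y hy
  simp only [near, mem_ofPred_eq, mem_prod, mem_Icc] at hy ⊢
  omega

lemma perc_far {S : Set Z2} (h : Perc S) :
    ∃ y, ∀ r : ℤ, ∃ w, ¬ near y w r ∧ Relation.ReflTransGen (stp S) y w := by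
  obtain ⟨c, hc⟩ := h
  obtain ⟨y, hy⟩ := hc.nonempty
  refine ⟨y.1, fun r => ?_⟩
  have h1 : (Subtype.val ⁻¹' {w | near y.1 w r} : Set S).Finite :=
    (box_fin y.1 r).preimage Subtype.val_injective.injOn
  obtain ⟨w, hw, h2⟩ := hc.exists_notMem_finite h1
  refine ⟨w.1, h2, ?_⟩
  rw [SimpleGraph.ConnectedComponent.mem_supp_iff] at hy hw
  obtain ⟨p⟩ := SimpleGraph.ConnectedComponent.eq.1 (hy.trans hw.symm)
  clear hy hw h1 h2
  induction p with
  | nil => exact Relation.ReflTransGen.refl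
  | @cons a b _ h _ ih => exact ih.head ⟨a.2, b.2, h⟩

lemma numeric (a ε : ℕ → ℝ) (K : ℝ) (hK : 0 < K) (h0 : ∀ j, 0 ≤ a j)
    (h1 : ∀ j, a (j + 1) ≤ K * a j ^ 2 + ε j) (h2 : ∀ j, ε j ≤ 1 / (4 * K)) (h3 : a 0 ≤ 1 / (2 * K))
    (h4 : ∀ (m : ℕ) (η : ℝ), 0 < η → ∃ j, ∀ i ≤ m, ε (j + i) ≤ η) (δ : ℝ) (hδ : 0 < δ) :
    ∃ j, a j + ε j ≤ δ := by
  have b : ∀ j, a j ≤ 1 / (2 * K) := by
    intro j
    induction j with
    | zero => exact h3
    | succ j ih =>
      have : K * a j ^ 2 ≤ K * (1 / (2 * K)) ^ 2 :=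
        mul_le_mul_of_nonneg_left (pow_le_pow_left₀ (h0 j) ih 2) hK.le
      have e : K * (1 / (2 * K)) ^ 2 + 1 / (4 * K) = 1 / (2 * K) := by field_simp; ring
      linarith [h1 j, h2 j]
  have c : ∀ j, a (j + 1) ≤ a j / 2 + ε j := by
    intro j
    have h5 : K * a j ≤ 1 / 2 := by
      have := mul_le_mul_of_nonneg_left (b j) hK.le
      have e : K * (1 / (2 * K)) = 1 / 2 := by field_simp
      linarith
    nlinarith [h1 j, h0 j]
  obtain ⟨m, hm⟩ := exists_pow_lt_of_lt_one (show 0 < δ / 4 / (1 / (2 * K)) by positivity)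
    (show (1 / 2 : ℝ) < 1 by norm_num)
  obtain ⟨j, hj⟩ := h4 m (δ / 4) (by positivity)
  have d : ∀ i ≤ m, a (j + i) ≤ (1 / 2) ^ i * (1 / (2 * K)) + δ / 2 := by
    intro i
    induction i with
    | zero => intro _; simp only [add_zero, pow_zero, one_mul]; linarith [b j]
    | succ i ih =>
      intro hi
      have := c (j + i)
      have := ih (by omega)
      have := hj i (by omega)
      rw [← add_assoc, pow_succ]
      linarith
  refine ⟨j + m, ?_⟩
  have := d m le_rfl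
  have := hj m le_rfl
  rw [lt_div_iff₀ (by positivity)] at hm
  linarith

lemma po_mean (v : NNReal) : ∑' i : ℕ, poissonMeasure v (Ioi i) = v := by
  have h1 : ∀ i : ℕ, poissonMeasure v (Ioi i)
      = ∑' n : ℕ, (Ioi i).indicator (1 : ℕ → ENNReal) n * poissonMeasure v {n} := by
    intro i
    rw [← lintegral_countable', lintegral_indicator_one measurableSet_Ioi]
  simp_rw [h1]
  rw [ENNReal.tsum_comm]
  simp_rw [ENNReal.tsum_mul_right]
  have h2 : ∀ n : ℕ, ∑' i : ℕ, (Ioi i).indicator (1 : ℕ → ENNReal) n = n := by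
    intro n
    rw [tsum_eq_sum (s := Finset.range n) (fun i hi => by simp at hi; simp [hi]),
      Finset.sum_congr rfl (g := fun _ => 1) (fun i hi => by simp at hi; simp [hi])]
    simp
  simp_rw [h2]
  rw [tsum_eq_zero_add' ENNReal.summable]
  have h3 : ∀ n : ℕ, ((n + 1 : ℕ) : ENNReal) * poissonMeasure v {n + 1}
      = v * (1 * poissonMeasure v {n}) := by
    intro n
    rw [one_mul, poissonMeasure_singleton, poissonMeasure_singleton, ← ENNReal.ofReal_natCast,
      ← ENNReal.ofReal_coe_nnreal, ← ENNReal.ofReal_mul (by positivity),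
      ← ENNReal.ofReal_mul (by positivity)]
    congr 1
    rw [Nat.factorial_succ]
    push_cast
    field_simp
    ring
  simp_rw [h3]
  rw [ENNReal.tsum_mul_left, ← lintegral_countable' (fun _ => 1)]
  simp

variable {𝒜 : Type} [MeasurableSpace 𝒜]

def site (v : NNReal) (ν : Measure 𝒜) : Measure (ℕ × (ℕ → 𝒜)) :=
  (poissonMeasure v).prod (Measure.infinitePi fun _ : ℕ => ν)

instance (v : NNReal) (ν : Measure 𝒜) [IsProbabilityMeasure ν] :
    IsProbabilityMeasure (site v ν) := by unfold site; infer_instance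

def law (v : NNReal) (ν : Measure 𝒜) : Measure (Z2 → ℕ × (ℕ → 𝒜)) :=
  Measure.infinitePi fun _ => site v ν

def has (B : Set 𝒜) : Set (ℕ × (ℕ → 𝒜)) := {q | ∃ i < q.1, q.2 i ∈ B}

omit [MeasurableSpace 𝒜] in
lemma has_eq (B : Set 𝒜) : has B = ⋃ i : ℕ, (Ioi i) ×ˢ {f : ℕ → 𝒜 | f i ∈ B} := by
  ext q; simp [has]

lemma has_meas {B : Set 𝒜} (hB : MeasurableSet B) : MeasurableSet (has B) := by
  rw [has_eq]
  exact MeasurableSet.iUnion fun i => measurableSet_Ioi.prod (measurable_pi_apply i hB)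

lemma has_le (v : NNReal) (ν : Measure 𝒜) [IsProbabilityMeasure ν] {B : Set 𝒜}
    (hB : MeasurableSet B) : site v ν (has B) ≤ v * ν B := by
  rw [has_eq]
  refine (measure_iUnion_le _).trans (le_of_eq ?_)
  simp_rw [site, Measure.prod_prod, ev_eq _ _ _ hB]
  rw [ENNReal.tsum_mul_right, po_mean]

def occ (H : 𝒜 → Set Z2) (ω : Z2 → ℕ × (ℕ → 𝒜)) : Set Z2 :=
  {y | ∃ x, ∃ i < (ω x).1, y - x ∈ H ((ω x).2 i)}

def small (H : 𝒜 → Set Z2) (r : ℤ) : Set 𝒜 := {a | ∀ z ∈ H a, near 0 z r}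

def Sm (H : 𝒜 → Set Z2) (r : ℤ) (ω : Z2 → ℕ × (ℕ → 𝒜)) : Set Z2 :=
  {y | ∃ x, ω x ∈ has (small H r ∩ {a | y - x ∈ H a})}

def A (H : 𝒜 → Set Z2) (r : ℤ) (x : Z2) : Set (Z2 → ℕ × (ℕ → 𝒜)) :=
  ⋃ (u : Z2) (w : Z2) (_ : near x u r ∧ ¬ near x w (3 * r - 1)),
    {ω | Relation.ReflTransGen (stp (Sm H r ω ∩ {a | near x a (3 * r)})) u w}

def hit (H : 𝒜 → Set Z2) (r R : ℤ) (w : Z2) : Set 𝒜 := (small H r)ᶜ ∩ {a | ∃ z ∈ H a, near w z R}

def Big (H : 𝒜 → Set Z2) (r R : ℤ) (x : Z2) : Set (Z2 → ℕ × (ℕ → 𝒜)) :=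
  ⋃ w : Z2, {ω | ω (x - w) ∈ has (hit H r R w)}

def err (H : 𝒜 → Set Z2) (ν : Measure 𝒜) (r R : ℤ) : ENNReal := ∑' w : Z2, ν (hit H r R w)

variable {H : 𝒜 → Set Z2} (hH : ∀ z, MeasurableSet {a | z ∈ H a})
include hH

lemma small_meas (r : ℤ) : MeasurableSet (small H r) := by
  have : small H r = ⋂ z, {a | z ∈ H a}ᶜ ∪ {_a | near 0 z r} := by
    ext a
    simp only [small, mem_ofPred_eq, mem_iInter, mem_union, mem_compl_iff]
    exact forall_congr' fun z => by tauto
  rw [this]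
  exact MeasurableSet.iInter fun z => (hH z).compl.union (MeasurableSet.const _)

lemma hit_meas (r R : ℤ) (w : Z2) : MeasurableSet (hit H r R w) := by
  refine (small_meas hH r).compl.inter ?_
  have : {a | ∃ z ∈ H a, near w z R} = ⋃ z, {a | z ∈ H a} ∩ {_a | near w z R} := by
    ext a; simp
  rw [this]
  exact MeasurableSet.iUnion fun z => (hH z).inter (MeasurableSet.const _)

lemma Big_le (v : NNReal) (ν : Measure 𝒜) [IsProbabilityMeasure ν] (r R : ℤ) (x : Z2) :
    law v ν (Big H r R x) ≤ v * err H ν r R := by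
  refine (measure_iUnion_le _).trans ?_
  rw [err, ← ENNReal.tsum_mul_left]
  refine ENNReal.tsum_le_tsum fun w => ?_
  rw [law, ev_eq _ _ _ (has_meas (hit_meas hH r R w))]
  exact has_le v ν (hit_meas hH r R w)

lemma A_meas (r : ℤ) (x : Z2) :
    MeasurableSet[cylinderEvents {x' | near x x' (4 * r)}] (A H r x) := by
  have h1 : ∀ y, MeasurableSet[cylinderEvents {x' | near x x' (4 * r)}]
      {ω : Z2 → ℕ × (ℕ → 𝒜) | y ∈ Sm H r ω ∩ {a | near x a (3 * r)}} := by
    intro y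
    have : {ω : Z2 → ℕ × (ℕ → 𝒜) | y ∈ Sm H r ω ∩ {a | near x a (3 * r)}}
        = ⋃ (x' : Z2) (_ : near x x' (4 * r) ∧ near x y (3 * r)),
          {ω | ω x' ∈ has (small H r ∩ {a | y - x' ∈ H a})} := by
      ext ω
      simp only [Sm, mem_inter_iff, mem_ofPred_eq, mem_iUnion]
      constructor
      · rintro ⟨⟨x', h1⟩, h2⟩
        refine ⟨x', ⟨?_, h2⟩, h1⟩
        obtain ⟨i, -, h3, h4⟩ := h1
        have := h3 _ h4
        simp only [near, Prod.fst_sub, Prod.snd_sub, Prod.fst_zero, Prod.snd_zero] at this h2 ⊢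
        omega
      · rintro ⟨x', h1, h2⟩
        exact ⟨⟨x', h2⟩, h1.2⟩
    rw [this]
    exact MeasurableSet.iUnion fun x' => MeasurableSet.iUnion fun h =>
      ev_meas {x' | near x x' (4 * r)} x' h.1 _ (has_meas ((small_meas hH r).inter (hH _)))
  refine MeasurableSet.iUnion fun u => MeasurableSet.iUnion fun w => MeasurableSet.iUnion fun _ => ?_
  refine rtg_meas _ (fun ω => stp (Sm H r ω ∩ {a | near x a (3 * r)})) (fun a b => ?_) u w
  exact (h1 a).inter ((h1 b).inter (MeasurableSet.const _))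

omit hH [MeasurableSpace 𝒜] in
lemma mem_A {r : ℤ} {x u w : Z2} {ω : Z2 → ℕ × (ℕ → 𝒜)} (hr : 1 ≤ r) (hu : near x u r)
    (hw : ¬ near x w (3 * r - 1)) (h : Relation.ReflTransGen (stp (Sm H r ω)) u w) :
    ω ∈ A H r x := by
  obtain ⟨w', h1, h2⟩ := first_exit h hw (by unfold near at *; omega)
  simp only [A, mem_iUnion]
  exact ⟨u, w', ⟨hu, h1⟩, by simpa using h2⟩

omit hH [MeasurableSpace 𝒜] in
lemma not_Big {r R : ℤ} {x : Z2} {ω : Z2 → ℕ × (ℕ → 𝒜)} (h : ω ∉ Big H r R x) :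
    occ H ω ∩ {a | near x a R} ⊆ Sm H r ω := by
  rintro y ⟨⟨x', i, hi, h1⟩, h2⟩
  refine ⟨x', i, hi, ?_, h1⟩
  by_contra h3
  apply h
  simp only [Big, mem_iUnion]
  refine ⟨x - x', i, by simpa using hi, by simpa using h3, y - x', by simpa using h1, ?_⟩
  simp only [near, mem_ofPred_eq, Prod.fst_sub, Prod.snd_sub] at h2 ⊢
  omega

omit hH [MeasurableSpace 𝒜] in
lemma Sm_sub (r : ℤ) (ω : Z2 → ℕ × (ℕ → 𝒜)) : Sm H r ω ⊆ occ H ω :=
  fun _ ⟨x, i, hi, _, h⟩ => ⟨x, i, hi, h⟩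

def grid (x : Z2) (r : ℤ) (p : Fin 37 × Fin 37) : Z2 :=
  (x.1 + r * ((p.1 : ℕ) - 18), x.2 + r * ((p.2 : ℕ) - 18))

omit hH in
lemma grid1 (d r : ℤ) (hr : 1 ≤ r) (h1 : -(18 * r) ≤ d) (h2 : d ≤ 18 * r) :
    ∃ i : Fin 37, r * ((i : ℕ) - 18) ≤ d ∧ d < r * ((i : ℕ) - 18) + r := by
  have a1 := Int.mul_ediv_add_emod d r
  have a2 := Int.emod_nonneg d (show r ≠ 0 by omega)
  have a3 := Int.emod_lt_of_pos d (show 0 < r by omega)
  have b1 : -19 < d / r := by
    by_contra hh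
    have : r * (d / r) ≤ r * (-19) := mul_le_mul_of_nonneg_left (by omega) (by omega)
    omega
  have b2 : d / r < 19 := by
    by_contra hh
    have : r * 19 ≤ r * (d / r) := mul_le_mul_of_nonneg_left (by omega) (by omega)
    omega
  refine ⟨⟨(d / r + 18).toNat, by omega⟩, ?_⟩
  have : (((d / r + 18).toNat : ℕ) : ℤ) - 18 = d / r := by omega
  simp only [this]
  omega

omit hH in
lemma grid_ex {x u : Z2} {r : ℤ} (hr : 1 ≤ r) (h : near x u (18 * r)) :
    ∃ p, near (grid x r p) u r := by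
  obtain ⟨i, hi⟩ := grid1 (u.1 - x.1) r hr h.1 h.2.1
  obtain ⟨j, hj⟩ := grid1 (u.2 - x.2) r hr h.2.2.1 h.2.2.2
  refine ⟨(i, j), ?_⟩
  simp only [near, grid]
  omega

omit hH [MeasurableSpace 𝒜] in
lemma A_sub (r : ℤ) (hr : 1 ≤ r) (x : Z2) : A H (6 * r) x ⊆ Big H r (18 * r) x ∪
    ⋃ (q : (Fin 37 × Fin 37) × (Fin 37 × Fin 37)) (_ : ¬ near (grid x r q.1) (grid x r q.2) (8 * r)),
      A H r (grid x r q.1) ∩ A H r (grid x r q.2) := by
  intro ω h
  by_cases hb : ω ∈ Big H r (18 * r) x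
  · exact Or.inl hb
  right
  simp only [A, mem_iUnion] at h
  obtain ⟨u, w, ⟨h1, h2⟩, h3⟩ := h
  have hw : near x w (18 * r) := by
    rcases rtg_end h3 with rfl | h4
    · unfold near at *; omega
    · have := h4.2
      simp only [near, mem_ofPred_eq] at this ⊢
      omega
  have h4 : Relation.ReflTransGen (stp (Sm H r ω)) u w := by
    refine rtg_mono (fun y hy => not_Big hb ⟨Sm_sub _ _ hy.1, ?_⟩) h3
    have := hy.2
    simp only [near, mem_ofPred_eq] at this ⊢
    omega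
  obtain ⟨p, hp⟩ := grid_ex hr (show near x u (18 * r) by unfold near at *; omega)
  obtain ⟨q, hq⟩ := grid_ex hr hw
  simp only [mem_iUnion]
  refine ⟨(p, q), ?_, mem_A hr hp ?_ h4, mem_A hr hq ?_ (rtg_symm h4)⟩
  · unfold near at *; simp only; omega
  · unfold near at *; simp only; omega
  · unfold near at *; simp only; omega

lemma A_rec (v : NNReal) (ν : Measure 𝒜) [IsProbabilityMeasure ν] (r : ℤ) (hr : 1 ≤ r) (x : Z2)
    (c : ENNReal) (hc : ∀ y, law v ν (A H r y) ≤ c) :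
    law v ν (A H (6 * r) x) ≤ 1874161 * c ^ 2 + v * err H ν r (18 * r) := by
  classical
  refine (measure_mono (A_sub r hr x)).trans ((measure_union_le _ _).trans ?_)
  rw [add_comm]
  refine add_le_add ((measure_iUnion_fintype_le _ _).trans ?_) (Big_le hH v ν _ _ _)
  refine (Finset.sum_le_sum (g := fun _ => c ^ 2) fun q _ => ?_).trans (le_of_eq ?_)
  · by_cases h : ¬ near (grid x r q.1) (grid x r q.2) (8 * r)
    · rw [iUnion_eq_if, if_pos h, law, ind _ ?_ (A_meas hH r _) (A_meas hH r _), sq]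
      · exact mul_le_mul' (hc _) (hc _)
      · rw [disjoint_left]
        intro y h1 h2
        apply h
        simp only [near, mem_ofPred_eq] at h1 h2 ⊢
        omega
    · rw [iUnion_eq_if, if_neg h]; simp
  · simp

omit hH in
lemma A_one (v : NNReal) (ν : Measure 𝒜) [IsProbabilityMeasure ν] (x : Z2) :
    law v ν (A H 1 x) ≤ 1874161 * v := by
  have : A H 1 x ⊆ ⋃ p : Fin 37 × Fin 37, {ω | ω (grid x 1 p) ∈ has univ} := by
    intro ω h
    simp only [A, mem_iUnion] at h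
    obtain ⟨u, w, ⟨h1, h2⟩, h3⟩ := h
    rcases rtg_end h3 with rfl | ⟨⟨x', i, hi, h4, h5⟩, h6⟩
    · exact (h2 (by unfold near at *; omega)).elim
    · have h7 := h4 _ h5
      simp only [near, mem_ofPred_eq, Prod.fst_sub, Prod.snd_sub, Prod.fst_zero, Prod.snd_zero]
        at h6 h7
      refine mem_iUnion.2 ⟨(⟨(x'.1 - x.1 + 18).toNat, by omega⟩, ⟨(x'.2 - x.2 + 18).toNat, by omega⟩), ?_⟩
      have : grid x 1 (⟨(x'.1 - x.1 + 18).toNat, by omega⟩, ⟨(x'.2 - x.2 + 18).toNat, by omega⟩) = x' := by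
        refine Prod.ext ?_ ?_ <;> simp only [grid] <;> omega
      rw [mem_ofPred_eq, this]
      exact ⟨i, hi, trivial⟩
  refine (measure_mono this).trans ((measure_iUnion_fintype_le _ _).trans ?_)
  refine (Finset.sum_le_sum (g := fun _ => (v : ENNReal)) fun q _ => ?_).trans ?_
  · rw [law, ev_eq _ _ _ (has_meas MeasurableSet.univ)]
    simpa using has_le v ν MeasurableSet.univ
  · simp only [Finset.sum_const, Finset.card_univ, Fintype.card_prod, Fintype.card_fin, nsmul_eq_mul]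
    gcongr
    norm_num

theorem main (ν : Measure 𝒜) [IsProbabilityMeasure ν] (C : NNReal)
    (h1 : ∀ j : ℕ, err H ν (6 ^ j) (18 * 6 ^ j) ≤ C)
    (h2 : ∀ (m : ℕ) (η : NNReal), 0 < η → ∃ j, ∀ i ≤ m, err H ν (6 ^ (j + i)) (18 * 6 ^ (j + i)) ≤ η) :
    ∃ v0 : NNReal, 0 < v0 ∧ ∀ v ≤ v0, law v ν {ω | Perc (occ H ω)} = 0 := by
  refine ⟨1 / (4 * 1874161 ^ 2 * (C + 1)), by positivity, fun v hv => ?_⟩
  have : IsProbabilityMeasure (law v ν) := by unfold law; infer_instance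
  have hv' : (v : ℝ) * (C + 1) ≤ 1 / (4 * 1874161 ^ 2) := by
    have : (v : ℝ) ≤ 1 / (4 * 1874161 ^ 2 * (C + 1)) := by exact_mod_cast hv
    rw [le_div_iff₀ (by positivity)] at this ⊢
    linarith
  have hv0 : (0 : ℝ) ≤ v := v.2
  have hC0 : (0 : ℝ) ≤ C := C.2
  let a : ℕ → ENNReal := fun j => ⨆ x, law v ν (A H (6 ^ j) x)
  let e : ℕ → ENNReal := fun j => v * err H ν (6 ^ j) (18 * 6 ^ j)
  have at' : ∀ j, a j ≠ ⊤ := fun j => ne_top_of_le_ne_top ENNReal.one_ne_top (iSup_le fun x => prob_le_one)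
  have ert : ∀ j : ℕ, err H ν (6 ^ j) (18 * 6 ^ j) ≠ ⊤ := fun j =>
    ne_top_of_le_ne_top ENNReal.coe_ne_top (h1 j)
  have et : ∀ j, e j ≠ ⊤ := fun j => ENNReal.mul_ne_top ENNReal.coe_ne_top (ert j)
  have hp : ∀ j : ℕ, (1 : ℤ) ≤ 6 ^ j := fun j => one_le_pow₀ (by norm_num)
  have key := numeric (fun j => (a j).toReal) (fun j => (e j).toReal) 1874161 (by norm_num)
    (fun j => ENNReal.toReal_nonneg) (by
      intro j
      have : a (j + 1) ≤ 1874161 * a j ^ 2 + e j := by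
        refine iSup_le fun x => ?_
        rw [pow_succ']
        exact A_rec hH v ν _ (hp j) x _ (fun y => le_iSup (fun x => law v ν (A H (6 ^ j) x)) y)
      have := ENNReal.toReal_mono (by have := at' j; have := et j; finiteness) this
      rw [ENNReal.toReal_add (by have := at' j; finiteness) (et j)] at this
      simpa using this) (by
      intro j
      have := ENNReal.toReal_mono ENNReal.coe_ne_top (h1 j)
      simp only [e, ENNReal.toReal_mul, ENNReal.coe_toReal] at this ⊢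
      have := mul_le_mul_of_nonneg_left this hv0
      nlinarith) (by
      have : a 0 ≤ 1874161 * v := iSup_le fun x => A_one v ν x
      have := ENNReal.toReal_mono (by finiteness) this
      simp only [ENNReal.toReal_mul, ENNReal.coe_toReal, ENNReal.toReal_ofNat] at this
      nlinarith) (by
      intro m η hη
      lift η to NNReal using hη.le
      obtain ⟨j, hj⟩ := h2 m η hη
      refine ⟨j, fun i hi => ?_⟩
      have := ENNReal.toReal_mono ENNReal.coe_ne_top (hj i hi)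
      simp only [e, ENNReal.toReal_mul, ENNReal.coe_toReal] at this ⊢
      have := mul_le_mul_of_nonneg_left this hv0
      nlinarith)
  have e1 : {ω | Perc (occ H ω)} ⊆ ⋃ y : Z2, ⋂ j : ℕ, (A H (6 ^ j) y ∪ Big H (6 ^ j) (18 * 6 ^ j) y) := by
    intro ω h
    obtain ⟨y, hy⟩ := perc_far h
    refine mem_iUnion.2 ⟨y, mem_iInter.2 fun j => ?_⟩
    by_cases hb : ω ∈ Big H (6 ^ j) (18 * 6 ^ j) y
    · exact Or.inr hb
    left
    have := hp j
    obtain ⟨w, h3, h4⟩ := hy (3 * 6 ^ j - 1)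
    have hy0 : near y y (6 ^ j) := by unfold near; omega
    obtain ⟨w', h5, h6⟩ := first_exit h4 h3 (by unfold near; omega)
    refine mem_A (hp j) hy0 h5 (rtg_mono (fun z hz => not_Big hb ⟨hz.1, ?_⟩) h6)
    have := hz.2
    simp only [near, mem_ofPred_eq] at this ⊢
    omega
  refine measure_mono_null e1 (measure_iUnion_null fun y => ?_)
  refine le_antisymm (ENNReal.le_of_forall_pos_le_add fun δ hδ _ => ?_) (by simp)
  obtain ⟨j, hj⟩ := key δ hδ
  refine (measure_mono (iInter_subset _ j)).trans ((measure_union_le _ _).trans ?_)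
  refine (add_le_add (le_iSup (fun x => law v ν (A H (6 ^ j) x)) y) (Big_le hH v ν _ _ _)).trans ?_
  rw [zero_add, ← ENNReal.toReal_le_toReal (ENNReal.add_ne_top.2 ⟨at' j, et j⟩) ENNReal.coe_ne_top,
    ENNReal.toReal_add (at' j) (et j)]
  exact hj

lemma err_eq (ν : Measure 𝒜) (r R : ℤ) : err H ν r R =
    ∫⁻ a, (small H r)ᶜ.indicator (fun a => ({w | ∃ z ∈ H a, near w z R}.encard : ENNReal)) a ∂ν := by
  unfold err
  simp_rw [← lintegral_indicator_one (hit_meas hH r R _)]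
  rw [← lintegral_tsum fun w => (measurable_one.indicator (hit_meas hH r R w)).aemeasurable]
  congr 1
  funext a
  by_cases h : a ∈ small H r
  · simp [hit, h]
  · rw [indicator_of_mem (show a ∈ (small H r)ᶜ from h), ← ENNReal.tsum_set_one,
      tsum_subtype {w | ∃ z ∈ H a, near w z R} (fun _ => (1 : ENNReal))]
    congr 1
    funext w
    by_cases h2 : ∃ z ∈ H a, near w z R
    · rw [indicator_of_mem (show a ∈ hit H r R w from ⟨h, h2⟩),
        indicator_of_mem (show w ∈ {w | ∃ z ∈ H a, near w z R} from h2)]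
      rfl
    · rw [indicator_of_notMem (show a ∉ hit H r R w from fun hh => h2 hh.2),
        indicator_of_notMem (show w ∉ {w | ∃ z ∈ H a, near w z R} from h2)]

end
end Pool.Agent.H22.Zoo
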