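import Mathlib
import Pool.Agent.H22.Zoo

set_option autoImplicit false
open MeasureTheory ProbabilityTheory Set

namespace Pool.Agent.H22.Zoo
noncomputable section

def rect (A B : ℕ) : Set Z2 := {w | -(A : ℤ) ≤ w.1 ∧ w.1 ≤ A ∧ -(B : ℤ) ≤ w.2 ∧ w.2 ≤ B}

lemma rect_card (A B : ℕ) : ((rect A B).encard : ENNReal) = ((2 * A + 1) * (2 * B + 1) : ℕ) := by
  have : rect A B = ((Finset.Icc (-(A : ℤ)) A) ×ˢ (Finset.Icc (-(B : ℤ)) B) : Finset Z2) := by
    ext w
    simp only [rect, mem_ofPred_eq, Finset.coe_product, mem_prod, Finset.mem_coe, Finset.mem_Icc,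
      and_assoc]
  rw [this, encard_coe_eq_coe_finsetCard, Finset.card_product, Int.card_Icc, Int.card_Icc]
  have h1 : ((A : ℤ) + 1 - -(A : ℤ)).toNat = 2 * A + 1 := by omega
  have h2 : ((B : ℤ) + 1 - -(B : ℤ)).toNat = 2 * B + 1 := by omega
  rw [h1, h2]
  rfl

lemma card_le {S : Set Z2} {A B : ℕ} (h : S ⊆ rect A B) :
    (S.encard : ENNReal) ≤ ((2 * A + 1) * (2 * B + 1) : ℕ) := by
  rw [← rect_card]
  exact ENat.toENNReal_le.2 (encard_le_encard h)

lemma lac_int (w : ℕ → ENNReal) (h0 : tsum w ≠ 0) (h1 : tsum w ≠ ⊤) (l : ℕ → ℕ) (G : ℕ → ENNReal) :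
    ∫⁻ L, G L ∂((PMF.normalize w h0 h1).map l).toMeasure = (∑' k, G (l k) * w k) * (tsum w)⁻¹ := by
  rw [← PMF.toMeasure_map _ _ Measurable.of_discrete,
    lintegral_map Measurable.of_discrete Measurable.of_discrete, lintegral_countable',
    ← ENNReal.tsum_mul_right]
  congr 1
  funext k
  rw [PMF.toMeasure_apply_singleton _ _ (measurableSet_singleton _), PMF.normalize_apply, mul_assoc]

lemma pmf_tsum (m : PMF ℕ) (G : ℕ → ENNReal) : ∑' L, G L * m L = ∫⁻ L, G L ∂m.toMeasure := by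
  rw [lintegral_countable']
  congr 1
  funext k
  rw [PMF.toMeasure_apply_singleton _ _ (measurableSet_singleton _)]

lemma geo_tail (j t : ℕ) :
    ∑' n : ℕ, (if j + t ≤ n then (6 : ENNReal) ^ j * (6 ^ n)⁻¹ else 0) ≤ 2 * 2⁻¹ ^ t := by
  rw [← Summable.sum_add_tsum_nat_add' (k := j + t) ENNReal.summable]
  rw [Finset.sum_eq_zero (fun n hn => if_neg (by simpa using hn)), zero_add]
  have : ∀ n : ℕ, (if j + t ≤ n + (j + t) then (6 : ENNReal) ^ j * (6 ^ (n + (j + t)))⁻¹ else 0)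
      ≤ 2⁻¹ ^ n * 2⁻¹ ^ t := by
    intro n
    rw [if_pos (by omega), show n + (j + t) = j + (n + t) by omega, pow_add,
      ENNReal.mul_inv (by simp) (by simp), ← mul_assoc,
      ENNReal.mul_inv_cancel (by simp) (by simp), one_mul, ← pow_add, ENNReal.inv_pow]
    gcongr
    norm_num
  refine (ENNReal.tsum_le_tsum this).trans (le_of_eq ?_)
  rw [ENNReal.tsum_mul_right, ENNReal.tsum_geometric]
  simp

lemma small_pow (c : ENNReal) (hc : c ≠ ⊤) (η : NNReal) (hη : 0 < η) : ∃ t : ℕ, c * 2⁻¹ ^ t ≤ η := by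
  have h := ENNReal.Tendsto.const_mul (a := c)
    (ENNReal.tendsto_pow_atTop_nhds_zero_of_lt_one (r := 2⁻¹) (by simp)) (Or.inr hc)
  rw [mul_zero] at h
  exact (h.eventually (ge_mem_nhds (show (0 : ENNReal) < η by exact_mod_cast hη))).exists

def dir : Fin 4 → Z2 := ![(1, 0), (-1, 0), (0, 1), (0, -1)]

def ray (a : Fin 4 × ℕ) : Set Z2 := {z | ∃ t : ℕ, t ≤ a.2 ∧ z = (t : ℤ) • dir a.1}

lemma ray_meas (z : Z2) : MeasurableSet {a | z ∈ ray a} := (to_countable _).measurableSet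

lemma ray_bd (r : ℕ) (hr : 1 ≤ r) (a : Fin 4 × ℕ) :
    (small ray r)ᶜ.indicator (fun a => ({w | ∃ z ∈ ray a, near w z (18 * r)}.encard : ENNReal)) a
      ≤ if r < a.2 then ((1443 * a.2 * r : ℕ) : ENNReal) else 0 := by
  obtain ⟨d, L⟩ := a
  by_cases h : r < L
  · rw [if_pos h]
    refine (indicator_le_self _ _ _).trans ?_
    have h1 : {w | ∃ z ∈ ray (d, L), near w z (18 * r)} ⊆ rect (L + 18 * r) (18 * r) ∨
        {w | ∃ z ∈ ray (d, L), near w z (18 * r)} ⊆ rect (18 * r) (L + 18 * r) := by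
      fin_cases d
      · left
        rintro w ⟨z, ⟨t, ht, rfl⟩, h2⟩
        simp [near, dir, rect] at ht h2 ⊢; omega
      · left
        rintro w ⟨z, ⟨t, ht, rfl⟩, h2⟩
        simp [near, dir, rect] at ht h2 ⊢; omega
      · right
        rintro w ⟨z, ⟨t, ht, rfl⟩, h2⟩
        simp [near, dir, rect] at ht h2 ⊢; omega
      · right
        rintro w ⟨z, ⟨t, ht, rfl⟩, h2⟩
        simp [near, dir, rect] at ht h2 ⊢; omega
    have h3 : (2 * (L + 18 * r) + 1) * (2 * (18 * r) + 1) ≤ 1443 * L * r := by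
      calc (2 * (L + 18 * r) + 1) * (2 * (18 * r) + 1) ≤ (39 * L) * (37 * r) :=
            Nat.mul_le_mul (by omega) (by omega)
        _ = 1443 * L * r := by ring
    rcases h1 with h1 | h1
    · exact (card_le h1).trans (by exact_mod_cast h3)
    · exact (card_le h1).trans (by rw [mul_comm]; exact_mod_cast h3)
  · rw [if_neg h, indicator_of_notMem]
    simp only [mem_compl_iff, not_not]
    rintro z ⟨t, ht, rfl⟩
    fin_cases d <;> simp [near, dir] at ht h ⊢ <;> omega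

theorem rays : ∃ m : PMF ℕ, ∑' L : ℕ, ((L : ENNReal) + 1) ^ 2 * m L = ⊤ ∧ ∃ v0 : NNReal, 0 < v0 ∧
    ∀ v ≤ v0, law v ((PMF.uniformOfFintype (Fin 4)).toMeasure.prod m.toMeasure)
      {ω | Perc (occ ray ω)} = 0 := by
  let w : ℕ → ENNReal := fun k => ((6 ^ (k ^ 2)) ^ 2)⁻¹
  have h0 : tsum w ≠ 0 := fun h => by simpa [w] using ENNReal.tsum_eq_zero.1 h 0
  have h1 : tsum w ≠ ⊤ := by
    have : ∀ k, w k ≤ 2⁻¹ ^ k := by
      intro k
      simp only [w]
      rw [← ENNReal.inv_pow, ENNReal.inv_le_inv, ← pow_mul]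
      calc (2 : ENNReal) ^ k ≤ 6 ^ k := by gcongr; norm_num
        _ ≤ 6 ^ (k ^ 2 * 2) := pow_le_pow_right₀ (by norm_num) (by nlinarith)
    refine ne_top_of_le_ne_top ?_ (ENNReal.tsum_le_tsum this)
    rw [ENNReal.tsum_geometric]; simp
  have hZ : (tsum w)⁻¹ ≠ ⊤ := by simpa using h0
  refine ⟨(PMF.normalize w h0 h1).map (fun k => 6 ^ (k ^ 2)), ?_, ?_⟩
  · rw [pmf_tsum _ (fun L => ((L : ENNReal) + 1) ^ 2), lac_int]
    rw [ENNReal.mul_eq_top]
    right
    refine ⟨?_, by simpa using h1⟩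
    refine eq_top_iff.2 (le_trans (le_of_eq (ENNReal.tsum_const_eq_top_of_ne_zero
      (α := ℕ) one_ne_zero).symm) (ENNReal.tsum_le_tsum fun k => ?_))
    simp only [w]
    rw [← ENNReal.mul_inv_cancel (a := ((6 : ENNReal) ^ (k ^ 2)) ^ 2) (by simp) (by simp)]
    gcongr
    push_cast
    exact le_self_add
  · have key : ∀ j t : ℕ, (∀ k, j < k ^ 2 → j + t ≤ k ^ 2) →
        err ray ((PMF.uniformOfFintype (Fin 4)).toMeasure.prod
          ((PMF.normalize w h0 h1).map (fun k => 6 ^ (k ^ 2))).toMeasure) (6 ^ j) (18 * 6 ^ j)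
        ≤ (1443 * 2 * (tsum w)⁻¹) * 2⁻¹ ^ t := by
      intro j t ht
      rw [err_eq ray_meas]
      have hb := ray_bd (6 ^ j) (Nat.one_le_pow _ _ (by norm_num))
      push_cast at hb
      refine (lintegral_mono hb).trans ((lintegral_prod_le _).trans ?_)
      simp only [lintegral_const, measure_univ, mul_one]
      rw [lac_int w h0 h1 _ (fun L => if 6 ^ j < L then 1443 * (L : ENNReal) * 6 ^ j else 0)]
      have h2 : ∀ k : ℕ, (if 6 ^ j < 6 ^ (k ^ 2) then 1443 * ((6 ^ (k ^ 2) : ℕ) : ENNReal) * 6 ^ j else 0)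
          * w k ≤ 1443 * (if j + t ≤ k ^ 2 then (6 : ENNReal) ^ j * (6 ^ (k ^ 2))⁻¹ else 0) := by
        intro k
        by_cases h : 6 ^ j < 6 ^ (k ^ 2)
        · rw [if_pos h, if_pos (ht k ((Nat.pow_lt_pow_iff_right (by norm_num)).1 h))]
          simp only [w]
          push_cast
          rw [sq ((6 : ENNReal) ^ (k ^ 2)), ENNReal.mul_inv (by simp) (by simp)]
          have := ENNReal.mul_inv_cancel (a := (6 : ENNReal) ^ (k ^ 2)) (by simp) (by simp)
          calc (1443 : ENNReal) * 6 ^ k ^ 2 * 6 ^ j * ((6 ^ k ^ 2)⁻¹ * (6 ^ k ^ 2)⁻¹)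
              = 1443 * (6 ^ j * (6 ^ k ^ 2)⁻¹) * (6 ^ k ^ 2 * (6 ^ k ^ 2)⁻¹) := by ring
            _ ≤ _ := by rw [this, mul_one]
        · rw [if_neg h]; simp
      have h3 := ENNReal.tsum_comp_le_tsum_of_injective (f := fun k : ℕ => k ^ 2)
        (Nat.pow_left_injective (by norm_num))
        (fun n => if j + t ≤ n then (6 : ENNReal) ^ j * (6 ^ n)⁻¹ else 0)
      have h4 := (ENNReal.tsum_le_tsum h2).trans (le_of_eq ENNReal.tsum_mul_left)
      calc _ ≤ (1443 * (2 * 2⁻¹ ^ t)) * (tsum w)⁻¹ :=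
            mul_le_mul' (h4.trans (mul_le_mul' le_rfl (h3.trans (geo_tail j t)))) le_rfl
        _ = _ := by ring
    have hc : (1443 * 2 * (tsum w)⁻¹ : ENNReal) ≠ ⊤ := ENNReal.mul_ne_top (by finiteness) hZ
    refine main ray_meas _ (1443 * 2 * (tsum w)⁻¹).toNNReal (fun j => ?_) (fun m η hη => ?_)
    · rw [ENNReal.coe_toNNReal hc]
      simpa using key j 0 (fun k hk => by omega)
    · obtain ⟨t, ht⟩ := small_pow _ hc η hη
      refine ⟨(m + t) ^ 2, fun i hi => (key _ t fun k hk => ?_).trans ht⟩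
      have : m + t + 1 ≤ k := by
        by_contra hh
        have : k ^ 2 ≤ (m + t) ^ 2 := Nat.pow_le_pow_left (by omega) 2
        omega
      nlinarith

end
end Pool.Agent.H22.Zoo
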