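import Mathlib
import Pool.Agent.H22.ZooRay

set_option autoImplicit false
open MeasureTheory ProbabilityTheory Set

namespace Pool.Agent.H22.Zoo
open Pool.Agent.H22.Perc3
noncomputable section

abbrev St := ℕ → Fin 4

def U4 : Measure (Fin 4) := (PMF.uniformOfFintype (Fin 4)).toMeasure

instance : IsProbabilityMeasure U4 := by unfold U4; infer_instance

lemma U4_single (d : Fin 4) : U4 {d} = 4⁻¹ := by
  rw [U4, PMF.toMeasure_apply_singleton _ _ (measurableSet_singleton _)]; simp

def Q : Measure St := Measure.infinitePi fun _ : ℕ => U4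

instance : IsProbabilityMeasure Q := by unfold Q; infer_instance

def pos (s : St) (t : ℕ) : Z2 := ∑ i ∈ Finset.range t, dir (s i)

lemma pos_cyl (t : ℕ) : Measurable[cylinderEvents (Iio t)] (fun s : St => pos s t) :=
  Finset.measurable_sum _ fun _ hi => (Measurable.of_discrete (f := dir)).comp
    (measurable_cylinderEvent_apply (X := fun _ => Fin 4) (Finset.mem_range.1 hi))

lemma pos_meas (t : ℕ) : Measurable (fun s : St => pos s t) :=
  (pos_cyl t).mono cylinderEvents_le_pi le_rfl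

lemma pos_cyl' (t : ℕ) (x : Z2) : MeasurableSet[cylinderEvents (Iio t)] {s : St | pos s t = x} :=
  pos_cyl t (measurableSet_singleton x)

lemma pos_meas' (t : ℕ) (x : Z2) : MeasurableSet {s : St | pos s t = x} :=
  pos_meas t (measurableSet_singleton x)

def shf (t : ℕ) (s : St) : St := fun i => s (t + i)

lemma pos_add (s : St) (t u : ℕ) : pos s (t + u) = pos s t + pos (shf t s) u :=
  Finset.sum_range_add _ _ _

lemma shf_cyl (t : ℕ) : Measurable[cylinderEvents (Ici t)] (shf t) :=
  @measurable_pi_lambda _ _ _ (cylinderEvents (Ici t)) _ _ fun i =>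
    measurable_cylinderEvent_apply (X := fun _ => Fin 4) (show t + i ∈ Ici t by simp)

lemma shf_pre (t : ℕ) {B : Set St} (hB : MeasurableSet B) : Q (shf t ⁻¹' B) = Q B := by
  rw [← Measure.map_apply ((shf_cyl t).mono cylinderEvents_le_pi le_rfl) hB]
  congr 1
  exact Measure.map_infinitePi_infinitePi_of_inj (P := fun _ : ℕ => U4) (add_right_injective t)

lemma markov (t : ℕ) {A B : Set St} (hA : MeasurableSet[cylinderEvents (Iio t)] A)
    (hB : MeasurableSet B) : Q (A ∩ shf t ⁻¹' B) = Q A * Q B := by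
  rw [← shf_pre t hB]
  exact ind _ (Iio_disjoint_Ici le_rfl) hA (shf_cyl t hB)

/-! Maximal inequality. -/
def Sf (f : Fin 4 → ℝ) (s : St) (t : ℕ) : ℝ := ∑ i ∈ Finset.range t, f (s i)

def mx (f : Fin 4 → ℝ) (s : St) : ℕ → ℝ
  | 0 => 0
  | t + 1 => max (mx f s t) (Sf f s (t + 1))

lemma Sf_cyl (f : Fin 4 → ℝ) (t n : ℕ) (h : t ≤ n) :
    Measurable[cylinderEvents (Iio n)] (fun s : St => Sf f s t) :=
  Finset.measurable_sum _ fun _ hi => (Measurable.of_discrete (f := f)).comp
    (measurable_cylinderEvent_apply (X := fun _ => Fin 4)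
      (lt_of_lt_of_le (Finset.mem_range.1 hi) h))

lemma mx_cyl (f : Fin 4 → ℝ) (t n : ℕ) (h : t ≤ n) :
    Measurable[cylinderEvents (Iio n)] (fun s : St => mx f s t) := by
  induction t with
  | zero => exact @measurable_const _ _ _ (cylinderEvents _) _
  | succ t ih => exact Measurable.max (ih (by omega)) (Sf_cyl f _ n h)

lemma Sf_meas (f : Fin 4 → ℝ) (t : ℕ) : Measurable (fun s : St => Sf f s t) :=
  (Sf_cyl f t t le_rfl).mono cylinderEvents_le_pi le_rfl

lemma mx_meas (f : Fin 4 → ℝ) (t : ℕ) : Measurable (fun s : St => mx f s t) :=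
  (mx_cyl f t t le_rfl).mono cylinderEvents_le_pi le_rfl

lemma Sf_succ (f : Fin 4 → ℝ) (s : St) (t : ℕ) : Sf f s (t + 1) = Sf f s t + f (s t) :=
  Finset.sum_range_succ _ _

lemma Sf_abs {f : Fin 4 → ℝ} (hf : ∀ d, |f d| ≤ 1) (s : St) (t : ℕ) : |Sf f s t| ≤ t := by
  induction t with
  | zero => simp [Sf]
  | succ t ih =>
    rw [Sf_succ]
    push_cast
    exact (abs_add_le _ _).trans (add_le_add ih (hf _))

lemma mx_abs {f : Fin 4 → ℝ} (hf : ∀ d, |f d| ≤ 1) (s : St) (t : ℕ) : |mx f s t| ≤ t := by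
  induction t with
  | zero => simp [mx]
  | succ t ih =>
    have := Sf_abs hf s (t + 1)
    rw [mx]
    push_cast at this ⊢
    exact abs_max_le_max_abs_abs.trans (max_le (by linarith) this)

lemma Sf_le_mx (f : Fin 4 → ℝ) (s : St) (t n : ℕ) (h : t ≤ n) : Sf f s t ≤ mx f s n := by
  induction n, h using Nat.le_induction with
  | base => cases t with
    | zero => simp [Sf, mx]
    | succ t => exact le_max_right _ _
  | succ n _ ih => exact ih.trans (le_max_left _ _)

lemma zero_mean {f : Fin 4 → ℝ} (h0 : ∑ d, f d = 0) (n : ℕ) (c : St → ℝ)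
    (hc : Measurable[cylinderEvents (Iio n)] c) : ∫ s, c s * f (s n) ∂Q = 0 := by
  have h1 : iIndepFun (fun (i : ℕ) (ω : St) => ω i) Q :=
    iIndepFun_infinitePi (X := fun _ x => x) (fun _ => measurable_id)
  have h2 : Indep (cylinderEvents (Iio n)) (cylinderEvents (X := fun _ => Fin 4) {n}) Q :=
    indep_iSup_of_disjoint (fun i => (measurable_pi_apply i).comap_le) h1.iIndep (by simp)
  have hm : Measurable[cylinderEvents (X := fun _ => Fin 4) {n}] (fun s : St => f (s n)) :=
    (Measurable.of_discrete (f := f)).comp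
      (measurable_cylinderEvent_apply (X := fun _ => Fin 4) rfl)
  have h3 : IndepFun c (fun s : St => f (s n)) Q :=
    (IndepFun_iff_Indep _ _ _).2 (indep_of_indep_of_le h2 hc.comap_le hm.comap_le)
  rw [h3.integral_fun_mul_eq_mul_integral
    (hc.mono cylinderEvents_le_pi le_rfl).aestronglyMeasurable
    (hm.mono cylinderEvents_le_pi le_rfl).aestronglyMeasurable]
  have h4 : ∫ s, f (s n) ∂Q = 0 := by
    rw [← integral_map (measurable_pi_apply n).aemeasurable
      (Measurable.of_discrete (f := f)).aestronglyMeasurable, Q, Measure.infinitePi_map_eval,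
      integral_fintype Integrable.of_finite]
    simp only [measureReal_def, U4_single, smul_eq_mul, ← Finset.mul_sum, h0, mul_zero]
  rw [h4, mul_zero]

lemma intg {g : St → ℝ} (hg : Measurable g) (C : ℝ) (h : ∀ s, |g s| ≤ C) : Integrable g Q :=
  Integrable.of_bound hg.aestronglyMeasurable C (Filter.Eventually.of_forall h)

lemma doob {f : Fin 4 → ℝ} (hf : ∀ d, |f d| ≤ 1) (h0 : ∑ d, f d = 0) (n : ℕ) :
    Integrable (fun s => mx f s n ^ 2) Q ∧ ∫ s, mx f s n ^ 2 ∂Q ≤ 4 * n := by
  let W : ℕ → St → ℝ := fun n s => 2 * mx f s n ^ 2 - 4 * mx f s n * Sf f s n + 4 * Sf f s n ^ 2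
  have hW : ∀ n, Integrable (W n) Q := by
    intro n
    refine intg ?_ (10 * n ^ 2) fun s => ?_
    · have := mx_meas f n
      have := Sf_meas f n
      fun_prop
    · have h1 := abs_le.1 (mx_abs hf s n)
      have h2 := abs_le.1 (Sf_abs hf s n)
      simp only [W]
      rw [abs_le]
      constructor <;> nlinarith
  have h1 : ∀ n, ∫ s, W n s ∂Q ≤ 4 * n := by
    intro n
    induction n with
    | zero => simp [W, mx, Sf]
    | succ n ih =>
      have hc : Measurable[cylinderEvents (Iio n)] (fun s => 8 * Sf f s n - 4 * mx f s n) :=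
        ((Sf_cyl f n n le_rfl).const_mul 8).sub ((mx_cyl f n n le_rfl).const_mul 4)
      have hi : Integrable (fun s => (8 * Sf f s n - 4 * mx f s n) * f (s n)) Q := by
        refine intg ((hc.mono cylinderEvents_le_pi le_rfl).mul
          ((Measurable.of_discrete (f := f)).comp (measurable_pi_apply n))) (12 * n) fun s => ?_
        have h1 := abs_le.1 (mx_abs hf s n)
        have h2 := abs_le.1 (Sf_abs hf s n)
        rw [abs_mul]
        have h3 : |8 * Sf f s n - 4 * mx f s n| ≤ 12 * n := by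
          rw [abs_le]; constructor <;> linarith
        calc _ ≤ (12 * n : ℝ) * 1 := mul_le_mul h3 (hf _) (abs_nonneg _) (by positivity)
          _ = _ := mul_one _
      have h2 : ∀ s, W (n + 1) s ≤ W n s + (8 * Sf f s n - 4 * mx f s n) * f (s n) + 4 := by
        intro s
        have h3 := abs_le.1 (hf (s n))
        simp only [W, mx, Sf_succ]
        rcases le_total (mx f s n) (Sf f s n + f (s n)) with h | h
        · rw [max_eq_right h]
          nlinarith [sq_nonneg (mx f s n - (Sf f s n + f (s n)))]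
        · rw [max_eq_left h]
          nlinarith
      have hi2 : Integrable (fun s => W n s + (8 * Sf f s n - 4 * mx f s n) * f (s n)) Q :=
        (hW n).add hi
      have hi3 : Integrable (fun s => W n s + (8 * Sf f s n - 4 * mx f s n) * f (s n) + 4) Q :=
        hi2.add (integrable_const 4)
      refine (integral_mono (hW _) hi3 h2).trans ?_
      rw [integral_add hi2 (integrable_const 4), integral_add (hW n) hi,
        zero_mean h0 n _ hc]
      simp
      linarith
  have h2 : Integrable (fun s => mx f s n ^ 2) Q := by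
    refine intg ((mx_meas f n).pow_const 2) (n ^ 2) fun s => ?_
    rw [abs_pow]
    exact pow_le_pow_left₀ (abs_nonneg _) (mx_abs hf s n) 2
  refine ⟨h2, (integral_mono h2 (hW n) fun s => ?_).trans (h1 n)⟩
  simp only [W]
  nlinarith [sq_nonneg (mx f s n - 2 * Sf f s n)]

def fx (d : Fin 4) : ℝ := (dir d).1
def fy (d : Fin 4) : ℝ := (dir d).2

def GG (n : ℕ) (s : St) : ℝ :=
  mx fx s n ^ 2 + mx (fun d => -fx d) s n ^ 2 + mx fy s n ^ 2 + mx (fun d => -fy d) s n ^ 2

lemma GG_meas (n : ℕ) : Measurable (GG n) :=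
  ((((mx_meas _ n).pow_const 2).add ((mx_meas _ n).pow_const 2)).add
    ((mx_meas _ n).pow_const 2)).add ((mx_meas _ n).pow_const 2)

lemma GG_int (n : ℕ) : ∫⁻ s, ENNReal.ofReal (GG n s) ∂Q ≤ 16 * n := by
  have a1 := doob (f := fx) (by intro d; fin_cases d <;> simp [fx, dir])
    (by simp [Fin.sum_univ_four, fx, dir]) n
  have a2 := doob (f := fun d => -fx d) (by intro d; fin_cases d <;> simp [fx, dir])
    (by simp [Fin.sum_univ_four, fx, dir]) n
  have a3 := doob (f := fy) (by intro d; fin_cases d <;> simp [fy, dir])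
    (by simp [Fin.sum_univ_four, fy, dir]) n
  have a4 := doob (f := fun d => -fy d) (by intro d; fin_cases d <;> simp [fy, dir])
    (by simp [Fin.sum_univ_four, fy, dir]) n
  have b1 : Integrable (fun s => mx fx s n ^ 2 + mx (fun d => -fx d) s n ^ 2) Q := a1.1.add a2.1
  have b2 : Integrable (fun s => mx fx s n ^ 2 + mx (fun d => -fx d) s n ^ 2 + mx fy s n ^ 2) Q :=
    b1.add a3.1
  have b3 : Integrable (GG n) Q := b2.add a4.1
  rw [← ofReal_integral_eq_lintegral_ofReal b3
    (Filter.Eventually.of_forall fun s => by unfold GG; positivity)]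
  have : (16 * n : ENNReal) = ENNReal.ofReal (16 * n) := by
    rw [ENNReal.ofReal_mul (by norm_num), ENNReal.ofReal_natCast, ENNReal.ofReal_ofNat]
  rw [this]
  apply ENNReal.ofReal_le_ofReal
  unfold GG
  rw [integral_add b2 a4.1, integral_add b1 a3.1, integral_add a1.1 a2.1]
  linarith [a1.2, a2.2, a3.2, a4.2]

lemma pos_GG (s : St) (t n : ℕ) (h : t ≤ n) :
    (((pos s t).1 : ℝ)) ^ 2 ≤ GG n s ∧ (((pos s t).2 : ℝ)) ^ 2 ≤ GG n s := by
  have e1 : ((pos s t).1 : ℝ) = Sf fx s t := by simp [pos, Sf, fx, Prod.fst_sum]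
  have e2 : ((pos s t).2 : ℝ) = Sf fy s t := by simp [pos, Sf, fy, Prod.snd_sum]
  have key : ∀ f : Fin 4 → ℝ, Sf f s t ^ 2 ≤ mx f s n ^ 2 + mx (fun d => -f d) s n ^ 2 := by
    intro f
    have h1 := Sf_le_mx f s t n h
    have h2 := Sf_le_mx (fun d => -f d) s t n h
    have h3 : Sf (fun d => -f d) s t = - Sf f s t := by simp [Sf]
    rcases le_total 0 (Sf f s t) with h4 | h4 <;> nlinarith
  rw [e1, e2]
  unfold GG
  have := key fx
  have := key fy
  constructor <;> nlinarith

/-! Recurrence. -/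
def pr (n : ℕ) (x : Z2) : ENNReal := Q {s | pos s n = x}

lemma pr_ne (n : ℕ) (x : Z2) : pr n x ≠ ⊤ := measure_ne_top _ _

lemma pr_neg (n : ℕ) (x : Z2) : pr n (-x) = pr n x := by
  let opp : Fin 4 → Fin 4 := ![1, 0, 3, 2]
  have h1 : ∀ d, dir (opp d) = - dir d := by intro d; fin_cases d <;> simp [opp, dir]
  have h2 : U4.map opp = U4 := by
    refine Measure.ext_of_singleton fun d => ?_
    rw [Measure.map_apply Measurable.of_discrete (measurableSet_singleton _)]
    have : opp ⁻¹' {d} = {opp d} := by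
      ext e
      simp only [mem_preimage, mem_singleton_iff]
      revert d e; decide
    rw [this, U4_single, U4_single]
  have h3 : Q.map (fun s i => opp (s i)) = Q := by
    rw [Q, Measure.infinitePi_map_pi _ (fun _ => Measurable.of_discrete)]
    simp_rw [h2]
  unfold pr
  conv_rhs => rw [← h3]
  rw [Measure.map_apply (by fun_prop) (pos_meas' n x)]
  congr 1
  ext s
  simp only [pos, mem_ofPred_eq, mem_preimage, h1, Finset.sum_neg_distrib]
  exact ⟨fun h => by rw [h, neg_neg], fun h => by rw [← h, neg_neg]⟩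

lemma pr_two (n : ℕ) (B : Finset Z2) : ∑ x ∈ B, pr n x ^ 2 ≤ pr (n + n) 0 := by
  have h1 : ∀ x, pr n x ^ 2 = Q ({s | pos s n = x} ∩ shf n ⁻¹' {s | pos s n = -x}) := by
    intro x
    rw [markov n (pos_cyl' n x) (pos_meas' n _), sq]
    congr 1
    exact (pr_neg n x).symm
  simp_rw [h1]
  rw [← measure_biUnion_finset]
  · refine measure_mono ?_
    intro s hs
    simp only [mem_iUnion, mem_inter_iff, mem_ofPred_eq, mem_preimage] at hs ⊢
    obtain ⟨x, -, h2, h3⟩ := hs
    rw [pos_add, h2, h3, add_neg_cancel]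
  · intro x _ y _ hxy
    rw [Function.onFun, disjoint_left]
    exact fun s h2 h3 => hxy (h2.1.symm.trans h3.1)
  · exact fun x _ => (pos_meas n (measurableSet_singleton x)).inter
      (((shf_cyl n).mono cylinderEvents_le_pi le_rfl) (pos_meas n (measurableSet_singleton _)))

lemma pr_low (n : ℕ) (hn : 1 ≤ n) : 1 / (2704 * n) ≤ (pr (n + n) 0).toReal := by
  set a : ℕ := 6 * (Nat.sqrt n + 1) with ha
  let B : Finset Z2 := (Finset.Icc (-(a : ℤ)) a) ×ˢ (Finset.Icc (-(a : ℤ)) a)
  have hB : B.card = (2 * a + 1) * (2 * a + 1) := by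
    have h1 : ((a : ℤ) + 1 - -(a : ℤ)).toNat = 2 * a + 1 := by omega
    simp only [B]
    rw [Finset.card_product, Int.card_Icc, h1]
  have s1 := Nat.sqrt_le n
  have s2 := Nat.lt_succ_sqrt n
  have s3 : 1 ≤ Nat.sqrt n := Nat.le_sqrt.2 hn
  have hB' : (B.card : ℝ) ≤ 676 * n := by
    have : B.card ≤ 676 * n := by
      rw [hB]
      calc (2 * a + 1) * (2 * a + 1) ≤ (26 * Nat.sqrt n) * (26 * Nat.sqrt n) :=
            Nat.mul_le_mul (by omega) (by omega)
        _ = 676 * (Nat.sqrt n * Nat.sqrt n) := by ring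
        _ ≤ _ := by omega
    exact_mod_cast this
  have h1 : Q {s | pos s n ∈ B}ᶜ ≤ 2⁻¹ := by
    have h2 : {s | pos s n ∈ B}ᶜ ⊆ {s | ((32 * n : ℕ) : ENNReal) ≤ ENNReal.ofReal (GG n s)} := by
      intro s hs
      have h3 := pos_GG s n n le_rfl
      simp only [B, mem_compl_iff, mem_ofPred_eq, Finset.mem_product, Finset.mem_Icc] at hs
      rw [mem_ofPred_eq, ← ENNReal.ofReal_natCast]
      apply ENNReal.ofReal_le_ofReal
      have h4 : 32 * n ≤ a * a := by rw [ha]; nlinarith
      have h5 : ∀ z : ℤ, ¬ (-(a : ℤ) ≤ z ∧ z ≤ a) → ((32 * n : ℕ) : ℝ) ≤ (z : ℝ) ^ 2 := by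
        intro z hz
        have h6 : ((32 * n : ℕ) : ℤ) ≤ (a : ℤ) * a := by exact_mod_cast h4
        have : ((32 * n : ℕ) : ℤ) ≤ z ^ 2 := by
          rcases not_and_or.1 hz with h | h <;> nlinarith
        exact_mod_cast this
      rcases not_and_or.1 hs with h | h
      · exact (h5 _ h).trans h3.1
      · exact (h5 _ h).trans h3.2
    have h3 := (mul_meas_ge_le_lintegral₀ (μ := Q) (GG_meas n).ennreal_ofReal.aemeasurable
      ((32 * n : ℕ) : ENNReal)).trans (GG_int n)
    refine (measure_mono h2).trans ?_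
    rw [← ENNReal.mul_le_mul_iff_right (a := ((32 * n : ℕ) : ENNReal)) (by simp; omega) (by finiteness)]
    refine h3.trans (le_of_eq ?_)
    push_cast
    rw [show (32 : ENNReal) = 16 * 2 by norm_num, mul_assoc, mul_assoc, mul_comm (n : ENNReal),
      ← mul_assoc 2, ENNReal.mul_inv_cancel (by simp) (by simp), one_mul]
  have h2 : (1 / 2 : ℝ) ≤ ∑ x ∈ B, (pr n x).toReal := by
    have h3 : (1 : ENNReal) ≤ ∑ x ∈ B, pr n x + 2⁻¹ := by
      rw [← measure_univ (μ := Q), ← union_compl_self {s | pos s n ∈ B}]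
      refine (measure_union_le _ _).trans (add_le_add ?_ h1)
      refine le_trans (measure_mono ?_) (measure_biUnion_finset_le _ _)
      intro s hs
      simp only [mem_iUnion, mem_ofPred_eq]
      exact ⟨_, hs, rfl⟩
    have h4 : ∀ x, pr n x ≠ ⊤ := fun x => measure_ne_top _ _
    have h5 := ENNReal.toReal_mono (ENNReal.add_ne_top.2 ⟨ENNReal.sum_ne_top.2 fun x _ => h4 x, by simp⟩) h3
    rw [ENNReal.toReal_add (ENNReal.sum_ne_top.2 fun x _ => h4 x) (by simp),
      ENNReal.toReal_sum fun x _ => h4 x] at h5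
    simp at h5
    linarith
  have h3 := sq_sum_le_card_mul_sum_sq (s := B) (f := fun x => (pr n x).toReal)
  have h4 := ENNReal.toReal_mono (pr_ne _ _) (pr_two n B)
  rw [ENNReal.toReal_sum fun x _ => ENNReal.pow_ne_top (pr_ne _ _)] at h4
  simp only [ENNReal.toReal_pow] at h4
  have h5 : (0 : ℝ) ≤ ∑ x ∈ B, (pr n x).toReal ^ 2 := by positivity
  have hn' : (1 : ℝ) ≤ n := by exact_mod_cast hn
  rw [div_le_iff₀ (by positivity)]
  have h6 : (1 / 2 : ℝ) ^ 2 ≤ (∑ x ∈ B, (pr n x).toReal) ^ 2 := pow_le_pow_left₀ (by norm_num) h2 2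
  have h7 := mul_le_mul hB' h4 h5 (by positivity)
  change _ ≤ 676 * (n : ℝ) * (pr (n + n) 0).toReal at h7
  nlinarith

def NR (T : ℕ) : Set St := {s | ∀ u, 1 ≤ u → u ≤ T → pos s u ≠ 0}

lemma NR_meas (T : ℕ) : MeasurableSet (NR T) := by
  have : NR T = ⋂ (u : ℕ) (_ : 1 ≤ u) (_ : u ≤ T), {s | pos s u = 0}ᶜ := by
    ext s; simp [NR]
  rw [this]
  exact MeasurableSet.iInter fun u => MeasurableSet.iInter fun _ => MeasurableSet.iInter fun _ =>
    (pos_meas u (measurableSet_singleton 0)).compl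

lemma NR_mul (n : ℕ) : (∑ t ∈ Finset.range n, pr (t + 1 + (t + 1)) 0) * Q (NR (2 * n)) ≤ 1 := by
  rw [Finset.sum_mul]
  have h1 : ∀ t, pr t 0 * Q (NR (2 * n)) = Q ({s | pos s t = 0} ∩ shf t ⁻¹' NR (2 * n)) := fun t =>
    (markov t (pos_cyl t (measurableSet_singleton 0)) (NR_meas _)).symm
  simp_rw [h1]
  rw [← measure_biUnion_finset]
  · exact prob_le_one
  · have key : ∀ x y, x < y → y < n → Disjoint
        ({s | pos s (x + 1 + (x + 1)) = 0} ∩ shf (x + 1 + (x + 1)) ⁻¹' NR (2 * n))
        ({s | pos s (y + 1 + (y + 1)) = 0} ∩ shf (y + 1 + (y + 1)) ⁻¹' NR (2 * n)) := by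
      intro x y hxy hy
      rw [disjoint_left]
      rintro s ⟨h2, h3⟩ ⟨h4, -⟩
      apply h3 (2 * (y - x)) (by omega) (by omega)
      have := pos_add s (x + 1 + (x + 1)) (2 * (y - x))
      rw [show x + 1 + (x + 1) + 2 * (y - x) = y + 1 + (y + 1) by omega, h4, h2, zero_add] at this
      exact this.symm
    intro x hx y hy hxy
    rcases lt_or_gt_of_ne hxy with h | h
    · exact key x y h (by simpa using hy)
    · exact (key y x h (by simpa using hx)).symm
  · exact fun x _ => (pos_meas _ (measurableSet_singleton 0)).inter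
      (((shf_cyl _).mono cylinderEvents_le_pi le_rfl) (NR_meas _))

lemma NR_small (c : ℕ) : ∃ T, (c : ENNReal) * Q (NR T) ≤ 1 := by
  obtain ⟨n, hn⟩ := (Real.tendsto_sum_range_one_div_nat_succ_atTop.eventually
    (Filter.eventually_ge_atTop (2704 * c : ℝ))).exists
  refine ⟨2 * n, le_trans (mul_le_mul' ?_ le_rfl) (NR_mul n)⟩
  rw [← ENNReal.toReal_le_toReal (by simp) (ENNReal.sum_ne_top.2 fun x _ => pr_ne _ _),
    ENNReal.toReal_sum fun x _ => pr_ne _ _]
  refine le_trans ?_ (Finset.sum_le_sum fun t _ => pr_low (t + 1) (by omega))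
  have : ∑ t ∈ Finset.range n, 1 / (2704 * ((t + 1 : ℕ) : ℝ))
      = (∑ t ∈ Finset.range n, 1 / ((t : ℝ) + 1)) / 2704 := by
    rw [Finset.sum_div]
    refine Finset.sum_congr rfl fun t _ => ?_
    push_cast
    field_simp
  rw [this, le_div_iff₀ (by norm_num)]
  simp only [ENNReal.toReal_natCast]
  linarith

end
end Pool.Agent.H22.Zoo
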