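import Mathlib
import Pool.Agent.H22.ZooWalk

set_option autoImplicit false
open MeasureTheory ProbabilityTheory Set

namespace Pool.Agent.H22.Zoo
noncomputable section

def worm (a : ℕ × St) : Set Z2 := {z | ∃ t ≤ a.1, z = pos a.2 t}

lemma worm_meas (z : Z2) : MeasurableSet {a | z ∈ worm a} := by
  have : {a : ℕ × St | z ∈ worm a} = ⋃ t : ℕ, (Ici t) ×ˢ {s | pos s t = z} := by
    ext a; simp [worm, eq_comm]
  rw [this]
  exact MeasurableSet.iUnion fun t => measurableSet_Ici.prod (pos_meas' t z)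

def FF (r : ℕ) (a : ℕ × St) : ENNReal :=
  (small worm r)ᶜ.indicator (fun a => ({w | ∃ z ∈ worm a, near w z (18 * r)}.encard : ENNReal)) a

lemma pos_near (s : St) (t : ℕ) : near 0 (pos s t) t := by
  induction t with
  | zero => simp [near, pos]
  | succ t ih =>
    have : pos s (t + 1) = pos s t + dir (s t) := Finset.sum_range_succ _ _
    rw [this]
    generalize s t = d
    fin_cases d <;> simp [near, dir] at ih ⊢ <;> omega

lemma FF_zero (r L : ℕ) (h : L ≤ r) (s : St) : FF r (L, s) = 0 := by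
  refine indicator_of_notMem ?_ _
  simp only [mem_compl_iff, not_not]
  rintro z ⟨t, ht, rfl⟩
  have := pos_near s t
  simp only [near] at this ht ⊢
  omega

lemma FF_doob (r L : ℕ) (hr : 1 ≤ r) (s : St) : FF r (L, s) ≤ 1521 * ENNReal.ofReal (GG L s) := by
  by_cases h : (L, s) ∈ small worm r
  · rw [FF, indicator_of_notMem (by simpa using h)]; simp
  refine (indicator_le_self _ _ _).trans ?_
  obtain ⟨t, ht, hD⟩ := Finset.exists_max_image (Finset.range (L + 1))
    (fun t => max (pos s t).1.natAbs (pos s t).2.natAbs) ⟨0, by simp⟩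
  set D := max (pos s t).1.natAbs (pos s t).2.natAbs with hD'
  have h1 : r < D := by
    simp only [small, mem_ofPred_eq, not_forall] at h
    obtain ⟨z, ⟨u, hu, rfl⟩, h2⟩ := h
    have := hD u (by simp at hu ⊢; omega)
    simp only [near, Prod.fst_zero, Prod.snd_zero] at h2 this
    omega
  have h2 : {w | ∃ z ∈ worm (L, s), near w z (18 * r)} ⊆ rect (D + 18 * r) (D + 18 * r) := by
    rintro w ⟨z, ⟨u, hu, rfl⟩, h2⟩
    have := hD u (by simp at hu ⊢; omega)
    simp only [near, rect, mem_ofPred_eq] at h2 this ⊢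
    omega
  refine (card_le h2).trans ?_
  have h3 : (2 * (D + 18 * r) + 1) * (2 * (D + 18 * r) + 1) ≤ 1521 * D ^ 2 := by
    calc _ ≤ (39 * D) * (39 * D) := Nat.mul_le_mul (by omega) (by omega)
      _ = _ := by ring
  have h4 : ((D ^ 2 : ℕ) : ENNReal) ≤ ENNReal.ofReal (GG L s) := by
    rw [← ENNReal.ofReal_natCast]
    apply ENNReal.ofReal_le_ofReal
    have h5 := pos_GG s t L (by simp at ht; omega)
    have h6 : ∀ z : ℤ, ((z.natAbs ^ 2 : ℕ) : ℝ) = (z : ℝ) ^ 2 := by
      intro z; push_cast; rw [Nat.cast_natAbs]; push_cast; exact sq_abs _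
    rcases max_choice (pos s t).1.natAbs (pos s t).2.natAbs with h7 | h7
    · rw [hD', h7, h6]; exact h5.1
    · rw [hD', h7, h6]; exact h5.2
  calc _ ≤ ((1521 * D ^ 2 : ℕ) : ENNReal) := by exact_mod_cast h3
    _ = 1521 * ((D ^ 2 : ℕ) : ENNReal) := by push_cast; rfl
    _ ≤ _ := mul_le_mul' le_rfl h4

lemma FF_rng (r L : ℕ) (s : St) : FF r (L, s) ≤
    ((2 * (18 * r) + 1) * (2 * (18 * r) + 1) : ℕ) * ((worm (L, s)).encard : ENNReal) := by
  refine (indicator_le_self _ _ _).trans ?_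
  have h1 : {w | ∃ z ∈ worm (L, s), near w z (18 * r)} ⊆
      (fun q : Z2 × Z2 => q.1 + q.2) '' (rect (18 * r) (18 * r) ×ˢ worm (L, s)) := by
    rintro w ⟨z, h1, h2⟩
    refine ⟨(w - z, z), ⟨?_, h1⟩, by simp⟩
    simp only [near, rect, mem_ofPred_eq, Prod.fst_sub, Prod.snd_sub] at h2 ⊢
    omega
  rw [← rect_card, ← ENat.toENNReal_mul, ← encard_prod]
  exact ENat.toENNReal_le.2 ((encard_le_encard h1).trans (encard_image_le _ _))

lemma rng_le (L T : ℕ) (s : St) : ((worm (L, s)).encard : ENNReal) ≤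
    T + ∑ t ∈ Finset.range (L + 1), (shf t ⁻¹' NR T).indicator 1 s := by
  classical
  have h1 : worm (L, s) ⊆ ((Finset.Ico (L + 1 - T) (L + 1) ∪
      (Finset.range (L + 1)).filter (fun t => shf t s ∈ NR T)).image (pos s) : Finset Z2) := by
    rintro z ⟨u, hu, rfl⟩
    obtain ⟨t, ht, hm⟩ := Finset.exists_max_image
      ((Finset.range (L + 1)).filter (fun t => pos s t = pos s u)) id
      ⟨u, by simp at hu ⊢; omega⟩
    simp only [Finset.mem_filter, Finset.mem_range, id] at ht hm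
    simp only [Finset.coe_image, mem_image, Finset.mem_coe, Finset.mem_union, Finset.mem_Ico,
      Finset.mem_filter, Finset.mem_range]
    refine ⟨t, ?_, ht.2⟩
    by_cases h2 : L + 1 - T ≤ t
    · exact Or.inl ⟨h2, ht.1⟩
    · refine Or.inr ⟨ht.1, fun v h3 h4 h5 => ?_⟩
      have := hm (t + v) ⟨by omega, by rw [pos_add, h5, add_zero, ht.2]⟩
      omega
  have h2 := ENat.toENNReal_le.2 (encard_le_encard h1)
  rw [encard_coe_eq_coe_finsetCard] at h2
  refine h2.trans ?_
  have h3 := (Finset.card_image_le (f := pos s)).trans (Finset.card_union_le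
    (Finset.Ico (L + 1 - T) (L + 1)) ((Finset.range (L + 1)).filter (fun t => shf t s ∈ NR T)))
  have h4 : (Finset.Ico (L + 1 - T) (L + 1)).card ≤ T := by rw [Nat.card_Ico]; omega
  have h5 : ∑ t ∈ Finset.range (L + 1), (shf t ⁻¹' NR T).indicator (1 : St → ENNReal) s
      = (((Finset.range (L + 1)).filter (fun t => shf t s ∈ NR T)).card : ℕ) := by
    rw [Finset.card_filter]
    push_cast
    refine Finset.sum_congr rfl fun t _ => ?_
    rw [indicator_apply]
    rfl
  rw [h5, ENat.toENNReal_coe]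
  exact_mod_cast h3.trans (Nat.add_le_add_right h4 _)

lemma rng_small (c : ℕ) : ∃ L0, ∀ L : ℕ, L0 ≤ L →
    (c : ENNReal) * ∫⁻ s, ((worm (L, s)).encard : ENNReal) ∂Q ≤ L := by
  obtain ⟨T, hT⟩ := NR_small (4 * c)
  refine ⟨2 * c * T + 1, fun L hL => ?_⟩
  have hm : ∀ t, MeasurableSet (shf t ⁻¹' NR T) := fun t =>
    ((shf_cyl t).mono cylinderEvents_le_pi le_rfl) (NR_meas T)
  have h1 := lintegral_mono (μ := Q) (rng_le L T)
  rw [lintegral_add_left measurable_const,
    lintegral_finsetSum _ (fun t _ => measurable_one.indicator (hm t))] at h1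
  simp only [lintegral_const, measure_univ, mul_one, lintegral_indicator_one (hm _),
    shf_pre _ (NR_meas T), Finset.sum_const, Finset.card_range, nsmul_eq_mul] at h1
  refine (mul_le_mul' le_rfl h1).trans ?_
  have hq : Q (NR T) ≠ ⊤ := measure_ne_top _ _
  rw [← ENNReal.toReal_le_toReal (by finiteness) (by finiteness)] at hT ⊢
  rw [ENNReal.toReal_mul, ENNReal.toReal_add (by finiteness) (by finiteness)]
  simp only [ENNReal.toReal_mul, ENNReal.toReal_natCast, ENNReal.toReal_one] at hT ⊢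
  have h2 : (2 * c * T + 1 : ℝ) ≤ L := by exact_mod_cast hL
  push_cast at hT ⊢
  have h3 : (0 : ℝ) ≤ c * T := by positivity
  have h4 : (0 : ℝ) ≤ L := by positivity
  nlinarith

theorem worms : ∃ m : PMF ℕ, m 0 = 0 ∧ ∑' L : ℕ, (L : ENNReal) * m L = ⊤ ∧ ∃ v0 : NNReal, 0 < v0 ∧
    ∀ v ≤ v0, law v (m.toMeasure.prod Q) {ω | Perc (occ worm ω)} = 0 := by
  choose g hg using rng_small
  let cc : ℕ → ℕ := fun j => (2 * (18 * 6 ^ j) + 1) * (2 * (18 * 6 ^ j) + 1)
  obtain ⟨s, s1, s2⟩ : ∃ s : ℕ → ℕ, (∀ k, s k + 1 ≤ s (k + 1)) ∧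
      ∀ k, g (cc (s k + k + 1) * 2 ^ (k + 1)) ≤ 6 ^ s (k + 1) :=
    ⟨fun n => Nat.rec 0 (fun k x => max (x + 1) (g (cc (x + k + 1) * 2 ^ (k + 1)))) n,
      fun k => le_max_left _ _,
      fun k => (le_max_right _ _).trans (Nat.lt_pow_self (by norm_num)).le⟩
  have sm : StrictMono s := strictMono_nat_of_lt_succ s1
  let w : ℕ → ENNReal := fun k => (((6 ^ s k : ℕ) : ENNReal))⁻¹
  have h0 : tsum w ≠ 0 := fun h => by simpa [w] using ENNReal.tsum_eq_zero.1 h 0
  have h1 : tsum w ≠ ⊤ := by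
    have : ∀ k, w k ≤ 2⁻¹ ^ k := by
      intro k
      simp only [w]
      rw [← ENNReal.inv_pow, ENNReal.inv_le_inv]
      push_cast
      calc (2 : ENNReal) ^ k ≤ 6 ^ k := by gcongr; norm_num
        _ ≤ 6 ^ (s k) := pow_le_pow_right₀ (by norm_num) (sm.id_le k)
    refine ne_top_of_le_ne_top ?_ (ENNReal.tsum_le_tsum this)
    rw [ENNReal.tsum_geometric]; simp
  have hZ : (tsum w)⁻¹ ≠ ⊤ := by simpa using h0
  have hw : ∀ k, ((6 ^ s k : ℕ) : ENNReal) * w k = 1 := fun k =>
    ENNReal.mul_inv_cancel (by simp) (by simp)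
  refine ⟨(PMF.normalize w h0 h1).map (fun k => 6 ^ s k), ?_, ?_, ?_⟩
  · rw [PMF.apply_eq_zero_iff, PMF.mem_support_map_iff]
    rintro ⟨k, -, hk⟩
    simp at hk
  · rw [pmf_tsum _ (fun L => (L : ENNReal)), lac_int]
    simp_rw [hw]
    rw [ENNReal.tsum_const_eq_top_of_ne_zero one_ne_zero, ENNReal.top_mul (by simpa using h1)]
  · let b : ℕ → ℕ → ENNReal := fun j k => (∫⁻ x, FF (6 ^ j) (6 ^ s k, x) ∂Q) * w k
    have e0 : ∀ j, err worm (((PMF.normalize w h0 h1).map (fun k => 6 ^ s k)).toMeasure.prod Q)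
        (6 ^ j) (18 * 6 ^ j) ≤ (∑' k, b j k) * (tsum w)⁻¹ := by
      intro j
      rw [err_eq worm_meas, ← lac_int w h0 h1 _ (fun L => ∫⁻ x, FF (6 ^ j) (L, x) ∂Q)]
      refine le_trans (le_of_eq ?_) (lintegral_prod_le _)
      simp only [FF]
      push_cast
      rfl
    have b0 : ∀ j k, s k ≤ j → b j k = 0 := by
      intro j k h
      simp only [b, FF_zero _ _ (Nat.pow_le_pow_right (show 0 < 6 by norm_num) h)]
      simp
    have b1 : ∀ j k, b j k ≤ 1521 * 16 := by
      intro j k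
      have := lintegral_mono (μ := Q) (FF_doob (6 ^ j) (6 ^ s k) (Nat.one_le_pow _ _ (by norm_num)))
      rw [lintegral_const_mul' _ _ (by simp)] at this
      calc b j k ≤ (1521 * (16 * ((6 ^ s k : ℕ) : ENNReal))) * w k :=
            mul_le_mul' (this.trans (mul_le_mul' le_rfl (GG_int _))) le_rfl
        _ = 1521 * 16 * (((6 ^ s k : ℕ) : ENNReal) * w k) := by ring
        _ = _ := by rw [hw, mul_one]
    have b2 : ∀ j k, j ≤ s k + k + 1 → b j (k + 1) ≤ 2⁻¹ ^ (k + 1) := by
      intro j k h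
      have h2 := lintegral_mono (μ := Q) (FF_rng (6 ^ j) (6 ^ s (k + 1)))
      rw [lintegral_const_mul' _ _ (ENNReal.natCast_ne_top _)] at h2
      have h3 := hg _ _ (s2 k)
      have h4 : cc j ≤ cc (s k + k + 1) := by
        have := Nat.pow_le_pow_right (show 0 < 6 by norm_num) h
        exact Nat.mul_le_mul (by omega) (by omega)
      have h5 : (cc j : ENNReal) ≤ cc (s k + k + 1) := by exact_mod_cast h4
      have h6 : (2 : ENNReal)⁻¹ ^ (k + 1) * 2 ^ (k + 1) = 1 := by
        rw [← mul_pow, ENNReal.inv_mul_cancel (by simp) (by simp), one_pow]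
      calc b j (k + 1) ≤ (cc (s k + k + 1) * ∫⁻ x, ((worm (6 ^ s (k + 1), x)).encard : ENNReal) ∂Q)
            * w (k + 1) := mul_le_mul' (h2.trans (mul_le_mul' h5 le_rfl)) le_rfl
        _ = 2⁻¹ ^ (k + 1) * ((((cc (s k + k + 1) * 2 ^ (k + 1) : ℕ) : ENNReal) *
            ∫⁻ x, ((worm (6 ^ s (k + 1), x)).encard : ENNReal) ∂Q) * w (k + 1)) := by
            rw [Nat.cast_mul (cc _), Nat.cast_pow, Nat.cast_ofNat]
            calc _ = (2⁻¹ ^ (k + 1) * 2 ^ (k + 1)) * ((cc (s k + k + 1) *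
              ∫⁻ x, ((worm (6 ^ s (k + 1), x)).encard : ENNReal) ∂Q) * w (k + 1)) := by
                  rw [h6, one_mul]
              _ = _ := by ring
        _ ≤ 2⁻¹ ^ (k + 1) * (((6 ^ s (k + 1) : ℕ) : ENNReal) * w (k + 1)) :=
            mul_le_mul' le_rfl (mul_le_mul' h3 le_rfl)
        _ = _ := by rw [hw, mul_one]
    have hc : ((2 + 1521 * 16) * (tsum w)⁻¹ : ENNReal) ≠ ⊤ := ENNReal.mul_ne_top (by finiteness) hZ
    refine main worm_meas _ ((2 + 1521 * 16) * (tsum w)⁻¹).toNNReal (fun j => ?_) (fun m η hη => ?_)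
    · rw [ENNReal.coe_toNNReal hc]
      refine (e0 j).trans (mul_le_mul' ?_ le_rfl)
      have hex : ∃ k, j < s k := ⟨j + 1, sm.id_le (j + 1)⟩
      have hb : ∀ k, b j k ≤ 2⁻¹ ^ k + if k = Nat.find hex then 1521 * 16 else 0 := by
        intro k
        rcases lt_trichotomy k (Nat.find hex) with h | h | h
        · rw [b0 j k (not_lt.1 (Nat.find_min hex h))]; simp
        · rw [if_pos h]; exact (b1 j k).trans le_add_self
        · obtain ⟨k', rfl⟩ : ∃ k', k = k' + 1 := ⟨k - 1, by omega⟩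
          have h3 := Nat.find_spec hex
          have h4 := sm.monotone (show Nat.find hex ≤ k' by omega)
          exact (b2 j k' (by omega)).trans le_self_add
      refine (ENNReal.tsum_le_tsum hb).trans (le_of_eq ?_)
      rw [ENNReal.tsum_add, ENNReal.tsum_geometric, tsum_ite_eq]
      simp
    · obtain ⟨t, ht⟩ := small_pow _ (ENNReal.mul_ne_top (a := 2) (by simp) hZ) η hη
      refine ⟨s (m + t), fun i hi => (e0 _).trans (le_trans ?_ ht)⟩
      rw [mul_right_comm]
      refine mul_le_mul' ?_ le_rfl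
      rw [← Summable.sum_add_tsum_nat_add' (k := m + t + 1) ENNReal.summable,
        Finset.sum_eq_zero (fun k hk => b0 _ k (by
          have := sm.monotone (show k ≤ m + t by simp at hk; omega)
          omega)), zero_add]
      have : ∀ k, b (s (m + t) + i) (k + (m + t + 1)) ≤ 2⁻¹ ^ k * 2⁻¹ ^ t := by
        intro k
        rw [← add_assoc, ← pow_add]
        have := sm.monotone (show m + t ≤ k + (m + t) by omega)
        exact (b2 _ _ (by omega)).trans (pow_le_pow_of_le_one (by simp) (by simp) (by omega))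
      refine (ENNReal.tsum_le_tsum this).trans (le_of_eq ?_)
      rw [ENNReal.tsum_mul_right, ENNReal.tsum_geometric]
      simp

end
end Pool.Agent.H22.Zoo
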